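import Pool.Agent.T2h79.LG.Stm2
import Pool.Agent.T2h77N.Asm5

/-!
# Project LG, task HIH: few forms have little mass at the points of small height, general level
-/

set_option autoImplicit false

open MeasureTheory Matrix
open scoped MatrixGroups ENNReal Topology ComplexConjugate

noncomputable section

namespace Pool.Agent.T2h79.LG.HIH

open Pool.Agent.T2h77.N

/-- the logarithm of the largest ratio -/
theorem log_WD {n N : ℕ} {W D : ℝ} (hN : 1 ≤ N) (hW : 1 ≤ W) (hD1 : 1 ≤ D) (hD : D ≤ (N : ℝ) ^ (n ^ 2)) :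
    1 + Real.log (W * D) ≤ (1 + Real.log W + (n : ℝ) ^ 2) * (1 + Real.log N) := by
  have hN1 : (1 : ℝ) ≤ N := by exact_mod_cast hN
  have h1 : Real.log D ≤ (n : ℝ) ^ 2 * Real.log N := by
    have := Real.log_le_log (by linarith) hD
    rwa [Real.log_pow, Nat.cast_pow] at this
  rw [Real.log_mul (by linarith) (by linarith)]
  have h2 : 0 ≤ Real.log N := Real.log_nonneg hN1
  have h3 : 0 ≤ Real.log W := Real.log_nonneg hW
  have h4 : (0 : ℝ) ≤ (n : ℝ) ^ 2 := by positivity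
  nlinarith [mul_nonneg h3 h2]

theorem SL_mono {n : ℕ} {Y Y' : ℝ} (h : Y ≤ Y') : SL n Y ⊆ SL n Y' := by
  rintro x ⟨h1, h2⟩
  exact ⟨h1, fun i j hij => (h2 i j hij).trans (mul_le_mul_of_nonneg_right h (norm_nonneg _))⟩

theorem sat_mono {n : ℕ} {T T' : Set (GR n)} (h : T ⊆ T') : sat T ⊆ sat T' := by
  rintro x ⟨γ, hγ⟩
  exact ⟨γ, h hγ⟩

/-- the powers in the high region -/
theorem pow_high' {A η N D : ℝ} (hA : 1 ≤ A) (hη0 : 0 < η) (hη : η ≤ 1 / (2 * A ^ 2)) (hN : 1 ≤ N) (hD : N ≤ D) :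
    (N ^ η)⁻¹ + (N ^ η) ^ A * D ^ (-(1 / A)) ≤ 2 * N ^ (-η) := by
  have hN0 : 0 < N := by linarith
  have hD0 : 0 < D := by linarith
  have h1 : (N ^ η)⁻¹ = N ^ (-η) := (Real.rpow_neg hN0.le η).symm
  have h2 : (N ^ η) ^ A * D ^ (-(1 / A)) ≤ N ^ (-η) := by
    have h0 : D ^ (-(1 / A)) ≤ N ^ (-(1 / A)) :=
      Real.rpow_le_rpow_of_nonpos hN0 hD (by
        have : 0 ≤ 1 / A := by positivity
        linarith)
    calc (N ^ η) ^ A * D ^ (-(1 / A)) ≤ (N ^ η) ^ A * N ^ (-(1 / A)) := by gcongr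
      _ = N ^ (η * A + -(1 / A)) := by rw [← Real.rpow_mul hN0.le, ← Real.rpow_add hN0]
      _ ≤ N ^ (-η) := by
          refine Real.rpow_le_rpow_of_exponent_le hN ?_
          have h3 : η * A + η ≤ 1 / A := by
            have e : η * A + η ≤ (A + 1) / (2 * A ^ 2) := by
              have : η * (A + 1) ≤ 1 / (2 * A ^ 2) * (A + 1) := by gcongr
              calc η * A + η = η * (A + 1) := by ring
                _ ≤ 1 / (2 * A ^ 2) * (A + 1) := this
                _ = (A + 1) / (2 * A ^ 2) := by ring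
            refine e.trans ?_
            rw [div_le_div_iff₀ (by positivity) (by positivity)]
            nlinarith
          linarith
  rw [h1]
  linarith

theorem wt_nonneg' {n : ℕ} (x : GR n) : 0 ≤ wt (ac x) := by
  unfold wt
  refine Finset.prod_nonneg fun i _ => Finset.prod_nonneg fun j _ => ?_
  split_ifs
  · exact div_nonneg (norm_nonneg _) (norm_nonneg _)
  · exact zero_le_one

set_option maxHeartbeats 1000000 in
theorem t_HIH (hiw : S_iw) (hred : S_red) (hint : S_int) (_hent : S_ent) (hhigh : S_high) (htr : S_trace)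
    (hcut : S_cut) (hmass : S_mass) (hcov : S_cov) (hrcf : S_rcf) : S_hih := by
  classical
  intro n hn
  obtain ⟨A, hA, hhigh⟩ := hhigh n hn
  refine ⟨1 / (2 * A ^ 2), by positivity, fun U χ hχ hχc hχ0 hχU hχ1 η hη0 hη => ?_⟩
  obtain ⟨M, Ct, hCt, htr⟩ := htr n χ hχ hχc
  obtain ⟨Ch, hCh, hhigh⟩ := hhigh M
  obtain ⟨W, hW, hcut⟩ := hcut n χ (1 / 16) hχ hχc (by norm_num)
  obtain ⟨Ci, hCi, hi⟩ := hint n
  obtain ⟨C₁, hC₁, hlog⟩ := log_pow_le n (η / 2) (by positivity)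
  have hlW : 0 ≤ Real.log W := Real.log_nonneg hW
  set K : ℝ := 1 + Real.log W + (n : ℝ) ^ 2 with hK
  have hK1 : 1 ≤ K := by
    have : (0 : ℝ) ≤ (n : ℝ) ^ 2 := by positivity
    linarith
  set E : ℝ := 16 * (Ct * (Ch * 2) * Ci * K ^ n * C₁) with hE
  have hE0 : 0 < E := by positivity
  refine ⟨Ch + E, by linarith, fun N _ H F hD1 hD2 hF k f hf horth => ?_⟩
  have hN1 : 1 ≤ N := Nat.one_le_iff_ne_zero.2 (NeZero.ne N)
  have hNr : (1 : ℝ) ≤ N := by exact_mod_cast hN1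
  have hN0 : (0 : ℝ) < N := by linarith
  set D : ℝ := (ixS H : ℝ) with hD
  have hND : (N : ℝ) ≤ D := by
    rw [hD]
    exact_mod_cast hD1
  have hD1' : 1 ≤ D := hNr.trans hND
  have hD2' : D ≤ (N : ℝ) ^ (n ^ 2) := by
    rw [hD]
    exact_mod_cast hD2
  set m : ℝ := (H.index : ℝ) with hm
  have hm0 : 0 ≤ m := Nat.cast_nonneg _
  have hWD : 1 ≤ W * D := by nlinarith
  have hlN : 0 ≤ Real.log N := Real.log_nonneg hNr
  have hlWD : 0 ≤ Real.log (W * D) := Real.log_nonneg hWD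
  have hNη : 1 ≤ (N : ℝ) ^ η := Real.one_le_rpow hNr hη0.le
  set Y : ℝ := Ch * (N : ℝ) ^ η with hY
  set low : Fin k → ℝ≥0∞ := fun i => ∫⁻ g in F ∩ sat (SL n Y), sq (Rc χ (f i)) g ∂(mu n) with hlowdef
  set high : Fin k → ℝ≥0∞ := fun i => ∫⁻ g in F ∩ sat (SH n Y (W * D)), sq (Rc χ (f i)) g ∂(mu n) with hhighdef
  have hsplit : ∀ i, ENNReal.ofReal (3 / 16) ≤ low i + high i := fun i =>
    mass_split hred hrcf hχ hχc hF (hf i).1 (hf i).2.1 (by rw [horth, if_pos rfl])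
      (hmass n U χ hχ hχc hχ0 hχU hχ1 N H F hF (f i) (hf i).1 (hf i).2.1 (by rw [horth, if_pos rfl]) (hf i).2.2.2)
      (hcut N H F hF (f i) (hf i).1 (hf i).2.1 (hf i).2.2.1) Y
  set B' : ℝ := Ct * (Ch * m * (2 * (N : ℝ) ^ (-η))) * (Ci * (1 + Real.log (W * D)) ^ n) with hB'
  have hB0' : 0 ≤ B' := by positivity
  have hhighB : ∑ i, high i ≤ ENNReal.ofReal B' := by
    refine high_bound hcov hrcf hiw hχ hχc hF (fun i => (hf i).1) (fun i => (hf i).2.1) (M := M) (C := Ct)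
      (fun g c => htr N H F hF k f (fun i => (hf i).1) (fun i => (hf i).2.1) horth 1 {1} one_pos (by simp)
        (isReps_one n) g c) hCt.le Y (W * D) (Ch * m * (2 * (N : ℝ) ^ (-η))) (Ci * (1 + Real.log (W * D)) ^ n)
      (by positivity) ?_ (hi (W * D) hWD)
    intro x hx
    obtain ⟨⟨hxS, -⟩, hx2⟩ := hx
    have h2 := hhigh N H ((N : ℝ) ^ η) x hNη hxS hx2
    refine h2.trans ?_
    have h3 := pow_high' hA hη0 hη hNr hND
    have h4 := wt_nonneg' x
    calc Ch * m * wt (ac x) * (((N : ℝ) ^ η)⁻¹ + ((N : ℝ) ^ η) ^ A * D ^ (-(1 / A)))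
        ≤ Ch * m * wt (ac x) * (2 * (N : ℝ) ^ (-η)) := by gcongr
      _ = Ch * m * (2 * (N : ℝ) ^ (-η)) * wt (ac x) := by ring
  refine ⟨Finset.univ.filter fun i => low i < ENNReal.ofReal (1 / 8), ?_, fun i hi => ?_⟩
  · set I := Finset.univ.filter fun i => low i < ENNReal.ofReal (1 / 8) with hI
    have h1 : ∀ i ∈ I, ENNReal.ofReal (1 / 16) ≤ high i := by
      intro i hi
      rw [hI, Finset.mem_filter] at hi
      have h2 := hsplit i
      have h3 : ENNReal.ofReal (3 / 16) = ENNReal.ofReal (1 / 8) + ENNReal.ofReal (1 / 16) := by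
        rw [← ENNReal.ofReal_add (by norm_num) (by norm_num)]
        norm_num
      rw [h3] at h2
      by_contra h4
      rw [not_le] at h4
      exact absurd (ENNReal.add_lt_add hi.2 h4) (not_lt.2 h2)
    have h2 : ENNReal.ofReal (I.card * (1 / 16)) ≤ ENNReal.ofReal B' := by
      calc ENNReal.ofReal (I.card * (1 / 16)) = ∑ _i ∈ I, ENNReal.ofReal (1 / 16) := by
            rw [Finset.sum_const, nsmul_eq_mul, ENNReal.ofReal_mul (by positivity), ENNReal.ofReal_natCast]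
        _ ≤ ∑ i ∈ I, high i := Finset.sum_le_sum h1
        _ ≤ ∑ i, high i := Finset.sum_le_sum_of_subset (Finset.subset_univ _)
        _ ≤ _ := hhighB
    have h3 : (I.card : ℝ) * (1 / 16) ≤ B' := (ENNReal.ofReal_le_ofReal_iff hB0').1 h2
    have h4 : (1 + Real.log (W * D)) ^ n ≤ K ^ n * (C₁ * (N : ℝ) ^ (η / 2)) := by
      calc (1 + Real.log (W * D)) ^ n ≤ (K * (1 + Real.log N)) ^ n :=
            pow_le_pow_left₀ (by linarith) (log_WD (n := n) hN1 hW hD1' hD2') n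
        _ = K ^ n * (1 + Real.log N) ^ n := mul_pow _ _ _
        _ ≤ _ := by
            gcongr
            exact hlog N hNr
    have h5 : B' ≤ Ct * (Ch * m * (2 * (N : ℝ) ^ (-η))) * (Ci * (K ^ n * (C₁ * (N : ℝ) ^ (η / 2)))) := by
      rw [hB']
      gcongr
    have h6 : (N : ℝ) ^ (-η) * (N : ℝ) ^ (η / 2) = (N : ℝ) ^ (-(η / 2)) := by
      rw [← Real.rpow_add hN0]
      congr 1
      ring
    calc (I.card : ℝ) = 16 * ((I.card : ℝ) * (1 / 16)) := by ring
      _ ≤ 16 * (Ct * (Ch * m * (2 * (N : ℝ) ^ (-η))) * (Ci * (K ^ n * (C₁ * (N : ℝ) ^ (η / 2))))) := by linarith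
      _ = E * m * ((N : ℝ) ^ (-η) * (N : ℝ) ^ (η / 2)) := by
          rw [hE]
          ring
      _ = E * m * (N : ℝ) ^ (-(η / 2)) := by rw [h6]
      _ ≤ (Ch + E) * m * (N : ℝ) ^ (-(η / 2)) := by
          gcongr
          linarith
  · rw [Finset.mem_filter, not_and, not_lt] at hi
    refine (hi (Finset.mem_univ _)).trans (lintegral_mono_set (Set.inter_subset_inter_right _ (sat_mono (SL_mono ?_))))
    rw [hY]
    gcongr
    linarith

end Pool.Agent.T2h79.LG.HIH
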