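import Pool.Agent.T2h79.LG.Stm

set_option autoImplicit false

/-!
# Task BOX: points of the dual lattice in a box
-/

open Matrix

namespace Pool.Agent.T2h79.LG.BOX

open Pool.Agent.T2h77.N Pool.Agent.T2h79.LG

/-- the row lattice -/
def rowLat {ρ : ℕ} (B : MZ ρ) : AddSubgroup (Fin ρ → ℤ) where
  carrier := {v | ∃ c : Fin ρ → ℤ, v = c ᵥ* B}
  add_mem' := by
    rintro _ _ ⟨a, rfl⟩ ⟨b, rfl⟩
    exact ⟨a + b, (Matrix.add_vecMul B a b).symm⟩
  zero_mem' := ⟨0, (zero_vecMul B).symm⟩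
  neg_mem' := by
    rintro _ ⟨a, rfl⟩
    exact ⟨-a, (Matrix.neg_vecMul a B).symm⟩

lemma mem_rowLat {ρ : ℕ} (B : MZ ρ) (v : Fin ρ → ℤ) :
    v ∈ rowLat B ↔ ∃ c : Fin ρ → ℤ, v = c ᵥ* B := Iff.rfl

lemma det_bound {ρ : ℕ} (A : Matrix (Fin ρ) (Fin ρ) ℚ) (s : Fin ρ → ℝ)
    (h : ∀ i j, |((A i j : ℚ) : ℝ)| ≤ s j) :
    |((A.det : ℚ) : ℝ)| ≤ ρ.factorial * ∏ j, s j := by
  rw [Matrix.det_apply']
  push_cast
  refine (Finset.abs_sum_le_sum_abs _ _).trans ?_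
  have h1 : ∀ σ ∈ (Finset.univ : Finset (Equiv.Perm (Fin ρ))),
      |(((Equiv.Perm.sign σ : ℤ) : ℝ)) * ∏ i, ((A (σ i) i : ℚ) : ℝ)| ≤ ∏ j, s j := by
    intro σ _
    rw [abs_mul, Finset.abs_prod]
    have h2 : |(((Equiv.Perm.sign σ : ℤ) : ℝ))| = 1 := by
      rcases Int.units_eq_one_or (Equiv.Perm.sign σ) with h | h <;> rw [h] <;> simp
    rw [h2, one_mul]
    exact Finset.prod_le_prod (fun i _ => abs_nonneg _) fun i _ => h _ _
  refine (Finset.sum_le_sum h1).trans ?_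
  rw [Finset.sum_const, Finset.card_univ, Fintype.card_perm, Fintype.card_fin, nsmul_eq_mul]

theorem t_BOX (hI : S_idx) (hY : S_idy) : S_box := by
  classical
  intro ρ
  refine ⟨3 ^ ρ * ρ.factorial, ?_, ?_⟩
  · have h1 : (1 : ℝ) ≤ 3 ^ ρ := one_le_pow₀ (by norm_num)
    have h2 : (1 : ℝ) ≤ ρ.factorial := by exact_mod_cast Nat.factorial_pos ρ
    nlinarith
  intro K s hK hs S hS
  obtain ⟨B, hBdet, hBmem⟩ := hI ρ K hK
  set Bq : Matrix (Fin ρ) (Fin ρ) ℚ := B.map (Int.cast : ℤ → ℚ) with hBq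
  have hBqdet : Bq.det = ((K.index : ℤ) : ℚ) := by
    rw [← hBdet]
    exact ((Int.castRingHom ℚ).map_det B).symm
  have hBq0 : Bq.det ≠ 0 := by
    rw [hBqdet]
    have : (K.index : ℤ) ≠ 0 := by exact_mod_cast hK
    exact_mod_cast this
  have hrow : ∀ i, B i ∈ K := by
    intro i
    rw [hBmem]
    exact ⟨Pi.single i 1, by rw [Matrix.single_one_vecMul]; rfl⟩
  -- the integral vector of a point
  set Zf : (Fin ρ → ℚ) → (Fin ρ → ℤ) := fun y i => ⌊(Bq *ᵥ y) i⌋ with hZf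
  have hZ : ∀ y ∈ S, ∀ i, ((Zf y i : ℤ) : ℚ) = (Bq *ᵥ y) i := by
    intro y hy i
    obtain ⟨z, hz⟩ := ((hS y).mp hy).1 (B i) (hrow i)
    have h1 : (Bq *ᵥ y) i = z := by
      rw [← hz]
      show ∑ j, (B i j : ℚ) * y j = _
      exact Finset.sum_congr rfl fun j _ => mul_comm _ _
    show ((⌊(Bq *ᵥ y) i⌋ : ℤ) : ℚ) = _
    rw [h1, Int.floor_intCast]
  have hBinj : ∀ y y' : Fin ρ → ℚ, Bq *ᵥ y = Bq *ᵥ y' → y = y' := by
    intro y y' h
    have h1 : Bq *ᵥ (y - y') = 0 := by rw [Matrix.mulVec_sub, h, sub_self]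
    exact sub_eq_zero.mp (Matrix.eq_zero_of_mulVec_eq_zero hBq0 h1)
  have hfin : S.Finite := by
    set M : Fin ρ → ℤ := fun i => ⌈∑ j, |(B i j : ℝ)| * s j⌉ with hM
    apply Set.Finite.of_injOn (f := Zf) (t := Set.Icc (fun i => -M i) M)
    · intro y hy
      have h1 : ∀ i, |((Zf y i : ℤ) : ℝ)| ≤ ∑ j, |(B i j : ℝ)| * s j := by
        intro i
        have h2 : ((Zf y i : ℤ) : ℝ) = ∑ j, (B i j : ℝ) * ((y j : ℚ) : ℝ) := by
          have h3 : ((Zf y i : ℤ) : ℚ) = ∑ j, (B i j : ℚ) * y j := hZ y hy i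
          have h4 : (((Zf y i : ℤ) : ℚ) : ℝ) = ((∑ j, (B i j : ℚ) * y j : ℚ) : ℝ) := by rw [h3]
          push_cast at h4
          exact h4
        rw [h2]
        refine (Finset.abs_sum_le_sum_abs _ _).trans (Finset.sum_le_sum fun j _ => ?_)
        rw [abs_mul]
        exact mul_le_mul_of_nonneg_left (((hS y).mp hy).2 j) (abs_nonneg _)
      have h2 : ∀ i, |Zf y i| ≤ M i := by
        intro i
        have h3 : ((|Zf y i| : ℤ) : ℝ) ≤ (M i : ℝ) := by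
          rw [Int.cast_abs]
          exact (h1 i).trans (Int.le_ceil _)
        exact_mod_cast h3
      rw [Set.mem_Icc]
      exact ⟨fun i => (abs_le.mp (h2 i)).1, fun i => (abs_le.mp (h2 i)).2⟩
    · intro y hy y' hy' h
      apply hBinj
      ext i
      rw [← hZ y hy i, ← hZ y' hy' i, h]
    · exact Set.finite_Icc _ _
  refine ⟨hfin, ?_⟩
  rintro ⟨y₀, hy₀, hy₀S⟩
  have hTfin : {Y : Fin ρ → Fin ρ → ℚ | ∀ i, Y i ∈ S}.Finite := Set.Finite.pi' fun _ => hfin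
  obtain ⟨A, hA, hmax⟩ := Set.exists_max_image {Y : Fin ρ → Fin ρ → ℚ | ∀ i, Y i ∈ S}
    (fun Y => |(Matrix.of Y).det|) hTfin ⟨y₀, hy₀S⟩
  have hA' : ∀ i, A i ∈ S := hA
  set Am : Matrix (Fin ρ) (Fin ρ) ℚ := Matrix.of A with hAm
  have hy₀det : (Matrix.of y₀).det ≠ 0 := by
    have h1 : LinearIndependent ℚ (Matrix.of y₀).row := hy₀
    rw [Matrix.linearIndependent_rows_iff_isUnit, Matrix.isUnit_iff_isUnit_det] at h1
    exact h1.ne_zero
  have hA0 : Am.det ≠ 0 := by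
    have h1 := hmax y₀ hy₀S
    have h2 : 0 < |(Matrix.of y₀).det| := abs_pos.mpr hy₀det
    exact abs_pos.mp (h2.trans_le h1)
  -- the coordinates
  set t : (Fin ρ → ℚ) → (Fin ρ → ℚ) := fun z j => (Am.updateRow j z).det / Am.det with ht
  have htA : ∀ z, t z ᵥ* Am = z := by
    intro z
    have h1 := Matrix.mulVec_cramer Amᵀ z
    rw [Matrix.mulVec_transpose, Matrix.det_transpose] at h1
    have h2 : t z = (Am.det)⁻¹ • (Matrix.cramer Amᵀ z) := by
      ext j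
      rw [Pi.smul_apply, Matrix.cramer_transpose_apply, smul_eq_mul]
      show (Am.updateRow j z).det / Am.det = _
      rw [div_eq_inv_mul]
    rw [h2, Matrix.smul_vecMul, h1, smul_smul, inv_mul_cancel₀ hA0, one_smul]
  have ht1 : ∀ z ∈ S, ∀ j, |t z j| ≤ 1 := by
    intro z hz j
    show |(Am.updateRow j z).det / Am.det| ≤ 1
    rw [abs_div, div_le_one (abs_pos.mpr hA0)]
    have h1 := hmax (Function.update A j z) (by
      intro i
      by_cases h : i = j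
      · subst h; rw [Function.update_self]; exact hz
      · rw [Function.update_of_ne h]; exact hA' i)
    exact h1
  -- the integral matrix
  set Zm : MZ ρ := Matrix.of fun i j => Zf (A j) i with hZm
  have hZm' : Zm.map (Int.cast : ℤ → ℚ) = Bq * Amᵀ := by
    ext i j
    rw [Matrix.map_apply, Matrix.mul_apply]
    show ((Zf (A j) i : ℤ) : ℚ) = _
    rw [hZ (A j) (hA' j) i]
    rfl
  have hZdet : (Zm.det : ℚ) = Bq.det * Am.det := by
    have h1 := congrArg Matrix.det hZm'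
    rw [Matrix.det_mul, Matrix.det_transpose] at h1
    rw [← h1]
    exact (Int.castRingHom ℚ).map_det Zm
  have hZ0 : Zm.det ≠ 0 := by
    intro h
    rw [h, Int.cast_zero] at hZdet
    exact mul_ne_zero hBq0 hA0 hZdet.symm
  have hidx := hY ρ Zmᵀ (rowLat Zmᵀ) (by rw [Matrix.det_transpose]; exact hZ0)
    (fun v => mem_rowLat Zmᵀ v)
  rw [Matrix.det_transpose] at hidx
  have hidx0 : (rowLat Zmᵀ).index ≠ 0 := by
    intro h
    rw [h] at hidx
    have h1 : |Zm.det| = 0 := by rw [← hidx]; norm_num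
    exact hZ0 (abs_eq_zero.mp h1)
  have : (rowLat Zmᵀ).FiniteIndex := ⟨hidx0⟩
  have hfq : Finite ((Fin ρ → ℤ) ⧸ rowLat Zmᵀ) := AddSubgroup.finite_quotient_of_finiteIndex
  -- the injection
  let Φ : S → ((Fin ρ → ℤ) ⧸ rowLat Zmᵀ) × (Fin ρ → Set.Icc (-1 : ℤ) 1) := fun z =>
    (QuotientAddGroup.mk (Zf z.1), fun j => ⟨⌊t z.1 j⌋, by
      have h1 := abs_le.mp (ht1 z.1 z.2 j)
      rw [Set.mem_Icc]
      constructor
      · apply Int.le_floor.mpr
        push_cast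
        exact h1.1
      · have h2 : ((⌊t z.1 j⌋ : ℤ) : ℚ) ≤ ((1 : ℤ) : ℚ) := by
          push_cast
          exact (Int.floor_le _).trans h1.2
        exact_mod_cast h2⟩)
  have hΦ : Function.Injective Φ := by
    intro z z' h
    have h1 : (QuotientAddGroup.mk (Zf z.1) : (Fin ρ → ℤ) ⧸ rowLat Zmᵀ) =
        QuotientAddGroup.mk (Zf z'.1) := congrArg Prod.fst h
    have h2 : ∀ j, ⌊t z.1 j⌋ = ⌊t z'.1 j⌋ := fun j =>
      congrArg Subtype.val (congrFun (congrArg Prod.snd h) j)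
    rw [QuotientAddGroup.eq] at h1
    obtain ⟨c, hc⟩ := h1
    rw [Matrix.vecMul_transpose] at hc
    have h3 : (z'.1 - z.1) = (fun j => (c j : ℚ)) ᵥ* Am := by
      apply hBinj
      rw [← Matrix.mulVec_transpose Am, Matrix.mulVec_mulVec, ← hZm', Matrix.mulVec_sub]
      ext i
      have h4 := congrFun hc i
      have h5 : ((-Zf z.1 i + Zf z'.1 i : ℤ) : ℚ) = (((Zm *ᵥ c) i : ℤ) : ℚ) := by
        rw [← h4]; rfl
      rw [Pi.sub_apply, ← hZ z.1 z.2 i, ← hZ z'.1 z'.2 i]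
      have h6 : (((Zm *ᵥ c) i : ℤ) : ℚ) = (Zm.map (Int.cast : ℤ → ℚ) *ᵥ fun j => (c j : ℚ)) i := by
        show (((∑ j, Zm i j * c j : ℤ)) : ℚ) = ∑ j, ((Zm i j : ℤ) : ℚ) * (c j : ℚ)
        push_cast
        rfl
      rw [← h6, ← h5]
      push_cast
      ring
    have h4 : (t z'.1 - t z.1) = fun j => (c j : ℚ) := by
      have h5 : (t z'.1 - t z.1 - fun j => (c j : ℚ)) ᵥ* Am = 0 := by
        rw [Matrix.sub_vecMul, Matrix.sub_vecMul, htA, htA, ← h3, sub_self]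
      have h6 := Matrix.eq_zero_of_vecMul_eq_zero hA0 h5
      exact sub_eq_zero.mp h6
    have h5 : ∀ j, c j = 0 := by
      intro j
      have h6 : t z'.1 j - t z.1 j = c j := congrFun h4 j
      have h7 := Int.abs_sub_lt_one_of_floor_eq_floor (h2 j)
      have h8 : |((c j : ℤ) : ℚ)| < 1 := by
        rw [← h6, abs_sub_comm]; exact h7
      have h9 : |c j| < 1 := by
        have : ((|c j| : ℤ) : ℚ) < ((1 : ℤ) : ℚ) := by rw [Int.cast_abs]; simpa using h8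
        exact_mod_cast this
      exact Int.abs_lt_one_iff.mp h9
    have h6 : z'.1 - z.1 = 0 := by
      rw [h3]
      have : (fun j => (c j : ℚ)) = 0 := by ext j; rw [h5 j]; simp
      rw [this, Matrix.zero_vecMul]
    exact Subtype.ext (sub_eq_zero.mp h6).symm
  have hcard := Nat.card_le_card_of_injective Φ hΦ
  rw [Nat.card_prod, Nat.card_fun] at hcard
  have h3 : Nat.card (Set.Icc (-1 : ℤ) 1) = 3 := by
    rw [Nat.card_eq_fintype_card]; rfl
  rw [h3, Nat.card_eq_fintype_card (α := Fin ρ), Fintype.card_fin] at hcard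
  have hcard' : S.ncard ≤ (rowLat Zmᵀ).index * 3 ^ ρ := by
    rw [← Nat.card_coe_set_eq]; exact hcard
  have hidxR : (((rowLat Zmᵀ).index : ℕ) : ℝ) = K.index * |((Am.det : ℚ) : ℝ)| := by
    have h1 : (((rowLat Zmᵀ).index : ℤ) : ℚ) = ((|Zm.det| : ℤ) : ℚ) := by rw [hidx]
    rw [Int.cast_abs, hZdet, hBqdet, abs_mul] at h1
    have h2 : |(((K.index : ℤ)) : ℚ)| = ((K.index : ℤ) : ℚ) :=
      abs_of_nonneg (by positivity)
    rw [h2] at h1
    generalize Am.det = D at h1 ⊢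
    have h4 : ((((rowLat Zmᵀ).index : ℤ) : ℚ) : ℝ) =
        ((((K.index : ℤ) : ℚ) * |D| : ℚ) : ℝ) := by rw [h1]
    push_cast at h4
    exact h4
  have hdet := det_bound Am s (fun i j => ((hS (A i)).mp (hA' i)).2 j)
  calc ((S.ncard : ℕ) : ℝ) ≤ (((rowLat Zmᵀ).index * 3 ^ ρ : ℕ) : ℝ) := by exact_mod_cast hcard'
    _ = K.index * |((Am.det : ℚ) : ℝ)| * 3 ^ ρ := by
        rw [Nat.cast_mul, hidxR, Nat.cast_pow, Nat.cast_ofNat]
    _ ≤ K.index * (ρ.factorial * ∏ j, s j) * 3 ^ ρ := by gcongr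
    _ = 3 ^ ρ * ρ.factorial * K.index * ∏ j, s j := by ring

end Pool.Agent.T2h79.LG.BOX
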