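import Pool.Agent.T2h79.LG.Stm

set_option autoImplicit false

/-!
# Task DUA: duality of the indices
-/

open Matrix

namespace Pool.Agent.T2h79.LG.DUA

open Pool.Agent.T2h77.N Pool.Agent.T2h79.LG

/-- `exp (2 π i x)` -/
noncomputable def e (x : ℚ) : ℂ := Complex.exp (2 * Real.pi * Complex.I * x)

lemma e_add (x y : ℚ) : e (x + y) = e x * e y := by
  unfold e
  rw [← Complex.exp_add]
  congr 1
  push_cast
  ring

lemma e_zero : e 0 = 1 := by unfold e; simp

lemma e_eq_one (x : ℚ) : e x = 1 ↔ ∃ z : ℤ, x = z := by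
  unfold e
  rw [Complex.exp_eq_one_iff]
  have hpi : (2 * Real.pi * Complex.I : ℂ) ≠ 0 := Complex.two_pi_I_ne_zero
  constructor
  · rintro ⟨n, hn⟩
    refine ⟨n, ?_⟩
    have h : (x : ℂ) = n := by
      apply mul_left_cancel₀ hpi
      rw [hn]; ring
    exact_mod_cast h
  · rintro ⟨z, rfl⟩
    exact ⟨z, by push_cast; ring⟩

/-- The general inequality. -/
lemma card_le {G H : Type} [AddCommGroup G] [AddCommGroup H] (L : AddSubgroup G)
    (K : AddSubgroup H) (b : G → H → ℚ) (hb1 : ∀ v v' c, b (v - v') c = b v c - b v' c)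
    (hb2 : ∀ v c c', b v (c + c') = b v c + b v c') (hb0 : ∀ v, b v 0 = 0) (hK : K.index ≠ 0)
    (h1 : ∀ v, (∀ c, ∃ z : ℤ, b v c = z) → v ∈ L) (h2 : ∀ v, ∀ c ∈ K, ∃ z : ℤ, b v c = z) :
    L.index ≤ K.index := by
  classical
  have : K.FiniteIndex := ⟨hK⟩
  have : Finite (H ⧸ K) := AddSubgroup.finite_quotient_of_finiteIndex
  have : Fintype (H ⧸ K) := Fintype.ofFinite _
  -- the character of `v`
  let ψ : G → (H →+ Additive ℂ) := fun v =>
    { toFun := fun c => Additive.ofMul (e (b v c))
      map_zero' := by rw [hb0, e_zero]; rfl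
      map_add' := fun c c' => by rw [hb2, e_add]; rfl }
  have hker : ∀ v, ∀ c ∈ K, ψ v c = 0 := by
    intro v c hc
    show Additive.ofMul (e (b v c)) = 0
    rw [(e_eq_one _).mpr (h2 v c hc)]; rfl
  let F : G → AddChar (H ⧸ K) ℂ := fun v =>
    AddChar.toAddMonoidHomEquiv.symm (QuotientAddGroup.lift K (ψ v) (hker v))
  have hF : ∀ v (c : H), F v (QuotientAddGroup.mk c) = e (b v c) := fun v c => rfl
  have hinj : ∀ v v', F v = F v' → v - v' ∈ L := by
    intro v v' h
    apply h1
    intro c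
    rw [← e_eq_one, hb1]
    have h3 : e (b v c) = e (b v' c) := by rw [← hF, ← hF, h]
    have h4 : e (b v c - b v' c) * e (b v' c) = e (b v' c) := by
      rw [← e_add, sub_add_cancel, h3]
    have h5 : e (b v' c) ≠ 0 := Complex.exp_ne_zero _
    exact mul_right_cancel₀ h5 (by rw [h4, one_mul])
  have hinj2 : Function.Injective fun x : G ⧸ L => F x.out := by
    intro x y hxy
    have h3 := hinj _ _ hxy
    have h4 : (QuotientAddGroup.mk x.out : G ⧸ L) = QuotientAddGroup.mk y.out := by
      rw [QuotientAddGroup.eq]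
      have : -x.out + y.out = -(x.out - y.out) := by abel
      rw [this]
      exact L.neg_mem h3
    rwa [QuotientAddGroup.out_eq', QuotientAddGroup.out_eq'] at h4
  have h3 := Nat.card_le_card_of_injective _ hinj2
  rw [AddSubgroup.index, AddSubgroup.index]
  refine h3.trans (le_of_eq ?_)
  rw [Nat.card_eq_fintype_card, Nat.card_eq_fintype_card, AddChar.card_eq]

lemma index_ne_zero {n ρ : ℕ} (q : Matrix (Fin n) (Fin ρ) ℚ) : (KK q).index ≠ 0 := by
  classical
  set D : ℕ := ∏ i, ∏ j, (q i j).den with hD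
  have hD0 : D ≠ 0 := Finset.prod_ne_zero_iff.mpr fun i _ =>
    Finset.prod_ne_zero_iff.mpr fun j _ => (q i j).den_nz
  have : NeZero D := ⟨hD0⟩
  let f : (Fin ρ → ℤ) →+ (Fin ρ → ZMod D) :=
    { toFun := fun c j => (c j : ZMod D)
      map_zero' := by ext; simp
      map_add' := fun a b => by ext; simp }
  have hle : f.ker ≤ KK q := by
    intro c hc
    have hc' : ∀ j, (D : ℤ) ∣ c j := by
      intro j
      have h1 : f c = 0 := hc
      have h2 : (c j : ZMod D) = 0 := congrFun h1 j
      exact (ZMod.intCast_zmod_eq_zero_iff_dvd _ _).mp h2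
    intro i
    have h3 : ∀ j, ∃ z : ℤ, q i j * (c j : ℚ) = z := by
      intro j
      obtain ⟨w, hw⟩ := hc' j
      have h4 : ((q i j).den : ℤ) ∣ D := by
        have h5 : (q i j).den ∣ D :=
          (Finset.dvd_prod_of_mem (fun j => (q i j).den) (Finset.mem_univ j)).trans
            (Finset.dvd_prod_of_mem (fun i => ∏ j, (q i j).den) (Finset.mem_univ i))
        exact_mod_cast h5
      obtain ⟨u, hu⟩ := h4
      refine ⟨(q i j).num * u * w, ?_⟩
      rw [hw, hu]
      have h6 : q i j * ((q i j).den : ℚ) = (q i j).num := Rat.mul_den_eq_num _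
      push_cast
      calc q i j * (((q i j).den : ℚ) * u * w) = (q i j * ((q i j).den : ℚ)) * u * w := by ring
        _ = _ := by rw [h6]
    choose z hz using h3
    exact ⟨∑ j, z j, by push_cast; exact Finset.sum_congr rfl fun j _ => hz j⟩
  have hfi : f.ker.FiniteIndex := AddSubgroup.finiteIndex_ker f
  have := AddSubgroup.finiteIndex_of_le hle
  exact this.index_ne_zero

lemma le_aux {n ρ : ℕ} (q : Matrix (Fin n) (Fin ρ) ℚ) : (LL q).index ≤ (KK q).index := by
  classical
  apply card_le (LL q) (KK q) (fun v c => ∑ i, (v i : ℚ) * ∑ j, q i j * (c j : ℚ))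
  · intro v v' c
    rw [← Finset.sum_sub_distrib]
    refine Finset.sum_congr rfl fun i _ => ?_
    rw [Pi.sub_apply]; push_cast; ring
  · intro v c c'
    rw [← Finset.sum_add_distrib]
    refine Finset.sum_congr rfl fun i _ => ?_
    rw [← mul_add, ← Finset.sum_add_distrib]
    congr 1
    refine Finset.sum_congr rfl fun j _ => ?_
    rw [Pi.add_apply]; push_cast; ring
  · intro v; simp
  · exact index_ne_zero q
  · intro v hv j
    obtain ⟨z, hz⟩ := hv (Pi.single j 1)
    refine ⟨z, ?_⟩
    rw [← hz]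
    refine Finset.sum_congr rfl fun i _ => ?_
    rw [Matrix.transpose_apply, mul_comm]
    congr 1
    rw [Finset.sum_eq_single j]
    · simp
    · intro k _ hk
      rw [Pi.single_eq_of_ne hk]; simp
    · intro h; exact absurd (Finset.mem_univ j) h
  · intro v c hc
    have hc' : ∀ i, ∃ z : ℤ, ∑ j, q i j * (c j : ℚ) = z := hc
    choose z hz using hc'
    refine ⟨∑ i, v i * z i, ?_⟩
    push_cast
    exact Finset.sum_congr rfl fun i _ => by rw [hz i]

theorem t_DUA : S_dua := by
  intro n ρ q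
  refine ⟨index_ne_zero q, le_antisymm (le_aux q) ?_⟩
  have h := le_aux q.transpose
  unfold LL at h ⊢
  rwa [Matrix.transpose_transpose] at h

end Pool.Agent.T2h79.LG.DUA
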