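import Pool.Agent.T2h79.LG.Stm

/-! # Task IDX: subgroups of finite index of `ℤ^ρ` are row lattices -/

set_option autoImplicit false

open Matrix

noncomputable section

namespace Pool.Agent.T2h79.LG.IDX

open Pool.Agent.T2h77.N Pool.Agent.T2h79.LG

/-- A matrix with the given row lattice, up to sign of the determinant. -/
theorem exists_mat (ρ : ℕ) (K : AddSubgroup (Fin ρ → ℤ)) (hK : K.index ≠ 0) :
    ∃ B : MZ ρ, B.det.natAbs = K.index ∧ ∀ v : Fin ρ → ℤ, v ∈ K ↔ ∃ c : Fin ρ → ℤ, v = c ᵥ* B := by
  let N : Submodule ℤ (Fin ρ → ℤ) := AddSubgroup.toIntSubmodule K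
  have hfin : Finite ((Fin ρ → ℤ) ⧸ N) := by
    have : Nat.card ((Fin ρ → ℤ) ⧸ N) ≠ 0 := hK
    exact Nat.finite_of_card_ne_zero this
  have hr : Module.finrank ℤ N = ρ := by
    rw [(Submodule.finiteQuotient_iff N).1 hfin]
    simp
  let b : Module.Basis (Fin ρ) ℤ N := Module.finBasisOfFinrankEq ℤ N hr
  let B : MZ ρ := Matrix.of fun i j => (b i : Fin ρ → ℤ) j
  refine ⟨B, ?_, ?_⟩
  · have h := Submodule.natAbs_det_basis_change (Pi.basisFun ℤ (Fin ρ)) N b
    have h1 : (Pi.basisFun ℤ (Fin ρ)).det ((↑) ∘ b) = B.det := by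
      rw [Pi.basisFun_det]
      rfl
    rw [h1] at h
    exact h
  · intro v
    constructor
    · intro hv
      let w : N := ⟨v, hv⟩
      refine ⟨b.equivFun w, ?_⟩
      have h := b.sum_equivFun w
      have h2 := congrArg Subtype.val h
      rw [Submodule.coe_sum] at h2
      funext j
      have h3 := congrFun h2 j
      rw [Finset.sum_apply] at h3
      simp only [Matrix.vecMul, dotProduct, B, Matrix.of_apply]
      exact h3.symm
    · rintro ⟨c, rfl⟩
      have : c ᵥ* B = ((∑ i, c i • b i : N) : Fin ρ → ℤ) := by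
        rw [Submodule.coe_sum]
        funext j
        rw [Finset.sum_apply]
        simp only [Matrix.vecMul, dotProduct, B, Matrix.of_apply]
        rfl
      rw [this]
      exact (∑ i, c i • b i : N).2

/-- Subgroups of finite index are row lattices of matrices of positive determinant. -/
theorem t_IDX : S_idx := by
  intro ρ K hK
  obtain ⟨B, hd, hm⟩ := exists_mat ρ K hK
  rcases lt_trichotomy B.det 0 with h | h | h
  · rcases Nat.eq_zero_or_pos ρ with h0 | h0
    · subst h0
      rw [Matrix.det_isEmpty] at h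
      omega
    · let i0 : Fin ρ := ⟨0, h0⟩
      let D : MZ ρ := Matrix.diagonal (Function.update (fun _ => (1 : ℤ)) i0 (-1))
      have hD : D.det = -1 := by
        simp only [D, Matrix.det_diagonal]
        rw [Finset.prod_update_of_mem (Finset.mem_univ i0)]
        simp
      have hDD : D * D = 1 := by
        simp only [D, Matrix.diagonal_mul_diagonal]
        rw [← Matrix.diagonal_one]
        congr 1
        funext i
        by_cases hi : i = i0
        · subst hi; simp
        · simp [Function.update_of_ne hi]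
      refine ⟨D * B, ?_, ?_⟩
      · rw [Matrix.det_mul, hD, ← hd]
        omega
      · intro v
        rw [hm v]
        constructor
        · rintro ⟨c, rfl⟩
          refine ⟨c ᵥ* D, ?_⟩
          rw [Matrix.vecMul_vecMul, ← Matrix.mul_assoc, hDD, Matrix.one_mul]
        · rintro ⟨c, rfl⟩
          exact ⟨c ᵥ* D, by rw [Matrix.vecMul_vecMul]⟩
  · rw [h] at hd
    exact absurd hd.symm hK
  · exact ⟨B, by rw [← hd]; omega, hm⟩

end Pool.Agent.T2h79.LG.IDX
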