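import Pool.Agent.T2h79.LG.Stm

/-! # Task IDY: the index of the row lattice of an integral matrix -/

set_option autoImplicit false

open Matrix

noncomputable section

namespace Pool.Agent.T2h79.LG.IDY

open Pool.Agent.T2h77.N Pool.Agent.T2h79.LG

/-- The index of the row lattice is the absolute value of the determinant. -/
theorem t_IDY : S_idy := by
  intro ρ B K hB hK
  have hinj : Function.Injective fun c : Fin ρ → ℤ => c ᵥ* B := by
    intro c c' h
    have h2 : (c - c') ᵥ* B = 0 := by
      rw [Matrix.sub_vecMul]; exact sub_eq_zero.2 h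
    have h3 := Matrix.eq_zero_of_vecMul_eq_zero hB h2
    exact sub_eq_zero.1 h3
  let f : (Fin ρ → ℤ) →ₗ[ℤ] (Fin ρ → ℤ) := Matrix.toLin' Bᵀ
  have hf : ∀ c, f c = c ᵥ* B := by
    intro c
    simp only [f, Matrix.toLin'_apply, Matrix.mulVec_transpose]
  let N : Submodule ℤ (Fin ρ → ℤ) := AddSubgroup.toIntSubmodule K
  have hmem : ∀ c, f c ∈ N := by
    intro c
    have : c ᵥ* B ∈ K := (hK _).2 ⟨c, rfl⟩
    rw [hf]
    exact this
  let g : (Fin ρ → ℤ) →ₗ[ℤ] N := f.codRestrict N hmem
  have hgb : Function.Bijective g := by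
    constructor
    · intro c c' h
      apply hinj
      have h1 := congrArg Subtype.val h
      simp only [g, LinearMap.codRestrict_apply, hf] at h1
      exact h1
    · rintro ⟨v, hv⟩
      obtain ⟨c, hc⟩ := (hK v).1 hv
      refine ⟨c, Subtype.ext ?_⟩
      simp only [g, LinearMap.codRestrict_apply, hf]
      exact hc.symm
  let e : (Fin ρ → ℤ) ≃ₗ[ℤ] N := LinearEquiv.ofBijective g hgb
  have h := Submodule.natAbs_det_equiv N e
  have h5 : (N.subtype ∘ₗ AddMonoidHom.toIntLinearMap (e : (Fin ρ → ℤ) →+ N)) = f := by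
    ext c
    rfl
  rw [h5] at h
  have h6 : LinearMap.det f = B.det := by
    simp only [f, LinearMap.det_toLin', Matrix.det_transpose]
  rw [h6] at h
  have h7 : K.index = Nat.card ((Fin ρ → ℤ) ⧸ N) := rfl
  rw [h7, ← h, Int.natCast_natAbs]

end Pool.Agent.T2h79.LG.IDY
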