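import Pool.Agent.T2h79.LG.Stm

/-!
# Project LG, task NQU: the number of the matrices `q` with given index
-/

set_option autoImplicit false

open MeasureTheory Matrix
open scoped MatrixGroups ENNReal Topology ComplexConjugate

noncomputable section

namespace Pool.Agent.T2h79.LG.NQU

open Pool.Agent.T2h77.N

/-- if the columns are independent there are `ρ` independent rows -/
theorem exists_rows {n ρ : ℕ} {q : Matrix (Fin n) (Fin ρ) ℚ}
    (h : LinearIndependent ℚ fun j => fun i => q i j) :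
    ∃ y : Fin ρ → Fin ρ → ℚ, LinearIndependent ℚ y ∧ ∀ i, ∃ k, y i = q k := by
  have h1 : qᵀ.rank = ρ := by
    have h2 : LinearIndependent ℚ qᵀ.row := h
    rw [h2.rank_matrix, Fintype.card_fin]
  rw [Matrix.rank_transpose, Matrix.rank_eq_finrank_span_row] at h1
  obtain ⟨f, hf1, -, hf3⟩ := Submodule.exists_fun_fin_finrank_span_eq ℚ (Set.range q.row)
  refine ⟨fun i => f (Fin.cast h1.symm i), hf3.comp _ (Fin.cast_injective _), fun i => ?_⟩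
  obtain ⟨k, hk⟩ := hf1 (Fin.cast h1.symm i)
  exact ⟨k, hk.symm⟩

theorem t_NQU (hK : S_knu) (hB : S_box) (hD : S_dua) : S_nqu := by
  classical
  intro n ρ hρ ε hε
  obtain ⟨C₁, hC₁, h1⟩ := hK ρ hρ ε hε
  obtain ⟨C₂, hC₂, h2⟩ := hB ρ
  refine ⟨C₁ * C₂ ^ n, one_le_mul_of_one_le_of_one_le hC₁ (one_le_pow₀ hC₂), ?_⟩
  intro d s hd hs Q hQ
  obtain ⟨hfin, hcard⟩ := h1 d hd
  have hd0 : (0 : ℝ) < d := by exact_mod_cast hd
  have hP : 0 < ∏ j, s j := Finset.prod_pos fun j _ => hs j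
  -- the rows
  set S : AddSubgroup (Fin ρ → ℤ) → Set (Fin ρ → ℚ) := fun K =>
    {y | (∀ c ∈ K, ∃ z : ℤ, ∑ j, y j * (c j : ℚ) = z) ∧ ∀ j, |((y j : ℚ) : ℝ)| ≤ s j} with hSdef
  have hS := fun (K : AddSubgroup (Fin ρ → ℤ)) (hK : K.index ≠ 0) => h2 K s hK hs (S K) fun y => Iff.rfl
  set 𝒦 : Finset (AddSubgroup (Fin ρ → ℤ)) := hfin.toFinset with h𝒦
  have hQK : ∀ K ∈ 𝒦, ({q | q ∈ Q ∧ KK q = K} : Set (Matrix (Fin n) (Fin ρ) ℚ)).Finite ∧
      ((({q | q ∈ Q ∧ KK q = K} : Set (Matrix (Fin n) (Fin ρ) ℚ)).ncard : ℕ) : ℝ) ≤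
        (C₂ * (d * ∏ j, s j)) ^ n := by
    intro K hKm
    have hKi : K.index = d := hfin.mem_toFinset.1 hKm
    have hK0 : K.index ≠ 0 := by rw [hKi]; exact hd.ne'
    obtain ⟨hSf, hSc⟩ := hS K hK0
    have hmem : ∀ q ∈ ({q | q ∈ Q ∧ KK q = K} : Set (Matrix (Fin n) (Fin ρ) ℚ)), ∀ i, q i ∈ S K := by
      rintro q ⟨hq, rfl⟩ i
      exact ⟨fun c hc => hc i, fun j => ((hQ q).1 hq).2.2 i j⟩
    have hsub : ({q | q ∈ Q ∧ KK q = K} : Set (Matrix (Fin n) (Fin ρ) ℚ)) ⊆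
        (Set.pi Set.univ fun _ : Fin n => S K : Set (Fin n → Fin ρ → ℚ)) := fun q hq i _ => hmem q hq i
    have hpf : (Set.pi Set.univ fun _ : Fin n => S K : Set (Fin n → Fin ρ → ℚ)).Finite :=
      Set.Finite.pi fun _ => hSf
    refine ⟨hpf.subset hsub, ?_⟩
    rcases Set.eq_empty_or_nonempty ({q | q ∈ Q ∧ KK q = K} : Set (Matrix (Fin n) (Fin ρ) ℚ)) with he | ⟨q, hq⟩
    · rw [he, Set.ncard_empty, Nat.cast_zero]
      have : 0 < C₂ * (d * ∏ j, s j) := by positivity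
      positivity
    · obtain ⟨y, hy1, hy2⟩ := exists_rows ((hQ q).1 hq.1).1
      have h3 := hSc ⟨y, hy1, fun i => by
        obtain ⟨k, hk⟩ := hy2 i
        rw [hk]
        exact hmem q hq k⟩
      have h4 : ((Set.pi Set.univ fun _ : Fin n => S K : Set (Fin n → Fin ρ → ℚ)).ncard) = (S K).ncard ^ n := by
        have := hSf.fintype
        rw [← Nat.card_coe_set_eq, ← Nat.card_coe_set_eq]
        rw [Nat.card_congr (Equiv.Set.univPi fun _ : Fin n => S K), Nat.card_fun, Nat.card_eq_fintype_card (α := Fin n),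
          Fintype.card_fin]
      calc ((({q | q ∈ Q ∧ KK q = K} : Set (Matrix (Fin n) (Fin ρ) ℚ)).ncard : ℕ) : ℝ)
          ≤ (((Set.pi Set.univ fun _ : Fin n => S K : Set (Fin n → Fin ρ → ℚ)).ncard : ℕ) : ℝ) :=
            Nat.cast_le.2 (Set.ncard_le_ncard hsub hpf)
        _ = ((S K).ncard : ℝ) ^ n := by rw [h4, Nat.cast_pow]
        _ ≤ _ := by
            refine pow_le_pow_left₀ (Nat.cast_nonneg _) (h3.trans (le_of_eq ?_)) n
            rw [hKi]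
            ring
  have hcov : Q = ⋃ K ∈ 𝒦, {q | q ∈ Q ∧ KK q = K} := by
    ext q
    simp only [Set.mem_iUnion, Set.mem_setOf_eq, exists_prop]
    constructor
    · intro hq
      exact ⟨KK q, hfin.mem_toFinset.2 ((hQ q).1 hq).2.1, hq, rfl⟩
    · rintro ⟨K, -, hq, -⟩
      exact hq
  have hQf : Q.Finite := by
    rw [hcov]
    exact 𝒦.finite_toSet.biUnion fun K hK => (hQK K hK).1
  refine ⟨hQf, ?_⟩
  have h5 : (Q.ncard : ℝ) ≤ ∑ K ∈ 𝒦, ((({q | q ∈ Q ∧ KK q = K} : Set (Matrix (Fin n) (Fin ρ) ℚ)).ncard : ℕ) : ℝ) := by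
    rw [← Nat.cast_sum]
    refine Nat.cast_le.2 ?_
    conv_lhs => rw [hcov]
    exact Finset.set_ncard_biUnion_le 𝒦 _
  calc (Q.ncard : ℝ) ≤ ∑ K ∈ 𝒦, ((({q | q ∈ Q ∧ KK q = K} : Set (Matrix (Fin n) (Fin ρ) ℚ)).ncard : ℕ) : ℝ) := h5
    _ ≤ ∑ K ∈ 𝒦, (C₂ * (d * ∏ j, s j)) ^ n := Finset.sum_le_sum fun K hK => (hQK K hK).2
    _ = (𝒦.card : ℝ) * (C₂ * (d * ∏ j, s j)) ^ n := by rw [Finset.sum_const, nsmul_eq_mul]
    _ ≤ (C₁ * (d : ℝ) ^ ((ρ : ℝ) - 1 + ε)) * (C₂ * (d * ∏ j, s j)) ^ n := by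
        refine mul_le_mul_of_nonneg_right ?_ (by positivity)
        rw [h𝒦, ← Set.ncard_eq_toFinset_card _ hfin]
        exact hcard
    _ = _ := by rw [mul_pow]; ring

end Pool.Agent.T2h79.LG.NQU
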