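import Pool.Agent.T2h79.LG.Stm
import Pool.Agent.T2h77N.Reps
import Pool.Agent.H373R2.T4.DivB

/-! Project LG, task REPG: representatives of the integral matrices of determinant `m`. -/

set_option autoImplicit false

open Matrix
open scoped MatrixGroups

noncomputable section

namespace Pool.Agent.T2h79.LG.REPG

open Pool.Agent.T2h77.N Pool.Agent.T2h79.LG

/-- the allowed entries of the normal forms -/
def ent1 {n : ℕ} (d : Fin (n + 1) → ℕ) (i j : Fin (n + 1)) : Finset ℤ :=
  if i < j then {0} else if i = j then {(d j : ℤ)} else Finset.Ico 0 (d j : ℤ)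

/-- the normal forms with given diagonal -/
def nf1 {n : ℕ} (d : Fin (n + 1) → ℕ) : Finset (MZ (n + 1)) :=
  (Fintype.piFinset fun i => Fintype.piFinset fun j => ent1 d i j).map Matrix.of.toEmbedding

theorem nf1_card {n : ℕ} (d : Fin (n + 1) → ℕ) (hd : ∀ j, 0 < d j) (m : ℕ) (hm : ∏ j, d j = m) :
    (nf1 d).card ≤ m ^ n := by
  have h0 : (nf1 d).card = ∏ i, ∏ j, (ent1 d i j).card := by
    unfold nf1
    rw [Finset.card_map, Fintype.card_piFinset]
    exact Finset.prod_congr rfl fun i _ => Fintype.card_piFinset _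
  rw [h0, Fin.prod_univ_succ]
  have h1 : ∏ j, (ent1 d 0 j).card = 1 := by
    apply Finset.prod_eq_one
    intro j _
    unfold ent1
    rcases (Fin.zero_le j).eq_or_lt with h | h
    · subst h
      simp
    · simp [h]
  rw [h1, one_mul]
  have h2 : ∀ i : Fin n, ∏ j, (ent1 d i.succ j).card ≤ m := by
    intro i
    rw [← hm]
    apply Finset.prod_le_prod'
    intro j _
    have hpos : 1 ≤ d j := hd j
    unfold ent1
    split_ifs
    · simpa using hpos
    · simpa using hpos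
    · rw [Int.card_Ico, sub_zero, Int.toNat_natCast]
  calc ∏ i : Fin n, ∏ j, (ent1 d i.succ j).card ≤ ∏ _i : Fin n, m :=
        Finset.prod_le_prod' fun i _ => h2 i
    _ = m ^ n := by simp

/-- the diagonals -/
def diags (n m : ℕ) : Finset (Fin (n + 1) → ℕ) :=
  (Fintype.piFinset fun _ : Fin (n + 1) => m.divisors).filter fun d => ∏ j, d j = m

/-- the normal forms -/
def nfs1 (n m : ℕ) : Finset (MZ (n + 1)) := (diags n m).biUnion fun d => nf1 d

theorem nfs1_card (n m : ℕ) : (nfs1 n m).card ≤ m.divisors.card ^ (n + 1) * m ^ n := by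
  unfold nfs1
  refine le_trans Finset.card_biUnion_le ?_
  refine le_trans (Finset.sum_le_card_nsmul _ _ (m ^ n) ?_) ?_
  · intro d hd
    unfold diags at hd
    rw [Finset.mem_filter, Fintype.mem_piFinset] at hd
    exact nf1_card d (fun j => Nat.pos_of_mem_divisors (hd.1 j)) m hd.2
  · rw [smul_eq_mul]
    refine Nat.mul_le_mul_right _ ?_
    unfold diags
    refine le_trans (Finset.card_filter_le _ _) ?_
    rw [Fintype.card_piFinset]
    simp

theorem exists_nf1 {n m : ℕ} (hm : 0 < m) (β : MZ (n + 1)) (hβ : β.det = (m : ℤ)) :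
    ∃ b ∈ nfs1 n m, (leq n).r b β := by
  have hpos : (0 : ℤ) < (m : ℤ) := by exact_mod_cast hm
  obtain ⟨γ, hγ, h1, h2, h3⟩ := hnf (n + 1) β (by rw [hβ]; exact hpos.ne')
  have hlow : (γ * β).det = ∏ i, (γ * β) i i :=
    Matrix.det_of_isLowerTriangular _ fun i j hij => h1 i j hij
  have hdpos : 0 < (γ * β).det := by
    rw [hlow]
    exact Finset.prod_pos fun i _ => h2 i
  have hγ1 : γ.det = 1 := by
    rcases Int.isUnit_iff.mp hγ with h | h
    · exact h
    · exfalso
      rw [Matrix.det_mul, h, hβ] at hdpos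
      linarith
  have hprod : ∏ i, (γ * β) i i = (m : ℤ) := by rw [← hlow, Matrix.det_mul, hγ1, one_mul, hβ]
  have he : ∀ i, (γ * β) i i = ((((γ * β) i i).natAbs : ℕ) : ℤ) := fun i => by
    rw [Int.natCast_natAbs, abs_of_pos (h2 i)]
  set d : Fin (n + 1) → ℕ := fun i => ((γ * β) i i).natAbs with hd
  have hprodN : ∏ i, d i = m := by
    have : ((∏ j, d j : ℕ) : ℤ) = (m : ℤ) := by
      push_cast
      rw [← hprod]
      exact Finset.prod_congr rfl fun i _ => (he i).symm
    exact_mod_cast this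
  refine ⟨γ * β, ?_, ⟨⟨γ, hγ1⟩, rfl⟩⟩
  unfold nfs1
  rw [Finset.mem_biUnion]
  refine ⟨d, ?_, ?_⟩
  · unfold diags
    rw [Finset.mem_filter, Fintype.mem_piFinset]
    refine ⟨fun j => ?_, hprodN⟩
    rw [Nat.mem_divisors]
    refine ⟨?_, hm.ne'⟩
    rw [← hprodN]
    exact Finset.dvd_prod_of_mem _ (Finset.mem_univ j)
  · unfold nf1
    refine Finset.mem_map.mpr ⟨fun i j => (γ * β) i j, ?_, rfl⟩
    rw [Fintype.mem_piFinset]
    intro i
    rw [Fintype.mem_piFinset]
    intro j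
    unfold ent1
    split_ifs with c1 c2
    · rw [Finset.mem_singleton]
      exact h1 i j c1
    · subst c2
      rw [Finset.mem_singleton]
      exact he i
    · have c3 : j < i := lt_of_le_of_ne (not_lt.mp c1) (Ne.symm c2)
      rw [Finset.mem_Ico, ← he j]
      exact h3 i j c3

theorem reps1 (n m : ℕ) (hm : 0 < m) : ∃ R : Finset (MZ (n + 1)), IsReps (m : ℤ) R ∧
    R.card ≤ m.divisors.card ^ (n + 1) * m ^ n := by
  classical
  let s : Setoid (MZ (n + 1)) := leq n
  let f : MZ (n + 1) → MZ (n + 1) := fun b => (Quotient.mk s b).out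
  have hf : ∀ b, (leq n).r (f b) b := fun b => Quotient.exact (Quotient.out_eq (Quotient.mk s b))
  have hf' : ∀ b b', (leq n).r b b' → f b = f b' := fun b b' h => by
    have : Quotient.mk s b = Quotient.mk s b' := Quotient.sound h
    simp only [f, this]
  refine ⟨((nfs1 n m).filter fun b => b.det = (m : ℤ)).image f, ⟨?_, ?_⟩, ?_⟩
  · intro β hβ
    obtain ⟨b, hb, rfl⟩ := Finset.mem_image.mp hβ
    rw [leq_det (hf b)]
    exact (Finset.mem_filter.mp hb).2
  · intro β hβ
    obtain ⟨b, hb, hbβ⟩ := exists_nf1 hm β hβ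
    refine ⟨f b, ⟨?_, ?_⟩, ?_⟩
    · refine Finset.mem_image.mpr ⟨b, Finset.mem_filter.mpr ⟨hb, ?_⟩, rfl⟩
      rw [leq_det hbβ, hβ]
    · exact (leq n).iseqv.symm ((leq n).iseqv.trans (hf b) hbβ)
    · rintro r ⟨hr, hr'⟩
      obtain ⟨b', hb', rfl⟩ := Finset.mem_image.mp hr
      apply hf'
      exact (leq n).iseqv.trans ((leq n).iseqv.symm (hf b')) ((leq n).iseqv.trans
        ((leq n).iseqv.symm hr') ((leq n).iseqv.symm hbβ))
  · exact le_trans Finset.card_image_le (le_trans (Finset.card_filter_le _ _) (nfs1_card n m))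

theorem t_REPG : S_repG := by
  intro n hn ε hε
  obtain ⟨k, rfl⟩ : ∃ k, n = k + 1 := ⟨n - 1, by omega⟩
  have hk : (0 : ℝ) < (k : ℝ) + 1 := by positivity
  obtain ⟨C, hC, hdiv⟩ := Pool.Agent.H373R2.T4.DivB.div_bound (div_pos hε hk)
  refine ⟨C ^ (k + 1), one_le_pow₀ hC, fun m hm => ?_⟩
  obtain ⟨R, hR, hRc⟩ := reps1 k m hm
  refine ⟨R, hR, ?_⟩
  have hm0 : (0 : ℝ) < m := by exact_mod_cast hm
  have h1 : (R.card : ℝ) ≤ (m.divisors.card : ℝ) ^ (k + 1) * (m : ℝ) ^ k := by exact_mod_cast hRc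
  refine h1.trans ?_
  have h2 := hdiv m hm.ne'
  calc (m.divisors.card : ℝ) ^ (k + 1) * (m : ℝ) ^ k
      ≤ (C * (m : ℝ) ^ (ε / ((k : ℝ) + 1))) ^ (k + 1) * (m : ℝ) ^ k := by gcongr
    _ = C ^ (k + 1) * (m : ℝ) ^ (((k + 1 : ℕ) : ℝ) - 1 + ε) := by
        rw [mul_pow, mul_assoc]
        congr 1
        rw [← Real.rpow_natCast ((m : ℝ) ^ (ε / ((k : ℝ) + 1))) (k + 1), ← Real.rpow_mul hm0.le,
          ← Real.rpow_natCast (m : ℝ) k, ← Real.rpow_add hm0]
        congr 1
        push_cast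
        field_simp
        ring

end Pool.Agent.T2h79.LG.REPG
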