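import Pool.Agent.T2h79.LG.Stm

/-! Project LG, task REPU: two systems of representatives have the same number of elements. -/

set_option autoImplicit false

open Matrix
open scoped MatrixGroups

namespace Pool.Agent.T2h79.LG.REPU

open Pool.Agent.T2h77.N Pool.Agent.T2h79.LG

theorem card_le {n : ℕ} {m : ℤ} {R R' : Finset (MZ n)} (hR : IsReps m R) (hR' : IsReps m R') :
    R.card ≤ R'.card := by
  classical
  choose! f hf using fun β (hβ : β ∈ R) => (hR'.2 β (hR.1 β hβ)).exists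
  refine Finset.card_le_card_of_injOn f (fun β hβ => (hf β hβ).1) ?_
  intro β hβ β' hβ' he
  obtain ⟨-, γ, hγ⟩ := hf β hβ
  obtain ⟨-, γ', hγ'⟩ := hf β' hβ'
  have h2 : ((γ'⁻¹ : GZ n) : MZ n) * β' = f β' := by
    calc ((γ'⁻¹ : GZ n) : MZ n) * β' = ((γ'⁻¹ : GZ n) : MZ n) * ((γ' : MZ n) * f β') := by
          rw [← hγ']
      _ = f β' := by
          rw [← Matrix.mul_assoc, ← Matrix.SpecialLinearGroup.coe_mul, inv_mul_cancel]
          simp
  refine (hR.2 β (hR.1 β hβ)).unique ⟨hβ, 1, by simp⟩ ⟨hβ', γ * γ'⁻¹, ?_⟩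
  rw [Matrix.SpecialLinearGroup.coe_mul, Matrix.mul_assoc, h2, ← he]
  exact hγ

theorem t_REPU : S_repU := fun _ _ _ _ hR hR' => le_antisymm (card_le hR hR') (card_le hR' hR)

end Pool.Agent.T2h79.LG.REPU
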