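import Pool.Agent.T2h79.LG.Stm

/-! # Task RNU: the number of the representatives `β` with `β q` integral -/

set_option autoImplicit false

open Matrix

noncomputable section

namespace Pool.Agent.T2h79.LG.RNU

open Pool.Agent.T2h77.N Pool.Agent.T2h79.LG

/-- `β q` is integral iff the rows of `β` are in `L_q`. -/
theorem itg_iff {n ρ : ℕ} (β : MZ n) (q : Matrix (Fin n) (Fin ρ) ℚ) :
    Itg β q ↔ ∀ i, β i ∈ LL q := by
  constructor
  · intro h i
    change ∀ j, ∃ z : ℤ, ∑ k, q.transpose j k * ((β i k : ℤ) : ℚ) = z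
    intro j
    obtain ⟨z, hz⟩ := h i j
    refine ⟨z, ?_⟩
    rw [← hz]
    exact Finset.sum_congr rfl fun k _ => by rw [Matrix.transpose_apply, mul_comm]
  · intro h i j
    obtain ⟨z, hz⟩ : ∃ z : ℤ, ∑ k, q.transpose j k * ((β i k : ℤ) : ℚ) = z := h i j
    refine ⟨z, ?_⟩
    rw [← hz]
    exact Finset.sum_congr rfl fun k _ => by rw [Matrix.transpose_apply, mul_comm]

/-- The number of the representatives `β` with `β q` integral. -/
theorem t_RNU (hG : S_repG) (_hU : S_repU) (hI : S_idx) (_hY : S_idy) (hD : S_dua) : S_rnu := by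
  intro n hn ε hε
  obtain ⟨C, hC, hGC⟩ := hG n hn ε hε
  refine ⟨C, hC, ?_⟩
  intro m R hm hR ρ q
  obtain ⟨hK0, hLK⟩ := hD n ρ q
  have hL0 : (LL q).index ≠ 0 := by rw [hLK]; exact hK0
  obtain ⟨B, hBd, hB⟩ := hI n (LL q) hL0
  set d := (KK q).index with hd
  rw [hLK] at hBd
  -- the factor
  have hfac : ∀ β : MZ n, Itg β q → ∃ β₁ : MZ n, β = β₁ * B := by
    intro β hβ
    have h1 : ∀ i, ∃ c : Fin n → ℤ, β i = c ᵥ* B := fun i => (hB _).1 ((itg_iff β q).1 hβ i)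
    choose c hc using h1
    refine ⟨Matrix.of c, ?_⟩
    ext i j
    rw [Matrix.mul_apply, congrFun (hc i) j]
    rfl
  have hdet : ∀ β ∈ R, ∀ β₁ : MZ n, β = β₁ * B → β₁.det * (d : ℤ) = m := by
    intro β hβ β₁ h
    rw [← hR.1 β hβ, h, Matrix.det_mul, hBd]
  have hdvd : ∀ β ∈ R, Itg β q → d ∣ m := by
    intro β hβ hi
    obtain ⟨β₁, h⟩ := hfac β hi
    have h2 := hdet β hβ β₁ h
    have : (d : ℤ) ∣ (m : ℤ) := ⟨β₁.det, by rw [← h2, mul_comm]⟩
    exact_mod_cast this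
  refine ⟨hdvd, ?_⟩
  rcases Set.eq_empty_or_nonempty {β : MZ n | β ∈ R ∧ Itg β q} with he | ⟨β₀, hβ₀, hi₀⟩
  · rw [he, Set.ncard_empty, Nat.cast_zero]
    have : (0 : ℝ) ≤ ((m : ℝ) / d) ^ ((n : ℝ) - 1 + ε) := Real.rpow_nonneg (by positivity) _
    nlinarith
  · obtain ⟨e, he⟩ := hdvd β₀ hβ₀ hi₀
    have hdpos : 0 < d := Nat.pos_of_ne_zero hK0
    have hepos : 0 < e := by
      rcases Nat.eq_zero_or_pos e with h | h
      · subst h; omega
      · exact h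
    obtain ⟨R₁, hR₁, hcard⟩ := hGC e hepos
    have hquo : (m : ℝ) / d = e := by
      rw [he]
      have : (d : ℝ) ≠ 0 := by positivity
      push_cast
      field_simp
    rw [hquo]
    refine le_trans ?_ hcard
    have hex : ∀ β : MZ n, β ∈ R ∧ Itg β q → ∃ r : MZ n, r ∈ R₁ ∧ ∃ γ : GZ n, β = (γ : MZ n) * (r * B) := by
      rintro β ⟨hβ, hi⟩
      obtain ⟨β₁, h⟩ := hfac β hi
      have h2 := hdet β hβ β₁ h
      have h3 : β₁.det = (e : ℤ) := by
        have h4 : β₁.det * (d : ℤ) = (e : ℤ) * d := by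
          rw [h2, he]; push_cast; ring
        exact mul_right_cancel₀ (by exact_mod_cast hK0) h4
      obtain ⟨r, ⟨hr, γ, hγ⟩, -⟩ := hR₁.2 β₁ h3
      exact ⟨r, hr, γ, by rw [h, hγ, Matrix.mul_assoc]⟩
    choose! φ hφ1 hφ2 using hex
    have hinj : Set.InjOn φ {β : MZ n | β ∈ R ∧ Itg β q} := by
      intro β hβ β' hβ' hφ
      obtain ⟨γ, hγ⟩ := hφ2 β hβ
      obtain ⟨γ', hγ'⟩ := hφ2 β' hβ'
      rw [hφ] at hγ
      obtain ⟨r, -, hru⟩ := hR.2 β (hR.1 β hβ.1)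
      have e1 : β = r := by
        apply hru
        exact ⟨hβ.1, 1, by simp⟩
      have e2 : β' = r := by
        apply hru
        refine ⟨hβ'.1, γ * γ'⁻¹, ?_⟩
        rw [Matrix.SpecialLinearGroup.coe_mul, hγ', Matrix.mul_assoc, ← Matrix.mul_assoc ((γ'⁻¹ : GZ n) : MZ n),
          ← Matrix.SpecialLinearGroup.coe_mul, inv_mul_cancel, Matrix.SpecialLinearGroup.coe_one, Matrix.one_mul]
        exact hγ
      rw [e1, e2]
    have h1 : {β : MZ n | β ∈ R ∧ Itg β q}.ncard ≤ (R₁ : Set (MZ n)).ncard :=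
      Set.ncard_le_ncard_of_injOn φ (fun β hβ => hφ1 β hβ) hinj R₁.finite_toSet
    rw [Set.ncard_coe_finset] at h1
    exact_mod_cast h1

end Pool.Agent.T2h79.LG.RNU
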