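import Pool.Agent.T2h79.LG.Stm2
import Pool.Agent.T2h79.LG.T_REPG
import Pool.Agent.T2h79.LG.T_REPU
import Pool.Agent.T2h79.LG.T_IDX
import Pool.Agent.T2h79.LG.T_IDY
import Pool.Agent.T2h79.LG.T_DUA
import Pool.Agent.T2h79.LG.T_RNU
import Pool.Agent.T2h79.LG.T_BOX
import Pool.Agent.T2h79.LG.T_NQU

/-! # Task AV1: the average of `av1` -/

set_option autoImplicit false

open Matrix

noncomputable section

namespace Pool.Agent.T2h79.LG.AV1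

open Pool.Agent.T2h77.N Pool.Agent.T2h79.LG

theorem le_zz {n ρ : ℕ} (q : Matrix (Fin n) (Fin ρ) ℚ) (i : Fin n) (j : Fin ρ) :
    |((q i j : ℚ) : ℝ)| ≤ zz q j := by
  have := norm_le_pi_norm (fun i => ((q i j : ℚ) : ℝ)) i
  rwa [Real.norm_eq_abs] at this

theorem zz_pos {n ρ : ℕ} (q : Matrix (Fin n) (Fin ρ) ℚ) (hq : LinearIndependent ℚ fun j => fun i => q i j)
    (j : Fin ρ) : 0 < zz q j := by
  have h0 : (fun i => q i j) ≠ 0 := hq.ne_zero j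
  obtain ⟨i, hi⟩ := Function.ne_iff.1 h0
  refine lt_of_lt_of_le ?_ (le_zz q i j)
  rw [abs_pos]
  intro h
  exact hi (by exact_mod_cast h)

/-- the product of the sizes of the columns is not small -/
theorem prod_ge {n ρ : ℕ} (q : Matrix (Fin n) (Fin ρ) ℚ) (hq : LinearIndependent ℚ fun j => fun i => q i j) :
    (1 : ℝ) ≤ (KK q).index * (ρ.factorial * ∏ j, zz q j) := by
  obtain ⟨hK0, -⟩ := DUA.t_DUA n ρ q
  obtain ⟨B, hBd, hB⟩ := IDX.t_IDX ρ (KK q) hK0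
  obtain ⟨y, hy, hyq⟩ := NQU.exists_rows hq
  choose κ hκ using hyq
  have hrow : ∀ l : Fin ρ, B l ∈ KK q := by
    intro l
    rw [hB]
    exact ⟨Pi.single l 1, by rw [Matrix.single_one_vecMul]; rfl⟩
  have hint : ∀ i l : Fin ρ, ∃ z : ℤ, ∑ j, y i j * (B l j : ℚ) = z := by
    intro i l
    obtain ⟨z, hz⟩ := hrow l (κ i)
    exact ⟨z, by rw [hκ i]; exact hz⟩
  choose Z hZ using hint
  let A : Matrix (Fin ρ) (Fin ρ) ℚ := Matrix.of y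
  have hAB : A * (B.map (Int.cast : ℤ → ℚ))ᵀ = (Matrix.of Z).map (Int.cast : ℤ → ℚ) := by
    ext i l
    rw [Matrix.mul_apply]
    simp only [A, Matrix.of_apply, Matrix.transpose_apply, Matrix.map_apply]
    exact hZ i l
  have hdet := congrArg Matrix.det hAB
  rw [Matrix.det_mul, Matrix.det_transpose] at hdet
  have e1 : (B.map (Int.cast : ℤ → ℚ)).det = ((KK q).index : ℚ) := by
    have := (RingHom.map_det (Int.castRingHom ℚ) B).symm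
    have h2 : (B.map (Int.cast : ℤ → ℚ)).det = ((B.det : ℤ) : ℚ) := this
    rw [h2, hBd]
    simp
  have e2 : ((Matrix.of Z).map (Int.cast : ℤ → ℚ)).det = (((Matrix.of Z).det : ℤ) : ℚ) :=
    (RingHom.map_det (Int.castRingHom ℚ) (Matrix.of Z)).symm
  rw [e1, e2] at hdet
  have hA0 : A.det ≠ 0 := by
    have h1 : LinearIndependent ℚ A.row := hy
    exact ((Matrix.isUnit_iff_isUnit_det A).1 (Matrix.linearIndependent_rows_iff_isUnit.1 h1)).ne_zero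
  have hZ0 : (Matrix.of Z).det ≠ 0 := by
    intro h
    rw [h] at hdet
    have h3 : A.det * ((KK q).index : ℚ) = 0 := by rw [hdet]; simp
    rcases mul_eq_zero.1 h3 with h4 | h4
    · exact hA0 h4
    · exact hK0 (by exact_mod_cast h4)
  have h1 : (1 : ℝ) ≤ |(((Matrix.of Z).det : ℤ) : ℝ)| := by exact_mod_cast Int.one_le_abs hZ0
  have h2 : |((A.det : ℚ) : ℝ)| ≤ ρ.factorial * ∏ j, zz q j := by
    refine BOX.det_bound A (zz q) fun i j => ?_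
    have : A i j = q (κ i) j := by
      simp only [A, Matrix.of_apply, hκ i]
    rw [this]
    exact le_zz q _ j
  have h3 : ((A.det : ℚ) : ℝ) * ((KK q).index : ℝ) = (((Matrix.of Z).det : ℤ) : ℝ) := by
    have h := congrArg (Rat.cast : ℚ → ℝ) hdet
    rw [Rat.cast_mul, Rat.cast_natCast, Rat.cast_intCast] at h
    exact h
  rw [← h3, abs_mul, abs_of_nonneg (by positivity : (0 : ℝ) ≤ ((KK q).index : ℝ)), mul_comm] at h1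
  refine h1.trans ?_
  gcongr

/-- the pairs with the structure of STR of rank `ρ` -/
def P {n : ℕ} (C₁ : ℝ) (β : MZ n) (r : ℝ) (N ρ : ℕ) : Set (MZ n × (Fin n → ZMod N)) :=
  {p | Um p.2 ∧ p.1.map (Int.cast : ℤ → ZMod N) *ᵥ p.2 = 0 ∧
    ∃ (Q : Matrix (Fin n) (Fin ρ) ℚ) (Φ : Matrix (Fin ρ) (Fin n) ℤ) (A : Matrix (Fin ρ) (Fin n) ℤ),
      (LinearIndependent ℚ fun j => fun i => Q i j) ∧ Itg β Q ∧ (∀ j, zz Q j ≤ C₁ * r) ∧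
      β.map (Int.cast : ℤ → ℚ) * Q * Φ.map (Int.cast : ℤ → ℚ) = p.1.map (Int.cast : ℤ → ℚ) ∧
      A * p.1 = Φ ∧ LinearIndependent ℤ (fun j => Φ j) ∧ ∀ j k, |((Φ j k : ℤ) : ℝ)| ≤ C₁ * r / zz Q j}

/-- the arithmetic of the exponents -/
theorem arith (n ρ m N : ℕ) (hm : 0 < m) (r ε : ℝ) (hε : 0 < ε) (hn : 1 ≤ n) (hr : 1 ≤ r)
    (h : (m : ℝ) * r ^ n ≤ N) :
    (N : ℝ) ^ ((n : ℝ) - ρ + ε / 3) * ((m : ℝ) ^ ((n : ℝ) - 1 + ρ + ε / 3) * r ^ (n * ρ) * r ^ (ε / 3)) ≤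
      (N : ℝ) ^ ((n : ℝ) + ε) * (m : ℝ) ^ ((n : ℝ) - 1) := by
  have hm1 : (1 : ℝ) ≤ m := by exact_mod_cast hm
  have hm0 : (0 : ℝ) < m := by linarith
  have hr0 : (0 : ℝ) < r := by linarith
  have hrn : r ≤ r ^ n := le_self_pow₀ hr (by omega)
  have hrn1 : (1 : ℝ) ≤ r ^ n := by linarith
  have hmN : (m : ℝ) ≤ N := by nlinarith
  have hrN : r ≤ N := by nlinarith
  have hN0 : (0 : ℝ) < N := by linarith
  have e1 : (m : ℝ) ^ ((n : ℝ) - 1 + ρ + ε / 3) = (m : ℝ) ^ ((n : ℝ) - 1) * (m : ℝ) ^ ρ * (m : ℝ) ^ (ε / 3) := by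
    rw [Real.rpow_add hm0, Real.rpow_add hm0, Real.rpow_natCast]
  have e2 : (N : ℝ) ^ ((n : ℝ) + ε) = (N : ℝ) ^ ((n : ℝ) - ρ + ε / 3) * (N : ℝ) ^ ρ * (N : ℝ) ^ (ε / 3) *
      (N : ℝ) ^ (ε / 3) := by
    rw [← Real.rpow_natCast (N : ℝ) ρ, ← Real.rpow_add hN0, ← Real.rpow_add hN0, ← Real.rpow_add hN0]
    congr 1
    ring
  rw [e1, e2]
  have e3 : (m : ℝ) ^ ρ * r ^ (n * ρ) ≤ (N : ℝ) ^ ρ := by
    rw [pow_mul, ← mul_pow]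
    exact pow_le_pow_left₀ (by positivity) h ρ
  have e4 : (m : ℝ) ^ (ε / 3) ≤ (N : ℝ) ^ (ε / 3) := Real.rpow_le_rpow hm0.le hmN (by positivity)
  have e5 : r ^ (ε / 3) ≤ (N : ℝ) ^ (ε / 3) := Real.rpow_le_rpow hr0.le hrN (by positivity)
  calc (N : ℝ) ^ ((n : ℝ) - ρ + ε / 3) * ((m : ℝ) ^ ((n : ℝ) - 1) * (m : ℝ) ^ ρ * (m : ℝ) ^ (ε / 3) * r ^ (n * ρ) *
        r ^ (ε / 3))
      = (N : ℝ) ^ ((n : ℝ) - ρ + ε / 3) * ((m : ℝ) ^ ρ * r ^ (n * ρ)) * (m : ℝ) ^ (ε / 3) * r ^ (ε / 3) *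
          (m : ℝ) ^ ((n : ℝ) - 1) := by ring
    _ ≤ (N : ℝ) ^ ((n : ℝ) - ρ + ε / 3) * (N : ℝ) ^ ρ * (N : ℝ) ^ (ε / 3) * (N : ℝ) ^ (ε / 3) *
          (m : ℝ) ^ ((n : ℝ) - 1) := by gcongr

/-- the pairs of rank `ρ` -/
theorem part (hG : S_gcv) (hE : S_exq) (n ρ : ℕ) (hn : 1 ≤ n) (hρ : 1 ≤ ρ) (hρn : ρ ≤ n) (C₁ : ℝ) (hC₁ : 1 ≤ C₁)
    (ε : ℝ) (hε : 0 < ε) : ∃ C : ℝ, 1 ≤ C ∧ ∀ (m N : ℕ) [NeZero N] (R : Finset (MZ n)), 0 < m →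
      IsReps (m : ℤ) R → ∀ r : ℝ, 1 ≤ r → C * m * r ^ n ≤ N →
        (∀ β ∈ R, (P C₁ β r N ρ).Finite) ∧ ∑ β ∈ R, ((P C₁ β r N ρ).ncard : ℝ) ≤
          C * ((N : ℝ) ^ ((n : ℝ) + ε) * (m : ℝ) ^ ((n : ℝ) - 1)) := by
  classical
  obtain ⟨C₂, hC₂, hG'⟩ := hG n ρ hρ hρn (ε / 3) (by positivity)
  obtain ⟨C₃, hC₃, hE'⟩ := hE n ρ hn hρ C₁ (ε / 3) hC₁ (by positivity)
  have hC₂0 : (0 : ℝ) < C₂ := by linarith
  have hC₃0 : (0 : ℝ) < C₃ := by linarith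
  have hC₁0 : (0 : ℝ) < C₁ := by linarith
  refine ⟨2 * (C₂ * (C₁ ^ ρ * ρ.factorial)) + C₂ * (C₁ ^ ρ) ^ n * C₃, ?_, ?_⟩
  · have f1 : (1 : ℝ) ≤ ρ.factorial := by exact_mod_cast Nat.one_le_iff_ne_zero.2 (Nat.factorial_ne_zero ρ)
    have f2 : (1 : ℝ) ≤ C₁ ^ ρ := one_le_pow₀ hC₁
    have f3 : (1 : ℝ) ≤ C₁ ^ ρ * ρ.factorial := by nlinarith
    have f4 : (1 : ℝ) ≤ C₂ * (C₁ ^ ρ * ρ.factorial) := by nlinarith
    have f5 : (0 : ℝ) ≤ C₂ * (C₁ ^ ρ) ^ n * C₃ := by positivity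
    linarith
  intro m N _ R hm hR r hr hmN
  have hm0 : (0 : ℝ) < m := by exact_mod_cast hm
  have hr0 : (0 : ℝ) < r := by linarith
  have hmr : (0 : ℝ) < (m : ℝ) * r ^ n := by positivity
  have hN0 : (0 : ℝ) < N := by exact_mod_cast Nat.pos_of_neZero N
  have hK1 : 2 * (C₂ * (C₁ ^ ρ * ρ.factorial)) * ((m : ℝ) * r ^ n) ≤ N := by
    have : (0 : ℝ) ≤ C₂ * (C₁ ^ ρ) ^ n * C₃ := by positivity
    nlinarith
  have hmN' : (m : ℝ) * r ^ n ≤ N := by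
    have f1 : (1 : ℝ) ≤ ρ.factorial := by exact_mod_cast Nat.one_le_iff_ne_zero.2 (Nat.factorial_ne_zero ρ)
    have f2 : (1 : ℝ) ≤ C₁ ^ ρ := one_le_pow₀ hC₁
    have f3 : (1 : ℝ) ≤ C₁ ^ ρ * ρ.factorial := by nlinarith
    have f4 : (1 : ℝ) ≤ C₂ * (C₁ ^ ρ * ρ.factorial) := by nlinarith
    nlinarith
  set S : Set (MZ n × Matrix (Fin n) (Fin ρ) ℚ) :=
    {p | p.1 ∈ R ∧ (LinearIndependent ℚ fun j => fun i => p.2 i j) ∧ Itg p.1 p.2 ∧ ∀ j, zz p.2 j ≤ C₁ * r} with hSd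
  obtain ⟨hSf, hSs⟩ := hE' m R hm hR r hr S (fun p => Iff.rfl)
  -- the divisibility
  obtain ⟨C₅, -, hdvd'⟩ := RNU.t_RNU REPG.t_REPG REPU.t_REPU IDX.t_IDX IDY.t_IDY DUA.t_DUA n hn 1 one_pos
  -- the box
  have hX : ∀ p ∈ S, (∀ j, 1 ≤ C₁ * r / zz p.2 j) ∧ C₂ * ∏ j, (C₁ * r / zz p.2 j) < N := by
    rintro ⟨β, q⟩ ⟨h1, h2, h3, h4⟩
    have hz : ∀ j, 0 < zz q j := zz_pos q h2
    refine ⟨fun j => (one_le_div (hz j)).2 (h4 j), ?_⟩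
    have hprod : 0 < ∏ j, zz q j := Finset.prod_pos fun j _ => hz j
    have hd := (hdvd' m R hm hR ρ q).1 β h1 h3
    have hdm : ((KK q).index : ℝ) ≤ m := by exact_mod_cast Nat.le_of_dvd hm hd
    have h5 := prod_ge q h2
    have h6 : (1 : ℝ) ≤ m * (ρ.factorial * ∏ j, zz q j) := by
      refine h5.trans ?_
      gcongr
    have h7 : ∏ j, (C₁ * r / zz q j) ≤ C₁ ^ ρ * ρ.factorial * (m * r ^ n) := by
      rw [Finset.prod_div_distrib, Finset.prod_const, Finset.card_univ, Fintype.card_fin, div_le_iff₀ hprod]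
      have h8 : r ^ ρ ≤ r ^ n := pow_le_pow_right₀ hr hρn
      calc (C₁ * r) ^ ρ = C₁ ^ ρ * r ^ ρ * 1 := by rw [mul_pow, mul_one]
        _ ≤ C₁ ^ ρ * r ^ n * (m * (ρ.factorial * ∏ j, zz q j)) := by gcongr
        _ = C₁ ^ ρ * ρ.factorial * (m * r ^ n) * ∏ j, zz q j := by ring
    calc C₂ * ∏ j, (C₁ * r / zz q j) ≤ C₂ * (C₁ ^ ρ * ρ.factorial * (m * r ^ n)) := by gcongr
      _ < 2 * (C₂ * (C₁ ^ ρ * ρ.factorial)) * ((m : ℝ) * r ^ n) := by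
          have : 0 < C₂ * (C₁ ^ ρ * ρ.factorial * (m * r ^ n)) := by positivity
          nlinarith
      _ ≤ N := hK1
  -- the pairs `(Φ, v)`
  let Gs : (MZ n × Matrix (Fin n) (Fin ρ) ℚ) → Set (Matrix (Fin ρ) (Fin n) ℤ × (Fin n → ZMod N)) := fun p =>
    {x | LinearIndependent ℤ (fun j => x.1 j) ∧ (∀ j k, |((x.1 j k : ℤ) : ℝ)| ≤ C₁ * r / zz p.2 j) ∧ Um x.2 ∧
        x.1.map (Int.cast : ℤ → ZMod N) *ᵥ x.2 = 0}
  have hGs : ∀ p ∈ S, (Gs p).Finite ∧ (((Gs p).ncard : ℕ) : ℝ) ≤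
      C₂ * (N : ℝ) ^ ((n : ℝ) - ρ + ε / 3) * (∏ j, (C₁ * r / zz p.2 j)) ^ n := by
    intro p hp
    obtain ⟨h1, h2⟩ := hX p hp
    exact hG' N (fun j => C₁ * r / zz p.2 j) h1 h2 (Gs p) (fun x hx => hx)
  let fm : (MZ n × Matrix (Fin n) (Fin ρ) ℚ) → (Matrix (Fin ρ) (Fin n) ℤ × (Fin n → ZMod N)) →
      MZ n × (Fin n → ZMod N) := fun p x =>
    (Matrix.of fun i j => ⌊(p.1.map (Int.cast : ℤ → ℚ) * p.2 * x.1.map (Int.cast : ℤ → ℚ)) i j⌋, x.2)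
  have hcov : ∀ β ∈ R, P C₁ β r N ρ ⊆ ⋃ p ∈ hSf.toFinset.filter (fun p => p.1 = β), fm p '' Gs p := by
    rintro β hβ ⟨W, v⟩ ⟨h1, h2, Q, Φ, A, h3, h4, h5, h6, h7, h8, h9⟩
    rw [Set.mem_iUnion₂]
    refine ⟨(β, Q), ?_, (Φ, v), ?_, ?_⟩
    · rw [Finset.mem_filter, Set.Finite.mem_toFinset]
      exact ⟨⟨hβ, h3, h4, h5⟩, rfl⟩
    · refine ⟨h8, h9, h1, ?_⟩
      rw [← h7]
      have : (A * W).map (Int.cast : ℤ → ZMod N) =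
          A.map (Int.cast : ℤ → ZMod N) * W.map (Int.cast : ℤ → ZMod N) :=
        Matrix.map_mul (f := Int.castRingHom (ZMod N))
      change (A * W).map (Int.cast : ℤ → ZMod N) *ᵥ v = 0
      rw [this, ← Matrix.mulVec_mulVec]
      have h2' : W.map (Int.cast : ℤ → ZMod N) *ᵥ v = 0 := h2
      rw [h2', Matrix.mulVec_zero]
    · change ((Matrix.of fun i j => ⌊(β.map (Int.cast : ℤ → ℚ) * Q * Φ.map (Int.cast : ℤ → ℚ)) i j⌋ : MZ n), v) = (W, v)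
      have h6' : β.map (Int.cast : ℤ → ℚ) * Q * Φ.map (Int.cast : ℤ → ℚ) = W.map (Int.cast : ℤ → ℚ) := h6
      rw [h6']
      have h10 : (Matrix.of fun i j => ⌊(W.map (Int.cast : ℤ → ℚ)) i j⌋ : MZ n) = W := by
        ext i j
        simp
      rw [h10]
  have hfU : ∀ β ∈ R, (⋃ p ∈ hSf.toFinset.filter (fun p => p.1 = β), fm p '' Gs p).Finite := by
    intro β _
    refine Set.Finite.biUnion (Finset.finite_toSet _) fun p hp => ?_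
    rw [Finset.mem_coe, Finset.mem_filter, Set.Finite.mem_toFinset] at hp
    exact (hGs p hp.1).1.image _
  refine ⟨fun β hβ => (hfU β hβ).subset (hcov β hβ), ?_⟩
  have hone : ∀ β ∈ R, ((P C₁ β r N ρ).ncard : ℝ) ≤
      ∑ p ∈ hSf.toFinset.filter (fun p => p.1 = β), (((Gs p).ncard : ℕ) : ℝ) := by
    intro β hβ
    have h1 := Set.ncard_le_ncard (hcov β hβ) (hfU β hβ)
    have h2 := Finset.set_ncard_biUnion_le (hSf.toFinset.filter (fun p => p.1 = β)) (fun p => fm p '' Gs p)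
    have h3 : ∑ p ∈ hSf.toFinset.filter (fun p => p.1 = β), (fm p '' Gs p).ncard ≤
        ∑ p ∈ hSf.toFinset.filter (fun p => p.1 = β), (Gs p).ncard := by
      refine Finset.sum_le_sum fun p hp => ?_
      rw [Finset.mem_filter, Set.Finite.mem_toFinset] at hp
      exact Set.ncard_image_le (hGs p hp.1).1
    exact_mod_cast h1.trans (h2.trans h3)
  have hfib : ∑ β ∈ R, ∑ p ∈ hSf.toFinset.filter (fun p => p.1 = β), (((Gs p).ncard : ℕ) : ℝ) =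
      ∑ p ∈ hSf.toFinset, (((Gs p).ncard : ℕ) : ℝ) := by
    refine Finset.sum_fiberwise_of_maps_to (fun p hp => ?_) _
    rw [Set.Finite.mem_toFinset] at hp
    exact hp.1
  refine (Finset.sum_le_sum hone).trans ?_
  rw [hfib]
  have hpt : ∀ p ∈ hSf.toFinset, (((Gs p).ncard : ℕ) : ℝ) ≤
      C₂ * (C₁ ^ ρ) ^ n * (N : ℝ) ^ ((n : ℝ) - ρ + ε / 3) * (∏ j, (r / zz p.2 j)) ^ n := by
    intro p hp
    rw [Set.Finite.mem_toFinset] at hp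
    refine (hGs p hp).2.trans (le_of_eq ?_)
    have e1 : ∏ j, (C₁ * r / zz p.2 j) = C₁ ^ ρ * ∏ j, (r / zz p.2 j) := by
      have : ∀ j, C₁ * r / zz p.2 j = C₁ * (r / zz p.2 j) := fun j => by ring
      simp only [this]
      rw [Finset.prod_mul_distrib, Finset.prod_const, Finset.card_univ, Fintype.card_fin]
    rw [e1, mul_pow]
    ring
  refine (Finset.sum_le_sum hpt).trans ?_
  rw [← Finset.mul_sum]
  have hNp : (0 : ℝ) ≤ (N : ℝ) ^ ((n : ℝ) - ρ + ε / 3) := by positivity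
  have hfin1 : C₂ * (C₁ ^ ρ) ^ n * (N : ℝ) ^ ((n : ℝ) - ρ + ε / 3) *
      ∑ p ∈ hSf.toFinset, (∏ j, (r / zz p.2 j)) ^ n ≤ C₂ * (C₁ ^ ρ) ^ n * (N : ℝ) ^ ((n : ℝ) - ρ + ε / 3) *
      (C₃ * (m : ℝ) ^ ((n : ℝ) - 1 + ρ + ε / 3) * r ^ (n * ρ) * r ^ (ε / 3)) :=
    mul_le_mul_of_nonneg_left hSs (by positivity)
  refine hfin1.trans ?_
  have har := arith n ρ m N hm r ε hε hn hr hmN'
  have hT0 : (0 : ℝ) ≤ (N : ℝ) ^ ((n : ℝ) + ε) * (m : ℝ) ^ ((n : ℝ) - 1) := by positivity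
  calc C₂ * (C₁ ^ ρ) ^ n * (N : ℝ) ^ ((n : ℝ) - ρ + ε / 3) *
      (C₃ * (m : ℝ) ^ ((n : ℝ) - 1 + ρ + ε / 3) * r ^ (n * ρ) * r ^ (ε / 3))
      = C₂ * (C₁ ^ ρ) ^ n * C₃ * ((N : ℝ) ^ ((n : ℝ) - ρ + ε / 3) *
          ((m : ℝ) ^ ((n : ℝ) - 1 + ρ + ε / 3) * r ^ (n * ρ) * r ^ (ε / 3))) := by ring
    _ ≤ C₂ * (C₁ ^ ρ) ^ n * C₃ * ((N : ℝ) ^ ((n : ℝ) + ε) * (m : ℝ) ^ ((n : ℝ) - 1)) := by gcongr
    _ ≤ (2 * (C₂ * (C₁ ^ ρ * ρ.factorial)) + C₂ * (C₁ ^ ρ) ^ n * C₃) *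
          ((N : ℝ) ^ ((n : ℝ) + ε) * (m : ℝ) ^ ((n : ℝ) - 1)) := by
        refine mul_le_mul_of_nonneg_right ?_ hT0
        have : (0 : ℝ) ≤ 2 * (C₂ * (C₁ ^ ρ * ρ.factorial)) := by positivity
        linarith

/-- The average of `av1`. -/
theorem t_AV1 (hS : S_str) (hG : S_gcv) (hE : S_exq) (hR : S_repG) (hU : S_repU) : S_av1 := by
  classical
  intro n hn ε hε
  obtain ⟨C₁, hC₁, hS'⟩ := hS n hn
  obtain ⟨C₄, hC₄, hR'⟩ := hR n hn ε hε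
  have hpart : ∀ ρ : ℕ, ∃ C : ℝ, 1 ≤ C ∧ (1 ≤ ρ → ρ ≤ n → ∀ (m N : ℕ) [NeZero N] (R : Finset (MZ n)), 0 < m →
      IsReps (m : ℤ) R → ∀ r : ℝ, 1 ≤ r → C * m * r ^ n ≤ N →
        (∀ β ∈ R, (P C₁ β r N ρ).Finite) ∧ ∑ β ∈ R, ((P C₁ β r N ρ).ncard : ℝ) ≤
          C * ((N : ℝ) ^ ((n : ℝ) + ε) * (m : ℝ) ^ ((n : ℝ) - 1))) := by
    intro ρ
    by_cases h : 1 ≤ ρ ∧ ρ ≤ n
    · obtain ⟨C, hC, h'⟩ := part hG hE n ρ hn h.1 h.2 C₁ hC₁ ε hε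
      exact ⟨C, hC, fun _ _ => h'⟩
    · exact ⟨1, le_rfl, fun h1 h2 => absurd ⟨h1, h2⟩ h⟩
  choose Cρ hCρ hP using hpart
  have hsum0 : 0 ≤ ∑ ρ ∈ Finset.Icc 1 n, Cρ ρ := Finset.sum_nonneg fun ρ _ => by linarith [hCρ ρ]
  refine ⟨C₄ + ∑ ρ ∈ Finset.Icc 1 n, Cρ ρ, by linarith, ?_⟩
  intro m N _ R hm hReps r hr hmN
  have hm1 : (1 : ℝ) ≤ m := by exact_mod_cast hm
  have hm0 : (0 : ℝ) < m := by linarith
  have hr0 : (0 : ℝ) < r := by linarith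
  have hmr : (0 : ℝ) ≤ (m : ℝ) * r ^ n := by positivity
  have hN0 : (0 : ℝ) < N := by exact_mod_cast Nat.pos_of_neZero N
  have hle : ∀ ρ ∈ Finset.Icc 1 n, Cρ ρ * m * r ^ n ≤ N := by
    intro ρ hρ
    have h1 : Cρ ρ ≤ ∑ ρ ∈ Finset.Icc 1 n, Cρ ρ :=
      Finset.single_le_sum (f := Cρ) (fun i _ => by linarith [hCρ i]) hρ
    nlinarith
  have hmN' : (m : ℝ) ≤ N := by
    have f1 : (1 : ℝ) ≤ r ^ n := one_le_pow₀ hr
    have f2 : (m : ℝ) ≤ m * r ^ n := by nlinarith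
    nlinarith
  have hT : ∀ β ∈ R, (av1 β r N : ℝ) ≤ (N : ℝ) ^ n + ∑ ρ ∈ Finset.Icc 1 n, ((P C₁ β r N ρ).ncard : ℝ) := by
    intro β hβ
    have hdet : 0 < β.det := by
      rw [hReps.1 β hβ]
      exact_mod_cast hm
    have h1 : av1 β r N = ({p : MZ n × (Fin n → ZMod N) | (∀ i j, |(((β.adjugate * p.1) i j : ℤ) : ℝ)| ≤
        (β.det : ℝ) * r) ∧ Um p.2 ∧ p.1.map (Int.cast : ℤ → ZMod N) *ᵥ p.2 = 0}).ncard := by
      unfold av1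
      exact Nat.card_coe_set_eq _
    have h2 : {p : MZ n × (Fin n → ZMod N) | (∀ i j, |(((β.adjugate * p.1) i j : ℤ) : ℝ)| ≤
        (β.det : ℝ) * r) ∧ Um p.2 ∧ p.1.map (Int.cast : ℤ → ZMod N) *ᵥ p.2 = 0} ⊆
        ((fun v : Fin n → ZMod N => ((0 : MZ n), v)) '' Set.univ) ∪ ⋃ ρ ∈ Finset.Icc 1 n, P C₁ β r N ρ := by
      rintro ⟨W, v⟩ ⟨g1, g2, g3⟩
      by_cases hW : W = 0
      · left
        exact ⟨v, Set.mem_univ _, by rw [hW]⟩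
      · right
        obtain ⟨ρ, Q, Φ, A, k1, k2, k3, k4, k5, k6, k7, k8, k9⟩ := hS' β W r hdet hr0 hW g1
        rw [Set.mem_iUnion₂]
        exact ⟨ρ, Finset.mem_Icc.2 ⟨k1, k2⟩, g2, g3, Q, Φ, A, k3, k4, k5, k6, k7, k8, k9⟩
    have hfinP : (⋃ ρ ∈ Finset.Icc 1 n, P C₁ β r N ρ).Finite := by
      refine Set.Finite.biUnion (Finset.finite_toSet _) fun ρ hρ => ?_
      have hρ' := Finset.mem_Icc.1 hρ
      exact (hP ρ hρ'.1 hρ'.2 m N R hm hReps r hr (hle ρ hρ)).1 β hβ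
    have h3 := Set.ncard_le_ncard h2 ((Set.toFinite _).union hfinP)
    have h4 := Set.ncard_union_le ((fun v : Fin n → ZMod N => ((0 : MZ n), v)) '' Set.univ)
      (⋃ ρ ∈ Finset.Icc 1 n, P C₁ β r N ρ)
    have h5 : ((fun v : Fin n → ZMod N => ((0 : MZ n), v)) '' Set.univ).ncard ≤ N ^ n := by
      refine (Set.ncard_image_le (Set.toFinite _)).trans ?_
      rw [Set.ncard_univ]
      simp
    have h6 := Finset.set_ncard_biUnion_le (Finset.Icc 1 n) (fun ρ => P C₁ β r N ρ)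
    rw [h1]
    have h7 := h3.trans (h4.trans (Nat.add_le_add h5 h6))
    exact_mod_cast h7
  refine (Finset.sum_le_sum hT).trans ?_
  rw [Finset.sum_add_distrib, Finset.sum_const, nsmul_eq_mul, Finset.sum_comm, add_mul, add_mul]
  refine add_le_add ?_ ?_
  · obtain ⟨R₀, hR₀, hc₀⟩ := hR' m hm
    have h1 : (R.card : ℝ) ≤ C₄ * (m : ℝ) ^ ((n : ℝ) - 1 + ε) := by
      rw [hU n m R R₀ hReps hR₀]
      exact hc₀
    have h2 : (m : ℝ) ^ ((n : ℝ) - 1 + ε) = (m : ℝ) ^ ((n : ℝ) - 1) * (m : ℝ) ^ ε := Real.rpow_add hm0 _ _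
    have h3 : (m : ℝ) ^ ε ≤ (N : ℝ) ^ ε := Real.rpow_le_rpow hm0.le hmN' hε.le
    have h4 : (N : ℝ) ^ ((n : ℝ) + ε) = (N : ℝ) ^ n * (N : ℝ) ^ ε := by
      rw [Real.rpow_add hN0, Real.rpow_natCast]
    calc (R.card : ℝ) * (N : ℝ) ^ n ≤ C₄ * ((m : ℝ) ^ ((n : ℝ) - 1) * (m : ℝ) ^ ε) * (N : ℝ) ^ n := by
          rw [← h2]
          gcongr
      _ ≤ C₄ * ((m : ℝ) ^ ((n : ℝ) - 1) * (N : ℝ) ^ ε) * (N : ℝ) ^ n := by gcongr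
      _ = C₄ * (N : ℝ) ^ ((n : ℝ) + ε) * (m : ℝ) ^ ((n : ℝ) - 1) := by rw [h4]; ring
  · rw [Finset.sum_mul, Finset.sum_mul]
    refine Finset.sum_le_sum fun ρ hρ => ?_
    have hρ' := Finset.mem_Icc.1 hρ
    have h1 := (hP ρ hρ'.1 hρ'.2 m N R hm hReps r hr (hle ρ hρ)).2
    refine h1.trans (le_of_eq ?_)
    ring

end Pool.Agent.T2h79.LG.AV1
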