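import Pool.Agent.T2h79.LG.Stm2
import Pool.Agent.T2h79.LG.T_IDY
import Pool.Agent.T2h79.LG.T_BOX

set_option autoImplicit false

/-!
# Task BXL: points of a lattice in a box
-/

open Matrix

namespace Pool.Agent.T2h79.LG.BXL

open Pool.Agent.T2h77.N Pool.Agent.T2h79.LG Pool.Agent.T2h79.LG.BOX

lemma det_bound {ρ : ℕ} (A : MZ ρ) (s : Fin ρ → ℝ)
    (h : ∀ i j, |((A i j : ℤ) : ℝ)| ≤ s j) :
    |((A.det : ℤ) : ℝ)| ≤ ρ.factorial * ∏ j, s j := by
  have h1 := BOX.det_bound (A.map (Int.cast : ℤ → ℚ)) s (fun i j => by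
    rw [Matrix.map_apply]
    have : (((A i j : ℤ) : ℚ) : ℝ) = ((A i j : ℤ) : ℝ) := by push_cast; rfl
    rw [this]
    exact h i j)
  have h2 : (A.map (Int.cast : ℤ → ℚ)).det = ((A.det : ℤ) : ℚ) :=
    ((Int.castRingHom ℚ).map_det A).symm
  rw [h2] at h1
  have : (((A.det : ℤ) : ℚ) : ℝ) = ((A.det : ℤ) : ℝ) := by push_cast; rfl
  rw [this] at h1
  exact h1

theorem t_BXL : S_bxl := by
  classical
  intro ρ
  have hC1 : (1 : ℝ) ≤ 3 ^ ρ := one_le_pow₀ (by norm_num)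
  have hC2 : (1 : ℝ) ≤ ρ.factorial := by exact_mod_cast Nat.factorial_pos ρ
  refine ⟨3 ^ ρ * ρ.factorial, by nlinarith, ?_⟩
  intro L X hL hX ⟨y₀, hy₀, hy₀S⟩
  obtain ⟨S, hSdef⟩ : ∃ S : Set (Fin ρ → ℤ), S = {y : Fin ρ → ℤ | y ∈ L ∧ ∀ j, |((y j : ℤ) : ℝ)| ≤ X j} :=
    ⟨_, rfl⟩
  rw [← hSdef]
  have hS : ∀ y, y ∈ S ↔ y ∈ L ∧ ∀ j, |((y j : ℤ) : ℝ)| ≤ X j := by
    intro y; rw [hSdef]; rfl
  have hy₀S' : ∀ i, y₀ i ∈ S := fun i => (hS _).mpr (hy₀S i)
  have hfin : S.Finite := by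
    refine (Set.finite_Icc (fun j => -⌈X j⌉) (fun j => ⌈X j⌉)).subset ?_
    intro y hy
    have h2 : ∀ i, |y i| ≤ ⌈X i⌉ := by
      intro i
      have h3 : ((|y i| : ℤ) : ℝ) ≤ (⌈X i⌉ : ℝ) := by
        rw [Int.cast_abs]
        exact (((hS y).mp hy).2 i).trans (Int.le_ceil _)
      exact_mod_cast h3
    rw [Set.mem_Icc]
    exact ⟨fun i => (abs_le.mp (h2 i)).1, fun i => (abs_le.mp (h2 i)).2⟩
  have hTfin : {Y : Fin ρ → Fin ρ → ℤ | ∀ i, Y i ∈ S}.Finite := Set.Finite.pi' fun _ => hfin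
  obtain ⟨A, hA, hmax⟩ := Set.exists_max_image {Y : Fin ρ → Fin ρ → ℤ | ∀ i, Y i ∈ S}
    (fun Y => |(Matrix.of Y).det|) hTfin ⟨y₀, hy₀S'⟩
  have hA' : ∀ i, A i ∈ S := hA
  obtain ⟨Ai, hAi⟩ : ∃ Ai : MZ ρ, Ai = Matrix.of A := ⟨_, rfl⟩
  have hy₀det : (Matrix.of y₀).det ≠ 0 := by
    intro h
    obtain ⟨v, hv, hv0⟩ := Matrix.exists_vecMul_eq_zero_iff.mpr h
    apply hv
    have h1 : ∑ i, v i • y₀ i = 0 := by
      rw [← hv0]
      ext j
      rw [Finset.sum_apply]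
      rfl
    have h2 := (Fintype.linearIndependent_iff.mp hy₀) v h1
    exact funext h2
  have hAi0 : Ai.det ≠ 0 := by
    have h1 := hmax y₀ hy₀S'
    have h2 : 0 < |(Matrix.of y₀).det| := abs_pos.mpr hy₀det
    rw [hAi]
    exact abs_pos.mp (h2.trans_le h1)
  -- the lattice of the rows
  have hidx := IDY.t_IDY ρ Ai (rowLat Ai) hAi0 (fun v => mem_rowLat Ai v)
  have hle : rowLat Ai ≤ L := by
    rintro _ ⟨c, rfl⟩
    have : c ᵥ* Ai = ∑ i, c i • A i := by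
      ext j
      rw [Finset.sum_apply, hAi]
      rfl
    rw [this]
    exact L.sum_mem fun i _ => L.zsmul_mem ((hS _).mp (hA' i)).1 _
  have hrel : (rowLat Ai).relIndex L * L.index = (rowLat Ai).index :=
    AddSubgroup.relIndex_mul_index hle
  have hdetR : (((rowLat Ai).index : ℕ) : ℝ) ≤ ρ.factorial * ∏ j, X j := by
    have h1 : (((rowLat Ai).index : ℕ) : ℝ) = |((Ai.det : ℤ) : ℝ)| := by
      have h2 : (((rowLat Ai).index : ℤ) : ℝ) = ((|Ai.det| : ℤ) : ℝ) := by rw [hidx]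
      rw [Int.cast_abs] at h2
      rw [← h2]
      push_cast
      rfl
    rw [h1, hAi]
    exact det_bound _ X (fun i j => ((hS _).mp (hA' i)).2 j)
  have hidx0 : (rowLat Ai).index ≠ 0 := by
    intro h
    rw [h] at hidx
    have h1 : |Ai.det| = 0 := by rw [← hidx]; norm_num
    exact hAi0 (abs_eq_zero.mp h1)
  have hrel0 : (rowLat Ai).relIndex L ≠ 0 := by
    intro h
    rw [h, zero_mul] at hrel
    exact hidx0 hrel.symm
  have hXpos : 0 < ∏ j, X j := Finset.prod_pos fun j _ => hX j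
  have hLpos : (0 : ℝ) < L.index := by exact_mod_cast Nat.pos_of_ne_zero hL
  -- the coordinates
  obtain ⟨Am, hAm⟩ : ∃ Am : Matrix (Fin ρ) (Fin ρ) ℚ, Am = Ai.map (Int.cast : ℤ → ℚ) := ⟨_, rfl⟩
  have hAmdet : Am.det = ((Ai.det : ℤ) : ℚ) := by
    rw [hAm]
    exact ((Int.castRingHom ℚ).map_det Ai).symm
  have hA0 : Am.det ≠ 0 := by
    rw [hAmdet]; exact_mod_cast hAi0
  obtain ⟨t, ht⟩ : ∃ t : (Fin ρ → ℤ) → (Fin ρ → ℚ), t = fun z j =>
    (((Ai.updateRow j z).det : ℤ) : ℚ) / Am.det := ⟨_, rfl⟩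
  have htA : ∀ z : Fin ρ → ℤ, t z ᵥ* Am = fun j => ((z j : ℤ) : ℚ) := by
    intro z
    have h1 := Matrix.mulVec_cramer Amᵀ (fun j => ((z j : ℤ) : ℚ))
    rw [Matrix.mulVec_transpose, Matrix.det_transpose] at h1
    have h2 : t z = (Am.det)⁻¹ • (Matrix.cramer Amᵀ (fun j => ((z j : ℤ) : ℚ))) := by
      ext j
      rw [Pi.smul_apply, Matrix.cramer_transpose_apply, smul_eq_mul, ht]
      show (((Ai.updateRow j z).det : ℤ) : ℚ) / Am.det = _
      rw [div_eq_inv_mul]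
      congr 1
      have h3 : Am.updateRow j (fun j => ((z j : ℤ) : ℚ)) =
          (Ai.updateRow j z).map (Int.cast : ℤ → ℚ) := by
        rw [hAm, Matrix.map_updateRow]
        rfl
      rw [h3]
      exact (Int.castRingHom ℚ).map_det _
    rw [h2, Matrix.smul_vecMul, h1, smul_smul, inv_mul_cancel₀ hA0, one_smul]
  have ht1 : ∀ z ∈ S, ∀ j, |t z j| ≤ 1 := by
    intro z hz j
    rw [ht]
    show |(((Ai.updateRow j z).det : ℤ) : ℚ) / Am.det| ≤ 1
    rw [abs_div, div_le_one (abs_pos.mpr hA0), hAmdet]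
    have h1 := hmax (Function.update A j z) (by
      intro i
      by_cases h : i = j
      · subst h; rw [Function.update_self]; exact hz
      · rw [Function.update_of_ne h]; exact hA' i)
    rw [← Int.cast_abs, ← Int.cast_abs, hAi]
    exact_mod_cast h1
  -- the injection
  obtain ⟨M, hM⟩ : ∃ M : AddSubgroup L, M = (rowLat Ai).addSubgroupOf L := ⟨_, rfl⟩
  have hMi : M.index = (rowLat Ai).relIndex L := by rw [hM]; rfl
  have hMf : M.FiniteIndex := ⟨by rw [hMi]; exact hrel0⟩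
  have hfq : Finite (L ⧸ M) := AddSubgroup.finite_quotient_of_finiteIndex
  let Φ : S → (L ⧸ M) × (Fin ρ → Set.Icc (-1 : ℤ) 1) := fun z =>
    (QuotientAddGroup.mk ⟨z.1, ((hS _).mp z.2).1⟩, fun j => ⟨⌊t z.1 j⌋, by
      have h1 := abs_le.mp (ht1 z.1 z.2 j)
      rw [Set.mem_Icc]
      constructor
      · apply Int.le_floor.mpr
        push_cast
        exact h1.1
      · have h2 : ((⌊t z.1 j⌋ : ℤ) : ℚ) ≤ ((1 : ℤ) : ℚ) := by
          push_cast
          exact (Int.floor_le _).trans h1.2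
        exact_mod_cast h2⟩)
  have hΦ : Function.Injective Φ := by
    intro z z' h
    have h1 : (QuotientAddGroup.mk ⟨z.1, ((hS _).mp z.2).1⟩ : L ⧸ M) =
        QuotientAddGroup.mk ⟨z'.1, ((hS _).mp z'.2).1⟩ := congrArg Prod.fst h
    have h2 : ∀ j, ⌊t z.1 j⌋ = ⌊t z'.1 j⌋ := fun j =>
      congrArg Subtype.val (congrFun (congrArg Prod.snd h) j)
    rw [QuotientAddGroup.eq, hM, AddSubgroup.mem_addSubgroupOf] at h1
    obtain ⟨c, hc⟩ := h1
    have hc' : -z.1 + z'.1 = c ᵥ* Ai := hc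
    have h4 : (t z'.1 - t z.1) = fun j => (c j : ℚ) := by
      have h5 : (t z'.1 - t z.1 - fun j => (c j : ℚ)) ᵥ* Am = 0 := by
        rw [Matrix.sub_vecMul, Matrix.sub_vecMul, htA, htA]
        have h6 : (fun j => (c j : ℚ)) ᵥ* Am = fun j => (((c ᵥ* Ai) j : ℤ) : ℚ) := by
          ext j
          rw [hAm]
          show ∑ i, (c i : ℚ) * ((Ai i j : ℤ) : ℚ) = (((∑ i, c i * Ai i j : ℤ)) : ℚ)
          push_cast
          rfl
        rw [h6, ← hc']
        ext j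
        simp only [Pi.sub_apply, Pi.add_apply, Pi.neg_apply, Pi.zero_apply]
        push_cast
        ring
      have h6 := Matrix.eq_zero_of_vecMul_eq_zero hA0 h5
      exact sub_eq_zero.mp h6
    have h5 : ∀ j, c j = 0 := by
      intro j
      have h6 : t z'.1 j - t z.1 j = c j := congrFun h4 j
      have h7 := Int.abs_sub_lt_one_of_floor_eq_floor (h2 j)
      have h8 : |((c j : ℤ) : ℚ)| < 1 := by
        rw [← h6, abs_sub_comm]; exact h7
      have h9 : |c j| < 1 := by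
        have : ((|c j| : ℤ) : ℚ) < ((1 : ℤ) : ℚ) := by rw [Int.cast_abs]; simpa using h8
        exact_mod_cast this
      exact Int.abs_lt_one_iff.mp h9
    have h6 : -z.1 + z'.1 = 0 := by
      rw [hc']
      have : c = 0 := by ext j; exact h5 j
      rw [this, Matrix.zero_vecMul]
    exact Subtype.ext (neg_add_eq_zero.mp h6)
  have hcard := Nat.card_le_card_of_injective Φ hΦ
  rw [Nat.card_prod, Nat.card_fun] at hcard
  have h3 : Nat.card (Set.Icc (-1 : ℤ) 1) = 3 := by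
    rw [Nat.card_eq_fintype_card]; rfl
  rw [h3, Nat.card_eq_fintype_card (α := Fin ρ), Fintype.card_fin] at hcard
  have hcard' : S.ncard ≤ (rowLat Ai).relIndex L * 3 ^ ρ := by
    rw [← Nat.card_coe_set_eq, ← hMi]; exact hcard
  have hrelR : (((rowLat Ai).relIndex L : ℕ) : ℝ) * L.index = (rowLat Ai).index := by
    exact_mod_cast hrel
  refine ⟨hfin, ?_, ?_⟩
  · rw [le_div_iff₀ hLpos]
    calc ((S.ncard : ℕ) : ℝ) * L.index ≤ (((rowLat Ai).relIndex L * 3 ^ ρ : ℕ) : ℝ) * L.index := by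
          gcongr
      _ = ((((rowLat Ai).relIndex L : ℕ) : ℝ) * L.index) * 3 ^ ρ := by push_cast; ring
      _ = (((rowLat Ai).index : ℕ) : ℝ) * 3 ^ ρ := by rw [hrelR]
      _ ≤ (ρ.factorial * ∏ j, X j) * 3 ^ ρ := by gcongr
      _ = 3 ^ ρ * ρ.factorial * ∏ j, X j := by ring
  · have h1 : (1 : ℝ) ≤ (((rowLat Ai).relIndex L : ℕ) : ℝ) := by
      exact_mod_cast Nat.pos_of_ne_zero hrel0
    calc (L.index : ℝ) ≤ (((rowLat Ai).relIndex L : ℕ) : ℝ) * L.index := by nlinarith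
      _ = (((rowLat Ai).index : ℕ) : ℝ) := hrelR
      _ ≤ ρ.factorial * ∏ j, X j := hdetR
      _ ≤ 3 ^ ρ * (ρ.factorial * ∏ j, X j) := by
          have : 0 ≤ ρ.factorial * ∏ j, X j := by positivity
          nlinarith
      _ = 3 ^ ρ * ρ.factorial * ∏ j, X j := by ring

end Pool.Agent.T2h79.LG.BXL
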