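import Pool.Agent.T2h79.LG.Stm
import Pool.Agent.T2h77N.Count

/-!
# Project LG, task CNT: the counts at the points of bounded height, at principal level
-/

set_option autoImplicit false

open MeasureTheory Matrix
open scoped MatrixGroups ENNReal Topology ComplexConjugate

noncomputable section

namespace Pool.Agent.T2h79.LG.CNT

open Pool.Agent.T2h77.N

variable {n N : ℕ}

theorem scl_io {β : MZ n} (h : 0 < β.det) (γ : GZ n) : scl ((γ : MZ n) * β) = io n γ * scl β := by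
  rw [scl_mul (by rw [γ.2]; exact one_pos) h, scl_coe]

theorem det_io (β : MZ n) (γ : GZ n) : ((γ : MZ n) * β).det = β.det := by
  rw [Matrix.det_mul, γ.2, one_mul]

/-- the set in the definition of `av` is finite -/
theorem av_finite {β : MZ n} (h : β.det ≠ 0) (R : ℝ) :
    {w : Fin n → ℤ | ∀ i, |(((β.adjugate *ᵥ w) i : ℤ) : ℝ)| ≤ R}.Finite := by
  have hinj : Function.Injective fun w : Fin n → ℤ => β.adjugate *ᵥ w := by
    intro w w' hw
    have h1 : β *ᵥ (β.adjugate *ᵥ w) = β *ᵥ (β.adjugate *ᵥ w') := congrArg _ hw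
    rw [Matrix.mulVec_mulVec, Matrix.mulVec_mulVec, Matrix.mul_adjugate, Matrix.smul_mulVec, Matrix.one_mulVec,
      Matrix.smul_mulVec, Matrix.one_mulVec] at h1
    funext i
    have h2 := congrFun h1 i
    rw [Pi.smul_apply, Pi.smul_apply, smul_eq_mul, smul_eq_mul] at h2
    exact mul_left_cancel₀ h h2
  refine Set.Finite.of_finite_image (f := fun w : Fin n → ℤ => β.adjugate *ᵥ w) ?_ hinj.injOn
  refine (Set.Finite.pi' fun _ : Fin n => Set.finite_Icc (-⌊R⌋) ⌊R⌋).subset ?_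
  rintro _ ⟨w, hw, rfl⟩ i
  have h1 := hw i
  rw [← Int.cast_abs, ← Int.le_floor, abs_le] at h1
  exact h1

/-- the entries of `adj(β) β''` -/
theorem adj_bound (hn : 1 ≤ n) {β β' : MZ n} (hβ : 0 < β.det) (hβ' : 0 < β'.det) (h2 : β'.det ≤ 2 * β.det) {K : ℝ}
    (hK : ∀ i j, |((scl β)⁻¹ * scl β') i j| ≤ K) (i j : Fin n) :
    |(((adjugate β * β') i j : ℤ) : ℝ)| ≤ 2 * (β.det : ℝ) * K := by
  set y : GR n := (scl β)⁻¹ * scl β' with hy
  have hD : (0 : ℝ) < (β.det : ℝ) := by exact_mod_cast hβ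
  have hD' : (0 : ℝ) < (β'.det : ℝ) := by exact_mod_cast hβ'
  have hn' : (1 : ℝ) ≤ n := by exact_mod_cast hn
  set t : ℝ := ((β.det : ℤ) : ℝ) ^ (-(1 / (n : ℝ))) with ht
  set s : ℝ := ((β'.det : ℤ) : ℝ) ^ (-(1 / (n : ℝ))) with hs
  have ht0 : 0 < t := Real.rpow_pos_of_pos hD _
  have hs0 : 0 < s := Real.rpow_pos_of_pos hD' _
  have hts : t ≤ 2 * s := by
    have e1 : (2 * (β.det : ℝ)) ^ (-(1 / (n : ℝ))) ≤ s := by
      refine Real.rpow_le_rpow_of_nonpos hD' ?_ ?_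
      · exact_mod_cast h2
      · have : 0 ≤ 1 / (n : ℝ) := by positivity
        linarith
    rw [Real.mul_rpow (by norm_num) hD.le] at e1
    have e2 : (2 : ℝ) ^ (-1 : ℝ) ≤ 2 ^ (-(1 / (n : ℝ))) := by
      refine Real.rpow_le_rpow_of_exponent_le (by norm_num) ?_
      have : 1 / (n : ℝ) ≤ 1 := by
        rw [div_le_one (by linarith)]
        exact hn'
      linarith
    rw [Real.rpow_neg_one] at e2
    have e3 : (2 : ℝ)⁻¹ * t ≤ 2 ^ (-(1 / (n : ℝ))) * t := mul_le_mul_of_nonneg_right e2 ht0.le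
    linarith
  have h1 : scl β * y = scl β' := by rw [hy, mul_inv_cancel_left]
  have h3 : (scl β).1 * y.1 = (scl β').1 := congrArg Subtype.val h1
  rw [scl_val hβ, scl_val hβ', Matrix.smul_mul] at h3
  have h4 : s • ((adjugate β * β').map (Int.cast : ℤ → ℝ)) = (t * (β.det : ℝ)) • y.1 := by
    rw [map_mulM, ← Matrix.mul_smul, ← h3, Matrix.mul_smul, ← Matrix.mul_assoc, map_adj, Matrix.smul_mul,
      Matrix.one_mul, smul_smul]
  have h5 : s * (((adjugate β * β') i j : ℤ) : ℝ) = t * (β.det : ℝ) * y i j := congrFun (congrFun h4 i) j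
  have h6 : s * |(((adjugate β * β') i j : ℤ) : ℝ)| ≤ s * (2 * (β.det : ℝ) * K) := by
    have h7 : |s * (((adjugate β * β') i j : ℤ) : ℝ)| = t * (β.det : ℝ) * |y i j| := by
      rw [h5, abs_mul, abs_of_pos (mul_pos ht0 hD)]
    rw [abs_mul, abs_of_pos hs0] at h7
    rw [h7]
    have hK0 : 0 ≤ K := (abs_nonneg _).trans (hK i j)
    calc t * (β.det : ℝ) * |y i j| ≤ (2 * s) * (β.det : ℝ) * K :=
          mul_le_mul (mul_le_mul_of_nonneg_right hts hD.le) (hK i j) (abs_nonneg _) (by positivity)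
      _ = _ := by ring
  exact le_of_mul_le_mul_left h6 hs0

theorem smul_bot {c : XX (⊥ : Subgroup (GN n N))} {a b : GN n N} (h : a • c = b • c) : a = b := by
  obtain ⟨g, rfl⟩ := QuotientGroup.mk_surjective c
  have h1 : (QuotientGroup.mk (a * g) : XX (⊥ : Subgroup (GN n N))) = QuotientGroup.mk (b * g) := h
  rw [QuotientGroup.eq, Subgroup.mem_bot, inv_mul_eq_one] at h1
  exact mul_right_cancel h1

theorem t_CNT (hiw : S_iw) (hent : S_ent) (hS : S_sym) : S_cnt := by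
  classical
  intro n hn M
  obtain ⟨C₁, hC₁, hCx⟩ := hent n M
  obtain ⟨M', hM'⟩ := hS n M
  refine ⟨2 * C₁ ^ 2 + 1, by nlinarith, ?_⟩
  intro N _ Y x hY hx c T hT hdet hne β hβ
  have hN : (0 : ℝ) < N := by exact_mod_cast Nat.pos_of_ne_zero (NeZero.ne N)
  have hac : ∀ i, 0 < ac x i := (hiw n).1 x
  have hYn : 1 ≤ Y ^ n := one_le_pow₀ hY
  have hD : (0 : ℝ) < (β.det : ℝ) := by exact_mod_cast (hT β hβ).1
  -- the ratios
  have hrat : ∀ i j, ac x i / ac x j ≤ C₁ * Y ^ n := by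
    intro i j
    rw [div_le_iff₀ (hac j)]
    rcases le_total i j with hij | hij
    · refine ((hCx x hx.1).1 j i hij).trans (mul_le_mul_of_nonneg_right ?_ (hac j).le)
      nlinarith
    · have h3 := ratio_le hY hx.2 (i - j : ℕ) j i (by
        have : (j : ℕ) ≤ i := hij
        omega)
      refine h3.trans (mul_le_mul_of_nonneg_right ?_ (hac j).le)
      have h4 : Y ^ ((i : ℕ) - j) ≤ Y ^ n := pow_le_pow_right₀ hY (by
        have := i.2
        omega)
      nlinarith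
  have key : ∀ p : (Σ β' : T, pr M x c β (β' : MZ n)), ∃ W : MZ n,
      ((p.2 : GZ n) : MZ n) * (p.1 : MZ n) = β + (N : ℤ) • W ∧
      ∀ j i, |(((β.adjugate *ᵥ (fun k => W k j)) i : ℤ) : ℝ)| ≤ (β.det : ℝ) * ((2 * C₁ ^ 2 + 1) * Y ^ n / N) := by
    rintro ⟨⟨β', hβ'⟩, ⟨γ, hγ1, hγ2⟩⟩
    dsimp only
    have hdβ' := hT β' hβ'
    have hd2 : ((γ : MZ n) * β').det = β'.det := det_io β' γ
    have hu : IsUnit ((((γ : MZ n) * β').det : ℤ) : ZMod N) := by rw [hd2]; exact hdβ'.2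
    have h1 : β.map (Int.cast : ℤ → ZMod N) = ((γ : MZ n) * β').map (Int.cast : ℤ → ZMod N) := by
      rw [← rdM_val (hT β hβ).2, ← rdM_val hu, smul_bot hγ1]
    have h2 : ∀ i j, ∃ w : ℤ, ((γ : MZ n) * β') i j = β i j + N * w := by
      intro i j
      have h3 : ((β i j : ℤ) : ZMod N) = ((((γ : MZ n) * β') i j : ℤ) : ZMod N) := congrFun (congrFun h1 i) j
      rw [ZMod.intCast_eq_intCast_iff_dvd_sub] at h3
      obtain ⟨w, hw⟩ := h3
      exact ⟨w, by linarith⟩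
    choose W hW using h2
    have hWe : (γ : MZ n) * β' = β + (N : ℤ) • (Matrix.of W : MZ n) := by
      ext i j
      rw [hW i j]
      simp [Matrix.add_apply]
    refine ⟨Matrix.of W, hWe, fun j i => ?_⟩
    have h4 : ∀ i j, |((scl β)⁻¹ * scl ((γ : MZ n) * β')) i j| ≤ C₁ * (C₁ * Y ^ n) := by
      intro i j
      have h3 := (hCx x hx.1).2 _ hγ2 i j
      rw [show x * (x⁻¹ * (scl β)⁻¹ * scl ((γ : MZ n) * β') * x) * x⁻¹ = (scl β)⁻¹ * scl ((γ : MZ n) * β') by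
        group] at h3
      exact h3.trans (mul_le_mul_of_nonneg_left (hrat i j) (by linarith))
    have h5 := adj_bound hn (hT β hβ).1 (by rw [hd2]; exact hdβ'.1) (by rw [hd2]; exact hdet β hβ β' hβ') h4 i j
    have h6 : (N : ℝ) * (((β.adjugate *ᵥ (fun k => (Matrix.of W : MZ n) k j)) i : ℤ) : ℝ) =
        (((adjugate β * ((γ : MZ n) * β')) i j : ℤ) : ℝ) - (((β.det • (1 : MZ n)) i j : ℤ) : ℝ) := by
      rw [← Int.cast_sub, hWe, Matrix.mul_add, Matrix.adjugate_mul, Matrix.add_apply, add_sub_cancel_left,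
        Matrix.mul_smul, Matrix.smul_apply]
      simp only [smul_eq_mul]
      push_cast
      rfl
    have h7 : |(((β.det • (1 : MZ n)) i j : ℤ) : ℝ)| ≤ (β.det : ℝ) := by
      rw [Matrix.smul_apply, Matrix.one_apply]
      split_ifs
      · simp [abs_of_pos hD]
      · simp [hD.le]
    have h8 : (N : ℝ) * |(((β.adjugate *ᵥ (fun k => (Matrix.of W : MZ n) k j)) i : ℤ) : ℝ)| ≤
        (β.det : ℝ) * ((2 * C₁ ^ 2 + 1) * Y ^ n) := by
      have h10 : ∀ z : ℝ, (N : ℝ) * |z| = |(N : ℝ) * z| := fun z => by rw [abs_mul, abs_of_pos hN]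
      rw [h10, h6]
      refine (abs_sub _ _).trans ?_
      have h9 : (β.det : ℝ) ≤ (β.det : ℝ) * Y ^ n := le_mul_of_one_le_right hD.le hYn
      calc |(((adjugate β * ((γ : MZ n) * β')) i j : ℤ) : ℝ)| + |(((β.det • (1 : MZ n)) i j : ℤ) : ℝ)|
          ≤ 2 * (β.det : ℝ) * (C₁ * (C₁ * Y ^ n)) + (β.det : ℝ) * Y ^ n := add_le_add h5 (h7.trans h9)
        _ = _ := by ring
    rw [← mul_div_assoc, le_div_iff₀ hN, mul_comm]
    exact h8
  choose W hW1 hW2 using key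
  have hfin : ∀ β' : T, Finite (pr M x c β (β' : MZ n)) := fun β' =>
    (hM' N ⊥ x c β β' (hT β hβ).1 (hT β hβ).2 (hT β' β'.2).1 (hT β' β'.2).2).1
  have hfin2 : Finite {w : Fin n → ℤ // ∀ i, |(((β.adjugate *ᵥ w) i : ℤ) : ℝ)| ≤
      (β.det : ℝ) * ((2 * C₁ ^ 2 + 1) * Y ^ n / N)} := av_finite (hT β hβ).1.ne' _
  have hinj : Function.Injective (fun (p : Σ β' : T, pr M x c β (β' : MZ n)) (j : Fin n) =>
      (⟨fun k => W p k j, hW2 p j⟩ : {w : Fin n → ℤ // ∀ i, |(((β.adjugate *ᵥ w) i : ℤ) : ℝ)| ≤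
        (β.det : ℝ) * ((2 * C₁ ^ 2 + 1) * Y ^ n / N)})) := by
    intro p q hpq
    have hWW : W p = W q := by
      ext i j
      exact congrFun (congrArg Subtype.val (congrFun hpq j)) i
    have h1 : ((p.2 : GZ n) : MZ n) * (p.1 : MZ n) = ((q.2 : GZ n) : MZ n) * (q.1 : MZ n) := by
      rw [hW1 p, hW1 q, hWW]
    obtain ⟨⟨b, hb⟩, ⟨γ, hγ⟩⟩ := p
    obtain ⟨⟨b', hb'⟩, ⟨γ', hγ'⟩⟩ := q
    dsimp only at h1
    have h2 : b = ((γ⁻¹ * γ' : GZ n) : MZ n) * b' := by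
      rw [Matrix.SpecialLinearGroup.coe_mul, Matrix.mul_assoc, ← h1, ← Matrix.mul_assoc,
        ← Matrix.SpecialLinearGroup.coe_mul, inv_mul_cancel, Matrix.SpecialLinearGroup.coe_one, Matrix.one_mul]
    have h3 : b = b' := hne b hb b' hb' _ h2
    subst h3
    have h4 : γ = γ' := by
      apply Subtype.ext
      have h5 : ((γ : MZ n) * b) * b.adjugate = ((γ' : MZ n) * b) * b.adjugate := by rw [h1]
      rw [Matrix.mul_assoc, Matrix.mul_assoc, Matrix.mul_adjugate, Matrix.mul_smul, Matrix.mul_smul, Matrix.mul_one,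
        Matrix.mul_one] at h5
      ext i j
      have h6 := congrFun (congrFun h5 i) j
      rw [Matrix.smul_apply, Matrix.smul_apply, smul_eq_mul, smul_eq_mul] at h6
      exact mul_left_cancel₀ (hT b hb).1.ne' h6
    subst h4
    rfl
  have hcard := Nat.card_le_card_of_injective _ hinj
  rw [Nat.card_sigma, Nat.card_fun, Nat.card_eq_fintype_card (α := Fin n), Fintype.card_fin] at hcard
  have h1 : ∑ β' ∈ T, (Nat.card (pr M x c β β') : ℝ) = ((∑ β' : T, Nat.card (pr M x c β (β' : MZ n)) : ℕ) : ℝ) := by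
    rw [Nat.cast_sum, Finset.sum_coe_sort T fun β' => (Nat.card (pr M x c β β') : ℝ)]
  rw [h1]
  calc ((∑ β' : T, Nat.card (pr M x c β (β' : MZ n)) : ℕ) : ℝ)
      ≤ (((av β ((2 * C₁ ^ 2 + 1) * Y ^ n / N)) ^ n : ℕ) : ℝ) := Nat.cast_le.2 hcard
    _ = _ := by push_cast; rfl

end Pool.Agent.T2h79.LG.CNT
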