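import Pool.Agent.T2h79.LG.Stm2
import Pool.Agent.T2h79.LG.T_CNT

/-!
# Project LG, task CN1: the counts at the points of bounded height, at level `K_1(N)`
-/

set_option autoImplicit false

open MeasureTheory Matrix
open scoped MatrixGroups ENNReal Topology ComplexConjugate

noncomputable section

namespace Pool.Agent.T2h79.LG.CN1

open Pool.Agent.T2h77.N
open Pool.Agent.T2h79.LG.CNT (det_io adj_bound av_finite)

variable {n N : ℕ}

/-- the set in the definition of `av1` is finite -/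
theorem av1_finite [NeZero N] {β : MZ n} (h : β.det ≠ 0) (R : ℝ) :
    Finite {p : MZ n × (Fin n → ZMod N) // (∀ i j, |(((β.adjugate * p.1) i j : ℤ) : ℝ)| ≤ R) ∧
      Um p.2 ∧ p.1.map (Int.cast : ℤ → ZMod N) *ᵥ p.2 = 0} := by
  have hf : Finite {w : Fin n → ℤ // ∀ i, |(((β.adjugate *ᵥ w) i : ℤ) : ℝ)| ≤ R} := av_finite h R
  refine Finite.of_injective (fun p => ((fun j : Fin n =>
    (⟨fun k => p.1.1 k j, fun i => p.2.1 i j⟩ :
      {w : Fin n → ℤ // ∀ i, |(((β.adjugate *ᵥ w) i : ℤ) : ℝ)| ≤ R})), p.1.2)) ?_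
  rintro ⟨⟨W, v⟩, hW⟩ ⟨⟨W', v'⟩, hW'⟩ hpq
  have h1 : v = v' := congrArg Prod.snd hpq
  have h2 : W = W' := by
    ext i j
    exact congrFun (congrArg Subtype.val (congrFun (congrArg Prod.fst hpq) j)) i
  subst h1
  subst h2
  rfl

theorem t_CN1 (hiw : S_iw) (hent : S_ent) (hH : S_hon) : S_cn1 := by
  classical
  intro n hn2 M
  have hn : 1 ≤ n := by omega
  obtain ⟨C₁, hC₁, hCx⟩ := hent n M
  refine ⟨2 * C₁ ^ 2 + 1, by nlinarith, ?_⟩
  intro N _ Y x hY hx T hT hdet hne β hβ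
  obtain ⟨-, -, -, φ, hφi, hφu, hφe⟩ := hH n N hn2
  have hac : ∀ i, 0 < ac x i := (hiw n).1 x
  have hYn : 1 ≤ Y ^ n := one_le_pow₀ hY
  have hD : (0 : ℝ) < (β.det : ℝ) := by exact_mod_cast (hT β hβ).1
  -- the ratios
  have hrat : ∀ i j, ac x i / ac x j ≤ C₁ * Y ^ n := by
    intro i j
    rw [div_le_iff₀ (hac j)]
    rcases le_total i j with hij | hij
    · refine ((hCx x hx.1).1 j i hij).trans (mul_le_mul_of_nonneg_right ?_ (hac j).le)
      nlinarith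
    · have h3 := ratio_le hY hx.2 (i - j : ℕ) j i (by
        have : (j : ℕ) ≤ i := hij
        omega)
      refine h3.trans (mul_le_mul_of_nonneg_right ?_ (hac j).le)
      have h4 : Y ^ ((i : ℕ) - j) ≤ Y ^ n := pow_le_pow_right₀ hY (by
        have := i.2
        omega)
      nlinarith
  have key : ∀ p : (Σ β' : T, Σ c : XX (H1 n N), pr M x c β (β' : MZ n)),
      (∀ i j, |(((β.adjugate * (((p.2.2 : GZ n) : MZ n) * (p.1 : MZ n) - β)) i j : ℤ) : ℝ)| ≤
        (β.det : ℝ) * ((2 * C₁ ^ 2 + 1) * Y ^ n)) ∧ Um (φ p.2.1) ∧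
      (((p.2.2 : GZ n) : MZ n) * (p.1 : MZ n) - β).map (Int.cast : ℤ → ZMod N) *ᵥ φ p.2.1 = 0 := by
    rintro ⟨⟨β', hβ'⟩, c, ⟨γ, hγ1, hγ2⟩⟩
    dsimp only
    have hdβ' := hT β' hβ'
    have hd2 : ((γ : MZ n) * β').det = β'.det := det_io β' γ
    have hu : IsUnit ((((γ : MZ n) * β').det : ℤ) : ZMod N) := by rw [hd2]; exact hdβ'.2
    refine ⟨fun i j => ?_, hφu c, ?_⟩
    · have h4 : ∀ i j, |((scl β)⁻¹ * scl ((γ : MZ n) * β')) i j| ≤ C₁ * (C₁ * Y ^ n) := by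
        intro i j
        have h3 := (hCx x hx.1).2 _ hγ2 i j
        rw [show x * (x⁻¹ * (scl β)⁻¹ * scl ((γ : MZ n) * β') * x) * x⁻¹ =
          (scl β)⁻¹ * scl ((γ : MZ n) * β') by group] at h3
        exact h3.trans (mul_le_mul_of_nonneg_left (hrat i j) (by linarith))
      have h5 := adj_bound hn (hT β hβ).1 (by rw [hd2]; exact hdβ'.1) (by rw [hd2]; exact hdet β hβ β' hβ') h4 i j
      have h6 : (((β.adjugate * ((γ : MZ n) * β' - β)) i j : ℤ) : ℝ) =
          (((adjugate β * ((γ : MZ n) * β')) i j : ℤ) : ℝ) - (((β.det • (1 : MZ n)) i j : ℤ) : ℝ) := by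
        rw [← Int.cast_sub, Matrix.mul_sub, Matrix.adjugate_mul, Matrix.sub_apply]
      have h7 : |(((β.det • (1 : MZ n)) i j : ℤ) : ℝ)| ≤ (β.det : ℝ) := by
        rw [Matrix.smul_apply, Matrix.one_apply]
        split_ifs
        · simp [abs_of_pos hD]
        · simp [hD.le]
      rw [h6]
      refine (abs_sub _ _).trans ?_
      have h9 : (β.det : ℝ) ≤ (β.det : ℝ) * Y ^ n := le_mul_of_one_le_right hD.le hYn
      calc |(((adjugate β * ((γ : MZ n) * β')) i j : ℤ) : ℝ)| + |(((β.det • (1 : MZ n)) i j : ℤ) : ℝ)|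
          ≤ 2 * (β.det : ℝ) * (C₁ * (C₁ * Y ^ n)) + (β.det : ℝ) * Y ^ n := add_le_add h5 (h7.trans h9)
        _ = _ := by ring
    · have h1 : ((rdM N β : GN n N) : Matrix (Fin n) (Fin n) (ZMod N)) *ᵥ φ c =
          ((rdM N ((γ : MZ n) * β') : GN n N) : Matrix (Fin n) (Fin n) (ZMod N)) *ᵥ φ c := by
        rw [← hφe, ← hφe, hγ1]
      rw [rdM_val (hT β hβ).2, rdM_val hu] at h1
      have h2 : ((γ : MZ n) * β' - β).map (Int.cast : ℤ → ZMod N) =
          ((γ : MZ n) * β').map (Int.cast : ℤ → ZMod N) - β.map (Int.cast : ℤ → ZMod N) :=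
        Matrix.map_sub _ (by intro a b; exact Int.cast_sub a b) _ _
      rw [h2, Matrix.sub_mulVec, h1, sub_self]
  have hfin2 := av1_finite (N := N) (hT β hβ).1.ne' ((β.det : ℝ) * ((2 * C₁ ^ 2 + 1) * Y ^ n))
  have hinj : Function.Injective (fun p : (Σ β' : T, Σ c : XX (H1 n N), pr M x c β (β' : MZ n)) =>
      (⟨(((p.2.2 : GZ n) : MZ n) * (p.1 : MZ n) - β, φ p.2.1), key p⟩ :
        {p : MZ n × (Fin n → ZMod N) // (∀ i j, |(((β.adjugate * p.1) i j : ℤ) : ℝ)| ≤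
          (β.det : ℝ) * ((2 * C₁ ^ 2 + 1) * Y ^ n)) ∧
          Um p.2 ∧ p.1.map (Int.cast : ℤ → ZMod N) *ᵥ p.2 = 0})) := by
    intro p q hpq
    have hp1 := congrArg (fun z => z.1.1) hpq
    have hp2 := congrArg (fun z => z.1.2) hpq
    dsimp only at hp1 hp2
    have h1 : ((p.2.2 : GZ n) : MZ n) * (p.1 : MZ n) = ((q.2.2 : GZ n) : MZ n) * (q.1 : MZ n) :=
      sub_left_injective hp1
    have h0 : p.2.1 = q.2.1 := hφi hp2
    obtain ⟨⟨b, hb⟩, c, ⟨γ, hγ⟩⟩ := p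
    obtain ⟨⟨b', hb'⟩, c', ⟨γ', hγ'⟩⟩ := q
    dsimp only at h0 h1
    subst h0
    have h2 : b = ((γ⁻¹ * γ' : GZ n) : MZ n) * b' := by
      rw [Matrix.SpecialLinearGroup.coe_mul, Matrix.mul_assoc, ← h1, ← Matrix.mul_assoc,
        ← Matrix.SpecialLinearGroup.coe_mul, inv_mul_cancel, Matrix.SpecialLinearGroup.coe_one, Matrix.one_mul]
    have h3 : b = b' := hne b hb b' hb' _ h2
    subst h3
    have h4 : γ = γ' := by
      apply Subtype.ext
      have h5 : ((γ : MZ n) * b) * b.adjugate = ((γ' : MZ n) * b) * b.adjugate := by rw [h1]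
      rw [Matrix.mul_assoc, Matrix.mul_assoc, Matrix.mul_adjugate, Matrix.mul_smul, Matrix.mul_smul, Matrix.mul_one,
        Matrix.mul_one] at h5
      ext i j
      have h6 := congrFun (congrFun h5 i) j
      rw [Matrix.smul_apply, Matrix.smul_apply, smul_eq_mul, smul_eq_mul] at h6
      exact mul_left_cancel₀ (hT b hb).1.ne' h6
    subst h4
    rfl
  have hfinS : Finite (Σ β' : T, Σ c : XX (H1 n N), pr M x c β (β' : MZ n)) := Finite.of_injective _ hinj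
  have hfinC : ∀ β' : T, Finite (Σ c : XX (H1 n N), pr M x c β (β' : MZ n)) := fun β' =>
    Finite.of_injective (fun z => (⟨β', z⟩ : Σ β' : T, Σ c : XX (H1 n N), pr M x c β (β' : MZ n)))
      fun _ _ h => eq_of_heq (Sigma.mk.inj_iff.1 h).2
  have hfinP : ∀ (β' : T) (c : XX (H1 n N)), Finite (pr M x c β (β' : MZ n)) := fun β' c =>
    Finite.of_injective (fun z => (⟨c, z⟩ : Σ c : XX (H1 n N), pr M x c β (β' : MZ n)))
      fun _ _ h => eq_of_heq (Sigma.mk.inj_iff.1 h).2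
  let _ : Fintype (XX (H1 n N)) := Fintype.ofFinite _
  have hcard := Nat.card_le_card_of_injective _ hinj
  rw [Nat.card_sigma] at hcard
  have h1 : ∑ β' ∈ T, ∑' c : XX (H1 n N), (Nat.card (pr M x c β β') : ℝ) =
      ((∑ β' : T, Nat.card (Σ c : XX (H1 n N), pr M x c β (β' : MZ n)) : ℕ) : ℝ) := by
    rw [Nat.cast_sum, ← Finset.sum_coe_sort T fun β' => ∑' c : XX (H1 n N), (Nat.card (pr M x c β β') : ℝ)]
    refine Finset.sum_congr rfl fun β' _ => ?_
    rw [tsum_fintype, Nat.card_sigma, Nat.cast_sum]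
  rw [h1]
  exact Nat.cast_le.2 hcard

end Pool.Agent.T2h79.LG.CN1
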