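import Pool.Agent.T2h79.LG.Stm
import Pool.Agent.H373R2.T4.DivB

/-! Project LG, task AVG: the average over the lattices. -/

set_option autoImplicit false

open Matrix
open scoped MatrixGroups

noncomputable section

namespace Pool.Agent.T2h79.LG.AVG

open Pool.Agent.T2h77.N Pool.Agent.T2h79.LG

/-- dyadic size -/
theorem exists_dy {s z : ℝ} (hz : 0 < z) (hzs : z ≤ s) :
    ∃ l : ℕ, z ≤ s / 2 ^ l ∧ s / 2 ^ l < 2 * z := by
  obtain ⟨l, h1, h2⟩ := exists_nat_pow_near ((one_le_div hz).2 hzs) (one_lt_two : (1 : ℝ) < 2)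
  refine ⟨l, ?_, ?_⟩
  · rw [le_div_iff₀ (by positivity)]
    rw [le_div_iff₀ hz] at h1
    linarith [mul_comm z ((2 : ℝ) ^ l)]
  · rw [div_lt_iff₀ (by positivity)]
    rw [div_lt_iff₀ hz] at h2
    calc s < 2 ^ (l + 1) * z := h2
      _ = 2 * z * 2 ^ l := by ring

/-- the entries of `q` have denominators dividing `m` -/
theorem z_ge {n ρ : ℕ} (q : Matrix (Fin n) (Fin ρ) ℚ) (hq : LinearIndependent ℚ fun j => fun i => q i j)
    (m : ℕ) (hm : 0 < m) (hd : (KK q).index ∣ m) (j : Fin ρ) :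
    ∃ i, (1 : ℝ) / m ≤ |((q i j : ℚ) : ℝ)| := by
  have h0 : (fun i => q i j) ≠ 0 := hq.ne_zero j
  obtain ⟨i, hi⟩ := Function.ne_iff.1 h0
  refine ⟨i, ?_⟩
  have hi' : q i j ≠ 0 := hi
  obtain ⟨t, ht⟩ := hd
  have h1 : (KK q).index • (Pi.single j (1 : ℤ) : Fin ρ → ℤ) ∈ KK q := AddSubgroup.nsmul_index_mem _ _
  have h2 : m • (Pi.single j (1 : ℤ) : Fin ρ → ℤ) ∈ KK q := by
    rw [ht, mul_comm, mul_smul]
    exact (KK q).nsmul_mem h1 t
  obtain ⟨z, hz⟩ := h2 i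
  have h3 : ∑ k, q i k * (((m • (Pi.single j (1 : ℤ) : Fin ρ → ℤ)) k : ℤ) : ℚ) = m * q i j := by
    rw [Finset.sum_eq_single j]
    · simp
      ring
    · intro k _ hk
      simp [Pi.single_eq_of_ne hk]
    · intro h
      exact absurd (Finset.mem_univ _) h
  rw [h3] at hz
  have hmQ : (m : ℚ) ≠ 0 := by exact_mod_cast hm.ne'
  have hz0 : z ≠ 0 := by
    rintro rfl
    apply hi'
    have : (m : ℚ) * q i j = 0 := by rw [hz]; simp
    exact (mul_eq_zero.1 this).resolve_left hmQ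
  have h4 : (1 : ℝ) ≤ |(z : ℝ)| := by exact_mod_cast Int.one_le_abs hz0
  have h5 : (m : ℝ) * ((q i j : ℚ) : ℝ) = z := by exact_mod_cast hz
  have hm0 : (0 : ℝ) < m := by exact_mod_cast hm
  rw [div_le_iff₀ hm0, ← abs_of_pos hm0, ← abs_mul, mul_comm, h5]
  exact h4

theorem arith (n ρ : ℕ) (l : Fin ρ → ℕ) (d m : ℕ) (r C1 C2 C3 e : ℝ) (hd : 0 < d) (hdm : d ≤ m)
    (hr : 0 < r) (hmr : (m : ℝ) * r ^ n ≤ 1) (hC1 : 0 < C1) (hC2 : 0 ≤ C2) (hC3 : 0 ≤ C3) :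
    (C1 * ∏ j, ((2 : ℝ) ^ (l j + 1) / C1)) ^ n *
      ((C2 * (d : ℝ) ^ ((ρ : ℝ) - 1 + e) * ((d : ℝ) * ∏ j, (C1 * r / 2 ^ (l j))) ^ n) *
        (C3 * ((m : ℝ) / d) ^ ((n : ℝ) - 1 + e))) ≤
      C1 ^ n * C2 * C3 * 2 ^ (ρ * n) * (m : ℝ) ^ ((n : ℝ) - 1 + e) := by
  have hd0 : (0 : ℝ) < d := by exact_mod_cast hd
  have hm0 : (0 : ℝ) < m := by exact_mod_cast (hd.trans_le hdm)
  have hdm' : (d : ℝ) ≤ m := by exact_mod_cast hdm
  have hprod : (∏ j, ((2 : ℝ) ^ (l j + 1) / C1)) * ∏ j, (C1 * r / 2 ^ (l j)) = (2 * r) ^ ρ := by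
    rw [← Finset.prod_mul_distrib, Finset.prod_congr rfl (g := fun _ => 2 * r)]
    · simp
    · intro j _
      rw [pow_succ]
      field_simp
  have hpow : (d : ℝ) ^ n * (d : ℝ) ^ ((ρ : ℝ) - 1 + e) * ((m : ℝ) / d) ^ ((n : ℝ) - 1 + e) =
      (d : ℝ) ^ ρ * (m : ℝ) ^ ((n : ℝ) - 1 + e) := by
    rw [Real.div_rpow hm0.le hd0.le, ← Real.rpow_natCast (d : ℝ) n, ← Real.rpow_natCast (d : ℝ) ρ,
      ← Real.rpow_add hd0, mul_div_assoc', div_eq_iff (Real.rpow_pos_of_pos hd0 _).ne']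
    have : (d : ℝ) ^ ((n : ℝ) + ((ρ : ℝ) - 1 + e)) = (d : ℝ) ^ (ρ : ℝ) * (d : ℝ) ^ ((n : ℝ) - 1 + e) := by
      rw [← Real.rpow_add hd0]
      congr 1
      ring
    rw [this]
    ring
  have hle : (2 * r) ^ (ρ * n) * (d : ℝ) ^ ρ ≤ 2 ^ (ρ * n) := by
    have h1 : (d : ℝ) * r ^ n ≤ 1 := (mul_le_mul_of_nonneg_right hdm' (by positivity)).trans hmr
    have h2 : ((d : ℝ) * r ^ n) ^ ρ ≤ 1 := pow_le_one₀ (by positivity) h1
    calc (2 * r) ^ (ρ * n) * (d : ℝ) ^ ρ = 2 ^ (ρ * n) * ((d : ℝ) * r ^ n) ^ ρ := by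
          rw [mul_pow, mul_pow, ← pow_mul, mul_comm n ρ]
          ring
      _ ≤ 2 ^ (ρ * n) * 1 := by gcongr
      _ = 2 ^ (ρ * n) := mul_one _
  calc (C1 * ∏ j, ((2 : ℝ) ^ (l j + 1) / C1)) ^ n *
      ((C2 * (d : ℝ) ^ ((ρ : ℝ) - 1 + e) * ((d : ℝ) * ∏ j, (C1 * r / 2 ^ (l j))) ^ n) *
        (C3 * ((m : ℝ) / d) ^ ((n : ℝ) - 1 + e)))
      = C1 ^ n * C2 * C3 * (((∏ j, ((2 : ℝ) ^ (l j + 1) / C1)) * ∏ j, (C1 * r / 2 ^ (l j))) ^ n) *
        ((d : ℝ) ^ n * (d : ℝ) ^ ((ρ : ℝ) - 1 + e) * ((m : ℝ) / d) ^ ((n : ℝ) - 1 + e)) := by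
        rw [mul_pow, mul_pow, mul_pow]
        ring
    _ = C1 ^ n * C2 * C3 * ((2 * r) ^ (ρ * n) * (d : ℝ) ^ ρ) * (m : ℝ) ^ ((n : ℝ) - 1 + e) := by
        rw [hprod, hpow, ← pow_mul]
        ring
    _ ≤ C1 ^ n * C2 * C3 * 2 ^ (ρ * n) * (m : ℝ) ^ ((n : ℝ) - 1 + e) := by
        gcongr

open Classical in
/-- the elements of `R` in a block -/
def TT {n : ℕ} (R : Finset (MZ n)) (s : ℝ) (i : (ρ : ℕ) × (Fin ρ → ℕ)) (d : ℕ) : Finset (MZ n) :=
  R.filter fun β => ∃ q : Matrix (Fin n) (Fin i.1) ℚ, ((LinearIndependent ℚ fun j => fun i' => q i' j) ∧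
    (KK q).index = d ∧ ∀ i' j, |((q i' j : ℚ) : ℝ)| ≤ s / 2 ^ (i.2 j)) ∧ Itg β q

/-- the weight of a block -/
def ww (n : ℕ) (C1 : ℝ) (i : (ρ : ℕ) × (Fin ρ → ℕ)) : ℝ := (C1 * ∏ j, ((2 : ℝ) ^ (i.2 j + 1) / C1)) ^ n

theorem ww_nonneg (n : ℕ) {C1 : ℝ} (h : 0 < C1) (i : (ρ : ℕ) × (Fin ρ → ℕ)) : 0 ≤ ww n C1 i := by
  unfold ww
  have : 0 ≤ ∏ j, ((2 : ℝ) ^ (i.2 j + 1) / C1) := Finset.prod_nonneg fun j _ => by positivity
  positivity

/-- the indices of the blocks -/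
def II (n L : ℕ) : Finset ((ρ : ℕ) × (Fin ρ → ℕ)) :=
  (Finset.range (n + 1)).sigma fun ρ => Fintype.piFinset fun _ : Fin ρ => Finset.range (L + 1)

theorem II_card (n L : ℕ) : (II n L).card ≤ (n + 1) * (L + 1) ^ n := by
  unfold II
  rw [Finset.card_sigma]
  refine (Finset.sum_le_card_nsmul _ _ ((L + 1) ^ n) fun ρ hρ => ?_).trans_eq ?_
  · rw [Fintype.card_piFinset]
    simp only [Finset.card_range, Finset.prod_const, Finset.card_univ, Fintype.card_fin]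
    exact Nat.pow_le_pow_right (by omega) (by have := Finset.mem_range.1 hρ; omega)
  · rw [Finset.card_range, smul_eq_mul]

/-- every `β` is in some block -/
theorem exists_block {n : ℕ} {C1 : ℝ} (hC1 : 1 ≤ C1)
    (hsho : ∀ (β : MZ n) (r : ℝ), 0 < β.det → 0 < r →
      ∃ (ρ : ℕ) (q : Matrix (Fin n) (Fin ρ) ℚ) (z : Fin ρ → ℝ), ρ ≤ n ∧
      (LinearIndependent ℚ fun j => fun i => q i j) ∧ Itg β q ∧
      (∀ j, 0 < z j ∧ z j ≤ C1 * r ∧ (∀ i, |((q i j : ℚ) : ℝ)| ≤ z j) ∧ ∃ i, |((q i j : ℚ) : ℝ)| = z j) ∧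
      (av β r : ℝ) ≤ C1 * ∏ j, (r / z j))
    {c1 : ℕ} (hc1 : C1 ≤ c1) {m : ℕ} (hm : 0 < m) {R : Finset (MZ n)}
    (hR : ∀ β ∈ R, β.det = (m : ℤ))
    (hrnu : ∀ (ρ : ℕ) (q : Matrix (Fin n) (Fin ρ) ℚ), ∀ β ∈ R, Itg β q → (KK q).index ∣ m)
    {r : ℝ} (hr : 0 < r) (hr1 : r ≤ 1) (β : MZ n) (hβ : β ∈ R) :
    ∃ i ∈ II n (Nat.log 2 (c1 * m)), ∃ d ∈ m.divisors, β ∈ TT R (C1 * r) i d ∧
      (av β r : ℝ) ^ n ≤ ww n C1 i := by
  classical
  have hC10 : 0 < C1 := by linarith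
  have hm0 : (0 : ℝ) < m := by exact_mod_cast hm
  obtain ⟨ρ, q, z, hρ, hli, hit, hz, hav⟩ := hsho β r (by rw [hR β hβ]; exact_mod_cast hm) hr
  have hdm := hrnu ρ q β hβ hit
  choose l hl1 hl2 using fun j => exists_dy (hz j).1 (hz j).2.1
  refine ⟨⟨ρ, l⟩, ?_, (KK q).index, ?_, ?_, ?_⟩
  · unfold II
    rw [Finset.mem_sigma]
    refine ⟨Finset.mem_range.2 (show ρ < n + 1 by omega), ?_⟩
    rw [Fintype.mem_piFinset]
    intro j
    rw [Finset.mem_range]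
    have hz1 : (1 : ℝ) / m ≤ z j := by
      obtain ⟨i, hi⟩ := z_ge q hli m hm hdm j
      exact hi.trans ((hz j).2.2.1 i)
    have h2 : (2 : ℝ) ^ (l j) ≤ c1 * m := by
      have h3 := hz1.trans (hl1 j)
      rw [div_le_div_iff₀ hm0 (by positivity), one_mul] at h3
      calc (2 : ℝ) ^ (l j) ≤ C1 * r * m := h3
        _ ≤ C1 * 1 * m := by gcongr
        _ ≤ c1 * m := by rw [mul_one]; gcongr
    have h4 : 2 ^ (l j) ≤ c1 * m := by exact_mod_cast h2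
    have h5 : l j ≤ Nat.log 2 (c1 * m) := Nat.le_log_of_pow_le (by norm_num) h4
    show l j < _
    omega
  · rw [Nat.mem_divisors]
    exact ⟨hdm, hm.ne'⟩
  · unfold TT
    rw [Finset.mem_filter]
    exact ⟨hβ, q, ⟨hli, rfl, fun i' j => ((hz j).2.2.1 i').trans (hl1 j)⟩, hit⟩
  · unfold ww
    refine pow_le_pow_left₀ (Nat.cast_nonneg _) (hav.trans ?_) n
    refine mul_le_mul_of_nonneg_left ?_ hC10.le
    refine Finset.prod_le_prod (fun j _ => div_nonneg hr.le (hz j).1.le) fun j _ => ?_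
    show r / z j ≤ 2 ^ (l j + 1) / C1
    have h1 := hl2 j
    rw [div_lt_iff₀ (by positivity)] at h1
    rw [div_le_div_iff₀ (hz j).1 hC10, pow_succ]
    nlinarith

set_option maxHeartbeats 1000000 in
theorem t_AVG (hsho : S_sho) (hnqu : S_nqu) (hrnu : S_rnu) (hrepg : S_repG) (hrepu : S_repU) : S_avg := by
  classical
  intro n hn ε hε
  have hn0 : (0 : ℝ) < n := by exact_mod_cast hn
  set e : ℝ := ε / 4 with he
  have he0 : 0 < e := by positivity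
  obtain ⟨C1, hC1, hsho⟩ := hsho n hn
  have hnqu' : ∀ ρ : ℕ, ∃ C : ℝ, 1 ≤ ρ → 1 ≤ C ∧ ∀ (d : ℕ) (s : Fin ρ → ℝ), 0 < d → (∀ j, 0 < s j) →
    ∀ Q : Set (Matrix (Fin n) (Fin ρ) ℚ),
      (∀ q, q ∈ Q ↔ (LinearIndependent ℚ fun j => fun i => q i j) ∧ (KK q).index = d ∧
        ∀ i j, |((q i j : ℚ) : ℝ)| ≤ s j) →
      Q.Finite ∧ ((Q.ncard : ℕ) : ℝ) ≤ C * (d : ℝ) ^ ((ρ : ℝ) - 1 + e) * ((d : ℝ) * ∏ j, s j) ^ n := by
    intro ρ
    by_cases h : 1 ≤ ρ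
    · obtain ⟨C, hC⟩ := hnqu n ρ h e he0
      exact ⟨C, fun _ => hC⟩
    · exact ⟨0, fun h' => absurd h' h⟩
  choose C2 hC2 using hnqu'
  obtain ⟨C3, hC3, hrnu⟩ := hrnu n hn e he0
  obtain ⟨C4, hC4, hrepg⟩ := hrepg n hn e he0
  obtain ⟨C5, hC5, hdiv⟩ := Pool.Agent.H373R2.T4.DivB.div_bound he0
  obtain ⟨C6, hC6, hdiv'⟩ := Pool.Agent.H373R2.T4.DivB.div_bound (div_pos he0 hn0)
  obtain ⟨c1, hc1⟩ := exists_nat_ge C1
  have hC10 : 0 < C1 := by linarith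
  have hc10 : (0 : ℝ) < c1 := hC10.trans_le hc1
  set K2 : ℝ := ∑ ρ ∈ Finset.range (n + 1), |C2 ρ| with hK2
  have hK20 : 0 ≤ K2 := Finset.sum_nonneg fun _ _ => abs_nonneg _
  -- the bound of a block
  set K : ℝ := C1 ^ n * K2 * C3 * 2 ^ (n * n) + C1 ^ n * C4 with hK
  have hK0 : 0 ≤ K := by positivity
  set CC : ℝ := (n + 1) * (C6 ^ n * (c1 : ℝ) ^ e) * C5 * K with hCC
  have hCC0 : 0 ≤ CC := by positivity
  refine ⟨max CC 1, le_max_right _ _, ?_⟩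
  intro m R hm hR r hr hmr
  have hm0 : (0 : ℝ) < m := by exact_mod_cast hm
  have hm1 : (1 : ℝ) ≤ m := by exact_mod_cast hm
  have hr1 : r ≤ 1 := by
    by_contra h
    push Not at h
    have h1 : (1 : ℝ) < r ^ n := one_lt_pow₀ h (by omega)
    nlinarith
  have hs0 : 0 < C1 * r := by positivity
  set L : ℕ := Nat.log 2 (c1 * m) with hL
  set X : ℝ := (m : ℝ) ^ ((n : ℝ) - 1 + e) with hX
  have hX0 : 0 < X := Real.rpow_pos_of_pos hm0 _
  have hRcard : (R.card : ℝ) ≤ C4 * X := by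
    obtain ⟨R', hR', hc⟩ := hrepg m hm
    rw [hrepu n (m : ℤ) R R' hR hR']
    exact hc
  have block : ∀ i ∈ II n L, ∀ d ∈ m.divisors, ((TT R (C1 * r) i d).card : ℝ) * ww n C1 i ≤ K * X := by
    rintro ⟨ρ, l⟩ hi d hd
    have hρn : ρ ≤ n := by
      unfold II at hi
      rw [Finset.mem_sigma] at hi
      have := Finset.mem_range.1 hi.1
      have h' : ρ < n + 1 := this
      omega
    have hdpos : 0 < d := Nat.pos_of_mem_divisors hd
    have hdm : d ≤ m := Nat.divisor_le hd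
    rcases Nat.eq_zero_or_pos ρ with h0 | h0
    · subst h0
      have h1 : ww n C1 ⟨0, l⟩ = C1 ^ n := by
        unfold ww
        simp
      rw [h1]
      have h2 : ((TT R (C1 * r) ⟨0, l⟩ d).card : ℝ) ≤ R.card := by
        exact_mod_cast Finset.card_filter_le _ _
      calc ((TT R (C1 * r) ⟨0, l⟩ d).card : ℝ) * C1 ^ n ≤ (C4 * X) * C1 ^ n := by
            gcongr
            exact h2.trans hRcard
        _ = C1 ^ n * C4 * X := by ring
        _ ≤ K * X := by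
            gcongr
            rw [hK]
            have : 0 ≤ C1 ^ n * K2 * C3 * 2 ^ (n * n) := by positivity
            linarith
    · obtain ⟨hC21, hQ⟩ := hC2 ρ h0
      obtain ⟨hQf, hQc⟩ := hQ d (fun j => C1 * r / 2 ^ (l j)) hdpos (fun j => by positivity)
        {q | (LinearIndependent ℚ fun j => fun i => q i j) ∧ (KK q).index = d ∧
          ∀ i j, |((q i j : ℚ) : ℝ)| ≤ C1 * r / 2 ^ (l j)} (fun q => Iff.rfl)
      set Q : Set (Matrix (Fin n) (Fin ρ) ℚ) :=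
        {q | (LinearIndependent ℚ fun j => fun i => q i j) ∧ (KK q).index = d ∧
          ∀ i j, |((q i j : ℚ) : ℝ)| ≤ C1 * r / 2 ^ (l j)} with hQdef
      have hsub : TT R (C1 * r) ⟨ρ, l⟩ d ⊆ hQf.toFinset.biUnion fun q => R.filter fun β => Itg β q := by
        intro β hβ
        unfold TT at hβ
        rw [Finset.mem_filter] at hβ
        obtain ⟨hβR, q, hq, hit⟩ := hβ
        rw [Finset.mem_biUnion]
        exact ⟨q, hQf.mem_toFinset.2 hq, Finset.mem_filter.2 ⟨hβR, hit⟩⟩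
      set Bd : ℝ := C3 * ((m : ℝ) / d) ^ ((n : ℝ) - 1 + e) with hBd
      have hBd0 : 0 ≤ Bd := by positivity
      have hcard : ((TT R (C1 * r) ⟨ρ, l⟩ d).card : ℝ) ≤ (Q.ncard : ℝ) * Bd := by
        have h1 : ((TT R (C1 * r) ⟨ρ, l⟩ d).card : ℝ) ≤
            ∑ q ∈ hQf.toFinset, ((R.filter fun β => Itg β q).card : ℝ) := by
          exact_mod_cast (Finset.card_le_card hsub).trans Finset.card_biUnion_le
        refine h1.trans ?_
        have h2 : ∀ q ∈ hQf.toFinset, ((R.filter fun β => Itg β q).card : ℝ) ≤ Bd := by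
          intro q hq
          have hq' : q ∈ Q := hQf.mem_toFinset.1 hq
          have h3 := (hrnu m R hm hR ρ q).2
          have h4 : ({β : MZ n | β ∈ R ∧ Itg β q}) = ((R.filter fun β => Itg β q : Finset (MZ n)) : Set (MZ n)) := by
            ext β
            simp
          rw [h4, Set.ncard_coe_finset, hq'.2.1] at h3
          exact h3
        refine (Finset.sum_le_card_nsmul _ _ _ h2).trans_eq ?_
        rw [nsmul_eq_mul, Set.ncard_eq_toFinset_card Q hQf]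
      have hC2K : C2 ρ ≤ K2 := by
        refine (le_abs_self _).trans ?_
        rw [hK2]
        exact Finset.single_le_sum (f := fun ρ => |C2 ρ|) (fun _ _ => abs_nonneg _)
          (Finset.mem_range.2 (by omega))
      have hC20 : 0 ≤ C2 ρ := by linarith
      calc ((TT R (C1 * r) ⟨ρ, l⟩ d).card : ℝ) * ww n C1 ⟨ρ, l⟩
          ≤ ((C2 ρ * (d : ℝ) ^ ((ρ : ℝ) - 1 + e) * ((d : ℝ) * ∏ j, (C1 * r / 2 ^ (l j))) ^ n) * Bd) *
            ww n C1 ⟨ρ, l⟩ := by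
            refine mul_le_mul_of_nonneg_right (hcard.trans ?_) (ww_nonneg n hC10 _)
            exact mul_le_mul_of_nonneg_right hQc hBd0
        _ = (C1 * ∏ j, ((2 : ℝ) ^ (l j + 1) / C1)) ^ n *
            ((C2 ρ * (d : ℝ) ^ ((ρ : ℝ) - 1 + e) * ((d : ℝ) * ∏ j, (C1 * r / 2 ^ (l j))) ^ n) *
            (C3 * ((m : ℝ) / d) ^ ((n : ℝ) - 1 + e))) := by
            unfold ww
            rw [hBd]
            ring
        _ ≤ C1 ^ n * C2 ρ * C3 * 2 ^ (ρ * n) * X :=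
            arith n ρ l d m r C1 (C2 ρ) C3 e hdpos hdm hr hmr hC10 hC20 (by linarith)
        _ ≤ C1 ^ n * K2 * C3 * 2 ^ (n * n) * X := by
            have h2 : (2 : ℝ) ^ (ρ * n) ≤ 2 ^ (n * n) :=
              pow_le_pow_right₀ (by norm_num) (Nat.mul_le_mul_right n hρn)
            gcongr
        _ ≤ K * X := by
            gcongr
            rw [hK]
            have : 0 ≤ C1 ^ n * C4 := by positivity
            linarith
  -- the number of the blocks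
  have hLb : ((L : ℝ) + 1) ^ n ≤ C6 ^ n * (c1 : ℝ) ^ e * (m : ℝ) ^ e := by
    have h1 : (((2 ^ L).divisors.card : ℕ) : ℝ) = (L : ℝ) + 1 := by
      rw [Nat.divisors_prime_pow Nat.prime_two, Finset.card_map, Finset.card_range]
      push_cast
      rfl
    have h2 := hdiv' (2 ^ L) (by positivity)
    rw [h1] at h2
    have h3 : ((2 ^ L : ℕ) : ℝ) ≤ c1 * m := by
      have hc1' : 0 < c1 := by exact_mod_cast hc10
      have : 2 ^ L ≤ c1 * m := Nat.pow_log_le_self 2 (Nat.mul_pos hc1' hm).ne'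
      exact_mod_cast this
    calc ((L : ℝ) + 1) ^ n ≤ (C6 * ((2 ^ L : ℕ) : ℝ) ^ (e / n)) ^ n := by gcongr
      _ ≤ (C6 * ((c1 : ℝ) * m) ^ (e / n)) ^ n := by gcongr
      _ = C6 ^ n * (c1 : ℝ) ^ e * (m : ℝ) ^ e := by
          rw [mul_pow, ← Real.rpow_natCast (((c1 : ℝ) * m) ^ (e / n)) n, ← Real.rpow_mul (by positivity),
            div_mul_cancel₀ _ hn0.ne', Real.mul_rpow hc10.le hm0.le]
          ring
  have hIIc : ((II n L).card : ℝ) ≤ ((n : ℝ) + 1) * (C6 ^ n * (c1 : ℝ) ^ e * (m : ℝ) ^ e) := by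
    have h1 : ((II n L).card : ℝ) ≤ ((n : ℝ) + 1) * ((L : ℝ) + 1) ^ n := by exact_mod_cast II_card n L
    exact h1.trans (mul_le_mul_of_nonneg_left hLb (by positivity))
  have hdc : (m.divisors.card : ℝ) ≤ C5 * (m : ℝ) ^ e := hdiv m hm.ne'
  calc ∑ β ∈ R, (av β r : ℝ) ^ n
      ≤ ∑ β ∈ R, ∑ p ∈ II n L ×ˢ m.divisors, (if β ∈ TT R (C1 * r) p.1 p.2 then ww n C1 p.1 else 0) := by
        refine Finset.sum_le_sum fun β hβ => ?_
        obtain ⟨i, hi, d, hd, hβT, hav⟩ := exists_block hC1 hsho hc1 hm hR.1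
          (fun ρ q => (hrnu m R hm hR ρ q).1) hr hr1 β hβ
        refine hav.trans ?_
        have h1 : ww n C1 i = (if β ∈ TT R (C1 * r) ((i, d) : _ × ℕ).1 ((i, d) : _ × ℕ).2 then
            ww n C1 ((i, d) : _ × ℕ).1 else 0) := by
          rw [if_pos hβT]
        rw [h1]
        refine Finset.single_le_sum (f := fun p : ((ρ : ℕ) × (Fin ρ → ℕ)) × ℕ =>
          if β ∈ TT R (C1 * r) p.1 p.2 then ww n C1 p.1 else 0) (fun p _ => ?_)
          (Finset.mem_product.2 ⟨hi, hd⟩)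
        show 0 ≤ if β ∈ TT R (C1 * r) p.1 p.2 then ww n C1 p.1 else 0
        split_ifs
        · exact ww_nonneg n hC10 _
        · exact le_rfl
    _ = ∑ p ∈ II n L ×ˢ m.divisors, ∑ β ∈ R, (if β ∈ TT R (C1 * r) p.1 p.2 then ww n C1 p.1 else 0) :=
        Finset.sum_comm
    _ ≤ ∑ p ∈ II n L ×ˢ m.divisors, K * X := by
        refine Finset.sum_le_sum fun p hp => ?_
        rw [Finset.mem_product] at hp
        have h1 : ∑ β ∈ R, (if β ∈ TT R (C1 * r) p.1 p.2 then ww n C1 p.1 else 0) =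
            ((TT R (C1 * r) p.1 p.2).card : ℝ) * ww n C1 p.1 := by
          rw [← Finset.sum_filter, Finset.sum_const, nsmul_eq_mul]
          congr 3
          ext β
          rw [Finset.mem_filter]
          constructor
          · exact fun h => h.2
          · exact fun h => ⟨(Finset.mem_filter.1 h).1, h⟩
        rw [h1]
        exact block p.1 hp.1 p.2 hp.2
    _ = ((II n L).card : ℝ) * m.divisors.card * (K * X) := by
        rw [Finset.sum_const, Finset.card_product, nsmul_eq_mul]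
        push_cast
        ring
    _ ≤ (((n : ℝ) + 1) * (C6 ^ n * (c1 : ℝ) ^ e * (m : ℝ) ^ e)) * (C5 * (m : ℝ) ^ e) * (K * X) := by
        gcongr
    _ = CC * ((m : ℝ) ^ e * (m : ℝ) ^ e * X) := by
        rw [hCC]
        ring
    _ = CC * (m : ℝ) ^ ((n : ℝ) - 1 + 3 * e) := by
        rw [hX, ← Real.rpow_add hm0, ← Real.rpow_add hm0]
        congr 2
        ring
    _ ≤ max CC 1 * (m : ℝ) ^ ((n : ℝ) - 1 + ε) := by
        refine mul_le_mul (le_max_left _ _) ?_ (Real.rpow_nonneg hm0.le _) (by positivity)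
        exact Real.rpow_le_rpow_of_exponent_le hm1 (by rw [he]; linarith)

end Pool.Agent.T2h79.LG.AVG
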