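import Pool.Agent.T2h79.LG.Stm2
import Pool.Agent.T2h79.LG.T_AVG

/-! Project LG, task EXQ: the exchange sum. -/

set_option autoImplicit false

open Matrix
open scoped MatrixGroups

noncomputable section

namespace Pool.Agent.T2h79.LG.EXQ

open Pool.Agent.T2h77.N Pool.Agent.T2h79.LG Pool.Agent.T2h79.LG.AVG

/-- the rational matrices of a block -/
def Qs (n ρ : ℕ) (s : ℝ) (d : ℕ) (l : Fin ρ → ℕ) : Set (Matrix (Fin n) (Fin ρ) ℚ) :=
  {q | (LinearIndependent ℚ fun j => fun i => q i j) ∧ (KK q).index = d ∧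
    ∀ i j, |((q i j : ℚ) : ℝ)| ≤ s / 2 ^ (l j)}

open Classical in
/-- the rational matrices of a block, as a finite set -/
def QF (n ρ : ℕ) (s : ℝ) (d : ℕ) (l : Fin ρ → ℕ) : Finset (Matrix (Fin n) (Fin ρ) ℚ) :=
  if h : (Qs n ρ s d l).Finite then h.toFinset else ∅

open Classical in
/-- the pairs of a block -/
def BB {n ρ : ℕ} (R : Finset (MZ n)) (s : ℝ) (i : ℕ × (Fin ρ → ℕ)) :
    Finset (MZ n × Matrix (Fin n) (Fin ρ) ℚ) :=
  (R ×ˢ QF n ρ s i.1 i.2).filter fun p => Itg p.1 p.2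

open Classical in
theorem BB_card {n ρ : ℕ} (R : Finset (MZ n)) (s Bd : ℝ) (i : ℕ × (Fin ρ → ℕ))
    (h : ∀ q ∈ QF n ρ s i.1 i.2, ((R.filter fun β => Itg β q).card : ℝ) ≤ Bd) :
    ((BB R s i).card : ℝ) ≤ ((QF n ρ s i.1 i.2).card : ℝ) * Bd := by
  have hsub : BB R s i ⊆ (QF n ρ s i.1 i.2).biUnion fun q =>
      (R.filter fun β => Itg β q).image fun β => (β, q) := by
    intro p hp
    unfold BB at hp
    rw [Finset.mem_filter, Finset.mem_product] at hp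
    rw [Finset.mem_biUnion]
    refine ⟨p.2, hp.1.2, ?_⟩
    rw [Finset.mem_image]
    exact ⟨p.1, Finset.mem_filter.2 ⟨hp.1.1, hp.2⟩, rfl⟩
  have h1 : (BB R s i).card ≤ ∑ q ∈ QF n ρ s i.1 i.2, (R.filter fun β => Itg β q).card :=
    (Finset.card_le_card hsub).trans (Finset.card_biUnion_le.trans
      (Finset.sum_le_sum fun q _ => Finset.card_image_le))
  have h2 : ((BB R s i).card : ℝ) ≤ ∑ q ∈ QF n ρ s i.1 i.2, ((R.filter fun β => Itg β q).card : ℝ) := by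
    exact_mod_cast h1
  refine h2.trans ((Finset.sum_le_card_nsmul _ _ _ h).trans_eq ?_)
  rw [nsmul_eq_mul]

theorem arith2 (n ρ : ℕ) (l : Fin ρ → ℕ) (d m : ℕ) (r C1 C2 C3 e : ℝ) (hd : 0 < d) (hdm : d ≤ m)
    (hr : 0 < r) (hC1 : 0 < C1) (hC2 : 0 ≤ C2) (hC3 : 0 ≤ C3) :
    (∏ j, ((2 : ℝ) ^ (l j + 1) / C1)) ^ n *
      ((C2 * (d : ℝ) ^ ((ρ : ℝ) - 1 + e) * ((d : ℝ) * ∏ j, (C1 * r / 2 ^ (l j))) ^ n) *
        (C3 * ((m : ℝ) / d) ^ ((n : ℝ) - 1 + e))) ≤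
      C2 * C3 * 2 ^ (ρ * n) * (r ^ (n * ρ) * (m : ℝ) ^ ((n : ℝ) - 1 + ρ + e)) := by
  have hd0 : (0 : ℝ) < d := by exact_mod_cast hd
  have hm0 : (0 : ℝ) < m := by exact_mod_cast (hd.trans_le hdm)
  have hdm' : (d : ℝ) ≤ m := by exact_mod_cast hdm
  have hprod : (∏ j, ((2 : ℝ) ^ (l j + 1) / C1)) * ∏ j, (C1 * r / 2 ^ (l j)) = (2 * r) ^ ρ := by
    rw [← Finset.prod_mul_distrib, Finset.prod_congr rfl (g := fun _ => 2 * r)]
    · simp
    · intro j _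
      rw [pow_succ]
      field_simp
  have hpow : (d : ℝ) ^ n * (d : ℝ) ^ ((ρ : ℝ) - 1 + e) * ((m : ℝ) / d) ^ ((n : ℝ) - 1 + e) =
      (d : ℝ) ^ ρ * (m : ℝ) ^ ((n : ℝ) - 1 + e) := by
    rw [Real.div_rpow hm0.le hd0.le, ← Real.rpow_natCast (d : ℝ) n, ← Real.rpow_natCast (d : ℝ) ρ,
      ← Real.rpow_add hd0, mul_div_assoc', div_eq_iff (Real.rpow_pos_of_pos hd0 _).ne']
    have : (d : ℝ) ^ ((n : ℝ) + ((ρ : ℝ) - 1 + e)) = (d : ℝ) ^ (ρ : ℝ) * (d : ℝ) ^ ((n : ℝ) - 1 + e) := by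
      rw [← Real.rpow_add hd0]
      congr 1
      ring
    rw [this]
    ring
  have hm : (m : ℝ) ^ ρ * (m : ℝ) ^ ((n : ℝ) - 1 + e) = (m : ℝ) ^ ((n : ℝ) - 1 + ρ + e) := by
    rw [← Real.rpow_natCast (m : ℝ) ρ, ← Real.rpow_add hm0]
    congr 1
    ring
  calc (∏ j, ((2 : ℝ) ^ (l j + 1) / C1)) ^ n *
      ((C2 * (d : ℝ) ^ ((ρ : ℝ) - 1 + e) * ((d : ℝ) * ∏ j, (C1 * r / 2 ^ (l j))) ^ n) *
        (C3 * ((m : ℝ) / d) ^ ((n : ℝ) - 1 + e)))
      = C2 * C3 * (((∏ j, ((2 : ℝ) ^ (l j + 1) / C1)) * ∏ j, (C1 * r / 2 ^ (l j))) ^ n) *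
        ((d : ℝ) ^ n * (d : ℝ) ^ ((ρ : ℝ) - 1 + e) * ((m : ℝ) / d) ^ ((n : ℝ) - 1 + e)) := by
        rw [mul_pow, mul_pow]
        ring
    _ = C2 * C3 * ((2 * r) ^ (ρ * n)) * ((d : ℝ) ^ ρ * (m : ℝ) ^ ((n : ℝ) - 1 + e)) := by
        rw [hprod, hpow, ← pow_mul]
    _ ≤ C2 * C3 * ((2 * r) ^ (ρ * n)) * ((m : ℝ) ^ ρ * (m : ℝ) ^ ((n : ℝ) - 1 + e)) := by
        gcongr
    _ = C2 * C3 * 2 ^ (ρ * n) * (r ^ (n * ρ) * (m : ℝ) ^ ((n : ℝ) - 1 + ρ + e)) := by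
        rw [hm, mul_pow, mul_comm n ρ]
        ring

theorem t_EXQ (hnqu : S_nqu) (hrnu : S_rnu) : S_exq := by
  classical
  intro n ρ hn hρ C₀ ε hC₀ hε
  have hρ0 : (0 : ℝ) < ρ := by exact_mod_cast hρ
  set e : ℝ := ε / 4 with he
  have he0 : 0 < e := by positivity
  obtain ⟨C2, hC2, hnqu⟩ := hnqu n ρ hρ e he0
  obtain ⟨C3, hC3, hrnu⟩ := hrnu n hn e he0
  obtain ⟨C5, hC5, hdiv⟩ := Pool.Agent.H373R2.T4.DivB.div_bound he0
  obtain ⟨C6, hC6, hdiv'⟩ := Pool.Agent.H373R2.T4.DivB.div_bound (div_pos he0 hρ0)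
  have hC00 : 0 < C₀ := by linarith
  set K : ℝ := C2 * C3 * 2 ^ (ρ * n) with hK
  have hK0 : 0 ≤ K := by positivity
  set CC : ℝ := C5 * (C6 ^ ρ * C₀ ^ e) * K with hCC
  have hCC0 : 0 ≤ CC := by positivity
  refine ⟨max CC 1, le_max_right _ _, ?_⟩
  intro m R hm hR r hr S hS
  have hm0 : (0 : ℝ) < m := by exact_mod_cast hm
  have hm1 : (1 : ℝ) ≤ m := by exact_mod_cast hm
  have hr0 : 0 < r := by linarith
  have hs0 : 0 < C₀ * r := by positivity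
  set M : ℕ := ⌊C₀ * r * m⌋₊ with hM
  have hCrm : 1 ≤ C₀ * r * m := one_le_mul_of_one_le_of_one_le (one_le_mul_of_one_le_of_one_le hC₀ hr) hm1
  have hM1 : 1 ≤ M := Nat.le_floor (by exact_mod_cast hCrm)
  have hMle : (M : ℝ) ≤ C₀ * r * m := Nat.floor_le (by linarith)
  set L : ℕ := Nat.log 2 M with hL
  set idx : Finset (ℕ × (Fin ρ → ℕ)) := m.divisors ×ˢ Fintype.piFinset fun _ : Fin ρ => Finset.range (L + 1)
    with hidx
  set w : ℕ × (Fin ρ → ℕ) → ℝ := fun i => (∏ j, ((2 : ℝ) ^ (i.2 j + 1) / C₀)) ^ n with hw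
  have hw0 : ∀ i, 0 ≤ w i := fun i => by
    have : 0 ≤ ∏ j, ((2 : ℝ) ^ (i.2 j + 1) / C₀) := Finset.prod_nonneg fun j _ => by positivity
    positivity
  set X : ℝ := r ^ (n * ρ) * (m : ℝ) ^ ((n : ℝ) - 1 + ρ + e) with hX
  have hX0 : 0 ≤ X := by positivity
  -- the blocks
  have hQfin : ∀ (d : ℕ) (l : Fin ρ → ℕ), 0 < d → (Qs n ρ (C₀ * r) d l).Finite ∧
      (((Qs n ρ (C₀ * r) d l).ncard : ℕ) : ℝ) ≤
        C2 * (d : ℝ) ^ ((ρ : ℝ) - 1 + e) * ((d : ℝ) * ∏ j, (C₀ * r / 2 ^ (l j))) ^ n := fun d l hd =>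
    hnqu d (fun j => C₀ * r / 2 ^ (l j)) hd (fun j => by positivity) (Qs n ρ (C₀ * r) d l) (fun q => Iff.rfl)
  have hQF : ∀ (d : ℕ) (l : Fin ρ → ℕ), 0 < d → ∀ q, q ∈ QF n ρ (C₀ * r) d l ↔ q ∈ Qs n ρ (C₀ * r) d l := by
    intro d l hd q
    unfold QF
    rw [dif_pos (hQfin d l hd).1, Set.Finite.mem_toFinset]
  have hQFc : ∀ (d : ℕ) (l : Fin ρ → ℕ), 0 < d → ((QF n ρ (C₀ * r) d l).card : ℝ) ≤
      C2 * (d : ℝ) ^ ((ρ : ℝ) - 1 + e) * ((d : ℝ) * ∏ j, (C₀ * r / 2 ^ (l j))) ^ n := by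
    intro d l hd
    have h1 := (hQfin d l hd).2
    rw [Set.ncard_eq_toFinset_card _ (hQfin d l hd).1] at h1
    unfold QF
    rw [dif_pos (hQfin d l hd).1]
    exact h1
  have block : ∀ i ∈ idx, ((BB R (C₀ * r) i).card : ℝ) * w i ≤ K * X := by
    intro i hi
    have hd := (Finset.mem_product.1 hi).1
    have hdpos : 0 < i.1 := Nat.pos_of_mem_divisors hd
    have hdm : i.1 ≤ m := Nat.divisor_le hd
    set Bd : ℝ := C3 * ((m : ℝ) / i.1) ^ ((n : ℝ) - 1 + e) with hBd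
    have hBd0 : 0 ≤ Bd := by positivity
    have hc := BB_card R (C₀ * r) Bd i (by
      intro q hq
      have hq' := (hQF i.1 i.2 hdpos q).1 hq
      have h3 := (hrnu m R hm hR ρ q).2
      have h4 : ({β : MZ n | β ∈ R ∧ Itg β q}) = ((R.filter fun β => Itg β q : Finset (MZ n)) : Set (MZ n)) := by
        ext β
        simp
      rw [h4, Set.ncard_coe_finset, hq'.2.1] at h3
      exact h3)
    calc ((BB R (C₀ * r) i).card : ℝ) * w i ≤ (((QF n ρ (C₀ * r) i.1 i.2).card : ℝ) * Bd) * w i :=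
          mul_le_mul_of_nonneg_right hc (hw0 i)
      _ ≤ ((C2 * (i.1 : ℝ) ^ ((ρ : ℝ) - 1 + e) * ((i.1 : ℝ) * ∏ j, (C₀ * r / 2 ^ (i.2 j))) ^ n) * Bd) * w i :=
          mul_le_mul_of_nonneg_right (mul_le_mul_of_nonneg_right (hQFc i.1 i.2 hdpos) hBd0) (hw0 i)
      _ = (∏ j, ((2 : ℝ) ^ (i.2 j + 1) / C₀)) ^ n *
            ((C2 * (i.1 : ℝ) ^ ((ρ : ℝ) - 1 + e) * ((i.1 : ℝ) * ∏ j, (C₀ * r / 2 ^ (i.2 j))) ^ n) *
            (C3 * ((m : ℝ) / i.1) ^ ((n : ℝ) - 1 + e))) := by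
          rw [hBd, hw]
          ring
      _ ≤ _ := arith2 n ρ i.2 i.1 m r C₀ C2 C3 e hdpos hdm hr0 hC00 (by linarith) (by linarith)
  -- every pair is in a block
  have hblk : ∀ p ∈ S, ∃ i ∈ idx, p ∈ BB R (C₀ * r) i ∧ (∏ j, (r / zz p.2 j)) ^ n ≤ w i := by
    intro p hp
    obtain ⟨hβ, hli, hit, hz⟩ := (hS p).1 hp
    have hdm := (hrnu m R hm hR ρ p.2).1 p.1 hβ hit
    have hzl : ∀ j, (1 : ℝ) / m ≤ zz p.2 j := by
      intro j
      obtain ⟨i, hi⟩ := z_ge p.2 hli m hm hdm j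
      refine hi.trans ?_
      have := norm_le_pi_norm (fun i => ((p.2 i j : ℚ) : ℝ)) i
      rwa [Real.norm_eq_abs] at this
    have hz0 : ∀ j, 0 < zz p.2 j := fun j => lt_of_lt_of_le (by positivity) (hzl j)
    choose l hl1 hl2 using fun j => exists_dy (hz0 j) (hz j)
    have hdpos : 0 < (KK p.2).index := Nat.pos_of_dvd_of_pos hdm hm
    refine ⟨((KK p.2).index, l), ?_, ?_, ?_⟩
    · rw [hidx, Finset.mem_product]
      refine ⟨Nat.mem_divisors.2 ⟨hdm, hm.ne'⟩, ?_⟩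
      rw [Fintype.mem_piFinset]
      intro j
      rw [Finset.mem_range]
      have h3 := (hzl j).trans (hl1 j)
      rw [div_le_div_iff₀ hm0 (by positivity), one_mul] at h3
      have h4 : 2 ^ (l j) ≤ M := Nat.le_floor (by push_cast; exact h3)
      have h5 : l j ≤ Nat.log 2 M := Nat.le_log_of_pow_le (by norm_num) h4
      show l j < _
      omega
    · unfold BB
      rw [Finset.mem_filter, Finset.mem_product]
      refine ⟨⟨hβ, ?_⟩, hit⟩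
      rw [hQF _ _ hdpos]
      refine ⟨hli, rfl, fun i j => le_trans ?_ (hl1 j)⟩
      have := norm_le_pi_norm (fun i => ((p.2 i j : ℚ) : ℝ)) i
      rwa [Real.norm_eq_abs] at this
    · rw [hw]
      refine pow_le_pow_left₀ (Finset.prod_nonneg fun j _ => div_nonneg hr0.le (hz0 j).le) ?_ n
      refine Finset.prod_le_prod (fun j _ => div_nonneg hr0.le (hz0 j).le) fun j _ => ?_
      show r / zz p.2 j ≤ 2 ^ (l j + 1) / C₀
      have h1 := hl2 j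
      rw [div_lt_iff₀ (by positivity)] at h1
      rw [div_le_div_iff₀ (hz0 j) hC00, pow_succ]
      nlinarith
  have hfin : S.Finite := by
    refine Set.Finite.subset (Finset.finite_toSet (idx.biUnion fun i => BB R (C₀ * r) i)) fun p hp => ?_
    obtain ⟨i, hi, hpi, -⟩ := hblk p hp
    rw [Finset.mem_coe, Finset.mem_biUnion]
    exact ⟨i, hi, hpi⟩
  refine ⟨hfin, ?_⟩
  -- the number of the blocks
  have hLb : ((L : ℝ) + 1) ^ ρ ≤ C6 ^ ρ * C₀ ^ e * (r ^ e * (m : ℝ) ^ e) := by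
    have h1 : (((2 ^ L).divisors.card : ℕ) : ℝ) = (L : ℝ) + 1 := by
      rw [Nat.divisors_prime_pow Nat.prime_two, Finset.card_map, Finset.card_range]
      push_cast
      rfl
    have h2 := hdiv' (2 ^ L) (by positivity)
    rw [h1] at h2
    have h3 : ((2 ^ L : ℕ) : ℝ) ≤ C₀ * r * m := by
      have : 2 ^ L ≤ M := Nat.pow_log_le_self 2 (by omega)
      exact le_trans (by exact_mod_cast this) hMle
    calc ((L : ℝ) + 1) ^ ρ ≤ (C6 * ((2 ^ L : ℕ) : ℝ) ^ (e / ρ)) ^ ρ := by gcongr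
      _ ≤ (C6 * (C₀ * r * m) ^ (e / ρ)) ^ ρ := by gcongr
      _ = C6 ^ ρ * C₀ ^ e * (r ^ e * (m : ℝ) ^ e) := by
          rw [mul_pow, ← Real.rpow_natCast ((C₀ * r * m) ^ (e / ρ)) ρ, ← Real.rpow_mul (by positivity),
            div_mul_cancel₀ _ hρ0.ne', Real.mul_rpow (by positivity) hm0.le, Real.mul_rpow hC00.le hr0.le]
          ring
  have hdc : (m.divisors.card : ℝ) ≤ C5 * (m : ℝ) ^ e := hdiv m hm.ne'
  have hidxc : (idx.card : ℝ) ≤ (C5 * (m : ℝ) ^ e) * (C6 ^ ρ * C₀ ^ e * (r ^ e * (m : ℝ) ^ e)) := by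
    have h1 : (idx.card : ℝ) = (m.divisors.card : ℝ) * ((L : ℝ) + 1) ^ ρ := by
      rw [hidx, Finset.card_product, Fintype.card_piFinset]
      simp only [Finset.card_range, Finset.prod_const, Finset.card_univ, Fintype.card_fin]
      push_cast
      rfl
    rw [h1]
    exact mul_le_mul hdc hLb (by positivity) (by positivity)
  calc ∑ p ∈ hfin.toFinset, (∏ j, (r / zz p.2 j)) ^ n
      ≤ ∑ p ∈ hfin.toFinset, ∑ i ∈ idx, (if p ∈ BB R (C₀ * r) i then w i else 0) := by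
        refine Finset.sum_le_sum fun p hp => ?_
        obtain ⟨i, hi, hpi, hle⟩ := hblk p (hfin.mem_toFinset.1 hp)
        refine hle.trans ?_
        have h1 : w i = (if p ∈ BB R (C₀ * r) i then w i else 0) := by rw [if_pos hpi]
        rw [h1]
        refine Finset.single_le_sum (f := fun i => if p ∈ BB R (C₀ * r) i then w i else 0) (fun i _ => ?_) hi
        show 0 ≤ if p ∈ BB R (C₀ * r) i then w i else 0
        split_ifs
        · exact hw0 i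
        · exact le_rfl
    _ = ∑ i ∈ idx, ∑ p ∈ hfin.toFinset, (if p ∈ BB R (C₀ * r) i then w i else 0) := Finset.sum_comm
    _ ≤ ∑ i ∈ idx, K * X := by
        refine Finset.sum_le_sum fun i hi => ?_
        refine le_trans ?_ (block i hi)
        rw [← Finset.sum_filter, Finset.sum_const, nsmul_eq_mul]
        refine mul_le_mul_of_nonneg_right ?_ (hw0 i)
        have : (hfin.toFinset.filter fun p => p ∈ BB R (C₀ * r) i) ⊆ BB R (C₀ * r) i := fun p hp =>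
          (Finset.mem_filter.1 hp).2
        exact_mod_cast Finset.card_le_card this
    _ = (idx.card : ℝ) * (K * X) := by rw [Finset.sum_const, nsmul_eq_mul]
    _ ≤ ((C5 * (m : ℝ) ^ e) * (C6 ^ ρ * C₀ ^ e * (r ^ e * (m : ℝ) ^ e))) * (K * X) :=
        mul_le_mul_of_nonneg_right hidxc (by positivity)
    _ = CC * (((m : ℝ) ^ e * (m : ℝ) ^ e * (m : ℝ) ^ ((n : ℝ) - 1 + ρ + e)) * r ^ (n * ρ) * r ^ e) := by
        rw [hCC, hX]
        ring
    _ = CC * ((m : ℝ) ^ ((n : ℝ) - 1 + ρ + 3 * e) * r ^ (n * ρ) * r ^ e) := by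
        rw [← Real.rpow_add hm0, ← Real.rpow_add hm0]
        congr 4
        ring
    _ ≤ max CC 1 * ((m : ℝ) ^ ((n : ℝ) - 1 + ρ + ε) * r ^ (n * ρ) * r ^ ε) := by
        refine mul_le_mul (le_max_left _ _) ?_ (by positivity) (by positivity)
        refine mul_le_mul (mul_le_mul_of_nonneg_right ?_ (by positivity)) ?_ (by positivity) (by positivity)
        · exact Real.rpow_le_rpow_of_exponent_le hm1 (by rw [he]; linarith)
        · exact Real.rpow_le_rpow_of_exponent_le hr (by rw [he]; linarith)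
    _ = _ := by ring

end Pool.Agent.T2h79.LG.EXQ
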