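import Pool.Agent.T2h79.LG.Stm2
import Pool.Agent.T2h79.LG.T_IDY
import Pool.Agent.T2h79.LG.T_BOX

set_option autoImplicit false

/-!
# Task GCV: the pairs `(Φ, v)` with `Φ v = 0` modulo `N`
-/

open Matrix

namespace Pool.Agent.T2h79.LG.GCV

open Pool.Agent.T2h77.N Pool.Agent.T2h79.LG Pool.Agent.T2h79.LG.BOX

lemma det_bound {ρ : ℕ} (A : MZ ρ) (s : Fin ρ → ℝ)
    (h : ∀ i j, |((A i j : ℤ) : ℝ)| ≤ s j) :
    |((A.det : ℤ) : ℝ)| ≤ ρ.factorial * ∏ j, s j := by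
  have h1 := BOX.det_bound (A.map (Int.cast : ℤ → ℚ)) s (fun i j => by
    rw [Matrix.map_apply]
    have : (((A i j : ℤ) : ℚ) : ℝ) = ((A i j : ℤ) : ℝ) := by push_cast; rfl
    rw [this]
    exact h i j)
  have h2 : (A.map (Int.cast : ℤ → ℚ)).det = ((A.det : ℤ) : ℚ) :=
    ((Int.castRingHom ℚ).map_det A).symm
  rw [h2] at h1
  have : (((A.det : ℤ) : ℚ) : ℝ) = ((A.det : ℤ) : ℝ) := by push_cast; rfl
  rw [this] at h1
  exact h1

/-- integral rows which are independent over `ℤ` are independent over `ℚ` -/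
lemma linInd_rat {ρ n : ℕ} (Φ : Matrix (Fin ρ) (Fin n) ℤ) (h : LinearIndependent ℤ fun j => Φ j) :
    LinearIndependent ℚ (fun j => fun k => ((Φ j k : ℤ) : ℚ)) := by
  rw [Fintype.linearIndependent_iff]
  intro g hg
  -- clear denominators
  obtain ⟨D, hD⟩ : ∃ D : ℤ, D = ∏ i, ((g i).den : ℤ) := ⟨_, rfl⟩
  have hD0 : D ≠ 0 := by
    rw [hD]
    exact Finset.prod_ne_zero_iff.mpr fun i _ => by exact_mod_cast (g i).den_ne_zero
  have hint : ∀ i, ∃ z : ℤ, (D : ℚ) * g i = z := by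
    intro i
    obtain ⟨c, hc⟩ : ((g i).den : ℤ) ∣ D := by
      rw [hD]; exact Finset.dvd_prod_of_mem (fun i => ((g i).den : ℤ)) (Finset.mem_univ i)
    refine ⟨c * (g i).num, ?_⟩
    have h1 : ((g i).den : ℚ) * g i = (g i).num := by
      rw [mul_comm]; exact Rat.mul_den_eq_num (g i)
    rw [hc]
    push_cast
    rw [← h1]
    ring
  choose z hz using hint
  have h1 : ∑ i, z i • Φ i = 0 := by
    ext k
    have h2 := congrFun hg k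
    rw [Finset.sum_apply] at h2 ⊢
    simp only [Pi.smul_apply, smul_eq_mul, Pi.zero_apply] at h2 ⊢
    have h3 : ((∑ i, z i * Φ i k : ℤ) : ℚ) = D * ∑ i, g i * ((Φ i k : ℤ) : ℚ) := by
      push_cast
      rw [Finset.mul_sum]
      refine Finset.sum_congr rfl fun i _ => ?_
      rw [← hz i]; ring
    rw [h2, mul_zero] at h3
    exact_mod_cast h3
  have h2 := (Fintype.linearIndependent_iff.mp h) z h1
  intro i
  have h3 := hz i
  rw [h2 i, Int.cast_zero] at h3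
  rcases mul_eq_zero.mp h3 with h4 | h4
  · exact absurd (by exact_mod_cast h4) hD0
  · exact h4

/-- if the rows are independent there are `ρ` independent columns -/
lemma exists_cols {ρ n : ℕ} (Φ : Matrix (Fin ρ) (Fin n) ℤ) (h : LinearIndependent ℤ fun j => Φ j) :
    ∃ y : Fin ρ → Fin ρ → ℤ, LinearIndependent ℤ y ∧ ∀ i, ∃ k, y i = Φᵀ k := by
  obtain ⟨q, hq⟩ : ∃ q : Matrix (Fin ρ) (Fin n) ℚ, q = Φ.map (Int.cast : ℤ → ℚ) := ⟨_, rfl⟩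
  have h0 : LinearIndependent ℚ q.row := by
    rw [hq]; exact linInd_rat Φ h
  have h1 : qᵀ.rank = ρ := by
    rw [Matrix.rank_transpose, h0.rank_matrix, Fintype.card_fin]
  rw [Matrix.rank_eq_finrank_span_row] at h1
  obtain ⟨f, hf1, -, hf3⟩ := Submodule.exists_fun_fin_finrank_span_eq ℚ (Set.range (qᵀ).row)
  have hk : ∀ i : Fin ρ, ∃ k, (qᵀ).row k = f (Fin.cast h1.symm i) := fun i => hf1 _
  choose k hk using hk
  refine ⟨fun i => Φᵀ (k i), ?_, fun i => ⟨k i, rfl⟩⟩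
  have h3 : LinearIndependent ℚ (fun i : Fin ρ => f (Fin.cast h1.symm i)) :=
    hf3.comp _ (Fin.cast_injective _)
  rw [Fintype.linearIndependent_iff] at h3 ⊢
  intro g hg i
  have h4 := h3 (fun i => ((g i : ℤ) : ℚ)) (by
    ext j
    rw [Finset.sum_apply]
    simp only [Pi.smul_apply, smul_eq_mul, Pi.zero_apply]
    have h5 := congrFun hg j
    rw [Finset.sum_apply] at h5
    simp only [Pi.smul_apply, smul_eq_mul, Pi.zero_apply] at h5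
    have h6 : ((∑ i, g i * Φᵀ (k i) j : ℤ) : ℚ) = 0 := by rw [h5]; simp
    rw [← h6]
    push_cast
    refine Finset.sum_congr rfl fun i _ => ?_
    rw [← hk i, hq]
    rfl) i
  exact_mod_cast h4

/-- a lattice with `ρ` independent vectors has finite index -/
lemma index_ne_zero {ρ : ℕ} (L : AddSubgroup (Fin ρ → ℤ)) (y : Fin ρ → Fin ρ → ℤ)
    (hy : LinearIndependent ℤ y) (hyL : ∀ i, y i ∈ L) : L.index ≠ 0 := by
  have hdet : (Matrix.of y).det ≠ 0 := by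
    intro h
    obtain ⟨v, hv, hv0⟩ := Matrix.exists_vecMul_eq_zero_iff.mpr h
    apply hv
    have h1 : ∑ i, v i • y i = 0 := by
      rw [← hv0]
      ext j
      rw [Finset.sum_apply]
      rfl
    exact funext ((Fintype.linearIndependent_iff.mp hy) v h1)
  have hidx := IDY.t_IDY ρ (Matrix.of y) (rowLat (Matrix.of y)) hdet
    (fun v => mem_rowLat (Matrix.of y) v)
  have hle : rowLat (Matrix.of y) ≤ L := by
    rintro _ ⟨c, rfl⟩
    have : c ᵥ* (Matrix.of y) = ∑ i, c i • y i := by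
      ext j
      rw [Finset.sum_apply]
      rfl
    rw [this]
    exact L.sum_mem fun i _ => L.zsmul_mem (hyL i) _
  have hrel : (rowLat (Matrix.of y)).relIndex L * L.index = (rowLat (Matrix.of y)).index :=
    AddSubgroup.relIndex_mul_index hle
  intro h
  rw [h, mul_zero] at hrel
  rw [← hrel] at hidx
  exact hdet (abs_eq_zero.mp (by rw [← hidx]; norm_num))

/-- the columns are in the column lattice -/
lemma col_mem {ρ n : ℕ} (Φ : Matrix (Fin ρ) (Fin n) ℤ) (k : Fin n) : Φᵀ k ∈ CL Φ := by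
  refine ⟨Pi.single k 1, ?_⟩
  show Matrix.toLin' Φ (Pi.single k 1) = _
  rw [Matrix.toLin'_apply, Matrix.mulVec_single_one]
  rfl

/-- the sum of `w^(-1+δ)` -/
lemma sum_rpow_le (δ : ℝ) (hδ : 0 < δ) : ∃ C : ℝ, 1 ≤ C ∧ ∀ W : ℕ, 1 ≤ W →
    ∑ w ∈ Finset.Icc 1 W, (w : ℝ) ^ (-1 + δ) ≤ C * (W : ℝ) ^ (2 * δ) := by
  have hs : Summable fun w : ℕ => 1 / (w : ℝ) ^ (1 + δ) :=
    Real.summable_one_div_nat_rpow.mpr (by linarith)
  refine ⟨1 + ∑' w : ℕ, 1 / (w : ℝ) ^ (1 + δ), ?_, ?_⟩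
  · have : 0 ≤ ∑' w : ℕ, 1 / (w : ℝ) ^ (1 + δ) := tsum_nonneg fun w => by positivity
    linarith
  · intro W hW
    have hW0 : (0 : ℝ) ≤ (W : ℝ) ^ (2 * δ) := by positivity
    have h1 : ∀ w ∈ Finset.Icc 1 W, (w : ℝ) ^ (-1 + δ) ≤ (W : ℝ) ^ (2 * δ) * (1 / (w : ℝ) ^ (1 + δ)) := by
      intro w hw
      rw [Finset.mem_Icc] at hw
      have hw0 : (0 : ℝ) < w := by exact_mod_cast (show 0 < w by omega)
      have h2 : (w : ℝ) ^ (-1 + δ) = (w : ℝ) ^ (2 * δ) * (1 / (w : ℝ) ^ (1 + δ)) := by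
        rw [one_div, ← Real.rpow_neg hw0.le, ← Real.rpow_add hw0]
        congr 1
        ring
      rw [h2]
      refine mul_le_mul_of_nonneg_right ?_ (by positivity)
      exact Real.rpow_le_rpow hw0.le (by exact_mod_cast hw.2) (by linarith)
    calc ∑ w ∈ Finset.Icc 1 W, (w : ℝ) ^ (-1 + δ)
        ≤ ∑ w ∈ Finset.Icc 1 W, (W : ℝ) ^ (2 * δ) * (1 / (w : ℝ) ^ (1 + δ)) := Finset.sum_le_sum h1
      _ = (W : ℝ) ^ (2 * δ) * ∑ w ∈ Finset.Icc 1 W, (1 / (w : ℝ) ^ (1 + δ)) := by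
          rw [Finset.mul_sum]
      _ ≤ (W : ℝ) ^ (2 * δ) * ∑' w : ℕ, 1 / (w : ℝ) ^ (1 + δ) := by
          refine mul_le_mul_of_nonneg_left ?_ hW0
          exact hs.sum_le_tsum _ fun w _ => by positivity
      _ ≤ (1 + ∑' w : ℕ, 1 / (w : ℝ) ^ (1 + δ)) * (W : ℝ) ^ (2 * δ) := by nlinarith

/-- the case `ρ = n`: there are no pairs -/
lemma no_square {n N : ℕ} [NeZero N] (X : Fin n → ℝ) (hX : (n.factorial : ℝ) * ∏ j, X j < N)
    (Φ : MZ n) (v : Fin n → ZMod N) (h1 : LinearIndependent ℤ fun j => Φ j)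
    (h2 : ∀ j k, |((Φ j k : ℤ) : ℝ)| ≤ X j) (h3 : Um v)
    (h4 : Φ.map (Int.cast : ℤ → ZMod N) *ᵥ v = 0) : False := by
  have hdet : Φ.det ≠ 0 := by
    intro h
    obtain ⟨u, hu, hu0⟩ := Matrix.exists_vecMul_eq_zero_iff.mpr h
    apply hu
    have h5 : ∑ i, u i • Φ i = 0 := by
      rw [← hu0]
      ext j
      rw [Finset.sum_apply]
      rfl
    exact funext ((Fintype.linearIndependent_iff.mp h1) u h5)
  obtain ⟨w, hw⟩ := h3
  have h5 : (Φ.map (Int.cast : ℤ → ZMod N)).det = 0 := by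
    have h6 : (Φ.map (Int.cast : ℤ → ZMod N)).adjugate *ᵥ (Φ.map (Int.cast : ℤ → ZMod N) *ᵥ v) =
        (Φ.map (Int.cast : ℤ → ZMod N)).det • v := by
      rw [Matrix.mulVec_mulVec, Matrix.adjugate_mul, Matrix.smul_mulVec, Matrix.one_mulVec]
    rw [h4, Matrix.mulVec_zero] at h6
    have h7 := congrArg (fun z => w ⬝ᵥ z) h6
    simp only [dotProduct_zero, dotProduct_smul, hw, smul_eq_mul, mul_one] at h7
    exact h7.symm
  have h6 : ((Φ.det : ℤ) : ZMod N) = 0 := by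
    rw [← h5]
    exact (Int.castRingHom (ZMod N)).map_det Φ
  rw [ZMod.intCast_zmod_eq_zero_iff_dvd] at h6
  have h7 : (N : ℤ) ≤ |Φ.det| := Int.le_of_dvd (abs_pos.mpr hdet) ((dvd_abs _ _).mpr h6)
  have h8 : |((Φ.det : ℤ) : ℝ)| ≤ n.factorial * ∏ j, X j := by
    have h9 := det_bound Φᵀ X (fun i j => h2 j i)
    rwa [Matrix.det_transpose] at h9
  have h9 : (N : ℝ) ≤ |((Φ.det : ℤ) : ℝ)| := by
    rw [← Int.cast_abs]
    exact_mod_cast h7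
  linarith

/-- the fibres of the column lattice -/
lemma fibre {n ρ : ℕ} (hB : S_bxl) : ∃ C : ℝ, 1 ≤ C ∧ ∀ (X : Fin ρ → ℝ), (∀ j, 1 ≤ X j) →
    ∀ T : Finset (Matrix (Fin ρ) (Fin n) ℤ), (∀ Φ ∈ T, LinearIndependent ℤ (fun j => Φ j) ∧
      ∀ j k, |((Φ j k : ℤ) : ℝ)| ≤ X j) → ∀ Φ₀ ∈ T, (CL Φ₀).index ≠ 0 ∧
      ((CL Φ₀).index : ℝ) ≤ C * ∏ j, X j ∧ ∀ T' : Finset (Matrix (Fin ρ) (Fin n) ℤ), T' ⊆ T →
        (∀ Φ ∈ T', CL Φ = CL Φ₀) → ((T'.card : ℕ) : ℝ) ≤ (C * (∏ j, X j) / (CL Φ₀).index) ^ n := by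
  classical
  obtain ⟨C₁, hC₁, h1⟩ := hB ρ
  refine ⟨C₁, hC₁, ?_⟩
  intro X hX T hT Φ₀ hΦ₀
  obtain ⟨y, hy, hyk⟩ := exists_cols Φ₀ (hT Φ₀ hΦ₀).1
  have hyL : ∀ i, y i ∈ CL Φ₀ := by
    intro i
    obtain ⟨k, hk⟩ := hyk i
    rw [hk]
    exact col_mem Φ₀ k
  have h0 : (CL Φ₀).index ≠ 0 := index_ne_zero _ y hy hyL
  obtain ⟨hfin, hc, hi⟩ := h1 (CL Φ₀) X h0 (fun j => by linarith [hX j]) ⟨y, hy, fun i => ⟨hyL i, by
    intro j
    obtain ⟨k, hk⟩ := hyk i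
    rw [hk]
    exact (hT Φ₀ hΦ₀).2 j k⟩⟩
  refine ⟨h0, hi, ?_⟩
  intro T' hT' hCL
  have hle : T'.card ≤ (Fintype.piFinset fun _ : Fin n => hfin.toFinset).card := by
    refine Finset.card_le_card_of_injOn (fun Φ => fun k j => Φ j k) ?_ ?_
    · intro Φ hΦ
      have hΦ' : Φ ∈ T' := hΦ
      refine Fintype.mem_piFinset.mpr ?_
      intro k
      rw [Set.Finite.mem_toFinset]
      refine ⟨?_, fun j => (hT Φ (hT' hΦ')).2 j k⟩
      rw [← hCL Φ hΦ']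
      exact col_mem Φ k
    · intro Φ _ Φ' _ h
      ext j k
      exact congrFun (congrFun h k) j
  rw [Fintype.card_piFinset_const, ← Set.ncard_eq_toFinset_card _ hfin] at hle
  calc ((T'.card : ℕ) : ℝ) ≤ ((({y : Fin ρ → ℤ | y ∈ CL Φ₀ ∧ ∀ j, |((y j : ℤ) : ℝ)| ≤ X j}.ncard ^ n : ℕ)) : ℝ) := by
        exact_mod_cast hle
    _ = ((({y : Fin ρ → ℤ | y ∈ CL Φ₀ ∧ ∀ j, |((y j : ℤ) : ℝ)| ≤ X j}.ncard : ℕ)) : ℝ) ^ n := by
        push_cast; rfl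
    _ ≤ _ := pow_le_pow_left₀ (Nat.cast_nonneg _) hc n

/-- the sum of the indices -/
lemma sum_index {n ρ : ℕ} (hB : S_bxl) (hK : S_knu) (hρ : 1 ≤ ρ) (hlt : ρ < n) (ε : ℝ) (hε : 0 < ε) :
    ∃ C : ℝ, 1 ≤ C ∧ ∀ (X : Fin ρ → ℝ), (∀ j, 1 ≤ X j) →
    ∀ T : Finset (Matrix (Fin ρ) (Fin n) ℤ), (∀ Φ ∈ T, LinearIndependent ℤ (fun j => Φ j) ∧
      ∀ j k, |((Φ j k : ℤ) : ℝ)| ≤ X j) →
      (∀ Φ ∈ T, (CL Φ).index ≠ 0) ∧
      ∑ Φ ∈ T, ((CL Φ).index : ℝ) ≤ C * (∏ j, X j) ^ n * (∏ j, X j) ^ ε := by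
  classical
  obtain ⟨C₁, hC₁, h1⟩ := fibre (n := n) (ρ := ρ) hB
  obtain ⟨C₂, hC₂, h2⟩ := hK ρ hρ (ε / 2) (by linarith)
  obtain ⟨C₃, hC₃, h3⟩ := sum_rpow_le (ε / 2) (by linarith)
  have hC₁' : 1 ≤ C₁ ^ ε := Real.one_le_rpow hC₁ hε.le
  refine ⟨C₂ * C₁ ^ n * C₃ * C₁ ^ ε, ?_, ?_⟩
  · exact one_le_mul_of_one_le_of_one_le (one_le_mul_of_one_le_of_one_le
      (one_le_mul_of_one_le_of_one_le hC₂ (one_le_pow₀ hC₁)) hC₃) hC₁'
  intro X hX T hT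
  obtain ⟨P, hPe⟩ : ∃ P : ℝ, P = ∏ j, X j := ⟨_, rfl⟩
  have hP1 : 1 ≤ P := by
    rw [hPe]
    calc (1 : ℝ) = ∏ j : Fin ρ, 1 := by simp
      _ ≤ ∏ j, X j := Finset.prod_le_prod (fun j _ => by norm_num) fun j _ => hX j
  rw [← hPe]
  have hfib := h1 X hX T hT
  refine ⟨fun Φ hΦ => (hfib Φ hΦ).1, ?_⟩
  have hCP : 1 ≤ C₁ * P := one_le_mul_of_one_le_of_one_le hC₁ hP1
  obtain ⟨W, hW⟩ : ∃ W : ℕ, W = ⌊C₁ * P⌋₊ := ⟨_, rfl⟩
  have hW1 : 1 ≤ W := by rw [hW]; exact Nat.le_floor (by exact_mod_cast hCP)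
  have hWle : (W : ℝ) ≤ C₁ * P := by rw [hW]; exact Nat.floor_le (by linarith)
  obtain ⟨g, hg⟩ : ∃ g : ℕ → ℝ, g = fun w : ℕ => (C₁ * P / (w : ℝ)) ^ n * (w : ℝ) := ⟨_, rfl⟩
  have hg0 : ∀ w, 0 ≤ g w := by intro w; rw [hg]; positivity
  -- the sum over the lattices
  have e1 : ∑ Φ ∈ T, ((CL Φ).index : ℝ) =
      ∑ L ∈ T.image CL, ∑ Φ ∈ T with CL Φ = L, ((CL Φ).index : ℝ) :=
    (Finset.sum_fiberwise_of_maps_to (fun Φ hΦ => Finset.mem_image_of_mem _ hΦ) _).symm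
  have e2 : ∑ L ∈ T.image CL, ∑ Φ ∈ T with CL Φ = L, ((CL Φ).index : ℝ) ≤
      ∑ L ∈ T.image CL, g L.index := by
    refine Finset.sum_le_sum fun L hL => ?_
    obtain ⟨Φ₀, hΦ₀, rfl⟩ := Finset.mem_image.mp hL
    have e3 : ∑ Φ ∈ T with CL Φ = CL Φ₀, ((CL Φ).index : ℝ) =
        ((T.filter fun Φ => CL Φ = CL Φ₀).card : ℝ) * ((CL Φ₀).index : ℝ) := by
      rw [← nsmul_eq_mul, ← Finset.sum_const]
      refine Finset.sum_congr rfl fun Φ hΦ => ?_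
      rw [(Finset.mem_filter.mp hΦ).2]
    rw [e3, hg]
    refine mul_le_mul_of_nonneg_right ?_ (Nat.cast_nonneg _)
    have h4 := (hfib Φ₀ hΦ₀).2.2 (T.filter fun Φ => CL Φ = CL Φ₀) (Finset.filter_subset _ _)
      (fun Φ hΦ => (Finset.mem_filter.mp hΦ).2)
    rw [← hPe] at h4
    exact h4
  -- the sum over the indices
  have hmaps : ∀ L ∈ T.image CL, L.index ∈ Finset.Icc 1 W := by
    intro L hL
    obtain ⟨Φ₀, hΦ₀, rfl⟩ := Finset.mem_image.mp hL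
    rw [Finset.mem_Icc]
    refine ⟨Nat.pos_of_ne_zero (hfib Φ₀ hΦ₀).1, ?_⟩
    rw [hW]
    refine Nat.le_floor ?_
    have h4 := (hfib Φ₀ hΦ₀).2.1
    rw [← hPe] at h4
    exact h4
  have e4 : ∑ L ∈ T.image CL, g L.index =
      ∑ w ∈ Finset.Icc 1 W, ∑ L ∈ T.image CL with L.index = w, g L.index :=
    (Finset.sum_fiberwise_of_maps_to hmaps _).symm
  have e5 : ∀ w ∈ Finset.Icc 1 W, ∑ L ∈ T.image CL with L.index = w, g L.index ≤
      C₂ * (C₁ * P) ^ n * (w : ℝ) ^ (-1 + ε / 2) := by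
    intro w hw
    rw [Finset.mem_Icc] at hw
    have hw0 : (0 : ℝ) < w := by exact_mod_cast (show 0 < w by omega)
    have hw1 : (1 : ℝ) ≤ w := by exact_mod_cast hw.1
    have e6 : ∑ L ∈ T.image CL with L.index = w, g L.index =
        (((T.image CL).filter fun L => L.index = w).card : ℝ) * g w := by
      rw [← nsmul_eq_mul, ← Finset.sum_const]
      refine Finset.sum_congr rfl fun L hL => ?_
      rw [(Finset.mem_filter.mp hL).2]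
    obtain ⟨hf, hc⟩ := h2 w (by omega)
    have e7 : ((((T.image CL).filter fun L => L.index = w).card : ℕ) : ℝ) ≤
        C₂ * (w : ℝ) ^ ((ρ : ℝ) - 1 + ε / 2) := by
      refine le_trans ?_ hc
      rw [← Set.ncard_coe_finset]
      refine Nat.cast_le.mpr (Set.ncard_le_ncard ?_ hf)
      intro L hL
      exact (Finset.mem_filter.mp (Finset.mem_coe.mp hL)).2
    rw [e6]
    calc (((T.image CL).filter fun L => L.index = w).card : ℝ) * g w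
        ≤ (C₂ * (w : ℝ) ^ ((ρ : ℝ) - 1 + ε / 2)) * g w :=
          mul_le_mul_of_nonneg_right e7 (hg0 w)
      _ = C₂ * (C₁ * P) ^ n * (w : ℝ) ^ ((ρ : ℝ) - n + ε / 2) := by
          rw [hg]
          show (C₂ * (w : ℝ) ^ ((ρ : ℝ) - 1 + ε / 2)) * ((C₁ * P / w) ^ n * w) = _
          have h5 : (w : ℝ) ^ ((ρ : ℝ) - n + ε / 2) =
              (w : ℝ) ^ ((ρ : ℝ) - 1 + ε / 2) * (w / (w : ℝ) ^ n) := by
            have h6 : (ρ : ℝ) - n + ε / 2 = ((ρ : ℝ) - 1 + ε / 2) + (1 - n) := by ring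
            rw [h6, Real.rpow_add hw0, Real.rpow_sub hw0, Real.rpow_one, Real.rpow_natCast]
          rw [h5, div_pow]
          ring
      _ ≤ C₂ * (C₁ * P) ^ n * (w : ℝ) ^ (-1 + ε / 2) := by
          refine mul_le_mul_of_nonneg_left ?_ (by positivity)
          refine Real.rpow_le_rpow_of_exponent_le hw1 ?_
          have : (ρ : ℝ) + 1 ≤ n := by exact_mod_cast hlt
          linarith
  have e8 := h3 W hW1
  calc ∑ Φ ∈ T, ((CL Φ).index : ℝ) ≤ ∑ L ∈ T.image CL, g L.index := e1.trans_le e2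
    _ = ∑ w ∈ Finset.Icc 1 W, ∑ L ∈ T.image CL with L.index = w, g L.index := e4
    _ ≤ ∑ w ∈ Finset.Icc 1 W, C₂ * (C₁ * P) ^ n * (w : ℝ) ^ (-1 + ε / 2) := Finset.sum_le_sum e5
    _ = C₂ * (C₁ * P) ^ n * ∑ w ∈ Finset.Icc 1 W, (w : ℝ) ^ (-1 + ε / 2) := by
        rw [Finset.mul_sum]
    _ ≤ C₂ * (C₁ * P) ^ n * (C₃ * (W : ℝ) ^ (2 * (ε / 2))) :=
        mul_le_mul_of_nonneg_left e8 (by positivity)
    _ ≤ C₂ * (C₁ * P) ^ n * (C₃ * (C₁ * P) ^ ε) := by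
        refine mul_le_mul_of_nonneg_left (mul_le_mul_of_nonneg_left ?_ (by linarith)) (by positivity)
        rw [show 2 * (ε / 2) = ε by ring]
        exact Real.rpow_le_rpow (Nat.cast_nonneg _) hWle hε.le
    _ = C₂ * C₁ ^ n * C₃ * C₁ ^ ε * P ^ n * P ^ ε := by
        rw [Real.mul_rpow (by linarith) (by linarith), mul_pow]
        ring

theorem t_GCV (hB : S_bxl) (hS : S_sol) (hK : S_knu) : S_gcv := by
  classical
  intro n ρ hρ hρn ε hε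
  rcases Nat.lt_or_ge ρ n with hlt | hge
  swap
  · obtain rfl : ρ = n := le_antisymm hρn hge
    refine ⟨ρ.factorial, by exact_mod_cast Nat.factorial_pos ρ, ?_⟩
    intro N _ X hX hN S hSm
    have he : S = ∅ := by
      rw [Set.eq_empty_iff_forall_notMem]
      intro p hp
      obtain ⟨h1, h2, h3, h4⟩ := hSm p hp
      exact no_square X hN p.1 p.2 h1 h2 h3 h4
    have hP : 0 < ∏ j, X j := Finset.prod_pos fun j _ => by linarith [hX j]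
    rw [he]
    refine ⟨Set.finite_empty, ?_⟩
    rw [Set.ncard_empty, Nat.cast_zero]
    positivity
  obtain ⟨C, hC, h1⟩ := sum_index (n := n) hB hK hρ hlt ε hε
  refine ⟨C, hC, ?_⟩
  intro N _ X hX hN S hSm
  obtain ⟨P, hPe⟩ : ∃ P : ℝ, P = ∏ j, X j := ⟨_, rfl⟩
  have hP1 : 1 ≤ P := by
    rw [hPe]
    calc (1 : ℝ) = ∏ j : Fin ρ, 1 := by simp
      _ ≤ ∏ j, X j := Finset.prod_le_prod (fun j _ => by norm_num) fun j _ => hX j
  have hPN : P ≤ N := by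
    rw [← hPe] at hN
    nlinarith
  have hTf : {Φ : Matrix (Fin ρ) (Fin n) ℤ | LinearIndependent ℤ (fun j => Φ j) ∧
      ∀ j k, |((Φ j k : ℤ) : ℝ)| ≤ X j}.Finite := by
    have h2 : {Φ : Fin ρ → Fin n → ℤ | ∀ j, Φ j ∈ {v : Fin n → ℤ | ∀ k, v k ∈ Set.Icc (-⌈X j⌉) ⌈X j⌉}}.Finite :=
      Set.Finite.pi' fun j => Set.Finite.pi' fun k => Set.finite_Icc _ _
    refine h2.subset ?_
    rintro Φ ⟨-, hΦ⟩ j k
    have h3 : ((|Φ j k| : ℤ) : ℝ) ≤ (⌈X j⌉ : ℝ) := by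
      rw [Int.cast_abs]
      exact (hΦ j k).trans (Int.le_ceil _)
    have h4 : |Φ j k| ≤ ⌈X j⌉ := by exact_mod_cast h3
    exact ⟨(abs_le.mp h4).1, (abs_le.mp h4).2⟩
  obtain ⟨T, hT⟩ : ∃ T : Finset (Matrix (Fin ρ) (Fin n) ℤ), T = hTf.toFinset := ⟨_, rfl⟩
  have hTm : ∀ Φ, Φ ∈ T ↔ LinearIndependent ℤ (fun j => Φ j) ∧ ∀ j k, |((Φ j k : ℤ) : ℝ)| ≤ X j := by
    intro Φ; rw [hT, Set.Finite.mem_toFinset]; rfl
  obtain ⟨hidx, hsum⟩ := h1 X hX T (fun Φ hΦ => (hTm Φ).mp hΦ)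
  obtain ⟨V, hV⟩ : ∃ V : Matrix (Fin ρ) (Fin n) ℤ → Finset (Fin n → ZMod N), V = fun Φ =>
    Finset.univ.filter fun v => Φ.map (Int.cast : ℤ → ZMod N) *ᵥ v = 0 := ⟨_, rfl⟩
  have hsub : S ⊆ ↑(T.biUnion fun Φ => (V Φ).image fun v => (Φ, v)) := by
    rintro ⟨Φ, v⟩ hp
    obtain ⟨a1, a2, -, a4⟩ := hSm _ hp
    rw [Finset.mem_coe, Finset.mem_biUnion]
    refine ⟨Φ, (hTm Φ).mpr ⟨a1, a2⟩, Finset.mem_image.mpr ⟨v, ?_, rfl⟩⟩
    rw [hV]
    exact Finset.mem_filter.mpr ⟨Finset.mem_univ _, a4⟩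
  refine ⟨(Finset.finite_toSet _).subset hsub, ?_⟩
  have hcard : S.ncard ≤ ∑ Φ ∈ T, (V Φ).card := by
    calc S.ncard ≤ (↑(T.biUnion fun Φ => (V Φ).image fun v => (Φ, v)) : Set _).ncard :=
          Set.ncard_le_ncard hsub (Finset.finite_toSet _)
      _ = (T.biUnion fun Φ => (V Φ).image fun v => (Φ, v)).card := Set.ncard_coe_finset _
      _ ≤ ∑ Φ ∈ T, ((V Φ).image fun v => (Φ, v)).card := Finset.card_biUnion_le
      _ ≤ ∑ Φ ∈ T, (V Φ).card := Finset.sum_le_sum fun Φ _ => Finset.card_image_le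
  have hNpos : 0 < N := Nat.pos_of_ne_zero (NeZero.ne N)
  have hVc : ∀ Φ ∈ T, (V Φ).card ≤ N ^ (n - ρ) * (CL Φ).index := by
    intro Φ hΦ
    have h2 := hS n ρ N Φ (hidx Φ hΦ)
    rw [Nat.card_eq_fintype_card, Fintype.card_subtype] at h2
    have h3 : (V Φ).card * N ^ ρ ≤ N ^ n * (CL Φ).index := by
      rw [hV]; exact h2
    have h4 : N ^ n = N ^ (n - ρ) * N ^ ρ := by rw [← pow_add]; congr 1; omega
    rw [h4] at h3
    refine Nat.le_of_mul_le_mul_right ?_ (pow_pos hNpos ρ)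
    calc (V Φ).card * N ^ ρ ≤ N ^ (n - ρ) * N ^ ρ * (CL Φ).index := h3
      _ = N ^ (n - ρ) * (CL Φ).index * N ^ ρ := by ring
  have hNR : (0 : ℝ) < N := by exact_mod_cast hNpos
  calc ((S.ncard : ℕ) : ℝ) ≤ ((∑ Φ ∈ T, (V Φ).card : ℕ) : ℝ) := by exact_mod_cast hcard
    _ ≤ ((∑ Φ ∈ T, N ^ (n - ρ) * (CL Φ).index : ℕ) : ℝ) := by
        exact_mod_cast Finset.sum_le_sum hVc
    _ = (N : ℝ) ^ (n - ρ) * ∑ Φ ∈ T, ((CL Φ).index : ℝ) := by
        push_cast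
        rw [Finset.mul_sum]
    _ ≤ (N : ℝ) ^ (n - ρ) * (C * (∏ j, X j) ^ n * (∏ j, X j) ^ ε) :=
        mul_le_mul_of_nonneg_left hsum (by positivity)
    _ ≤ (N : ℝ) ^ (n - ρ) * (C * (∏ j, X j) ^ n * (N : ℝ) ^ ε) := by
        refine mul_le_mul_of_nonneg_left (mul_le_mul_of_nonneg_left ?_ ?_) (by positivity)
        · rw [← hPe]
          exact Real.rpow_le_rpow (by linarith) hPN hε.le
        · rw [← hPe]; positivity
    _ = C * (N : ℝ) ^ ((n : ℝ) - ρ + ε) * (∏ j, X j) ^ n := by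
        have h5 : (N : ℝ) ^ ((n : ℝ) - ρ + ε) = (N : ℝ) ^ (n - ρ) * (N : ℝ) ^ ε := by
          rw [Real.rpow_add hNR, ← Real.rpow_natCast (N : ℝ) (n - ρ), Nat.cast_sub hρn]
        rw [h5]
        ring

end Pool.Agent.T2h79.LG.GCV
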