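import Pool.Agent.T2h79.LG.Stm2

/-! # Task HON: the level space of `H1` -/

set_option autoImplicit false

open Matrix

noncomputable section

namespace Pool.Agent.T2h79.LG.HON

open Pool.Agent.T2h77.N Pool.Agent.T2h79.LG

/-- membership in `H1` -/
theorem mem_H1 {n N : ℕ} (h : GN n N) :
    h ∈ H1 n N ↔ (h : Matrix (Fin n) (Fin n) (ZMod N)) *ᵥ e0 n N = e0 n N := Iff.rfl

/-- same coset iff same image of the first basis column -/
theorem coset_iff {n N : ℕ} (a b : GN n N) : a⁻¹ * b ∈ H1 n N ↔
    (a : Matrix (Fin n) (Fin n) (ZMod N)) *ᵥ e0 n N = (b : Matrix (Fin n) (Fin n) (ZMod N)) *ᵥ e0 n N := by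
  rw [mem_H1, Units.val_mul, ← Matrix.mulVec_mulVec]
  constructor
  · intro h
    nth_rw 1 [← h]
    rw [Matrix.mulVec_mulVec, ← Units.val_mul, mul_inv_cancel, Units.val_one, Matrix.one_mulVec]
  · intro h
    rw [← h, Matrix.mulVec_mulVec, ← Units.val_mul, inv_mul_cancel, Units.val_one, Matrix.one_mulVec]

/-- the image of the first basis column -/
def phi (n N : ℕ) : XX (H1 n N) → (Fin n → ZMod N) := fun c =>
  Quotient.liftOn' c (fun g : GN n N => (g : Matrix (Fin n) (Fin n) (ZMod N)) *ᵥ e0 n N) (by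
    intro a b hab
    rw [QuotientGroup.leftRel_apply] at hab
    exact (coset_iff a b).1 hab)

theorem phi_mk {n N : ℕ} (g : GN n N) :
    phi n N (QuotientGroup.mk g) = (g : Matrix (Fin n) (Fin n) (ZMod N)) *ᵥ e0 n N := rfl

theorem phi_inj (n N : ℕ) : Function.Injective (phi n N) := by
  intro c d h
  induction c using QuotientGroup.induction_on with
  | H a =>
    induction d using QuotientGroup.induction_on with
    | H b =>
      rw [phi_mk, phi_mk] at h
      exact QuotientGroup.eq.2 ((coset_iff a b).2 h)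

/-- the lower bound of the index in the special linear group -/
theorem ixS_ge (n N : ℕ) [NeZero N] (hn : 2 ≤ n) : N ≤ ixS (H1 n N) := by
  have hfin' : Finite (Matrix.SpecialLinearGroup (Fin n) (ZMod N)) :=
    Finite.of_injective (fun g => (g : Matrix (Fin n) (Fin n) (ZMod N))) Subtype.val_injective
  set K := (H1 n N).comap (Matrix.SpecialLinearGroup.toGL : Matrix.SpecialLinearGroup (Fin n) (ZMod N) →* GN n N)
    with hK
  have h0 : (⟨1, by omega⟩ : Fin n) ≠ ⟨0, by omega⟩ := by
    intro h
    simpa using congrArg Fin.val h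
  let τ : ZMod N → Matrix.SpecialLinearGroup (Fin n) (ZMod N) := fun t =>
    ⟨Matrix.transvection (⟨1, by omega⟩ : Fin n) ⟨0, by omega⟩ t, Matrix.det_transvection_of_ne _ _ h0 t⟩
  have hτ : ∀ t, (((Matrix.SpecialLinearGroup.toGL (τ t) : GN n N) : Matrix (Fin n) (Fin n) (ZMod N)) *ᵥ e0 n N)
      ⟨1, by omega⟩ = t := by
    intro t
    change ((Matrix.transvection (⟨1, by omega⟩ : Fin n) ⟨0, by omega⟩ t) *ᵥ e0 n N) ⟨1, by omega⟩ = t
    rw [Matrix.transvection, Matrix.add_mulVec, Pi.add_apply, Matrix.one_mulVec]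
    have e1 : e0 n N ⟨1, by omega⟩ = 0 := by simp [e0]
    rw [e1, zero_add]
    simp only [Matrix.mulVec, dotProduct]
    rw [Finset.sum_eq_single (⟨0, by omega⟩ : Fin n)]
    · simp [e0]
    · intro j _ hj
      rw [Matrix.single_apply, if_neg (by intro h; exact hj h.2.symm), zero_mul]
    · intro h
      exact absurd (Finset.mem_univ _) h
  have hinj : Function.Injective fun t : ZMod N =>
      (QuotientGroup.mk (τ t) : Matrix.SpecialLinearGroup (Fin n) (ZMod N) ⧸ K) := by
    intro s t h
    have h1 : (τ s)⁻¹ * τ t ∈ K := QuotientGroup.eq.1 h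
    rw [hK, Subgroup.mem_comap, map_mul, map_inv] at h1
    have h2 := (coset_iff _ _).1 h1
    rw [← hτ s, ← hτ t, h2]
  have h2 := Nat.card_le_card_of_injective _ hinj
  rw [Nat.card_zmod] at h2
  exact h2

/-- The level space of `H1` and its size. -/
theorem t_HON (hsln : S_sln) : S_hon := by
  intro n N _ hn
  have hN : 0 < N := Nat.pos_of_neZero N
  refine ⟨?_, ixS_ge n N hn, ?_, phi n N, phi_inj n N, ?_, ?_⟩
  · have h1 := Nat.card_le_card_of_injective _ (phi_inj n N)
    have h2 : Nat.card (Fin n → ZMod N) = N ^ n := by simp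
    rw [h2] at h1
    exact h1
  · obtain ⟨h1, h2⟩ := hsln n N hn
    refine le_trans ?_ h2
    refine Nat.le_of_dvd (by omega) ?_
    exact Subgroup.index_dvd_of_le (Subgroup.comap_mono bot_le)
  · intro c
    induction c using QuotientGroup.induction_on with
    | H a =>
      refine ⟨e0 n N ᵥ* ((a⁻¹ : GN n N) : Matrix (Fin n) (Fin n) (ZMod N)), ?_⟩
      rw [phi_mk, ← Matrix.dotProduct_mulVec, Matrix.mulVec_mulVec, ← Units.val_mul, inv_mul_cancel, Units.val_one,
        Matrix.one_mulVec]
      simp only [dotProduct, e0]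
      rw [Finset.sum_eq_single (⟨0, by omega⟩ : Fin n)]
      · simp
      · intro j _ hj
        rw [if_neg, zero_mul]
        intro h
        exact hj (Fin.ext h)
      · intro h
        exact absurd (Finset.mem_univ _) h
  · intro h c
    induction c using QuotientGroup.induction_on with
    | H a =>
      rw [phi_mk, Matrix.mulVec_mulVec, ← Units.val_mul, ← phi_mk]
      rfl

end Pool.Agent.T2h79.LG.HON
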