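import Pool.Agent.T2h79.LG.Stm

set_option autoImplicit false

/-!
# Task KNU: the number of the subgroups of given index
-/

open Matrix

namespace Pool.Agent.T2h79.LG.KNU

open Pool.Agent.T2h77.N Pool.Agent.T2h79.LG

/-- the row lattice -/
def rowLat {ρ : ℕ} (B : MZ ρ) : AddSubgroup (Fin ρ → ℤ) where
  carrier := {v | ∃ c : Fin ρ → ℤ, v = c ᵥ* B}
  add_mem' := by
    rintro _ _ ⟨a, rfl⟩ ⟨b, rfl⟩
    exact ⟨a + b, (Matrix.add_vecMul B a b).symm⟩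
  zero_mem' := ⟨0, (zero_vecMul B).symm⟩
  neg_mem' := by
    rintro _ ⟨a, rfl⟩
    exact ⟨-a, (Matrix.neg_vecMul a B).symm⟩

lemma mem_rowLat {ρ : ℕ} (B : MZ ρ) (v : Fin ρ → ℤ) :
    v ∈ rowLat B ↔ ∃ c : Fin ρ → ℤ, v = c ᵥ* B := Iff.rfl

lemma rowLat_mul {ρ : ℕ} (γ : GZ ρ) (r : MZ ρ) : rowLat ((γ : MZ ρ) * r) = rowLat r := by
  ext v
  rw [mem_rowLat, mem_rowLat]
  constructor
  · rintro ⟨c, rfl⟩
    exact ⟨c ᵥ* (γ : MZ ρ), by rw [vecMul_vecMul]⟩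
  · rintro ⟨c, rfl⟩
    obtain ⟨δ, hδ⟩ : ∃ δ : Matrix.SpecialLinearGroup (Fin ρ) ℤ, δ = γ⁻¹ := ⟨_, rfl⟩
    refine ⟨c ᵥ* (δ : Matrix (Fin ρ) (Fin ρ) ℤ), ?_⟩
    have h : (δ : Matrix (Fin ρ) (Fin ρ) ℤ) * (γ : Matrix (Fin ρ) (Fin ρ) ℤ) = 1 := by
      rw [← Matrix.SpecialLinearGroup.coe_mul, hδ, inv_mul_cancel,
        Matrix.SpecialLinearGroup.coe_one]
    rw [vecMul_vecMul, ← Matrix.mul_assoc, h, Matrix.one_mul]

theorem t_KNU (hG : S_repG) (hI : S_idx) : S_knu := by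
  intro ρ hρ ε hε
  obtain ⟨C, hC, h⟩ := hG ρ hρ ε hε
  refine ⟨C, hC, fun d hd => ?_⟩
  obtain ⟨R, hR, hRc⟩ := h d hd
  have hsub : {K : AddSubgroup (Fin ρ → ℤ) | K.index = d} ⊆ rowLat '' (R : Set (MZ ρ)) := by
    intro K hK
    have hK' : K.index = d := hK
    obtain ⟨B, hB1, hB2⟩ := hI ρ K (by rw [hK']; omega)
    rw [hK'] at hB1
    obtain ⟨r, ⟨hr, γ, hγ⟩, -⟩ := hR.2 B hB1
    refine ⟨r, hr, ?_⟩
    rw [← rowLat_mul γ r, ← hγ]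
    ext v
    rw [mem_rowLat, hB2]
  have hfin : (rowLat '' (R : Set (MZ ρ))).Finite := (Finset.finite_toSet R).image _
  refine ⟨hfin.subset hsub, ?_⟩
  have h1 : {K : AddSubgroup (Fin ρ → ℤ) | K.index = d}.ncard ≤ R.card := by
    refine (Set.ncard_le_ncard hsub hfin).trans ?_
    refine (Set.ncard_image_le (Finset.finite_toSet R)).trans ?_
    rw [Set.ncard_coe_finset]
  calc (({K : AddSubgroup (Fin ρ → ℤ) | K.index = d}.ncard : ℕ) : ℝ) ≤ (R.card : ℝ) := by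
        exact_mod_cast h1
    _ ≤ _ := hRc

end Pool.Agent.T2h79.LG.KNU
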