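import Pool.Agent.T2h79.LG.Stm

/-!
# Task SLN: the order of `SL_n(ℤ/N)`
-/

set_option autoImplicit false

open Matrix

namespace Pool.Agent.T2h79.LG.SLN

open Pool.Agent.T2h77.N Pool.Agent.T2h79.LG

theorem index_eq (n N : ℕ) :
    ixS (⊥ : Subgroup (GN n N)) = Nat.card (Matrix.SpecialLinearGroup (Fin n) (ZMod N)) := by
  unfold ixS
  have h1 : (⊥ : Subgroup (GN n N)).comap
      (Matrix.SpecialLinearGroup.toGL : Matrix.SpecialLinearGroup (Fin n) (ZMod N) →* GN n N) = ⊥ := by
    rw [eq_bot_iff]
    intro g hg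
    rw [Subgroup.mem_comap, Subgroup.mem_bot] at hg
    rw [Subgroup.mem_bot]
    apply Subtype.ext
    exact congrArg (fun x : GN n N => (x : Matrix (Fin n) (Fin n) (ZMod N))) hg
  rw [h1, Subgroup.index_bot]

theorem t_SLN : S_sln := by
  intro n N _ hn
  have hN : NeZero N := inferInstance
  rw [index_eq]
  have hfin : Finite (Matrix (Fin n) (Fin n) (ZMod N)) := inferInstance
  have hfin' : Finite (Matrix.SpecialLinearGroup (Fin n) (ZMod N)) :=
    Finite.of_injective (fun g => (g : Matrix (Fin n) (Fin n) (ZMod N))) Subtype.val_injective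
  constructor
  · have h0 : (⟨0, by omega⟩ : Fin n) ≠ ⟨1, by omega⟩ := by
      intro h
      simpa using congrArg Fin.val h
    have h1 : Function.Injective fun t : ZMod N =>
        (⟨Matrix.transvection (⟨0, by omega⟩ : Fin n) ⟨1, by omega⟩ t,
          Matrix.det_transvection_of_ne _ _ h0 t⟩ : Matrix.SpecialLinearGroup (Fin n) (ZMod N)) := by
      intro s t h
      have h2 := congrArg (fun g : Matrix.SpecialLinearGroup (Fin n) (ZMod N) =>
        (g : Matrix (Fin n) (Fin n) (ZMod N)) ⟨0, by omega⟩ ⟨1, by omega⟩) h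
      simpa [Matrix.transvection, Matrix.one_apply_ne h0] using h2
    have h2 := Nat.card_le_card_of_injective _ h1
    rwa [Nat.card_zmod] at h2
  · have h1 := Nat.card_le_card_of_injective
      (fun g : Matrix.SpecialLinearGroup (Fin n) (ZMod N) => (g : Matrix (Fin n) (Fin n) (ZMod N)))
      Subtype.val_injective
    refine h1.trans (le_of_eq ?_)
    show Nat.card (Fin n → Fin n → ZMod N) = _
    rw [Nat.card_fun, Nat.card_fun, Nat.card_zmod, Nat.card_fin, ← pow_mul, pow_two]

end Pool.Agent.T2h79.LG.SLN
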