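import Pool.Agent.T2h79.LG.Stm2

/-! # Task SOL: the number of the solutions of `Φ v = 0` modulo `N` -/

set_option autoImplicit false

open Matrix

noncomputable section

namespace Pool.Agent.T2h79.LG.SOL

open Pool.Agent.T2h77.N Pool.Agent.T2h79.LG

/-- The number of the solutions of `Φ v = 0` modulo `N`. -/
theorem t_SOL : S_sol := by
  intro n ρ N _ Φ hΦ
  let Ψ : Matrix (Fin ρ) (Fin n) (ZMod N) := Φ.map (Int.cast : ℤ → ZMod N)
  let f : (Fin n → ZMod N) →+ (Fin ρ → ZMod N) := (Matrix.toLin' Ψ).toAddMonoidHom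
  have hf : ∀ v, f v = Ψ *ᵥ v := fun v => rfl
  let π : (Fin ρ → ℤ) →+ (Fin ρ → ZMod N) :=
    { toFun := fun c j => (c j : ZMod N)
      map_zero' := by funext j; simp
      map_add' := by intro a b; funext j; simp }
  have hπ : Function.Surjective π := by
    intro c
    refine ⟨fun j => ((c j).val : ℤ), ?_⟩
    funext j
    change (((c j).val : ℤ) : ZMod N) = c j
    rw [Int.cast_natCast, ZMod.natCast_zmod_val]
  have hcomp : ∀ c : Fin n → ℤ, π (Φ *ᵥ c) = Ψ *ᵥ (fun j => (c j : ZMod N)) := by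
    intro c
    funext i
    change (((Φ *ᵥ c) i : ℤ) : ZMod N) = _
    simp only [Matrix.mulVec, dotProduct, Ψ, Matrix.map_apply]
    push_cast
    rfl
  have hmap : (CL Φ).map π = f.range := by
    ext y
    constructor
    · rintro ⟨x, ⟨c, rfl⟩, rfl⟩
      exact ⟨fun j => (c j : ZMod N), (hcomp c).symm⟩
    · rintro ⟨v, rfl⟩
      refine ⟨Φ *ᵥ (fun j => ((v j).val : ℤ)), ⟨fun j => ((v j).val : ℤ), rfl⟩, ?_⟩
      rw [hcomp, hf]
      congr 1
      funext j
      rw [Int.cast_natCast, ZMod.natCast_zmod_val]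
  have h1 : f.range.index ≤ (CL Φ).index := by
    rw [← hmap]
    exact Nat.le_of_dvd (Nat.pos_of_ne_zero hΦ) ((CL Φ).index_map_dvd hπ)
  have h2 : Nat.card f.ker * Nat.card f.range = N ^ n := by
    rw [← AddSubgroup.index_ker, AddSubgroup.card_mul_index]
    simp
  have h3 : Nat.card f.range * f.range.index = N ^ ρ := by
    rw [AddSubgroup.card_mul_index]
    simp
  have h4 : Nat.card {v : Fin n → ZMod N // Φ.map (Int.cast : ℤ → ZMod N) *ᵥ v = 0} = Nat.card f.ker := by
    refine Nat.card_congr (Equiv.subtypeEquivRight fun v => ?_)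
    exact Iff.rfl
  rw [h4, ← h3, ← mul_assoc, h2]
  exact Nat.mul_le_mul_left _ h1

end Pool.Agent.T2h79.LG.SOL
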