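import Pool.Agent.T2h79.LG.Stm
import Pool.Agent.T2h77N.Red
import Pool.Agent.T2h77N.Iw

/-!
# SHO: short independent vectors control the points of the lattice `β⁻¹ ℤ^n` in a cube
-/

set_option autoImplicit false

open MeasureTheory Matrix
open scoped MatrixGroups ENNReal Topology ComplexConjugate

noncomputable section

namespace Pool.Agent.T2h79.LG.SHO

open Pool.Agent.T2h77.N Pool.Agent.T2h79.LG

theorem ratio {n : ℕ} {y : GR n} (hy : y ∈ SG n) (i : ℕ) : ∀ (d : ℕ) (hi : i + d < n),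
    ac y ⟨i, by omega⟩ ≤ 2 ^ d * ac y ⟨i + d, hi⟩ := by
  intro d
  induction d with
  | zero => intro hi; simp
  | succ d ih =>
    intro hi
    have h1 := ih (by omega)
    have h2 := hy.2 ⟨i + d, by omega⟩ ⟨i + (d + 1), hi⟩ rfl
    calc ac y ⟨i, by omega⟩ ≤ 2 ^ d * ac y ⟨i + d, by omega⟩ := h1
      _ ≤ 2 ^ d * (2 * ac y ⟨i + (d + 1), hi⟩) := mul_le_mul_of_nonneg_left h2 (by positivity)
      _ = _ := by ring

theorem ratio' {n : ℕ} {y : GR n} (hy : y ∈ SG n) {i j : Fin n} (h : j ≤ i) : ac y j ≤ 2 ^ n * ac y i := by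
  obtain ⟨i, hi⟩ := i
  obtain ⟨j, hj⟩ := j
  have h' : j ≤ i := h
  obtain ⟨d, rfl⟩ := Nat.exists_eq_add_of_le h'
  refine (ratio hy j d hi).trans ?_
  refine mul_le_mul_of_nonneg_right ?_ (iw_ac_pos y _).le
  exact pow_le_pow_right₀ (by norm_num) (by omega)

theorem norm_row {n : ℕ} {y : GR n} (hy : y ∈ SG n) (i : Fin n) : ‖row y i‖ ≤ (n * 2 ^ n) * ac y i := by
  rw [iw_row y i]
  refine (norm_sum_le _ _).trans ?_
  have h1 : ∀ j ∈ (Finset.univ : Finset (Fin n)), ‖lc y i j • gsv y j‖ ≤ 2 ^ n * ac y i := by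
    intro j _
    rw [norm_smul, Real.norm_eq_abs]
    have h0 : ‖gsv y j‖ = ac y j := rfl
    rw [h0]
    rcases lt_trichotomy j i with h | h | h
    · have h2 := hy.1 i j h
      have h3 : |lc y i j| ≤ 1 := by
        rw [abs_of_nonneg h2.1]; exact h2.2.le
      calc |lc y i j| * ac y j ≤ 1 * ac y j := mul_le_mul_of_nonneg_right h3 (iw_ac_pos y j).le
        _ = ac y j := one_mul _
        _ ≤ _ := ratio' hy h.le
    · subst h
      have h3 : lc y j j = 1 := by simp [lc]
      rw [h3, abs_one, one_mul]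
      exact ratio' hy le_rfl
    · have h3 : lc y i j = 0 := by
        simp [lc, h.ne, not_lt.mpr h.le]
      rw [h3, abs_zero, zero_mul]
      have := (iw_ac_pos y i).le
      positivity
  refine (Finset.sum_le_sum h1).trans (le_of_eq ?_)
  rw [Finset.sum_const, Finset.card_univ, Fintype.card_fin, nsmul_eq_mul]
  ring

theorem count {n : ℕ} {S : Type} (c : S → Fin n → ℤ) (hc : Function.Injective c) (l : Fin n → Fin n → ℝ)
    (ρ : Fin n → ℝ) (hρ : ∀ j, 0 ≤ ρ j)
    (h : ∀ s j, |(c s j : ℝ) + ∑ i, (if j < i then (c s i : ℝ) * l i j else 0)| ≤ ρ j) :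
    (Nat.card S : ℝ) ≤ ∏ j, (1 + 2 * ρ j) := by
  classical
  let T : (Fin n → ℤ) → Fin n → ℝ := fun v j => ∑ i, (if j < i then (v i : ℝ) * l i j else 0)
  let a : (Fin n → ℤ) → Fin n → ℤ := fun v j => ⌈-T v j - ρ j⌉
  have hlow : ∀ s j, a (c s) j ≤ c s j := by
    intro s j
    have h1 := (abs_le.1 (h s j)).1
    refine Int.ceil_le.2 ?_
    show -T (c s) j - ρ j ≤ c s j
    simp only [T]
    linarith
  have hup : ∀ s j, ((c s j - a (c s) j : ℤ) : ℝ) ≤ 2 * ρ j := by
    intro s j
    have h1 := (abs_le.1 (h s j)).2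
    have h2 : -T (c s) j - ρ j ≤ a (c s) j := Int.le_ceil _
    simp only [T] at h2
    push_cast
    linarith
  let f : S → (j : Fin n) → Fin (⌊2 * ρ j⌋₊ + 1) := fun s j => ⟨(c s j - a (c s) j).toNat, by
    have h0 : 0 ≤ c s j - a (c s) j := sub_nonneg.2 (hlow s j)
    have h1 : ((c s j - a (c s) j).toNat : ℝ) ≤ 2 * ρ j := by
      have h2 : (((c s j - a (c s) j).toNat : ℤ) : ℝ) = ((c s j - a (c s) j : ℤ) : ℝ) := by
        rw [Int.toNat_of_nonneg h0]
      have h3 : ((c s j - a (c s) j).toNat : ℝ) = ((c s j - a (c s) j : ℤ) : ℝ) := by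
        rw [← h2]; push_cast; rfl
      rw [h3]
      exact hup s j
    exact Nat.lt_succ_of_le (Nat.le_floor h1)⟩
  have hf : Function.Injective f := by
    intro s s' hs
    apply hc
    have key : ∀ j : Fin n, c s j = c s' j := by
      intro j
      induction j using WellFoundedGT.induction with
      | _ j ih =>
        have h1 : T (c s) j = T (c s') j := by
          refine Finset.sum_congr rfl fun i _ => ?_
          split_ifs with hji
          · rw [ih i hji]
          · rfl
        have h2 : a (c s) j = a (c s') j := by simp only [a, h1]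
        have h3 := congrArg Fin.val (congrFun hs j)
        simp only [f] at h3
        have h4 : (c s j - a (c s) j) = (c s' j - a (c s') j) := by
          have e1 := Int.toNat_of_nonneg (sub_nonneg.2 (hlow s j))
          have e2 := Int.toNat_of_nonneg (sub_nonneg.2 (hlow s' j))
          rw [← e1, ← e2, h3]
        rw [h2] at h4
        linarith
    exact funext key
  have h1 := Nat.card_le_card_of_injective f hf
  have h2 : Nat.card ((j : Fin n) → Fin (⌊2 * ρ j⌋₊ + 1)) = ∏ j, (⌊2 * ρ j⌋₊ + 1) := by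
    rw [Nat.card_pi]
    simp
  rw [h2] at h1
  have h3 : (Nat.card S : ℝ) ≤ ((∏ j, (⌊2 * ρ j⌋₊ + 1) : ℕ) : ℝ) := by exact_mod_cast h1
  refine h3.trans ?_
  push_cast
  refine Finset.prod_le_prod (fun j _ => by positivity) fun j _ => ?_
  have := Nat.floor_le (by have := hρ j; positivity : 0 ≤ 2 * ρ j)
  linarith


theorem inner_gsv_row {n : ℕ} (y : GR n) (i j : Fin n) :
    inner ℝ (gsv y j) (row y i) = lc y i j * ac y j ^ 2 := by
  rw [iw_row y i, inner_sum, Finset.sum_eq_single j]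
  · rw [inner_smul_right, real_inner_self_eq_norm_sq]
    rfl
  · intro l _ hl
    rw [inner_smul_right, iw_orth y hl.symm, mul_zero]
  · simp

theorem t_SHO : S_sho := by
  intro n hn
  set K : ℝ := n * 2 ^ n with hKdef
  have hn1 : (1 : ℝ) ≤ n := by exact_mod_cast hn
  have hK1 : 1 ≤ K := by
    have : (1 : ℝ) ≤ 2 ^ n := one_le_pow₀ (by norm_num)
    nlinarith
  set Q : ℝ := 1 + 2 * Real.sqrt n with hQdef
  have hQ1 : 1 ≤ Q := by
    have := Real.sqrt_nonneg (n : ℝ)
    linarith
  refine ⟨Q ^ n * K ^ n, ?_, fun β r hβ hr => ?_⟩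
  · exact one_le_mul_of_one_le_of_one_le (one_le_pow₀ hQ1) (one_le_pow₀ hK1)
  have hm : (0 : ℝ) < β.det := by exact_mod_cast hβ
  -- the scaling
  obtain ⟨s, hs, hsn⟩ : ∃ s : ℝ, 0 < s ∧ s ^ n = β.det := by
    refine ⟨(β.det : ℝ) ^ (1 / (n : ℝ)), Real.rpow_pos_of_pos hm _, ?_⟩
    rw [one_div]
    exact Real.rpow_inv_natCast_pow hm.le (by omega)
  have hadj : (β.adjugate.map (Int.cast : ℤ → ℝ)).det = (β.det : ℝ) ^ (n - 1) := by
    have h1 : (β.adjugate.map (Int.cast : ℤ → ℝ)).det = ((β.adjugate.det : ℤ) : ℝ) := by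
      rw [Int.cast_det]
    rw [h1, Matrix.det_adjugate, Fintype.card_fin]
    push_cast
    rfl
  have hdet : ((s / β.det) • (β.adjugate.map (Int.cast : ℤ → ℝ))ᵀ).det = 1 := by
    rw [Matrix.det_smul, Matrix.det_transpose, hadj, Fintype.card_fin, div_pow, hsn]
    have h1 : (β.det : ℝ) ^ n = (β.det : ℝ) * (β.det : ℝ) ^ (n - 1) := by
      rw [← pow_succ']
      congr 1
      omega
    rw [h1]
    field_simp
  let x : GR n := ⟨_, hdet⟩
  obtain ⟨γ, hγ⟩ := red' n x
  set y : GR n := io n γ * x with hy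
  have hyval : ∀ i l, y.1 i l = ∑ k, ((γ.1 i k : ℤ) : ℝ) * ((s / β.det) * ((β.adjugate l k : ℤ) : ℝ)) := by
    intro i l
    rw [hy]
    show ((io n γ).1 * x.1) i l = _
    rw [Matrix.mul_apply]
    rfl
  -- rows of `y` as vectors of the lattice
  have hrow : ∀ (c : Fin n → ℤ) (l : Fin n), ∑ i, (c i : ℝ) * y.1 i l =
      (s / β.det) * (((β.adjugate *ᵥ (c ᵥ* γ.1)) l : ℤ) : ℝ) := by
    intro c l
    simp only [hyval, Matrix.mulVec, dotProduct, Matrix.vecMul]
    push_cast
    rw [Finset.mul_sum]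
    simp_rw [Finset.mul_sum]
    rw [Finset.sum_comm]
    refine Finset.sum_congr rfl fun k _ => Finset.sum_congr rfl fun i _ => ?_
    ring
  -- the counting
  have hac : ∀ j, 0 < ac y j := iw_ac_pos y
  let S : Type := {w : Fin n → ℤ // ∀ i, |(((β.adjugate *ᵥ w) i : ℤ) : ℝ)| ≤ (β.det : ℝ) * r}
  let c : S → Fin n → ℤ := fun w => w.1 ᵥ* (γ⁻¹).1
  have hcw : ∀ w : S, c w ᵥ* γ.1 = w.1 := by
    intro w
    show (w.1 ᵥ* (γ⁻¹).1) ᵥ* γ.1 = w.1
    rw [Matrix.vecMul_vecMul]
    have : (γ⁻¹).1 * γ.1 = 1 := by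
      have h1 : (γ⁻¹ * γ : GZ n).1 = 1 := by rw [inv_mul_cancel]; rfl
      exact h1
    rw [this, Matrix.vecMul_one]
  have hc : Function.Injective c := by
    intro w w' h
    apply Subtype.ext
    rw [← hcw w, ← hcw w', h]
  have hcount : (av β r : ℝ) ≤ ∏ j, (1 + 2 * (Real.sqrt n * r * s / ac y j)) := by
    refine count c hc (lc y) (fun j => Real.sqrt n * r * s / ac y j) (fun j => by
      have := (hac j); positivity) fun w j => ?_
    -- the vector
    let v : EuclideanSpace ℝ (Fin n) := ∑ i, (c w i : ℝ) • row y i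
    have hv : ∀ l, v l = (s / β.det) * (((β.adjugate *ᵥ w.1) l : ℤ) : ℝ) := by
      intro l
      have h1 : v l = ∑ i, (c w i : ℝ) * y.1 i l := by
        simp only [v]
        rw [WithLp.ofLp_sum, Finset.sum_apply]
        rfl
      rw [h1, hrow, hcw]
    have hvl : ∀ l, |v l| ≤ s * r := by
      intro l
      rw [hv l, abs_mul, abs_of_pos (div_pos hs hm)]
      calc s / (β.det : ℝ) * |(((β.adjugate *ᵥ w.1) l : ℤ) : ℝ)| ≤ s / β.det * (β.det * r) :=
            mul_le_mul_of_nonneg_left (w.2 l) (div_pos hs hm).le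
        _ = s * r := by field_simp
    have hnv : ‖v‖ ≤ Real.sqrt n * r * s := by
      rw [EuclideanSpace.norm_eq]
      have h1 : ∑ i, ‖v i‖ ^ 2 ≤ n * (s * r) ^ 2 := by
        calc ∑ i, ‖v i‖ ^ 2 ≤ ∑ _i : Fin n, (s * r) ^ 2 := by
              refine Finset.sum_le_sum fun i _ => ?_
              rw [Real.norm_eq_abs]
              exact pow_le_pow_left₀ (abs_nonneg _) (hvl i) 2
          _ = n * (s * r) ^ 2 := by simp
      calc Real.sqrt (∑ i, ‖v i‖ ^ 2) ≤ Real.sqrt (n * (s * r) ^ 2) := Real.sqrt_le_sqrt h1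
        _ = Real.sqrt n * (s * r) := by
            rw [Real.sqrt_mul (by positivity), Real.sqrt_sq (by positivity)]
        _ = _ := by ring
    have hin : inner ℝ (gsv y j) v =
        ((c w j : ℝ) + ∑ i, (if j < i then (c w i : ℝ) * lc y i j else 0)) * ac y j ^ 2 := by
      simp only [v]
      rw [inner_sum]
      have h1 : ∀ i, inner ℝ (gsv y j) ((c w i : ℝ) • row y i) =
          ((if i = j then (c w j : ℝ) else 0) + (if j < i then (c w i : ℝ) * lc y i j else 0)) * ac y j ^ 2 := by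
        intro i
        rw [inner_smul_right, inner_gsv_row]
        rcases lt_trichotomy i j with h | h | h
        · have h3 : lc y i j = 0 := by simp [lc, h.ne, not_lt.mpr h.le]
          simp [h3, h.ne, not_lt.mpr h.le]
        · subst h
          have h3 : lc y i i = 1 := by simp [lc]
          simp [h3]
        · simp [h.ne', h]
          ring
      rw [Finset.sum_congr rfl fun i _ => h1 i, ← Finset.sum_mul, Finset.sum_add_distrib]
      simp
    have h2 := abs_real_inner_le_norm (gsv y j) v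
    rw [hin, abs_mul, abs_of_pos (pow_pos (hac j) 2)] at h2
    have h3 : ‖gsv y j‖ = ac y j := rfl
    rw [h3] at h2
    rw [le_div_iff₀ (hac j)]
    have h4 : |(c w j : ℝ) + ∑ i, (if j < i then (c w i : ℝ) * lc y i j else 0)| * ac y j ≤ ‖v‖ := by
      have h5 := hac j
      have h6 : ac y j * (|(c w j : ℝ) + ∑ i, (if j < i then (c w i : ℝ) * lc y i j else 0)| * ac y j) ≤
          ac y j * ‖v‖ := by
        calc _ = |(c w j : ℝ) + ∑ i, (if j < i then (c w i : ℝ) * lc y i j else 0)| * ac y j ^ 2 := by ring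
          _ ≤ _ := h2
      exact le_of_mul_le_mul_left h6 h5
    exact h4.trans hnv
  -- the short vectors
  classical
  let I : Finset (Fin n) := Finset.univ.filter fun i => ac y i / s ≤ r
  let e := I.equivFin
  let ι : Fin I.card → Fin n := fun j => (e.symm j : Fin n)
  have hιI : ∀ j, ac y (ι j) / s ≤ r := fun j => (Finset.mem_filter.1 (e.symm j).2).2
  have hιinj : Function.Injective ι := fun a b h => e.symm.injective (Subtype.ext h)
  let q : Matrix (Fin n) (Fin I.card) ℚ := fun i j => ((β.adjugate *ᵥ (γ.1 (ι j))) i : ℚ) / (β.det : ℚ)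
  have hqR : ∀ i j, ((q i j : ℚ) : ℝ) = y.1 (ι j) i / s := by
    intro i j
    have h1 := hrow (Pi.single (ι j) 1) i
    rw [Finset.sum_eq_single (ι j)] at h1
    · rw [Pi.single_eq_same, Int.cast_one, one_mul, Matrix.single_one_vecMul] at h1
      simp only [q]
      rw [Rat.cast_div, Rat.cast_intCast, Rat.cast_intCast, h1]
      have : (γ.1.row (ι j)) = γ.1 (ι j) := rfl
      rw [this]
      field_simp
    · intro b _ hb
      rw [Pi.single_eq_of_ne hb]
      simp
    · simp
  have hex : ∀ j : Fin I.card, ∃ i : Fin n, ∀ i', |((q i' j : ℚ) : ℝ)| ≤ |((q i j : ℚ) : ℝ)| := by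
    intro j
    obtain ⟨i, -, hi⟩ := Finset.exists_max_image (Finset.univ : Finset (Fin n))
      (fun i => |((q i j : ℚ) : ℝ)|) ⟨⟨0, by omega⟩, Finset.mem_univ _⟩
    exact ⟨i, fun i' => hi i' (Finset.mem_univ _)⟩
  choose i₀ hi₀ using hex
  have hzpos : ∀ j, 0 < |((q (i₀ j) j : ℚ) : ℝ)| := by
    intro j
    by_contra hcon
    have h0 : |((q (i₀ j) j : ℚ) : ℝ)| = 0 := le_antisymm (not_lt.1 hcon) (abs_nonneg _)
    have h1 : row y (ι j) = 0 := by
      ext l
      have h2 := hi₀ j l
      rw [h0, hqR] at h2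
      have h3 : y.1 (ι j) l / s = 0 := abs_eq_zero.1 (le_antisymm h2 (abs_nonneg _))
      rw [div_eq_zero_iff] at h3
      rw [iw_row_apply]
      rcases h3 with h3 | h3
      · rw [h3]; rfl
      · exact absurd h3 hs.ne'
    exact (iw_linInd y).ne_zero _ h1
  have hzK : ∀ j, |((q (i₀ j) j : ℚ) : ℝ)| ≤ K * (ac y (ι j) / s) := by
    intro j
    rw [hqR, abs_div, abs_of_pos hs]
    have h1 : |y.1 (ι j) (i₀ j)| ≤ ‖row y (ι j)‖ := by
      have := PiLp.norm_apply_le (row y (ι j)) (i₀ j)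
      rwa [Real.norm_eq_abs] at this
    have h2 := h1.trans (norm_row hγ (ι j))
    calc |y.1 (ι j) (i₀ j)| / s ≤ (K * ac y (ι j)) / s := by gcongr
      _ = _ := by ring
  refine ⟨I.card, q, fun j => |((q (i₀ j) j : ℚ) : ℝ)|, ?_, ?_, ?_, ?_, ?_⟩
  · calc I.card ≤ (Finset.univ : Finset (Fin n)).card := Finset.card_le_card (Finset.subset_univ _)
      _ = n := by simp
  · -- linear independence
    have hβQ : (β.map (Int.cast : ℤ → ℚ)) * (β.adjugate.map (Int.cast : ℤ → ℚ)) = (β.det : ℚ) • 1 := by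
      have h1 := congrArg (fun M : MZ n => M.map (Int.castRingHom ℚ)) (Matrix.mul_adjugate β)
      simp only [Matrix.map_mul] at h1
      have h2 : ((β.det • (1 : MZ n)).map (Int.castRingHom ℚ)) = (β.det : ℚ) • 1 := by
        ext a b
        simp only [Matrix.map_apply, Matrix.smul_apply, Matrix.one_apply, smul_eq_mul]
        split_ifs <;> simp
      rw [h2] at h1
      exact h1
    have hLI : LinearIndependent ℚ ((γ.1.map (Int.cast : ℤ → ℚ)).row ∘ ι) := by
      have h1 : (γ.1.map (Int.cast : ℤ → ℚ)).det = ((γ.1.det : ℤ) : ℚ) := by rw [Int.cast_det]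
      have h2 : (γ.1.map (Int.cast : ℤ → ℚ)).det ≠ 0 := by
        rw [h1, γ.2]
        simp
      exact LinearIndependent.comp (Matrix.linearIndependent_rows_of_det_ne_zero h2) ι hιinj
    refine LinearIndependent.of_comp (Matrix.mulVecLin (β.map (Int.cast : ℤ → ℚ))) ?_
    have h2 : (⇑(Matrix.mulVecLin (β.map (Int.cast : ℤ → ℚ))) ∘ fun j => fun i => q i j) =
        (γ.1.map (Int.cast : ℤ → ℚ)).row ∘ ι := by
      funext j
      simp only [Function.comp_apply, Matrix.mulVecLin_apply]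
      have h3 : (fun i => q i j) = (β.det : ℚ)⁻¹ • ((β.adjugate.map (Int.cast : ℤ → ℚ)) *ᵥ
          ((γ.1.map (Int.cast : ℤ → ℚ)).row (ι j))) := by
        funext i
        simp only [q, Pi.smul_apply, smul_eq_mul]
        rw [div_eq_inv_mul]
        congr 1
        simp only [Matrix.mulVec, dotProduct]
        push_cast
        rfl
      rw [h3, Matrix.mulVec_smul, Matrix.mulVec_mulVec, hβQ, Matrix.smul_mulVec, Matrix.one_mulVec, smul_smul,
        inv_mul_cancel₀ (by exact_mod_cast hβ.ne'), one_smul]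
    rw [h2]
    exact hLI
  · -- integrality
    intro i j
    refine ⟨γ.1 (ι j) i, ?_⟩
    have h1 : ∑ k, (β i k : ℤ) * ((β.adjugate *ᵥ (γ.1 (ι j))) k) = β.det * γ.1 (ι j) i := by
      have h2 : β *ᵥ (β.adjugate *ᵥ (γ.1 (ι j))) = β.det • γ.1 (ι j) := by
        rw [Matrix.mulVec_mulVec, Matrix.mul_adjugate, Matrix.smul_mulVec, Matrix.one_mulVec]
      have h3 := congrFun h2 i
      simpa [Matrix.mulVec, dotProduct] using h3
    have hd : (β.det : ℚ) ≠ 0 := by exact_mod_cast hβ.ne'
    have h4 : ∑ k, (β i k : ℚ) * q k j = (∑ k, (β i k : ℚ) * ((β.adjugate *ᵥ (γ.1 (ι j))) k : ℚ)) / (β.det : ℚ) := by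
      rw [Finset.sum_div]
      refine Finset.sum_congr rfl fun k _ => ?_
      simp only [q]
      ring
    rw [h4, div_eq_iff hd]
    have h5 : ((∑ k, (β i k : ℤ) * ((β.adjugate *ᵥ (γ.1 (ι j))) k) : ℤ) : ℚ) = ((β.det * γ.1 (ι j) i : ℤ) : ℚ) := by
      rw [h1]
    rw [Int.cast_sum] at h5
    simp only [Int.cast_mul] at h5
    rw [h5]
    ring
  · intro j
    refine ⟨hzpos j, ?_, hi₀ j, i₀ j, rfl⟩
    have h1 := hzK j
    have h2 : K * (ac y (ι j) / s) ≤ K * r := mul_le_mul_of_nonneg_left (hιI j) (by linarith)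
    have h3 : K ≤ Q ^ n * K ^ n := by
      calc K = 1 * K ^ 1 := by ring
        _ ≤ Q ^ n * K ^ n := by
          refine mul_le_mul (one_le_pow₀ hQ1) (pow_le_pow_right₀ hK1 hn) (by positivity) (by positivity)
    calc _ ≤ K * r := h1.trans h2
      _ ≤ _ := mul_le_mul_of_nonneg_right h3 hr.le
  · -- the bound
    have hKpos : 0 < K := by linarith
    have hQpos : 0 < Q := by linarith
    refine hcount.trans ?_
    have h1 : ∏ j, (1 + 2 * (Real.sqrt n * r * s / ac y j)) ≤
        ∏ j : Fin n, (Q * (if j ∈ I then r / (ac y j / s) else 1)) := by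
      refine Finset.prod_le_prod (fun j _ => ?_) fun j _ => ?_
      · have := hac j
        positivity
      · have ha := hac j
        have has : 0 < ac y j / s := div_pos ha hs
        have e1 : Real.sqrt n * r * s / ac y j = Real.sqrt n * (r / (ac y j / s)) := by
          field_simp
        rw [e1]
        have hsq := Real.sqrt_nonneg (n : ℝ)
        split_ifs with hj
        · have h2 : ac y j / s ≤ r := (Finset.mem_filter.1 hj).2
          have h3 : 1 ≤ r / (ac y j / s) := (one_le_div has).2 h2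
          rw [hQdef]
          nlinarith
        · have h2 : r < ac y j / s := by
            by_contra hcon
            exact hj (Finset.mem_filter.2 ⟨Finset.mem_univ _, not_lt.1 hcon⟩)
          have h3 : r / (ac y j / s) ≤ 1 := (div_le_one has).2 h2.le
          rw [hQdef]
          nlinarith
    refine h1.trans ?_
    rw [Finset.prod_mul_distrib, Finset.prod_const, Finset.card_univ, Fintype.card_fin]
    have h2 : ∏ j : Fin n, (if j ∈ I then r / (ac y j / s) else 1) = ∏ j : Fin I.card, r / (ac y (ι j) / s) := by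
      rw [Finset.prod_ite_mem, Finset.univ_inter]
      rw [← Finset.prod_coe_sort I (fun j => r / (ac y j / s))]
      exact (Equiv.prod_comp e.symm (fun i : I => r / (ac y (i : Fin n) / s))).symm
    rw [h2]
    have h3 : ∏ j : Fin I.card, r / (ac y (ι j) / s) ≤ ∏ j : Fin I.card, (K * (r / |((q (i₀ j) j : ℚ) : ℝ)|)) := by
      refine Finset.prod_le_prod (fun j _ => ?_) fun j _ => ?_
      · have := hac (ι j)
        positivity
      · have has : 0 < ac y (ι j) / s := div_pos (hac _) hs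
        have hz := hzpos j
        have h4 := hzK j
        rw [div_le_iff₀ has]
        calc r = r / |((q (i₀ j) j : ℚ) : ℝ)| * |((q (i₀ j) j : ℚ) : ℝ)| := by field_simp
          _ ≤ r / |((q (i₀ j) j : ℚ) : ℝ)| * (K * (ac y (ι j) / s)) :=
              mul_le_mul_of_nonneg_left h4 (by positivity)
          _ = _ := by ring
    have h5 : (I.card : ℕ) ≤ n := by
      calc I.card ≤ (Finset.univ : Finset (Fin n)).card := Finset.card_le_card (Finset.subset_univ _)
        _ = n := by simp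
    have hP : 0 ≤ ∏ j : Fin I.card, (r / |((q (i₀ j) j : ℚ) : ℝ)|) :=
      Finset.prod_nonneg fun j _ => by positivity
    calc Q ^ n * ∏ j : Fin I.card, r / (ac y (ι j) / s)
        ≤ Q ^ n * ∏ j : Fin I.card, (K * (r / |((q (i₀ j) j : ℚ) : ℝ)|)) :=
          mul_le_mul_of_nonneg_left h3 (by positivity)
      _ = Q ^ n * (K ^ I.card * ∏ j : Fin I.card, (r / |((q (i₀ j) j : ℚ) : ℝ)|)) := by
          rw [Finset.prod_mul_distrib, Finset.prod_const, Finset.card_univ, Fintype.card_fin]
      _ ≤ Q ^ n * (K ^ n * ∏ j : Fin I.card, (r / |((q (i₀ j) j : ℚ) : ℝ)|)) :=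
          mul_le_mul_of_nonneg_left (mul_le_mul_of_nonneg_right (pow_le_pow_right₀ hK1 h5) hP) (by positivity)
      _ = _ := by ring

end Pool.Agent.T2h79.LG.SHO
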