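import Pool.Agent.T2h79.LG.Stm2
import Pool.Agent.T2h79.LG.T_SHO

/-!
# STR: the structure of the integral matrices `W` with `β⁻¹ W` small
-/

set_option autoImplicit false

open MeasureTheory Matrix
open scoped MatrixGroups ENNReal Topology ComplexConjugate

noncomputable section

namespace Pool.Agent.T2h79.LG.STR

open Pool.Agent.T2h77.N Pool.Agent.T2h79.LG

/-- The Smith form: the saturation `P ℤ^ρ` of the column lattice of `W`, with its complement. -/
theorem snf {n : ℕ} (W : MZ n) : ∃ (ρ : ℕ) (P : Matrix (Fin n) (Fin ρ) ℤ) (A : Matrix (Fin ρ) (Fin n) ℤ)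
    (U : Matrix (Fin n) (Fin ρ) ℤ) (a : Fin ρ → ℤ), ρ ≤ n ∧ A * P = 1 ∧ P * (A * W) = W ∧ (∀ j, a j ≠ 0) ∧
      W * U = P * Matrix.diagonal a := by
  classical
  set N : Submodule ℤ (Fin n → ℤ) := LinearMap.range (Matrix.toLin' W) with hN
  obtain ⟨ρ, S⟩ := Submodule.smithNormalForm (Pi.basisFun ℤ (Fin n)) N
  have hmem : ∀ i, S.a i • S.bM (S.f i) ∈ N := fun i => by rw [← S.snf i]; exact (S.bN i).2
  have hU : ∀ j : Fin ρ, ∃ u : Fin n → ℤ, W *ᵥ u = S.a j • S.bM (S.f j) := by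
    intro j
    have h1 : S.a j • S.bM (S.f j) ∈ LinearMap.range (Matrix.toLin' W) := hmem j
    obtain ⟨u, hu⟩ := LinearMap.mem_range.1 h1
    exact ⟨u, by rw [← Matrix.toLin'_apply, hu]⟩
  choose u hu using hU
  let P : Matrix (Fin n) (Fin ρ) ℤ := Matrix.of fun i j => S.bM (S.f j) i
  let A : Matrix (Fin ρ) (Fin n) ℤ := Matrix.of fun j i => S.bM.repr (Pi.single i 1) (S.f j)
  have hAv : ∀ v : Fin n → ℤ, ∀ j, (A *ᵥ v) j = S.bM.repr v (S.f j) := by
    intro v j
    conv_rhs => rw [pi_eq_sum_univ' v, map_sum, Finsupp.finsetSum_apply]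
    simp only [Matrix.mulVec, dotProduct, A, Matrix.of_apply]
    refine Finset.sum_congr rfl fun i _ => ?_
    rw [map_smul, Finsupp.smul_apply, smul_eq_mul, mul_comm]
  have hAP : A * P = 1 := by
    ext j k
    have h1 : (A * P) j k = (A *ᵥ (S.bM (S.f k))) j := rfl
    rw [h1, hAv, Module.Basis.repr_self, Finsupp.single_apply, Matrix.one_apply]
    by_cases h : j = k
    · simp [h]
    · have h' : S.f k ≠ S.f j := fun hh => h (S.f.injective hh).symm
      simp [h, h']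
  have hC : ∃ C : Matrix (Fin ρ) (Fin n) ℤ, W = P * C := by
    have h1 : ∀ k : Fin n, ∃ c : Fin ρ → ℤ, (fun i => W i k) = P *ᵥ c := by
      intro k
      have hk : (fun i => W i k) ∈ N := by
        rw [hN, LinearMap.mem_range]
        refine ⟨Pi.single k 1, ?_⟩
        rw [Matrix.toLin'_apply]
        ext i
        simp
      refine ⟨fun j => S.bN.repr ⟨_, hk⟩ j * S.a j, ?_⟩
      have h2 := S.bN.sum_repr ⟨_, hk⟩
      have h3 := congrArg (Subtype.val : N → (Fin n → ℤ)) h2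
      simp only [Submodule.coe_sum, Submodule.coe_smul, S.snf] at h3
      refine h3.symm.trans ?_
      ext i
      simp only [Finset.sum_apply, Pi.smul_apply, smul_eq_mul, Matrix.mulVec, dotProduct, P, Matrix.of_apply]
      refine Finset.sum_congr rfl fun j _ => ?_
      ring
    choose c hc using h1
    refine ⟨Matrix.of fun j k => c k j, ?_⟩
    ext i k
    have := congrFun (hc k) i
    simpa [Matrix.mul_apply, Matrix.mulVec, dotProduct] using this
  obtain ⟨C, hC⟩ := hC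
  refine ⟨ρ, P, A, Matrix.of fun i j => u j i, S.a, ?_, hAP, ?_, ?_, ?_⟩
  · simpa using Fintype.card_le_of_embedding S.f
  · conv_lhs => rw [hC]
    rw [← Matrix.mul_assoc A, hAP, Matrix.one_mul, ← hC]
  · intro j hj
    have h1 := S.snf j
    rw [hj, zero_smul] at h1
    exact S.bN.ne_zero j (Subtype.ext h1)
  · ext i j
    rw [Matrix.mul_diagonal]
    have := congrFun (hu j) i
    simp only [Matrix.mulVec, dotProduct, Pi.smul_apply, smul_eq_mul] at this
    rw [Matrix.mul_apply]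
    simp only [Matrix.of_apply, P]
    rw [this, mul_comm]

section
open scoped MatrixOrder

theorem psd {ρ : ℕ} {A : Matrix (Fin ρ) (Fin ρ) ℝ} (hA : A.PosSemidef) : ∃ B : Matrix (Fin ρ) (Fin ρ) ℝ, A = Bᴴ * B := by
  obtain ⟨B, hB⟩ := CStarAlgebra.nonneg_iff_eq_star_mul_self.mp hA.nonneg
  exact ⟨B, hB⟩

end

/-- A square matrix with a given Gram matrix. -/
theorem gram {n ρ : ℕ} (hρ : 1 ≤ ρ) (B : Matrix (Fin n) (Fin ρ) ℝ) (hB : Function.Injective B.mulVec) :
    ∃ x : Matrix (Fin ρ) (Fin ρ) ℝ, x * xᵀ = Bᵀ * B ∧ 0 < x.det := by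
  classical
  have hpd : (Bᴴ * B).PosDef := Matrix.PosDef.conjTranspose_mul_self B hB
  have hct : Bᴴ = Bᵀ := by ext i j; simp
  rw [hct] at hpd
  obtain ⟨Y, hY⟩ := psd hpd.posSemidef
  have hct' : Yᴴ = Yᵀ := by ext i j; simp
  rw [hct'] at hY
  have h1 : Yᵀ * (Yᵀ)ᵀ = Bᵀ * B := by rw [Matrix.transpose_transpose, hY]
  have h2 : (Yᵀ).det ≠ 0 := by
    intro h0
    have h3 := hpd.det_pos
    rw [← h1, Matrix.det_mul, h0, zero_mul] at h3
    exact lt_irrefl _ h3
  rcases lt_or_gt_of_ne h2 with h | h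
  · let d : Fin ρ → ℝ := Function.update 1 (⟨0, hρ⟩ : Fin ρ) (-1)
    have hd : Matrix.diagonal d * (Matrix.diagonal d)ᵀ = 1 := by
      rw [Matrix.diagonal_transpose, Matrix.diagonal_mul_diagonal]
      rw [← Matrix.diagonal_one]
      congr 1
      funext j
      by_cases hj : j = ⟨0, hρ⟩
      · simp [d, hj]
      · simp [d, hj]
    have hdd : (Matrix.diagonal d).det = -1 := by
      rw [Matrix.det_diagonal, Finset.prod_update_of_mem (Finset.mem_univ _)]
      simp
    refine ⟨Yᵀ * Matrix.diagonal d, ?_, ?_⟩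
    · rw [Matrix.transpose_mul, Matrix.mul_assoc, ← Matrix.mul_assoc (Matrix.diagonal d), hd, Matrix.one_mul, h1]
    · rw [Matrix.det_mul, hdd]
      linarith
  · exact ⟨Yᵀ, h1, h⟩

theorem norm_comb {ρ : ℕ} (y : GR ρ) (c : Fin ρ → ℝ) :
    ‖∑ j, c j • row y j‖ ^ 2 = (c ᵥ* y.1) ⬝ᵥ (c ᵥ* y.1) := by
  rw [EuclideanSpace.real_norm_sq_eq]
  simp only [dotProduct]
  refine Finset.sum_congr rfl fun l _ => ?_
  have h1 : (∑ j, c j • row y j) l = (c ᵥ* y.1) l := by
    rw [WithLp.ofLp_sum, Finset.sum_apply]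
    rfl
  rw [h1, pow_two]

/-- The coefficients of a vector with respect to a reduced basis. -/
theorem coef {ρ : ℕ} {y : GR ρ} (hy : y ∈ SG ρ) (c : Fin ρ → ℝ) (j : Fin ρ) :
    |c j| ≤ (1 + ρ * 2 ^ ρ) ^ (ρ - (j : ℕ)) * (‖∑ i, c i • row y i‖ / ac y j) := by
  set v : EuclideanSpace ℝ (Fin ρ) := ∑ i, c i • row y i with hv
  have hac : ∀ j, 0 < ac y j := iw_ac_pos y
  have hD1 : (1 : ℝ) ≤ 1 + ρ * 2 ^ ρ := by
    have : (0 : ℝ) ≤ ρ * 2 ^ ρ := by positivity
    linarith
  induction j using WellFoundedGT.induction with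
  | _ j ih =>
    have hin : inner ℝ (gsv y j) v =
        (c j + ∑ i, (if j < i then c i * lc y i j else 0)) * ac y j ^ 2 := by
      rw [hv, inner_sum]
      have h1 : ∀ i, inner ℝ (gsv y j) (c i • row y i) =
          ((if i = j then c j else 0) + (if j < i then c i * lc y i j else 0)) * ac y j ^ 2 := by
        intro i
        rw [inner_smul_right, SHO.inner_gsv_row]
        rcases lt_trichotomy i j with h | h | h
        · have h3 : lc y i j = 0 := by simp [lc, h.ne, not_lt.mpr h.le]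
          simp [h3, h.ne, not_lt.mpr h.le]
        · subst h
          have h3 : lc y i i = 1 := by simp [lc]
          simp [h3]
        · simp [h.ne', h]
          ring
      rw [Finset.sum_congr rfl fun i _ => h1 i, ← Finset.sum_mul, Finset.sum_add_distrib]
      simp
    have h2 := abs_real_inner_le_norm (gsv y j) v
    rw [hin, abs_mul, abs_of_pos (pow_pos (hac j) 2)] at h2
    have h3 : ‖gsv y j‖ = ac y j := rfl
    rw [h3] at h2
    have h4 : |c j + ∑ i, (if j < i then c i * lc y i j else 0)| ≤ ‖v‖ / ac y j := by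
      rw [le_div_iff₀ (hac j)]
      have h5 := hac j
      have h6 : ac y j * (|c j + ∑ i, (if j < i then c i * lc y i j else 0)| * ac y j) ≤
          ac y j * ‖v‖ := by
        calc _ = |c j + ∑ i, (if j < i then c i * lc y i j else 0)| * ac y j ^ 2 := by ring
          _ ≤ _ := h2
      exact le_of_mul_le_mul_left h6 h5
    set X : ℝ := ‖v‖ / ac y j with hX
    have hX0 : 0 ≤ X := by have := hac j; positivity
    have h7 : |∑ i, (if j < i then c i * lc y i j else 0)| ≤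
        ρ * (2 ^ ρ * ((1 + ρ * 2 ^ ρ) ^ (ρ - 1 - (j : ℕ)) * X)) := by
      refine (Finset.abs_sum_le_sum_abs _ _).trans ?_
      calc ∑ i : Fin ρ, |(if j < i then c i * lc y i j else 0)|
          ≤ ∑ _i : Fin ρ, (2 ^ ρ * ((1 + ρ * 2 ^ ρ) ^ (ρ - 1 - (j : ℕ)) * X)) := by
            refine Finset.sum_le_sum fun i _ => ?_
            split_ifs with hji
            · rw [abs_mul]
              have h8 := hy.1 i j hji
              have h9 : |lc y i j| ≤ 1 := by
                rw [abs_of_nonneg h8.1]; exact h8.2.le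
              have h10 := ih i hji
              have h11 : ‖v‖ / ac y i ≤ 2 ^ ρ * X := by
                rw [hX, div_le_iff₀ (hac i)]
                have h12 := SHO.ratio' hy hji.le
                calc ‖v‖ = ‖v‖ / ac y j * ac y j := by field_simp [(hac j).ne']
                  _ ≤ ‖v‖ / ac y j * (2 ^ ρ * ac y i) := mul_le_mul_of_nonneg_left h12 (by have := hac j; positivity)
                  _ = _ := by ring
              have h13 : (1 + ρ * 2 ^ ρ : ℝ) ^ (ρ - (i : ℕ)) ≤ (1 + ρ * 2 ^ ρ) ^ (ρ - 1 - (j : ℕ)) := by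
                refine pow_le_pow_right₀ hD1 ?_
                have : (j : ℕ) < i := hji
                omega
              calc |c i| * |lc y i j| ≤ |c i| * 1 := mul_le_mul_of_nonneg_left h9 (abs_nonneg _)
                _ = |c i| := mul_one _
                _ ≤ (1 + ρ * 2 ^ ρ) ^ (ρ - (i : ℕ)) * (‖v‖ / ac y i) := h10
                _ ≤ (1 + ρ * 2 ^ ρ) ^ (ρ - 1 - (j : ℕ)) * (2 ^ ρ * X) := by
                    have := hac i
                    exact mul_le_mul h13 h11 (by positivity) (by positivity)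
                _ = _ := by ring
            · rw [abs_zero]; positivity
        _ = _ := by rw [Finset.sum_const, Finset.card_univ, Fintype.card_fin, nsmul_eq_mul]
    have hsplit : |c j| ≤ X + ρ * (2 ^ ρ * ((1 + ρ * 2 ^ ρ) ^ (ρ - 1 - (j : ℕ)) * X)) := by
      have e1 : c j = (c j + ∑ i, (if j < i then c i * lc y i j else 0)) -
          ∑ i, (if j < i then c i * lc y i j else 0) := by ring
      rw [e1]
      refine (abs_sub _ _).trans ?_
      exact add_le_add h4 h7
    refine hsplit.trans ?_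
    have e2 : ρ - (j : ℕ) = (ρ - 1 - (j : ℕ)) + 1 := by
      have := j.2
      omega
    rw [e2, pow_succ]
    have h14 : (1 : ℝ) ≤ (1 + ρ * 2 ^ ρ) ^ (ρ - 1 - (j : ℕ)) := one_le_pow₀ hD1
    nlinarith

theorem mapmul {a b c : ℕ} {R : Type} [CommRing R] (f : ℤ →+* R) (M : Matrix (Fin a) (Fin b) ℤ)
    (N : Matrix (Fin b) (Fin c) ℤ) : (M * N).map f = M.map f * N.map f := Matrix.map_mul

theorem mulR {a b c : ℕ} (M : Matrix (Fin a) (Fin b) ℤ) (N : Matrix (Fin b) (Fin c) ℤ) :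
    (M * N).map (Int.cast : ℤ → ℝ) = M.map (Int.cast : ℤ → ℝ) * N.map (Int.cast : ℤ → ℝ) :=
  mapmul (Int.castRingHom ℝ) M N

theorem mulQ {a b c : ℕ} (M : Matrix (Fin a) (Fin b) ℤ) (N : Matrix (Fin b) (Fin c) ℤ) :
    (M * N).map (Int.cast : ℤ → ℚ) = M.map (Int.cast : ℤ → ℚ) * N.map (Int.cast : ℤ → ℚ) :=
  mapmul (Int.castRingHom ℚ) M N

theorem mapone {a : ℕ} (d : ℤ) : (d • (1 : Matrix (Fin a) (Fin a) ℤ)).map (Int.cast : ℤ → ℝ) = (d : ℝ) • 1 := by
  ext i j
  simp only [Matrix.map_apply, Matrix.smul_apply, Matrix.one_apply, smul_eq_mul]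
  split_ifs <;> simp

theorem t_STR (_hiw : S_iw) (_hred : S_red) : S_str := by
  intro n hn
  set D : ℝ := 1 + n * 2 ^ n with hDdef
  set K : ℝ := n * 2 ^ n with hKdef
  have hn1 : (1 : ℝ) ≤ n := by exact_mod_cast hn
  have hK1 : 1 ≤ K := by
    have : (1 : ℝ) ≤ 2 ^ n := one_le_pow₀ (by norm_num)
    nlinarith
  have hD1 : 1 ≤ D := by linarith
  have hsq1 : 1 ≤ Real.sqrt n := Real.one_le_sqrt.2 hn1
  set C : ℝ := D ^ n * Real.sqrt n * K with hCdef
  have hC1 : 1 ≤ C := one_le_mul_of_one_le_of_one_le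
    (one_le_mul_of_one_le_of_one_le (one_le_pow₀ hD1) hsq1) hK1
  refine ⟨C, hC1, fun β W r hβ hr hW hWr => ?_⟩
  have hm : (0 : ℝ) < β.det := by exact_mod_cast hβ
  have hmQ : (0 : ℚ) < β.det := by exact_mod_cast hβ
  obtain ⟨ρ, P, A, U, a, hρn, hAP, hPAW, ha, hWU⟩ := snf W
  have hρ1 : 1 ≤ ρ := by
    rcases Nat.eq_zero_or_pos ρ with h | h
    · exfalso
      subst h
      apply hW
      rw [← hPAW]
      ext i j
      simp [Matrix.mul_apply]
    · exact h
  -- the real basis of the lattice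
  set B : Matrix (Fin n) (Fin ρ) ℝ := ((β.det : ℝ)⁻¹) • (β.adjugate * P).map (Int.cast : ℤ → ℝ) with hB
  have hAβB : (A * β).map (Int.cast : ℤ → ℝ) * B = 1 := by
    rw [hB, Matrix.mul_smul, ← mulR]
    have h1 : A * β * (β.adjugate * P) = β.det • (1 : Matrix (Fin ρ) (Fin ρ) ℤ) := by
      rw [Matrix.mul_assoc, ← Matrix.mul_assoc β, Matrix.mul_adjugate, Matrix.smul_mul, Matrix.one_mul,
        Matrix.mul_smul, hAP]
    rw [h1, mapone, smul_smul, inv_mul_cancel₀ hm.ne', one_smul]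
  have hBinj : Function.Injective B.mulVec := by
    intro v w h
    have h1 := congrArg ((A * β).map (Int.cast : ℤ → ℝ)).mulVec h
    simp only [Matrix.mulVec_mulVec, hAβB, Matrix.one_mulVec] at h1
    exact h1
  obtain ⟨x₀, hx₀, hdet₀⟩ := gram hρ1 B hBinj
  obtain ⟨s, hs, hsn⟩ : ∃ s : ℝ, 0 < s ∧ s ^ ρ = x₀.det := by
    refine ⟨x₀.det ^ (1 / (ρ : ℝ)), Real.rpow_pos_of_pos hdet₀ _, ?_⟩
    rw [one_div]
    exact Real.rpow_inv_natCast_pow hdet₀.le (by omega)
  have hxdet : (s⁻¹ • x₀).det = 1 := by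
    rw [Matrix.det_smul, Fintype.card_fin, inv_pow, hsn, inv_mul_cancel₀ hdet₀.ne']
  let x : GR ρ := ⟨_, hxdet⟩
  obtain ⟨γ, hγ⟩ := red' ρ x
  set y : GR ρ := io ρ γ * x with hy
  set g : Matrix (Fin ρ) (Fin ρ) ℤ := γ.1 with hg
  set g' : Matrix (Fin ρ) (Fin ρ) ℤ := (γ⁻¹).1 with hg'
  have hgg' : g * g' = 1 := by
    have h1 : (γ * γ⁻¹ : GZ ρ).1 = 1 := by rw [mul_inv_cancel]; rfl
    exact h1
  have hg'g : g' * g = 1 := by
    have h1 : (γ⁻¹ * γ : GZ ρ).1 = 1 := by rw [inv_mul_cancel]; rfl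
    exact h1
  set R : Matrix (Fin n) (Fin ρ) ℝ := B * (g.map (Int.cast : ℤ → ℝ))ᵀ with hR
  have hyval : y.1 = s⁻¹ • (g.map (Int.cast : ℤ → ℝ) * x₀) := by
    rw [← Matrix.mul_smul]
    rfl
  have hyy : y.1 * y.1ᵀ = (s⁻¹ * s⁻¹) • (Rᵀ * R) := by
    rw [hyval, Matrix.transpose_smul, Matrix.smul_mul, Matrix.mul_smul, smul_smul, Matrix.transpose_mul,
      Matrix.mul_assoc, ← Matrix.mul_assoc x₀, hx₀, hR, Matrix.transpose_mul, Matrix.transpose_transpose]
    simp only [Matrix.mul_assoc]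
  have hkey : ∀ c : Fin ρ → ℝ, (s * ‖∑ j, c j • row y j‖) ^ 2 = (R *ᵥ c) ⬝ᵥ (R *ᵥ c) := by
    intro c
    rw [mul_pow, norm_comb]
    have h1 : (c ᵥ* y.1) ⬝ᵥ (c ᵥ* y.1) = c ⬝ᵥ ((y.1 * y.1ᵀ) *ᵥ c) := by
      rw [← Matrix.mulVec_mulVec, Matrix.mulVec_transpose, Matrix.dotProduct_mulVec]
    have h2 : c ⬝ᵥ ((Rᵀ * R) *ᵥ c) = (R *ᵥ c) ⬝ᵥ (R *ᵥ c) := by
      rw [← Matrix.mulVec_mulVec c Rᵀ R, Matrix.dotProduct_mulVec c Rᵀ, Matrix.vecMul_transpose]
    rw [h1, ← h2, hyy, Matrix.smul_mulVec, dotProduct_smul, smul_eq_mul]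
    field_simp
  -- the integral matrices
  set P' : Matrix (Fin n) (Fin ρ) ℤ := P * gᵀ with hP'
  set A' : Matrix (Fin ρ) (Fin n) ℤ := g'ᵀ * A with hA'
  set Φ : Matrix (Fin ρ) (Fin n) ℤ := A' * W with hΦ
  have hA'P' : A' * P' = 1 := by
    rw [hA', hP', Matrix.mul_assoc, ← Matrix.mul_assoc A, hAP, Matrix.one_mul, ← Matrix.transpose_mul, hgg',
      Matrix.transpose_one]
  have hP'Φ : P' * Φ = W := by
    rw [hΦ, hA', hP', Matrix.mul_assoc, Matrix.mul_assoc, ← Matrix.mul_assoc gᵀ, ← Matrix.transpose_mul, hg'g,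
      Matrix.transpose_one, Matrix.one_mul, hPAW]
  set Q : Matrix (Fin n) (Fin ρ) ℚ := ((β.det : ℚ)⁻¹) • (β.adjugate * P').map (Int.cast : ℤ → ℚ) with hQ
  have hβQ : β.map (Int.cast : ℤ → ℚ) * Q = P'.map (Int.cast : ℤ → ℚ) := by
    rw [hQ, Matrix.mul_smul, ← mulQ, ← Matrix.mul_assoc, Matrix.mul_adjugate, Matrix.smul_mul, Matrix.one_mul]
    ext i j
    simp only [Matrix.smul_apply, Matrix.map_apply, smul_eq_mul]
    rw [Int.cast_mul, ← mul_assoc, inv_mul_cancel₀ hmQ.ne', one_mul]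
  have hQR : ∀ i j, ((Q i j : ℚ) : ℝ) = R i j := by
    intro i j
    rw [hQ, hR, hB, Matrix.smul_mul]
    simp only [Matrix.smul_apply, Matrix.map_apply, smul_eq_mul]
    push_cast
    congr 1
    have h1 : ((β.adjugate * P).map (Int.cast : ℤ → ℝ) * (g.map (Int.cast : ℤ → ℝ))ᵀ) =
        (β.adjugate * P * gᵀ).map (Int.cast : ℤ → ℝ) := by
      rw [mulR (β.adjugate * P)]
      rfl
    rw [h1, hP', Matrix.mul_assoc]
    rfl
  have hQlin : LinearIndependent ℚ fun j => fun i => Q i j := by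
    rw [Fintype.linearIndependent_iff]
    intro c hc
    have h1 : Q *ᵥ c = 0 := by
      ext i
      have := congrFun hc i
      simp only [Finset.sum_apply, Pi.smul_apply, smul_eq_mul, Pi.zero_apply] at this
      simp only [Matrix.mulVec, dotProduct, Pi.zero_apply]
      rw [← this]
      exact Finset.sum_congr rfl fun j _ => mul_comm _ _
    have h2 : (A' * P').map (Int.castRingHom ℚ) *ᵥ c = 0 := by
      rw [mapmul (Int.castRingHom ℚ)]
      have h3 : P'.map (Int.castRingHom ℚ) = β.map (Int.cast : ℤ → ℚ) * Q := hβQ.symm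
      rw [h3, ← Matrix.mulVec_mulVec, ← Matrix.mulVec_mulVec, h1, Matrix.mulVec_zero, Matrix.mulVec_zero]
    rw [hA'P'] at h2
    have h3 : (1 : Matrix (Fin ρ) (Fin ρ) ℤ).map (Int.castRingHom ℚ) = 1 :=
      Matrix.map_one _ (map_zero _) (map_one _)
    rw [h3, Matrix.one_mulVec] at h2
    exact fun i => congrFun h2 i
  -- the norms of the columns
  have hzpos : ∀ j, 0 < zz Q j := by
    intro j
    rw [zz, norm_pos_iff]
    intro h0
    apply hQlin.ne_zero j
    ext i
    have := congrFun h0 i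
    simp only [Pi.zero_apply] at this
    exact_mod_cast this
  have hzle : ∀ j, zz Q j ≤ s * K * ac y j := by
    intro j
    have hacj := iw_ac_pos y j
    rw [zz, pi_norm_le_iff_of_nonneg (by positivity)]
    intro i
    rw [Real.norm_eq_abs, hQR]
    have h1 := hkey (Pi.single j 1)
    have h2 : ∑ k, (Pi.single j (1 : ℝ) : Fin ρ → ℝ) k • row y k = row y j := by
      rw [Finset.sum_eq_single j]
      · rw [Pi.single_eq_same, one_smul]
      · intro b _ hb
        rw [Pi.single_eq_of_ne hb, zero_smul]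
      · simp
    rw [h2] at h1
    have h3 : |R i j| ≤ s * ‖row y j‖ := by
      refine abs_le_of_sq_le_sq ?_ (by positivity)
      rw [h1]
      simp only [Matrix.mulVec_single_one, dotProduct, Matrix.col_apply]
      calc R i j ^ 2 = R i j * R i j := pow_two _
        _ ≤ _ := Finset.single_le_sum (f := fun i => R i j * R i j) (fun i _ => mul_self_nonneg _) (Finset.mem_univ i)
    have h4 := SHO.norm_row hγ j
    have h5 : (ρ : ℝ) * 2 ^ ρ ≤ K := by
      rw [hKdef]
      have e1 : (ρ : ℝ) ≤ n := by exact_mod_cast hρn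
      exact mul_le_mul e1 (pow_le_pow_right₀ (by norm_num) hρn) (by positivity) (by positivity)
    calc |R i j| ≤ s * ‖row y j‖ := h3
      _ ≤ s * (ρ * 2 ^ ρ * ac y j) := mul_le_mul_of_nonneg_left h4 hs.le
      _ ≤ s * (K * ac y j) := mul_le_mul_of_nonneg_left (mul_le_mul_of_nonneg_right h5 hacj.le) hs.le
      _ = _ := by ring
  have hΦle : ∀ j k, |((Φ j k : ℤ) : ℝ)| ≤ C * r / zz Q j := by
    intro j k
    have hacj := iw_ac_pos y j
    set c : Fin ρ → ℝ := fun j => ((Φ j k : ℤ) : ℝ) with hc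
    have h1 := coef hγ c j
    have h2 : ∀ i, |(R *ᵥ c) i| ≤ r := by
      intro i
      have h3 : (R *ᵥ c) i = (β.det : ℝ)⁻¹ * (((β.adjugate * W) i k : ℤ) : ℝ) := by
        have h4 : (R *ᵥ c) i = (R * Φ.map (Int.cast : ℤ → ℝ)) i k := rfl
        have h5 : R = ((β.det : ℝ)⁻¹) • (β.adjugate * P').map (Int.cast : ℤ → ℝ) := by
          ext i j
          rw [← hQR, hQ]
          simp only [Matrix.smul_apply, Matrix.map_apply, smul_eq_mul]
          push_cast
          rfl
        rw [h4, h5, Matrix.smul_mul, ← mulR, Matrix.mul_assoc, hP'Φ]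
        rfl
      rw [h3, abs_mul, abs_of_pos (inv_pos.2 hm)]
      calc (β.det : ℝ)⁻¹ * |(((β.adjugate * W) i k : ℤ) : ℝ)| ≤ (β.det : ℝ)⁻¹ * (β.det * r) :=
            mul_le_mul_of_nonneg_left (hWr i k) (inv_pos.2 hm).le
        _ = r := by field_simp
    have h3 : s * ‖∑ i, c i • row y i‖ ≤ Real.sqrt n * r := by
      refine le_of_sq_le_sq ?_ (by positivity)
      rw [hkey c, mul_pow, Real.sq_sqrt (by positivity)]
      simp only [dotProduct]
      calc ∑ i, (R *ᵥ c) i * (R *ᵥ c) i ≤ ∑ _i : Fin n, r ^ 2 := by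
            refine Finset.sum_le_sum fun i _ => ?_
            rw [← pow_two, ← sq_abs]
            exact pow_le_pow_left₀ (abs_nonneg _) (h2 i) 2
        _ = n * r ^ 2 := by simp
    have h4 : ‖∑ i, c i • row y i‖ ≤ Real.sqrt n * r / s := by
      rw [le_div_iff₀ hs, mul_comm]
      exact h3
    have h5 : (1 + (ρ : ℝ) * 2 ^ ρ) ^ (ρ - (j : ℕ)) ≤ D ^ n := by
      have e1 : (ρ : ℝ) ≤ n := by exact_mod_cast hρn
      have e2 : (1 + (ρ : ℝ) * 2 ^ ρ) ≤ D := by
        rw [hDdef]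
        have := mul_le_mul e1 (pow_le_pow_right₀ (by norm_num : (1 : ℝ) ≤ 2) hρn) (by positivity) (by positivity)
        linarith
      calc (1 + (ρ : ℝ) * 2 ^ ρ) ^ (ρ - (j : ℕ)) ≤ D ^ (ρ - (j : ℕ)) := pow_le_pow_left₀ (by positivity) e2 _
        _ ≤ D ^ n := pow_le_pow_right₀ hD1 (by omega)
    have hz := hzpos j
    have hzl := hzle j
    calc |((Φ j k : ℤ) : ℝ)| ≤ (1 + (ρ : ℝ) * 2 ^ ρ) ^ (ρ - (j : ℕ)) * (‖∑ i, c i • row y i‖ / ac y j) := h1
      _ ≤ D ^ n * ((Real.sqrt n * r / s) / ac y j) := by gcongr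
      _ ≤ C * r / zz Q j := by
          rw [le_div_iff₀ hz]
          calc D ^ n * ((Real.sqrt n * r / s) / ac y j) * zz Q j
              ≤ D ^ n * ((Real.sqrt n * r / s) / ac y j) * (s * K * ac y j) :=
                mul_le_mul_of_nonneg_left hzl (by positivity)
            _ = C * r := by
                rw [hCdef]
                field_simp
  have hΦlin : LinearIndependent ℤ (fun j => Φ j) := by
    rw [Fintype.linearIndependent_iff]
    intro c hc
    have h1 : c ᵥ* Φ = 0 := by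
      ext k
      have := congrFun hc k
      simp only [Finset.sum_apply, Pi.smul_apply, smul_eq_mul, Pi.zero_apply] at this
      simpa [Matrix.vecMul, dotProduct] using this
    have h2 : (c ᵥ* g'ᵀ) ᵥ* Matrix.diagonal a = 0 := by
      have h3 : Φ * U = g'ᵀ * Matrix.diagonal a := by
        rw [hΦ, hA', Matrix.mul_assoc, hWU, Matrix.mul_assoc, ← Matrix.mul_assoc A, hAP, Matrix.one_mul]
      rw [Matrix.vecMul_vecMul, ← h3, ← Matrix.vecMul_vecMul, h1, Matrix.zero_vecMul]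
    have h3 : c ᵥ* g'ᵀ = 0 := by
      ext j
      have h4 := congrFun h2 j
      rw [Matrix.vecMul_diagonal] at h4
      rcases mul_eq_zero.1 h4 with h | h
      · exact h
      · exact absurd h (ha j)
    have h4 : c = 0 := by
      have h5 : (c ᵥ* g'ᵀ) ᵥ* gᵀ = c := by
        rw [Matrix.vecMul_vecMul, ← Matrix.transpose_mul, hgg', Matrix.transpose_one, Matrix.vecMul_one]
      rw [← h5, h3, Matrix.zero_vecMul]
    intro i
    rw [h4]
    rfl
  refine ⟨ρ, Q, Φ, A', hρ1, hρn, hQlin, ?_, ?_, ?_, rfl, hΦlin, hΦle⟩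
  · intro i j
    refine ⟨P' i j, ?_⟩
    have := congrFun (congrFun hβQ i) j
    simpa [Matrix.mul_apply] using this
  · intro j
    have hne : Φ j ≠ 0 := hΦlin.ne_zero j
    obtain ⟨k, hk⟩ := Function.ne_iff.1 hne
    have h1 := hΦle j k
    have h2 : (1 : ℝ) ≤ |((Φ j k : ℤ) : ℝ)| := by
      have : (1 : ℤ) ≤ |Φ j k| := Int.one_le_abs hk
      exact_mod_cast this
    have h3 := h2.trans h1
    rwa [le_div_iff₀ (hzpos j), one_mul] at h3
  · rw [hβQ]
    have h1 := congrArg (fun M : MZ n => M.map (Int.castRingHom ℚ)) hP'Φ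
    simp only [mapmul] at h1
    exact h1

end Pool.Agent.T2h79.LG.STR
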