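import Pool.Agent.T2h79.LG.Stm
import Pool.Agent.T2h77N.Count

/-!
# Project LG, task SYM: finiteness and symmetry of the counts
-/

set_option autoImplicit false

open MeasureTheory Matrix
open scoped MatrixGroups ENNReal Topology ComplexConjugate

noncomputable section

namespace Pool.Agent.T2h79.LG.SYM

open Pool.Agent.T2h77.N

variable {n N : ℕ} [NeZero N] {H : Subgroup (GN n N)}

theorem finite_bd (n : ℕ) (B : ℝ) : {γ : GZ n | ∀ i j, |((γ i j : ℤ) : ℝ)| ≤ B}.Finite := by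
  obtain ⟨P, -, hP⟩ := exists_finset (n := n) fun _ _ => B
  exact P.finite_toSet.subset fun γ hγ => (hP γ).2 hγ

theorem exists_bd (A : GR n) : ∃ a : ℝ, 0 ≤ a ∧ ∀ i j, |A i j| ≤ a := by
  refine ⟨∑ i, ∑ j, |A i j|, Finset.sum_nonneg fun i _ => Finset.sum_nonneg fun j _ => abs_nonneg _,
    fun i j => ?_⟩
  calc |A i j| ≤ ∑ j, |A i j| :=
        Finset.single_le_sum (f := fun j => |A i j|) (fun j _ => abs_nonneg _) (Finset.mem_univ j)
    _ ≤ _ := Finset.single_le_sum (f := fun i => ∑ j, |A i j|)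
        (fun i _ => Finset.sum_nonneg fun j _ => abs_nonneg _) (Finset.mem_univ i)

theorem scl_io {β : MZ n} (h : 0 < β.det) (γ : GZ n) : scl ((γ : MZ n) * β) = io n γ * scl β := by
  rw [scl_mul (by rw [γ.2]; exact one_pos) h, scl_coe]

theorem rdM_io {β : MZ n} (h : IsUnit ((β.det : ℤ) : ZMod N)) (γ : GZ n) :
    rdM N ((γ : MZ n) * β) = rdM N (γ : MZ n) * rdM N β :=
  rdM_mul (isUnit_det_coe N γ) h

theorem pr_finite (M : ℝ) (g : GR n) (c : XX H) {β β' : MZ n} (hβ' : 0 < β'.det) :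
    (pr M g c β β').Finite := by
  obtain ⟨a, ha0, ha⟩ := exists_bd (scl β * g)
  obtain ⟨b, hb0, hb⟩ := exists_bd (g⁻¹ * (scl β')⁻¹)
  refine (finite_bd n ((n : ℝ) * (((n : ℝ) * (a * |M|)) * b))).subset ?_
  rintro γ ⟨-, hM⟩ i j
  have e : io n γ = (scl β * g) * (g⁻¹ * (scl β)⁻¹ * scl ((γ : MZ n) * β') * g) * (g⁻¹ * (scl β')⁻¹) := by
    rw [scl_io hβ']
    group
  have h1 := fun i j => mul_bound ha0 ha (fun i j => (hM i j).trans (le_abs_self M)) i j
  have h2 := mul_bound (by positivity) h1 hb i j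
  rw [← e] at h2
  exact h2

theorem t_SYM : S_sym := by
  intro n M
  refine ⟨(n.factorial : ℝ) * (max M 1) ^ n, ?_⟩
  intro N _ H g c β β' hβ hu hβ' hu'
  refine ⟨pr_finite M g c hβ', ?_⟩
  have hfin := pr_finite (H := H) ((n.factorial : ℝ) * (max M 1) ^ n) g c (β := β') hβ
  haveI : Finite (pr ((n.factorial : ℝ) * (max M 1) ^ n) g c β' β) := hfin
  have key : ∀ γ : GZ n, γ ∈ pr M g c β β' → γ⁻¹ ∈ pr ((n.factorial : ℝ) * (max M 1) ^ n) g c β' β := by
    rintro γ ⟨h1, h2⟩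
    refine ⟨?_, fun i j => ?_⟩
    · rw [rdM_io hu, rdM_inv, mul_smul, h1, rdM_io hu', mul_smul, inv_smul_smul]
    · have e : g⁻¹ * (scl β')⁻¹ * scl (((γ⁻¹ : GZ n) : MZ n) * β) * g =
          (g⁻¹ * (scl β)⁻¹ * scl ((γ : MZ n) * β') * g)⁻¹ := by
        rw [scl_io hβ, scl_io hβ', map_inv]
        group
      rw [e]
      exact inv_bound (le_max_right _ _) (fun i j => (h2 i j).trans (le_max_left _ _)) i j
  exact Nat.card_le_card_of_injective
    (fun γ : pr M g c β β' => (⟨(γ : GZ n)⁻¹, key γ γ.2⟩ : pr ((n.factorial : ℝ) * (max M 1) ^ n) g c β' β))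
    fun γ γ' h => Subtype.ext (inv_injective (congrArg Subtype.val h))

end Pool.Agent.T2h79.LG.SYM
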