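import Pool.Agent.T2h79.LG.Stm
import Pool.Agent.T2h77N.Trace

/-!
# TRW: the trace inequality with coefficients
-/

set_option autoImplicit false
set_option linter.unusedSectionVars false

open MeasureTheory Matrix
open scoped MatrixGroups ENNReal Topology Pointwise

noncomputable section

namespace Pool.Agent.T2h79.LG

open Pool.Agent.T2h77.N

variable {n N : ℕ} [NeZero N] {H : Subgroup (GN n N)}

theorem pr_finite (M : ℝ) (g : GR n) (c : XX H) {β β' : MZ n} (hβ' : 0 < β'.det) : (pr M g c β β').Finite := by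
  have h1 : IsCompact ((fun h : GR n => scl β * g * h * g⁻¹ * (scl β')⁻¹) '' {x : GR n | ∀ i j, |x i j| ≤ M}) :=
    (isCompact_bdd n M).image (by fun_prop)
  refine (finite_io h1).subset ?_
  rintro γ ⟨_, hγ⟩
  refine ⟨_, hγ, ?_⟩
  simp only
  rw [scl_io_mul hβ']
  group

/-- the sum of the translates -/
theorem unfoldW {F : Set (GR n)} (hF : IsFD F) {T : Finset (MZ n)} (w : MZ n → ℝ≥0∞)
    (hT : ∀ β ∈ T, 0 < β.det ∧ IsUnit ((β.det : ℤ) : ZMod N)) {V : GR n → XX H → ℝ≥0∞}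
    (hV : ∀ c, Measurable fun x => V x c)
    (hVi : ∀ (γ : GZ n) (x : GR n) (c : XX H), V (io n γ * x) (rdM N (γ : MZ n) • c) = V x c)
    {b : GR n → ℝ≥0∞} (hb : Measurable b) (g : GR n) (c : XX H) :
    ∑ β ∈ T, w β * ∫⁻ y, V (scl β * g * y) (rdM N β • c) * b y ∂(mu n) =
      ∫⁻ x in F, ∑ β ∈ T, ∑' γ : GZ n, w β * (V x (rdM N ((γ : MZ n) * β) • c) *
        b ((scl ((γ : MZ n) * β) * g)⁻¹ * x)) ∂(mu n) := by
  have h1 : ∀ β ∈ T, w β * ∫⁻ y, V (scl β * g * y) (rdM N β • c) * b y ∂(mu n) =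
      ∫⁻ x in F, ∑' γ : GZ n, w β * (V x (rdM N ((γ : MZ n) * β) • c) *
        b ((scl ((γ : MZ n) * β) * g)⁻¹ * x)) ∂(mu n) := by
    intro β hβ
    obtain ⟨hdet, hun⟩ := hT β hβ
    have hm1 : Measurable fun x => V x (rdM N β • c) * b ((scl β * g)⁻¹ * x) :=
      (hV _).mul (hb.comp (measurable_const_mul _))
    have e1 := lintegral_mul_left_eq_self (μ := mu n) (fun x => V x (rdM N β • c) * b ((scl β * g)⁻¹ * x)) (scl β * g)
    simp only [inv_mul_cancel_left] at e1
    have hms : Measurable fun x : GR n => ∑' γ : GZ n, (V x (rdM N ((γ : MZ n) * β) • c) *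
        b ((scl ((γ : MZ n) * β) * g)⁻¹ * x)) :=
      Measurable.tsum fun γ => (hV _).mul (hb.comp (measurable_const_mul _))
    simp only [ENNReal.tsum_mul_left]
    rw [e1, lint_unfold hF hm1, lintegral_const_mul _ hms]
    congr 1
    refine lintegral_congr fun x => ?_
    rw [← (Equiv.inv (GZ n)).tsum_eq]
    refine tsum_congr fun γ => ?_
    change V (io n γ⁻¹ * x) (rdM N β • c) * b ((scl β * g)⁻¹ * (io n γ⁻¹ * x)) = _
    have hγ := hVi γ (io n γ⁻¹ * x) (rdM N β • c)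
    rw [← mul_assoc, ← map_mul, mul_inv_cancel, map_one, one_mul, smul_smul, ← rdM_io_mul hun] at hγ
    rw [← hγ, scl_io_mul hdet]
    congr 2
    rw [map_inv]
    group
  rw [Finset.sum_congr rfl h1]
  have hms : ∀ β : MZ n, Measurable fun x : GR n => ∑' γ : GZ n, w β * (V x (rdM N ((γ : MZ n) * β) • c) *
      b ((scl ((γ : MZ n) * β) * g)⁻¹ * x)) := fun β =>
    Measurable.tsum fun γ => ((hV _).mul (hb.comp (measurable_const_mul _))).const_mul _
  rw [← lintegral_finsetSum _ fun β _ => hms β]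

/-- the kernel -/
def PW (H : Subgroup (GN n N)) (T : Finset (MZ n)) (w : MZ n → ℝ≥0∞) (b : GR n → ℝ≥0∞) (g : GR n) (c : XX H)
    (x : GR n) (c' : XX H) : ℝ≥0∞ :=
  open Classical in
  ∑ β ∈ T, ∑' γ : GZ n, w β * (if rdM N ((γ : MZ n) * β) • c = c' then b ((scl ((γ : MZ n) * β) * g)⁻¹ * x) else 0)

theorem measurable_PW {T : Finset (MZ n)} {w : MZ n → ℝ≥0∞} {b : GR n → ℝ≥0∞} (hb : Measurable b) (g : GR n)
    (c c' : XX H) : Measurable fun x => PW H T w b g c x c' := by
  unfold PW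
  refine Finset.measurable_fun_sum _ fun β _ => Measurable.tsum fun γ => Measurable.const_mul ?_ _
  split_ifs
  · exact hb.comp (measurable_const_mul _)
  · exact measurable_const

theorem PW_inv {T : Finset (MZ n)} {w : MZ n → ℝ≥0∞}
    (hT : ∀ β ∈ T, 0 < β.det ∧ IsUnit ((β.det : ℤ) : ZMod N)) {b : GR n → ℝ≥0∞} (g : GR n) (c : XX H)
    (γ : GZ n) (x : GR n) (c' : XX H) :
    PW H T w b g c (io n γ * x) (rdM N (γ : MZ n) • c') = PW H T w b g c x c' := by
  unfold PW
  refine Finset.sum_congr rfl fun β hβ => ?_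
  obtain ⟨hdet, hun⟩ := hT β hβ
  rw [← (Equiv.mulLeft γ).tsum_eq]
  refine tsum_congr fun γ' => ?_
  have hdet' : 0 < ((γ' : MZ n) * β).det := by rw [Matrix.det_mul, γ'.2, one_mul]; exact hdet
  have hun' : IsUnit (((((γ' : MZ n) * β).det : ℤ)) : ZMod N) := by
    rw [Matrix.det_mul, γ'.2, one_mul]; exact hun
  have e1 : (((Equiv.mulLeft γ) γ' : GZ n) : MZ n) * β = (γ : MZ n) * ((γ' : MZ n) * β) := by
    change ((γ * γ' : GZ n) : MZ n) * β = _
    rw [Matrix.SpecialLinearGroup.coe_mul, mul_assoc]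
  rw [e1, rdM_io_mul hun', scl_io_mul hdet', mul_smul]
  have e2 : (io n γ * scl ((γ' : MZ n) * β) * g)⁻¹ * (io n γ * x) = (scl ((γ' : MZ n) * β) * g)⁻¹ * x := by group
  rw [e2]
  have e3 : (rdM N (γ : MZ n) • rdM N ((γ' : MZ n) * β) • c = rdM N (γ : MZ n) • c') ↔
      (rdM N ((γ' : MZ n) * β) • c = c') := smul_left_cancel_iff _
  by_cases h : rdM N ((γ' : MZ n) * β) • c = c'
  · rw [if_pos (e3.2 h), if_pos h]
  · rw [if_neg (fun h' => h (e3.1 h')), if_neg h]

theorem sum_PW {T : Finset (MZ n)} {w : MZ n → ℝ≥0∞} {b : GR n → ℝ≥0∞} (g : GR n) (c : XX H) (x : GR n)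
    (v : XX H → ℝ≥0∞) :
    ∑ β ∈ T, ∑' γ : GZ n, w β * (v (rdM N ((γ : MZ n) * β) • c) * b ((scl ((γ : MZ n) * β) * g)⁻¹ * x)) =
      ∑' c' : XX H, v c' * PW H T w b g c x c' := by
  classical
  have : Fintype (XX H) := Fintype.ofFinite _
  unfold PW
  rw [tsum_fintype]
  simp only [Finset.mul_sum]
  rw [Finset.sum_comm]
  refine Finset.sum_congr rfl fun β _ => ?_
  simp only [← ENNReal.tsum_mul_left]
  rw [← tsum_fintype (L := .unconditional _), ENNReal.tsum_comm]
  refine tsum_congr fun γ => ?_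
  rw [tsum_eq_single (rdM N ((γ : MZ n) * β) • c)]
  · rw [if_pos rfl]
    ring
  · intro c' hc'
    rw [if_neg hc'.symm, mul_zero, mul_zero]

/-- the bound for the kernel -/
theorem PW_sq {F : Set (GR n)} (hF : IsFD F) {T : Finset (MZ n)} (w : MZ n → ℝ≥0∞)
    (hT : ∀ β ∈ T, 0 < β.det ∧ IsUnit ((β.det : ℤ) : ZMod N)) {b : GR n → ℝ≥0∞} (hb : Measurable b)
    {K : Set (GR n)} (hK : MeasurableSet K) {B : ℝ≥0∞} (hbK : ∀ y, y ∉ K → b y = 0) (hbB : ∀ y, b y ≤ B) {M : ℝ}
    (hM : ∀ h ∈ K * K⁻¹, ∀ i j, |h i j| ≤ M) (g : GR n) (c : XX H) :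
    ∫⁻ x in F, ∑' c' : XX H, PW H T w b g c x c' ^ 2 ∂(mu n) ≤
      ∑ β ∈ T, ∑ β' ∈ T, w β * w β' * ((Nat.card (pr M g c β β') : ℝ≥0∞) * (B ^ 2 * mu n K)) := by
  classical
  have e1 : ∫⁻ x in F, ∑' c' : XX H, PW H T w b g c x c' ^ 2 ∂(mu n) =
      ∑ β ∈ T, w β * ∫⁻ y, PW H T w b g c (scl β * g * y) (rdM N β • c) * b y ∂(mu n) := by
    rw [unfoldW hF w hT (V := PW H T w b g c) (measurable_PW hb g c) (PW_inv hT g c) hb g c]
    refine lintegral_congr fun x => ?_
    rw [sum_PW g c x (fun c' => PW H T w b g c x c')]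
    exact tsum_congr fun c' => pow_two _
  rw [e1]
  set κ : ℝ≥0∞ := B ^ 2 * mu n K with hκ
  refine Finset.sum_le_sum fun β hβ => ?_
  have h2 : ∫⁻ y, PW H T w b g c (scl β * g * y) (rdM N β • c) * b y ∂(mu n) ≤
      ∑ β' ∈ T, w β' * ((Nat.card (pr M g c β β') : ℝ≥0∞) * κ) := by
    have e2 : ∀ y, PW H T w b g c (scl β * g * y) (rdM N β • c) * b y =
        ∑ β' ∈ T, ∑' γ : GZ n, w β' * ((if rdM N ((γ : MZ n) * β') • c = rdM N β • c then
          b ((scl ((γ : MZ n) * β') * g)⁻¹ * (scl β * g * y)) else 0) * b y) := by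
      intro y
      unfold PW
      rw [Finset.sum_mul]
      refine Finset.sum_congr rfl fun β' _ => ?_
      rw [← ENNReal.tsum_mul_right]
      exact tsum_congr fun γ => by ring
    simp only [e2]
    have hms : ∀ (β' : MZ n) (γ : GZ n), Measurable fun y : GR n =>
        w β' * ((if rdM N ((γ : MZ n) * β') • c = rdM N β • c then
          b ((scl ((γ : MZ n) * β') * g)⁻¹ * (scl β * g * y)) else 0) * b y) := by
      intro β' γ
      refine Measurable.const_mul (Measurable.mul ?_ hb) _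
      split_ifs
      · exact hb.comp (by fun_prop)
      · exact measurable_const
    rw [lintegral_finsetSum _ fun β' _ => Measurable.tsum fun γ => hms β' γ]
    refine Finset.sum_le_sum fun β' hβ' => ?_
    rw [lintegral_tsum fun γ => (hms β' γ).aemeasurable]
    have hfin : (pr M g c β β').Finite := pr_finite M g c (hT β' hβ').1
    have h3 : ∀ γ : GZ n, ∫⁻ y, w β' * ((if rdM N ((γ : MZ n) * β') • c = rdM N β • c then
          b ((scl ((γ : MZ n) * β') * g)⁻¹ * (scl β * g * y)) else 0) * b y) ∂(mu n) ≤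
        w β' * (pr M g c β β').indicator (fun _ => κ) γ := by
      intro γ
      by_cases h3 : rdM N ((γ : MZ n) * β') • c = rdM N β • c
      · simp only [if_pos h3]
        by_cases h4 : ∃ y ∈ K, (scl ((γ : MZ n) * β') * g)⁻¹ * (scl β * g * y) ∈ K
        · obtain ⟨y, hy1, hy2⟩ := h4
          have h5 : γ ∈ pr M g c β β' := by
            refine ⟨h3.symm, ?_⟩
            refine hM _ ⟨y, hy1, _,
              Set.inv_mem_inv.2 hy2, ?_⟩
            simp only
            group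
          rw [Set.indicator_of_mem h5, lintegral_const_mul]
          · gcongr
            calc ∫⁻ y, b ((scl ((γ : MZ n) * β') * g)⁻¹ * (scl β * g * y)) * b y ∂(mu n)
                ≤ ∫⁻ y, K.indicator (fun _ => B ^ 2) y ∂(mu n) := by
                  refine lintegral_mono fun y => ?_
                  by_cases hy : y ∈ K
                  · rw [Set.indicator_of_mem hy, pow_two]
                    exact mul_le_mul' (hbB _) (hbB _)
                  · rw [hbK y hy, mul_zero]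
                    exact bot_le
              _ = κ := by
                  rw [lintegral_indicator hK, lintegral_const, Measure.restrict_apply_univ]
          · exact (hb.comp (by fun_prop)).mul hb
        · have h5 : ∀ y, b ((scl ((γ : MZ n) * β') * g)⁻¹ * (scl β * g * y)) * b y = 0 := by
            intro y
            by_cases hy : y ∈ K
            · rw [hbK _ (fun h => h4 ⟨y, hy, h⟩), zero_mul]
            · rw [hbK y hy, mul_zero]
          simp only [h5, mul_zero, lintegral_zero]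
          exact bot_le
      · simp only [if_neg h3, zero_mul, mul_zero, lintegral_zero]
        exact bot_le
    calc _ ≤ ∑' γ : GZ n, w β' * (pr M g c β β').indicator (fun _ => κ) γ := ENNReal.tsum_le_tsum h3
      _ = w β' * ∑' γ : pr M g c β β', κ := by
          rw [ENNReal.tsum_mul_left, tsum_subtype (pr M g c β β') fun _ => κ]
      _ = w β' * ((Nat.card (pr M g c β β') : ℝ≥0∞) * κ) := by
          have : Fintype (pr M g c β β') := hfin.fintype
          rw [tsum_fintype, Finset.sum_const, nsmul_eq_mul, Nat.card_eq_fintype_card, Finset.card_univ]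
  calc _ ≤ w β * ∑ β' ∈ T, w β' * ((Nat.card (pr M g c β β') : ℝ≥0∞) * κ) := by gcongr
    _ = _ := by
        rw [Finset.mul_sum]
        exact Finset.sum_congr rfl fun β' _ => by ring

/-- the pointwise bound -/
theorem besselW {F : Set (GR n)} (hF : IsFD F) {T : Finset (MZ n)} (w : MZ n → ℝ≥0∞)
    (hT : ∀ β ∈ T, 0 < β.det ∧ IsUnit ((β.det : ℤ) : ZMod N)) {b : GR n → ℝ≥0∞} (hb : Measurable b)
    {K : Set (GR n)} (hK : MeasurableSet K) {B : ℝ≥0∞} (hbK : ∀ y, y ∉ K → b y = 0) (hbB : ∀ y, b y ≤ B) {M : ℝ}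
    (hM : ∀ h ∈ K * K⁻¹, ∀ i j, |h i j| ≤ M) {U : GR n → XX H → ℝ≥0∞} (hU : ∀ c, Measurable fun x => U x c)
    (hUi : ∀ (γ : GZ n) (x : GR n) (c : XX H), U (io n γ * x) (rdM N (γ : MZ n) • c) = U x c)
    (g : GR n) (c : XX H) :
    (∑ β ∈ T, w β * ∫⁻ y, U (scl β * g * y) (rdM N β • c) * b y ∂(mu n)) ^ 2 ≤
      (∑ β ∈ T, ∑ β' ∈ T, w β * w β' * ((Nat.card (pr M g c β β') : ℝ≥0∞) * (B ^ 2 * mu n K))) *
        ∫⁻ x in F, ∑' c : XX H, U x c ^ 2 ∂(mu n) := by
  rw [unfoldW hF w hT hU hUi hb g c]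
  rw [lintegral_congr fun x => sum_PW g c x (U x)]
  refine (cauchy hU (measurable_PW hb g c)).trans ?_
  rw [mul_comm]
  gcongr
  exact PW_sq hF w hT hb hK hbK hbB hM g c

/-- TRW -/
theorem t_TRW : S_trw := by
  intro n χ hχ hχc
  obtain ⟨B, hB⟩ := hχ.bounded_above_of_compact_support hχc
  have hK : IsCompact (tsupport χ) := hχc.isCompact
  have hKm : MeasurableSet (tsupport χ) := hK.measurableSet
  obtain ⟨M, _, hM⟩ := bdd_entries (hK.mul hK.inv)
  have hB0 : 0 ≤ B := (norm_nonneg _).trans (hB 1)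
  refine ⟨M, B ^ 2 * (mu n (tsupport χ)).toReal + 1, by positivity, ?_⟩
  intro N _ H F hF k f hf hL ho T a₀ hT g c
  set w : Fin k → ℂ := fun i => ∑ β ∈ T, a₀ β * Rc χ (f i) (scl β * g) (rdM N β • c) with hw
  set a : Fin k → ℂ := fun i => star (w i) with ha
  set S : ℝ := ∑ i, ‖a i‖ ^ 2 with hS
  have hS0 : 0 ≤ S := Finset.sum_nonneg fun i _ => by positivity
  have haw : ∀ i, ‖a i‖ = ‖w i‖ := fun i => norm_star _
  have hLHS : ∑ i, ‖w i‖ₑ ^ 2 = ENNReal.ofReal S := by
    rw [hS, ENNReal.ofReal_sum_of_nonneg fun i _ => by positivity]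
    exact Finset.sum_congr rfl fun i _ => by rw [haw, enorm_sq_ofReal]
  have hu := isForm_comb a hf
  -- the value of the operator on the combination
  have hval : (S : ℂ) = ∑ β ∈ T, a₀ β * ∫ y, comb a f (scl β * g * y) (rdM N β • c) * (χ y : ℂ) ∂(mu n) := by
    have e1 : ∀ β ∈ T, a₀ β * ∫ y, comb a f (scl β * g * y) (rdM N β • c) * (χ y : ℂ) ∂(mu n) =
        ∑ i, a i * (a₀ β * Rc χ (f i) (scl β * g) (rdM N β • c)) := by
      intro β _
      unfold comb Rc
      have e2 : ∀ y, (∑ i, a i * f i (scl β * g * y) (rdM N β • c)) * (χ y : ℂ) =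
          ∑ i, a i * (f i (scl β * g * y) (rdM N β • c) * (χ y : ℂ)) := by
        intro y
        rw [Finset.sum_mul]
        exact Finset.sum_congr rfl fun i _ => mul_assoc _ _ _
      simp only [e2]
      rw [integral_finsetSum _ fun i _ => (integrable_Rc hF (hf i) (hL i) hχ hχc (scl β * g) (rdM N β • c)).const_mul _,
        Finset.mul_sum]
      refine Finset.sum_congr rfl fun i _ => ?_
      rw [integral_const_mul]
      ring
    rw [Finset.sum_congr rfl e1, Finset.sum_comm, hS, Complex.ofReal_sum]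
    refine Finset.sum_congr rfl fun i _ => ?_
    rw [← Finset.mul_sum, haw i]
    change _ = star (w i) * w i
    rw [mul_comm, Complex.star_def, Complex.mul_conj, Complex.normSq_eq_norm_sq]
  set b : GR n → ℝ≥0∞ := fun y => ‖χ y‖ₑ with hb
  have hbm : Measurable b := hχ.measurable.enorm
  set wt : MZ n → ℝ≥0∞ := fun β => ‖a₀ β‖ₑ with hwt
  have hle : ENNReal.ofReal S ≤
      ∑ β ∈ T, wt β * ∫⁻ y, ‖comb a f (scl β * g * y) (rdM N β • c)‖ₑ * b y ∂(mu n) := by
    have e1 : ENNReal.ofReal S = ‖(S : ℂ)‖ₑ := by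
      rw [← ofReal_norm, Complex.norm_real, Real.norm_of_nonneg hS0]
    rw [e1, hval]
    refine (enorm_sum_le _ _).trans (Finset.sum_le_sum fun β _ => ?_)
    rw [enorm_mul]
    gcongr
    refine (enorm_integral_le_lintegral_enorm _).trans_eq (lintegral_congr fun y => ?_)
    rw [enorm_mul]
    congr 1
    rw [hb, ← ofReal_norm, Complex.norm_real, ofReal_norm]
  have hkey := besselW hF wt hT hbm hKm (B := ENNReal.ofReal B) (b := b)
    (fun y hy => by rw [hb]; simp [image_eq_zero_of_notMem_tsupport hy])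
    (fun y => by rw [hb]; simp only; rw [← ofReal_norm]; exact ENNReal.ofReal_le_ofReal (hB y)) hM
    (U := fun x c => ‖comb a f x c‖ₑ) (fun c => (hu.measurable c).enorm)
    (fun γ x c => congrArg (fun z : ℂ => ‖z‖ₑ) (hu.invariant γ x c)) g c
  rw [norm_comb a hf hL ho] at hkey
  set Q : ℝ≥0∞ := ∑ β ∈ T, ∑ β' ∈ T, wt β * wt β' *
    ((Nat.card (pr M g c β β') : ℝ≥0∞) * (ENNReal.ofReal B ^ 2 * mu n (tsupport χ))) with hQ
  have hmain : ENNReal.ofReal S ≤ Q := by
    by_cases h0 : ENNReal.ofReal S = 0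
    · rw [h0]; exact bot_le
    · have h3 : ENNReal.ofReal S * ENNReal.ofReal S ≤ Q * ENNReal.ofReal S := by
        refine le_trans ?_ hkey
        rw [← pow_two]
        gcongr
      exact (ENNReal.mul_le_mul_iff_left h0 ENNReal.ofReal_ne_top).mp h3
  rw [hLHS]
  refine hmain.trans ?_
  have e1 : mu n (tsupport χ) = ENNReal.ofReal (mu n (tsupport χ)).toReal :=
    (ENNReal.ofReal_toReal hK.measure_lt_top.ne).symm
  have e2 : Q = ENNReal.ofReal (∑ β ∈ T, ∑ β' ∈ T, ‖a₀ β‖ * ‖a₀ β'‖ *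
      ((Nat.card (pr M g c β β') : ℝ) * (B ^ 2 * (mu n (tsupport χ)).toReal))) := by
    rw [hQ, ENNReal.ofReal_sum_of_nonneg fun β _ => Finset.sum_nonneg fun β' _ => by positivity]
    refine Finset.sum_congr rfl fun β _ => ?_
    rw [ENNReal.ofReal_sum_of_nonneg fun β' _ => by positivity]
    refine Finset.sum_congr rfl fun β' _ => ?_
    rw [ENNReal.ofReal_mul (by positivity), ENNReal.ofReal_mul (by positivity), ENNReal.ofReal_mul (by positivity),
      ENNReal.ofReal_mul (by positivity), ofReal_norm, ofReal_norm, ENNReal.ofReal_natCast, ENNReal.ofReal_pow hB0,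
      ← e1]
  rw [e2]
  refine ENNReal.ofReal_le_ofReal ?_
  rw [Finset.mul_sum]
  refine Finset.sum_le_sum fun β _ => ?_
  rw [Finset.mul_sum]
  refine Finset.sum_le_sum fun β' _ => ?_
  have h5 : 0 ≤ ‖a₀ β‖ * ‖a₀ β'‖ * (Nat.card (pr M g c β β') : ℝ) := by positivity
  nlinarith

end Pool.Agent.T2h79.LG
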