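import Pool.Agent.T2h79.LG.Stm

/-!
# Project LG: task ASL, part A (integrability, blocks)
-/

set_option autoImplicit false

open MeasureTheory Matrix
open scoped MatrixGroups ENNReal Topology

noncomputable section

namespace Pool.Agent.T2h79.LG.ASL

open Pool.Agent.T2h77.N

/-- the point of evaluation -/
abbrev pt (σ v : ℝ) : ℂ := (σ : ℂ) + v * Complex.I

theorem pt_re (σ v : ℝ) : (pt σ v).re = σ := by simp [pt]

theorem nrm_pow {m : ℕ} (hm : 0 < m) (σ v : ℝ) : ‖(m : ℂ) ^ (-pt σ v)‖ = (m : ℝ) ^ (-σ) := by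
  rw [Complex.norm_natCast_cpow_of_pos hm, Complex.neg_re, pt_re]

theorem block {ε : ℝ} (hε : 0 ≤ ε) (N j : ℕ) (v : ℝ) :
    ∑ m ∈ Bl N j, ‖(m : ℂ) ^ (-pt (1 / 2 + ε) v)‖ ^ 2 * (m : ℝ) ^ ε ≤ 1 := by
  have h1 : ∀ m ∈ Bl N j, ‖(m : ℂ) ^ (-pt (1 / 2 + ε) v)‖ ^ 2 * (m : ℝ) ^ ε ≤ ((2 : ℝ) ^ j)⁻¹ := by
    intro m hm
    have hm2 : 2 ^ j ≤ m := (Finset.mem_filter.1 hm).2.1
    have hm0 : 0 < m := lt_of_lt_of_le (by positivity) hm2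
    have hm1 : (1 : ℝ) ≤ m := by exact_mod_cast hm0
    have hm3 : (2 : ℝ) ^ j ≤ m := by exact_mod_cast hm2
    have hmp : (0 : ℝ) < m := by linarith
    rw [nrm_pow hm0, ← Real.rpow_natCast, ← Real.rpow_mul hmp.le, ← Real.rpow_add hmp]
    calc (m : ℝ) ^ (-(1 / 2 + ε) * (2 : ℕ) + ε) ≤ (m : ℝ) ^ (-1 : ℝ) :=
          Real.rpow_le_rpow_of_exponent_le hm1 (by push_cast; linarith)
      _ = (m : ℝ)⁻¹ := Real.rpow_neg_one _
      _ ≤ ((2 : ℝ) ^ j)⁻¹ := inv_anti₀ (by positivity) hm3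
  have h2 : (Bl N j).card ≤ 2 ^ j := by
    have : Bl N j ⊆ Finset.Ico (2 ^ j) (2 ^ (j + 1)) := by
      intro m hm
      have := Finset.mem_filter.1 hm
      exact Finset.mem_Ico.2 ⟨this.2.1, Finset.mem_range.1 this.1⟩
    refine (Finset.card_le_card this).trans ?_
    rw [Nat.card_Ico, pow_succ]
    omega
  calc _ ≤ ∑ m ∈ Bl N j, ((2 : ℝ) ^ j)⁻¹ := Finset.sum_le_sum h1
    _ = (Bl N j).card * ((2 : ℝ) ^ j)⁻¹ := by rw [Finset.sum_const, nsmul_eq_mul]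
    _ ≤ (2 : ℝ) ^ j * ((2 : ℝ) ^ j)⁻¹ := by
        gcongr
        exact_mod_cast h2
    _ = 1 := mul_inv_cancel₀ (by positivity)

theorem cont_sum (B : Finset ℕ) (a : ℕ → ℂ) (σ : ℝ) (hB : ∀ m ∈ B, 0 < m) :
    Continuous fun v : ℝ => ∑ m ∈ B, a m * (m : ℂ) ^ (-pt σ v) := by
  refine continuous_finset_sum _ fun m hm => continuous_const.mul ?_
  have hm0 : (m : ℂ) ≠ 0 := by
    have := hB m hm
    exact_mod_cast this.ne'
  have : Continuous fun v : ℝ => -pt σ v := by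
    unfold pt
    fun_prop
  exact this.const_cpow (Or.inl hm0)

theorem bdd_sum (B : Finset ℕ) (a : ℕ → ℂ) (σ : ℝ) (hB : ∀ m ∈ B, 0 < m) (v : ℝ) :
    ‖∑ m ∈ B, a m * (m : ℂ) ^ (-pt σ v)‖ ≤ ∑ m ∈ B, ‖a m‖ * (m : ℝ) ^ (-σ) := by
  refine (norm_sum_le _ _).trans (Finset.sum_le_sum fun m hm => ?_)
  rw [norm_mul, nrm_pow (hB m hm)]

theorem integrable_sq (B : Finset ℕ) (a : ℕ → ℂ) (σ : ℝ) (hB : ∀ m ∈ B, 0 < m) :
    Integrable fun v : ℝ => (1 + v ^ 2)⁻¹ * ‖∑ m ∈ B, a m * (m : ℂ) ^ (-pt σ v)‖ ^ 2 := by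
  refine integrable_inv_one_add_sq.mul_bdd (c := (∑ m ∈ B, ‖a m‖ * (m : ℝ) ^ (-σ)) ^ 2)
    ((cont_sum B a σ hB).norm.pow 2).aestronglyMeasurable (Filter.Eventually.of_forall fun v => ?_)
  rw [norm_pow, norm_norm]
  exact pow_le_pow_left₀ (norm_nonneg _) (bdd_sum B a σ hB v) 2

/-- integration of a pointwise bound -/
theorem sum_int {ι : Type} (Q : Finset ι) (g : ι → ℝ → ℝ) (W : ℝ)
    (hg : ∀ i ∈ Q, Integrable fun v : ℝ => (1 + v ^ 2)⁻¹ * g i v) (hW : ∀ v, ∑ i ∈ Q, g i v ≤ W) :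
    ∑ i ∈ Q, ∫ v : ℝ, (1 + v ^ 2)⁻¹ * g i v ≤ Real.pi * W := by
  rw [← integral_finset_sum _ hg]
  have e : ∫ v : ℝ, (1 + v ^ 2)⁻¹ * W = Real.pi * W := by
    rw [integral_mul_const, integral_univ_inv_one_add_sq]
  rw [← e]
  refine integral_mono (integrable_finset_sum _ hg) (integrable_inv_one_add_sq.mul_const W) fun v => ?_
  show ∑ i ∈ Q, (1 + v ^ 2)⁻¹ * g i v ≤ (1 + v ^ 2)⁻¹ * W
  rw [← Finset.mul_sum]
  exact mul_le_mul_of_nonneg_left (hW v) (by positivity)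

/-- from the large sieve inequality with masses to real numbers -/
theorem real_of_mass {ι : Type} [Fintype ι] (Q : Finset ι) (z : ι → ℂ) (ms : ι → ℝ≥0∞) (W : ℝ)
    (h : ∑ i, ‖z i‖ₑ ^ 2 * ms i ≤ ENNReal.ofReal W) (hQ : ∀ i ∈ Q, ENNReal.ofReal (1 / 8) ≤ ms i) (hW : 0 ≤ W) :
    ∑ i ∈ Q, ‖z i‖ ^ 2 ≤ 8 * W := by
  have h1 : ENNReal.ofReal ((∑ i ∈ Q, ‖z i‖ ^ 2) * (1 / 8)) ≤ ENNReal.ofReal W := by
    refine le_trans ?_ h
    rw [ENNReal.ofReal_mul (by positivity), ENNReal.ofReal_sum_of_nonneg fun i _ => by positivity, Finset.sum_mul]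
    refine (Finset.sum_le_sum fun i hi => ?_).trans (Finset.sum_le_sum_of_subset (Finset.subset_univ Q))
    refine mul_le_mul' (le_of_eq ?_) (hQ i hi)
    rw [ENNReal.ofReal_pow (norm_nonneg _), ofReal_norm]
  rw [ENNReal.ofReal_le_ofReal_iff hW] at h1
  linarith

end Pool.Agent.T2h79.LG.ASL
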