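import Pool.Agent.T2h79.LG.AslA

/-!
# Project LG: task ASL, part B (numerical lemmas, one form)
-/

set_option autoImplicit false

open MeasureTheory Matrix
open scoped MatrixGroups ENNReal Topology

noncomputable section

namespace Pool.Agent.T2h79.LG.ASL

open Pool.Agent.T2h77.N

/-- the condition of the large sieve inequality -/
theorem num_cond (n : ℕ) (hn : 1 ≤ n) {T₁ C₀ C₁ e η : ℝ} (hT : 1 ≤ T₁) (hC₀ : 1 ≤ C₀) (hC₁ : 1 ≤ C₁) (he0 : 0 < e)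
    (he : e ≤ 1 / (160 * (n + 1))) (hη : 0 < η) (hηe : η ≤ e) :
    ∃ A : ℝ, 1 ≤ A ∧ ∀ N : ℝ, A ≤ N →
      2 * (T₁ * N ^ n) ^ (1 / 2 + e) * (C₀ * (C₁ * N ^ η) ^ n / N) ^ n ≤ 1 := by
  set B : ℝ := 2 * T₁ ^ (1 / 2 + e) * (C₀ * C₁ ^ n) ^ n with hB
  have hB1 : 1 ≤ B := by
    have h1 : 1 ≤ T₁ ^ (1 / 2 + e) := Real.one_le_rpow hT (by positivity)
    have h2 : 1 ≤ (C₀ * C₁ ^ n) ^ n := one_le_pow₀ (one_le_mul_of_one_le_of_one_le hC₀ (one_le_pow₀ hC₁))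
    nlinarith
  refine ⟨B ^ 4, one_le_pow₀ hB1, fun N hN => ?_⟩
  have hN1 : 1 ≤ N := (one_le_pow₀ hB1).trans hN
  have hN0 : 0 < N := by linarith
  have hn' : (1 : ℝ) ≤ n := by exact_mod_cast hn
  have e1 : (T₁ * N ^ n) ^ (1 / 2 + e) = T₁ ^ (1 / 2 + e) * N ^ (n * (1 / 2 + e)) := by
    rw [Real.mul_rpow (by positivity) (by positivity), ← Real.rpow_natCast, ← Real.rpow_mul hN0.le]
  have e2 : (C₀ * (C₁ * N ^ η) ^ n / N) ^ n = (C₀ * C₁ ^ n) ^ n * N ^ ((η * n - 1) * n) := by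
    have : C₀ * (C₁ * N ^ η) ^ n / N = C₀ * C₁ ^ n * N ^ (η * n - 1) := by
      rw [mul_pow, ← Real.rpow_natCast (N ^ η) n, ← Real.rpow_mul hN0.le, Real.rpow_sub_one hN0.ne']
      ring
    rw [this, mul_pow, ← Real.rpow_natCast (N ^ (η * n - 1)) n, ← Real.rpow_mul hN0.le]
  rw [e1, e2]
  have e3 : 2 * (T₁ ^ (1 / 2 + e) * N ^ (n * (1 / 2 + e))) * ((C₀ * C₁ ^ n) ^ n * N ^ ((η * n - 1) * n)) =
      B * N ^ (n * (1 / 2 + e) + (η * n - 1) * n) := by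
    rw [Real.rpow_add hN0, hB]
    ring
  rw [e3]
  have h3 : (n : ℝ) * (1 / 2 + e) + (η * n - 1) * n ≤ -(1 / 4) := by
    have h4 : e * (160 * (n + 1)) ≤ 1 := by
      rwa [le_div_iff₀ (by positivity)] at he
    have h5 : η * n ≤ 1 / 160 := by nlinarith
    have h6 : (n : ℝ) * (1 / 2 + e) + (η * n - 1) * n = n * (e + η * n - 1 / 2) := by ring
    have h7 : e ≤ 1 / 160 := by nlinarith
    rw [h6]
    nlinarith
  calc B * N ^ ((n : ℝ) * (1 / 2 + e) + (η * n - 1) * n) ≤ B * N ^ (-(1 / 4) : ℝ) := by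
        gcongr
    _ ≤ 1 := by
        rw [Real.rpow_neg hN0.le, ← div_eq_mul_inv, div_le_one (by positivity)]
        calc B = (B ^ 4) ^ (1 / 4 : ℝ) := by
              rw [← Real.rpow_natCast, ← Real.rpow_mul (by positivity)]
              norm_num
          _ ≤ N ^ (1 / 4 : ℝ) := Real.rpow_le_rpow (by positivity) hN (by norm_num)

/-- the logarithmic factors -/
theorem num_log (n : ℕ) {T₁ C₁ e η : ℝ} (hT : 1 ≤ T₁) (hC₁ : 1 ≤ C₁) (he0 : 0 < e) (he1 : e ≤ 1 / 2) (hη : 0 < η)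
    (hη1 : η ≤ 1) :
    ∃ A : ℝ, 1 ≤ A ∧ ∀ (N : ℝ) (J : ℕ), 1 ≤ N → (2 : ℝ) ^ J ≤ 2 * (T₁ * N ^ n) ^ (1 / 2 + e) →
      (J : ℝ) * J * (1 + Real.log (C₁ * N ^ η)) ^ n ≤ A * N ^ e := by
  obtain ⟨C, hC, h1⟩ := log_pow_le (n + 2) e he0
  have hlT : 0 ≤ Real.log T₁ := Real.log_nonneg hT
  have hlC : 0 ≤ Real.log C₁ := Real.log_nonneg hC₁
  set a : ℝ := 2 * (1 + Real.log T₁ + n) with ha
  have ha1 : 1 ≤ a := by
    have : (0 : ℝ) ≤ n := Nat.cast_nonneg n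
    rw [ha]
    linarith
  refine ⟨a * a * (1 + Real.log C₁) ^ n * C, by
    have h2 : 1 ≤ (1 + Real.log C₁) ^ n := one_le_pow₀ (by linarith)
    exact one_le_mul_of_one_le_of_one_le (one_le_mul_of_one_le_of_one_le
      (one_le_mul_of_one_le_of_one_le ha1 ha1) h2) hC, fun N J hN hJ => ?_⟩
  have hN0 : 0 < N := by linarith
  have hl : 0 ≤ Real.log N := Real.log_nonneg hN
  have hJ1 : (J : ℝ) ≤ a * (1 + Real.log N) := by
    have h3 := Real.log_le_log (by positivity) hJ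
    rw [Real.log_pow, Real.log_mul (by norm_num) (by positivity), Real.log_rpow (by positivity),
      Real.log_mul (by positivity) (by positivity), Real.log_pow] at h3
    have h4 : (0.69 : ℝ) < Real.log 2 := by
      have := Real.log_two_gt_d9
      linarith
    have h5 : Real.log 2 < 0.70 := by
      have := Real.log_two_lt_d9
      linarith
    have h6 : (0 : ℝ) ≤ n * Real.log N := by positivity
    have h7 : (J : ℝ) * 0.69 ≤ 0.70 + 1 * (Real.log T₁ + n * Real.log N) := by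
      have hJ0 : (0 : ℝ) ≤ J := Nat.cast_nonneg J
      nlinarith
    rw [ha]
    have hn0 : (0 : ℝ) ≤ n := Nat.cast_nonneg n
    nlinarith [mul_nonneg hlT hl]
  have hY : 1 + Real.log (C₁ * N ^ η) ≤ (1 + Real.log C₁) * (1 + Real.log N) := by
    rw [Real.log_mul (by positivity) (by positivity), Real.log_rpow hN0]
    nlinarith [mul_nonneg hlC hl]
  have hY0 : 0 ≤ 1 + Real.log (C₁ * N ^ η) := by
    rw [Real.log_mul (by positivity) (by positivity), Real.log_rpow hN0]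
    positivity
  calc (J : ℝ) * J * (1 + Real.log (C₁ * N ^ η)) ^ n
      ≤ (a * (1 + Real.log N)) * (a * (1 + Real.log N)) * ((1 + Real.log C₁) * (1 + Real.log N)) ^ n := by
        gcongr
    _ = a * a * (1 + Real.log C₁) ^ n * (1 + Real.log N) ^ (n + 2) := by
        rw [mul_pow]
        ring
    _ ≤ a * a * (1 + Real.log C₁) ^ n * (C * N ^ e) := by
        gcongr
        exact h1 N hN
    _ = _ := by ring

/-- the bound for one form -/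
theorem one_form (hD : S_dya) {n : ℕ} {D : LData n} {e CA CF N T₁ δ ε t : ℝ} {K J M : ℕ} {E : Finset ℕ}
    (hN : 1 ≤ N) (hCA : 1 ≤ CA) (hCF : 1 ≤ CF) (he : 0 < e) (hT : 1 ≤ T₁) (hq1 : 1 ≤ D.q)
    (hq : D.q ≤ T₁ * N ^ n) (hδ : δ * K ≤ e) (hδ0 : 0 ≤ δ) (ht : |t| ≤ N ^ δ) (hE : ∀ m ∈ E, 0 < m)
    (hL : N ^ ε < ‖D.L (1 / 2 + t * Complex.I)‖)
    (hafe : ‖D.L (1 / 2 + t * Complex.I)‖ ^ 2 ≤ CA * (1 + |t|) ^ K * (1 + D.q ^ e *
      ∫ v : ℝ, (1 + v ^ 2)⁻¹ * ‖∑ m ∈ E, D.lam m * (m : ℂ) ^ (-pt (1 / 2 + e) v)‖ ^ 2))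
    (hfac : ∀ v : ℝ, ‖∑ m ∈ E, D.lam m * (m : ℂ) ^ (-pt (1 / 2 + e) v)‖ ≤
      CF * N ^ e * ‖∑ m ∈ M2 M J, D.lam m * (m : ℂ) ^ (-pt (1 / 2 + e) v)‖) :
    N ^ (2 * ε) ≤ CA * 2 ^ K * N ^ e * (1 + (T₁ * N ^ n) ^ e * ((CF * N ^ e) ^ 2 * (J * ∑ j ∈ Finset.range J,
      ∫ v : ℝ, (1 + v ^ 2)⁻¹ * ‖∑ m ∈ Bl M j, D.lam m * (m : ℂ) ^ (-pt (1 / 2 + e) v)‖ ^ 2))) := by
  have hN0 : 0 < N := by linarith
  have hBl : ∀ j, ∀ m ∈ Bl M j, 0 < m := fun j m hm =>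
    lt_of_lt_of_le (by positivity) (Finset.mem_filter.1 hm).2.1
  have hint := fun j => integrable_sq (Bl M j) D.lam (1 / 2 + e) (hBl j)
  set I : ℕ → ℝ := fun j => ∫ v : ℝ, (1 + v ^ 2)⁻¹ * ‖∑ m ∈ Bl M j, D.lam m * (m : ℂ) ^ (-pt (1 / 2 + e) v)‖ ^ 2
    with hI
  have h1 : ∫ v : ℝ, (1 + v ^ 2)⁻¹ * ‖∑ m ∈ E, D.lam m * (m : ℂ) ^ (-pt (1 / 2 + e) v)‖ ^ 2 ≤
      (CF * N ^ e) ^ 2 * (J * ∑ j ∈ Finset.range J, I j) := by
    have e1 : (CF * N ^ e) ^ 2 * (J * ∑ j ∈ Finset.range J, I j) =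
        ∫ v : ℝ, (CF * N ^ e) ^ 2 * (J * ∑ j ∈ Finset.range J,
          (1 + v ^ 2)⁻¹ * ‖∑ m ∈ Bl M j, D.lam m * (m : ℂ) ^ (-pt (1 / 2 + e) v)‖ ^ 2) := by
      rw [integral_const_mul, integral_const_mul, integral_finset_sum _ fun j _ => hint j]
    rw [e1]
    refine integral_mono (integrable_sq E D.lam _ hE)
      (((integrable_finset_sum _ fun j _ => hint j).const_mul _).const_mul _) fun v => ?_
    show (1 + v ^ 2)⁻¹ * ‖∑ m ∈ E, D.lam m * (m : ℂ) ^ (-pt (1 / 2 + e) v)‖ ^ 2 ≤ _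
    rw [← Finset.mul_sum]
    have h2 := hD M J fun m => D.lam m * (m : ℂ) ^ (-pt (1 / 2 + e) v)
    have h3 : ‖∑ m ∈ E, D.lam m * (m : ℂ) ^ (-pt (1 / 2 + e) v)‖ ^ 2 ≤
        (CF * N ^ e) ^ 2 * (J * ∑ j ∈ Finset.range J, ‖∑ m ∈ Bl M j, D.lam m * (m : ℂ) ^ (-pt (1 / 2 + e) v)‖ ^ 2) := by
      calc _ ≤ (CF * N ^ e * ‖∑ m ∈ M2 M J, D.lam m * (m : ℂ) ^ (-pt (1 / 2 + e) v)‖) ^ 2 :=
            pow_le_pow_left₀ (norm_nonneg _) (hfac v) 2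
        _ = (CF * N ^ e) ^ 2 * ‖∑ m ∈ M2 M J, D.lam m * (m : ℂ) ^ (-pt (1 / 2 + e) v)‖ ^ 2 := by ring
        _ ≤ _ := mul_le_mul_of_nonneg_left h2 (by positivity)
    calc _ ≤ (1 + v ^ 2)⁻¹ * ((CF * N ^ e) ^ 2 * (J * ∑ j ∈ Finset.range J,
          ‖∑ m ∈ Bl M j, D.lam m * (m : ℂ) ^ (-pt (1 / 2 + e) v)‖ ^ 2)) :=
          mul_le_mul_of_nonneg_left h3 (by positivity)
      _ = _ := by ring
  have hI0 : ∀ j, 0 ≤ I j := fun j => integral_nonneg fun v => by positivity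
  have hS0 : 0 ≤ (CF * N ^ e) ^ 2 * (J * ∑ j ∈ Finset.range J, I j) := by
    have : 0 ≤ ∑ j ∈ Finset.range J, I j := Finset.sum_nonneg fun j _ => hI0 j
    positivity
  have h4 : (1 + |t|) ^ K ≤ 2 ^ K * N ^ e := by
    have h5 : 1 + |t| ≤ 2 * N ^ δ := by
      have := Real.one_le_rpow hN hδ0
      linarith
    calc (1 + |t|) ^ K ≤ (2 * N ^ δ) ^ K := pow_le_pow_left₀ (by positivity) h5 K
      _ = 2 ^ K * N ^ (δ * K) := by rw [mul_pow, ← Real.rpow_natCast (N ^ δ) K, ← Real.rpow_mul hN0.le]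
      _ ≤ 2 ^ K * N ^ e := mul_le_mul_of_nonneg_left (Real.rpow_le_rpow_of_exponent_le hN hδ) (by positivity)
  have h6 : D.q ^ e ≤ (T₁ * N ^ n) ^ e := Real.rpow_le_rpow (by linarith) hq he.le
  calc N ^ (2 * ε) = (N ^ ε) ^ 2 := by
        rw [← Real.rpow_natCast, ← Real.rpow_mul hN0.le]
        congr 1
        push_cast
        ring
    _ ≤ ‖D.L (1 / 2 + t * Complex.I)‖ ^ 2 := pow_le_pow_left₀ (by positivity) hL.le 2
    _ ≤ _ := hafe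
    _ ≤ CA * (2 ^ K * N ^ e) * (1 + (T₁ * N ^ n) ^ e * ((CF * N ^ e) ^ 2 * (J * ∑ j ∈ Finset.range J, I j))) := by
        have hi : 0 ≤ ∫ v : ℝ, (1 + v ^ 2)⁻¹ * ‖∑ m ∈ E, D.lam m * (m : ℂ) ^ (-pt (1 / 2 + e) v)‖ ^ 2 :=
          integral_nonneg fun v => by positivity
        have hq0 : 0 ≤ D.q ^ e := by positivity
        refine mul_le_mul (mul_le_mul_of_nonneg_left h4 (by linarith)) ?_ (by positivity) (by positivity)
        linarith [mul_le_mul h6 h1 hi (by positivity)]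
    _ = _ := by ring

end Pool.Agent.T2h79.LG.ASL
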