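import Pool.Agent.T2h77N.Asm3

/-!
# The Lindelöf bound for almost all cusp forms of `GL_n` of principal level: definitions

The cusp forms are those of `Pool.Agent.T2h77N.Defs` (`IsForm`, `IsCusp`, `IsL2`, `IsSlow`, `ip`), of level `⊥`,
that is, functions on `SL_n(ℤ) \ (SL_n(ℝ) × GL_n(ℤ/N))`: all automorphic forms for `GL_n` over `ℚ` of principal
level `N`.
-/

set_option autoImplicit false

open MeasureTheory Matrix
open scoped MatrixGroups ENNReal Topology ComplexConjugate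

noncomputable section

namespace Pool.Agent.T2h79.LG

open Pool.Agent.T2h77.N

/-- The data of a standard L-function of degree `n` over `ℚ`: conductor `q`, archimedean parameters `μ_j` (the
gamma factor is `∏ Γ_ℝ(s - μ_j)`), Satake parameters `α_j(p)` (some may be zero at the ramified primes), root number
`w` and completed L-function `Λ(s) = ∏ Γ_ℝ(s - μ_j) L(s)`. -/
structure LData (n : ℕ) where
  /-- the conductor -/
  q : ℝ
  /-- the archimedean parameters -/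
  μ : Fin n → ℂ
  /-- the Satake parameters -/
  α : ℕ → Fin n → ℂ
  /-- the root number -/
  w : ℂ
  /-- the completed L-function -/
  Λ : ℂ → ℂ

/-- The analytic properties of the standard L-function of a unitary cuspidal automorphic representation of `GL_n`
over `ℚ`, `n ≥ 2` (all known: Godement-Jacquet, Jacquet-Shalika). -/
structure LData.Ok {n : ℕ} (D : LData n) : Prop where
  one_le : 1 ≤ D.q
  re_le : ∀ j, (D.μ j).re ≤ 1 / 2
  satake : ∀ p : ℕ, p.Prime → ∀ j, ‖D.α p j‖ ≤ Real.sqrt p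
  w_norm : ‖D.w‖ = 1
  entire : Differentiable ℂ D.Λ
  bdd : ∀ a b : ℝ, ∃ M, ∀ s : ℂ, a ≤ s.re → s.re ≤ b → ‖D.Λ s‖ ≤ Real.exp (M * (1 + |s.im|))
  euler : ∀ s : ℂ, 3 / 2 < s.re → D.Λ s = (∏ j, Complex.Gammaℝ (s - D.μ j)) *
    ∏' p : Nat.Primes, ∏ j, (1 - D.α p j * ((p : ℕ) : ℂ) ^ (-s))⁻¹
  fe : ∀ s : ℂ, D.Λ s = D.w * (D.q : ℂ) ^ (1 / 2 - s) * conj (D.Λ (1 - conj s))

/-- The L-function. -/
def LData.L {n : ℕ} (D : LData n) (s : ℂ) : ℂ := D.Λ s * ∏ j, (Complex.Gammaℝ (s - D.μ j))⁻¹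

/-- The Dirichlet coefficients: multiplicative, with the complete homogeneous symmetric polynomial `h_k(α(p))` of
the Satake parameters at `p ^ k`. -/
def LData.lam {n : ℕ} (D : LData n) (m : ℕ) : ℂ := m.factorization.prod fun p k => hs (D.α p) k

/-- `f` is an eigenfunction of the Hecke operators `T(m)`, `m` prime to `N`, where `T(m)` is the sum over the
integral matrices of determinant `m` modulo `SL_n(ℤ)`, with the eigenvalues `m ^ ((n - 1) / 2) l m`. -/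
def IsEig {n N : ℕ} {H : Subgroup (GN n N)} (l : ℕ → ℂ) (f : GR n → XX H → ℂ) : Prop :=
  ∀ (m : ℕ) (R : Finset (MZ n)), 0 < m → m.Coprime N → IsReps (m : ℤ) R → ∀ (g : GR n) (c : XX H),
    ∑ β ∈ R, f (scl β * g) (rdM N β • c) = (((m : ℝ) ^ (((n : ℝ) - 1) / 2) : ℝ) : ℂ) * l m * f g c

/-- The theorem: the Lindelöf bound for all but `O(|GL_n(ℤ/N)| N ^ (-δ))` members of an orthonormal family of
cusp forms of principal level `N`. -/
def S_main : Prop :=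
  ∀ n : ℕ, 3 ≤ n → ∀ U : Set (GR n), U ∈ 𝓝 (1 : GR n) → ∀ T ε : ℝ, 0 < ε → ∃ δ C : ℝ, 0 < δ ∧ 0 < C ∧
    ∀ (N : ℕ) [NeZero N] (F : Set (GR n)), IsFD F →
    ∀ (k : ℕ) (f : Fin k → GR n → XX (⊥ : Subgroup (GN n N)) → ℂ) (D : Fin k → LData n),
      (∀ i, IsForm ⊥ (f i) ∧ IsL2 F (f i) ∧ IsCusp (f i) ∧ IsSlow U F (f i)) →
      (∀ i j, ip F (f i) (f j) = if i = j then 1 else 0) →
      (∀ i, (D i).Ok ∧ IsEig (D i).lam (f i) ∧ (D i).q ≤ T * (N : ℝ) ^ n ∧ ∀ j, ‖(D i).μ j‖ ≤ T) →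
      (∀ i, ∃ t : ℝ, |t| ≤ (N : ℝ) ^ δ ∧ (N : ℝ) ^ ε < ‖(D i).L (1 / 2 + t * Complex.I)‖) →
      (k : ℝ) ≤ C * Nat.card (GN n N) * (N : ℝ) ^ (-δ)

/-! ### Counting -/

/-- `#{w ∈ ℤ^n : |β⁻¹ w|_∞ ≤ r}` -/
def av {n : ℕ} (β : MZ n) (r : ℝ) : ℕ :=
  Nat.card {w : Fin n → ℤ // ∀ i, |(((β.adjugate *ᵥ w) i : ℤ) : ℝ)| ≤ (β.det : ℝ) * r}

/-- the `γ ∈ SL_n(ℤ)` which contribute to the pair `β`, `β'` in the trace inequality -/
def pr {n N : ℕ} {H : Subgroup (GN n N)} (M : ℝ) (g : GR n) (c : XX H) (β β' : MZ n) : Set (GZ n) :=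
  {γ | rdM N β • c = rdM N ((γ : MZ n) * β') • c ∧ ∀ i j, |(g⁻¹ * (scl β)⁻¹ * scl ((γ : MZ n) * β') * g) i j| ≤ M}

/-- `K_q = {c ∈ ℤ^ρ : q c ∈ ℤ^n}` -/
def KK {n ρ : ℕ} (q : Matrix (Fin n) (Fin ρ) ℚ) : AddSubgroup (Fin ρ → ℤ) where
  carrier := {c | ∀ i, ∃ z : ℤ, ∑ j, q i j * (c j : ℚ) = z}
  add_mem' := by
    intro a b ha hb i
    obtain ⟨x, hx⟩ := ha i
    obtain ⟨y, hy⟩ := hb i
    refine ⟨x + y, ?_⟩
    push_cast
    rw [← hx, ← hy, ← Finset.sum_add_distrib]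
    exact Finset.sum_congr rfl fun j _ => by rw [Pi.add_apply]; push_cast; ring
  zero_mem' := fun i => ⟨0, by simp⟩
  neg_mem' := by
    intro a ha i
    obtain ⟨x, hx⟩ := ha i
    refine ⟨-x, ?_⟩
    push_cast
    rw [← hx, ← Finset.sum_neg_distrib]
    exact Finset.sum_congr rfl fun j _ => by rw [Pi.neg_apply]; push_cast; ring

/-- `L_q = {v ∈ ℤ^n : v q ∈ ℤ^ρ}` -/
def LL {n ρ : ℕ} (q : Matrix (Fin n) (Fin ρ) ℚ) : AddSubgroup (Fin n → ℤ) := KK q.transpose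

/-- `β q` is integral -/
def Itg {n ρ : ℕ} (β : MZ n) (q : Matrix (Fin n) (Fin ρ) ℚ) : Prop :=
  ∀ i j, ∃ z : ℤ, ∑ k, (β i k : ℚ) * q k j = z

end Pool.Agent.T2h79.LG
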