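import Pool.Agent.T2h79.LG.Stm

/-!
# AFE: the approximate functional equation as an inequality
-/

set_option autoImplicit false

open MeasureTheory Matrix
open scoped MatrixGroups ENNReal Topology ComplexConjugate

noncomputable section

namespace Pool.Agent.T2h79.LG.AFE

/-! ### The Gamma factor -/

theorem norm_Gamma_le {z : ℂ} (hz : 0 < z.re) : ‖Complex.Gamma z‖ ≤ Real.Gamma z.re := by
  rw [Complex.Gamma_eq_integral hz, Real.Gamma_eq_integral hz, Complex.GammaIntegral]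
  refine (norm_integral_le_integral_norm _).trans (le_of_eq ?_)
  refine setIntegral_congr_fun measurableSet_Ioi fun x hx => ?_
  have hx' : 0 < x := hx
  simp only [norm_mul, Complex.norm_real, Real.norm_eq_abs, abs_of_pos (Real.exp_pos _)]
  rw [Complex.norm_cpow_eq_rpow_re_of_pos hx']
  simp

theorem norm_GR_le {z : ℂ} (hz : 0 < z.re) : ‖Complex.Gammaℝ z‖ ≤ Real.Gamma (z.re / 2) := by
  have h2 : (z / 2).re = z.re / 2 := by simp
  rw [Complex.Gammaℝ_def, norm_mul, Complex.norm_cpow_eq_rpow_re_of_pos Real.pi_pos]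
  have h1 : Real.pi ^ (-z / 2).re ≤ 1 := by
    apply Real.rpow_le_one_of_one_le_of_nonpos
    · linarith [Real.pi_gt_three]
    · have : (-z / 2).re = -(z.re / 2) := by simp [neg_div]
      rw [this]; linarith
  have h3 : ‖Complex.Gamma (z / 2)‖ ≤ Real.Gamma (z.re / 2) := by
    have := norm_Gamma_le (z := z / 2) (by rw [h2]; positivity)
    rwa [h2] at this
  calc Real.pi ^ (-z / 2).re * ‖Complex.Gamma (z / 2)‖ ≤ 1 * Real.Gamma (z.re / 2) :=
        mul_le_mul h1 h3 (norm_nonneg _) zero_le_one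
    _ = _ := one_mul _

theorem GR_strip (a b : ℝ) (ha : 0 < a) : ∃ B : ℝ, 1 ≤ B ∧ ∀ z : ℂ, a ≤ z.re → z.re ≤ b →
    ‖Complex.Gammaℝ z‖ ≤ B := by
  have hc : ContinuousOn (fun x : ℝ => Real.Gamma (x / 2)) (Set.Icc a b) := by
    intro x hx
    have hx0 : 0 < x / 2 := by have := hx.1; linarith
    have h1 : ContinuousAt Real.Gamma (x / 2) := by
      apply (Real.differentiableAt_Gamma fun m => ?_).continuousAt
      intro h
      have : (0 : ℝ) ≤ m := Nat.cast_nonneg m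
      linarith
    exact (ContinuousAt.comp (f := fun x : ℝ => x / 2) (g := Real.Gamma) h1
      (by fun_prop)).continuousWithinAt
  obtain ⟨B, hB⟩ := isCompact_Icc.bddAbove_image hc
  refine ⟨max B 1, le_max_right _ _, fun z h1 h2 => ?_⟩
  refine (norm_GR_le (lt_of_lt_of_le ha h1)).trans (le_trans (hB ⟨z.re, ⟨h1, h2⟩, rfl⟩) (le_max_left _ _))

theorem GR_diff {z : ℂ} (hz : 0 < z.re) : DifferentiableAt ℂ Complex.Gammaℝ z := by
  have h := (Complex.differentiable_Gammaℝ_inv z).inv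
    (inv_ne_zero (Complex.Gammaℝ_ne_zero_of_re_pos hz))
  have e : (fun s => Complex.Gammaℝ s)⁻¹⁻¹ = Complex.Gammaℝ := by
    funext s; simp
  have e2 : (fun s => (Complex.Gammaℝ s)⁻¹)⁻¹ = Complex.Gammaℝ := by
    funext s; simp
  rwa [e2] at h

/-! ### Elementary estimates -/

theorem exp_le_inv (K v : ℝ) : Real.exp (K * |v|) * Real.exp (-v ^ 2) ≤
    2 * Real.exp (K ^ 2 / 2) * (1 + v ^ 2)⁻¹ := by
  rw [← Real.exp_add, ← div_eq_mul_inv, le_div_iff₀ (by positivity)]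
  have h1 : 1 + v ^ 2 ≤ 2 * Real.exp (v ^ 2 / 2) := by
    have := Real.add_one_le_exp (v ^ 2 / 2)
    linarith
  have h2 : K * |v| ≤ v ^ 2 / 2 + K ^ 2 / 2 := by
    nlinarith [sq_nonneg (K - |v|), sq_abs v]
  calc Real.exp (K * |v| + -v ^ 2) * (1 + v ^ 2)
      ≤ Real.exp (v ^ 2 / 2 + K ^ 2 / 2 + -v ^ 2) * (2 * Real.exp (v ^ 2 / 2)) := by
        apply mul_le_mul (Real.exp_le_exp.mpr (by linarith)) h1 (by positivity) (Real.exp_pos _).le
    _ = 2 * Real.exp (K ^ 2 / 2) := by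
        rw [mul_left_comm, ← Real.exp_add]
        congr 2; ring

theorem norm_exp_sq (c v : ℝ) : ‖Complex.exp (((c : ℂ) + v * Complex.I) ^ 2)‖ =
    Real.exp (c ^ 2) * Real.exp (-v ^ 2) := by
  rw [Complex.norm_exp, ← Real.exp_add]
  congr 1
  have : ((c : ℂ) + v * Complex.I) ^ 2 = ((c ^ 2 - v ^ 2 : ℝ) : ℂ) + ((2 * c * v : ℝ) : ℂ) * Complex.I := by
    push_cast
    ring_nf
    rw [Complex.I_sq]; ring
  rw [this, Complex.add_re, Complex.ofReal_re, Complex.re_ofReal_mul, Complex.I_re]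
  ring

theorem integrable_line (c M : ℝ) (g : ℂ → ℂ) (hg : Continuous fun v : ℝ => g (c + v * Complex.I))
    (hb : ∀ v : ℝ, ‖g (c + v * Complex.I)‖ ≤ Real.exp (M * (1 + |v|))) :
    Integrable fun v : ℝ => g (c + v * Complex.I) * Complex.exp ((c + v * Complex.I) ^ 2) := by
  have hI : Integrable fun v : ℝ => (Real.exp M * Real.exp (c ^ 2) * (2 * Real.exp (M ^ 2 / 2))) * (1 + v ^ 2)⁻¹ :=
    integrable_inv_one_add_sq.const_mul _
  refine hI.mono' ?_ (Filter.Eventually.of_forall fun v => ?_)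
  · exact (hg.mul (by fun_prop)).aestronglyMeasurable
  · rw [norm_mul, norm_exp_sq]
    calc ‖g (c + v * Complex.I)‖ * (Real.exp (c ^ 2) * Real.exp (-v ^ 2))
        ≤ Real.exp (M * (1 + |v|)) * (Real.exp (c ^ 2) * Real.exp (-v ^ 2)) := by
          gcongr; exact hb v
      _ = Real.exp M * Real.exp (c ^ 2) * (Real.exp (M * |v|) * Real.exp (-v ^ 2)) := by
          rw [mul_add, mul_one, Real.exp_add]; ring
      _ ≤ Real.exp M * Real.exp (c ^ 2) * (2 * Real.exp (M ^ 2 / 2) * (1 + v ^ 2)⁻¹) :=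
          mul_le_mul_of_nonneg_left (exp_le_inv M v) (by positivity)
      _ = _ := by ring

/-- the Cauchy-Schwarz inequality for the weight `(1 + v ^ 2)⁻¹` -/
theorem cs_weight (p : ℝ → ℝ) (h1 : Integrable fun v : ℝ => (1 + v ^ 2)⁻¹ * p v)
    (h2 : Integrable fun v : ℝ => (1 + v ^ 2)⁻¹ * p v ^ 2) :
    (∫ v : ℝ, (1 + v ^ 2)⁻¹ * p v) ^ 2 ≤ Real.pi * ∫ v : ℝ, (1 + v ^ 2)⁻¹ * p v ^ 2 := by
  set A := ∫ v : ℝ, (1 + v ^ 2)⁻¹ * p v with hA
  set B := ∫ v : ℝ, (1 + v ^ 2)⁻¹ * p v ^ 2 with hB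
  have h0 : Integrable fun v : ℝ => (1 + v ^ 2)⁻¹ := integrable_inv_one_add_sq
  have key : ∫ v : ℝ, (1 + v ^ 2)⁻¹ * (p v - A / Real.pi) ^ 2 =
      B - 2 * (A / Real.pi) * A + (A / Real.pi) ^ 2 * Real.pi := by
    have e : (fun v : ℝ => (1 + v ^ 2)⁻¹ * (p v - A / Real.pi) ^ 2) = fun v : ℝ =>
        ((1 + v ^ 2)⁻¹ * p v ^ 2 - 2 * (A / Real.pi) * ((1 + v ^ 2)⁻¹ * p v)) +
          (A / Real.pi) ^ 2 * (1 + v ^ 2)⁻¹ := by
      funext v; ring
    have e1 : ∫ v : ℝ, (((1 + v ^ 2)⁻¹ * p v ^ 2 - 2 * (A / Real.pi) * ((1 + v ^ 2)⁻¹ * p v)) +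
          (A / Real.pi) ^ 2 * (1 + v ^ 2)⁻¹) = (∫ v : ℝ, ((1 + v ^ 2)⁻¹ * p v ^ 2 -
          2 * (A / Real.pi) * ((1 + v ^ 2)⁻¹ * p v))) + ∫ v : ℝ, (A / Real.pi) ^ 2 * (1 + v ^ 2)⁻¹ :=
      integral_add (h2.sub (h1.const_mul _)) (h0.const_mul _)
    have e3 : ∫ v : ℝ, ((1 + v ^ 2)⁻¹ * p v ^ 2 - 2 * (A / Real.pi) * ((1 + v ^ 2)⁻¹ * p v)) =
        (∫ v : ℝ, (1 + v ^ 2)⁻¹ * p v ^ 2) - ∫ v : ℝ, 2 * (A / Real.pi) * ((1 + v ^ 2)⁻¹ * p v) :=
      integral_sub h2 (h1.const_mul _)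
    rw [e, e1, e3, integral_const_mul, integral_const_mul, integral_univ_inv_one_add_sq, ← hA, ← hB]
  have hn : 0 ≤ ∫ v : ℝ, (1 + v ^ 2)⁻¹ * (p v - A / Real.pi) ^ 2 :=
    integral_nonneg fun v => by positivity
  rw [key] at hn
  have hpi := Real.pi_pos
  have e2 : B - 2 * (A / Real.pi) * A + (A / Real.pi) ^ 2 * Real.pi = B - A ^ 2 / Real.pi := by
    field_simp; ring
  rw [e2] at hn
  have : A ^ 2 / Real.pi ≤ B := by linarith
  rw [div_le_iff₀ hpi] at this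
  linarith

/-- the change of variables -/
theorem shift_weight (p : ℝ → ℝ) (t : ℝ) (hp : ∀ v, 0 ≤ p v)
    (h1 : Integrable fun v : ℝ => (1 + v ^ 2)⁻¹ * p v) :
    ∫ v : ℝ, (1 + v ^ 2)⁻¹ * p (t + v) ≤ 2 * (1 + t ^ 2) * ∫ v : ℝ, (1 + v ^ 2)⁻¹ * p v := by
  rw [← integral_const_mul, ← integral_add_left_eq_self (μ := volume)
    (fun v : ℝ => 2 * (1 + t ^ 2) * ((1 + v ^ 2)⁻¹ * p v)) t]
  refine integral_mono_of_nonneg (Filter.Eventually.of_forall fun v => ?_) ?_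
    (Filter.Eventually.of_forall fun v => ?_)
  · have := hp (t + v); simp only [Pi.zero_apply]; positivity
  · exact (h1.const_mul _).comp_add_left t
  · have h3 : (1 + v ^ 2)⁻¹ ≤ 2 * (1 + t ^ 2) * (1 + (t + v) ^ 2)⁻¹ := by
      rw [← div_eq_mul_inv, le_div_iff₀ (by positivity), inv_mul_le_iff₀ (by positivity)]
      nlinarith [sq_nonneg (t - v), mul_nonneg (sq_nonneg t) (sq_nonneg v)]
    calc (1 + v ^ 2)⁻¹ * p (t + v) ≤ 2 * (1 + t ^ 2) * (1 + (t + v) ^ 2)⁻¹ * p (t + v) :=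
          mul_le_mul_of_nonneg_right h3 (hp _)
      _ = _ := by ring

theorem integrable_weight (p : ℝ → ℝ) (B : ℝ) (hc : Continuous p) (hb : ∀ v, |p v| ≤ B) :
    Integrable fun v : ℝ => (1 + v ^ 2)⁻¹ * p v := by
  have h0 : Integrable fun v : ℝ => B * (1 + v ^ 2)⁻¹ := integrable_inv_one_add_sq.const_mul _
  refine h0.mono' ?_ (Filter.Eventually.of_forall fun v => ?_)
  · refine Continuous.aestronglyMeasurable ?_
    refine Continuous.mul (Continuous.inv₀ (by fun_prop) fun v => ?_) hc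
    positivity
  · rw [norm_mul, Real.norm_eq_abs, Real.norm_eq_abs, abs_of_pos (by positivity), mul_comm]
    exact mul_le_mul_of_nonneg_right (hb v) (by positivity)

/-! ### The integrands -/

theorem mkG (q a b A M : ℝ) (hq : 1 ≤ q) (ha : 0 < a) (H : ℂ → ℂ)
    (hH : ∀ w : ℂ, a ≤ w.re → w.re ≤ b → DifferentiableAt ℂ H w)
    (hHb : ∀ w : ℂ, a ≤ w.re → w.re ≤ b → ‖H w‖ ≤ A * Real.exp (M * (1 + |w.im|))) :
    (∀ w : ℂ, a ≤ w.re → w.re ≤ b → DifferentiableAt ℂ (fun w => (q : ℂ) ^ (w / 2) * H w / w) w) ∧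
      ∃ M' : ℝ, ∀ w : ℂ, a ≤ w.re → w.re ≤ b →
        ‖(q : ℂ) ^ (w / 2) * H w / w‖ ≤ Real.exp (M' * (1 + |w.im|)) := by
  have hq0 : (q : ℂ) ≠ 0 := by
    have : q ≠ 0 := by linarith
    exact_mod_cast this
  refine ⟨fun w h1 h2 => ?_, |q ^ (b / 2) * A / a| + M, fun w h1 h2 => ?_⟩
  · have hw : w ≠ 0 := by
      rintro rfl
      simp at h1; linarith
    have h3 : DifferentiableAt ℂ (fun w : ℂ => (q : ℂ) ^ (w / 2)) w :=
      DifferentiableAt.const_cpow (by fun_prop) (Or.inl hq0)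
    exact (h3.mul (hH w h1 h2)).div differentiableAt_id hw
  · have hA : 0 ≤ A := by
      have := (norm_nonneg _).trans (hHb w h1 h2)
      exact nonneg_of_mul_nonneg_left this (Real.exp_pos _)
    have hw : a ≤ ‖w‖ := h1.trans (Complex.re_le_norm w)
    have hqn : ‖(q : ℂ) ^ (w / 2)‖ ≤ q ^ (b / 2) := by
      rw [Complex.norm_cpow_eq_rpow_re_of_pos (by linarith)]
      apply Real.rpow_le_rpow_of_exponent_le hq
      have : (w / 2).re = w.re / 2 := by simp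
      rw [this]; linarith
    rw [norm_div, norm_mul]
    calc ‖(q : ℂ) ^ (w / 2)‖ * ‖H w‖ / ‖w‖ ≤ q ^ (b / 2) * (A * Real.exp (M * (1 + |w.im|))) / a := by
          apply div_le_div₀ (by positivity) (mul_le_mul hqn (hHb w h1 h2) (norm_nonneg _) (by positivity)) ha hw
      _ = (q ^ (b / 2) * A / a) * Real.exp (M * (1 + |w.im|)) := by ring
      _ ≤ Real.exp (|q ^ (b / 2) * A / a| * (1 + |w.im|)) * Real.exp (M * (1 + |w.im|)) := by
          apply mul_le_mul_of_nonneg_right _ (Real.exp_pos _).le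
          have h4 : q ^ (b / 2) * A / a ≤ |q ^ (b / 2) * A / a| := le_abs_self _
          have h5 := Real.add_one_le_exp |q ^ (b / 2) * A / a|
          have h6 : Real.exp |q ^ (b / 2) * A / a| ≤ Real.exp (|q ^ (b / 2) * A / a| * (1 + |w.im|)) := by
            apply Real.exp_le_exp.mpr
            have : 0 ≤ |q ^ (b / 2) * A / a| * |w.im| := by positivity
            linarith
          linarith
      _ = _ := by rw [← Real.exp_add]; congr 1; ring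

theorem lineBound (q c K Q N₀ : ℝ) (hq : 1 ≤ q) (hc : 0 < c) (hN : 0 ≤ N₀) (H : ℂ → ℂ) (p : ℝ → ℝ)
    (h : ∀ v : ℝ, N₀ * ‖H (c + v * Complex.I)‖ ≤ Q * Real.exp (K * |v|) * p v)
    (hQ : 0 ≤ Q) (hp : ∀ v, 0 ≤ p v) (hI : Integrable fun v : ℝ => (1 + v ^ 2)⁻¹ * p v) :
    N₀ * ‖∫ v : ℝ, (q : ℂ) ^ ((c + v * Complex.I) / 2) * H (c + v * Complex.I) / (c + v * Complex.I) *
      Complex.exp ((c + v * Complex.I) ^ 2)‖ ≤
        q ^ (c / 2) * Q * (Real.exp (c ^ 2) / c * (2 * Real.exp (K ^ 2 / 2))) *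
          ∫ v : ℝ, (1 + v ^ 2)⁻¹ * p v := by
  refine (mul_le_mul_of_nonneg_left (norm_integral_le_integral_norm _) hN).trans ?_
  rw [← integral_const_mul, ← integral_const_mul]
  refine integral_mono_of_nonneg (Filter.Eventually.of_forall fun v => ?_) (hI.const_mul _)
    (Filter.Eventually.of_forall fun v => ?_)
  · simp only [Pi.zero_apply]; positivity
  · simp only [norm_mul, norm_div, norm_exp_sq]
    have hre : ((c : ℂ) + v * Complex.I).re = c := by simp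
    have hw : c ≤ ‖(c : ℂ) + v * Complex.I‖ := by
      have := Complex.re_le_norm ((c : ℂ) + v * Complex.I)
      rwa [hre] at this
    have hqn : ‖(q : ℂ) ^ (((c : ℂ) + v * Complex.I) / 2)‖ = q ^ (c / 2) := by
      rw [Complex.norm_cpow_eq_rpow_re_of_pos (by linarith)]
      congr 1
      simp
    rw [hqn]
    have hq2 : 0 ≤ q ^ (c / 2) := by positivity
    calc N₀ * (q ^ (c / 2) * ‖H (c + v * Complex.I)‖ / ‖(c : ℂ) + v * Complex.I‖ *
          (Real.exp (c ^ 2) * Real.exp (-v ^ 2)))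
        = q ^ (c / 2) * Real.exp (c ^ 2) * (N₀ * ‖H (c + v * Complex.I)‖ / ‖(c : ℂ) + v * Complex.I‖) *
            Real.exp (-v ^ 2) := by ring
      _ ≤ q ^ (c / 2) * Real.exp (c ^ 2) * (Q * Real.exp (K * |v|) * p v / c) * Real.exp (-v ^ 2) := by
          apply mul_le_mul_of_nonneg_right _ (Real.exp_pos _).le
          apply mul_le_mul_of_nonneg_left _ (by positivity)
          exact div_le_div₀ (by have := hp v; positivity) (h v) hc hw
      _ = q ^ (c / 2) * Q * (Real.exp (c ^ 2) / c) * p v * (Real.exp (K * |v|) * Real.exp (-v ^ 2)) := by ring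
      _ ≤ q ^ (c / 2) * Q * (Real.exp (c ^ 2) / c) * p v * (2 * Real.exp (K ^ 2 / 2) * (1 + v ^ 2)⁻¹) :=
          mul_le_mul_of_nonneg_left (exp_le_inv K v) (by have := hp v; positivity)
      _ = _ := by ring

/-! ### The L-function -/

/-- the Gamma factor -/
def ga {n : ℕ} (D : LData n) (s : ℂ) : ℂ := ∏ j, Complex.Gammaℝ (s - D.μ j)

/-- the Dirichlet polynomial -/
def PP {n : ℕ} (D : LData n) (E : Finset ℕ) (s : ℂ) : ℂ := ∑ m ∈ E, D.lam m * (m : ℂ) ^ (-s)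

/-- the size of the Dirichlet polynomial -/
def SE {n : ℕ} (D : LData n) (E : Finset ℕ) : ℝ := ∑ m ∈ E, ‖D.lam m‖

theorem PP_norm {n : ℕ} (D : LData n) (E : Finset ℕ) (hE : ∀ m ∈ E, 0 < m) (s : ℂ) (hs : 0 ≤ s.re) :
    ‖PP D E s‖ ≤ SE D E := by
  refine (norm_sum_le _ _).trans (Finset.sum_le_sum fun m hm => ?_)
  have hm0 : 0 < m := hE m hm
  rw [norm_mul, Complex.norm_natCast_cpow_of_pos hm0]
  have : (m : ℝ) ^ (-s).re ≤ 1 := by
    apply Real.rpow_le_one_of_one_le_of_nonpos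
    · exact_mod_cast hm0
    · rw [Complex.neg_re]; linarith
  calc ‖D.lam m‖ * (m : ℝ) ^ (-s).re ≤ ‖D.lam m‖ * 1 := mul_le_mul_of_nonneg_left this (norm_nonneg _)
    _ = _ := mul_one _

theorem PP_diff {n : ℕ} (D : LData n) (E : Finset ℕ) (hE : ∀ m ∈ E, 0 < m) (s₀ : ℂ) :
    Differentiable ℂ fun w => PP D E (s₀ + w) := by
  unfold PP
  refine Differentiable.fun_sum fun m hm => ?_
  have hm0 : (m : ℂ) ≠ 0 := by exact_mod_cast (hE m hm).ne'
  refine Differentiable.const_mul ?_ _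
  intro w
  exact DifferentiableAt.const_cpow (by fun_prop) (Or.inl hm0)

theorem ga_diff {n : ℕ} (D : LData n) (hre : ∀ j, (D.μ j).re ≤ 1 / 2) (t : ℝ) (w : ℂ) (hw : 0 < w.re) :
    DifferentiableAt ℂ (fun w => ga D (1 / 2 + t * Complex.I + w)) w := by
  unfold ga
  refine DifferentiableAt.fun_finsetProd fun j _ => ?_
  have h1 : 0 < (1 / 2 + (t : ℂ) * Complex.I + w - D.μ j).re := by
    have := hre j
    simp
    linarith
  have := (GR_diff h1).comp (f := fun w : ℂ => 1 / 2 + (t : ℂ) * Complex.I + w - D.μ j) w (by fun_prop)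
  exact this

theorem ga_norm (n : ℕ) (T a b : ℝ) (ha : 0 < a) : ∃ B : ℝ, 1 ≤ B ∧ ∀ D : LData n,
    (∀ j, (D.μ j).re ≤ 1 / 2) → (∀ j, ‖D.μ j‖ ≤ T) → ∀ (t : ℝ) (w : ℂ), a ≤ w.re → w.re ≤ b →
      ‖ga D (1 / 2 + t * Complex.I + w)‖ ≤ B := by
  obtain ⟨B, hB1, hB⟩ := GR_strip a (1 / 2 + b + T) ha
  refine ⟨B ^ n, one_le_pow₀ hB1, fun D hre hT t w h1 h2 => ?_⟩
  unfold ga
  rw [norm_prod]
  have : ∀ j ∈ (Finset.univ : Finset (Fin n)), ‖Complex.Gammaℝ (1 / 2 + t * Complex.I + w - D.μ j)‖ ≤ B := by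
    intro j _
    have e : (1 / 2 + (t : ℂ) * Complex.I + w - D.μ j).re = 1 / 2 + w.re - (D.μ j).re := by simp
    apply hB
    · rw [e]; have := hre j; linarith
    · rw [e]
      have h3 : -(D.μ j).re ≤ ‖D.μ j‖ := by
        have := Complex.abs_re_le_norm (D.μ j)
        have := neg_abs_le (D.μ j).re
        linarith
      have := hT j
      linarith
  calc ∏ j, ‖Complex.Gammaℝ (1 / 2 + t * Complex.I + w - D.μ j)‖ ≤ ∏ _j : Fin n, B :=
        Finset.prod_le_prod (fun _ _ => norm_nonneg _) this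
    _ = B ^ n := by simp

/-- the tail of the Dirichlet series -/
theorem tail_bound {n : ℕ} (D : LData n) (CL κ X : ℝ) (E : Finset ℕ) (hCL : 0 ≤ CL)
    (hlam : ∀ m : ℕ, 0 < m → ‖D.lam m‖ ≤ CL * (m : ℝ) ^ (1 / 2 + 1 / 4 : ℝ)) (hκ : 9 / 4 ≤ κ) (hX : 1 ≤ X)
    (hE : ∀ m : ℕ, 0 < m → (m : ℝ) ≤ X → m ∈ E) (s : ℂ) (hs : s.re = 1 / 2 + κ)
    (hsum : Summable (fun m : ℕ => D.lam m * (m : ℂ) ^ (-s))) :
    ‖∑' m : ℕ, D.lam m * (m : ℂ) ^ (-s) - PP D E s‖ ≤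
      CL * X ^ (9 / 4 - κ) * ∑' m : ℕ, 1 / (m : ℝ) ^ 2 := by
  classical
  set f : ℕ → ℂ := fun m => D.lam m * (m : ℂ) ^ (-s) with hf
  have h1 : HasSum (fun m => if m ∈ E then f m else 0) (PP D E s) := by
    have := hasSum_sum_of_ne_finset_zero (L := SummationFilter.unconditional ℕ)
      (f := fun m => if m ∈ E then f m else 0) (s := E) (fun m hm => by simp [hm])
    convert this using 1
    unfold PP
    exact Finset.sum_congr rfl fun m hm => by simp [hm, hf]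
  have h2 : HasSum (fun m => f m - if m ∈ E then f m else 0) (∑' m, f m - PP D E s) := hsum.hasSum.sub h1
  rw [← h2.tsum_eq, ← tsum_mul_left]
  have hs2 : Summable fun m : ℕ => CL * X ^ (9 / 4 - κ) * (1 / (m : ℝ) ^ 2) :=
    (Real.summable_one_div_nat_pow.mpr (by norm_num)).mul_left _
  refine tsum_of_norm_bounded hs2.hasSum fun m => ?_
  by_cases hm : m ∈ E
  · simp only [hm, if_true, sub_self, norm_zero]
    positivity
  · simp only [hm, if_false, sub_zero, hf]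
    rcases Nat.eq_zero_or_pos m with rfl | hm0
    · have : -s ≠ 0 := by
        intro h
        have : s.re = 0 := by
          have := congrArg Complex.re h
          simpa using this
        linarith
      simp [Complex.zero_cpow this]
    · have hmX : X < m := by
        by_contra h
        exact hm (hE m hm0 (not_lt.mp h))
      have hmp : (0 : ℝ) < m := by exact_mod_cast hm0
      rw [norm_mul, Complex.norm_natCast_cpow_of_pos hm0, Complex.neg_re, hs]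
      calc ‖D.lam m‖ * (m : ℝ) ^ (-(1 / 2 + κ))
          ≤ CL * (m : ℝ) ^ (1 / 2 + 1 / 4 : ℝ) * (m : ℝ) ^ (-(1 / 2 + κ)) :=
            mul_le_mul_of_nonneg_right (hlam m hm0) (by positivity)
        _ = CL * (m : ℝ) ^ (9 / 4 - κ) * (m : ℝ) ^ (-2 : ℝ) := by
            rw [mul_assoc, mul_assoc, ← Real.rpow_add hmp, ← Real.rpow_add hmp]
            congr 2; ring
        _ ≤ CL * X ^ (9 / 4 - κ) * (m : ℝ) ^ (-2 : ℝ) := by
            apply mul_le_mul_of_nonneg_right _ (by positivity)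
            apply mul_le_mul_of_nonneg_left _ hCL
            exact Real.rpow_le_rpow_of_nonpos (by linarith) hmX.le (by linarith)
        _ = _ := by
            congr 1
            rw [Real.rpow_neg hmp.le, one_div]
            congr 1
            exact_mod_cast Real.rpow_natCast (m : ℝ) 2

/-- the product of the bounds of GAM -/
theorem ga_line (hG : S_gam) (n : ℕ) (T a : ℝ) (ha : 0 < a) : ∃ (C : ℝ) (K : ℕ), 1 ≤ C ∧ ∀ D : LData n,
    (∀ j, (D.μ j).re ≤ 1 / 2) → (∀ j, ‖D.μ j‖ ≤ T) → ∀ t v : ℝ,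
      (∏ j, ‖(Complex.Gammaℝ (1 / 2 + t * Complex.I - D.μ j))⁻¹‖) *
        ‖ga D (1 / 2 + t * Complex.I + (a + v * Complex.I))‖ ≤ C * (1 + |t|) ^ K * Real.exp (K * |v|) := by
  obtain ⟨C, K, hC, h⟩ := hG T a ha
  refine ⟨C ^ n, K * n, one_le_pow₀ hC, fun D hre hT t v => ?_⟩
  unfold ga
  rw [norm_prod, ← Finset.prod_mul_distrib]
  calc ∏ j, ‖(Complex.Gammaℝ (1 / 2 + t * Complex.I - D.μ j))⁻¹‖ *
        ‖Complex.Gammaℝ (1 / 2 + t * Complex.I + (a + v * Complex.I) - D.μ j)‖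
      ≤ ∏ _j : Fin n, C * (1 + |t|) ^ K * Real.exp (K * |v|) := by
        refine Finset.prod_le_prod (fun j _ => by positivity) fun j _ => ?_
        have := h (D.μ j) t v (hT j) (hre j)
        rwa [mul_comm] at this
    _ = _ := by
        rw [Finset.prod_const, Finset.card_univ, Fintype.card_fin, mul_pow, mul_pow, ← pow_mul, ← Real.exp_nat_mul]
        congr 2
        push_cast
        ring

theorem continuous_line (c : ℝ) (g : ℂ → ℂ) (hg : ∀ v : ℝ, DifferentiableAt ℂ g (c + v * Complex.I)) :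
    Continuous fun v : ℝ => g (c + v * Complex.I) := by
  refine continuous_iff_continuousAt.mpr fun v => ?_
  exact (hg v).continuousAt.comp (f := fun v : ℝ => (c : ℂ) + v * Complex.I) (by fun_prop)

/-- the inequality for the value, before squaring -/
theorem main_bound (hF : S_feq) (hS : S_shf) (hD : S_dir) (hL : S_lam) (hG : S_gam) (n : ℕ) (T ε : ℝ)
    (hε : 0 < ε) : ∃ (C : ℝ) (K K' : ℕ), 1 ≤ C ∧ ∀ D : LData n, D.Ok → (∀ j, ‖D.μ j‖ ≤ T) →
    ∀ (X : ℝ) (E : Finset ℕ), D.q ^ (1 / 2 + ε) ≤ X → (∀ m ∈ E, 0 < m) →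
    (∀ m : ℕ, 0 < m → (m : ℝ) ≤ X → m ∈ E) → ∀ t : ℝ,
      ‖D.L (1 / 2 + t * Complex.I)‖ ≤ C * (1 + |t|) ^ K' + C * (1 + |t|) ^ K * D.q ^ (ε / 2) *
        ∫ v : ℝ, (1 + v ^ 2)⁻¹ * ‖PP D E (1 / 2 + t * Complex.I + (ε + v * Complex.I))‖ := by
  obtain ⟨CF, hCF, hfeq⟩ := hF
  obtain ⟨CL, hCL, hlam⟩ := hL n (1 / 4) (by norm_num)
  obtain ⟨κ, hκ⟩ : ∃ κ : ℝ, κ = 9 / 4 + 9 / (8 * ε) := ⟨_, rfl⟩
  have hκ1 : 9 / 4 ≤ κ := by
    rw [hκ]
    have : 0 < 9 / (8 * ε) := by positivity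
    linarith
  have hκ0 : 0 < κ := by linarith
  obtain ⟨CP, KP, hCP, hgP⟩ := ga_line hG n T ε hε
  obtain ⟨CR, KR, hCR, hgR⟩ := ga_line hG n T κ hκ0
  obtain ⟨Z, hZ⟩ : ∃ Z : ℝ, Z = ∑' m : ℕ, 1 / (m : ℝ) ^ 2 := ⟨_, rfl⟩
  have hZ0 : 0 ≤ Z := by rw [hZ]; exact tsum_nonneg fun m => by positivity
  obtain ⟨cP, hcP⟩ : ∃ cP : ℝ, cP = CP * (Real.exp (ε ^ 2) / ε * (2 * Real.exp ((KP : ℝ) ^ 2 / 2))) :=
    ⟨_, rfl⟩
  obtain ⟨cR, hcR⟩ : ∃ cR : ℝ, cR = CR * (Real.exp (κ ^ 2) / κ * (2 * Real.exp ((KR : ℝ) ^ 2 / 2))) *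
    (CL * Z * Real.pi) := ⟨_, rfl⟩
  have hcP0 : 0 ≤ cP := by rw [hcP]; positivity
  have hcR0 : 0 ≤ cR := by rw [hcR]; have := Real.pi_pos; positivity
  have hCF0 : 0 ≤ CF := by linarith
  have hpP := mul_nonneg hCF0 hcP0
  have hpR := mul_nonneg hCF0 hcR0
  refine ⟨CF * cP + CF * cR + 1, KP, KR, by linarith, fun D hok hT X E hX hE0 hE t => ?_⟩
  have hq1 : 1 ≤ D.q := hok.one_le
  have hq0 : 0 < D.q := by linarith
  have hX1 : 1 ≤ X := (Real.one_le_rpow hq1 (by linarith)).trans hX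
  obtain ⟨s₀, hs₀⟩ : ∃ s₀ : ℂ, s₀ = 1 / 2 + t * Complex.I := ⟨_, rfl⟩
  have hs₀re : s₀.re = 1 / 2 := by rw [hs₀]; simp
  have hs₀im : s₀.im = t := by rw [hs₀]; simp
  -- the part of the polynomial
  obtain ⟨HP, hHP⟩ : ∃ HP : ℂ → ℂ, HP = fun w => ga D (s₀ + w) * PP D E (s₀ + w) := ⟨_, rfl⟩
  obtain ⟨HR, hHR⟩ : ∃ HR : ℂ → ℂ, HR = fun w => D.Λ (s₀ + w) - ga D (s₀ + w) * PP D E (s₀ + w) :=
    ⟨_, rfl⟩
  have dHP : ∀ w : ℂ, 0 < w.re → DifferentiableAt ℂ HP w := by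
    intro w hw
    rw [hHP, hs₀]
    exact (ga_diff D hok.re_le t w hw).mul (PP_diff D E hE0 _ w)
  have dHR : ∀ w : ℂ, 0 < w.re → DifferentiableAt ℂ HR w := by
    intro w hw
    have h1 : DifferentiableAt ℂ (fun w => D.Λ (s₀ + w)) w :=
      (hok.entire (s₀ + w)).comp (f := fun w : ℂ => s₀ + w) w (by fun_prop)
    have h2 := dHP w hw
    rw [hHP] at h2
    rw [hHR]
    exact h1.sub h2
  have hSE : 0 ≤ SE D E := Finset.sum_nonneg fun m _ => norm_nonneg _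
  have bHP : ∀ a b : ℝ, 0 < a → ∃ A : ℝ, 0 ≤ A ∧ ∀ w : ℂ, a ≤ w.re → w.re ≤ b → ‖HP w‖ ≤ A := by
    intro a b ha
    obtain ⟨B, hB1, hB⟩ := ga_norm n T a b ha
    refine ⟨B * SE D E, by positivity, fun w h1 h2 => ?_⟩
    rw [hHP, hs₀]
    simp only [norm_mul]
    refine mul_le_mul (hB D hok.re_le hT t w h1 h2) (PP_norm D E hE0 _ ?_) (norm_nonneg _) (by linarith)
    simp
    linarith
  obtain ⟨dGP, MP, bGP⟩ : (∀ w : ℂ, min ε 2 ≤ w.re → w.re ≤ max ε 2 →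
      DifferentiableAt ℂ (fun w => (D.q : ℂ) ^ (w / 2) * HP w / w) w) ∧
      ∃ M' : ℝ, ∀ w : ℂ, min ε 2 ≤ w.re → w.re ≤ max ε 2 →
        ‖(D.q : ℂ) ^ (w / 2) * HP w / w‖ ≤ Real.exp (M' * (1 + |w.im|)) := by
    have hm : 0 < min ε 2 := lt_min hε two_pos
    obtain ⟨A, hA0, hA⟩ := bHP (min ε 2) (max ε 2) hm
    refine mkG D.q (min ε 2) (max ε 2) A 0 hq1 hm HP (fun w h1 _ => dHP w (lt_of_lt_of_le hm h1))
      fun w h1 h2 => ?_
    rw [zero_mul, Real.exp_zero, mul_one]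
    exact hA w h1 h2
  obtain ⟨dGR, MR, bGR⟩ : (∀ w : ℂ, 2 ≤ w.re → w.re ≤ κ →
      DifferentiableAt ℂ (fun w => (D.q : ℂ) ^ (w / 2) * HR w / w) w) ∧
      ∃ M' : ℝ, ∀ w : ℂ, 2 ≤ w.re → w.re ≤ κ →
        ‖(D.q : ℂ) ^ (w / 2) * HR w / w‖ ≤ Real.exp (M' * (1 + |w.im|)) := by
    obtain ⟨A, hA0, hA⟩ := bHP 2 κ two_pos
    obtain ⟨M₀, hM₀⟩ := hok.bdd (1 / 2 + 2) (1 / 2 + κ)
    refine mkG D.q 2 κ (1 + A) (|M₀| * (1 + |t|)) hq1 two_pos HR
      (fun w h1 _ => dHR w (lt_of_lt_of_le two_pos h1)) fun w h1 h2 => ?_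
    have h3 : ‖D.Λ (s₀ + w)‖ ≤ Real.exp (|M₀| * (1 + |t|) * (1 + |w.im|)) := by
      refine (hM₀ (s₀ + w) (by rw [Complex.add_re, hs₀re]; linarith)
        (by rw [Complex.add_re, hs₀re]; linarith)).trans (Real.exp_le_exp.mpr ?_)
      rw [Complex.add_im, hs₀im]
      have h4 : |t + w.im| ≤ |t| + |w.im| := abs_add_le _ _
      have h5 : 1 + |t + w.im| ≤ (1 + |t|) * (1 + |w.im|) := by
        nlinarith [mul_nonneg (abs_nonneg t) (abs_nonneg w.im)]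
      calc M₀ * (1 + |t + w.im|) ≤ |M₀| * (1 + |t + w.im|) :=
            mul_le_mul_of_nonneg_right (le_abs_self _) (by positivity)
        _ ≤ |M₀| * ((1 + |t|) * (1 + |w.im|)) := mul_le_mul_of_nonneg_left h5 (abs_nonneg _)
        _ = _ := by ring
    have h6 : ‖ga D (s₀ + w) * PP D E (s₀ + w)‖ ≤ A := by
      have := hA w h1 h2
      rwa [hHP] at this
    have h7 : 1 ≤ Real.exp (|M₀| * (1 + |t|) * (1 + |w.im|)) := Real.one_le_exp (by positivity)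
    rw [hHR]
    calc ‖D.Λ (s₀ + w) - ga D (s₀ + w) * PP D E (s₀ + w)‖
        ≤ ‖D.Λ (s₀ + w)‖ + ‖ga D (s₀ + w) * PP D E (s₀ + w)‖ := norm_sub_le _ _
      _ ≤ Real.exp (|M₀| * (1 + |t|) * (1 + |w.im|)) + A * Real.exp (|M₀| * (1 + |t|) * (1 + |w.im|)) := by
          have := mul_le_mul_of_nonneg_left h7 hA0
          linarith
      _ = _ := by ring
  -- shifting
  have shP : ∫ v : ℝ, (D.q : ℂ) ^ (((2 : ℝ) + v * Complex.I) / 2) * HP ((2 : ℝ) + v * Complex.I) /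
        ((2 : ℝ) + v * Complex.I) * Complex.exp (((2 : ℝ) + v * Complex.I) ^ 2) =
      ∫ v : ℝ, (D.q : ℂ) ^ ((ε + v * Complex.I) / 2) * HP (ε + v * Complex.I) /
        (ε + v * Complex.I) * Complex.exp ((ε + v * Complex.I) ^ 2) := by
    rcases le_total ε 2 with h | h
    · have := hS ε 2 MP (fun w => (D.q : ℂ) ^ (w / 2) * HP w / w) h
        (fun w h1 h2 => dGP w ((min_le_left _ _).trans h1) (h2.trans (le_max_right _ _)))
        (fun w h1 h2 => bGP w ((min_le_left _ _).trans h1) (h2.trans (le_max_right _ _)))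
      exact this.symm
    · have := hS 2 ε MP (fun w => (D.q : ℂ) ^ (w / 2) * HP w / w) h
        (fun w h1 h2 => dGP w ((min_le_right _ _).trans h1) (h2.trans (le_max_left _ _)))
        (fun w h1 h2 => bGP w ((min_le_right _ _).trans h1) (h2.trans (le_max_left _ _)))
      exact this
  have shR : ∫ v : ℝ, (D.q : ℂ) ^ (((2 : ℝ) + v * Complex.I) / 2) * HR ((2 : ℝ) + v * Complex.I) /
        ((2 : ℝ) + v * Complex.I) * Complex.exp (((2 : ℝ) + v * Complex.I) ^ 2) =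
      ∫ v : ℝ, (D.q : ℂ) ^ ((κ + v * Complex.I) / 2) * HR (κ + v * Complex.I) /
        (κ + v * Complex.I) * Complex.exp ((κ + v * Complex.I) ^ 2) :=
    hS 2 κ MR (fun w => (D.q : ℂ) ^ (w / 2) * HR w / w) (by linarith) dGR bGR
  -- splitting
  have re2 : ∀ v : ℝ, (((2 : ℝ) : ℂ) + v * Complex.I).re = 2 := fun v => by simp
  have im2 : ∀ v : ℝ, (((2 : ℝ) : ℂ) + v * Complex.I).im = v := fun v => by simp
  have iP := integrable_line 2 MP (fun w => (D.q : ℂ) ^ (w / 2) * HP w / w)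
    (continuous_line 2 _ fun v => dGP _ (by rw [re2]; exact min_le_right _ _)
      (by rw [re2]; exact le_max_right _ _))
    (fun v => by
      have := bGP ((2 : ℝ) + v * Complex.I) (by rw [re2]; exact min_le_right _ _)
        (by rw [re2]; exact le_max_right _ _)
      rwa [im2] at this)
  have iR := integrable_line 2 MR (fun w => (D.q : ℂ) ^ (w / 2) * HR w / w)
    (continuous_line 2 _ fun v => dGR _ (by rw [re2]) (by rw [re2]; linarith))
    (fun v => by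
      have := bGR ((2 : ℝ) + v * Complex.I) (by rw [re2]) (by rw [re2]; linarith)
      rwa [im2] at this)
  have split : (∫ v : ℝ, (D.q : ℂ) ^ ((2 + v * Complex.I) / 2) *
      D.Λ (1 / 2 + t * Complex.I + (2 + v * Complex.I)) * Complex.exp ((2 + v * Complex.I) ^ 2) /
        (2 + v * Complex.I)) =
      (∫ v : ℝ, (D.q : ℂ) ^ ((ε + v * Complex.I) / 2) * HP (ε + v * Complex.I) /
        (ε + v * Complex.I) * Complex.exp ((ε + v * Complex.I) ^ 2)) +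
      ∫ v : ℝ, (D.q : ℂ) ^ ((κ + v * Complex.I) / 2) * HR (κ + v * Complex.I) /
        (κ + v * Complex.I) * Complex.exp ((κ + v * Complex.I) ^ 2) := by
    rw [← shP, ← shR]
    refine Eq.trans ?_ (integral_add iP iR)
    refine integral_congr_ae (Filter.Eventually.of_forall fun v => ?_)
    simp only [hHP, hHR, hs₀, Complex.ofReal_ofNat]
    ring
  obtain ⟨N₀, hN₀⟩ : ∃ N₀ : ℝ, N₀ = ∏ j, ‖(Complex.Gammaℝ (1 / 2 + t * Complex.I - D.μ j))⁻¹‖ := ⟨_, rfl⟩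
  have hN₀0 : 0 ≤ N₀ := by rw [hN₀]; exact Finset.prod_nonneg fun j _ => norm_nonneg _
  have hLn : ‖D.L (1 / 2 + t * Complex.I)‖ = N₀ * ‖D.Λ (1 / 2 + t * Complex.I)‖ := by
    rw [LData.L, norm_mul, norm_prod, hN₀, mul_comm]
  -- the line of the polynomial
  have pbd : ∀ v : ℝ, |‖PP D E (1 / 2 + t * Complex.I + (ε + v * Complex.I))‖| ≤ SE D E := by
    intro v
    rw [abs_of_nonneg (norm_nonneg _)]
    refine PP_norm D E hE0 _ ?_
    simp
    linarith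
  have pcont : Continuous fun v : ℝ => ‖PP D E (1 / 2 + t * Complex.I + (ε + v * Complex.I))‖ :=
    ((PP_diff D E hE0 _).continuous.comp (f := fun v : ℝ => (ε : ℂ) + v * Complex.I) (by fun_prop)).norm
  have lP := lineBound D.q ε KP (CP * (1 + |t|) ^ KP) N₀ hq1 hε hN₀0 HP
    (fun v => ‖PP D E (1 / 2 + t * Complex.I + (ε + v * Complex.I))‖)
    (fun v => by
      have h1 := hgP D hok.re_le hT t v
      rw [← hN₀] at h1
      rw [hHP]
      simp only [norm_mul]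
      rw [← mul_assoc, hs₀]
      exact mul_le_mul_of_nonneg_right h1 (norm_nonneg _))
    (by positivity) (fun v => norm_nonneg _) (integrable_weight _ _ pcont pbd)
  -- the line of the tail
  obtain ⟨τ, hτ⟩ : ∃ τ : ℝ, τ = CL * X ^ (9 / 4 - κ) * Z := ⟨_, rfl⟩
  have hτ0 : 0 ≤ τ := by rw [hτ]; positivity
  have lR := lineBound D.q κ KR (CR * (1 + |t|) ^ KR) N₀ hq1 hκ0 hN₀0 HR (fun _ => τ)
    (fun v => by
      have h1 := hgR D hok.re_le hT t v
      rw [← hN₀] at h1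
      have hre : (s₀ + (κ + v * Complex.I)).re = 1 / 2 + κ := by
        rw [Complex.add_re, hs₀re]; simp
      obtain ⟨h2, h3⟩ := hD n D hok (s₀ + (κ + v * Complex.I)) (by rw [hre]; linarith)
      have h4 : HR (κ + v * Complex.I) = ga D (s₀ + (κ + v * Complex.I)) *
          (∑' m : ℕ, D.lam m * (m : ℂ) ^ (-(s₀ + (κ + v * Complex.I))) -
            PP D E (s₀ + (κ + v * Complex.I))) := by
        rw [hHR]
        simp only
        rw [h3, mul_sub]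
        rfl
      have h5 := tail_bound D CL κ X E (by linarith)
        (fun m hm => hlam D hok m hm) hκ1 hX1 hE
        (s₀ + (κ + v * Complex.I)) hre h2
      rw [← hZ, ← hτ] at h5
      rw [h4, norm_mul, ← mul_assoc]
      refine mul_le_mul ?_ h5 (norm_nonneg _) (by positivity)
      rw [hs₀]
      exact h1)
    (by positivity) (fun _ => hτ0) (integrable_weight _ τ continuous_const fun _ => by
      rw [abs_of_nonneg hτ0])
  have hqX : D.q ^ (κ / 2) * X ^ (9 / 4 - κ) ≤ 1 := by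
    have h1 : X ^ (9 / 4 - κ) ≤ (D.q ^ (1 / 2 + ε)) ^ (9 / 4 - κ) :=
      Real.rpow_le_rpow_of_nonpos (by positivity) hX (by linarith)
    calc D.q ^ (κ / 2) * X ^ (9 / 4 - κ) ≤ D.q ^ (κ / 2) * (D.q ^ (1 / 2 + ε)) ^ (9 / 4 - κ) :=
          mul_le_mul_of_nonneg_left h1 (by positivity)
      _ = D.q ^ (κ / 2 + (1 / 2 + ε) * (9 / 4 - κ)) := by
          rw [← Real.rpow_mul hq0.le, ← Real.rpow_add hq0]
      _ = D.q ^ (0 : ℝ) := by
          congr 1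
          rw [hκ]
          field_simp
          ring
      _ = 1 := Real.rpow_zero _
  have hRf : D.q ^ (κ / 2) * (CR * (1 + |t|) ^ KR) * (Real.exp (κ ^ 2) / κ * (2 * Real.exp ((KR : ℝ) ^ 2 / 2))) *
      ∫ v : ℝ, (1 + v ^ 2)⁻¹ * τ ≤ cR * (1 + |t|) ^ KR := by
    rw [integral_mul_const, integral_univ_inv_one_add_sq, hτ]
    calc D.q ^ (κ / 2) * (CR * (1 + |t|) ^ KR) * (Real.exp (κ ^ 2) / κ * (2 * Real.exp ((KR : ℝ) ^ 2 / 2))) *
          (Real.pi * (CL * X ^ (9 / 4 - κ) * Z))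
        = (D.q ^ (κ / 2) * X ^ (9 / 4 - κ)) * (cR * (1 + |t|) ^ KR) := by rw [hcR]; ring
      _ ≤ 1 * (cR * (1 + |t|) ^ KR) := mul_le_mul_of_nonneg_right hqX (by positivity)
      _ = _ := one_mul _
  have hfin : N₀ * ‖D.Λ (1 / 2 + t * Complex.I)‖ ≤ CF * (D.q ^ (ε / 2) * (CP * (1 + |t|) ^ KP) *
      (Real.exp (ε ^ 2) / ε * (2 * Real.exp ((KP : ℝ) ^ 2 / 2))) *
        (∫ v : ℝ, (1 + v ^ 2)⁻¹ * ‖PP D E (1 / 2 + t * Complex.I + (ε + v * Complex.I))‖) +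
          cR * (1 + |t|) ^ KR) := by
    have h1 := hfeq n D hok t
    rw [split] at h1
    calc N₀ * ‖D.Λ (1 / 2 + t * Complex.I)‖ ≤ N₀ * (CF * (‖_‖ + ‖_‖)) :=
          mul_le_mul_of_nonneg_left (h1.trans (mul_le_mul_of_nonneg_left (norm_add_le _ _) (by linarith))) hN₀0
      _ = CF * (N₀ * ‖_‖ + N₀ * ‖_‖) := by ring
      _ ≤ _ := mul_le_mul_of_nonneg_left (add_le_add lP (lR.trans hRf)) (by linarith)
  rw [hLn]
  refine hfin.trans ?_
  set J := ∫ v : ℝ, (1 + v ^ 2)⁻¹ * ‖PP D E (1 / 2 + t * Complex.I + (ε + v * Complex.I))‖ with hJ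
  have hJ0 : 0 ≤ J := integral_nonneg fun v => by positivity
  have e1 : CF * (D.q ^ (ε / 2) * (CP * (1 + |t|) ^ KP) *
      (Real.exp (ε ^ 2) / ε * (2 * Real.exp ((KP : ℝ) ^ 2 / 2))) * J + cR * (1 + |t|) ^ KR) =
      (CF * cR) * (1 + |t|) ^ KR + (CF * cP) * (1 + |t|) ^ KP * D.q ^ (ε / 2) * J := by
    rw [hcP]; ring
  rw [e1]
  have h1 : CF * cR ≤ CF * cP + CF * cR + 1 := by linarith
  have h2 : CF * cP ≤ CF * cP + CF * cR + 1 := by linarith
  exact add_le_add (mul_le_mul_of_nonneg_right h1 (by positivity))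
    (mul_le_mul_of_nonneg_right (mul_le_mul_of_nonneg_right (mul_le_mul_of_nonneg_right h2 (by positivity))
      (by positivity)) hJ0)

theorem t_AFE (hF : S_feq) (hS : S_shf) (hD : S_dir) (hL : S_lam) (hG : S_gam) : S_afe := by
  intro n T ε hε
  obtain ⟨C, K, K', hC, h⟩ := main_bound hF hS hD hL hG n T ε hε
  have hpi := Real.pi_pos
  refine ⟨2 * C ^ 2 * (1 + 2 * Real.pi), 2 * K' + (2 * K + 2), ?_, fun D hok hT X E hX hE0 hE t => ?_⟩
  · have h1 : 1 ≤ C ^ 2 := one_le_pow₀ hC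
    nlinarith [mul_nonneg (sq_nonneg C) hpi.le]
  have h1 := h D hok hT X E hX hE0 hE t
  have hq1 : 1 ≤ D.q := hok.one_le
  have hq0 : 0 < D.q := by linarith
  obtain ⟨p, hp⟩ : ∃ p : ℝ → ℝ, p = fun v : ℝ => ‖PP D E ((1 / 2 + ε : ℝ) + v * Complex.I)‖ := ⟨_, rfl⟩
  have hpe : ∀ v : ℝ, ‖PP D E (1 / 2 + t * Complex.I + (ε + v * Complex.I))‖ = p (t + v) := by
    intro v
    rw [hp]
    simp only
    congr 2
    push_cast
    ring
  have hpb : ∀ v : ℝ, |p v| ≤ SE D E := by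
    intro v
    rw [hp]
    simp only
    rw [abs_of_nonneg (norm_nonneg _)]
    refine PP_norm D E hE0 _ ?_
    simp
    linarith
  have hpc : Continuous p := by
    rw [hp]
    have := ((PP_diff D E hE0 0).continuous.comp
      (f := fun v : ℝ => ((1 / 2 + ε : ℝ) : ℂ) + v * Complex.I) (by fun_prop)).norm
    simpa only [Function.comp_def, zero_add] using this
  have hp0 : ∀ v, 0 ≤ p v := fun v => by rw [hp]; exact norm_nonneg _
  have hSE : 0 ≤ SE D E := Finset.sum_nonneg fun m _ => norm_nonneg _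
  have hp2b : ∀ v : ℝ, |p v ^ 2| ≤ SE D E ^ 2 := by
    intro v
    rw [abs_pow]
    exact pow_le_pow_left₀ (abs_nonneg _) (hpb v) 2
  have hpt : Continuous fun v => p (t + v) := hpc.comp (by fun_prop)
  have i1 : Integrable fun v : ℝ => (1 + v ^ 2)⁻¹ * p (t + v) :=
    integrable_weight _ _ hpt fun v => hpb _
  have i2 : Integrable fun v : ℝ => (1 + v ^ 2)⁻¹ * p (t + v) ^ 2 :=
    integrable_weight _ _ (hpt.pow 2) fun v => hp2b _
  have i3 : Integrable fun v : ℝ => (1 + v ^ 2)⁻¹ * p v ^ 2 :=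
    integrable_weight _ _ (hpc.pow 2) fun v => hp2b _
  have cs := cs_weight (fun v => p (t + v)) i1 i2
  have sh := shift_weight (fun v => p v ^ 2) t (fun v => by positivity) i3
  simp only [hpe] at h1
  set I₁ := ∫ v : ℝ, (1 + v ^ 2)⁻¹ * p (t + v) with hI₁
  set I₂ := ∫ v : ℝ, (1 + v ^ 2)⁻¹ * p v ^ 2 with hI₂
  have hI₂0 : 0 ≤ I₂ := integral_nonneg fun v => by positivity
  have hI₁0 : 0 ≤ I₁ := integral_nonneg fun v => by have := hp0 (t + v); positivity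
  have goalI : (∫ v : ℝ, (1 + v ^ 2)⁻¹ *
      ‖∑ m ∈ E, D.lam m * (m : ℂ) ^ (-((1 / 2 + ε : ℝ) + v * Complex.I))‖ ^ 2) = I₂ := by
    rw [hI₂, hp]
    rfl
  rw [goalI]
  have hI12 : I₁ ^ 2 ≤ 2 * Real.pi * (1 + |t|) ^ 2 * I₂ := by
    have h2 : 1 + t ^ 2 ≤ (1 + |t|) ^ 2 := by
      nlinarith [abs_nonneg t, sq_abs t]
    calc I₁ ^ 2 ≤ Real.pi * ∫ v : ℝ, (1 + v ^ 2)⁻¹ * p (t + v) ^ 2 := cs
      _ ≤ Real.pi * (2 * (1 + t ^ 2) * I₂) := mul_le_mul_of_nonneg_left sh hpi.le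
      _ ≤ Real.pi * (2 * (1 + |t|) ^ 2 * I₂) := by gcongr
      _ = _ := by ring
  have hqq : (D.q ^ (ε / 2)) ^ 2 = D.q ^ ε := by
    rw [← Real.rpow_natCast, ← Real.rpow_mul hq0.le]
    congr 1
    push_cast
    ring
  have ht1 : 1 ≤ 1 + |t| := by have := abs_nonneg t; linarith
  have hC0 : 0 ≤ C := by linarith
  have a1 : (1 + |t|) ^ (2 * K') ≤ (1 + |t|) ^ (2 * K' + (2 * K + 2)) :=
    pow_le_pow_right₀ ht1 (by omega)
  have a2 : (1 + |t|) ^ (2 * K + 2) ≤ (1 + |t|) ^ (2 * K' + (2 * K + 2)) :=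
    pow_le_pow_right₀ ht1 (by omega)
  have hqe : 0 ≤ D.q ^ ε := by positivity
  calc ‖D.L (1 / 2 + t * Complex.I)‖ ^ 2
      ≤ (C * (1 + |t|) ^ K' + C * (1 + |t|) ^ K * D.q ^ (ε / 2) * I₁) ^ 2 :=
        pow_le_pow_left₀ (norm_nonneg _) h1 2
    _ ≤ 2 * (C * (1 + |t|) ^ K') ^ 2 + 2 * (C * (1 + |t|) ^ K * D.q ^ (ε / 2) * I₁) ^ 2 := by
        nlinarith [sq_nonneg (C * (1 + |t|) ^ K' - C * (1 + |t|) ^ K * D.q ^ (ε / 2) * I₁)]
    _ = 2 * C ^ 2 * ((1 + |t|) ^ (2 * K') + (1 + |t|) ^ (2 * K) * D.q ^ ε * I₁ ^ 2) := by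
        rw [← hqq]; ring
    _ ≤ 2 * C ^ 2 * ((1 + |t|) ^ (2 * K') + (1 + |t|) ^ (2 * K) * D.q ^ ε *
          (2 * Real.pi * (1 + |t|) ^ 2 * I₂)) := by gcongr
    _ = 2 * C ^ 2 * ((1 + |t|) ^ (2 * K') + 2 * Real.pi * (1 + |t|) ^ (2 * K + 2) * (D.q ^ ε * I₂)) := by ring
    _ ≤ 2 * C ^ 2 * ((1 + |t|) ^ (2 * K' + (2 * K + 2)) +
          2 * Real.pi * (1 + |t|) ^ (2 * K' + (2 * K + 2)) * (D.q ^ ε * I₂)) := by gcongr
    _ = 2 * C ^ 2 * (1 + |t|) ^ (2 * K' + (2 * K + 2)) * (1 + 2 * Real.pi * (D.q ^ ε * I₂)) := by ring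
    _ ≤ 2 * C ^ 2 * (1 + |t|) ^ (2 * K' + (2 * K + 2)) * ((1 + 2 * Real.pi) * (1 + D.q ^ ε * I₂)) := by
        apply mul_le_mul_of_nonneg_left _ (by positivity)
        have : 0 ≤ D.q ^ ε * I₂ := by positivity
        nlinarith
    _ = _ := by ring

end Pool.Agent.T2h79.LG.AFE
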