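import Pool.Agent.T2h79.LG.Stm3
import Pool.Agent.T2h79.LG.T_AFE

/-!
# DET, part A: growth in vertical strips, the contour shift and the Euler factors
-/

set_option autoImplicit false

open MeasureTheory Matrix
open scoped MatrixGroups ENNReal Topology ComplexConjugate

noncomputable section

namespace Pool.Agent.T2h79.LG.DET

open Pool.Agent.T2h77.N Complex

/-- entire and of at most exponential growth in vertical strips -/
def Md (F : ℂ → ℂ) : Prop :=
  Differentiable ℂ F ∧ ∀ a b : ℝ, ∃ M : ℝ, 0 ≤ M ∧ ∀ s : ℂ, a ≤ s.re → s.re ≤ b →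
    ‖F s‖ ≤ Real.exp (M * (1 + |s.im|))

theorem md_const (c : ℂ) : Md fun _ => c := by
  refine ⟨differentiable_const _, fun a b => ⟨‖c‖, norm_nonneg _, fun s _ _ => ?_⟩⟩
  have h1 := Real.add_one_le_exp (‖c‖ * (1 + |s.im|))
  nlinarith [mul_nonneg (norm_nonneg c) (abs_nonneg s.im)]

theorem md_mul {F G : ℂ → ℂ} (hF : Md F) (hG : Md G) : Md fun s => F s * G s := by
  refine ⟨hF.1.mul hG.1, fun a b => ?_⟩
  obtain ⟨M, h0, hM⟩ := hF.2 a b
  obtain ⟨M', h0', hM'⟩ := hG.2 a b
  refine ⟨M + M', by positivity, fun s h1 h2 => ?_⟩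
  rw [norm_mul, add_mul, Real.exp_add]
  exact mul_le_mul (hM s h1 h2) (hM' s h1 h2) (norm_nonneg _) (Real.exp_pos _).le

theorem md_add {F G : ℂ → ℂ} (hF : Md F) (hG : Md G) : Md fun s => F s + G s := by
  refine ⟨hF.1.add hG.1, fun a b => ?_⟩
  obtain ⟨M, h0, hM⟩ := hF.2 a b
  obtain ⟨M', h0', hM'⟩ := hG.2 a b
  refine ⟨M + M' + 1, by positivity, fun s h1 h2 => ?_⟩
  have hi := abs_nonneg s.im
  have e1 : Real.exp (M * (1 + |s.im|)) ≤ Real.exp ((M + M') * (1 + |s.im|)) :=
    Real.exp_le_exp.2 (by nlinarith [mul_nonneg h0' hi])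
  have e2 : Real.exp (M' * (1 + |s.im|)) ≤ Real.exp ((M + M') * (1 + |s.im|)) :=
    Real.exp_le_exp.2 (by nlinarith [mul_nonneg h0 hi])
  have e3 : 2 ≤ Real.exp (1 * (1 + |s.im|)) := by
    have := Real.add_one_le_exp (1 * (1 + |s.im|))
    linarith
  have e0 := Real.exp_pos ((M + M') * (1 + |s.im|))
  calc ‖F s + G s‖ ≤ ‖F s‖ + ‖G s‖ := norm_add_le _ _
    _ ≤ Real.exp ((M + M') * (1 + |s.im|)) * 2 := by
        have := hM s h1 h2
        have := hM' s h1 h2
        linarith
    _ ≤ Real.exp ((M + M') * (1 + |s.im|)) * Real.exp (1 * (1 + |s.im|)) :=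
        mul_le_mul_of_nonneg_left e3 e0.le
    _ = _ := by rw [← Real.exp_add]; congr 1; ring

theorem md_comp_neg {F : ℂ → ℂ} (hF : Md F) : Md fun s => F (-s) := by
  refine ⟨hF.1.comp (differentiable_id.neg), fun a b => ?_⟩
  obtain ⟨M, h0, hM⟩ := hF.2 (-b) (-a)
  refine ⟨M, h0, fun s h1 h2 => ?_⟩
  have := hM (-s) (by rw [Complex.neg_re]; linarith) (by rw [Complex.neg_re]; linarith)
  rwa [Complex.neg_im, abs_neg] at this

theorem md_comp_add {F : ℂ → ℂ} (hF : Md F) (s₀ : ℂ) : Md fun s => F (s₀ + s) := by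
  refine ⟨hF.1.comp (by fun_prop), fun a b => ?_⟩
  obtain ⟨M, h0, hM⟩ := hF.2 (s₀.re + a) (s₀.re + b)
  refine ⟨M * (1 + |s₀.im|), by positivity, fun s h1 h2 => ?_⟩
  have h := hM (s₀ + s) (by rw [Complex.add_re]; linarith) (by rw [Complex.add_re]; linarith)
  refine h.trans (Real.exp_le_exp.2 ?_)
  rw [Complex.add_im, mul_assoc]
  refine mul_le_mul_of_nonneg_left ?_ h0
  have := abs_add_le s₀.im s.im
  nlinarith [mul_nonneg (abs_nonneg s₀.im) (abs_nonneg s.im)]

theorem md_cpow (x : ℝ) (hx : 0 < x) : Md fun s => (x : ℂ) ^ s := by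
  have hx0 : (x : ℂ) ≠ 0 := by exact_mod_cast hx.ne'
  refine ⟨Differentiable.const_cpow differentiable_id (Or.inl hx0), fun a b => ?_⟩
  refine ⟨|Real.log x| * (|a| + |b|), by positivity, fun s h1 h2 => ?_⟩
  rw [Complex.norm_cpow_eq_rpow_re_of_pos hx, Real.rpow_def_of_pos hx]
  refine Real.exp_le_exp.2 ?_
  have h3 : |s.re| ≤ |a| + |b| := by
    rw [abs_le]
    have := neg_abs_le a
    have := le_abs_self b
    have := abs_nonneg a
    have := abs_nonneg b
    constructor <;> linarith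
  calc Real.log x * s.re ≤ |Real.log x * s.re| := le_abs_self _
    _ = |Real.log x| * |s.re| := abs_mul _ _
    _ ≤ |Real.log x| * (|a| + |b|) := mul_le_mul_of_nonneg_left h3 (abs_nonneg _)
    _ ≤ |Real.log x| * (|a| + |b|) * (1 + |s.im|) :=
        le_mul_of_one_le_right (by positivity) (by linarith [abs_nonneg s.im])

theorem md_ncpow (m : ℕ) (hm : 0 < m) : Md fun s => (m : ℂ) ^ (-s) := by
  have h := md_comp_neg (md_cpow (m : ℝ) (by exact_mod_cast hm))
  simpa using h

theorem md_sum {ι : Type*} (S : Finset ι) (F : ι → ℂ → ℂ) (h : ∀ i ∈ S, Md (F i)) : Md fun s => ∑ i ∈ S, F i s := by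
  classical
  induction S using Finset.induction_on with
  | empty => simpa using md_const 0
  | insert i S hi ih =>
    have e : (fun s => ∑ j ∈ insert i S, F j s) = fun s => F i s + ∑ j ∈ S, F j s := by
      funext s
      rw [Finset.sum_insert hi]
    rw [e]
    exact md_add (h i (Finset.mem_insert_self _ _)) (ih fun j hj => h j (Finset.mem_insert_of_mem hj))

theorem md_prod {ι : Type*} (S : Finset ι) (F : ι → ℂ → ℂ) (h : ∀ i ∈ S, Md (F i)) : Md fun s => ∏ i ∈ S, F i s := by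
  classical
  induction S using Finset.induction_on with
  | empty => simpa using md_const 1
  | insert i S hi ih =>
    have e : (fun s => ∏ j ∈ insert i S, F j s) = fun s => F i s * ∏ j ∈ S, F j s := by
      funext s
      rw [Finset.prod_insert hi]
    rw [e]
    exact md_mul (h i (Finset.mem_insert_self _ _)) (ih fun j hj => h j (Finset.mem_insert_of_mem hj))

theorem md_L (hG : S_grw) {n : ℕ} (D : LData n) (hD : D.Ok) : Md D.L := by
  obtain ⟨h1, h2⟩ := hG n D hD
  refine ⟨h1, fun a b => ?_⟩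
  obtain ⟨M, hM⟩ := h2 a b
  refine ⟨|M|, abs_nonneg _, fun s h3 h4 => (hM s h3 h4).trans (Real.exp_le_exp.2 ?_)⟩
  exact mul_le_mul_of_nonneg_right (le_abs_self M) (by positivity)

theorem md_LN (hG : S_grw) {n : ℕ} (D : LData n) (hD : D.Ok) (N : ℕ) : Md (D.LN N) := by
  refine md_mul (md_L hG D hD) (md_prod _ _ fun p hp => md_prod _ _ fun j _ => ?_)
  have hp' := (Nat.prime_of_mem_primeFactors hp).pos
  have h := md_add (md_const 1) (md_mul (md_const (-(D.α p j))) (md_ncpow p hp'))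
  have e : (fun s : ℂ => 1 - D.α p j * (p : ℂ) ^ (-s)) = fun s => 1 + -(D.α p j) * (p : ℂ) ^ (-s) := by
    funext s; ring
  rw [e]
  exact h

theorem md_Mo {n : ℕ} (D : LData n) (N Z : ℕ) : Md (D.Mo N Z) := by
  refine md_sum _ _ fun e he => ?_
  exact md_mul (md_const _) (md_ncpow e (Finset.mem_filter.1 he).2.1)

/-- the contour shift for a function with a zero at the origin -/
theorem shift0 (hS : S_shf) (F : ℂ → ℂ) (hF : Md F) (h0 : F 0 = 0) (a b : ℝ) (ha : a < 0) (hb : 0 < b) :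
    ∫ v : ℝ, F (a + v * I) / (a + v * I) * cexp ((a + v * I) ^ 2) =
      ∫ v : ℝ, F (b + v * I) / (b + v * I) * cexp ((b + v * I) ^ 2) := by
  have hd : Differentiable ℂ (dslope F 0) := by
    have := hF.1
    rw [← differentiableOn_univ] at this ⊢
    exact (Complex.differentiableOn_dslope Filter.univ_mem).2 this
  obtain ⟨B, hB⟩ := (isCompact_closedBall (0 : ℂ) 1).exists_bound_of_continuousOn hd.continuous.continuousOn
  obtain ⟨M, hM0, hM⟩ := hF.2 a b
  have hbd : ∀ w : ℂ, a ≤ w.re → w.re ≤ b → ‖dslope F 0 w‖ ≤ Real.exp ((|B| + M) * (1 + |w.im|)) := by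
    intro w h1 h2
    rcases le_total ‖w‖ 1 with h | h
    · have h3 := hB w (by simpa using h)
      have h4 := Real.add_one_le_exp ((|B| + M) * (1 + |w.im|))
      nlinarith [le_abs_self B, abs_nonneg B, mul_nonneg (abs_nonneg B) (abs_nonneg w.im),
        mul_nonneg hM0 (abs_nonneg w.im)]
    · have hw : w ≠ 0 := by
        intro h0; rw [h0, norm_zero] at h; linarith
      rw [dslope_of_ne _ hw, slope_def_field, sub_zero, h0, sub_zero, norm_div]
      calc ‖F w‖ / ‖w‖ ≤ ‖F w‖ := div_le_self (norm_nonneg _) h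
        _ ≤ _ := (hM w h1 h2).trans (Real.exp_le_exp.2 (mul_le_mul_of_nonneg_right
            (by linarith [abs_nonneg B]) (by positivity)))
  have key := hS a b _ (dslope F 0) (by linarith) (fun w _ _ => hd w) hbd
  have hsl : ∀ (c v : ℝ), c ≠ 0 → dslope F 0 (c + v * I) * cexp ((c + v * I) ^ 2) =
      F (c + v * I) / (c + v * I) * cexp ((c + v * I) ^ 2) := by
    intro c v hc
    have hw : (c + v * I : ℂ) ≠ 0 := by
      intro h
      have := congrArg Complex.re h
      simp at this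
      exact hc this
    rw [dslope_of_ne _ hw, slope_def_field, sub_zero, h0, sub_zero]
  simp_rw [hsl a _ ha.ne, hsl b _ hb.ne'] at key
  exact key

/-- the number of the prime factors -/
theorem two_pow_bd (n : ℕ) (ε : ℝ) (hε : 0 < ε) : ∃ C : ℝ, 1 ≤ C ∧ ∀ N : ℕ, 0 < N →
    ∏ _p ∈ N.primeFactors, (2 : ℝ) ^ n ≤ C * (N : ℝ) ^ ε := by
  set A : ℝ := (2 : ℝ) ^ n with hA
  have hA1 : 1 ≤ A := one_le_pow₀ (by norm_num)
  set P : ℕ := ⌈A ^ (1 / ε)⌉₊ with hP
  refine ⟨A ^ P, one_le_pow₀ hA1, fun N hN => ?_⟩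
  have hpt : ∀ p ∈ N.primeFactors, A ≤ (if p < P then A else 1) * (p : ℝ) ^ ε := by
    intro p hp
    have hp' := Nat.prime_of_mem_primeFactors hp
    have hp2 : (2 : ℝ) ≤ p := by exact_mod_cast hp'.two_le
    have hge : 1 ≤ (p : ℝ) ^ ε := Real.one_le_rpow (by linarith) hε.le
    split_ifs with h
    · nlinarith
    · rw [one_mul]
      have hpP : A ^ (1 / ε) ≤ p := by
        have := Nat.le_ceil (A ^ (1 / ε))
        have h4 : ((P : ℕ) : ℝ) ≤ p := by exact_mod_cast not_lt.1 h
        exact this.trans h4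
      have h5 : (A ^ (1 / ε)) ^ ε ≤ (p : ℝ) ^ ε :=
        Real.rpow_le_rpow (Real.rpow_nonneg (by linarith) _) hpP hε.le
      rw [← Real.rpow_mul (by linarith), show 1 / ε * ε = 1 by field_simp, Real.rpow_one] at h5
      exact h5
  calc ∏ _p ∈ N.primeFactors, A
      ≤ ∏ p ∈ N.primeFactors, ((if p < P then A else 1) * (p : ℝ) ^ ε) :=
        Finset.prod_le_prod (fun p _ => by linarith) hpt
    _ = (∏ p ∈ N.primeFactors, (if p < P then A else 1)) * ∏ p ∈ N.primeFactors, (p : ℝ) ^ ε :=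
        Finset.prod_mul_distrib
    _ ≤ A ^ P * (N : ℝ) ^ ε := by
        have e1 : ∏ p ∈ N.primeFactors, (if p < P then A else 1) ≤ A ^ P := by
          rw [Finset.prod_ite, Finset.prod_const, Finset.prod_const_one, mul_one]
          refine pow_le_pow_right₀ hA1 ?_
          calc (N.primeFactors.filter fun p => p < P).card ≤ (Finset.range P).card :=
                Finset.card_le_card fun p hp => Finset.mem_range.2 (Finset.mem_filter.1 hp).2
            _ = P := Finset.card_range P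
        have e2 : ∏ p ∈ N.primeFactors, (p : ℝ) ^ ε ≤ (N : ℝ) ^ ε := by
          rw [Real.finsetProd_rpow _ _ (fun p _ => Nat.cast_nonneg p)]
          refine Real.rpow_le_rpow (Finset.prod_nonneg fun p _ => Nat.cast_nonneg p) ?_ hε.le
          have := Nat.le_of_dvd hN (Nat.prod_primeFactors_dvd N)
          rw [← Nat.cast_prod]
          exact Nat.cast_le.2 this
        exact mul_le_mul e1 e2 (Finset.prod_nonneg fun p _ => Real.rpow_nonneg (Nat.cast_nonneg _) _)
          (by positivity)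

/-- the Euler factors at the primes dividing `N` on the critical line and to the right of it -/
theorem euler_bd {n : ℕ} (D : LData n) (hD : D.Ok) (N : ℕ) (s : ℂ) (hs : 1 / 2 ≤ s.re) :
    ‖∏ p ∈ N.primeFactors, ∏ j, (1 - D.α p j * (p : ℂ) ^ (-s))‖ ≤ ∏ _p ∈ N.primeFactors, (2 : ℝ) ^ n := by
  rw [norm_prod]
  refine Finset.prod_le_prod (fun p _ => norm_nonneg _) fun p hp => ?_
  have hp' := Nat.prime_of_mem_primeFactors hp
  have hp1 : (1 : ℝ) ≤ p := by exact_mod_cast hp'.one_le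
  have hp0 : (0 : ℝ) < p := by linarith
  rw [norm_prod]
  calc ∏ j, ‖1 - D.α p j * (p : ℂ) ^ (-s)‖ ≤ ∏ _j : Fin n, (2 : ℝ) := by
        refine Finset.prod_le_prod (fun j _ => norm_nonneg _) fun j _ => ?_
        refine (norm_sub_le _ _).trans ?_
        rw [norm_one, norm_mul, Complex.norm_natCast_cpow_of_pos hp'.pos, Complex.neg_re]
        have h1 : ‖D.α p j‖ * (p : ℝ) ^ (-s.re) ≤ (p : ℝ) ^ (1 / 2 : ℝ) * (p : ℝ) ^ (-(1 / 2) : ℝ) := by
          refine mul_le_mul ?_ ?_ (by positivity) (by positivity)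
          · rw [← Real.sqrt_eq_rpow]
            exact hD.satake p hp' j
          · exact Real.rpow_le_rpow_of_exponent_le hp1 (by linarith)
        rw [← Real.rpow_add hp0, show (1 / 2 : ℝ) + -(1 / 2) = 0 by norm_num, Real.rpow_zero] at h1
        linarith
    _ = 2 ^ n := by simp

end Pool.Agent.T2h79.LG.DET
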