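import Pool.Agent.T2h79.LG.DetA

/-!
# DET, part B: the Dirichlet series side
-/

set_option autoImplicit false

open MeasureTheory Matrix
open scoped MatrixGroups ENNReal Topology ComplexConjugate

noncomputable section

namespace Pool.Agent.T2h79.LG.DET

open Pool.Agent.T2h77.N Complex

theorem int_gauss : Integrable (fun v : ℝ => Real.exp (4 - v ^ 2)) := by
  have h := (integrable_exp_neg_mul_sq (b := 1) one_pos).const_mul (Real.exp 4)
  refine h.congr (Filter.Eventually.of_forall fun v => ?_)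
  show Real.exp 4 * Real.exp (-1 * v ^ 2) = Real.exp (4 - v ^ 2)
  rw [← Real.exp_add]
  congr 1
  ring

/-- the kernel on the line of absolute convergence -/
def ker (X : ℕ) (v : ℝ) : ℂ := (X : ℂ) ^ (2 + v * I) / (2 + v * I) * cexp ((2 + v * I) ^ 2)

theorem two_ne (v : ℝ) : (2 + v * I : ℂ) ≠ 0 := by
  intro h
  have := congrArg Complex.re h
  simp at this

theorem ker_cont (X : ℕ) (hX : 0 < X) : Continuous (ker X) := by
  have hX0 : (X : ℂ) ≠ 0 := by exact_mod_cast hX.ne'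
  unfold ker
  refine Continuous.mul (Continuous.div ?_ (by fun_prop) two_ne) (by fun_prop)
  exact Continuous.const_cpow (by fun_prop) (Or.inl hX0)

theorem ker_norm (X : ℕ) (hX : 0 < X) (v : ℝ) : ‖ker X v‖ ≤ (X : ℝ) ^ 2 * Real.exp (4 - v ^ 2) := by
  have h1 : ‖(X : ℂ) ^ (2 + v * I)‖ = (X : ℝ) ^ 2 := by
    rw [Complex.norm_natCast_cpow_of_pos hX]
    have : (2 + v * I : ℂ).re = 2 := by simp
    rw [this]
    exact_mod_cast Real.rpow_natCast (X : ℝ) 2
  have h2 : ‖cexp ((2 + v * I) ^ 2)‖ = Real.exp (4 - v ^ 2) := by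
    have := AFE.norm_exp_sq 2 v
    rw [Complex.ofReal_ofNat] at this
    rw [this, ← Real.exp_add]
    congr 1
    ring
  have h3 : 1 ≤ ‖(2 + v * I : ℂ)‖ := by
    have := Complex.abs_re_le_norm (2 + v * I : ℂ)
    have e : (2 + v * I : ℂ).re = 2 := by simp
    rw [e, abs_of_pos two_pos] at this
    linarith
  unfold ker
  rw [norm_mul, norm_div, h1, h2]
  exact mul_le_mul_of_nonneg_right (div_le_self (by positivity) h3) (Real.exp_pos _).le

/-- the arithmetic of the exponents -/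
theorem cp (m X : ℕ) (hm : 0 < m) (hX : 0 < X) (s w : ℂ) :
    (m : ℂ) ^ (-(s + w)) * (X : ℂ) ^ w = (m : ℂ) ^ (-s) * ((((m : ℝ) / X : ℝ) : ℂ) ^ (-w)) := by
  have hm0 : (m : ℂ) ≠ 0 := by exact_mod_cast hm.ne'
  have hX0 : (X : ℂ) ≠ 0 := by exact_mod_cast hX.ne'
  have hmr : (0 : ℝ) < m := by exact_mod_cast hm
  have hXr : (0 : ℝ) < X := by exact_mod_cast hX
  have hq : (0 : ℝ) < (m : ℝ) / X := div_pos hmr hXr
  have hq0 : (((m : ℝ) / X : ℝ) : ℂ) ≠ 0 := by exact_mod_cast hq.ne'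
  rw [Complex.cpow_def_of_ne_zero hm0, Complex.cpow_def_of_ne_zero hX0, Complex.cpow_def_of_ne_zero hm0,
    Complex.cpow_def_of_ne_zero hq0, ← Complex.exp_add, ← Complex.exp_add]
  congr 1
  have e1 : Complex.log (((m : ℝ) / X : ℝ) : ℂ) = Complex.log m - Complex.log X := by
    rw [← Complex.ofReal_log hq.le, Real.log_div hmr.ne' hXr.ne', Complex.ofReal_sub,
      Complex.ofReal_log hmr.le, Complex.ofReal_log hXr.le]
    simp
  rw [e1]
  ring

/-- the terms of the series -/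
def hh {n : ℕ} (D : LData n) (N Z X : ℕ) (s : ℂ) (m : ℕ) : ℂ :=
  if 0 < m ∧ m.Coprime N then D.cc Z m * VV ((m : ℝ) / X) * (m : ℂ) ^ (-s) else 0

theorem series (hR : S_ser) {n : ℕ} (D : LData n) (hD : D.Ok) (N Z X : ℕ) (hN : 0 < N) (hX : 0 < X) (C : ℝ)
    (hc : ∀ m : ℕ, 0 < m → ‖D.cc Z m‖ ≤ C * (m : ℝ) ^ (3 / 4 : ℝ)) (s : ℂ) (hs : 1 / 2 ≤ s.re) :
    HasSum (hh D N Z X s) (∫ v : ℝ, D.LN N (s + (2 + v * I)) * D.Mo N Z (s + (2 + v * I)) * ker X v) := by
  obtain ⟨f, hf⟩ : ∃ f : ℕ → ℝ → ℂ, f = fun (m : ℕ) (v : ℝ) =>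
    (if 0 < m ∧ m.Coprime N then D.cc Z m * (m : ℂ) ^ (-(s + (2 + v * I))) else 0) * ker X v := ⟨_, rfl⟩
  have hre : ∀ v : ℝ, (s + (2 + v * I)).re = s.re + 2 := fun v => by simp
  have hC : 0 ≤ C := by
    have := (norm_nonneg _).trans (hc 1 one_pos)
    simpa using this
  have hb : ∀ (m : ℕ) (v : ℝ), ‖f m v‖ ≤ (C * (X : ℝ) ^ 2 * (m : ℝ) ^ (-(7 / 4) : ℝ)) * Real.exp (4 - v ^ 2) := by
    intro m v
    rw [hf]
    simp only
    split_ifs with h
    · have hm1 : (1 : ℝ) ≤ m := by exact_mod_cast h.1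
      have hm0 : (0 : ℝ) < m := by linarith
      rw [norm_mul, norm_mul, Complex.norm_natCast_cpow_of_pos h.1, Complex.neg_re, hre]
      calc ‖D.cc Z m‖ * (m : ℝ) ^ (-(s.re + 2)) * ‖ker X v‖
          ≤ (C * (m : ℝ) ^ (3 / 4 : ℝ)) * (m : ℝ) ^ (-(5 / 2) : ℝ) * ((X : ℝ) ^ 2 * Real.exp (4 - v ^ 2)) := by
            refine mul_le_mul (mul_le_mul (hc m h.1) ?_ (by positivity) (by positivity)) (ker_norm X hX v)
              (norm_nonneg _) (by positivity)
            exact Real.rpow_le_rpow_of_exponent_le hm1 (by linarith)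
        _ = (C * (X : ℝ) ^ 2 * ((m : ℝ) ^ (3 / 4 : ℝ) * (m : ℝ) ^ (-(5 / 2) : ℝ))) * Real.exp (4 - v ^ 2) := by ring
        _ = _ := by rw [← Real.rpow_add hm0]; norm_num
    · rw [zero_mul, norm_zero]
      positivity
  have hcont : ∀ m : ℕ, Continuous (f m) := by
    intro m
    rw [hf]
    simp only
    split_ifs with h
    · have hm0 : (m : ℂ) ≠ 0 := by exact_mod_cast h.1.ne'
      refine Continuous.mul (Continuous.mul continuous_const ?_) (ker_cont X hX)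
      exact Continuous.const_cpow (by fun_prop) (Or.inl hm0)
    · simp only [zero_mul]
      exact continuous_const
  have hint : ∀ m : ℕ, Integrable (f m) := fun m =>
    (int_gauss.const_mul _).mono' (hcont m).aestronglyMeasurable (Filter.Eventually.of_forall fun v => hb m v)
  have hsum : Summable fun m : ℕ => ∫ v : ℝ, ‖f m v‖ := by
    have h1 : Summable fun m : ℕ => (C * (X : ℝ) ^ 2 * (m : ℝ) ^ (-(7 / 4) : ℝ)) * ∫ v : ℝ, Real.exp (4 - v ^ 2) :=
      ((Real.summable_nat_rpow.2 (by norm_num)).mul_left _).mul_right _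
    refine Summable.of_nonneg_of_le (fun m => integral_nonneg fun v => norm_nonneg _) (fun m => ?_) h1
    rw [← integral_const_mul]
    exact integral_mono_of_nonneg (Filter.Eventually.of_forall fun v => norm_nonneg _) (int_gauss.const_mul _)
      (Filter.Eventually.of_forall fun v => hb m v)
  have key := hasSum_integral_of_summable_integral_norm hint hsum
  have e1 : ∀ v : ℝ, ∑' m, f m v = D.LN N (s + (2 + v * I)) * D.Mo N Z (s + (2 + v * I)) * ker X v := by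
    intro v
    have h := (hR n D hD N Z hN (s + (2 + v * I)) (by rw [hre]; linarith)).2
    rw [h, ← tsum_mul_right, hf]
  have e2 : ∀ m : ℕ, ∫ v : ℝ, f m v = hh D N Z X s m := by
    intro m
    rw [hf]
    unfold hh
    simp only
    split_ifs with h
    · rw [VV, mul_comm (D.cc Z m), mul_assoc, mul_comm, ← integral_const_mul]
      refine integral_congr_ae (Filter.Eventually.of_forall fun v => ?_)
      simp only
      have := cp m X h.1 hX s (2 + v * I)
      unfold ker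
      calc D.cc Z m * (m : ℂ) ^ (-(s + (2 + v * I))) * ((X : ℂ) ^ (2 + v * I) / (2 + v * I) * cexp ((2 + v * I) ^ 2))
          = D.cc Z m * ((m : ℂ) ^ (-(s + (2 + v * I))) * (X : ℂ) ^ (2 + v * I)) *
              (cexp ((2 + v * I) ^ 2) / (2 + v * I)) := by ring
        _ = _ := by rw [this]; ring
    · simp
  rw [show (fun m => ∫ v : ℝ, f m v) = hh D N Z X s from funext e2] at key
  rw [show (∫ v : ℝ, D.LN N (s + (2 + v * I)) * D.Mo N Z (s + (2 + v * I)) * ker X v) = ∫ v : ℝ, ∑' m, f m v from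
    integral_congr_ae (Filter.Eventually.of_forall fun v => (e1 v).symm)]
  exact key

/-- the head of the series -/
theorem head {n : ℕ} (D : LData n) (N Z X : ℕ) (hZ : 2 ≤ Z) (hX : 2 ≤ X) (s : ℂ) (h1 : D.cc Z 1 = 1)
    (h0 : ∀ m : ℕ, 1 < m → m < Z → D.cc Z m = 0) :
    ∑ m ∈ Finset.range (X ^ 2), hh D N Z X s m = VV (1 / X) + D.PP N Z X s := by
  unfold LData.PP
  rw [Finset.sum_filter, ← sub_eq_iff_eq_add, ← Finset.sum_sub_distrib]
  have hX2 : 1 < X ^ 2 := by nlinarith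
  rw [Finset.sum_eq_single_of_mem 1 (Finset.mem_range.2 hX2)]
  · unfold hh
    rw [if_pos ⟨one_pos, Nat.coprime_one_left N⟩, if_neg (by omega), h1]
    simp
  · intro m _ hm
    unfold hh
    by_cases h : 0 < m ∧ m.Coprime N
    · by_cases hmZ : Z ≤ m
      · rw [if_pos h, if_pos ⟨hmZ, h⟩, sub_self]
      · rw [if_pos h, if_neg (fun h' => hmZ h'.1), h0 m (by omega) (by omega)]
        simp
    · rw [if_neg h, if_neg (fun h' => h h'.2), sub_self]

/-- the tail of the series -/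
theorem tail {n : ℕ} (D : LData n) (N Z X : ℕ) (hX : 2 ≤ X) (C CV : ℝ)
    (hc : ∀ m : ℕ, 0 < m → ‖D.cc Z m‖ ≤ C * (m : ℝ) ^ (3 / 4 : ℝ))
    (hV : ∀ x : ℝ, 0 < x → ‖VV x‖ ≤ CV * x ^ (-6 : ℝ)) (s : ℂ) (hs : 1 / 2 ≤ s.re) :
    ‖∑' i : ℕ, hh D N Z X s (i + X ^ 2)‖ ≤ C * CV * (∑' i : ℕ, 1 / ((i + 1 : ℕ) : ℝ) ^ 2) * (X : ℝ)⁻¹ := by
  have hC : 0 ≤ C := by
    have := (norm_nonneg _).trans (hc 1 one_pos)
    simpa using this
  have hCV : 0 ≤ CV := by
    have := (norm_nonneg _).trans (hV 1 one_pos)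
    simpa using this
  have hXr : (2 : ℝ) ≤ X := by exact_mod_cast hX
  have hX0 : (0 : ℝ) < X := by linarith
  have hs2 : Summable fun i : ℕ => 1 / ((i + 1 : ℕ) : ℝ) ^ 2 :=
    (summable_nat_add_iff 1).2 (Real.summable_one_div_nat_pow.mpr (by norm_num : 1 < 2))
  have hs3 : Summable fun i : ℕ => C * CV * (1 / ((i + 1 : ℕ) : ℝ) ^ 2) * (X : ℝ)⁻¹ :=
    (hs2.mul_left _).mul_right _
  have e : C * CV * (∑' i : ℕ, 1 / ((i + 1 : ℕ) : ℝ) ^ 2) * (X : ℝ)⁻¹ =
      ∑' i : ℕ, C * CV * (1 / ((i + 1 : ℕ) : ℝ) ^ 2) * (X : ℝ)⁻¹ := by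
    rw [tsum_mul_right, tsum_mul_left]
  rw [e]
  refine tsum_of_norm_bounded hs3.hasSum fun i => ?_
  unfold hh
  split_ifs with h
  · obtain ⟨y, hy⟩ : ∃ y : ℝ, y = ((i + X ^ 2 : ℕ) : ℝ) := ⟨_, rfl⟩
    have hyX : (X : ℝ) ^ 2 ≤ y := by
      rw [hy]; push_cast; linarith [Nat.cast_nonneg (α := ℝ) i]
    have hyi : ((i + 1 : ℕ) : ℝ) ≤ y := by
      rw [hy]
      have : i + 1 ≤ i + X ^ 2 := by nlinarith
      exact_mod_cast this
    have hy0 : 0 < y := by nlinarith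
    have hy1 : 1 ≤ y := by nlinarith
    rw [norm_mul, norm_mul, Complex.norm_natCast_cpow_of_pos h.1, Complex.neg_re, ← hy]
    have a1 : ‖D.cc Z (i + X ^ 2)‖ ≤ C * y := by
      refine (hc _ h.1).trans ?_
      rw [← hy]
      refine mul_le_mul_of_nonneg_left ?_ hC
      calc y ^ (3 / 4 : ℝ) ≤ y ^ (1 : ℝ) := Real.rpow_le_rpow_of_exponent_le hy1 (by norm_num)
        _ = y := Real.rpow_one _
    have a2 : ‖VV (y / X)‖ ≤ CV * (y ^ 3)⁻¹ := by
      refine (hV _ (by positivity)).trans (mul_le_mul_of_nonneg_left ?_ hCV)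
      have e6 : (y / X) ^ (-6 : ℝ) = ((y / X) ^ 6)⁻¹ := by
        rw [Real.rpow_neg (by positivity)]
        congr 1
        exact_mod_cast Real.rpow_natCast (y / X) 6
      rw [e6]
      refine inv_anti₀ (by positivity) ?_
      rw [div_pow, le_div_iff₀ (by positivity)]
      have : (X : ℝ) ^ 6 ≤ y ^ 3 := by
        calc (X : ℝ) ^ 6 = ((X : ℝ) ^ 2) ^ 3 := by ring
          _ ≤ y ^ 3 := pow_le_pow_left₀ (by positivity) hyX 3
      calc y ^ 3 * (X : ℝ) ^ 6 ≤ y ^ 3 * y ^ 3 := mul_le_mul_of_nonneg_left this (by positivity)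
        _ = y ^ 6 := by ring
    have a3 : y ^ (-s.re) ≤ (X : ℝ)⁻¹ := by
      calc y ^ (-s.re) ≤ y ^ (-(1 / 2) : ℝ) := Real.rpow_le_rpow_of_exponent_le hy1 (by linarith)
        _ ≤ ((X : ℝ) ^ 2) ^ (-(1 / 2) : ℝ) := Real.rpow_le_rpow_of_nonpos (by positivity) hyX (by norm_num)
        _ = (X : ℝ)⁻¹ := by
            rw [← Real.rpow_natCast, ← Real.rpow_mul hX0.le]
            norm_num
            exact Real.rpow_neg_one _
    calc ‖D.cc Z (i + X ^ 2)‖ * ‖VV (y / X)‖ * y ^ (-s.re)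
        ≤ (C * y) * (CV * (y ^ 3)⁻¹) * (X : ℝ)⁻¹ :=
          mul_le_mul (mul_le_mul a1 a2 (norm_nonneg _) (by positivity)) a3 (by positivity) (by positivity)
      _ = C * CV * (1 / y ^ 2) * (X : ℝ)⁻¹ := by field_simp
      _ ≤ C * CV * (1 / ((i + 1 : ℕ) : ℝ) ^ 2) * (X : ℝ)⁻¹ := by
          refine mul_le_mul_of_nonneg_right (mul_le_mul_of_nonneg_left ?_ (by positivity)) (by positivity)
          exact one_div_le_one_div_of_le (by positivity) (pow_le_pow_left₀ (by positivity) hyi 2)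
  · rw [norm_zero]
    positivity

end Pool.Agent.T2h79.LG.DET
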