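import Pool.Agent.T2h77N.Asm5
import Pool.Agent.T2h77N.Iw
import Pool.Agent.T2h77N.Red
import Pool.Agent.T2h77N.Cell
import Pool.Agent.T2h77N.Int
import Pool.Agent.T2h77N.Ent
import Pool.Agent.T2h77N.Gen
import Pool.Agent.T2h77N.Prim
import Pool.Agent.T2h77N.FixA
import Pool.Agent.T2h77N.FixB
import Pool.Agent.T2h77N.Fix
import Pool.Agent.T2h77N.Uni
import Pool.Agent.T2h77N.Count
import Pool.Agent.T2h77N.Trace
import Pool.Agent.T2h77N.Cut
import Pool.Agent.T2h77N.Mass

/-!
# The inputs from the density theorem for `GL_n` (`MP_8410ab_nt.DensityGLn`)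
-/

set_option autoImplicit false

namespace Pool.Agent.T2h79.LG

open Pool.Agent.T2h77.N

theorem i_iw : S_iw := iw
theorem i_red : S_red := red'
theorem i_int : S_int := int_bound iw (cell iw)
theorem i_ent : S_ent := ent iw
theorem i_fix : S_fix := fix fixA (fixB gen orb) prim
theorem i_high : S_high := high iw (ent iw) i_fix
theorem i_triv : S_triv := triv iw (ent iw)
theorem i_trace : S_trace := trace
theorem i_cut : S_cut := cut iw unimod
theorem i_mass : S_mass := mass
theorem i_cov : S_cov := cov
theorem i_rcf : S_rcf := rcf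

end Pool.Agent.T2h79.LG
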