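import Pool.Agent.T2h79.LG.LvA

/-!
# Project LG: the law of large values
-/

set_option autoImplicit false

open MeasureTheory Matrix
open scoped MatrixGroups ENNReal Topology

noncomputable section

namespace Pool.Agent.T2h79.LG.LV

open Pool.Agent.T2h77.N

/-- the law of large values for a level structure `H`, conductors up to `N^(2 dd - κ)` and `sz N` forms -/
def ConclL (n : ℕ) (H : (N : ℕ) → Subgroup (GN n N)) (dd : ℕ) (sz : ℕ → ℝ) : Prop :=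
  ∀ κ : ℝ, 0 < κ → κ ≤ 1 → ∃ θ₀ : ℝ, 0 < θ₀ ∧
    ∀ U : Set (GR n), U ∈ 𝓝 (1 : GR n) → ∀ T ε : ℝ, 0 < ε → ∃ (C : ℝ) (K : ℕ), 0 < C ∧
    ∀ (N : ℕ) [NeZero N] (F : Set (GR n)), IsFD F →
    ∀ (k : ℕ) (f : Fin k → GR n → XX (H N) → ℂ) (l : Fin k → ℕ → ℂ),
      (∀ i, IsForm (H N) (f i) ∧ IsL2 F (f i) ∧ IsCusp (f i) ∧ IsSlow U F (f i)) →
      (∀ i j, ip F (f i) (f j) = if i = j then 1 else 0) → (∀ i, IsEig (l i) (f i)) →
      ∀ θ : ℝ, 0 ≤ θ → θ ≤ θ₀ → ∀ Ξ : Finset (ℕ → ℂ), (∀ ξ ∈ Ξ, ∀ m, ‖ξ m‖ ≤ 1) →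
      (∀ i, ∃ ξ ∈ Ξ, ∃ D : LData n, D.Ok ∧ D.q ≤ T * (N : ℝ) ^ (2 * (dd : ℝ) - κ) ∧ (∀ j, ‖D.μ j‖ ≤ T) ∧
        (∀ m : ℕ, 0 < m → m.Coprime N → D.lam m = ξ m * l i m) ∧
        ∃ t : ℝ, (N : ℝ) ^ θ * (1 + |t|) ^ K < ‖D.L (1 / 2 + t * Complex.I)‖) →
      (k : ℝ) ≤ C * Ξ.card * sz N * (N : ℝ) ^ (ε - 2 * θ)

theorem main (hA : S_afe) (hF : S_fac) (hD : S_dya) (hhic : S_hih) (htrk : S_trh) (n : ℕ) (hn : 3 ≤ n)
    (H : (N : ℕ) → Subgroup (GN n N)) (dd : ℕ) (sz : ℕ → ℝ) (hdd : 1 ≤ dd) (hsz : ∀ N, 0 ≤ sz N)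
    (hH : ∀ (N : ℕ) [NeZero N], ((H N).index : ℝ) ≤ sz N ∧ N ≤ ixS (H N) ∧ ixS (H N) ≤ N ^ (n ^ 2))
    (hB : BLS n H dd sz) : ConclL n H dd sz := by
  classical
  intro κ hκ hκ1
  have hn' : (3 : ℝ) ≤ n := by exact_mod_cast hn
  have hn2 : (0 : ℝ) < (n : ℝ) ^ 2 := by positivity
  obtain ⟨η₀, hη₀, h1⟩ := hhic n hn
  set η := min η₀ (κ / 8 / (n : ℝ) ^ 2) with hη
  have hη0 : 0 < η := lt_min hη₀ (by positivity)
  have hηκ : η * (n : ℝ) ^ 2 ≤ κ / 8 := by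
    have : η ≤ κ / 8 / (n : ℝ) ^ 2 := min_le_right _ _
    rwa [le_div_iff₀ hn2] at this
  refine ⟨η / 4, by positivity, fun U hU T ε hε => ?_⟩
  obtain ⟨χ, hχ1, hχ2, hχ3, hχ4, hχ5⟩ := exists_bump n hU
  obtain ⟨K, CA, hCA, h2⟩ := one_twist hA hF hD n (by omega) H dd sz hdd hsz hB χ hχ1 hχ2 T κ ε hκ hκ1 hε
  obtain ⟨C₁, hC₁, h3⟩ := h1 U χ hχ1 hχ2 hχ3 hχ4 hχ5 η hη0 (min_le_left _ _)
  obtain ⟨C₂, N₀, hC₂, h4⟩ := h2 η C₁ hη0 hηκ hC₁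
  obtain ⟨C₃, hC₃, h5⟩ := htrk n hn U hU
  obtain ⟨C₄, hC₄, hlog⟩ := log_pow_le n ε hε
  set M : ℝ := max 1 (N₀ : ℝ) with hM
  have hM1 : 1 ≤ M := le_max_left _ _
  set R : ℝ := max (M ^ (2 * (η / 4))) (2 * CA) with hR
  have hR0 : 0 < R := lt_of_lt_of_le (by linarith) (le_max_right _ _)
  refine ⟨C₁ + C₂ + C₃ * C₄ * R, K, by positivity, ?_⟩
  intro N _ F hF k f l hf hon heig θ hθ hθ0 Ξ hξ hL
  obtain ⟨hi1, hi2, hi3⟩ := hH N
  have hN1 : (1 : ℝ) ≤ N := by exact_mod_cast NeZero.one_le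
  have hN0 : (0 : ℝ) < N := by linarith
  have hs0 : 0 ≤ sz N := hsz N
  rcases Nat.eq_zero_or_pos k with hk0 | hkpos
  · rw [hk0, Nat.cast_zero]
    positivity
  have hΞ1 : (1 : ℝ) ≤ Ξ.card := by
    obtain ⟨ξ, hξ1, -⟩ := hL ⟨0, hkpos⟩
    have : 1 ≤ Ξ.card := Finset.card_pos.2 ⟨ξ, hξ1⟩
    exact_mod_cast this
  have hNn : 0 ≤ (Ξ.card : ℝ) * (sz N * (N : ℝ) ^ (ε - 2 * θ)) := by positivity
  by_cases hNN : N₀ ≤ N ∧ 2 * CA ≤ (N : ℝ) ^ (2 * θ)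
  · obtain ⟨I, hI, hI'⟩ := h3 N (H N) F hi2 hi3 hF k f hf hon
    choose ξ hξΞ D hok hq hμ hlam hbad using hL
    -- the part of a twist
    have hpart : ∀ ξ' ∈ Ξ, (((Finset.univ.filter fun i => i ∉ I).filter fun i => ξ i = ξ').card : ℝ) ≤
        C₂ * sz N * (N : ℝ) ^ (ε - 2 * θ) := by
      intro ξ' hξ'
      set S : Finset (Fin k) := (Finset.univ.filter fun i => i ∉ I).filter fun i => ξ i = ξ' with hS
      have hmem : ∀ j, S.orderEmbOfFin rfl j ∈ S := fun j => Finset.orderEmbOfFin_mem S rfl j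
      have hξj : ∀ j, ξ (S.orderEmbOfFin rfl j) = ξ' := fun j => (Finset.mem_filter.1 (hmem j)).2
      have hIj : ∀ j, S.orderEmbOfFin rfl j ∉ I := fun j =>
        (Finset.mem_filter.1 (Finset.mem_filter.1 (hmem j)).1).2
      have h6 := h4 N F hNN.1 hF S.card (fun j => f (S.orderEmbOfFin rfl j)) (fun j => l (S.orderEmbOfFin rfl j)) ξ'
        (fun j => D (S.orderEmbOfFin rfl j)) ⟨fun j => (hf _).1, fun j => (hf _).2.1, fun i j => by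
          rw [hon]
          simp only [EmbeddingLike.apply_eq_iff_eq]⟩
        (fun j => heig _) (hξ ξ' hξ') (fun j m hm hmN => by rw [hlam _ m hm hmN, hξj j])
        (fun j => ⟨hok _, hq _, hμ _⟩) (fun j => hI' _ (hIj j)) θ hθ hNN.2 Finset.univ (fun j _ => hbad _)
      rwa [Finset.card_univ, Fintype.card_fin] at h6
    have hsum : (((Finset.univ.filter fun i => i ∉ I).card : ℕ) : ℝ) ≤
        C₂ * (Ξ.card * (sz N * (N : ℝ) ^ (ε - 2 * θ))) := by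
      have e1 : (Finset.univ.filter fun i => i ∉ I).card =
          ∑ ξ' ∈ Ξ, ((Finset.univ.filter fun i => i ∉ I).filter fun i => ξ i = ξ').card :=
        Finset.card_eq_sum_card_fiberwise fun i _ => hξΞ i
      rw [e1]
      push_cast
      calc ∑ ξ' ∈ Ξ, (((Finset.univ.filter fun i => i ∉ I).filter fun i => ξ i = ξ').card : ℝ)
          ≤ ∑ ξ' ∈ Ξ, C₂ * sz N * (N : ℝ) ^ (ε - 2 * θ) := Finset.sum_le_sum hpart
        _ = (Ξ.card : ℝ) * (C₂ * sz N * (N : ℝ) ^ (ε - 2 * θ)) := by rw [Finset.sum_const, nsmul_eq_mul]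
        _ = _ := by ring
    have h7 : (k : ℝ) = (I.card : ℝ) + ((Finset.univ.filter fun i => i ∉ I).card : ℝ) := by
      have e1 : (Finset.univ.filter fun i => i ∉ I) = Iᶜ := by
        ext i
        simp
      rw [e1]
      have := Finset.card_add_card_compl I
      rw [Fintype.card_fin] at this
      exact_mod_cast this.symm
    have h8 : (N : ℝ) ^ (-(η / 2)) ≤ (N : ℝ) ^ (ε - 2 * θ) :=
      Real.rpow_le_rpow_of_exponent_le hN1 (by linarith)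
    have h11 : C₁ * (H N).index * (N : ℝ) ^ (-(η / 2)) ≤ C₁ * (Ξ.card * (sz N * (N : ℝ) ^ (ε - 2 * θ))) := by
      have h12 : ((H N).index : ℝ) * (N : ℝ) ^ (-(η / 2)) ≤ sz N * (N : ℝ) ^ (ε - 2 * θ) :=
        mul_le_mul hi1 h8 (by positivity) (by positivity)
      have h13 : sz N * (N : ℝ) ^ (ε - 2 * θ) ≤ Ξ.card * (sz N * (N : ℝ) ^ (ε - 2 * θ)) :=
        le_mul_of_one_le_left (by positivity) hΞ1
      rw [mul_assoc]
      exact mul_le_mul_of_nonneg_left (h12.trans h13) (by linarith)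
    calc (k : ℝ) = (I.card : ℝ) + ((Finset.univ.filter fun i => i ∉ I).card : ℝ) := h7
      _ ≤ C₁ * (Ξ.card * (sz N * (N : ℝ) ^ (ε - 2 * θ))) + C₂ * (Ξ.card * (sz N * (N : ℝ) ^ (ε - 2 * θ))) :=
          add_le_add (hI.trans h11) hsum
      _ = (C₁ + C₂) * (Ξ.card * (sz N * (N : ℝ) ^ (ε - 2 * θ))) := by ring
      _ ≤ (C₁ + C₂ + C₃ * C₄ * R) * (Ξ.card * (sz N * (N : ℝ) ^ (ε - 2 * θ))) := by
          refine mul_le_mul_of_nonneg_right ?_ hNn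
          have : 0 ≤ C₃ * C₄ * R := by positivity
          linarith
      _ = _ := by ring
  · have h6 := h5 N (H N) F hi3 hF k f hf hon
    have hNR : (N : ℝ) ^ (2 * θ) ≤ R := by
      by_cases hc : N₀ ≤ N
      · have : (N : ℝ) ^ (2 * θ) < 2 * CA := by
          by_contra h
          exact hNN ⟨hc, not_lt.1 h⟩
        exact this.le.trans (le_max_right _ _)
      · have hNM : (N : ℝ) ≤ M := by
          refine le_trans ?_ (le_max_right _ _)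
          exact_mod_cast (not_le.1 hc).le
        refine le_trans ?_ (le_max_left _ _)
        calc (N : ℝ) ^ (2 * θ) ≤ (N : ℝ) ^ (2 * (η / 4)) := Real.rpow_le_rpow_of_exponent_le hN1 (by linarith)
          _ ≤ M ^ (2 * (η / 4)) := Real.rpow_le_rpow hN0.le hNM (by positivity)
    have hlN := Real.log_nonneg hN1
    have h7 : (1 + Real.log N) ^ n ≤ C₄ * R * (N : ℝ) ^ (ε - 2 * θ) := by
      refine (hlog N hN1).trans ?_
      have e1 : (N : ℝ) ^ ε = (N : ℝ) ^ (2 * θ) * (N : ℝ) ^ (ε - 2 * θ) := by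
        rw [← Real.rpow_add hN0]
        ring_nf
      rw [e1]
      calc C₄ * ((N : ℝ) ^ (2 * θ) * (N : ℝ) ^ (ε - 2 * θ)) ≤ C₄ * (R * (N : ℝ) ^ (ε - 2 * θ)) := by gcongr
        _ = _ := by ring
    calc (k : ℝ) ≤ C₃ * (H N).index * (1 + Real.log N) ^ n := h6
      _ ≤ C₃ * sz N * (C₄ * R * (N : ℝ) ^ (ε - 2 * θ)) :=
          mul_le_mul (mul_le_mul_of_nonneg_left hi1 (by linarith)) h7 (by positivity) (by positivity)
      _ = (C₃ * C₄ * R) * (1 * (sz N * (N : ℝ) ^ (ε - 2 * θ))) := by ring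
      _ ≤ (C₃ * C₄ * R) * (Ξ.card * (sz N * (N : ℝ) ^ (ε - 2 * θ))) := by gcongr
      _ ≤ (C₁ + C₂ + C₃ * C₄ * R) * (Ξ.card * (sz N * (N : ℝ) ^ (ε - 2 * θ))) :=
          mul_le_mul_of_nonneg_right (by linarith) hNn
      _ = _ := by ring

end Pool.Agent.T2h79.LG.LV
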