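import Pool.Agent.T2h79.LG.Stm4

/-!
# Project LG: task FIN
-/

set_option autoImplicit false

open MeasureTheory Matrix
open scoped MatrixGroups ENNReal Topology

noncomputable section

namespace Pool.Agent.T2h79.LG.FIN

open Pool.Agent.T2h77.N

/-- the length of the Dirichlet polynomials -/
theorem exists_Z {κ : ℝ} (hκ : 0 < κ) : ∃ A : ℝ, 1 ≤ A ∧ ∀ N : ℝ, A ≤ N → ∃ Z : ℕ, 2 ≤ Z ∧
    N ^ (κ / 4) ≤ (Z : ℝ) ∧ (Z : ℝ) ≤ N ^ (κ / 2) := by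
  refine ⟨2 ^ (4 / κ), Real.one_le_rpow (by norm_num) (by positivity), fun N hN => ?_⟩
  have hN1 : 1 ≤ N := (Real.one_le_rpow (by norm_num) (by positivity)).trans hN
  have h0 : (2 : ℝ) ≤ N ^ (κ / 4) := by
    calc (2 : ℝ) = ((2 : ℝ) ^ (4 / κ)) ^ (κ / 4) := by
          rw [← Real.rpow_mul (by norm_num)]
          have : 4 / κ * (κ / 4) = 1 := by field_simp
          rw [this, Real.rpow_one]
      _ ≤ N ^ (κ / 4) := Real.rpow_le_rpow (by positivity) hN (by positivity)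
  have h1 : N ^ (κ / 2) = N ^ (κ / 4) * N ^ (κ / 4) := by
    rw [← Real.rpow_add (by linarith)]
    ring_nf
  have h2 : (⌊N ^ (κ / 2)⌋₊ : ℝ) ≤ N ^ (κ / 2) := Nat.floor_le (by positivity)
  have h3 : N ^ (κ / 2) < (⌊N ^ (κ / 2)⌋₊ : ℝ) + 1 := Nat.lt_floor_add_one _
  have h4 : N ^ (κ / 4) ≤ (⌊N ^ (κ / 2)⌋₊ : ℝ) := by nlinarith
  refine ⟨⌊N ^ (κ / 2)⌋₊, ?_, h4, h2⟩
  have h5 : (2 : ℝ) ≤ (⌊N ^ (κ / 2)⌋₊ : ℝ) := h0.trans h4
  exact_mod_cast h5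

/-- the bound for one twist -/
theorem one_twist (hQ1 : S_qu1) (hQ2 : S_qu2) (hQ3 : S_qu3) (hdet : S_det) (n : ℕ) (hn : 1 ≤ n)
    (H : (N : ℕ) → Subgroup (GN n N)) (dd : ℕ) (sz : ℕ → ℝ) (hdd : 1 ≤ dd) (hsz : ∀ N, 0 ≤ sz N)
    (hB : BLS n H dd sz) (hT : TP n H sz) (χ : GR n → ℝ) (hχ : Continuous χ) (hχc : HasCompactSupport χ)
    (T ε : ℝ) (hε : 0 < ε) :
    ∃ (η₁ δ₁ : ℝ) (K : ℕ), 0 < η₁ ∧ 0 < δ₁ ∧ ∀ η C₁ : ℝ, 0 < η → η ≤ η₁ → 1 ≤ C₁ → ∃ (C : ℝ) (N₀ : ℕ), 1 ≤ C ∧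
    ∀ (N : ℕ) [NeZero N] (F : Set (GR n)), N₀ ≤ N → IsFD F →
    ∀ (k : ℕ) (f : Fin k → GR n → XX (H N) → ℂ) (l : Fin k → ℕ → ℂ) (ξ : ℕ → ℂ) (D : Fin k → LData n), Fam F f →
      (∀ i, IsEig (l i) (f i)) → (∀ m, ‖ξ m‖ ≤ 1) →
      (∀ i, ∀ m : ℕ, 0 < m → m.Coprime N → (D i).lam m = ξ m * l i m) →
      (∀ i, (D i).Ok ∧ (D i).q ≤ T * (N : ℝ) ^ dd * (N : ℝ) ^ δ₁ ∧ ∀ j, ‖(D i).μ j‖ ≤ T) →
      (∀ i, ENNReal.ofReal (1 / 8) ≤
        ∫⁻ g in F ∩ sat (SL n (C₁ * (N : ℝ) ^ η)), sq (Rc χ (f i)) g ∂(mu n)) →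
      (∀ i, Bad (D i) N ε δ₁ K) → (k : ℝ) ≤ C * sz N * (N : ℝ) ^ (-δ₁) := by
  classical
  obtain ⟨κ₂, η₂, hκ₂, hη₂, hQ2⟩ := hQ2 n hn H sz hsz hT χ hχ hχc
  obtain ⟨κ₃, η₃, hκ₃, hη₃, hQ3⟩ := hQ3 n hn H sz hsz hT χ hχ hχc
  set κ : ℝ := min κ₂ κ₃ with hκ
  have hκ0 : 0 < κ := lt_min hκ₂ hκ₃
  set ε₁ : ℝ := min ε (1 / 2) with hε₁
  have hε₁0 : 0 < ε₁ := lt_min hε (by norm_num)
  have hε₁ε : ε₁ ≤ ε := min_le_left _ _
  have hε₁h : ε₁ ≤ 1 / 2 := min_le_right _ _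
  set a : ℝ := κ * ε₁ / 32 with ha
  have ha0 : 0 < a := by positivity
  have ha32 : κ * ε₁ = 32 * a := by
    rw [ha]
    ring
  set e : ℝ := min ε a with he
  have he0 : 0 < e := lt_min hε ha0
  have heε : e ≤ ε := min_le_left _ _
  have hea : e ≤ a := min_le_right _ _
  obtain ⟨η₁, K₀, hη₁, hQ1⟩ := hQ1 n hn H dd sz hdd hsz hB χ hχ hχc T e he0
  obtain ⟨Cd, K, hCd, hdet⟩ := hdet n ε₁ e K₀ hε₁0 hε₁h he0
  set δ₁ : ℝ := min (min η₁ e) (a / (2 * (K + 1))) with hδ₁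
  have hδ0 : 0 < δ₁ := lt_min (lt_min hη₁ he0) (by positivity)
  have hδη : δ₁ ≤ η₁ := (min_le_left _ _).trans (min_le_left _ _)
  have hδe : δ₁ ≤ e := (min_le_left _ _).trans (min_le_right _ _)
  have hδK : δ₁ * K ≤ a / 2 := by
    have h1 : δ₁ ≤ a / (2 * (K + 1)) := min_le_right _ _
    calc δ₁ * K ≤ a / (2 * (K + 1)) * (K + 1) := by
          have : (K : ℝ) ≤ K + 1 := by linarith
          exact mul_le_mul h1 this (by positivity) (by positivity)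
      _ = a / 2 := by
          field_simp
  refine ⟨min η₁ (min η₂ η₃), δ₁, K₀, lt_min hη₁ (lt_min hη₂ hη₃), hδ0, fun η C₁ hη hηη hC₁ => ?_⟩
  obtain ⟨c1, N1, hc1, hQ1⟩ := hQ1 η C₁ hη (hηη.trans (min_le_left _ _)) hC₁
  obtain ⟨c2, N2, hc2, hQ2⟩ := hQ2 e η C₁ he0 hη (hηη.trans ((min_le_right _ _).trans (min_le_left _ _))) hC₁
  obtain ⟨c3, N3, hc3, hQ3⟩ := hQ3 ε₁ a η C₁ hε₁0 ha0 hη
    (hηη.trans ((min_le_right _ _).trans (min_le_right _ _))) hC₁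
  obtain ⟨A, hA, hZ⟩ := exists_Z hκ0
  set A' : ℝ := (4 * (Cd * 2 ^ K)) ^ (2 / a) with hA'
  refine ⟨c1 + c2 + c3, max (max N1 (max N2 N3)) ⌈max A A'⌉₊, by linarith, ?_⟩
  intro N _ F hNN hF k f l ξ D hfam heig hξ hlam hDD hmass hbad
  have hN1 : (1 : ℝ) ≤ N := by exact_mod_cast NeZero.one_le
  have hN0 : (0 : ℝ) < N := by linarith
  have hNpos : 0 < N := by exact_mod_cast hN0
  have hNA : max A A' ≤ (N : ℝ) := by
    have h1 : ⌈max A A'⌉₊ ≤ N := (le_max_right _ _).trans hNN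
    exact (Nat.le_ceil _).trans (by exact_mod_cast h1)
  have hNN1 : N1 ≤ N := ((le_max_left _ _).trans (le_max_left _ _)).trans hNN
  have hNN2 : N2 ≤ N := ((le_max_left _ _).trans ((le_max_right _ _).trans (le_max_left _ _))).trans hNN
  have hNN3 : N3 ≤ N := ((le_max_right _ _).trans ((le_max_right _ _).trans (le_max_left _ _))).trans hNN
  obtain ⟨Z, hZ2, hZl, hZu⟩ := hZ N ((le_max_left _ _).trans hNA)
  have hs0 : 0 ≤ sz N := hsz N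
  have hG1 : 1 ≤ (N : ℝ) ^ e := Real.one_le_rpow hN1 he0.le
  -- the three exceptional sets
  set Q1 : Finset (Fin k) := Finset.univ.filter fun i =>
    ∃ t : ℝ, (N : ℝ) ^ e * (1 + |t|) ^ K₀ < ‖(D i).L (1 / 2 + t * Complex.I)‖ with hQ1d
  set Q2 : Finset (Fin k) := Finset.univ.filter fun i =>
    (N : ℝ) ^ (2 * e) < ∫ v : ℝ, (1 + v ^ 2)⁻¹ * ‖(D i).Mo N Z (1 / 2 + v * Complex.I)‖ ^ 2 with hQ2d
  set Q3 : Finset (Fin k) := Finset.univ.filter fun i =>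
    ((N : ℝ) ^ (-a)) ^ 2 < ∫ v : ℝ, (1 + v ^ 2)⁻¹ *
        ‖(D i).PP N Z Z (((1 / 2 + ε₁ / 2 : ℝ) : ℂ) + v * Complex.I)‖ ^ 2 with hQ3d
  have hb1 : (Q1.card : ℝ) ≤ c1 * sz N * (N : ℝ) ^ (-e) :=
    hQ1 N F hNN1 hF k f l ξ D hfam heig hξ hlam
      (fun i => ⟨(hDD i).1, (hDD i).2.1.trans ?_, (hDD i).2.2⟩) hmass Q1
      (fun i hi => (Finset.mem_filter.1 hi).2)
  swap
  · have hT0 : 0 ≤ T * (N : ℝ) ^ dd := by
      have h1 := (hDD i).1.one_le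
      have h2 := (hDD i).2.1
      by_contra hneg
      have h3 : T * (N : ℝ) ^ dd * (N : ℝ) ^ δ₁ ≤ 0 :=
        mul_nonpos_of_nonpos_of_nonneg (not_le.1 hneg).le (by positivity)
      linarith
    exact mul_le_mul_of_nonneg_left (Real.rpow_le_rpow_of_exponent_le hN1 hδη) hT0
  have hZκ : (Z : ℝ) ≤ (N : ℝ) ^ κ₂ := hZu.trans
    (Real.rpow_le_rpow_of_exponent_le hN1 (by linarith [min_le_left κ₂ κ₃]))
  have hZκ3 : (Z : ℝ) ^ 2 ≤ (N : ℝ) ^ κ₃ := by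
    calc (Z : ℝ) ^ 2 ≤ ((N : ℝ) ^ (κ / 2)) ^ 2 := pow_le_pow_left₀ (by positivity) hZu 2
      _ = (N : ℝ) ^ κ := by
          rw [← Real.rpow_natCast, ← Real.rpow_mul hN0.le]
          congr 1
          push_cast
          ring
      _ ≤ (N : ℝ) ^ κ₃ := Real.rpow_le_rpow_of_exponent_le hN1 (min_le_right κ₂ κ₃)
  have hb2 : (Q2.card : ℝ) ≤ c2 * sz N * (N : ℝ) ^ (-e) :=
    hQ2 N F hNN2 hF k f l ξ D hfam heig hξ hlam hmass Z Q2 hZκ (fun i hi => (Finset.mem_filter.1 hi).2)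
  have hb3' : (Q3.card : ℝ) * ((N : ℝ) ^ (-a)) ^ 2 ≤ c3 * sz N * (N : ℝ) ^ a * (Z : ℝ) ^ (-(ε₁ / 2)) :=
    hQ3 N F hNN3 hF k f l ξ D hfam heig hξ hlam hmass Z Z ((N : ℝ) ^ (-a)) Q3 hZ2 le_rfl hZκ3 (by positivity)
      (fun i hi => (Finset.mem_filter.1 hi).2)
  have hZ0 : (0 : ℝ) < Z := by
    have : 0 < Z := by omega
    exact_mod_cast this
  have hZneg : ∀ b : ℝ, 0 ≤ b → (Z : ℝ) ^ (-b) ≤ (N : ℝ) ^ (-(κ / 4 * b)) := by
    intro b hb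
    calc (Z : ℝ) ^ (-b) ≤ ((N : ℝ) ^ (κ / 4)) ^ (-b) :=
          Real.rpow_le_rpow_of_nonpos (by positivity) hZl (by linarith)
      _ = (N : ℝ) ^ (-(κ / 4 * b)) := by
          rw [← Real.rpow_mul hN0.le]
          ring_nf
  have hb3 : (Q3.card : ℝ) ≤ c3 * sz N * (N : ℝ) ^ (-a) := by
    have h1 : (Z : ℝ) ^ (-(ε₁ / 2)) ≤ (N : ℝ) ^ (-(4 * a)) := by
      refine (hZneg (ε₁ / 2) (by positivity)).trans (le_of_eq ?_)
      congr 1
      linarith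
    have h2 : ((N : ℝ) ^ (-a)) ^ 2 = (N : ℝ) ^ (-(2 * a)) := by
      rw [← Real.rpow_natCast, ← Real.rpow_mul hN0.le]
      congr 1
      push_cast
      ring
    rw [h2] at hb3'
    have h3 : (N : ℝ) ^ a * (N : ℝ) ^ (-(4 * a)) = (N : ℝ) ^ (-a) * (N : ℝ) ^ (-(2 * a)) := by
      rw [← Real.rpow_add hN0, ← Real.rpow_add hN0]
      ring_nf
    have h4 : (Q3.card : ℝ) * (N : ℝ) ^ (-(2 * a)) ≤ (c3 * sz N * (N : ℝ) ^ (-a)) * (N : ℝ) ^ (-(2 * a)) := by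
      refine hb3'.trans ?_
      calc c3 * sz N * (N : ℝ) ^ a * (Z : ℝ) ^ (-(ε₁ / 2)) ≤ c3 * sz N * (N : ℝ) ^ a * (N : ℝ) ^ (-(4 * a)) :=
            mul_le_mul_of_nonneg_left h1 (by positivity)
        _ = c3 * sz N * ((N : ℝ) ^ a * (N : ℝ) ^ (-(4 * a))) := by ring
        _ = _ := by
            rw [h3]
            ring
    exact le_of_mul_le_mul_right h4 (by positivity)
  -- every member is in one of the sets
  have hcov : (Finset.univ : Finset (Fin k)) ⊆ Q1 ∪ (Q2 ∪ Q3) := by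
    intro i _
    by_contra hi
    rw [Finset.mem_union, Finset.mem_union, not_or, not_or] at hi
    obtain ⟨hi1, hi2, hi3⟩ := hi
    have g1 : ∀ t : ℝ, ‖(D i).L (1 / 2 + t * Complex.I)‖ ≤ (N : ℝ) ^ e * (1 + |t|) ^ K₀ := by
      intro t
      by_contra hc
      exact hi1 (Finset.mem_filter.2 ⟨Finset.mem_univ _, t, not_le.1 hc⟩)
    have g2 : ∫ v : ℝ, (1 + v ^ 2)⁻¹ * ‖(D i).Mo N Z (1 / 2 + v * Complex.I)‖ ^ 2 ≤ ((N : ℝ) ^ e) ^ 2 := by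
      have e1 : ((N : ℝ) ^ e) ^ 2 = (N : ℝ) ^ (2 * e) := by
        rw [← Real.rpow_natCast, ← Real.rpow_mul hN0.le]
        congr 1
        push_cast
        ring
      rw [e1]
      by_contra hc
      exact hi2 (Finset.mem_filter.2 ⟨Finset.mem_univ _, not_le.1 hc⟩)
    have g3 : ∫ v : ℝ, (1 + v ^ 2)⁻¹ *
        ‖(D i).PP N Z Z (((1 / 2 + ε₁ / 2 : ℝ) : ℂ) + v * Complex.I)‖ ^ 2 ≤ ((N : ℝ) ^ (-a)) ^ 2 := by
      by_contra hc
      exact hi3 (Finset.mem_filter.2 ⟨Finset.mem_univ _, not_le.1 hc⟩)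
    rcases hbad i with ⟨t, ht⟩ | ⟨s, hs0', hs1, hs2, hs3⟩
    · have h1 := g1 t
      have h2 : (N : ℝ) ^ e * (1 + |t|) ^ K₀ ≤ (N : ℝ) ^ ε * (1 + |t|) ^ K₀ :=
        mul_le_mul_of_nonneg_right (Real.rpow_le_rpow_of_exponent_le hN1 heε) (by positivity)
      linarith
    · have h1 := hdet (D i) (hDD i).1 N Z Z ((N : ℝ) ^ e) ((N : ℝ) ^ (-a)) hNpos hZ2 le_rfl hG1 (by positivity)
        g1 g2 g3 s hs0' (by linarith) hs2
      have h2 : (1 + |s.im|) ^ K ≤ 2 ^ K * (N : ℝ) ^ (a / 2) := by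
        have h5 : 1 + |s.im| ≤ 2 * (N : ℝ) ^ δ₁ := by
          have := Real.one_le_rpow hN1 hδ0.le
          linarith
        calc (1 + |s.im|) ^ K ≤ (2 * (N : ℝ) ^ δ₁) ^ K := pow_le_pow_left₀ (by positivity) h5 K
          _ = 2 ^ K * (N : ℝ) ^ (δ₁ * K) := by
              rw [mul_pow, ← Real.rpow_natCast ((N : ℝ) ^ δ₁) K, ← Real.rpow_mul hN0.le]
          _ ≤ 2 ^ K * (N : ℝ) ^ (a / 2) :=
              mul_le_mul_of_nonneg_left (Real.rpow_le_rpow_of_exponent_le hN1 hδK) (by positivity)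
      have h3 : (N : ℝ) ^ e * (Z : ℝ) ^ (-ε₁) * ((N : ℝ) ^ e) ^ 2 ≤ (N : ℝ) ^ (-a) := by
        have e1 : (Z : ℝ) ^ (-ε₁) ≤ (N : ℝ) ^ (-(8 * a)) := by
          refine (hZneg ε₁ hε₁0.le).trans (le_of_eq ?_)
          congr 1
          linarith
        calc (N : ℝ) ^ e * (Z : ℝ) ^ (-ε₁) * ((N : ℝ) ^ e) ^ 2
            ≤ (N : ℝ) ^ e * (N : ℝ) ^ (-(8 * a)) * ((N : ℝ) ^ e) ^ 2 := by gcongr
          _ = (N : ℝ) ^ (e + -(8 * a) + e + e) := by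
              rw [Real.rpow_add hN0, Real.rpow_add hN0, Real.rpow_add hN0]
              ring
          _ ≤ (N : ℝ) ^ (-a) := Real.rpow_le_rpow_of_exponent_le hN1 (by linarith)
      have h4 : (Z : ℝ) ^ (-(1 / 2) : ℝ) ≤ (N : ℝ) ^ (-a) := by
        refine (hZneg (1 / 2) (by norm_num)).trans (Real.rpow_le_rpow_of_exponent_le hN1 ?_)
        nlinarith
      have h5 : (N : ℝ) ^ e * (Z : ℝ) ^ (-ε₁) * ((N : ℝ) ^ e) ^ 2 + (N : ℝ) ^ (-a) + (Z : ℝ) ^ (-(1 / 2) : ℝ) ≤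
          3 * (N : ℝ) ^ (-a) := by linarith
      have h6 : (1 : ℝ) ≤ Cd * (2 ^ K * (N : ℝ) ^ (a / 2)) * (3 * (N : ℝ) ^ (-a)) := by
        refine h1.trans (mul_le_mul (mul_le_mul_of_nonneg_left h2 (by linarith)) h5 (by positivity) (by positivity))
      have h7 : (N : ℝ) ^ (a / 2) * (N : ℝ) ^ (-a) = ((N : ℝ) ^ (a / 2))⁻¹ := by
        rw [← Real.rpow_add hN0, ← Real.rpow_neg hN0.le]
        ring_nf
      have h8 : (N : ℝ) ^ (a / 2) ≤ 3 * (Cd * 2 ^ K) := by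
        have h9 : (0 : ℝ) < (N : ℝ) ^ (a / 2) := by positivity
        have h10 : (1 : ℝ) ≤ 3 * (Cd * 2 ^ K) * ((N : ℝ) ^ (a / 2))⁻¹ := by
          rw [← h7]
          refine h6.trans (le_of_eq ?_)
          ring
        rwa [← div_eq_mul_inv, le_div_iff₀ h9, one_mul] at h10
      have h11 : 4 * (Cd * 2 ^ K) ≤ (N : ℝ) ^ (a / 2) := by
        have h12 : A' ≤ (N : ℝ) := (le_max_right _ _).trans hNA
        calc 4 * (Cd * 2 ^ K) = A' ^ (a / 2) := by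
              rw [hA', ← Real.rpow_mul (by positivity)]
              have : 2 / a * (a / 2) = 1 := by field_simp
              rw [this, Real.rpow_one]
          _ ≤ (N : ℝ) ^ (a / 2) := Real.rpow_le_rpow (by positivity) h12 (by positivity)
      have h12 : 0 < Cd * 2 ^ K := by positivity
      linarith
  have hcard : (k : ℝ) ≤ Q1.card + (Q2.card + Q3.card) := by
    have h1 := Finset.card_le_card hcov
    rw [Finset.card_univ, Fintype.card_fin] at h1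
    have h2 := (h1.trans (Finset.card_union_le _ _)).trans (Nat.add_le_add_left (Finset.card_union_le _ _) _)
    exact_mod_cast h2
  have hexp : ∀ b : ℝ, δ₁ ≤ b → (N : ℝ) ^ (-b) ≤ (N : ℝ) ^ (-δ₁) := fun b hb =>
    Real.rpow_le_rpow_of_exponent_le hN1 (by linarith)
  calc (k : ℝ) ≤ Q1.card + (Q2.card + Q3.card) := hcard
    _ ≤ c1 * sz N * (N : ℝ) ^ (-e) + (c2 * sz N * (N : ℝ) ^ (-e) + c3 * sz N * (N : ℝ) ^ (-a)) := by gcongr
    _ ≤ c1 * sz N * (N : ℝ) ^ (-δ₁) + (c2 * sz N * (N : ℝ) ^ (-δ₁) + c3 * sz N * (N : ℝ) ^ (-δ₁)) := by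
        have hh1 := hexp e hδe
        have hh2 := hexp a (hδe.trans hea)
        gcongr
    _ = _ := by ring

theorem t_FIN (hQ1 : S_qu1) (hQ2 : S_qu2) (hQ3 : S_qu3) (hdet : S_det) (hhic : S_hih) (htrk : S_trh) : S_fin := by
  classical
  intro n hn H dd sz hdd hsz hH hB hT U hU T ε hε
  obtain ⟨χ, hχ1, hχ2, hχ3, hχ4, hχ5⟩ := exists_bump n hU
  obtain ⟨η₀, hη₀, h1⟩ := hhic n hn
  obtain ⟨η₁, δ₁, K, hη₁, hδ₁, h2⟩ := one_twist hQ1 hQ2 hQ3 hdet n (by omega) H dd sz hdd hsz hB hT χ hχ1 hχ2 T ε hε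
  set η := min η₀ η₁ with hη
  have hη0 : 0 < η := lt_min hη₀ hη₁
  obtain ⟨C₁, hC₁, h3⟩ := h1 U χ hχ1 hχ2 hχ3 hχ4 hχ5 η hη0 (min_le_left _ _)
  obtain ⟨C₂, N₀, hC₂, h4⟩ := h2 η C₁ hη0 (min_le_right _ _) hC₁
  obtain ⟨C₃, hC₃, h5⟩ := htrk n hn U hU
  set δ := min (δ₁ / 2) (η / 2) with hδ
  have hδ0 : 0 < δ := lt_min (by positivity) (by positivity)
  have hδδ : δ ≤ δ₁ / 2 := min_le_left _ _
  set M : ℝ := max 1 (N₀ : ℝ) with hM
  have hM1 : 1 ≤ M := le_max_left _ _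
  have hlM := Real.log_nonneg hM1
  refine ⟨δ, C₁ + C₂ + C₃ * (1 + Real.log M) ^ n * M ^ δ, K, hδ0, by positivity, ?_⟩
  intro N _ F hF k f l hf hon heig Ξ hΞ hξ hL
  obtain ⟨hi1, hi2, hi3⟩ := hH N
  have hN1 : (1 : ℝ) ≤ N := by exact_mod_cast NeZero.one_le
  have hN0 : (0 : ℝ) < N := by linarith
  have hs0 : 0 ≤ sz N := hsz N
  have hNn : 0 ≤ sz N * (N : ℝ) ^ (-δ) := by positivity
  by_cases hNN : N₀ ≤ N
  · obtain ⟨I, hI, hI'⟩ := h3 N (H N) F hi2 hi3 hF k f hf hon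
    choose ξ hξΞ D hok hq hμ hlam hbad using hL
    -- the part of a twist
    have hpart : ∀ ξ' ∈ Ξ, (((Finset.univ.filter fun i => i ∉ I).filter fun i => ξ i = ξ').card : ℝ) ≤
        C₂ * sz N * (N : ℝ) ^ (-δ₁) := by
      intro ξ' hξ'
      set S : Finset (Fin k) := (Finset.univ.filter fun i => i ∉ I).filter fun i => ξ i = ξ' with hS
      have hmem : ∀ j, S.orderEmbOfFin rfl j ∈ S := fun j => Finset.orderEmbOfFin_mem S rfl j
      have hξj : ∀ j, ξ (S.orderEmbOfFin rfl j) = ξ' := fun j => (Finset.mem_filter.1 (hmem j)).2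
      have hIj : ∀ j, S.orderEmbOfFin rfl j ∉ I := fun j =>
        (Finset.mem_filter.1 (Finset.mem_filter.1 (hmem j)).1).2
      refine h4 N F hNN hF S.card (fun j => f (S.orderEmbOfFin rfl j)) (fun j => l (S.orderEmbOfFin rfl j)) ξ'
        (fun j => D (S.orderEmbOfFin rfl j)) ⟨fun j => (hf _).1, fun j => (hf _).2.1, fun i j => ?_⟩
        (fun j => heig _) (hξ ξ' hξ') (fun j m hm hmN => ?_) (fun j => ⟨hok _, ?_, hμ _⟩) (fun j => hI' _ (hIj j))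
        (fun j => ?_)
      · rw [hon]
        simp only [EmbeddingLike.apply_eq_iff_eq]
      · rw [hlam _ m hm hmN, hξj j]
      · refine (hq _).trans ?_
        have hT0 : 0 ≤ T * (N : ℝ) ^ dd := by
          have h1 := (hok (S.orderEmbOfFin rfl j)).one_le
          have h2 := hq (S.orderEmbOfFin rfl j)
          by_contra hneg
          have h3 : T * (N : ℝ) ^ dd * (N : ℝ) ^ δ ≤ 0 :=
            mul_nonpos_of_nonpos_of_nonneg (not_le.1 hneg).le (by positivity)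
          linarith
        exact mul_le_mul_of_nonneg_left (Real.rpow_le_rpow_of_exponent_le hN1 (by linarith)) hT0
      · rcases hbad (S.orderEmbOfFin rfl j) with h | ⟨s, h1, h2, h3, h4⟩
        · exact Or.inl h
        · exact Or.inr ⟨s, h1, h2, h3, h4.trans (Real.rpow_le_rpow_of_exponent_le hN1 (by linarith))⟩
    have hsum : (((Finset.univ.filter fun i => i ∉ I).card : ℕ) : ℝ) ≤ C₂ * sz N * (N : ℝ) ^ (-δ) := by
      have e1 : (Finset.univ.filter fun i => i ∉ I).card =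
          ∑ ξ' ∈ Ξ, ((Finset.univ.filter fun i => i ∉ I).filter fun i => ξ i = ξ').card :=
        Finset.card_eq_sum_card_fiberwise fun i _ => hξΞ i
      rw [e1]
      push_cast
      calc ∑ ξ' ∈ Ξ, (((Finset.univ.filter fun i => i ∉ I).filter fun i => ξ i = ξ').card : ℝ)
          ≤ ∑ ξ' ∈ Ξ, C₂ * sz N * (N : ℝ) ^ (-δ₁) := Finset.sum_le_sum hpart
        _ = (Ξ.card : ℝ) * (C₂ * sz N * (N : ℝ) ^ (-δ₁)) := by rw [Finset.sum_const, nsmul_eq_mul]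
        _ ≤ (N : ℝ) ^ δ * (C₂ * sz N * (N : ℝ) ^ (-δ₁)) := mul_le_mul_of_nonneg_right hΞ (by positivity)
        _ = C₂ * sz N * ((N : ℝ) ^ δ * (N : ℝ) ^ (-δ₁)) := by ring
        _ ≤ C₂ * sz N * (N : ℝ) ^ (-δ) := by
            refine mul_le_mul_of_nonneg_left ?_ (by positivity)
            rw [← Real.rpow_add hN0]
            exact Real.rpow_le_rpow_of_exponent_le hN1 (by linarith)
    have h7 : (k : ℝ) = (I.card : ℝ) + ((Finset.univ.filter fun i => i ∉ I).card : ℝ) := by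
      have e1 : (Finset.univ.filter fun i => i ∉ I) = Iᶜ := by
        ext i
        simp
      rw [e1]
      have := Finset.card_add_card_compl I
      rw [Fintype.card_fin] at this
      exact_mod_cast this.symm
    have h8 : (N : ℝ) ^ (-(η / 2)) ≤ (N : ℝ) ^ (-δ) :=
      Real.rpow_le_rpow_of_exponent_le hN1 (by linarith [min_le_right (δ₁ / 2) (η / 2)])
    have h10 : 0 ≤ C₃ * (1 + Real.log M) ^ n * M ^ δ := by positivity
    have h11 : C₁ * (H N).index * (N : ℝ) ^ (-(η / 2)) ≤ C₁ * (sz N * (N : ℝ) ^ (-δ)) := by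
      rw [mul_assoc]
      exact mul_le_mul_of_nonneg_left (mul_le_mul hi1 h8 (by positivity) (by positivity)) (by linarith)
    calc (k : ℝ) = (I.card : ℝ) + ((Finset.univ.filter fun i => i ∉ I).card : ℝ) := h7
      _ ≤ C₁ * (H N).index * (N : ℝ) ^ (-(η / 2)) + C₂ * sz N * (N : ℝ) ^ (-δ) := add_le_add hI hsum
      _ ≤ C₁ * (sz N * (N : ℝ) ^ (-δ)) + C₂ * sz N * (N : ℝ) ^ (-δ) := add_le_add h11 le_rfl
      _ = (C₁ + C₂) * (sz N * (N : ℝ) ^ (-δ)) := by ring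
      _ ≤ (C₁ + C₂ + C₃ * (1 + Real.log M) ^ n * M ^ δ) * (sz N * (N : ℝ) ^ (-δ)) :=
          mul_le_mul_of_nonneg_right (by linarith) hNn
      _ = _ := by ring
  · have h6 := h5 N (H N) F hi3 hF k f hf hon
    have hNM : (N : ℝ) ≤ M := by
      refine le_trans ?_ (le_max_right _ _)
      exact_mod_cast (not_le.1 hNN).le
    have hlN := Real.log_nonneg hN1
    have h7 : (1 + Real.log N) ^ n ≤ (1 + Real.log M) ^ n * M ^ δ * (N : ℝ) ^ (-δ) := by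
      have e1 : 1 ≤ M ^ δ * (N : ℝ) ^ (-δ) := by
        rw [Real.rpow_neg hN0.le, ← div_eq_mul_inv, one_le_div (by positivity)]
        exact Real.rpow_le_rpow hN0.le hNM hδ0.le
      have e2 : (1 + Real.log N) ^ n ≤ (1 + Real.log M) ^ n :=
        pow_le_pow_left₀ (by linarith) (by linarith [Real.log_le_log hN0 hNM]) n
      have e3 : 0 ≤ (1 + Real.log M) ^ n := by positivity
      calc (1 + Real.log N) ^ n ≤ (1 + Real.log M) ^ n * 1 := by rw [mul_one]; exact e2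
        _ ≤ (1 + Real.log M) ^ n * (M ^ δ * (N : ℝ) ^ (-δ)) := mul_le_mul_of_nonneg_left e1 e3
        _ = _ := by ring
    calc (k : ℝ) ≤ C₃ * (H N).index * (1 + Real.log N) ^ n := h6
      _ ≤ C₃ * sz N * ((1 + Real.log M) ^ n * M ^ δ * (N : ℝ) ^ (-δ)) :=
          mul_le_mul (mul_le_mul_of_nonneg_left hi1 (by linarith)) h7 (by positivity) (by positivity)
      _ = (C₃ * (1 + Real.log M) ^ n * M ^ δ) * (sz N * (N : ℝ) ^ (-δ)) := by ring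
      _ ≤ (C₁ + C₂ + C₃ * (1 + Real.log M) ^ n * M ^ δ) * (sz N * (N : ℝ) ^ (-δ)) :=
          mul_le_mul_of_nonneg_right (by linarith) hNn
      _ = _ := by ring

end Pool.Agent.T2h79.LG.FIN
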