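import Pool.Agent.T2h79.LG.LvA
import Pool.Agent.T2h79.LG.T_FIN

/-!
# Project LG: the zero density theorem, one twist
-/

set_option autoImplicit false

open MeasureTheory Matrix
open scoped MatrixGroups ENNReal Topology

noncomputable section

namespace Pool.Agent.T2h79.LG.ZD

open Pool.Agent.T2h77.N Pool.Agent.T2h79.LG.FIN

/-- the zero density theorem for one twist -/
theorem zero_twist (hA : S_afe) (hF : S_fac) (hD : S_dya) (hQ2 : S_qu2) (hQ3 : S_qu3) (hdet : S_det) (n : ℕ)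
    (hn : 1 ≤ n) (H : (N : ℕ) → Subgroup (GN n N)) (dd : ℕ) (sz : ℕ → ℝ) (hdd : 1 ≤ dd) (hsz : ∀ N, 0 ≤ sz N)
    (hB : BLS n H dd sz) (hT : TP n H sz) (χ : GR n → ℝ) (hχ : Continuous χ) (hχc : HasCompactSupport χ)
    (κ' : ℝ) (hκ' : 0 < κ') (hκ'1 : κ' ≤ 1) :
    ∃ η₁ c : ℝ, 0 < η₁ ∧ 0 < c ∧ ∀ T ε : ℝ, 0 < ε → ε ≤ 1 / 2 → ∃ δ₁ : ℝ, 0 < δ₁ ∧
    ∀ η C₁ : ℝ, 0 < η → η ≤ η₁ → 1 ≤ C₁ → ∃ (C : ℝ) (N₀ : ℕ), 1 ≤ C ∧
    ∀ (N : ℕ) [NeZero N] (F : Set (GR n)), N₀ ≤ N → IsFD F →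
    ∀ (k : ℕ) (f : Fin k → GR n → XX (H N) → ℂ) (l : Fin k → ℕ → ℂ) (ξ : ℕ → ℂ) (D : Fin k → LData n), Fam F f →
      (∀ i, IsEig (l i) (f i)) → (∀ m, ‖ξ m‖ ≤ 1) →
      (∀ i, ∀ m : ℕ, 0 < m → m.Coprime N → (D i).lam m = ξ m * l i m) →
      (∀ i, (D i).Ok ∧ (D i).q ≤ T * (N : ℝ) ^ (2 * (dd : ℝ) - κ') ∧ ∀ j, ‖(D i).μ j‖ ≤ T) →
      (∀ i, ENNReal.ofReal (1 / 8) ≤
        ∫⁻ g in F ∩ sat (SL n (C₁ * (N : ℝ) ^ η)), sq (Rc χ (f i)) g ∂(mu n)) →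
      (∀ i, ∃ s : ℂ, (D i).L s = 0 ∧ 1 / 2 + ε ≤ s.re ∧ s.re ≤ 3 / 2 ∧ |s.im| ≤ (N : ℝ) ^ δ₁) →
      (k : ℝ) ≤ C * sz N * (N : ℝ) ^ (-(c * ε)) := by
  classical
  have hn' : (1 : ℝ) ≤ n := by exact_mod_cast hn
  have hn2 : (0 : ℝ) < (n : ℝ) ^ 2 := by positivity
  obtain ⟨κ₂, η₂, hκ₂, hη₂, hQ2⟩ := hQ2 n hn H sz hsz hT χ hχ hχc
  obtain ⟨κ₃, η₃, hκ₃, hη₃, hQ3⟩ := hQ3 n hn H sz hsz hT χ hχ hχc
  set κ : ℝ := min κ₂ κ₃ with hκ
  have hκ0 : 0 < κ := lt_min hκ₂ hκ₃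
  refine ⟨min (κ' / 8 / (n : ℝ) ^ 2) (min η₂ η₃), min 1 (κ / 32), lt_min (by positivity) (lt_min hη₂ hη₃),
    lt_min one_pos (by positivity), fun T ε hε hε2 => ?_⟩
  set a : ℝ := κ * ε / 32 with ha
  have ha0 : 0 < a := by positivity
  have ha32 : κ * ε = 32 * a := by
    rw [ha]
    ring
  set e : ℝ := min ε a with he
  have he0 : 0 < e := lt_min hε ha0
  have heε : e ≤ ε := min_le_left _ _
  have hea : e ≤ a := min_le_right _ _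
  have hce : min 1 (κ / 32) * ε ≤ e := by
    refine le_min ?_ ?_
    · exact mul_le_of_le_one_left hε.le (min_le_left _ _)
    · calc min 1 (κ / 32) * ε ≤ κ / 32 * ε := mul_le_mul_of_nonneg_right (min_le_right _ _) hε.le
        _ = a := by
            rw [ha]
            ring
  obtain ⟨K₀, CA, hCA, hQ1⟩ := LV.one_twist hA hF hD n hn H dd sz hdd hsz hB χ hχ hχc T κ' e hκ' hκ'1 he0
  obtain ⟨Cd, K, hCd, hdet⟩ := hdet n ε e K₀ hε hε2 he0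
  set δ₁ : ℝ := a / (2 * (K + 1)) with hδ₁
  have hδ0 : 0 < δ₁ := by positivity
  have hδK : δ₁ * K ≤ a / 2 := by
    calc δ₁ * K ≤ a / (2 * (K + 1)) * (K + 1) := by
          have : (K : ℝ) ≤ K + 1 := by linarith
          exact mul_le_mul le_rfl this (by positivity) (by positivity)
      _ = a / 2 := by
          field_simp
  refine ⟨δ₁, hδ0, fun η C₁ hη hηη hC₁ => ?_⟩
  have hηκ : η * (n : ℝ) ^ 2 ≤ κ' / 8 := by
    have : η ≤ κ' / 8 / (n : ℝ) ^ 2 := hηη.trans (min_le_left _ _)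
    rwa [le_div_iff₀ hn2] at this
  obtain ⟨c1, N1, hc1, hQ1⟩ := hQ1 η C₁ hη hηκ hC₁
  obtain ⟨c2, N2, hc2, hQ2⟩ := hQ2 e η C₁ he0 hη (hηη.trans ((min_le_right _ _).trans (min_le_left _ _))) hC₁
  obtain ⟨c3, N3, hc3, hQ3⟩ := hQ3 ε a η C₁ hε ha0 hη
    (hηη.trans ((min_le_right _ _).trans (min_le_right _ _))) hC₁
  obtain ⟨A, hA, hZ⟩ := exists_Z hκ0
  set A' : ℝ := (4 * (Cd * 2 ^ K)) ^ (2 / a) with hA'
  set A'' : ℝ := (2 * CA) ^ (1 / (2 * e)) with hA''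
  refine ⟨c1 + c2 + c3, max (max N1 (max N2 N3)) ⌈max (max A A') A''⌉₊, by linarith, ?_⟩
  intro N _ F hNN hF k f l ξ D hfam heig hξ hlam hDD hmass hbad
  have hN1 : (1 : ℝ) ≤ N := by exact_mod_cast NeZero.one_le
  have hN0 : (0 : ℝ) < N := by linarith
  have hNpos : 0 < N := by exact_mod_cast hN0
  have hNA0 : max (max A A') A'' ≤ (N : ℝ) := by
    have h1 : ⌈max (max A A') A''⌉₊ ≤ N := (le_max_right _ _).trans hNN
    exact (Nat.le_ceil _).trans (by exact_mod_cast h1)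
  have hNA : max A A' ≤ (N : ℝ) := (le_max_left _ _).trans hNA0
  have hNA2 : 2 * CA ≤ (N : ℝ) ^ (2 * e) := by
    have h1 : A'' ≤ (N : ℝ) := (le_max_right _ _).trans hNA0
    calc 2 * CA = A'' ^ (2 * e) := by
          rw [hA'', ← Real.rpow_mul (by positivity)]
          have : 1 / (2 * e) * (2 * e) = 1 := by field_simp
          rw [this, Real.rpow_one]
      _ ≤ (N : ℝ) ^ (2 * e) := Real.rpow_le_rpow (by positivity) h1 (by positivity)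
  have hNN1 : N1 ≤ N := ((le_max_left _ _).trans (le_max_left _ _)).trans hNN
  have hNN2 : N2 ≤ N := ((le_max_left _ _).trans ((le_max_right _ _).trans (le_max_left _ _))).trans hNN
  have hNN3 : N3 ≤ N := ((le_max_right _ _).trans ((le_max_right _ _).trans (le_max_left _ _))).trans hNN
  obtain ⟨Z, hZ2, hZl, hZu⟩ := hZ N ((le_max_left _ _).trans hNA)
  have hs0 : 0 ≤ sz N := hsz N
  have hG1 : 1 ≤ (N : ℝ) ^ e := Real.one_le_rpow hN1 he0.le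
  -- the three exceptional sets
  set Q1 : Finset (Fin k) := Finset.univ.filter fun i =>
    ∃ t : ℝ, (N : ℝ) ^ e * (1 + |t|) ^ K₀ < ‖(D i).L (1 / 2 + t * Complex.I)‖ with hQ1d
  set Q2 : Finset (Fin k) := Finset.univ.filter fun i =>
    (N : ℝ) ^ (2 * e) < ∫ v : ℝ, (1 + v ^ 2)⁻¹ * ‖(D i).Mo N Z (1 / 2 + v * Complex.I)‖ ^ 2 with hQ2d
  set Q3 : Finset (Fin k) := Finset.univ.filter fun i =>
    ((N : ℝ) ^ (-a)) ^ 2 < ∫ v : ℝ, (1 + v ^ 2)⁻¹ *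
        ‖(D i).PP N Z Z (((1 / 2 + ε / 2 : ℝ) : ℂ) + v * Complex.I)‖ ^ 2 with hQ3d
  have hb1 : (Q1.card : ℝ) ≤ c1 * sz N * (N : ℝ) ^ (-e) := by
    have h1 := hQ1 N F hNN1 hF k f l ξ D hfam heig hξ hlam hDD hmass e he0.le hNA2 Q1
      (fun i hi => (Finset.mem_filter.1 hi).2)
    have h2 : e - 2 * e = -e := by ring
    rwa [h2] at h1
  have hZκ : (Z : ℝ) ≤ (N : ℝ) ^ κ₂ := hZu.trans
    (Real.rpow_le_rpow_of_exponent_le hN1 (by linarith [min_le_left κ₂ κ₃]))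
  have hZκ3 : (Z : ℝ) ^ 2 ≤ (N : ℝ) ^ κ₃ := by
    calc (Z : ℝ) ^ 2 ≤ ((N : ℝ) ^ (κ / 2)) ^ 2 := pow_le_pow_left₀ (by positivity) hZu 2
      _ = (N : ℝ) ^ κ := by
          rw [← Real.rpow_natCast, ← Real.rpow_mul hN0.le]
          congr 1
          push_cast
          ring
      _ ≤ (N : ℝ) ^ κ₃ := Real.rpow_le_rpow_of_exponent_le hN1 (min_le_right κ₂ κ₃)
  have hb2 : (Q2.card : ℝ) ≤ c2 * sz N * (N : ℝ) ^ (-e) :=
    hQ2 N F hNN2 hF k f l ξ D hfam heig hξ hlam hmass Z Q2 hZκ (fun i hi => (Finset.mem_filter.1 hi).2)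
  have hb3' : (Q3.card : ℝ) * ((N : ℝ) ^ (-a)) ^ 2 ≤ c3 * sz N * (N : ℝ) ^ a * (Z : ℝ) ^ (-(ε / 2)) :=
    hQ3 N F hNN3 hF k f l ξ D hfam heig hξ hlam hmass Z Z ((N : ℝ) ^ (-a)) Q3 hZ2 le_rfl hZκ3 (by positivity)
      (fun i hi => (Finset.mem_filter.1 hi).2)
  have hZ0 : (0 : ℝ) < Z := by
    have : 0 < Z := by omega
    exact_mod_cast this
  have hZneg : ∀ b : ℝ, 0 ≤ b → (Z : ℝ) ^ (-b) ≤ (N : ℝ) ^ (-(κ / 4 * b)) := by
    intro b hb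
    calc (Z : ℝ) ^ (-b) ≤ ((N : ℝ) ^ (κ / 4)) ^ (-b) :=
          Real.rpow_le_rpow_of_nonpos (by positivity) hZl (by linarith)
      _ = (N : ℝ) ^ (-(κ / 4 * b)) := by
          rw [← Real.rpow_mul hN0.le]
          ring_nf
  have hb3 : (Q3.card : ℝ) ≤ c3 * sz N * (N : ℝ) ^ (-a) := by
    have h1 : (Z : ℝ) ^ (-(ε / 2)) ≤ (N : ℝ) ^ (-(4 * a)) := by
      refine (hZneg (ε / 2) (by positivity)).trans (le_of_eq ?_)
      congr 1
      linarith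
    have h2 : ((N : ℝ) ^ (-a)) ^ 2 = (N : ℝ) ^ (-(2 * a)) := by
      rw [← Real.rpow_natCast, ← Real.rpow_mul hN0.le]
      congr 1
      push_cast
      ring
    rw [h2] at hb3'
    have h3 : (N : ℝ) ^ a * (N : ℝ) ^ (-(4 * a)) = (N : ℝ) ^ (-a) * (N : ℝ) ^ (-(2 * a)) := by
      rw [← Real.rpow_add hN0, ← Real.rpow_add hN0]
      ring_nf
    have h4 : (Q3.card : ℝ) * (N : ℝ) ^ (-(2 * a)) ≤ (c3 * sz N * (N : ℝ) ^ (-a)) * (N : ℝ) ^ (-(2 * a)) := by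
      refine hb3'.trans ?_
      calc c3 * sz N * (N : ℝ) ^ a * (Z : ℝ) ^ (-(ε / 2)) ≤ c3 * sz N * (N : ℝ) ^ a * (N : ℝ) ^ (-(4 * a)) :=
            mul_le_mul_of_nonneg_left h1 (by positivity)
        _ = c3 * sz N * ((N : ℝ) ^ a * (N : ℝ) ^ (-(4 * a))) := by ring
        _ = _ := by
            rw [h3]
            ring
    exact le_of_mul_le_mul_right h4 (by positivity)
  -- every member is in one of the sets
  have hcov : (Finset.univ : Finset (Fin k)) ⊆ Q1 ∪ (Q2 ∪ Q3) := by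
    intro i _
    by_contra hi
    rw [Finset.mem_union, Finset.mem_union, not_or, not_or] at hi
    obtain ⟨hi1, hi2, hi3⟩ := hi
    have g1 : ∀ t : ℝ, ‖(D i).L (1 / 2 + t * Complex.I)‖ ≤ (N : ℝ) ^ e * (1 + |t|) ^ K₀ := by
      intro t
      by_contra hc
      exact hi1 (Finset.mem_filter.2 ⟨Finset.mem_univ _, t, not_le.1 hc⟩)
    have g2 : ∫ v : ℝ, (1 + v ^ 2)⁻¹ * ‖(D i).Mo N Z (1 / 2 + v * Complex.I)‖ ^ 2 ≤ ((N : ℝ) ^ e) ^ 2 := by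
      have e1 : ((N : ℝ) ^ e) ^ 2 = (N : ℝ) ^ (2 * e) := by
        rw [← Real.rpow_natCast, ← Real.rpow_mul hN0.le]
        congr 1
        push_cast
        ring
      rw [e1]
      by_contra hc
      exact hi2 (Finset.mem_filter.2 ⟨Finset.mem_univ _, not_le.1 hc⟩)
    have g3 : ∫ v : ℝ, (1 + v ^ 2)⁻¹ *
        ‖(D i).PP N Z Z (((1 / 2 + ε / 2 : ℝ) : ℂ) + v * Complex.I)‖ ^ 2 ≤ ((N : ℝ) ^ (-a)) ^ 2 := by
      by_contra hc
      exact hi3 (Finset.mem_filter.2 ⟨Finset.mem_univ _, not_le.1 hc⟩)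
    obtain ⟨s, hs0', hs1, hs2, hs3⟩ := hbad i
    have h1 := hdet (D i) (hDD i).1 N Z Z ((N : ℝ) ^ e) ((N : ℝ) ^ (-a)) hNpos hZ2 le_rfl hG1 (by positivity)
      g1 g2 g3 s hs0' hs1 hs2
    have h2 : (1 + |s.im|) ^ K ≤ 2 ^ K * (N : ℝ) ^ (a / 2) := by
      have h5 : 1 + |s.im| ≤ 2 * (N : ℝ) ^ δ₁ := by
        have := Real.one_le_rpow hN1 hδ0.le
        linarith
      calc (1 + |s.im|) ^ K ≤ (2 * (N : ℝ) ^ δ₁) ^ K := pow_le_pow_left₀ (by positivity) h5 K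
        _ = 2 ^ K * (N : ℝ) ^ (δ₁ * K) := by
            rw [mul_pow, ← Real.rpow_natCast ((N : ℝ) ^ δ₁) K, ← Real.rpow_mul hN0.le]
        _ ≤ 2 ^ K * (N : ℝ) ^ (a / 2) :=
            mul_le_mul_of_nonneg_left (Real.rpow_le_rpow_of_exponent_le hN1 hδK) (by positivity)
    have h3 : (N : ℝ) ^ e * (Z : ℝ) ^ (-ε) * ((N : ℝ) ^ e) ^ 2 ≤ (N : ℝ) ^ (-a) := by
      have e1 : (Z : ℝ) ^ (-ε) ≤ (N : ℝ) ^ (-(8 * a)) := by
        refine (hZneg ε hε.le).trans (le_of_eq ?_)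
        congr 1
        linarith
      calc (N : ℝ) ^ e * (Z : ℝ) ^ (-ε) * ((N : ℝ) ^ e) ^ 2
          ≤ (N : ℝ) ^ e * (N : ℝ) ^ (-(8 * a)) * ((N : ℝ) ^ e) ^ 2 := by gcongr
        _ = (N : ℝ) ^ (e + -(8 * a) + e + e) := by
            rw [Real.rpow_add hN0, Real.rpow_add hN0, Real.rpow_add hN0]
            ring
        _ ≤ (N : ℝ) ^ (-a) := Real.rpow_le_rpow_of_exponent_le hN1 (by linarith)
    have h4 : (Z : ℝ) ^ (-(1 / 2) : ℝ) ≤ (N : ℝ) ^ (-a) := by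
      refine (hZneg (1 / 2) (by norm_num)).trans (Real.rpow_le_rpow_of_exponent_le hN1 ?_)
      nlinarith
    have h5 : (N : ℝ) ^ e * (Z : ℝ) ^ (-ε) * ((N : ℝ) ^ e) ^ 2 + (N : ℝ) ^ (-a) + (Z : ℝ) ^ (-(1 / 2) : ℝ) ≤
        3 * (N : ℝ) ^ (-a) := by linarith
    have h6 : (1 : ℝ) ≤ Cd * (2 ^ K * (N : ℝ) ^ (a / 2)) * (3 * (N : ℝ) ^ (-a)) := by
      refine h1.trans (mul_le_mul (mul_le_mul_of_nonneg_left h2 (by linarith)) h5 (by positivity) (by positivity))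
    have h7 : (N : ℝ) ^ (a / 2) * (N : ℝ) ^ (-a) = ((N : ℝ) ^ (a / 2))⁻¹ := by
      rw [← Real.rpow_add hN0, ← Real.rpow_neg hN0.le]
      ring_nf
    have h8 : (N : ℝ) ^ (a / 2) ≤ 3 * (Cd * 2 ^ K) := by
      have h9 : (0 : ℝ) < (N : ℝ) ^ (a / 2) := by positivity
      have h10 : (1 : ℝ) ≤ 3 * (Cd * 2 ^ K) * ((N : ℝ) ^ (a / 2))⁻¹ := by
        rw [← h7]
        refine h6.trans (le_of_eq ?_)
        ring
      rwa [← div_eq_mul_inv, le_div_iff₀ h9, one_mul] at h10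
    have h11 : 4 * (Cd * 2 ^ K) ≤ (N : ℝ) ^ (a / 2) := by
      have h12 : A' ≤ (N : ℝ) := (le_max_right _ _).trans hNA
      calc 4 * (Cd * 2 ^ K) = A' ^ (a / 2) := by
            rw [hA', ← Real.rpow_mul (by positivity)]
            have : 2 / a * (a / 2) = 1 := by field_simp
            rw [this, Real.rpow_one]
        _ ≤ (N : ℝ) ^ (a / 2) := Real.rpow_le_rpow (by positivity) h12 (by positivity)
    have h12 : 0 < Cd * 2 ^ K := by positivity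
    linarith
  have hcard : (k : ℝ) ≤ Q1.card + (Q2.card + Q3.card) := by
    have h1 := Finset.card_le_card hcov
    rw [Finset.card_univ, Fintype.card_fin] at h1
    have h2 := (h1.trans (Finset.card_union_le _ _)).trans (Nat.add_le_add_left (Finset.card_union_le _ _) _)
    exact_mod_cast h2
  have hexp : ∀ b : ℝ, e ≤ b → (N : ℝ) ^ (-b) ≤ (N : ℝ) ^ (-(min 1 (κ / 32) * ε)) := fun b hb =>
    Real.rpow_le_rpow_of_exponent_le hN1 (by linarith)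
  calc (k : ℝ) ≤ Q1.card + (Q2.card + Q3.card) := hcard
    _ ≤ c1 * sz N * (N : ℝ) ^ (-e) + (c2 * sz N * (N : ℝ) ^ (-e) + c3 * sz N * (N : ℝ) ^ (-a)) := by gcongr
    _ ≤ c1 * sz N * (N : ℝ) ^ (-(min 1 (κ / 32) * ε)) + (c2 * sz N * (N : ℝ) ^ (-(min 1 (κ / 32) * ε)) +
          c3 * sz N * (N : ℝ) ^ (-(min 1 (κ / 32) * ε))) := by
        have hh1 := hexp e le_rfl
        have hh2 := hexp a hea
        gcongr
    _ = _ := by ring

/-- the zero density theorem for a level structure `H`, conductors up to `N^(2 dd - κ)` and `sz N` forms -/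
def ConclZ (n : ℕ) (H : (N : ℕ) → Subgroup (GN n N)) (dd : ℕ) (sz : ℕ → ℝ) : Prop :=
  ∀ U : Set (GR n), U ∈ 𝓝 (1 : GR n) → ∀ κ : ℝ, 0 < κ → κ ≤ 1 → ∃ c : ℝ, 0 < c ∧
    ∀ T ε : ℝ, 0 < ε → ε ≤ 1 / 2 → ∃ δ C : ℝ, 0 < δ ∧ 0 < C ∧
    ∀ (N : ℕ) [NeZero N] (F : Set (GR n)), IsFD F →
    ∀ (k : ℕ) (f : Fin k → GR n → XX (H N) → ℂ) (l : Fin k → ℕ → ℂ),
      (∀ i, IsForm (H N) (f i) ∧ IsL2 F (f i) ∧ IsCusp (f i) ∧ IsSlow U F (f i)) →
      (∀ i j, ip F (f i) (f j) = if i = j then 1 else 0) → (∀ i, IsEig (l i) (f i)) →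
      ∀ Ξ : Finset (ℕ → ℂ), (∀ ξ ∈ Ξ, ∀ m, ‖ξ m‖ ≤ 1) →
      (∀ i, ∃ ξ ∈ Ξ, ∃ D : LData n, D.Ok ∧ D.q ≤ T * (N : ℝ) ^ (2 * (dd : ℝ) - κ) ∧ (∀ j, ‖D.μ j‖ ≤ T) ∧
        (∀ m : ℕ, 0 < m → m.Coprime N → D.lam m = ξ m * l i m) ∧
        ∃ s : ℂ, D.L s = 0 ∧ 1 / 2 + ε ≤ s.re ∧ s.re ≤ 3 / 2 ∧ |s.im| ≤ (N : ℝ) ^ δ) →
      (k : ℝ) ≤ C * Ξ.card * sz N * (N : ℝ) ^ (-(c * ε))

theorem main (hA : S_afe) (hF : S_fac) (hD : S_dya) (hQ2 : S_qu2) (hQ3 : S_qu3) (hdet : S_det) (hhic : S_hih)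
    (htrk : S_trh) (n : ℕ) (hn : 3 ≤ n)
    (H : (N : ℕ) → Subgroup (GN n N)) (dd : ℕ) (sz : ℕ → ℝ) (hdd : 1 ≤ dd) (hsz : ∀ N, 0 ≤ sz N)
    (hH : ∀ (N : ℕ) [NeZero N], ((H N).index : ℝ) ≤ sz N ∧ N ≤ ixS (H N) ∧ ixS (H N) ≤ N ^ (n ^ 2))
    (hB : BLS n H dd sz) (hT : TP n H sz) : ConclZ n H dd sz := by
  classical
  intro U hU κ hκ hκ1
  obtain ⟨χ, hχ1, hχ2, hχ3, hχ4, hχ5⟩ := exists_bump n hU
  obtain ⟨η₀, hη₀, h1⟩ := hhic n hn
  obtain ⟨η₁, c, hη₁, hc, h2⟩ := zero_twist hA hF hD hQ2 hQ3 hdet n (by omega) H dd sz hdd hsz hB hT χ hχ1 hχ2 κ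
    hκ hκ1
  set η := min η₀ η₁ with hη
  have hη0 : 0 < η := lt_min hη₀ hη₁
  refine ⟨min c η, lt_min hc hη0, fun T ε hε hε2 => ?_⟩
  obtain ⟨δ, hδ, h2⟩ := h2 T ε hε hε2
  obtain ⟨C₁, hC₁, h3⟩ := h1 U χ hχ1 hχ2 hχ3 hχ4 hχ5 η hη0 (min_le_left _ _)
  obtain ⟨C₂, N₀, hC₂, h4⟩ := h2 η C₁ hη0 (min_le_right _ _) hC₁
  obtain ⟨C₃, hC₃, h5⟩ := htrk n hn U hU
  set w : ℝ := min c η * ε with hw
  have hw0 : 0 < w := mul_pos (lt_min hc hη0) hε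
  have hwc : w ≤ c * ε := mul_le_mul_of_nonneg_right (min_le_left _ _) hε.le
  have hwη : w ≤ η / 2 := by
    have h6 : w ≤ η * ε := mul_le_mul_of_nonneg_right (min_le_right _ _) hε.le
    nlinarith
  set M : ℝ := max 1 (N₀ : ℝ) with hM
  have hM1 : 1 ≤ M := le_max_left _ _
  have hlM := Real.log_nonneg hM1
  refine ⟨δ, C₁ + C₂ + C₃ * (1 + Real.log M) ^ n * M ^ w, hδ, by positivity, ?_⟩
  intro N _ F hF k f l hf hon heig Ξ hξ hL
  obtain ⟨hi1, hi2, hi3⟩ := hH N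
  have hN1 : (1 : ℝ) ≤ N := by exact_mod_cast NeZero.one_le
  have hN0 : (0 : ℝ) < N := by linarith
  have hs0 : 0 ≤ sz N := hsz N
  rcases Nat.eq_zero_or_pos k with hk0 | hkpos
  · rw [hk0, Nat.cast_zero]
    positivity
  have hΞ1 : (1 : ℝ) ≤ Ξ.card := by
    obtain ⟨ξ, hξ1, -⟩ := hL ⟨0, hkpos⟩
    have : 1 ≤ Ξ.card := Finset.card_pos.2 ⟨ξ, hξ1⟩
    exact_mod_cast this
  have hNn : 0 ≤ (Ξ.card : ℝ) * (sz N * (N : ℝ) ^ (-w)) := by positivity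
  by_cases hNN : N₀ ≤ N
  · obtain ⟨I, hI, hI'⟩ := h3 N (H N) F hi2 hi3 hF k f hf hon
    choose ξ hξΞ D hok hq hμ hlam hbad using hL
    -- the part of a twist
    have hpart : ∀ ξ' ∈ Ξ, (((Finset.univ.filter fun i => i ∉ I).filter fun i => ξ i = ξ').card : ℝ) ≤
        C₂ * (sz N * (N : ℝ) ^ (-w)) := by
      intro ξ' hξ'
      set S : Finset (Fin k) := (Finset.univ.filter fun i => i ∉ I).filter fun i => ξ i = ξ' with hS
      have hmem : ∀ j, S.orderEmbOfFin rfl j ∈ S := fun j => Finset.orderEmbOfFin_mem S rfl j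
      have hξj : ∀ j, ξ (S.orderEmbOfFin rfl j) = ξ' := fun j => (Finset.mem_filter.1 (hmem j)).2
      have hIj : ∀ j, S.orderEmbOfFin rfl j ∉ I := fun j =>
        (Finset.mem_filter.1 (Finset.mem_filter.1 (hmem j)).1).2
      have h6 := h4 N F hNN hF S.card (fun j => f (S.orderEmbOfFin rfl j)) (fun j => l (S.orderEmbOfFin rfl j)) ξ'
        (fun j => D (S.orderEmbOfFin rfl j)) ⟨fun j => (hf _).1, fun j => (hf _).2.1, fun i j => by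
          rw [hon]
          simp only [EmbeddingLike.apply_eq_iff_eq]⟩
        (fun j => heig _) (hξ ξ' hξ') (fun j m hm hmN => by rw [hlam _ m hm hmN, hξj j])
        (fun j => ⟨hok _, hq _, hμ _⟩) (fun j => hI' _ (hIj j)) (fun j => hbad _)
      refine h6.trans ?_
      rw [mul_assoc]
      refine mul_le_mul_of_nonneg_left (mul_le_mul_of_nonneg_left ?_ hs0) (by linarith)
      exact Real.rpow_le_rpow_of_exponent_le hN1 (by linarith)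
    have hsum : (((Finset.univ.filter fun i => i ∉ I).card : ℕ) : ℝ) ≤
        C₂ * (Ξ.card * (sz N * (N : ℝ) ^ (-w))) := by
      have e1 : (Finset.univ.filter fun i => i ∉ I).card =
          ∑ ξ' ∈ Ξ, ((Finset.univ.filter fun i => i ∉ I).filter fun i => ξ i = ξ').card :=
        Finset.card_eq_sum_card_fiberwise fun i _ => hξΞ i
      rw [e1]
      push_cast
      calc ∑ ξ' ∈ Ξ, (((Finset.univ.filter fun i => i ∉ I).filter fun i => ξ i = ξ').card : ℝ)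
          ≤ ∑ ξ' ∈ Ξ, C₂ * (sz N * (N : ℝ) ^ (-w)) := Finset.sum_le_sum hpart
        _ = (Ξ.card : ℝ) * (C₂ * (sz N * (N : ℝ) ^ (-w))) := by rw [Finset.sum_const, nsmul_eq_mul]
        _ = _ := by ring
    have h7 : (k : ℝ) = (I.card : ℝ) + ((Finset.univ.filter fun i => i ∉ I).card : ℝ) := by
      have e1 : (Finset.univ.filter fun i => i ∉ I) = Iᶜ := by
        ext i
        simp
      rw [e1]
      have := Finset.card_add_card_compl I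
      rw [Fintype.card_fin] at this
      exact_mod_cast this.symm
    have h8 : (N : ℝ) ^ (-(η / 2)) ≤ (N : ℝ) ^ (-w) :=
      Real.rpow_le_rpow_of_exponent_le hN1 (by linarith)
    have h11 : C₁ * (H N).index * (N : ℝ) ^ (-(η / 2)) ≤ C₁ * (Ξ.card * (sz N * (N : ℝ) ^ (-w))) := by
      have h12 : ((H N).index : ℝ) * (N : ℝ) ^ (-(η / 2)) ≤ sz N * (N : ℝ) ^ (-w) :=
        mul_le_mul hi1 h8 (by positivity) (by positivity)
      have h13 : sz N * (N : ℝ) ^ (-w) ≤ Ξ.card * (sz N * (N : ℝ) ^ (-w)) :=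
        le_mul_of_one_le_left (by positivity) hΞ1
      rw [mul_assoc]
      exact mul_le_mul_of_nonneg_left (h12.trans h13) (by linarith)
    have h14 : 0 ≤ C₃ * (1 + Real.log M) ^ n * M ^ w := by positivity
    calc (k : ℝ) = (I.card : ℝ) + ((Finset.univ.filter fun i => i ∉ I).card : ℝ) := h7
      _ ≤ C₁ * (Ξ.card * (sz N * (N : ℝ) ^ (-w))) + C₂ * (Ξ.card * (sz N * (N : ℝ) ^ (-w))) :=
          add_le_add (hI.trans h11) hsum
      _ = (C₁ + C₂) * (Ξ.card * (sz N * (N : ℝ) ^ (-w))) := by ring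
      _ ≤ (C₁ + C₂ + C₃ * (1 + Real.log M) ^ n * M ^ w) * (Ξ.card * (sz N * (N : ℝ) ^ (-w))) :=
          mul_le_mul_of_nonneg_right (by linarith) hNn
      _ = _ := by ring
  · have h6 := h5 N (H N) F hi3 hF k f hf hon
    have hNM : (N : ℝ) ≤ M := by
      refine le_trans ?_ (le_max_right _ _)
      exact_mod_cast (not_le.1 hNN).le
    have hlN := Real.log_nonneg hN1
    have h7 : (1 + Real.log N) ^ n ≤ (1 + Real.log M) ^ n * M ^ w * (N : ℝ) ^ (-w) := by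
      have e1 : 1 ≤ M ^ w * (N : ℝ) ^ (-w) := by
        rw [Real.rpow_neg hN0.le, ← div_eq_mul_inv, one_le_div (by positivity)]
        exact Real.rpow_le_rpow hN0.le hNM hw0.le
      have e2 : (1 + Real.log N) ^ n ≤ (1 + Real.log M) ^ n :=
        pow_le_pow_left₀ (by linarith) (by linarith [Real.log_le_log hN0 hNM]) n
      have e3 : 0 ≤ (1 + Real.log M) ^ n := by positivity
      calc (1 + Real.log N) ^ n ≤ (1 + Real.log M) ^ n * 1 := by rw [mul_one]; exact e2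
        _ ≤ (1 + Real.log M) ^ n * (M ^ w * (N : ℝ) ^ (-w)) := mul_le_mul_of_nonneg_left e1 e3
        _ = _ := by ring
    calc (k : ℝ) ≤ C₃ * (H N).index * (1 + Real.log N) ^ n := h6
      _ ≤ C₃ * sz N * ((1 + Real.log M) ^ n * M ^ w * (N : ℝ) ^ (-w)) :=
          mul_le_mul (mul_le_mul_of_nonneg_left hi1 (by linarith)) h7 (by positivity) (by positivity)
      _ = (C₃ * (1 + Real.log M) ^ n * M ^ w) * (1 * (sz N * (N : ℝ) ^ (-w))) := by ring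
      _ ≤ (C₃ * (1 + Real.log M) ^ n * M ^ w) * (Ξ.card * (sz N * (N : ℝ) ^ (-w))) := by gcongr
      _ ≤ (C₁ + C₂ + C₃ * (1 + Real.log M) ^ n * M ^ w) * (Ξ.card * (sz N * (N : ℝ) ^ (-w))) :=
          mul_le_mul_of_nonneg_right (by linarith) hNn
      _ = _ := by ring

end Pool.Agent.T2h79.LG.ZD
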