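import Pool.Agent.T2h79.LG.AslB

/-!
# Project LG: task ASL
-/

set_option autoImplicit false

open MeasureTheory Matrix
open scoped MatrixGroups ENNReal Topology

noncomputable section

namespace Pool.Agent.T2h79.LG.ASL

open Pool.Agent.T2h77.N

theorem t_ASL (hL : S_lsi) (hA : S_afe) (hF : S_fac) (hD : S_dya) : S_asl := by
  intro n hn χ hχ hχc T ε hε
  have hn' : (1 : ℝ) ≤ n := by exact_mod_cast hn
  set T₁ : ℝ := max T 1 with hT₁
  have hT1 : 1 ≤ T₁ := le_max_right _ _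
  set e : ℝ := min ε (1 / 8) / (20 * (n + 1)) with he
  have hmin : 0 < min ε (1 / 8) := lt_min hε (by norm_num)
  have he0 : 0 < e := by positivity
  have heε : e * (20 * (n + 1)) ≤ ε := by
    rw [he, div_mul_cancel₀ _ (by positivity)]
    exact min_le_left _ _
  have he8 : e ≤ 1 / (160 * (n + 1)) := by
    rw [he, div_le_div_iff₀ (by positivity) (by positivity)]
    have := min_le_right ε (1 / 8)
    nlinarith
  have he2 : e ≤ 1 / 2 := he8.trans (by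
    rw [div_le_div_iff₀ (by positivity) (by norm_num)]
    nlinarith)
  obtain ⟨C₀, hC₀, hlsi⟩ := hL n hn χ hχ hχc e he0
  obtain ⟨CA, K, hCA, hafe⟩ := hA n T e he0
  obtain ⟨CF, hCF, hfac⟩ := hF n e he0
  refine ⟨e, he0, fun η C₁ hη hηe hC₁ => ?_⟩
  set δ : ℝ := e / (K + 1) with hδ
  have hδ0 : 0 < δ := by positivity
  have hδK : δ * K ≤ e := by
    rw [hδ, div_mul_eq_mul_div, div_le_iff₀ (by positivity)]
    nlinarith
  have hδe : δ ≤ e := div_le_self he0.le (by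
    have : (0 : ℝ) ≤ K := Nat.cast_nonneg K
    linarith)
  obtain ⟨A₁, hA₁, hnum1⟩ := num_cond n hn hT1 hC₀ hC₁ he0 he8 hη hηe
  obtain ⟨A₂, hA₂, hnum2⟩ := num_log n hT1 hC₁ he0 he2 hη (by linarith)
  set P : ℝ := CA * 2 ^ K with hP
  have hP1 : 1 ≤ P := one_le_mul_of_one_le_of_one_le hCA (one_le_pow₀ (by norm_num))
  -- the threshold
  set A₃ : ℝ := (2 * P) ^ (1 / ε) with hA₃
  refine ⟨δ, 1 + 2 * (P * (T₁ ^ e * (CF ^ 2 * (Real.pi * 8 * C₀ * A₂)))), ⌈max A₁ A₃⌉₊, hδ0, by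
    have : 0 ≤ P * (T₁ ^ e * (CF ^ 2 * (Real.pi * 8 * C₀ * A₂))) := by
      have := Real.pi_pos
      positivity
    linarith, ?_⟩
  intro N _ F hNN hF k f D hf hL2 hon hDD Q hQ hmass
  have hNr : max A₁ A₃ ≤ (N : ℝ) := (Nat.le_ceil _).trans (by exact_mod_cast hNN)
  have hN1 : (1 : ℝ) ≤ N := by exact_mod_cast NeZero.one_le
  have hN0 : (0 : ℝ) < N := by linarith
  have hNpos : 0 < N := by exact_mod_cast hN0
  set Y : ℝ := C₁ * (N : ℝ) ^ η with hY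
  have hY1 : 1 ≤ Y := one_le_mul_of_one_le_of_one_le hC₁ (Real.one_le_rpow hN1 hη.le)
  set X : ℝ := (T₁ * (N : ℝ) ^ n) ^ (1 / 2 + e) with hX
  have hTN : 1 ≤ T₁ * (N : ℝ) ^ n := one_le_mul_of_one_le_of_one_le hT1 (one_le_pow₀ hN1)
  have hX1 : 1 ≤ X := Real.one_le_rpow hTN (by positivity)
  obtain ⟨J₀, hJ₀, hJ₀'⟩ := exists_nat_pow_near hX1 (by norm_num : (1 : ℝ) < 2)
  set J : ℕ := J₀ + 1 with hJ
  have hJX : (2 : ℝ) ^ J ≤ 2 * X := by
    rw [hJ, pow_succ]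
    linarith
  have hXJ : X < (2 : ℝ) ^ J := hJ₀'
  obtain ⟨E, hE0, hE1, hE2⟩ := hfac N J hNpos
  set G : ℝ := (Nat.card (GN n N) : ℝ) with hG
  have hG0 : 0 ≤ G := Nat.cast_nonneg _
  set W : ℝ := C₀ * G * (1 + Real.log Y) ^ n with hW
  have hlY : 0 ≤ Real.log Y := Real.log_nonneg hY1
  have hW0 : 0 ≤ W := by positivity
  have hcond := hnum1 N ((le_max_left _ _).trans hNr)
  -- the large sieve inequality for the blocks
  have hblock : ∀ j ∈ Finset.range J, ∀ v : ℝ,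
      ∑ i ∈ Q, ‖∑ m ∈ Bl N j, (D i).lam m * (m : ℂ) ^ (-pt (1 / 2 + e) v)‖ ^ 2 ≤ 8 * W := by
    intro j hj v
    have hjJ : j + 1 ≤ J := Finset.mem_range.1 hj
    have h1 := hlsi N F hF k f (fun i => (D i).lam) hf hL2 hon (fun i => (hDD i).2.1) Y (Bl N j)
      (fun m => (m : ℂ) ^ (-pt (1 / 2 + e) v)) hY1
      (fun m hm => ⟨lt_of_lt_of_le (by positivity) (Finset.mem_filter.1 hm).2.1, (Finset.mem_filter.1 hm).2.2⟩)
      (fun m hm m' hm' => by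
        have h2 := (Finset.mem_filter.1 hm).2.1
        have h3 := Finset.mem_range.1 (Finset.mem_filter.1 hm').1
        rw [pow_succ] at h3
        omega)
      (fun m hm => by
        refine le_trans ?_ hcond
        refine mul_le_mul_of_nonneg_right ?_ (by positivity)
        have h3 := Finset.mem_range.1 (Finset.mem_filter.1 hm).1
        have h4 : (m : ℝ) ≤ (2 : ℝ) ^ (j + 1) := by exact_mod_cast h3.le
        exact h4.trans ((pow_le_pow_right₀ (by norm_num) hjJ).trans hJX))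
    refine real_of_mass Q (fun i => ∑ m ∈ Bl N j, (D i).lam m * (m : ℂ) ^ (-pt (1 / 2 + e) v)) _ W ?_ hmass hW0
    refine le_trans (le_of_eq ?_) (h1.trans (ENNReal.ofReal_le_ofReal ?_))
    · refine Finset.sum_congr rfl fun i _ => ?_
      congr 3
      exact Finset.sum_congr rfl fun m _ => mul_comm _ _
    · calc _ ≤ C₀ * G * (1 + Real.log Y) ^ n * 1 :=
            mul_le_mul_of_nonneg_left (block he0.le N j v) hW0
        _ = W := mul_one _
  set I : Fin k → ℕ → ℝ := fun i j =>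
    ∫ v : ℝ, (1 + v ^ 2)⁻¹ * ‖∑ m ∈ Bl N j, (D i).lam m * (m : ℂ) ^ (-pt (1 / 2 + e) v)‖ ^ 2 with hI
  have hsum : ∀ j ∈ Finset.range J, ∑ i ∈ Q, I i j ≤ Real.pi * (8 * W) := fun j hj =>
    sum_int Q (fun i v => ‖∑ m ∈ Bl N j, (D i).lam m * (m : ℂ) ^ (-pt (1 / 2 + e) v)‖ ^ 2) (8 * W)
      (fun i _ => integrable_sq (Bl N j) (D i).lam _ fun m hm =>
        lt_of_lt_of_le (by positivity) (Finset.mem_filter.1 hm).2.1) (hblock j hj)
  -- the bound for each form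
  have hone : ∀ i ∈ Q, (N : ℝ) ^ (2 * ε) ≤ P * (N : ℝ) ^ e * (1 + (T₁ * (N : ℝ) ^ n) ^ e *
      ((CF * (N : ℝ) ^ e) ^ 2 * (J * ∑ j ∈ Finset.range J, I i j))) := by
    intro i hi
    obtain ⟨t, ht, ht'⟩ := hQ i hi
    obtain ⟨hok, -, hq, hμ⟩ := hDD i
    have hq' : (D i).q ≤ T₁ * (N : ℝ) ^ n :=
      hq.trans (mul_le_mul_of_nonneg_right (le_max_left _ _) (by positivity))
    refine one_form hD hN1 hCA hCF he0 hT1 hok.one_le hq' hδK hδ0.le ht hE0 ht' ?_ ?_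
    · exact hafe (D i) hok hμ X E (Real.rpow_le_rpow (by linarith [hok.one_le]) hq' (by positivity)) hE0
        (fun m hm hmX => hE1 m hm (by
          have : (m : ℝ) < (2 : ℝ) ^ J := lt_of_le_of_lt hmX hXJ
          exact_mod_cast this)) t
    · exact fun v => hE2 (D i) hok v
  -- summation
  have htot : (Q.card : ℝ) * (N : ℝ) ^ (2 * ε) ≤ P * (N : ℝ) ^ e * (Q.card + (T₁ * (N : ℝ) ^ n) ^ e *
      ((CF * (N : ℝ) ^ e) ^ 2 * (J * (J * (Real.pi * (8 * W)))))) := by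
    have h1 := Finset.sum_le_sum hone
    rw [Finset.sum_const, nsmul_eq_mul] at h1
    refine h1.trans ?_
    rw [← Finset.mul_sum, Finset.sum_add_distrib, Finset.sum_const, nsmul_eq_mul, mul_one, ← Finset.mul_sum,
      ← Finset.mul_sum, ← Finset.mul_sum, Finset.sum_comm]
    have h2 : ∑ j ∈ Finset.range J, ∑ i ∈ Q, I i j ≤ J * (Real.pi * (8 * W)) := by
      refine (Finset.sum_le_sum hsum).trans (le_of_eq ?_)
      rw [Finset.sum_const, Finset.card_range, nsmul_eq_mul]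
    gcongr
  have hlog := hnum2 N J hN1 hJX
  have hthr : 2 * P ≤ (N : ℝ) ^ ε := by
    have h1 : A₃ ≤ N := (le_max_right _ _).trans hNr
    calc 2 * P = (A₃) ^ ε := by
          rw [hA₃, ← Real.rpow_mul (by positivity), one_div_mul_cancel hε.ne', Real.rpow_one]
      _ ≤ (N : ℝ) ^ ε := Real.rpow_le_rpow (by positivity) h1 hε.le
  have heε' : e ≤ ε := by nlinarith
  have hlow : P * (N : ℝ) ^ e ≤ (N : ℝ) ^ (2 * ε) / 2 := by
    have h1 : (N : ℝ) ^ e ≤ (N : ℝ) ^ ε := Real.rpow_le_rpow_of_exponent_le hN1 heε'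
    have h2 : (N : ℝ) ^ (2 * ε) = (N : ℝ) ^ ε * (N : ℝ) ^ ε := by
      rw [← Real.rpow_add hN0]
      ring_nf
    rw [h2]
    have h3 : 0 < (N : ℝ) ^ ε := by positivity
    nlinarith [mul_le_mul_of_nonneg_left h1 (by linarith : (0 : ℝ) ≤ P)]
  have hmain : P * (N : ℝ) ^ e * ((T₁ * (N : ℝ) ^ n) ^ e *
      ((CF * (N : ℝ) ^ e) ^ 2 * (J * (J * (Real.pi * (8 * W)))))) ≤
      P * (T₁ ^ e * (CF ^ 2 * (Real.pi * 8 * C₀ * A₂))) * G * (N : ℝ) ^ ((n + 4) * e) := by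
    have e1 : (T₁ * (N : ℝ) ^ n) ^ e = T₁ ^ e * (N : ℝ) ^ (n * e) := by
      rw [Real.mul_rpow (by positivity) (by positivity), ← Real.rpow_natCast, ← Real.rpow_mul hN0.le]
    have e2 : (N : ℝ) ^ ((n + 4) * e) = (N : ℝ) ^ e * (N : ℝ) ^ (n * e) * (N : ℝ) ^ e * (N : ℝ) ^ e * (N : ℝ) ^ e := by
      rw [← Real.rpow_add hN0, ← Real.rpow_add hN0, ← Real.rpow_add hN0, ← Real.rpow_add hN0]
      ring_nf
    have e3 : P * (N : ℝ) ^ e * ((T₁ * (N : ℝ) ^ n) ^ e *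
        ((CF * (N : ℝ) ^ e) ^ 2 * (J * (J * (Real.pi * (8 * W)))))) =
        (P * (T₁ ^ e * (CF ^ 2 * (Real.pi * 8 * C₀))) * G * ((N : ℝ) ^ e * (N : ℝ) ^ (n * e) * (N : ℝ) ^ e *
          (N : ℝ) ^ e)) * ((J : ℝ) * J * (1 + Real.log Y) ^ n) := by
      rw [e1, hW]
      ring
    rw [e3, e2]
    have hpi := Real.pi_pos
    calc _ ≤ (P * (T₁ ^ e * (CF ^ 2 * (Real.pi * 8 * C₀))) * G * ((N : ℝ) ^ e * (N : ℝ) ^ (n * e) * (N : ℝ) ^ e *
          (N : ℝ) ^ e)) * (A₂ * (N : ℝ) ^ e) :=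
          mul_le_mul_of_nonneg_left hlog (by positivity)
      _ = _ := by ring
  set Z : ℝ := P * (T₁ ^ e * (CF ^ 2 * (Real.pi * 8 * C₀ * A₂))) with hZ
  have hZ0 : 0 ≤ Z := by
    have := Real.pi_pos
    positivity
  have hfin : (Q.card : ℝ) * ((N : ℝ) ^ (2 * ε) / 2) ≤ Z * G * (N : ℝ) ^ ((n + 4) * e) := by
    have hc : (0 : ℝ) ≤ Q.card := Nat.cast_nonneg _
    have h1 := mul_le_mul_of_nonneg_left hlow hc
    rw [mul_add] at htot
    nlinarith [htot, hmain, h1]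
  have h5 : (N : ℝ) ^ ((n + 4) * e) ≤ (N : ℝ) ^ (2 * ε) * (N : ℝ) ^ (-δ) := by
    rw [← Real.rpow_add hN0]
    refine Real.rpow_le_rpow_of_exponent_le hN1 ?_
    nlinarith
  have h6 : 0 < (N : ℝ) ^ (2 * ε) := by positivity
  have h7 : (Q.card : ℝ) ≤ 2 * Z * G * (N : ℝ) ^ (-δ) := by
    have h8 : (Q.card : ℝ) * ((N : ℝ) ^ (2 * ε) / 2) ≤ (2 * Z * G * (N : ℝ) ^ (-δ)) * ((N : ℝ) ^ (2 * ε) / 2) := by
      refine hfin.trans ?_
      calc Z * G * (N : ℝ) ^ ((n + 4) * e) ≤ Z * G * ((N : ℝ) ^ (2 * ε) * (N : ℝ) ^ (-δ)) :=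
            mul_le_mul_of_nonneg_left h5 (by positivity)
        _ = _ := by ring
    exact le_of_mul_le_mul_right h8 (by positivity)
  refine h7.trans ?_
  have h9 : 0 ≤ G * (N : ℝ) ^ (-δ) := by positivity
  nlinarith

end Pool.Agent.T2h79.LG.ASL
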