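import Pool.Agent.T2h79.LG.Stm

/-!
# Project LG: task ASM
-/

set_option autoImplicit false

open MeasureTheory Matrix
open scoped MatrixGroups ENNReal Topology

noncomputable section

namespace Pool.Agent.T2h79.LG.ASM

open Pool.Agent.T2h77.N

theorem t_ASM : S_asm := by
  intro hasl hhic htrk n hn U hU T ε hε
  obtain ⟨χ, hχ1, hχ2, hχ3, hχ4, hχ5⟩ := exists_bump n hU
  obtain ⟨η₀, hη₀, h1⟩ := hhic n hn
  obtain ⟨η₁, hη₁, h2⟩ := hasl n (by omega) χ hχ1 hχ2 T ε hε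
  set η := min η₀ η₁ with hη
  have hη0 : 0 < η := lt_min hη₀ hη₁
  obtain ⟨C₁, hC₁, h3⟩ := h1 U χ hχ1 hχ2 hχ3 hχ4 hχ5 η hη0 (min_le_left _ _)
  obtain ⟨δ₀, C₂, N₀, hδ₀, hC₂, h4⟩ := h2 η C₁ hη0 (min_le_right _ _) hC₁
  obtain ⟨C₃, hC₃, h5⟩ := htrk n hn U hU
  set δ := min δ₀ (η / 2) with hδ
  have hδ0 : 0 < δ := lt_min hδ₀ (by positivity)
  -- the constant for small `N`
  set M : ℝ := max 1 (N₀ : ℝ) with hM
  have hM1 : 1 ≤ M := le_max_left _ _
  refine ⟨δ, C₁ + C₂ + C₃ * (1 + Real.log M) ^ n * M ^ δ, hδ0, by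
    have := Real.log_nonneg hM1
    positivity, ?_⟩
  intro N _ F hF k f D hf hon hD hL
  have hN1 : (1 : ℝ) ≤ N := by exact_mod_cast NeZero.one_le
  have hN0 : (0 : ℝ) < N := by linarith
  have hG : (0 : ℝ) ≤ Nat.card (GN n N) := Nat.cast_nonneg _
  have hNd : 0 < (N : ℝ) ^ (-δ) := by positivity
  by_cases hNN : N₀ ≤ N
  · obtain ⟨I, hI, hI'⟩ := h3 N F hF k f hf hon
    have h6 := h4 N F hNN hF k f D (fun i => (hf i).1) (fun i => (hf i).2.1) hon hD (Iᶜ)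
      (fun i _ => by
        obtain ⟨t, ht, ht'⟩ := hL i
        exact ⟨t, ht.trans (Real.rpow_le_rpow_of_exponent_le hN1 (min_le_left _ _)), ht'⟩)
      (fun i hi => hI' i (by simpa using hi))
    have h7 : (k : ℝ) = (I.card : ℝ) + (Iᶜ.card : ℝ) := by
      have := Finset.card_add_card_compl I
      rw [Fintype.card_fin] at this
      exact_mod_cast this.symm
    have h8 : (N : ℝ) ^ (-(η / 2)) ≤ (N : ℝ) ^ (-δ) :=
      Real.rpow_le_rpow_of_exponent_le hN1 (by linarith [min_le_right δ₀ (η / 2)])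
    have h9 : (N : ℝ) ^ (-δ₀) ≤ (N : ℝ) ^ (-δ) :=
      Real.rpow_le_rpow_of_exponent_le hN1 (by linarith [min_le_left δ₀ (η / 2)])
    have h10 : 0 ≤ C₃ * (1 + Real.log M) ^ n * M ^ δ := by
      have := Real.log_nonneg hM1
      positivity
    calc (k : ℝ) = (I.card : ℝ) + (Iᶜ.card : ℝ) := h7
      _ ≤ C₁ * Nat.card (GN n N) * (N : ℝ) ^ (-(η / 2)) + C₂ * Nat.card (GN n N) * (N : ℝ) ^ (-δ₀) :=
          add_le_add hI h6
      _ ≤ C₁ * Nat.card (GN n N) * (N : ℝ) ^ (-δ) + C₂ * Nat.card (GN n N) * (N : ℝ) ^ (-δ) :=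
          add_le_add (mul_le_mul_of_nonneg_left h8 (by positivity)) (mul_le_mul_of_nonneg_left h9 (by positivity))
      _ = (C₁ + C₂) * Nat.card (GN n N) * (N : ℝ) ^ (-δ) := by ring
      _ ≤ (C₁ + C₂ + C₃ * (1 + Real.log M) ^ n * M ^ δ) * Nat.card (GN n N) * (N : ℝ) ^ (-δ) :=
          mul_le_mul_of_nonneg_right (mul_le_mul_of_nonneg_right (by linarith) hG) hNd.le
  · have h6 := h5 N F hF k f hf hon
    have hNM : (N : ℝ) ≤ M := by
      refine le_trans ?_ (le_max_right _ _)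
      exact_mod_cast (not_le.1 hNN).le
    have h7 : (1 + Real.log N) ^ n ≤ (1 + Real.log M) ^ n * M ^ δ * (N : ℝ) ^ (-δ) := by
      have e1 : 1 ≤ M ^ δ * (N : ℝ) ^ (-δ) := by
        rw [Real.rpow_neg hN0.le, ← div_eq_mul_inv, one_le_div (by positivity)]
        exact Real.rpow_le_rpow hN0.le hNM hδ0.le
      have e2 : (1 + Real.log N) ^ n ≤ (1 + Real.log M) ^ n := by
        have := Real.log_nonneg hN1
        exact pow_le_pow_left₀ (by linarith) (by linarith [Real.log_le_log hN0 hNM]) n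
      have e3 : 0 ≤ (1 + Real.log M) ^ n := by
        have := Real.log_nonneg hM1
        positivity
      calc (1 + Real.log N) ^ n ≤ (1 + Real.log M) ^ n * 1 := by rw [mul_one]; exact e2
        _ ≤ (1 + Real.log M) ^ n * (M ^ δ * (N : ℝ) ^ (-δ)) := mul_le_mul_of_nonneg_left e1 e3
        _ = _ := by ring
    calc (k : ℝ) ≤ C₃ * Nat.card (GN n N) * (1 + Real.log N) ^ n := h6
      _ ≤ C₃ * Nat.card (GN n N) * ((1 + Real.log M) ^ n * M ^ δ * (N : ℝ) ^ (-δ)) := by gcongr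
      _ = (C₃ * (1 + Real.log M) ^ n * M ^ δ) * Nat.card (GN n N) * (N : ℝ) ^ (-δ) := by ring
      _ ≤ (C₁ + C₂ + C₃ * (1 + Real.log M) ^ n * M ^ δ) * Nat.card (GN n N) * (N : ℝ) ^ (-δ) :=
          mul_le_mul_of_nonneg_right (mul_le_mul_of_nonneg_right (by linarith) hG) hNd.le

end Pool.Agent.T2h79.LG.ASM
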