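import Pool.Agent.T2h79.LG.T_LAM

/-! The Dirichlet series. -/

set_option autoImplicit false

open Complex

namespace Pool.Agent.T2h79.LG.DIR

open Pool.Agent.T2h79.LG Pool.Agent.T2h77.N Pool.Agent.T2h79.LG.LAM

theorem summable_hs {n : ℕ} {r : ℝ} (hr : 0 ≤ r) (f : Fin n → ℂ) (hf : ∀ i, ‖f i‖ ≤ r) {x : ℂ}
    (hx : r * ‖x‖ < 1) : Summable fun k : ℕ => hsG f k * x ^ k := by
  obtain ⟨q, hq⟩ : ∃ q : ℝ, q = (r * ‖x‖ + 1) / 2 := ⟨_, rfl⟩
  have h0 : 0 ≤ r * ‖x‖ := by positivity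
  have hq0 : 0 < q := by rw [hq]; linarith
  have hq1 : q < 1 := by rw [hq]; linarith
  have hrq : r * ‖x‖ ≤ q := by rw [hq]; linarith
  have h1 : Summable fun k : ℕ => ((k : ℝ)) ^ n * q ^ k :=
    summable_pow_mul_geometric_of_norm_lt_one n (by rwa [Real.norm_of_nonneg hq0.le])
  have h2 := ((summable_nat_add_iff 1).2 h1).mul_left q⁻¹
  refine Summable.of_norm_bounded h2 fun k => ?_
  rw [norm_mul, norm_pow]
  have h3 := hsG_le n hr f hf k
  calc ‖hsG f k‖ * ‖x‖ ^ k ≤ (((k : ℝ) + 1) ^ n * r ^ k) * ‖x‖ ^ k :=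
        mul_le_mul_of_nonneg_right h3 (by positivity)
    _ = ((k : ℝ) + 1) ^ n * (r * ‖x‖) ^ k := by rw [mul_pow]; ring
    _ ≤ ((k : ℝ) + 1) ^ n * q ^ k :=
        mul_le_mul_of_nonneg_left (pow_le_pow_left₀ h0 hrq k) (by positivity)
    _ = q⁻¹ * (((k + 1 : ℕ) : ℝ) ^ n * q ^ (k + 1)) := by
        rw [pow_succ]
        push_cast
        field_simp

/-- the generating function -/
theorem tsum_hs (n : ℕ) : ∀ {r : ℝ}, 0 ≤ r → ∀ (f : Fin n → ℂ), (∀ i, ‖f i‖ ≤ r) → ∀ {x : ℂ},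
    r * ‖x‖ < 1 → ∑' k : ℕ, hsG f k * x ^ k = ∏ j, (1 - f j * x)⁻¹ := by
  induction n with
  | zero =>
    intro r hr f hf x hx
    rw [Finset.univ_eq_empty, Finset.prod_empty, tsum_eq_single 0]
    · rw [hsG_zero, pow_zero, one_mul]
    · intro k hk
      obtain ⟨k, rfl⟩ := Nat.exists_eq_succ_of_ne_zero hk
      rw [hsG_empty, zero_mul]
  | succ n ih =>
    intro r hr f hf x hx
    obtain ⟨g, hg⟩ : ∃ g : Fin n → ℂ, g = fun i => f i.castSucc := ⟨_, rfl⟩
    have hgr : ∀ i, ‖g i‖ ≤ r := fun i => by rw [hg]; exact hf _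
    have h1 := summable_hs hr f hf hx
    have h2 := summable_hs hr g hgr hx
    have h3 := ih hr g hgr hx
    have e1 := h1.tsum_eq_zero_add
    have e2 := h2.tsum_eq_zero_add
    rw [hsG_zero, pow_zero, one_mul] at e1 e2
    have h1' : Summable fun k : ℕ => hsG f (k + 1) * x ^ (k + 1) :=
      (summable_nat_add_iff (f := fun k : ℕ => hsG f k * x ^ k) 1).2 h1
    have h2' : Summable fun k : ℕ => hsG g (k + 1) * x ^ (k + 1) :=
      (summable_nat_add_iff (f := fun k : ℕ => hsG g k * x ^ k) 1).2 h2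
    have e3 : ∀ k : ℕ, hsG f (k + 1) * x ^ (k + 1) =
        f (Fin.last n) * x * (hsG f k * x ^ k) + hsG g (k + 1) * x ^ (k + 1) := by
      intro k
      rw [hsG_rec, hg]
      ring
    have e4 : ∑' k : ℕ, hsG f (k + 1) * x ^ (k + 1) =
        f (Fin.last n) * x * ∑' k : ℕ, hsG f k * x ^ k + ∑' k : ℕ, hsG g (k + 1) * x ^ (k + 1) := by
      have h8 : Summable fun k : ℕ => f (Fin.last n) * x * (hsG f k * x ^ k) :=
        h1.mul_left (f (Fin.last n) * x)
      have e5 := h8.tsum_add h2'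
      rw [tsum_mul_left] at e5
      rw [← e5]
      exact tsum_congr e3
    have hne : 1 - f (Fin.last n) * x ≠ 0 := by
      intro h
      have h5 : ‖f (Fin.last n) * x‖ = 1 := by
        have : f (Fin.last n) * x = 1 := (sub_eq_zero.1 h).symm
        rw [this, norm_one]
      rw [norm_mul] at h5
      have h6 : ‖f (Fin.last n)‖ * ‖x‖ ≤ r * ‖x‖ :=
        mul_le_mul_of_nonneg_right (hf _) (norm_nonneg _)
      linarith
    rw [Fin.prod_univ_castSucc]
    have h7 : ∏ i : Fin n, (1 - f i.castSucc * x)⁻¹ = ∑' k : ℕ, hsG g k * x ^ k := by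
      rw [h3, hg]
    rw [h7, eq_mul_inv_iff_mul_eq₀ hne]
    rw [e4] at e1
    rw [e2]
    linear_combination e1

section

variable {n : ℕ} (D : LData n)

theorem lam_zero : D.lam 0 = 1 := by
  unfold LData.lam
  rw [Nat.factorization_zero, Finsupp.prod_zero_index]

theorem lam_one : D.lam 1 = 1 := by
  unfold LData.lam
  rw [Nat.factorization_one, Finsupp.prod_zero_index]

theorem hs_zero (α : Fin n → ℂ) : hs α 0 = 1 := hsG_zero α

theorem lam_prime_pow {p : ℕ} (hp : p.Prime) (k : ℕ) : D.lam (p ^ k) = hsG (D.α p) k := by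
  unfold LData.lam
  rw [hp.factorization_pow]
  exact Finsupp.prod_single_index (h := fun p k => hs (D.α p) k) (hs_zero _)

theorem lam_mul {a b : ℕ} (hab : a.Coprime b) : D.lam (a * b) = D.lam a * D.lam b := by
  unfold LData.lam
  rw [Nat.factorization_mul_of_coprime hab, Finsupp.prod_add_index_of_disjoint]
  rw [Nat.support_factorization, Nat.support_factorization]
  exact hab.disjoint_primeFactors

end

theorem t_DIR (hL : S_lam) : S_dir := by
  intro n D hD s hs
  obtain ⟨f, hf⟩ : ∃ f : ℕ → ℂ, f = fun m : ℕ => D.lam m * (m : ℂ) ^ (-s) := ⟨_, rfl⟩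
  have hs0 : -s ≠ 0 := by
    intro h
    have := congrArg Complex.re h
    simp at this
    linarith
  -- summability
  obtain ⟨C, hC, hlam⟩ := hL n ((s.re - 3 / 2) / 2) (by linarith)
  have hsum : Summable fun m => ‖f m‖ := by
    have h1 : Summable fun m : ℕ => C * (m : ℝ) ^ (-(1 + (s.re - 3 / 2) / 2)) :=
      (Real.summable_nat_rpow.2 (by linarith)).mul_left C
    refine Summable.of_nonneg_of_le (fun m => norm_nonneg _) (fun m => ?_) h1
    rcases Nat.eq_zero_or_pos m with rfl | hm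
    · rw [hf]
      simp only [Nat.cast_zero]
      rw [Complex.zero_cpow hs0, mul_zero, norm_zero]
      positivity
    · rw [hf]
      have hm0 : (0 : ℝ) < m := by exact_mod_cast hm
      rw [norm_mul, Complex.norm_natCast_cpow_of_pos hm]
      calc ‖D.lam m‖ * (m : ℝ) ^ (-s).re
          ≤ C * (m : ℝ) ^ (1 / 2 + (s.re - 3 / 2) / 2) * (m : ℝ) ^ (-s).re :=
            mul_le_mul_of_nonneg_right (hlam D hD m hm) (by positivity)
        _ = C * (m : ℝ) ^ (-(1 + (s.re - 3 / 2) / 2)) := by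
            rw [mul_assoc, ← Real.rpow_add hm0, neg_re]
            congr 2
            ring
  have hsf : Summable fun m : ℕ => D.lam m * (m : ℂ) ^ (-s) := by
    rw [← hf]
    exact hsum.of_norm
  refine ⟨hsf, ?_⟩
  have hf0 : f 0 = 0 := by
    rw [hf]
    simp only [Nat.cast_zero]
    rw [Complex.zero_cpow hs0, mul_zero]
  have hf1 : f 1 = 1 := by
    rw [hf]
    simp only [Nat.cast_one, Complex.one_cpow, mul_one]
    exact lam_one D
  have hmul : ∀ {a b : ℕ}, a.Coprime b → f (a * b) = f a * f b := by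
    intro a b hab
    rw [hf]
    simp only
    rw [lam_mul D hab, Nat.cast_mul, Complex.natCast_mul_natCast_cpow]
    ring
  have h1 := EulerProduct.eulerProduct_tprod hf1 hmul hsum hf0
  rw [hD.euler s hs]
  congr 1
  rw [hf] at h1
  rw [← h1]
  refine tprod_congr fun p => ?_
  have hp := p.2
  have hp1 : 1 < (p : ℕ) := hp.one_lt
  have hp0 : (0 : ℝ) < (p : ℕ) := by exact_mod_cast hp.pos
  have hx : Real.sqrt (p : ℕ) * ‖((p : ℕ) : ℂ) ^ (-s)‖ < 1 := by
    rw [Complex.norm_natCast_cpow_of_pos hp.pos, Real.sqrt_eq_rpow, ← Real.rpow_add hp0, neg_re]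
    exact Real.rpow_lt_one_of_one_lt_of_neg (by exact_mod_cast hp1) (by linarith)
  have h2 := tsum_hs n (Real.sqrt_nonneg _) (D.α p) (hD.satake p hp) hx
  rw [← h2]
  refine tsum_congr fun k => ?_
  show hsG (D.α (p : ℕ)) k * (((p : ℕ) : ℂ) ^ (-s)) ^ k =
    D.lam ((p : ℕ) ^ k) * ((((p : ℕ) ^ k : ℕ) : ℂ)) ^ (-s)
  rw [lam_prime_pow D hp, Nat.cast_pow, ← Complex.natCast_cpow_natCast_mul, Complex.cpow_nat_mul]

end Pool.Agent.T2h79.LG.DIR
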