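import Pool.Agent.T2h79.LG.Stm

/-! Dyadic decomposition. -/

set_option autoImplicit false

namespace Pool.Agent.T2h79.LG.DYA

open Pool.Agent.T2h79.LG

theorem sum_M2 (N : ℕ) (a : ℕ → ℂ) (J : ℕ) :
    ∑ m ∈ M2 N J, a m = ∑ j ∈ Finset.range J, ∑ m ∈ Bl N j, a m := by
  induction J with
  | zero =>
    rw [Finset.sum_range_zero]
    refine Finset.sum_eq_zero fun m hm => ?_
    exfalso
    unfold M2 at hm
    rw [Finset.mem_filter, Finset.mem_range, pow_zero] at hm
    omega
  | succ J ih =>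
    rw [Finset.sum_range_succ, ← ih]
    have h1 : M2 N (J + 1) = M2 N J ∪ Bl N J := by
      ext m
      unfold M2 Bl
      simp only [Finset.mem_filter, Finset.mem_range, Finset.mem_union]
      have h2 : 2 ^ J < 2 ^ (J + 1) := Nat.pow_lt_pow_right (by norm_num) (by omega)
      have h3 : 0 < 2 ^ J := by positivity
      constructor
      · rintro ⟨h4, h5, h6⟩
        by_cases h7 : m < 2 ^ J
        · exact Or.inl ⟨h7, h5, h6⟩
        · exact Or.inr ⟨h4, not_lt.1 h7, h6⟩
      · rintro (⟨h4, h5, h6⟩ | ⟨h4, h5, h6⟩)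
        · exact ⟨h4.trans h2, h5, h6⟩
        · exact ⟨h4, by omega, h6⟩
    have h2 : Disjoint (M2 N J) (Bl N J) := by
      rw [Finset.disjoint_left]
      intro m h3 h4
      unfold M2 at h3
      unfold Bl at h4
      rw [Finset.mem_filter, Finset.mem_range] at h3 h4
      omega
    rw [h1, Finset.sum_union h2]

theorem t_DYA : S_dya := by
  intro N J a
  rw [sum_M2]
  have h1 : ‖∑ j ∈ Finset.range J, ∑ m ∈ Bl N j, a m‖ ≤
      ∑ j ∈ Finset.range J, ‖∑ m ∈ Bl N j, a m‖ := norm_sum_le _ _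
  have h2 := sq_sum_le_card_mul_sum_sq (s := Finset.range J) (f := fun j => ‖∑ m ∈ Bl N j, a m‖)
  rw [Finset.card_range] at h2
  exact (pow_le_pow_left₀ (norm_nonneg _) h1 2).trans h2

end Pool.Agent.T2h79.LG.DYA
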