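import Pool.Agent.T2h79.LG.Stm

/-!
# FAC: splitting off the ramified primes
-/

set_option autoImplicit false

open MeasureTheory Matrix
open scoped MatrixGroups ENNReal Topology ComplexConjugate

noncomputable section

namespace Pool.Agent.T2h79.LG.FAC

open Pool.Agent.T2h77.N

theorem lam_mul {n : ℕ} (D : LData n) {a b : ℕ} (h : a.Coprime b) : D.lam (a * b) = D.lam a * D.lam b := by
  unfold LData.lam
  rw [Nat.factorization_mul_of_coprime h]
  exact Finsupp.prod_add_index_of_disjoint (by simpa using h.disjoint_primeFactors) _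

theorem split (N : ℕ) (hN : 0 < N) (m : ℕ) (hm : 0 < m) :
    ∃ a b : ℕ, m = a * b ∧ 0 < a ∧ 0 < b ∧ a.primeFactors ⊆ N.primeFactors ∧ b.Coprime N := by
  induction m using Nat.strong_induction_on with
  | _ m ih =>
    by_cases h : m.Coprime N
    · exact ⟨1, m, by simp, one_pos, hm, by simp, h⟩
    · obtain ⟨p, hp, hpm, hpN⟩ := Nat.Prime.not_coprime_iff_dvd.1 h
      obtain ⟨m', rfl⟩ := hpm
      have hm' : 0 < m' := Nat.pos_of_mul_pos_left hm |> fun _ => by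
        rcases Nat.eq_zero_or_pos m' with h0 | h0
        · subst h0; simp at hm
        · exact h0
      obtain ⟨a, b, hab, ha, hb, h1, h2⟩ := ih m' (by nlinarith [hp.two_le]) hm'
      refine ⟨p * a, b, by rw [hab, mul_assoc], Nat.mul_pos hp.pos ha, hb, ?_, h2⟩
      rw [Nat.primeFactors_mul hp.ne_zero ha.ne', hp.primeFactors]
      intro q hq
      rcases Finset.mem_union.1 hq with hq | hq
      · rw [Finset.mem_singleton] at hq
        subst hq
        exact Nat.mem_primeFactors.2 ⟨hp, hpN, hN.ne'⟩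
      · exact h1 hq

theorem cop {N a b : ℕ} (ha : a.primeFactors ⊆ N.primeFactors) (ha0 : 0 < a) (hb : b.Coprime N) : a.Coprime b := by
  by_contra h
  obtain ⟨p, hp, hpa, hpb⟩ := Nat.Prime.not_coprime_iff_dvd.1 h
  have h1 := ha (Nat.mem_primeFactors.2 ⟨hp, hpa, ha0.ne'⟩)
  have h2 := (Nat.mem_primeFactors.1 h1).2.1
  exact Nat.Prime.not_coprime_iff_dvd.2 ⟨p, hp, hpb, h2⟩ hb

theorem inj {N a b a' b' : ℕ} (ha : a.primeFactors ⊆ N.primeFactors) (ha0 : 0 < a) (hb : b.Coprime N)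
    (ha' : a'.primeFactors ⊆ N.primeFactors) (ha0' : 0 < a') (hb' : b'.Coprime N) (h : a * b = a' * b') :
    a = a' ∧ b = b' := by
  have h1 : a ∣ a' := (cop ha ha0 hb').dvd_of_dvd_mul_right (h ▸ Dvd.intro b rfl)
  have h2 : a' ∣ a := (cop ha' ha0' hb).dvd_of_dvd_mul_right (h.symm ▸ Dvd.intro b' rfl)
  have h3 : a = a' := Nat.dvd_antisymm h1 h2
  subst h3
  exact ⟨rfl, Nat.eq_of_mul_eq_mul_left ha0 h⟩

/-- the function `m ↦ m ^ (-δ)` as a homomorphism -/
def pw (δ : ℝ) (_ : 0 < δ) : ℕ →* ℝ where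
  toFun m := (m : ℝ) ^ (-δ)
  map_one' := by
    show ((1 : ℕ) : ℝ) ^ (-δ) = 1
    rw [Nat.cast_one, Real.one_rpow]
  map_mul' a b := by
    show ((a * b : ℕ) : ℝ) ^ (-δ) = (a : ℝ) ^ (-δ) * (b : ℝ) ^ (-δ)
    rw [Nat.cast_mul, Real.mul_rpow (Nat.cast_nonneg _) (Nat.cast_nonneg _)]

theorem pw_apply (δ : ℝ) (hδ : 0 < δ) (m : ℕ) : pw δ hδ m = (m : ℝ) ^ (-δ) := rfl

theorem pw_lt (δ : ℝ) (hδ : 0 < δ) (p : ℕ) (hp : 2 ≤ p) : (p : ℝ) ^ (-δ) ≤ (2 : ℝ) ^ (-δ) :=
  Real.rpow_le_rpow_of_nonpos (by norm_num) (by exact_mod_cast hp) (by linarith)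

theorem two_lt (δ : ℝ) (hδ : 0 < δ) : (2 : ℝ) ^ (-δ) < 1 :=
  Real.rpow_lt_one_of_one_lt_of_neg (by norm_num) (by linarith)

theorem sum_M1 (δ : ℝ) (hδ : 0 < δ) (N J : ℕ) :
    ∑ m ∈ M1 N J, (m : ℝ) ^ (-δ) ≤ ∏ p ∈ N.primeFactors, (1 - (p : ℝ) ^ (-δ))⁻¹ := by
  have key := (EulerProduct.summable_and_hasSum_factoredNumbers_prod_filter_prime_geometric (f := pw δ hδ)
    (fun {p} hp => by
      rw [pw_apply, Real.norm_of_nonneg (Real.rpow_nonneg (Nat.cast_nonneg _) _)]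
      exact (pw_lt δ hδ p hp.two_le).trans_lt (two_lt δ hδ)) N.primeFactors).2
  have hf : N.primeFactors.filter (fun p => p.Prime) = N.primeFactors :=
    Finset.filter_true_of_mem fun p hp => Nat.prime_of_mem_primeFactors hp
  rw [hf] at key
  have hsub : ∀ m ∈ M1 N J, m ∈ Nat.factoredNumbers N.primeFactors := by
    intro m hm
    have hm := (Finset.mem_filter.1 hm).2
    rw [Nat.mem_factoredNumbers']
    intro p hp hpm
    exact hm.2 (Nat.mem_primeFactors.2 ⟨hp, hpm, hm.1.ne'⟩)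
  have h1 : ∑ m ∈ M1 N J, (m : ℝ) ^ (-δ) =
      ∑ m ∈ (M1 N J).attach.map ⟨fun m => (⟨m.1, hsub m.1 m.2⟩ : Nat.factoredNumbers N.primeFactors),
        fun a b h => Subtype.ext (by simpa using h)⟩, pw δ hδ m := by
    rw [Finset.sum_map, ← Finset.sum_attach]
    rfl
  rw [h1]
  exact sum_le_hasSum _ (fun m _ => by
    rw [pw_apply]; exact Real.rpow_nonneg (Nat.cast_nonneg _) _) key

theorem prod_bd (ε : ℝ) (hε : 0 < ε) : ∃ C : ℝ, 1 ≤ C ∧ ∀ N : ℕ, 0 < N →
    ∏ p ∈ N.primeFactors, (1 - (p : ℝ) ^ (-(ε / 2)))⁻¹ ≤ C * (N : ℝ) ^ ε := by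
  set A : ℝ := (1 - (2 : ℝ) ^ (-(ε / 2)))⁻¹ with hA
  have h2 : (2 : ℝ) ^ (-(ε / 2)) < 1 := two_lt _ (by linarith)
  have h20 : 0 < (2 : ℝ) ^ (-(ε / 2)) := Real.rpow_pos_of_pos (by norm_num) _
  have hA1 : 1 ≤ A := by
    rw [hA]
    exact (one_le_inv₀ (by linarith)).2 (by linarith)
  set P : ℕ := ⌈(2 : ℝ) ^ (2 / ε)⌉₊ with hP
  refine ⟨A ^ P, one_le_pow₀ hA1, fun N hN => ?_⟩
  have hpt : ∀ p ∈ N.primeFactors, (1 - (p : ℝ) ^ (-(ε / 2)))⁻¹ ≤ (if p < P then A else 1) * (p : ℝ) ^ ε := by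
    intro p hp
    have hp' := Nat.prime_of_mem_primeFactors hp
    have hp2 : (2 : ℝ) ≤ p := by exact_mod_cast hp'.two_le
    have hp0 : (0 : ℝ) < p := by linarith
    have hq := pw_lt (ε / 2) (by linarith) p hp'.two_le
    have hge : 1 ≤ (p : ℝ) ^ ε := Real.one_le_rpow (by linarith) hε.le
    split_ifs with h
    · have h3 : (1 - (p : ℝ) ^ (-(ε / 2)))⁻¹ ≤ A := by
        rw [hA]
        exact inv_anti₀ (by linarith) (by linarith)
      nlinarith
    · rw [one_mul]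
      have hpP : (2 : ℝ) ^ (2 / ε) ≤ p := by
        have := Nat.le_ceil ((2 : ℝ) ^ (2 / ε))
        have h4 : ((P : ℕ) : ℝ) ≤ p := by exact_mod_cast not_lt.1 h
        exact this.trans h4
      have hx : 2 ≤ (p : ℝ) ^ (ε / 2) := by
        have h5 : ((2 : ℝ) ^ (2 / ε)) ^ (ε / 2) ≤ (p : ℝ) ^ (ε / 2) :=
          Real.rpow_le_rpow (Real.rpow_nonneg (by norm_num) _) hpP (by linarith)
        rw [← Real.rpow_mul (by norm_num), show 2 / ε * (ε / 2) = 1 by field_simp, Real.rpow_one] at h5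
        exact h5
      have hsq : (p : ℝ) ^ ε = (p : ℝ) ^ (ε / 2) * (p : ℝ) ^ (ε / 2) := by
        rw [← Real.rpow_add hp0]; congr 1; ring
      have hinv : (p : ℝ) ^ (-(ε / 2)) = ((p : ℝ) ^ (ε / 2))⁻¹ := Real.rpow_neg hp0.le _
      rw [inv_le_comm₀ (by linarith) (by positivity), hsq, hinv]
      set x := (p : ℝ) ^ (ε / 2) with hxd
      have hx0 : 0 < x := by linarith
      rw [← sub_nonneg]
      have : 1 - x⁻¹ - (x * x)⁻¹ = (x * x - x - 1) / (x * x) := by field_simp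
      rw [this]
      apply div_nonneg (by nlinarith) (by positivity)
  calc ∏ p ∈ N.primeFactors, (1 - (p : ℝ) ^ (-(ε / 2)))⁻¹
      ≤ ∏ p ∈ N.primeFactors, ((if p < P then A else 1) * (p : ℝ) ^ ε) := by
        refine Finset.prod_le_prod (fun p hp => ?_) hpt
        have hp' := Nat.prime_of_mem_primeFactors hp
        have hq := pw_lt (ε / 2) (by linarith) p hp'.two_le
        exact inv_nonneg.2 (by linarith)
    _ = (∏ p ∈ N.primeFactors, (if p < P then A else 1)) * ∏ p ∈ N.primeFactors, (p : ℝ) ^ ε :=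
        Finset.prod_mul_distrib
    _ ≤ A ^ P * (N : ℝ) ^ ε := by
        have e1 : ∏ p ∈ N.primeFactors, (if p < P then A else 1) ≤ A ^ P := by
          rw [Finset.prod_ite, Finset.prod_const, Finset.prod_const_one, mul_one]
          refine pow_le_pow_right₀ hA1 ?_
          calc (N.primeFactors.filter fun p => p < P).card ≤ (Finset.range P).card :=
                Finset.card_le_card fun p hp => Finset.mem_range.2 (Finset.mem_filter.1 hp).2
            _ = P := Finset.card_range P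
        have e2 : ∏ p ∈ N.primeFactors, (p : ℝ) ^ ε ≤ (N : ℝ) ^ ε := by
          rw [Real.finsetProd_rpow _ _ (fun p _ => Nat.cast_nonneg p)]
          refine Real.rpow_le_rpow (Finset.prod_nonneg fun p _ => Nat.cast_nonneg p) ?_ hε.le
          have := Nat.le_of_dvd hN (Nat.prod_primeFactors_dvd N)
          rw [← Nat.cast_prod]
          exact Nat.cast_le.2 this
        exact mul_le_mul e1 e2 (Finset.prod_nonneg fun p _ => Real.rpow_nonneg (Nat.cast_nonneg _) _)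
          (by positivity)

theorem t_FAC (hL : S_lam) : S_fac := by
  intro n ε hε
  obtain ⟨C₀, hC₀, h₀⟩ := hL n (ε / 2) (by linarith)
  obtain ⟨C₁, hC₁, h₁⟩ := prod_bd ε hε
  refine ⟨C₀ * C₁, by nlinarith, fun N J hN => ?_⟩
  refine ⟨(M1 N J ×ˢ M2 N J).image fun x => x.1 * x.2, ?_, ?_, ?_⟩
  · intro m hm
    obtain ⟨x, hx, rfl⟩ := Finset.mem_image.1 hm
    rw [Finset.mem_product] at hx
    exact Nat.mul_pos (Finset.mem_filter.1 hx.1).2.1 (Finset.mem_filter.1 hx.2).2.1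
  · intro m hm hmJ
    obtain ⟨a, b, hab, ha, hb, h1, h2⟩ := split N hN m hm
    refine Finset.mem_image.2 ⟨(a, b), Finset.mem_product.2 ⟨?_, ?_⟩, hab.symm⟩
    · refine Finset.mem_filter.2 ⟨Finset.mem_range.2 (lt_of_le_of_lt ?_ hmJ), ha, h1⟩
      rw [hab]; exact Nat.le_mul_of_pos_right a hb
    · refine Finset.mem_filter.2 ⟨Finset.mem_range.2 (lt_of_le_of_lt ?_ hmJ), hb, h2⟩
      rw [hab]; exact Nat.le_mul_of_pos_left b ha
  · intro D hD v
    set s : ℂ := ((1 / 2 + ε : ℝ) + v * Complex.I) with hs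
    have hinj : Set.InjOn (fun x : ℕ × ℕ => x.1 * x.2) (M1 N J ×ˢ M2 N J : Finset (ℕ × ℕ)) := by
      intro x hx y hy hxy
      rw [Finset.mem_coe, Finset.mem_product] at hx hy
      obtain ⟨hx1, hx2⟩ := hx
      obtain ⟨hy1, hy2⟩ := hy
      have a1 := (Finset.mem_filter.1 hx1).2
      have a2 := (Finset.mem_filter.1 hx2).2
      have b1 := (Finset.mem_filter.1 hy1).2
      have b2 := (Finset.mem_filter.1 hy2).2
      obtain ⟨e1, e2⟩ := inj a1.2 a1.1 a2.2 b1.2 b1.1 b2.2 hxy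
      exact Prod.ext e1 e2
    rw [Finset.sum_image hinj, Finset.sum_product]
    have hterm : ∀ a ∈ M1 N J, ∀ b ∈ M2 N J, D.lam (a * b) * ((a * b : ℕ) : ℂ) ^ (-s) =
        (D.lam a * (a : ℂ) ^ (-s)) * (D.lam b * (b : ℂ) ^ (-s)) := by
      intro a ha b hb
      have a1 := (Finset.mem_filter.1 ha).2
      have a2 := (Finset.mem_filter.1 hb).2
      rw [lam_mul D (cop a1.2 a1.1 a2.2), Nat.cast_mul, Complex.natCast_mul_natCast_cpow]
      ring
    rw [Finset.sum_congr rfl fun a ha => Finset.sum_congr rfl fun b hb => hterm a ha b hb]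
    rw [← Finset.sum_mul_sum, norm_mul]
    refine mul_le_mul_of_nonneg_right ?_ (norm_nonneg _)
    calc ‖∑ a ∈ M1 N J, D.lam a * (a : ℂ) ^ (-s)‖ ≤ ∑ a ∈ M1 N J, ‖D.lam a * (a : ℂ) ^ (-s)‖ := norm_sum_le _ _
      _ ≤ ∑ a ∈ M1 N J, C₀ * (a : ℝ) ^ (-(ε / 2)) := by
          refine Finset.sum_le_sum fun a ha => ?_
          have a1 := (Finset.mem_filter.1 ha).2.1
          have a0 : (0 : ℝ) < a := by exact_mod_cast a1
          rw [norm_mul, Complex.norm_natCast_cpow_of_pos a1]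
          have hre : (-s).re = -(1 / 2 + ε) := by
            rw [hs]; simp
          rw [hre]
          calc ‖D.lam a‖ * (a : ℝ) ^ (-(1 / 2 + ε)) ≤ (C₀ * (a : ℝ) ^ (1 / 2 + ε / 2)) * (a : ℝ) ^ (-(1 / 2 + ε)) :=
                mul_le_mul_of_nonneg_right (h₀ D hD a a1) (Real.rpow_nonneg a0.le _)
            _ = C₀ * (a : ℝ) ^ (-(ε / 2)) := by
                rw [mul_assoc, ← Real.rpow_add a0]; congr 2; ring
      _ = C₀ * ∑ a ∈ M1 N J, (a : ℝ) ^ (-(ε / 2)) := by rw [Finset.mul_sum]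
      _ ≤ C₀ * (C₁ * (N : ℝ) ^ ε) :=
          mul_le_mul_of_nonneg_left ((sum_M1 _ (by linarith) N J).trans (h₁ N hN)) (by linarith)
      _ = C₀ * C₁ * (N : ℝ) ^ ε := by ring

end Pool.Agent.T2h79.LG.FAC
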