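import Pool.Agent.T2h79.LG.Stm

/-!
# FEQ: the functional equation and the contour shift
-/

set_option autoImplicit false

open MeasureTheory Matrix
open scoped MatrixGroups ENNReal Topology ComplexConjugate

noncomputable section

namespace Pool.Agent.T2h79.LG.FEQ

open Pool.Agent.T2h77.N Complex

/-! ### The constant -/

theorem gauss (u : ℝ) : ∫ v : ℝ, cexp ((2 + v * I) ^ 2 - (2 + v * I) * u) =
    cexp (-(1 / 4 : ℝ) * (u : ℂ) ^ 2) * (Real.pi : ℂ) ^ (1 / 2 : ℂ) := by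
  have h := GaussianFourier.integral_cexp_neg_mul_sq_add_real_mul_I (b := 1) (by simp) (-(2 - u / 2))
  rw [div_one] at h
  rw [← h, ← integral_const_mul]
  congr 1
  funext v
  rw [← Complex.exp_add]
  congr 1
  push_cast
  have hI : I ^ 2 = -1 := Complex.I_sq
  linear_combination ((v : ℂ) ^ 2 + (2 - u / 2) ^ 2) * hI

theorem norm_kern (v u : ℝ) : ‖cexp ((2 + v * I) ^ 2 - (2 + v * I) * u)‖ = Real.exp (4 - v ^ 2) * Real.exp (-2 * u) := by
  rw [Complex.norm_exp, ← Real.exp_add]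
  congr 1
  have : ((2 + v * I) ^ 2 - (2 + v * I) * u : ℂ) = ((4 - v ^ 2 - 2 * u : ℝ) : ℂ) + ((4 * v - v * u : ℝ) : ℂ) * I := by
    push_cast
    have hI : I ^ 2 = -1 := Complex.I_sq
    linear_combination (v ^ 2 : ℂ) * hI
  rw [this]
  simp only [Complex.add_re, Complex.ofReal_re, Complex.mul_re, Complex.I_re, Complex.ofReal_im, Complex.I_im]
  ring

theorem int_gauss : Integrable (fun v : ℝ => Real.exp (4 - v ^ 2)) := by
  have h := (integrable_exp_neg_mul_sq (b := 1) one_pos).const_mul (Real.exp 4)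
  refine h.congr (Filter.Eventually.of_forall fun v => ?_)
  show Real.exp 4 * Real.exp (-1 * v ^ 2) = Real.exp (4 - v ^ 2)
  rw [← Real.exp_add]
  congr 1
  ring

theorem kappa : ∫ v : ℝ, cexp ((2 + v * I) ^ 2) / (2 + v * I) ≠ 0 := by
  have h1 : ∀ v : ℝ, cexp ((2 + v * I) ^ 2) / (2 + v * I) =
      ∫ u in Set.Ioi (0 : ℝ), cexp ((2 + v * I) ^ 2 - (2 + v * I) * u) := by
    intro v
    have h := integral_exp_mul_complex_Ioi (a := -(2 + v * I)) (by simp) 0
    have e : ∀ u : ℝ, cexp ((2 + v * I) ^ 2 - (2 + v * I) * u) = cexp ((2 + v * I) ^ 2) * cexp (-(2 + v * I) * u) := by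
      intro u
      rw [← Complex.exp_add]
      congr 1
      ring
    simp_rw [e]
    rw [integral_const_mul, h]
    simp only [Complex.ofReal_zero, mul_zero, Complex.exp_zero]
    rw [div_eq_mul_inv]
    congr 1
    rw [neg_div_neg_eq, one_div]
  simp_rw [h1]
  rw [integral_integral_swap]
  · simp_rw [gauss]
    rw [integral_mul_const]
    refine mul_ne_zero ?_ ?_
    · have : ∀ u : ℝ, cexp (-(1 / 4 : ℝ) * (u : ℂ) ^ 2) = ((Real.exp (-(1 / 4) * u ^ 2) : ℝ) : ℂ) := by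
        intro u
        push_cast
        rfl
      simp_rw [this]
      rw [integral_complex_ofReal, integral_gaussian_Ioi]
      have : (0 : ℝ) < Real.sqrt (Real.pi / (1 / 4)) / 2 := by positivity
      exact_mod_cast this.ne'
    · rw [Complex.cpow_def_of_ne_zero (by exact_mod_cast Real.pi_ne_zero)]
      exact Complex.exp_ne_zero _
  · have hp : Integrable (fun z : ℝ × ℝ => Real.exp (4 - z.1 ^ 2) * Real.exp (-2 * z.2))
        ((volume : Measure ℝ).prod (volume.restrict (Set.Ioi 0))) :=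
      int_gauss.mul_prod (integrableOn_exp_mul_Ioi (by norm_num) 0)
    refine hp.mono' ?_ (Filter.Eventually.of_forall fun z => ?_)
    · refine Continuous.aestronglyMeasurable ?_
      unfold Function.uncurry
      fun_prop
    · show ‖cexp ((2 + z.1 * I) ^ 2 - (2 + z.1 * I) * z.2)‖ ≤ _
      rw [norm_kern]

/-! ### Growth -/

theorem exp_sq_norm (c v : ℝ) : ‖cexp ((c + v * I) ^ 2)‖ = Real.exp (c ^ 2 - v ^ 2) := by
  rw [Complex.norm_exp]
  congr 1
  have : ((c + v * I) ^ 2 : ℂ) = ((c ^ 2 - v ^ 2 : ℝ) : ℂ) + ((2 * c * v : ℝ) : ℂ) * I := by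
    push_cast
    have hI : I ^ 2 = -1 := Complex.I_sq
    linear_combination (v ^ 2 : ℂ) * hI
  rw [this]
  simp only [Complex.add_re, Complex.ofReal_re, Complex.mul_re, Complex.I_re, Complex.ofReal_im, Complex.I_im]
  ring

theorem norm_ge (c v : ℝ) : |c| ≤ ‖(c + v * I : ℂ)‖ := by
  have := Complex.abs_re_le_norm (c + v * I)
  simpa using this

/-- integrability on a vertical line -/
theorem int_line (G : ℂ → ℂ) (hG : Continuous G) (c K A : ℝ) (hc : 1 ≤ |c|)
    (hb : ∀ v : ℝ, ‖G (c + v * I)‖ ≤ K * Real.exp (A * |v|)) :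
    Integrable (fun v : ℝ => G (c + v * I) * cexp ((c + v * I) ^ 2) / (c + v * I)) := by
  have hne : ∀ v : ℝ, (c + v * I : ℂ) ≠ 0 := fun v => by
    intro h
    have := norm_ge c v
    rw [h, norm_zero] at this
    linarith
  have hK : 0 ≤ K := by
    have := (norm_nonneg _).trans (hb 0)
    simpa using this
  have h := (integrable_exp_neg_mul_sq (b := 1 / 2) (by norm_num)).const_mul (K * Real.exp (c ^ 2 + A ^ 2 / 2))
  refine h.mono' (Continuous.aestronglyMeasurable ?_) (Filter.Eventually.of_forall fun v => ?_)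
  · refine Continuous.div ?_ (by fun_prop) hne
    refine Continuous.mul (hG.comp (by fun_prop)) (by fun_prop)
  · rw [norm_div, norm_mul, exp_sq_norm]
    have h1 : 1 ≤ ‖(c + v * I : ℂ)‖ := hc.trans (norm_ge c v)
    calc ‖G (c + v * I)‖ * Real.exp (c ^ 2 - v ^ 2) / ‖(c + v * I : ℂ)‖
        ≤ ‖G (c + v * I)‖ * Real.exp (c ^ 2 - v ^ 2) := div_le_self (by positivity) h1
      _ ≤ (K * Real.exp (A * |v|)) * Real.exp (c ^ 2 - v ^ 2) :=
          mul_le_mul_of_nonneg_right (hb v) (Real.exp_pos _).le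
      _ = K * Real.exp (A * |v| + (c ^ 2 - v ^ 2)) := by rw [Real.exp_add]; ring
      _ ≤ K * Real.exp ((c ^ 2 + A ^ 2 / 2) + (-(1 / 2) * v ^ 2)) := by
          refine mul_le_mul_of_nonneg_left (Real.exp_le_exp.2 ?_) hK
          nlinarith [sq_nonneg (A - |v|), sq_abs v]
      _ = K * Real.exp (c ^ 2 + A ^ 2 / 2) * Real.exp (-(1 / 2) * v ^ 2) := by rw [Real.exp_add]; ring

/-- the contour shift for an entire function of moderate growth, with the kernel `exp (w ^ 2) / w` -/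
theorem shift (hS : S_shf) (G : ℂ → ℂ) (hG : Differentiable ℂ G) (K A : ℝ) (hA : 0 ≤ A)
    (hb : ∀ w : ℂ, -2 ≤ w.re → w.re ≤ 2 → ‖G w‖ ≤ K * Real.exp (A * |w.im|)) :
    (∫ v : ℝ, G (2 + v * I) * cexp ((2 + v * I) ^ 2) / (2 + v * I)) -
      (∫ v : ℝ, G (-2 + v * I) * cexp ((-2 + v * I) ^ 2) / (-2 + v * I)) =
      2 * (∫ v : ℝ, cexp ((2 + v * I) ^ 2) / (2 + v * I)) * G 0 := by
  have hd : Differentiable ℂ (dslope G 0) := by
    rw [← differentiableOn_univ] at hG ⊢
    exact (Complex.differentiableOn_dslope Filter.univ_mem).2 hG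
  obtain ⟨B, hB⟩ := (isCompact_closedBall (0 : ℂ) 1).exists_bound_of_continuousOn hd.continuous.continuousOn
  set L : ℝ := 1 + (|B| + |K| + ‖G 0‖) with hL
  have hL1 : 1 ≤ L := by rw [hL]; linarith [abs_nonneg B, abs_nonneg K, norm_nonneg (G 0)]
  have hbd : ∀ w : ℂ, -2 ≤ w.re → w.re ≤ 2 → ‖dslope G 0 w‖ ≤ L * Real.exp (A * |w.im|) := by
    intro w h1 h2
    have he : 1 ≤ Real.exp (A * |w.im|) := Real.one_le_exp (by positivity)
    rcases le_total ‖w‖ 1 with h | h
    · have := hB w (by simpa using h)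
      have : ‖dslope G 0 w‖ ≤ L := by
        rw [hL]; linarith [le_abs_self B, abs_nonneg K, norm_nonneg (G 0)]
      nlinarith
    · have hw : w ≠ 0 := by
        intro h0; rw [h0, norm_zero] at h; linarith
      rw [dslope_of_ne _ hw, slope_def_field, sub_zero, norm_div]
      calc ‖G w - G 0‖ / ‖w‖ ≤ ‖G w - G 0‖ := div_le_self (norm_nonneg _) h
        _ ≤ ‖G w‖ + ‖G 0‖ := norm_sub_le _ _
        _ ≤ K * Real.exp (A * |w.im|) + ‖G 0‖ * Real.exp (A * |w.im|) := by
            have := hb w h1 h2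
            nlinarith [norm_nonneg (G 0)]
        _ ≤ L * Real.exp (A * |w.im|) := by
            rw [← add_mul, hL]
            refine mul_le_mul_of_nonneg_right ?_ (by positivity)
            linarith [le_abs_self K, abs_nonneg B]
  have hbd2 : ∀ w : ℂ, -2 ≤ w.re → w.re ≤ 2 → ‖dslope G 0 w‖ ≤ Real.exp ((A + Real.log L) * (1 + |w.im|)) := by
    intro w h1 h2
    refine (hbd w h1 h2).trans ?_
    have hl : 0 ≤ Real.log L := Real.log_nonneg hL1
    calc L * Real.exp (A * |w.im|) = Real.exp (Real.log L + A * |w.im|) := by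
          rw [Real.exp_add, Real.exp_log (by linarith)]
      _ ≤ _ := by
          refine Real.exp_le_exp.2 ?_
          nlinarith [abs_nonneg w.im, mul_nonneg hl (abs_nonneg w.im)]
  have key := hS (-2) 2 (A + Real.log L) (dslope G 0) (by norm_num) (fun w _ _ => hd w) hbd2
  have hsl : ∀ (c v : ℝ), 1 ≤ |c| → dslope G 0 (c + v * I) * cexp ((c + v * I) ^ 2) =
      G (c + v * I) * cexp ((c + v * I) ^ 2) / (c + v * I) - G 0 * (1 * cexp ((c + v * I) ^ 2) / (c + v * I)) := by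
    intro c v hc
    have hw : (c + v * I : ℂ) ≠ 0 := by
      intro h
      have := norm_ge c v
      rw [h, norm_zero] at this
      linarith
    rw [dslope_of_ne _ hw, slope_def_field, sub_zero]
    field_simp
  have i1 := int_line G hG.continuous 2 K A (by norm_num) (fun v => by
    have := hb (2 + v * I) (by simp) (by simp)
    simpa using this)
  have i2 := int_line G hG.continuous (-2) K A (by norm_num) (fun v => by
    have := hb (-2 + v * I) (by simp) (by simp)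
    simpa using this)
  have j1 := int_line (fun _ => 1) continuous_const 2 1 0 (by norm_num) (fun v => by simp)
  have j2 := int_line (fun _ => 1) continuous_const (-2) 1 0 (by norm_num) (fun v => by simp)
  have k1 : ∫ v : ℝ, dslope G 0 (((-2 : ℝ) : ℂ) + v * I) * cexp ((((-2 : ℝ) : ℂ) + v * I) ^ 2) =
      (∫ v : ℝ, G (((-2 : ℝ) : ℂ) + v * I) * cexp ((((-2 : ℝ) : ℂ) + v * I) ^ 2) / (((-2 : ℝ) : ℂ) + v * I)) -
      G 0 * ∫ v : ℝ, 1 * cexp ((((-2 : ℝ) : ℂ) + v * I) ^ 2) / (((-2 : ℝ) : ℂ) + v * I) := by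
    simp_rw [hsl (-2) _ (by norm_num)]
    rw [integral_sub i2 (j2.const_mul _), integral_const_mul]
  have k2 : ∫ v : ℝ, dslope G 0 (((2 : ℝ) : ℂ) + v * I) * cexp ((((2 : ℝ) : ℂ) + v * I) ^ 2) =
      (∫ v : ℝ, G (((2 : ℝ) : ℂ) + v * I) * cexp ((((2 : ℝ) : ℂ) + v * I) ^ 2) / (((2 : ℝ) : ℂ) + v * I)) -
      G 0 * ∫ v : ℝ, 1 * cexp ((((2 : ℝ) : ℂ) + v * I) ^ 2) / (((2 : ℝ) : ℂ) + v * I) := by
    simp_rw [hsl 2 _ (by norm_num)]
    rw [integral_sub i1 (j1.const_mul _), integral_const_mul]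
  rw [k1, k2] at key
  have hneg : ∫ v : ℝ, 1 * cexp ((((-2 : ℝ) : ℂ) + v * I) ^ 2) / (((-2 : ℝ) : ℂ) + v * I) =
      -∫ v : ℝ, 1 * cexp ((((2 : ℝ) : ℂ) + v * I) ^ 2) / (((2 : ℝ) : ℂ) + v * I) := by
    rw [← integral_neg_eq_self, ← integral_neg]
    congr 1
    funext v
    have e1 : (((-2 : ℝ) : ℂ) + ((-v : ℝ) : ℂ) * I) = -(((2 : ℝ) : ℂ) + v * I) := by push_cast; ring
    rw [e1, neg_sq, div_neg]
  rw [hneg] at key
  simp only [one_mul] at key
  push_cast at key
  linear_combination -key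

/-! ### The functional equation -/

theorem t_FEQ (hS : S_shf) : S_feq := by
  set κ : ℂ := ∫ v : ℝ, cexp ((2 + v * I) ^ 2) / (2 + v * I) with hκ
  have hκ0 : 0 < ‖κ‖ := norm_pos_iff.2 kappa
  refine ⟨1 + ‖κ‖⁻¹, by have := inv_pos.2 hκ0; linarith, fun n D hD t => ?_⟩
  have hq0 : (0 : ℝ) < D.q := by have := hD.one_le; linarith
  have hqc : (D.q : ℂ) ≠ 0 := by exact_mod_cast hq0.ne'
  set s₀ : ℂ := 1 / 2 + t * I with hs₀
  obtain ⟨G, hG⟩ : ∃ G : ℂ → ℂ, G = fun w => (D.q : ℂ) ^ (w / 2) * D.Λ (s₀ + w) := ⟨_, rfl⟩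
  have hGd : Differentiable ℂ G := by
    rw [hG]
    refine Differentiable.mul ?_ ?_
    · refine Differentiable.const_cpow (by fun_prop) (Or.inl hqc)
    · exact hD.entire.comp (by fun_prop)
  obtain ⟨M, hM⟩ := hD.bdd (-3 / 2) (5 / 2)
  have hgr : ∀ w : ℂ, -2 ≤ w.re → w.re ≤ 2 → ‖G w‖ ≤ (D.q * Real.exp (|M| * (1 + |t|))) * Real.exp (|M| * |w.im|) := by
    intro w h1 h2
    have hs : (s₀ + w).im = t + w.im := by rw [hs₀]; simp
    have hsr : (s₀ + w).re = 1 / 2 + w.re := by rw [hs₀]; simp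
    have a1 : ‖(D.q : ℂ) ^ (w / 2)‖ ≤ D.q := by
      rw [Complex.norm_cpow_eq_rpow_re_of_pos hq0]
      have : (w / 2).re ≤ 1 := by
        rw [show (w / 2).re = w.re / 2 by simp]
        linarith
      calc D.q ^ (w / 2).re ≤ D.q ^ (1 : ℝ) := Real.rpow_le_rpow_of_exponent_le hD.one_le this
        _ = D.q := Real.rpow_one _
    have a2 : ‖D.Λ (s₀ + w)‖ ≤ Real.exp (|M| * (1 + |t|)) * Real.exp (|M| * |w.im|) := by
      refine (hM (s₀ + w) (by rw [hsr]; linarith) (by rw [hsr]; linarith)).trans ?_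
      rw [← Real.exp_add, hs]
      refine Real.exp_le_exp.2 ?_
      have := abs_add_le t w.im
      calc M * (1 + |t + w.im|) ≤ |M| * (1 + |t + w.im|) :=
            mul_le_mul_of_nonneg_right (le_abs_self M) (by positivity)
        _ ≤ |M| * (1 + (|t| + |w.im|)) := by
            refine mul_le_mul_of_nonneg_left (by linarith) (abs_nonneg M)
        _ = _ := by ring
    rw [hG]
    simp only
    rw [norm_mul]
    calc ‖(D.q : ℂ) ^ (w / 2)‖ * ‖D.Λ (s₀ + w)‖ ≤ D.q * (Real.exp (|M| * (1 + |t|)) * Real.exp (|M| * |w.im|)) :=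
          mul_le_mul a1 a2 (norm_nonneg _) hq0.le
      _ = _ := by ring
  have key := shift hS G hGd _ _ (abs_nonneg M) hgr
  rw [← hκ] at key
  have hG0 : G 0 = D.Λ s₀ := by rw [hG]; simp
  set u : ℂ := D.w * (D.q : ℂ) ^ (-(t * I)) with hu
  have hun : ‖u‖ = 1 := by
    rw [hu, norm_mul, hD.w_norm, one_mul, Complex.norm_cpow_eq_rpow_re_of_pos hq0]
    simp
  have hsym : ∀ w : ℂ, G w = u * conj (G (-conj w)) := by
    intro w
    rw [hG]
    simp only
    rw [hD.fe (s₀ + w), map_mul]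
    have e1 : 1 - conj (s₀ + w) = s₀ + -conj w := by
      rw [hs₀, map_add, map_add, map_mul, Complex.conj_I, Complex.conj_ofReal, map_div₀, map_one, map_ofNat]
      ring
    have e2 : conj ((D.q : ℂ) ^ (-conj w / 2)) = (D.q : ℂ) ^ (-w / 2) := by
      have harg : ((D.q : ℂ)).arg ≠ Real.pi := by
        rw [Complex.arg_ofReal_of_nonneg hq0.le]
        exact Real.pi_ne_zero.symm
      have := Complex.cpow_conj (D.q : ℂ) (-w / 2) harg
      rw [Complex.conj_ofReal] at this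
      rw [show -conj w / 2 = conj (-w / 2) by rw [map_div₀, map_neg, map_ofNat]]
      rw [this, Complex.conj_conj]
    rw [e1, e2, hu]
    have e3 : (D.q : ℂ) ^ (w / 2) * (D.q : ℂ) ^ (1 / 2 - (s₀ + w)) = (D.q : ℂ) ^ (-(t * I)) * (D.q : ℂ) ^ (-w / 2) := by
      rw [← Complex.cpow_add _ _ hqc, ← Complex.cpow_add _ _ hqc]
      congr 1
      rw [hs₀]
      ring
    linear_combination (D.w * conj (D.Λ (s₀ + -conj w))) * e3
  have hJ : ∫ v : ℝ, G (-2 + v * I) * cexp ((-2 + v * I) ^ 2) / (-2 + v * I) =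
      -u * conj (∫ v : ℝ, G (2 + v * I) * cexp ((2 + v * I) ^ 2) / (2 + v * I)) := by
    rw [← integral_conj, ← integral_const_mul]
    congr 1
    funext v
    rw [hsym (-2 + v * I)]
    have e1 : -conj (-2 + v * I : ℂ) = 2 + v * I := by
      rw [map_add, map_mul, Complex.conj_I, Complex.conj_ofReal, map_neg, map_ofNat]
      ring
    have e2 : conj (2 + v * I : ℂ) = -(-2 + v * I) := by
      rw [map_add, map_mul, Complex.conj_I, Complex.conj_ofReal, map_ofNat]
      ring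
    rw [e1, map_div₀, map_mul, ← Complex.exp_conj, map_pow, e2, neg_sq, div_neg]
    ring
  have hfin : 2 * κ * D.Λ s₀ = (∫ v : ℝ, G (2 + v * I) * cexp ((2 + v * I) ^ 2) / (2 + v * I)) +
      u * conj (∫ v : ℝ, G (2 + v * I) * cexp ((2 + v * I) ^ 2) / (2 + v * I)) := by
    rw [← hG0, ← key, hJ]
    ring
  set J : ℂ := ∫ v : ℝ, G (2 + v * I) * cexp ((2 + v * I) ^ 2) / (2 + v * I) with hJd
  have hn : 2 * ‖κ‖ * ‖D.Λ s₀‖ ≤ 2 * ‖J‖ := by
    have := congrArg norm hfin
    rw [norm_mul, norm_mul, Complex.norm_ofNat] at this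
    rw [this]
    refine (norm_add_le _ _).trans ?_
    rw [norm_mul, hun, one_mul, Complex.norm_conj]
    linarith
  have hJJ : J = ∫ v : ℝ, (D.q : ℂ) ^ ((2 + v * Complex.I) / 2) *
      D.Λ (s₀ + (2 + v * Complex.I)) * Complex.exp ((2 + v * Complex.I) ^ 2) / (2 + v * Complex.I) := by rw [hJd, hG]
  rw [← hJJ]
  have : ‖D.Λ s₀‖ ≤ ‖κ‖⁻¹ * ‖J‖ := by
    rw [inv_mul_eq_div, le_div_iff₀ hκ0]
    linarith
  nlinarith [norm_nonneg J]

end Pool.Agent.T2h79.LG.FEQ
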