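import Pool.Agent.T2h79.LG.Stm
import Pool.Agent.N846.LM.Gams
import Pool.Agent.H353R6.E9

/-! Quotients of the Gamma factors. -/

set_option autoImplicit false

open Complex

namespace Pool.Agent.T2h79.LG.GAM

open Pool.Agent.T2h79.LG

theorem dig_im' {s : ℂ} (hs : 1 / 4 ≤ s.re) : |(logDeriv Gamma s).im| ≤ 11 :=
  H353.E.dig_im hs

/-- vertical shifts, to the right of `1 / 4` -/
theorem gamma_shift {s : ℂ} (hs : 1 / 4 ≤ s.re) (v : ℝ) :
    ‖Gamma (s + v * I)‖ ≤ Real.exp (11 * |v|) * ‖Gamma s‖ := by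
  have hre : ∀ y : ℝ, (s + y * I).re = s.re := fun y => by simp
  have hne : ∀ y : ℝ, Gamma (s + y * I) ≠ 0 := fun y =>
    Gamma_ne_zero_of_re_pos (by rw [hre]; linarith)
  -- the logarithm of the absolute value
  obtain ⟨h, hh⟩ : ∃ h : ℝ → ℝ, h = fun y : ℝ => Real.log (‖Gamma (s + y * I)‖ ^ 2) := ⟨_, rfl⟩
  have hder : ∀ y : ℝ, HasDerivAt h (2 * (I * logDeriv Gamma (s + y * I)).re) y := by
    intro y
    have h1 : HasDerivAt (fun y : ℝ => (s + y * I : ℂ)) I y := by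
      have := ((hasDerivAt_id y).ofReal_comp.mul_const I).const_add s
      simpa using this
    have h2 : DifferentiableAt ℂ Gamma (s + y * I) := by
      refine differentiableAt_Gamma _ fun m hm => ?_
      have := congrArg Complex.re hm
      rw [hre, neg_re, natCast_re] at this
      have h3 : (0 : ℝ) ≤ m := Nat.cast_nonneg m
      linarith
    have h3 : HasDerivAt (fun y : ℝ => Gamma (s + y * I)) (deriv Gamma (s + y * I) * I) y :=
      HasDerivAt.comp y h2.hasDerivAt h1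
    have h4 := h3.norm_sq
    have h5 := h4.log (by
      have := hne y
      positivity)
    rw [hh]
    refine h5.congr_deriv ?_
    have h6 : 0 < ‖Gamma (s + y * I)‖ ^ 2 := by
      have := hne y
      positivity
    rw [div_eq_iff h6.ne']
    have h7 : (inner ℝ (Gamma (s + y * I)) (deriv Gamma (s + y * I) * I) : ℝ) =
        (I * logDeriv Gamma (s + y * I)).re * ‖Gamma (s + y * I)‖ ^ 2 := by
      have h8 : deriv Gamma (s + y * I) * I =
          (I * logDeriv Gamma (s + y * I)) * Gamma (s + y * I) := by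
        rw [logDeriv_apply]
        field_simp [hne y]
      rw [h8, Complex.inner, mul_assoc, Complex.mul_conj, Complex.normSq_eq_norm_sq,
        Complex.re_mul_ofReal]
    rw [h7]
    ring
  have hb : ∀ y : ℝ, ‖2 * (I * logDeriv Gamma (s + y * I)).re‖ ≤ 22 := by
    intro y
    have h1 := dig_im' (s := s + y * I) (by rw [hre]; exact hs)
    have h2 : (I * logDeriv Gamma (s + y * I)).re = -(logDeriv Gamma (s + y * I)).im := by
      simp
    rw [h2, Real.norm_eq_abs, abs_mul, abs_neg, abs_two]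
    linarith
  have h1 := Convex.norm_image_sub_le_of_norm_hasDerivWithin_le (f := h)
    (f' := fun y => 2 * (I * logDeriv Gamma (s + y * I)).re) (s := Set.univ) (x := 0) (y := v)
    (C := 22) (fun y _ => (hder y).hasDerivWithinAt) (fun y _ => hb y) convex_univ
    (Set.mem_univ _) (Set.mem_univ _)
  rw [sub_zero, Real.norm_eq_abs, Real.norm_eq_abs, hh] at h1
  simp only [ofReal_zero, zero_mul, add_zero] at h1
  have p0 : 0 < ‖Gamma s‖ := by
    have := hne 0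
    simp only [ofReal_zero, zero_mul, add_zero] at this
    positivity
  have pv : 0 < ‖Gamma (s + v * I)‖ := by
    have := hne v
    positivity
  rw [Real.log_pow, Real.log_pow] at h1
  push_cast at h1
  have h2 := (abs_le.1 h1).2
  have h3 : Real.log ‖Gamma (s + v * I)‖ ≤ 11 * |v| + Real.log ‖Gamma s‖ := by linarith
  calc ‖Gamma (s + v * I)‖ = Real.exp (Real.log ‖Gamma (s + v * I)‖) := (Real.exp_log pv).symm
    _ ≤ Real.exp (11 * |v| + Real.log ‖Gamma s‖) := Real.exp_le_exp.2 h3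
    _ = Real.exp (11 * |v|) * ‖Gamma s‖ := by rw [Real.exp_add, Real.exp_log p0]

/-- vertical shifts -/
theorem gamma_shift' {s : ℂ} {b : ℝ} (hb : 0 < b) (hs : b ≤ s.re) (v : ℝ) :
    ‖Gamma (s + v * I)‖ ≤ ‖s‖ / b * (Real.exp (11 * |v|) * ‖Gamma s‖) := by
  have h1 := gamma_shift (s := s + 1) (by rw [add_re, one_re]; linarith) v
  have hs0 : s ≠ 0 := by
    rintro rfl
    rw [zero_re] at hs
    linarith
  have hsv : s + v * I ≠ 0 := by
    intro h
    have := congrArg Complex.re h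
    simp at this
    linarith
  have e1 : s + 1 + v * I = (s + v * I) + 1 := by ring
  rw [e1, Gamma_add_one _ hsv, Gamma_add_one _ hs0, norm_mul, norm_mul] at h1
  have h2 : b ≤ ‖s + v * I‖ := by
    refine hs.trans ?_
    have := re_le_norm (s + v * I)
    simpa using this
  have h3 : b * ‖Gamma (s + v * I)‖ ≤ ‖s + v * I‖ * ‖Gamma (s + v * I)‖ :=
    mul_le_mul_of_nonneg_right h2 (norm_nonneg _)
  rw [div_mul_eq_mul_div, le_div_iff₀ hb]
  calc ‖Gamma (s + v * I)‖ * b = b * ‖Gamma (s + v * I)‖ := mul_comm _ _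
    _ ≤ ‖s + v * I‖ * ‖Gamma (s + v * I)‖ := h3
    _ ≤ Real.exp (11 * |v|) * (‖s‖ * ‖Gamma s‖) := h1
    _ = ‖s‖ * (Real.exp (11 * |v|) * ‖Gamma s‖) := by ring

theorem gammaR_shift {z : ℂ} {a : ℝ} (ha : 0 < a) (hz : a ≤ z.re) (v : ℝ) :
    ‖Gammaℝ (z + v * I)‖ ≤ ‖z‖ / a * (Real.exp (11 * |v|) * ‖Gammaℝ z‖) := by
  rw [Gammaℝ_def, Gammaℝ_def, norm_mul, norm_mul]
  have hpi : (0 : ℝ) < Real.pi := Real.pi_pos
  have e1 : ‖(Real.pi : ℂ) ^ (-(z + v * I) / 2)‖ = ‖(Real.pi : ℂ) ^ (-z / 2)‖ := by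
    rw [norm_cpow_eq_rpow_re_of_pos hpi, norm_cpow_eq_rpow_re_of_pos hpi]
    congr 1
    simp
  have e2 : (z + v * I) / 2 = z / 2 + ((v / 2 : ℝ) : ℂ) * I := by push_cast; ring
  have h1 := gamma_shift' (s := z / 2) (b := a / 2) (by positivity) (by simp; linarith) (v / 2)
  rw [e1, e2]
  have h2 : ‖z / 2‖ / (a / 2) = ‖z‖ / a := by
    rw [norm_div]
    simp
    field_simp
  rw [h2] at h1
  have h3 : Real.exp (11 * |v / 2|) ≤ Real.exp (11 * |v|) := by
    rw [Real.exp_le_exp, abs_div, abs_two]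
    nlinarith [abs_nonneg v]
  calc ‖(Real.pi : ℂ) ^ (-z / 2)‖ * ‖Gamma (z / 2 + ((v / 2 : ℝ) : ℂ) * I)‖
      ≤ ‖(Real.pi : ℂ) ^ (-z / 2)‖ * (‖z‖ / a * (Real.exp (11 * |v / 2|) * ‖Gamma (z / 2)‖)) :=
        mul_le_mul_of_nonneg_left h1 (norm_nonneg _)
    _ ≤ ‖(Real.pi : ℂ) ^ (-z / 2)‖ * (‖z‖ / a * (Real.exp (11 * |v|) * ‖Gamma (z / 2)‖)) := by
        gcongr
    _ = _ := by ring

theorem t_GAM : S_gam := by
  intro T a ha
  obtain ⟨C, hC, h⟩ := Pool.Agent.N846.LM.gams (a / 2) (by positivity)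
  obtain ⟨K, hK⟩ := exists_nat_ge (a / 2)
  obtain ⟨B, hB⟩ : ∃ B : ℝ, B = 2 + |T| + a := ⟨_, rfl⟩
  have hB1 : 1 ≤ B := by rw [hB]; linarith [abs_nonneg T]
  refine ⟨max 1 (B / a * (C * B ^ K)), max (K + 1) 11, le_max_left _ _, fun μ t v hμ hμr => ?_⟩
  obtain ⟨z, hz⟩ : ∃ z : ℂ, z = 1 / 2 + t * I - μ := ⟨_, rfl⟩
  have hzre : 0 ≤ z.re := by
    rw [hz]
    simp
    linarith
  have hzn : ‖z‖ ≤ 1 / 2 + |t| + |T| := by
    rw [hz]
    refine (norm_sub_le _ _).trans ?_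
    have h1 := norm_add_le (1 / 2 : ℂ) (t * I)
    have h2 : ‖(1 / 2 : ℂ)‖ = 1 / 2 := by simp
    have h3 : ‖(t * I : ℂ)‖ = |t| := by simp
    have h4 := le_abs_self T
    linarith
  have ht : 0 ≤ |t| := abs_nonneg t
  have hT : 0 ≤ |T| := abs_nonneg T
  have h1 := h z (by linarith)
  have e1 : (((2 * (a / 2) : ℝ)) : ℂ) = (a : ℂ) := by push_cast; ring
  rw [e1, norm_mul] at h1
  have h2 := gammaR_shift (z := z + a) ha (by simp; linarith) v
  have e2 : (1 / 2 + t * I + (a + v * I) - μ : ℂ) = z + a + v * I := by rw [hz]; ring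
  rw [e2, ← hz]
  have h3 : ‖z + a‖ ≤ B * (1 + |t|) := by
    refine (norm_add_le _ _).trans ?_
    have : ‖(a : ℂ)‖ = a := by rw [norm_real, Real.norm_of_nonneg ha.le]
    rw [this, hB]
    nlinarith
  have h4 : (1 + ‖z‖) ^ (a / 2) ≤ (B * (1 + |t|)) ^ K := by
    have h5 : 1 + ‖z‖ ≤ B * (1 + |t|) := by rw [hB]; nlinarith
    have h6 : 1 ≤ B * (1 + |t|) := by nlinarith
    calc (1 + ‖z‖) ^ (a / 2) ≤ (B * (1 + |t|)) ^ (a / 2) :=
          Real.rpow_le_rpow (by positivity) h5 (by positivity)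
      _ ≤ (B * (1 + |t|)) ^ (K : ℝ) := Real.rpow_le_rpow_of_exponent_le h6 hK
      _ = _ := Real.rpow_natCast _ _
  have h5 : Real.exp (11 * |v|) ≤ Real.exp (((max (K + 1) 11 : ℕ) : ℝ) * |v|) := by
    rw [Real.exp_le_exp]
    refine mul_le_mul_of_nonneg_right ?_ (abs_nonneg v)
    exact_mod_cast le_max_right (K + 1) 11
  have h6 : (1 + |t|) ^ (K + 1) ≤ (1 + |t|) ^ (max (K + 1) 11) :=
    pow_le_pow_right₀ (by linarith) (le_max_left _ _)
  calc ‖Gammaℝ (z + a + v * I)‖ * ‖(Gammaℝ z)⁻¹‖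
      ≤ (‖z + a‖ / a * (Real.exp (11 * |v|) * ‖Gammaℝ (z + a)‖)) * ‖(Gammaℝ z)⁻¹‖ :=
        mul_le_mul_of_nonneg_right h2 (norm_nonneg _)
    _ = ‖z + a‖ / a * (Real.exp (11 * |v|) * (‖Gammaℝ (z + a)‖ * ‖(Gammaℝ z)⁻¹‖)) := by ring
    _ ≤ (B * (1 + |t|)) / a * (Real.exp (11 * |v|) * (C * (B * (1 + |t|)) ^ K)) := by
        refine mul_le_mul (div_le_div_of_nonneg_right h3 ha.le) (mul_le_mul_of_nonneg_left
          (h1.trans (mul_le_mul_of_nonneg_left h4 hC.le)) (Real.exp_pos _).le) (by positivity)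
          (by positivity)
    _ = (B / a * (C * B ^ K)) * (1 + |t|) ^ (K + 1) * Real.exp (11 * |v|) := by
        rw [mul_pow]
        ring
    _ ≤ max 1 (B / a * (C * B ^ K)) * (1 + |t|) ^ (max (K + 1) 11) *
          Real.exp (((max (K + 1) 11 : ℕ) : ℝ) * |v|) := by
        gcongr
        exact le_max_right _ _

end Pool.Agent.T2h79.LG.GAM
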