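import Pool.Agent.T2h79.LG.Stm
import Pool.Agent.T2h77N.Grow
import Pool.Agent.H510R2.Div

/-! The size of the coefficients. -/

set_option autoImplicit false

namespace Pool.Agent.T2h79.LG.LAM

open Pool.Agent.T2h79.LG Pool.Agent.T2h77.N

theorem hsG_empty (f : Fin 0 → ℂ) (k : ℕ) : hsG f (k + 1) = 0 := by
  unfold hsG
  have : IsEmpty (Sym (Fin 0) (k + 1)) := by infer_instance
  exact Finset.sum_of_isEmpty _

theorem hsG_le (n : ℕ) {r : ℝ} (hr : 0 ≤ r) : ∀ (f : Fin n → ℂ), (∀ i, ‖f i‖ ≤ r) → ∀ k : ℕ,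
    ‖hsG f k‖ ≤ ((k : ℝ) + 1) ^ n * r ^ k := by
  induction n with
  | zero =>
    intro f _ k
    cases k with
    | zero => rw [hsG_zero]; simp
    | succ k =>
      rw [hsG_empty, norm_zero]
      positivity
  | succ n ih =>
    intro f hf k
    induction k with
    | zero => rw [hsG_zero]; simp
    | succ k ihk =>
      rw [hsG_rec]
      have h1 := ih (fun i => f i.castSucc) (fun i => hf _) (k + 1)
      have h2 : ‖f (Fin.last n) * hsG f k‖ ≤ r * (((k : ℝ) + 1) ^ (n + 1) * r ^ k) := by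
        rw [norm_mul]
        exact mul_le_mul (hf _) ihk (norm_nonneg _) hr
      have h3 : ((k : ℝ) + 1) ^ (n + 1) ≤ ((k : ℝ) + 1) * ((k : ℝ) + 1 + 1) ^ n := by
        rw [pow_succ, mul_comm]
        exact mul_le_mul_of_nonneg_left (pow_le_pow_left₀ (by positivity) (by linarith) n)
          (by positivity)
      have h4 : r * (((k : ℝ) + 1) ^ (n + 1) * r ^ k) ≤
          ((k : ℝ) + 1) * ((k : ℝ) + 1 + 1) ^ n * r ^ (k + 1) := by
        have h5 : r * (((k : ℝ) + 1) ^ (n + 1) * r ^ k) = ((k : ℝ) + 1) ^ (n + 1) * r ^ (k + 1) := by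
          ring
        rw [h5]
        exact mul_le_mul_of_nonneg_right h3 (by positivity)
      push_cast at h1 ⊢
      calc ‖f (Fin.last n) * hsG f k + hsG (fun i : Fin n => f i.castSucc) (k + 1)‖
          ≤ ‖f (Fin.last n) * hsG f k‖ + ‖hsG (fun i : Fin n => f i.castSucc) (k + 1)‖ :=
            norm_add_le _ _
        _ ≤ ((k : ℝ) + 1) * ((k : ℝ) + 1 + 1) ^ n * r ^ (k + 1) +
            ((k : ℝ) + 1 + 1) ^ n * r ^ (k + 1) := add_le_add (h2.trans h4) h1
        _ = ((k : ℝ) + 1 + 1) ^ (n + 1) * r ^ (k + 1) := by ring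

theorem lam_le {n : ℕ} (D : LData n) (hD : D.Ok) {m : ℕ} (hm : 0 < m) :
    ‖D.lam m‖ ≤ (m.divisors.card : ℝ) ^ n * (m : ℝ) ^ (1 / 2 : ℝ) := by
  have hm0 : m ≠ 0 := hm.ne'
  have h1 : ‖D.lam m‖ = ∏ p ∈ m.primeFactors, ‖hs (D.α p) (m.factorization p)‖ := by
    unfold LData.lam Finsupp.prod
    rw [norm_prod]
    rfl
  have h2 : ((m : ℝ)) ^ (1 / 2 : ℝ) = ∏ p ∈ m.primeFactors, Real.sqrt p ^ m.factorization p := by
    have h3 : ∀ p ∈ m.primeFactors, Real.sqrt p ^ m.factorization p =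
        (((p : ℝ)) ^ m.factorization p) ^ (1 / 2 : ℝ) := by
      intro p _
      rw [Real.sqrt_eq_rpow, ← Real.rpow_natCast, ← Real.rpow_natCast, ← Real.rpow_mul (by positivity),
        ← Real.rpow_mul (by positivity), mul_comm]
    rw [Finset.prod_congr rfl h3, Real.finsetProd_rpow _ _ (fun p _ => by positivity)]
    congr 1
    conv_lhs => rw [← Nat.prod_factorization_pow_eq_self hm0]
    rw [Finsupp.prod]
    push_cast
    rfl
  have h4 : (m.divisors.card : ℝ) ^ n = ∏ p ∈ m.primeFactors, ((m.factorization p : ℝ) + 1) ^ n := by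
    rw [Nat.card_divisors hm0]
    push_cast
    rw [Finset.prod_pow]
  rw [h1, h2, h4, ← Finset.prod_mul_distrib]
  refine Finset.prod_le_prod (fun p _ => norm_nonneg _) fun p hp => ?_
  exact hsG_le n (Real.sqrt_nonneg _) (D.α p) (hD.satake p (Nat.prime_of_mem_primeFactors hp)) _

theorem t_LAM : S_lam := by
  intro n ε hε
  obtain ⟨C, hC, h⟩ := Pool.Agent.H510R2.divisor_bound (ε / (n + 1)) (by positivity)
  refine ⟨max 1 (C ^ n), le_max_left _ _, fun D hD m hm => ?_⟩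
  have hm1 : (1 : ℝ) ≤ m := by exact_mod_cast hm
  have h1 := lam_le D hD hm
  have h2 : (m.divisors.card : ℝ) ^ n ≤ C ^ n * (m : ℝ) ^ ε := by
    have h3 := pow_le_pow_left₀ (by positivity) (h m hm) n
    rw [mul_pow, ← Real.rpow_natCast ((m : ℝ) ^ (ε / (n + 1))), ← Real.rpow_mul (by positivity)] at h3
    refine h3.trans (mul_le_mul_of_nonneg_left (Real.rpow_le_rpow_of_exponent_le hm1 ?_)
      (by positivity))
    rw [div_mul_eq_mul_div, div_le_iff₀ (by positivity)]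
    nlinarith
  calc ‖D.lam m‖ ≤ (m.divisors.card : ℝ) ^ n * (m : ℝ) ^ (1 / 2 : ℝ) := h1
    _ ≤ C ^ n * (m : ℝ) ^ ε * (m : ℝ) ^ (1 / 2 : ℝ) :=
        mul_le_mul_of_nonneg_right h2 (by positivity)
    _ = C ^ n * (m : ℝ) ^ (1 / 2 + ε) := by
        rw [mul_assoc, ← Real.rpow_add (by positivity), add_comm ε]
    _ ≤ max 1 (C ^ n) * (m : ℝ) ^ (1 / 2 + ε) :=
        mul_le_mul_of_nonneg_right (le_max_right _ _) (by positivity)

end Pool.Agent.T2h79.LG.LAM
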