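import Pool.Agent.T2h79.LG.Stm

/-!
# LSI: the large sieve inequality
-/

set_option autoImplicit false

open MeasureTheory Matrix
open scoped MatrixGroups ENNReal Topology ComplexConjugate

noncomputable section

namespace Pool.Agent.T2h79.LG.LSI

open Pool.Agent.T2h77.N Pool.Agent.T2h79.LG

theorem t_LSI (hP : S_lsp) (hcov : S_cov) (hrcf : S_rcf) (hiw : S_iw) (hent : S_ent) (hint : S_int) : S_lsi := by
  classical
  intro n hn χ hχ hχc ε hε
  obtain ⟨C, hC, hlsp⟩ := hP n hn χ hχ hχc ε hε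
  obtain ⟨Cv, hCv, hvol⟩ := vol_SL hiw hent hint n
  have hC0 : 0 < C := by linarith
  refine ⟨C * max 1 Cv, by
    have := le_max_left 1 Cv
    nlinarith, ?_⟩
  intro N _ F hFD k f l hf hL hip heig Y B b hY hB hB2 hBC
  have hNpos : (0 : ℝ) < N := by exact_mod_cast Nat.pos_of_ne_zero (NeZero.ne N)
  have hY0 : (0 : ℝ) < Y := by linarith
  have hBC' : ∀ m ∈ B, (m : ℝ) * (C * Y ^ n / N) ^ n ≤ 1 := by
    intro m hm
    refine le_trans ?_ (hBC m hm)
    have h1 : C ≤ C * max 1 Cv := le_mul_of_one_le_right hC0.le (le_max_left _ _)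
    gcongr
  have hpt := hlsp N F hFD k f l hf hL hip heig Y B b hY hB hB2 hBC'
  have hRc : ∀ i, IsForm (⊥ : Subgroup (GN n N)) (Rc χ (f i)) :=
    fun i => (hrcf n χ hχ hχc N ⊥ F hFD (f i) (hf i) (hL i)).1
  set a : Fin k → ℝ≥0∞ := fun i => ‖∑ m ∈ B, b m * l i m‖ₑ ^ 2 with hadef
  set S : ℝ := ∑ m ∈ B, ‖b m‖ ^ 2 * (m : ℝ) ^ ε with hSdef
  have hS0 : 0 ≤ S := Finset.sum_nonneg fun m _ => by positivity
  set h : GR n → ℝ≥0∞ := fun g => ∑ i, a i * Pool.Agent.T2h77.N.sq (Rc χ (f i)) g with hh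
  have hhm : Measurable h := Finset.measurable_sum _ fun i _ => (measurable_sq (hRc i)).const_mul _
  have h1 : ∑ i, a i * ∫⁻ g in F ∩ sat (SL n Y), Pool.Agent.T2h77.N.sq (Rc χ (f i)) g ∂(mu n) =
      ∫⁻ g in F ∩ sat (SL n Y), h g ∂(mu n) := by
    rw [hh, lintegral_finsetSum _ fun i _ => (measurable_sq (hRc i)).const_mul _]
    exact Finset.sum_congr rfl fun i _ => (lintegral_const_mul _ (measurable_sq (hRc i))).symm
  rw [h1]
  refine (hcov n F (SL n Y) h hFD (measurable_SL hiw n Y) hhm fun γ g => ?_).trans ?_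
  · rw [hh]
    exact Finset.sum_congr rfl fun i _ => by rw [sq_inv (hRc i)]
  have hlog : 0 ≤ 1 + Real.log Y := by
    have := Real.log_nonneg hY
    linarith
  calc ∫⁻ g in SL n Y, h g ∂(mu n)
      ≤ ∫⁻ _g in SL n Y, ENNReal.ofReal (C * Nat.card (GN n N) * S) ∂(mu n) :=
        setLIntegral_mono' (measurable_SL hiw n Y) fun x hx => hpt x hx
    _ = ENNReal.ofReal (C * Nat.card (GN n N) * S) * mu n (SL n Y) := by
        rw [setLIntegral_const]
    _ ≤ ENNReal.ofReal (C * Nat.card (GN n N) * S) * ENNReal.ofReal (Cv * (1 + Real.log Y) ^ n) := by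
        gcongr
        exact hvol Y hY
    _ = ENNReal.ofReal (C * Nat.card (GN n N) * S * (Cv * (1 + Real.log Y) ^ n)) :=
        (ENNReal.ofReal_mul (by positivity)).symm
    _ ≤ _ := by
        refine ENNReal.ofReal_le_ofReal ?_
        calc C * Nat.card (GN n N) * S * (Cv * (1 + Real.log Y) ^ n)
            = C * Cv * Nat.card (GN n N) * (1 + Real.log Y) ^ n * S := by ring
          _ ≤ C * max 1 Cv * Nat.card (GN n N) * (1 + Real.log Y) ^ n * S := by
              gcongr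
              exact le_max_right _ _

end Pool.Agent.T2h79.LG.LSI
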