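import Pool.Agent.T2h79.LG.Stm

/-!
# LSP: the large sieve inequality at a point
-/

set_option autoImplicit false

open MeasureTheory Matrix
open scoped MatrixGroups ENNReal Topology ComplexConjugate

noncomputable section

namespace Pool.Agent.T2h79.LG.LSP

open Pool.Agent.T2h77.N Pool.Agent.T2h79.LG

/-- the symmetric form of the double sum -/
theorem sum_symm {α : Type} (T : Finset α) (a : α → ℝ) (p q : α → α → ℝ) (u v : α → ℝ)
    (hp : ∀ β ∈ T, ∀ β' ∈ T, 0 ≤ p β β') (hpq : ∀ β ∈ T, ∀ β' ∈ T, p β β' ≤ q β' β)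
    (hu : ∀ β ∈ T, ∑ β' ∈ T, p β β' ≤ u β) (hv : ∀ β ∈ T, ∑ β' ∈ T, q β β' ≤ v β) :
    ∑ β ∈ T, ∑ β' ∈ T, a β * a β' * p β β' ≤
      1 / 2 * ∑ β ∈ T, a β ^ 2 * u β + 1 / 2 * ∑ β ∈ T, a β ^ 2 * v β := by
  have h1 : ∑ β ∈ T, ∑ β' ∈ T, a β * a β' * p β β' ≤
      ∑ β ∈ T, ∑ β' ∈ T, (1 / 2 * (a β ^ 2 * p β β') + 1 / 2 * (a β' ^ 2 * q β' β)) := by
    refine Finset.sum_le_sum fun β hβ => Finset.sum_le_sum fun β' hβ' => ?_
    have h2 := hp β hβ β' hβ'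
    have h3 := hpq β hβ β' hβ'
    have h4 : a β * a β' ≤ 1 / 2 * a β ^ 2 + 1 / 2 * a β' ^ 2 := by nlinarith [sq_nonneg (a β - a β')]
    calc a β * a β' * p β β' ≤ (1 / 2 * a β ^ 2 + 1 / 2 * a β' ^ 2) * p β β' := mul_le_mul_of_nonneg_right h4 h2
      _ = 1 / 2 * (a β ^ 2 * p β β') + 1 / 2 * (a β' ^ 2 * p β β') := by ring
      _ ≤ 1 / 2 * (a β ^ 2 * p β β') + 1 / 2 * (a β' ^ 2 * q β' β) := by
          have := mul_le_mul_of_nonneg_left h3 (sq_nonneg (a β'))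
          linarith
  refine h1.trans ?_
  simp_rw [Finset.sum_add_distrib]
  refine add_le_add ?_ ?_
  · simp_rw [← Finset.mul_sum]
    refine mul_le_mul_of_nonneg_left (Finset.sum_le_sum fun β hβ => ?_) (by norm_num)
    exact mul_le_mul_of_nonneg_left (hu β hβ) (sq_nonneg _)
  · rw [Finset.sum_comm]
    simp_rw [← Finset.mul_sum]
    refine mul_le_mul_of_nonneg_left (Finset.sum_le_sum fun β hβ => ?_) (by norm_num)
    exact mul_le_mul_of_nonneg_left (hv β hβ) (sq_nonneg _)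

/-- the average over one block, with the normalising factor -/
theorem block (n : ℕ) {ε Ca : ℝ} {m : ℕ} (hm : 0 < m) (z : ℂ) {S : ℝ}
    (hS : S ≤ Ca * (m : ℝ) ^ ((n : ℝ) - 1 + ε)) :
    ‖z * (((m : ℝ) ^ (-(((n : ℝ) - 1) / 2)) : ℝ) : ℂ)‖ ^ 2 * S ≤ Ca * (‖z‖ ^ 2 * (m : ℝ) ^ ε) := by
  have hm' : (0 : ℝ) < m := by exact_mod_cast hm
  have h1 : ‖z * (((m : ℝ) ^ (-(((n : ℝ) - 1) / 2)) : ℝ) : ℂ)‖ ^ 2 = ‖z‖ ^ 2 * (m : ℝ) ^ (-((n : ℝ) - 1)) := by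
    rw [norm_mul, mul_pow, Complex.norm_real, Real.norm_of_nonneg (by positivity), ← Real.rpow_natCast
      ((m : ℝ) ^ (-(((n : ℝ) - 1) / 2))), ← Real.rpow_mul hm'.le]
    congr 2
    push_cast
    ring
  rw [h1]
  calc ‖z‖ ^ 2 * (m : ℝ) ^ (-((n : ℝ) - 1)) * S
      ≤ ‖z‖ ^ 2 * (m : ℝ) ^ (-((n : ℝ) - 1)) * (Ca * (m : ℝ) ^ ((n : ℝ) - 1 + ε)) :=
        mul_le_mul_of_nonneg_left hS (by positivity)
    _ = Ca * (‖z‖ ^ 2 * ((m : ℝ) ^ (-((n : ℝ) - 1)) * (m : ℝ) ^ ((n : ℝ) - 1 + ε))) := by ring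
    _ = Ca * (‖z‖ ^ 2 * (m : ℝ) ^ ε) := by
        rw [← Real.rpow_add hm']
        congr 3
        ring

theorem t_LSP (hT : S_trw) (hS : S_sym) (hC : S_cnt) (hA : S_avg) (hF : S_rcf) (hG : S_repG) : S_lsp := by
  classical
  intro n hn χ hχ hχc ε hε
  obtain ⟨M, Ct, hCt, htr⟩ := hT n χ hχ hχc
  obtain ⟨M', hsym⟩ := hS n M
  obtain ⟨C1, hC1, hcnt1⟩ := hC n hn M
  obtain ⟨C2, hC2, hcnt2⟩ := hC n hn M'
  obtain ⟨Ca, hCa, havg⟩ := hA n hn ε hε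
  obtain ⟨_, _, hrep⟩ := hG n hn 1 one_pos
  choose! R hR _hR' using hrep
  refine ⟨max (max C1 C2) (Ct * Ca), hC1.trans ((le_max_left _ _).trans (le_max_left _ _)), ?_⟩
  intro N _ F hFD k f l hf hL hip heig Y B b hY hB hB2 hBC x hx
  have hNpos : (0 : ℝ) < N := by exact_mod_cast Nat.pos_of_ne_zero (NeZero.ne N)
  have hY0 : (0 : ℝ) < Y := by linarith
  -- the radii
  have hr : ∀ C' : ℝ, 1 ≤ C' → C' ≤ max (max C1 C2) (Ct * Ca) →
      0 < C' * Y ^ n / N ∧ ∀ m ∈ B, (m : ℝ) * (C' * Y ^ n / N) ^ n ≤ 1 := by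
    intro C' h1 h2
    refine ⟨by positivity, fun m hm => le_trans ?_ (hBC m hm)⟩
    gcongr
  obtain ⟨hr1, hr1'⟩ := hr C1 hC1 ((le_max_left _ _).trans (le_max_left _ _))
  obtain ⟨hr2, hr2'⟩ := hr C2 hC2 ((le_max_right _ _).trans (le_max_left _ _))
  -- the matrices
  set T : Finset (MZ n) := B.biUnion R with hTdef
  have hdet : ∀ m ∈ B, ∀ β ∈ R m, β.det = (m : ℤ) := fun m hm β hβ => (hR m (hB m hm).1).1 β hβ
  have hdis : Set.PairwiseDisjoint (B : Set ℕ) R := by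
    intro m hm m' hm' hne
    rw [Function.onFun, Finset.disjoint_left]
    intro β h1 h2
    refine hne ?_
    have e1 := hdet m hm β h1
    have e2 := hdet m' hm' β h2
    exact_mod_cast e1.symm.trans e2
  have hmemT : ∀ β ∈ T, ∃ m ∈ B, β ∈ R m := fun β hβ => by simpa [hTdef] using hβ
  have hTunit : ∀ β ∈ T, 0 < β.det ∧ IsUnit ((β.det : ℤ) : ZMod N) := by
    intro β hβ
    obtain ⟨m, hm, hβm⟩ := hmemT β hβ
    rw [hdet m hm β hβm]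
    refine ⟨by exact_mod_cast (hB m hm).1, ?_⟩
    rw [Int.cast_natCast]
    exact (ZMod.isUnit_iff_coprime m N).2 (hB m hm).2
  have hT2 : ∀ β ∈ T, ∀ β' ∈ T, β'.det ≤ 2 * β.det := by
    intro β hβ β' hβ'
    obtain ⟨m, hm, hβm⟩ := hmemT β hβ
    obtain ⟨m', hm', hβm'⟩ := hmemT β' hβ'
    rw [hdet m hm β hβm, hdet m' hm' β' hβm']
    exact_mod_cast hB2 m hm m' hm'
  have hTeq : ∀ β ∈ T, ∀ β' ∈ T, ∀ γ : GZ n, β = (γ : MZ n) * β' → β = β' := by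
    intro β hβ β' hβ' γ hγ
    obtain ⟨m, hm, hβm⟩ := hmemT β hβ
    obtain ⟨m', hm', hβm'⟩ := hmemT β' hβ'
    have e : β.det = β'.det := by
      rw [hγ, Matrix.det_mul]
      simp
    have e' : m = m' := by
      rw [hdet m hm β hβm, hdet m' hm' β' hβm'] at e
      exact_mod_cast e
    subst e'
    exact ((hR m (hB m hm).1).2 β (hdet m hm β hβm)).unique ⟨hβm, 1, by simp⟩ ⟨hβm', γ, hγ⟩
  -- the coefficients
  set A : ℕ → ℂ := fun m => b m * (((m : ℝ) ^ (-(((n : ℝ) - 1) / 2)) : ℝ) : ℂ) with hAdef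
  set a : MZ n → ℂ := fun β => A β.det.toNat with hadef
  have ha : ∀ m ∈ B, ∀ β ∈ R m, a β = A m := by
    intro m hm β hβ
    rw [hadef]
    simp only
    rw [hdet m hm β hβ, Int.toNat_natCast]
  -- the inner sum
  have hinner : ∀ (i : Fin k) (c : XX (⊥ : Subgroup (GN n N))),
      ∑ β ∈ T, a β * Rc χ (f i) (scl β * x) (rdM N β • c) = (∑ m ∈ B, b m * l i m) * Rc χ (f i) x c := by
    intro i c
    rw [hTdef, Finset.sum_biUnion hdis, Finset.sum_mul]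
    refine Finset.sum_congr rfl fun m hm => ?_
    have hm' : (0 : ℝ) < m := by exact_mod_cast (hB m hm).1
    have h1 := (hF n χ hχ hχc N ⊥ F hFD (f i) (hf i) (hL i)).2 (R m)
      ((((m : ℝ) ^ (((n : ℝ) - 1) / 2) : ℝ) : ℂ) * l i m)
      (fun β hβ => by rw [hdet m hm β hβ]; exact_mod_cast (hB m hm).1)
      (heig i m (R m) (hB m hm).1 (hB m hm).2 (hR m (hB m hm).1)) x c
    have h2 : ∑ β ∈ R m, a β * Rc χ (f i) (scl β * x) (rdM N β • c) =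
        A m * ∑ β ∈ R m, Rc χ (f i) (scl β * x) (rdM N β • c) := by
      rw [Finset.mul_sum]
      exact Finset.sum_congr rfl fun β hβ => by rw [ha m hm β hβ]
    have h3 : (((m : ℝ) ^ (-(((n : ℝ) - 1) / 2)) : ℝ) : ℂ) * (((m : ℝ) ^ (((n : ℝ) - 1) / 2) : ℝ) : ℂ) = 1 := by
      rw [← Complex.ofReal_mul, ← Real.rpow_add hm', neg_add_cancel, Real.rpow_zero, Complex.ofReal_one]
    rw [h2, h1, hAdef]
    simp only
    calc b m * (((m : ℝ) ^ (-(((n : ℝ) - 1) / 2)) : ℝ) : ℂ) *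
          ((((m : ℝ) ^ (((n : ℝ) - 1) / 2) : ℝ) : ℂ) * l i m * Rc χ (f i) x c)
        = ((((m : ℝ) ^ (-(((n : ℝ) - 1) / 2)) : ℝ) : ℂ) * (((m : ℝ) ^ (((n : ℝ) - 1) / 2) : ℝ) : ℂ)) *
          (b m * l i m * Rc χ (f i) x c) := by ring
      _ = b m * l i m * Rc χ (f i) x c := by rw [h3, one_mul]
  -- the sum over a block
  have hblock : ∀ r : ℝ, 0 < r → (∀ m ∈ B, (m : ℝ) * r ^ n ≤ 1) →
      ∑ β ∈ T, ‖a β‖ ^ 2 * (av β r : ℝ) ^ n ≤ Ca * ∑ m ∈ B, ‖b m‖ ^ 2 * (m : ℝ) ^ ε := by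
    intro r hr0 hrB
    rw [hTdef, Finset.sum_biUnion hdis, Finset.mul_sum]
    refine Finset.sum_le_sum fun m hm => ?_
    have h2 : ∑ β ∈ R m, ‖a β‖ ^ 2 * (av β r : ℝ) ^ n = ‖A m‖ ^ 2 * ∑ β ∈ R m, (av β r : ℝ) ^ n := by
      rw [Finset.mul_sum]
      exact Finset.sum_congr rfl fun β hβ => by rw [ha m hm β hβ]
    rw [h2]
    exact block n (hB m hm).1 (b m) (havg m (R m) (hB m hm).1 (hR m (hB m hm).1) r hr0 (hrB m hm))
  -- the bound for every `c`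
  have hc : ∀ c : XX (⊥ : Subgroup (GN n N)),
      ∑ i, ‖(∑ m ∈ B, b m * l i m) * Rc χ (f i) x c‖ₑ ^ 2 ≤
        ENNReal.ofReal (Ct * (Ca * ∑ m ∈ B, ‖b m‖ ^ 2 * (m : ℝ) ^ ε)) := by
    intro c
    have h1 := htr N ⊥ F hFD k f hf hL hip T a hTunit x c
    simp_rw [hinner] at h1
    refine h1.trans (ENNReal.ofReal_le_ofReal (mul_le_mul_of_nonneg_left ?_ hCt.le))
    refine (sum_symm T (fun β => ‖a β‖) (fun β β' => (Nat.card (pr M x c β β') : ℝ))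
      (fun β β' => (Nat.card (pr M' x c β β') : ℝ)) (fun β => (av β (C1 * Y ^ n / N) : ℝ) ^ n)
      (fun β => (av β (C2 * Y ^ n / N) : ℝ) ^ n) (fun _ _ _ _ => by positivity) ?_ ?_ ?_).trans ?_
    · intro β hβ β' hβ'
      exact_mod_cast (hsym N ⊥ x c β β' (hTunit β hβ).1 (hTunit β hβ).2 (hTunit β' hβ').1 (hTunit β' hβ').2).2
    · exact hcnt1 N Y x hY hx c T hTunit hT2 hTeq
    · exact hcnt2 N Y x hY hx c T hTunit hT2 hTeq
    · have e1 := hblock _ hr1 hr1'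
      have e2 := hblock _ hr2 hr2'
      linarith
  let _ : Fintype (XX (⊥ : Subgroup (GN n N))) := Fintype.ofFinite _
  have hcard : (Fintype.card (XX (⊥ : Subgroup (GN n N))) : ℝ) = (Nat.card (GN n N) : ℝ) := by
    rw [← Nat.card_eq_fintype_card]
    have := Subgroup.index_bot (G := GN n N)
    unfold Subgroup.index at this
    rw [this]
  calc ∑ i, ‖∑ m ∈ B, b m * l i m‖ₑ ^ 2 * sq (Rc χ (f i)) x
      = ∑ i, ∑ c : XX (⊥ : Subgroup (GN n N)), ‖(∑ m ∈ B, b m * l i m) * Rc χ (f i) x c‖ₑ ^ 2 := by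
        refine Finset.sum_congr rfl fun i _ => ?_
        unfold Pool.Agent.T2h77.N.sq
        rw [tsum_fintype, Finset.mul_sum]
        exact Finset.sum_congr rfl fun c _ => by rw [enorm_mul, mul_pow]
    _ = ∑ c : XX (⊥ : Subgroup (GN n N)), ∑ i, ‖(∑ m ∈ B, b m * l i m) * Rc χ (f i) x c‖ₑ ^ 2 := Finset.sum_comm
    _ ≤ ∑ _c : XX (⊥ : Subgroup (GN n N)), ENNReal.ofReal (Ct * (Ca * ∑ m ∈ B, ‖b m‖ ^ 2 * (m : ℝ) ^ ε)) :=
        Finset.sum_le_sum fun c _ => hc c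
    _ = ENNReal.ofReal ((Nat.card (GN n N) : ℝ) * (Ct * (Ca * ∑ m ∈ B, ‖b m‖ ^ 2 * (m : ℝ) ^ ε))) := by
        rw [Finset.sum_const, Finset.card_univ, nsmul_eq_mul, ← hcard,
          ENNReal.ofReal_mul (p := (Fintype.card (XX (⊥ : Subgroup (GN n N))) : ℝ)) (by positivity),
          ENNReal.ofReal_natCast]
    _ ≤ _ := by
        refine ENNReal.ofReal_le_ofReal ?_
        have hS0 : 0 ≤ ∑ m ∈ B, ‖b m‖ ^ 2 * (m : ℝ) ^ ε := Finset.sum_nonneg fun m _ => by positivity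
        calc (Nat.card (GN n N) : ℝ) * (Ct * (Ca * ∑ m ∈ B, ‖b m‖ ^ 2 * (m : ℝ) ^ ε))
            = (Ct * Ca) * (Nat.card (GN n N) : ℝ) * ∑ m ∈ B, ‖b m‖ ^ 2 * (m : ℝ) ^ ε := by ring
          _ ≤ _ := by
              gcongr
              exact le_max_right _ _

end Pool.Agent.T2h79.LG.LSP
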