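import Pool.Agent.T2h79.LG.Stm

/-! Shifting a line of integration. -/

set_option autoImplicit false

open MeasureTheory Filter Topology
open scoped Interval

namespace Pool.Agent.T2h79.LG.SHF

open Pool.Agent.T2h79.LG

section

variable {a b M : ℝ} {g : ℂ → ℂ}

theorem bound (hg : ∀ w : ℂ, a ≤ w.re → w.re ≤ b → ‖g w‖ ≤ Real.exp (M * (1 + |w.im|))) (x y : ℝ)
    (hx : a ≤ x) (hx' : x ≤ b) :
    ‖g (x + y * Complex.I) * Complex.exp ((x + y * Complex.I) ^ 2)‖ ≤
      Real.exp (M + M ^ 2 / 2 + a ^ 2 + b ^ 2) * Real.exp (-(1 / 2) * y ^ 2) := by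
  have h1 := hg (x + y * Complex.I) (by simpa using hx) (by simpa using hx')
  have him : (x + y * Complex.I : ℂ).im = y := by simp
  rw [him] at h1
  have h2 : ((x + y * Complex.I : ℂ) ^ 2).re = x ^ 2 - y ^ 2 := by
    rw [sq, Complex.mul_re]
    simp
    ring
  rw [norm_mul, Complex.norm_exp, h2]
  refine (mul_le_mul_of_nonneg_right h1 (Real.exp_pos _).le).trans ?_
  rw [← Real.exp_add, ← Real.exp_add, Real.exp_le_exp]
  have h3 : x ^ 2 ≤ a ^ 2 + b ^ 2 := by
    rcases le_total 0 x with h | h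
    · nlinarith [sq_nonneg a]
    · nlinarith [sq_nonneg b]
  have h4 : M * |y| ≤ M ^ 2 / 2 + y ^ 2 / 2 := by
    nlinarith [sq_nonneg (M - |y|), sq_abs y]
  nlinarith

theorem cont (hd : ∀ w : ℂ, a ≤ w.re → w.re ≤ b → DifferentiableAt ℂ g w) (x : ℝ)
    (hx : a ≤ x) (hx' : x ≤ b) :
    Continuous fun v : ℝ => g (x + v * Complex.I) * Complex.exp ((x + v * Complex.I) ^ 2) := by
  have h1 : Continuous fun v : ℝ => (x + v * Complex.I : ℂ) := by fun_prop
  refine Continuous.mul ?_ (by fun_prop)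
  rw [continuous_iff_continuousAt]
  intro v
  have h2 : ContinuousAt g (x + v * Complex.I) :=
    (hd _ (by simpa using hx) (by simpa using hx')).continuousAt
  exact ContinuousAt.comp (f := fun v : ℝ => (x + v * Complex.I : ℂ)) h2 h1.continuousAt

theorem integ (hd : ∀ w : ℂ, a ≤ w.re → w.re ≤ b → DifferentiableAt ℂ g w)
    (hg : ∀ w : ℂ, a ≤ w.re → w.re ≤ b → ‖g w‖ ≤ Real.exp (M * (1 + |w.im|))) (x : ℝ)
    (hx : a ≤ x) (hx' : x ≤ b) :
    Integrable fun v : ℝ => g (x + v * Complex.I) * Complex.exp ((x + v * Complex.I) ^ 2) :=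
  Integrable.mono' ((integrable_exp_neg_mul_sq (by norm_num : (0 : ℝ) < 1 / 2)).const_mul _)
    (cont hd x hx hx').aestronglyMeasurable (Eventually.of_forall fun v => bound hg x v hx hx')

end

theorem t_SHF : S_shf := by
  intro a b M g hab hd hg
  obtain ⟨f, hf⟩ : ∃ f : ℂ → ℂ, f = fun w => g w * Complex.exp (w ^ 2) := ⟨_, rfl⟩
  obtain ⟨K, hK⟩ : ∃ K : ℝ, K = Real.exp (M + M ^ 2 / 2 + a ^ 2 + b ^ 2) := ⟨_, rfl⟩
  have hK0 : 0 ≤ K := by rw [hK]; positivity
  have ia := integ hd hg a le_rfl hab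
  have ib := integ hd hg b hab le_rfl
  have ta := intervalIntegral_tendsto_integral ia tendsto_neg_atTop_atBot tendsto_id
  have tb := intervalIntegral_tendsto_integral ib tendsto_neg_atTop_atBot tendsto_id
  have hbd : ∀ x y : ℝ, a ≤ x → x ≤ b → ‖f (x + y * Complex.I)‖ ≤ K * Real.exp (-(1 / 2) * y ^ 2) := by
    intro x y hx hx'
    rw [hf, hK]
    exact bound hg x y hx hx'
  -- the rectangles
  have hrect : ∀ T : ℝ, (∫ x : ℝ in a..b, f (x + (-T : ℝ) * Complex.I)) -
      (∫ x : ℝ in a..b, f (x + T * Complex.I)) +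
      Complex.I • (∫ y : ℝ in (-T)..T, f (b + y * Complex.I)) -
      Complex.I • (∫ y : ℝ in (-T)..T, f (a + y * Complex.I)) = 0 := by
    intro T
    have h := Complex.integral_boundary_rect_eq_zero_of_differentiableOn f
      (⟨a, -T⟩ : ℂ) (⟨b, T⟩ : ℂ) (by
        intro w hw
        have h1 : w.re ∈ [[a, b]] := hw.1
        rw [Set.uIcc_of_le hab] at h1
        rw [hf]
        exact ((hd w h1.1 h1.2).mul (by fun_prop)).differentiableWithinAt)
    simpa using h
  have hhor : ∀ σ : ℝ → ℝ, (∀ T, σ T ^ 2 = T ^ 2) →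
      Tendsto (fun T : ℝ => ∫ x : ℝ in a..b, f (x + (σ T : ℝ) * Complex.I)) atTop (𝓝 0) := by
    intro σ hσ
    have h1 : ∀ T : ℝ, ‖∫ x : ℝ in a..b, f (x + (σ T : ℝ) * Complex.I)‖ ≤
        K * Real.exp (-(1 / 2) * T ^ 2) * |b - a| := by
      intro T
      refine intervalIntegral.norm_integral_le_of_norm_le_const fun x hx => ?_
      rw [Set.uIoc_of_le hab] at hx
      rw [← hσ T]
      exact hbd x (σ T) hx.1.le hx.2
    refine squeeze_zero_norm h1 ?_
    have h2 : Tendsto (fun T : ℝ => Real.exp (-(1 / 2) * T ^ 2)) atTop (𝓝 0) := by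
      refine Real.tendsto_exp_atBot.comp ?_
      refine Tendsto.const_mul_atTop_of_neg (by norm_num) ?_
      exact tendsto_pow_atTop two_ne_zero
    have h3 := (h2.const_mul K).mul_const |b - a|
    rwa [mul_zero, zero_mul] at h3
  have t1 := hhor (fun T => -T) fun T => by ring
  have t2 := hhor (fun T => T) fun T => rfl
  have hlim : Tendsto (fun T : ℝ => (∫ x : ℝ in a..b, f (x + (-T : ℝ) * Complex.I)) -
      (∫ x : ℝ in a..b, f (x + T * Complex.I)) +
      Complex.I • (∫ y : ℝ in (-T)..T, f (b + y * Complex.I)) -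
      Complex.I • (∫ y : ℝ in (-T)..T, f (a + y * Complex.I))) atTop
      (𝓝 (0 - 0 + Complex.I • (∫ v : ℝ, g (b + v * Complex.I) * Complex.exp ((b + v * Complex.I) ^ 2)) -
        Complex.I • (∫ v : ℝ, g (a + v * Complex.I) * Complex.exp ((a + v * Complex.I) ^ 2)))) := by
    refine ((t1.sub t2).add (Tendsto.const_smul ?_ _)).sub (Tendsto.const_smul ?_ _)
    · rw [hf]
      exact tb
    · rw [hf]
      exact ta
  simp only [hrect] at hlim
  have h5 := tendsto_nhds_unique hlim tendsto_const_nhds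
  rw [sub_zero, zero_add, ← smul_sub, smul_eq_zero, sub_eq_zero] at h5
  rcases h5 with h5 | h5
  · exact absurd h5 Complex.I_ne_zero
  · exact h5.symm

end Pool.Agent.T2h79.LG.SHF
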