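import Pool.Agent.T2h79.LG.Stm
import Pool.Agent.T2h77N.Asm5

/-!
# Project LG, task TRK: the trivial bound for the number of the forms
-/

set_option autoImplicit false

open MeasureTheory Matrix
open scoped MatrixGroups ENNReal Topology ComplexConjugate

noncomputable section

namespace Pool.Agent.T2h79.LG.TRK

open Pool.Agent.T2h77.N

/-- the logarithm of the largest ratio -/
theorem log_WD {n N : ℕ} {W D : ℝ} (hN : 1 ≤ N) (hW : 1 ≤ W) (hD1 : 1 ≤ D) (hD : D ≤ (N : ℝ) ^ (n ^ 2)) :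
    1 + Real.log (W * D) ≤ (1 + Real.log W + (n : ℝ) ^ 2) * (1 + Real.log N) := by
  have hN1 : (1 : ℝ) ≤ N := by exact_mod_cast hN
  have h1 : Real.log D ≤ (n : ℝ) ^ 2 * Real.log N := by
    have := Real.log_le_log (by linarith) hD
    rwa [Real.log_pow, Nat.cast_pow] at this
  rw [Real.log_mul (by linarith) (by linarith)]
  have h2 : 0 ≤ Real.log N := Real.log_nonneg hN1
  have h3 : 0 ≤ Real.log W := Real.log_nonneg hW
  have h4 : (0 : ℝ) ≤ (n : ℝ) ^ 2 := by positivity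
  nlinarith [mul_nonneg h3 h2]

theorem index_bot (n N : ℕ) [NeZero N] : (⊥ : Subgroup (GN n N)).index = Nat.card (GN n N) :=
  Subgroup.index_bot

theorem t_TRK (hiw : S_iw) (hred : S_red) (hint : S_int) (_hent : S_ent) (htriv : S_triv) (htr : S_trace)
    (hcut : S_cut) (hmass : S_mass) (hcov : S_cov) (hrcf : S_rcf) (hsln : S_sln) : S_trk := by
  classical
  intro n hn U hU
  obtain ⟨χ, hχ, hχc, hχ0, hχU, hχ1⟩ := exists_bump n hU
  obtain ⟨M, Ct, hCt, htr⟩ := htr n χ hχ hχc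
  obtain ⟨Cm, hCm, htriv⟩ := htriv n M
  obtain ⟨W, hW, hcut⟩ := hcut n χ (1 / 16) hχ hχc (by norm_num)
  obtain ⟨Ci, hCi, hi⟩ := hint n
  have hlW : 0 ≤ Real.log W := Real.log_nonneg hW
  set K : ℝ := 1 + Real.log W + (n : ℝ) ^ 2 with hK
  have hK1 : 1 ≤ K := by
    have : (0 : ℝ) ≤ (n : ℝ) ^ 2 := by positivity
    linarith
  have hpos : 0 < 16 / 3 * (Ct * Cm * Ci * K ^ n) := by positivity
  refine ⟨16 / 3 * (Ct * Cm * Ci * K ^ n) + 1, by linarith, fun N _ F hF k f hf horth => ?_⟩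
  have hN1 : 1 ≤ N := Nat.one_le_iff_ne_zero.2 (NeZero.ne N)
  have hNr : (1 : ℝ) ≤ N := by exact_mod_cast hN1
  obtain ⟨hD1, hD2⟩ := hsln n N (by omega)
  set D : ℝ := (ixS (⊥ : Subgroup (GN n N)) : ℝ) with hD
  have hD1' : 1 ≤ D := by
    rw [hD]
    exact_mod_cast hN1.trans hD1
  have hD2' : D ≤ (N : ℝ) ^ (n ^ 2) := by
    rw [hD]
    exact_mod_cast hD2
  set m : ℝ := (Nat.card (GN n N) : ℝ) with hm
  have hm0 : 0 ≤ m := Nat.cast_nonneg _
  have hWD : 1 ≤ W * D := by nlinarith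
  have hlN : 0 ≤ Real.log N := Real.log_nonneg hNr
  -- the low region for `Y = 0` is empty
  have hempty : SL n 0 = ∅ := by
    rw [Set.eq_empty_iff_forall_notMem]
    rintro x ⟨-, hx⟩
    have h1 := hx ⟨0, by omega⟩ ⟨1, by omega⟩ rfl
    rw [zero_mul] at h1
    exact absurd ((hiw n).1 x ⟨1, by omega⟩) (not_lt.2 h1)
  have hsat : sat (SL n 0) = ∅ := by
    rw [hempty, Set.eq_empty_iff_forall_notMem]
    rintro x ⟨γ, hγ⟩
    exact hγ
  set high : Fin k → ℝ≥0∞ := fun i => ∫⁻ g in F ∩ sat (SH n 0 (W * D)), sq (Rc χ (f i)) g ∂(mu n) with hhighdef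
  have hsplit : ∀ i, ENNReal.ofReal (3 / 16) ≤ 0 + high i := fun i => by
    have h := mass_split hred hrcf hχ hχc hF (hf i).1 (hf i).2.1 (by rw [horth, if_pos rfl])
      (hmass n U χ hχ hχc hχ0 hχU hχ1 N ⊥ F hF (f i) (hf i).1 (hf i).2.1 (by rw [horth, if_pos rfl]) (hf i).2.2.2)
      (hcut N ⊥ F hF (f i) (hf i).1 (hf i).2.1 (hf i).2.2.1) 0
    rw [hsat, Set.inter_empty, Measure.restrict_empty, lintegral_zero_measure] at h
    exact h
  set B' : ℝ := Ct * (Cm * m) * (Ci * (1 + Real.log (W * D)) ^ n) with hB'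
  have hlWD : 0 ≤ Real.log (W * D) := Real.log_nonneg hWD
  have hB0' : 0 ≤ B' := by positivity
  have hhighB : ∑ i, high i ≤ ENNReal.ofReal B' := by
    refine high_bound hcov hrcf hiw hχ hχc hF (fun i => (hf i).1) (fun i => (hf i).2.1) (M := M) (C := Ct)
      (fun g c => htr N ⊥ F hF k f (fun i => (hf i).1) (fun i => (hf i).2.1) horth 1 {1} one_pos (by simp)
        (isReps_one n) g c) hCt.le 0 (W * D) (Cm * m) (Ci * (1 + Real.log (W * D)) ^ n) (by positivity) ?_ (hi (W * D) hWD)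
    intro x hx
    have := htriv N (⊥ : Subgroup (GN n N)) x hx.1.1
    rwa [index_bot] at this
  have hfin := sum_classes (fun _ => 0) high hsplit (fun _ => (0, 0)) 0 0 (fun _ => ⟨le_rfl, le_rfl⟩) 0 B' le_rfl hB0'
    (fun q => by simp) hhighB
  have h1 : (k : ℝ) * (3 / 16) ≤ B' := by
    have : ((0 : ℕ) : ℝ) = 0 := Nat.cast_zero
    rw [this] at hfin
    linarith
  have h2 : B' ≤ Ct * (Cm * m) * (Ci * (K * (1 + Real.log N)) ^ n) := by
    have := log_WD (n := n) hN1 hW hD1' hD2'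
    rw [hB']
    gcongr
  calc (k : ℝ) = 16 / 3 * ((k : ℝ) * (3 / 16)) := by ring
    _ ≤ 16 / 3 * (Ct * (Cm * m) * (Ci * (K * (1 + Real.log N)) ^ n)) := by linarith
    _ = (16 / 3 * (Ct * Cm * Ci * K ^ n)) * m * (1 + Real.log N) ^ n := by
        rw [mul_pow]
        ring
    _ ≤ (16 / 3 * (Ct * Cm * Ci * K ^ n) + 1) * m * (1 + Real.log N) ^ n := by
        gcongr
        linarith

end Pool.Agent.T2h79.LG.TRK
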