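import Pool.Agent.T2h79.LG.In77
import Pool.Agent.T2h79.LG.T_AFE
import Pool.Agent.T2h79.LG.T_AVG
import Pool.Agent.T2h79.LG.T_ASL
import Pool.Agent.T2h79.LG.T_ASM
import Pool.Agent.T2h79.LG.T_BOX
import Pool.Agent.T2h79.LG.T_CNT
import Pool.Agent.T2h79.LG.T_DIR
import Pool.Agent.T2h79.LG.T_DUA
import Pool.Agent.T2h79.LG.T_DYA
import Pool.Agent.T2h79.LG.T_FAC
import Pool.Agent.T2h79.LG.T_FEQ
import Pool.Agent.T2h79.LG.T_GAM
import Pool.Agent.T2h79.LG.T_HIC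
import Pool.Agent.T2h79.LG.T_IDX
import Pool.Agent.T2h79.LG.T_IDY
import Pool.Agent.T2h79.LG.T_KNU
import Pool.Agent.T2h79.LG.T_LAM
import Pool.Agent.T2h79.LG.T_LSI
import Pool.Agent.T2h79.LG.T_LSP
import Pool.Agent.T2h79.LG.T_NQU
import Pool.Agent.T2h79.LG.T_REPG
import Pool.Agent.T2h79.LG.T_REPU
import Pool.Agent.T2h79.LG.T_RNU
import Pool.Agent.T2h79.LG.T_SHF
import Pool.Agent.T2h79.LG.T_SHO
import Pool.Agent.T2h79.LG.T_SLN
import Pool.Agent.T2h79.LG.T_SYM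
import Pool.Agent.T2h79.LG.T_TRK
import Pool.Agent.T2h79.LG.T_TRW

/-!
# The Lindelöf bound for almost all cusp forms of `GL_n` of principal level
-/

set_option autoImplicit false

namespace Pool.Agent.T2h79.LG

theorem p_repG : S_repG := REPG.t_REPG
theorem p_repU : S_repU := REPU.t_REPU
theorem p_knu : S_knu := KNU.t_KNU p_repG IDX.t_IDX
theorem p_rnu : S_rnu := RNU.t_RNU p_repG p_repU IDX.t_IDX IDY.t_IDY DUA.t_DUA
theorem p_nqu : S_nqu := NQU.t_NQU p_knu (BOX.t_BOX IDX.t_IDX IDY.t_IDY) DUA.t_DUA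
theorem p_avg : S_avg := AVG.t_AVG SHO.t_SHO p_nqu p_rnu p_repG p_repU
theorem p_cnt : S_cnt := CNT.t_CNT i_iw i_ent SYM.t_SYM
theorem p_lsp : S_lsp := LSP.t_LSP Pool.Agent.T2h79.LG.t_TRW SYM.t_SYM p_cnt p_avg i_rcf p_repG
theorem p_lsi : S_lsi := LSI.t_LSI p_lsp i_cov i_rcf i_iw i_ent i_int
theorem p_lam : S_lam := LAM.t_LAM
theorem p_dir : S_dir := DIR.t_DIR p_lam
theorem p_feq : S_feq := FEQ.t_FEQ SHF.t_SHF
theorem p_afe : S_afe := AFE.t_AFE p_feq SHF.t_SHF p_dir p_lam GAM.t_GAM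
theorem p_fac : S_fac := FAC.t_FAC p_lam
theorem p_asl : S_asl := ASL.t_ASL p_lsi p_afe p_fac DYA.t_DYA
theorem p_trk : S_trk := TRK.t_TRK i_iw i_red i_int i_ent i_triv i_trace i_cut i_mass i_cov i_rcf SLN.t_SLN
theorem p_hic : S_hic := HIC.t_HIC i_iw i_red i_int i_ent i_high i_trace i_cut i_mass i_cov i_rcf SLN.t_SLN

theorem p_main : S_main := ASM.t_ASM p_asl p_hic p_trk

end Pool.Agent.T2h79.LG
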