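import Pool.Agent.T2h79.LG.Stm3

/-! AVT: `av1` for small determinants. -/

set_option autoImplicit false

open Matrix

noncomputable section

namespace Pool.Agent.T2h79.LG.AVT

open Pool.Agent.T2h77.N Pool.Agent.T2h79.LG

/-- the number of the solutions of one linear congruence -/
theorem row_count {n N : ℕ} [NeZero N] (φ : Fin n → ℤ) (j : Fin n) (hj : φ j ≠ 0) :
    Nat.card {v : Fin n → ZMod N // ∑ k, (φ k : ZMod N) * v k = 0} * N ≤
      N ^ n * (φ j).natAbs := by
  classical
  let f : (Fin n → ZMod N) →+ ZMod N :=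
    { toFun := fun v => ∑ k, (φ k : ZMod N) * v k
      map_zero' := by simp
      map_add' := fun u v => by
        rw [← Finset.sum_add_distrib]
        exact Finset.sum_congr rfl fun k _ => by rw [Pi.add_apply, mul_add] }
  let g : ZMod N →+ ZMod N :=
    { toFun := fun x => (φ j : ZMod N) * x
      map_zero' := by simp
      map_add' := fun u v => mul_add _ _ _ }
  have h1 : Nat.card {v : Fin n → ZMod N // ∑ k, (φ k : ZMod N) * v k = 0} = Nat.card f.ker := rfl
  have h2 : Nat.card f.ker * Nat.card f.range = N ^ n := by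
    rw [← AddSubgroup.index_ker, AddSubgroup.card_mul_index, Nat.card_fun, Nat.card_zmod]
    simp
  have h3 : Nat.card g.ker * Nat.card g.range = N := by
    rw [← AddSubgroup.index_ker, AddSubgroup.card_mul_index, Nat.card_zmod]
  have h4 : Nat.card g.ker ≤ (φ j).natAbs := by
    have h5 := IsAddCyclic.card_nsmul_eq_zero_le (α := ZMod N) (n := (φ j).natAbs)
      (Int.natAbs_pos.2 hj)
    refine le_trans (le_of_eq ?_) h5
    rw [← Fintype.card_subtype, ← Nat.card_eq_fintype_card]
    apply Nat.card_congr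
    refine Equiv.subtypeEquivRight fun x => ?_
    show (φ j : ZMod N) * x = 0 ↔ (φ j).natAbs • x = 0
    rw [nsmul_eq_mul]
    rcases Int.natAbs_eq (φ j) with h | h
    · nth_rw 1 [h]
      rw [Int.cast_natCast]
    · nth_rw 1 [h]
      rw [Int.cast_neg, Int.cast_natCast, neg_mul, neg_eq_zero]
  have h5 : Nat.card g.range ≤ Nat.card f.range := by
    apply Nat.card_mono (Set.toFinite _)
    rintro y ⟨x, rfl⟩
    refine ⟨Pi.single j x, ?_⟩
    show ∑ k, (φ k : ZMod N) * (Pi.single j x : Fin n → ZMod N) k = (φ j : ZMod N) * x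
    rw [Finset.sum_eq_single j]
    · rw [Pi.single_eq_same]
    · intro k _ hk
      rw [Pi.single_eq_of_ne hk, mul_zero]
    · intro h
      exact absurd (Finset.mem_univ j) h
  rw [h1]
  calc Nat.card f.ker * N = Nat.card f.ker * (Nat.card g.ker * Nat.card g.range) := by rw [h3]
    _ ≤ Nat.card f.ker * ((φ j).natAbs * Nat.card f.range) := by gcongr
    _ = (Nat.card f.ker * Nat.card f.range) * (φ j).natAbs := by ring
    _ = N ^ n * (φ j).natAbs := by rw [h2]

/-- integral matrices with bounded entries -/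
def box (n : ℕ) (R : ℝ) : Finset (MZ n) :=
  Fintype.piFinset fun _ => Fintype.piFinset fun _ => Finset.Icc (-⌊R⌋) ⌊R⌋

theorem mem_box {n : ℕ} {R : ℝ} {A : MZ n} (h : ∀ i j, |((A i j : ℤ) : ℝ)| ≤ R) : A ∈ box n R := by
  refine Fintype.mem_piFinset.2 fun i => Fintype.mem_piFinset.2 fun j => ?_
  have h1 := abs_le.1 (h i j)
  refine Finset.mem_Icc.2 ?_
  constructor
  · rw [neg_le]
    apply Int.le_floor.2
    push_cast
    linarith
  · exact Int.le_floor.2 h1.2

theorem card_box {n : ℕ} {R : ℝ} (hR : 1 ≤ R) : ((box n R).card : ℝ) ≤ (3 * R) ^ (n ^ 2) := by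
  have hc : (box n R).card = (⌊R⌋ + 1 - -⌊R⌋).toNat ^ (n ^ 2) := by
    refine (Fintype.card_piFinset (fun _ : Fin n =>
      Fintype.piFinset fun _ : Fin n => Finset.Icc (-⌊R⌋) ⌊R⌋)).trans ?_
    rw [Finset.prod_const, Fintype.card_piFinset, Finset.prod_const,
      Finset.card_univ, Fintype.card_fin, Int.card_Icc, ← pow_mul, ← _root_.sq]
  rw [hc]
  push_cast
  have h0 : (0 : ℤ) ≤ ⌊R⌋ := Int.floor_nonneg.2 (by linarith)
  have h1 : (((⌊R⌋ + 1 - -⌊R⌋).toNat : ℕ) : ℝ) = 2 * (⌊R⌋ : ℝ) + 1 := by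
    have h2 : (((⌊R⌋ + 1 - -⌊R⌋).toNat : ℕ) : ℤ) = ⌊R⌋ + 1 - -⌊R⌋ :=
      Int.toNat_of_nonneg (by linarith)
    have h3 : (((⌊R⌋ + 1 - -⌊R⌋).toNat : ℕ) : ℝ) = ((⌊R⌋ + 1 - -⌊R⌋ : ℤ) : ℝ) := by
      exact_mod_cast h2
    rw [h3]
    push_cast
    ring
  rw [h1]
  have h2 : (⌊R⌋ : ℝ) ≤ R := Int.floor_le R
  have h3 : (0 : ℝ) ≤ (⌊R⌋ : ℝ) := by exact_mod_cast h0
  exact pow_le_pow_left₀ (by linarith) (by linarith) _

/-- AVT. -/
theorem t_AVT : S_avt := by
  classical
  intro n hn β r N _ hdet hr hN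
  set m : ℝ := (β.det : ℝ) with hm
  have hm1 : 1 ≤ m := by
    have : (1 : ℤ) ≤ β.det := hdet
    rw [hm]
    exact_mod_cast this
  have hR1 : 1 ≤ m * r := by nlinarith
  have hN0 : 0 < N := Nat.pos_of_ne_zero (NeZero.ne N)
  have hN1 : (0 : ℝ) < N := by exact_mod_cast hN0
  -- the matrices
  have hinj : Function.Injective fun W : MZ n => β.adjugate * W := by
    intro W W' h
    have h1 : β * (β.adjugate * W) = β * (β.adjugate * W') := congrArg _ h
    rw [← Matrix.mul_assoc, ← Matrix.mul_assoc, Matrix.mul_adjugate, Matrix.smul_mul,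
      Matrix.smul_mul, Matrix.one_mul, Matrix.one_mul] at h1
    ext i j
    have h2 := congrFun (congrFun h1 i) j
    simp only [Matrix.smul_apply, smul_eq_mul] at h2
    exact mul_left_cancel₀ hdet.ne' h2
  set Wf : Finset (MZ n) := (box n (m * r)).preimage (fun W : MZ n => β.adjugate * W)
    hinj.injOn with hWf
  have hWc : (Wf.card : ℝ) ≤ (3 * (m * r)) ^ (n ^ 2) := by
    refine le_trans ?_ (card_box hR1)
    exact_mod_cast Finset.card_le_card_of_injOn (fun W : MZ n => β.adjugate * W)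
      (fun W hW => Finset.mem_preimage.1 hW) hinj.injOn
  set V : MZ n → Finset (Fin n → ZMod N) := fun W =>
    Finset.univ.filter fun v => W.map (Int.cast : ℤ → ZMod N) *ᵥ v = 0 with hV
  set F : Finset (Σ _ : MZ n, Fin n → ZMod N) := Wf.sigma V with hF
  have h1 : av1 β r N ≤ F.card := by
    unfold av1
    have hmem : ∀ p : {p : MZ n × (Fin n → ZMod N) //
        (∀ i j, |(((β.adjugate * p.1) i j : ℤ) : ℝ)| ≤ (β.det : ℝ) * r) ∧
        Um p.2 ∧ p.1.map (Int.cast : ℤ → ZMod N) *ᵥ p.2 = 0},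
        (⟨p.1.1, p.1.2⟩ : Σ _ : MZ n, Fin n → ZMod N) ∈ F := by
      rintro ⟨⟨W, v⟩, h1, h2, h3⟩
      rw [hF, Finset.mem_sigma]
      refine ⟨?_, ?_⟩
      · rw [hWf, Finset.mem_preimage]
        exact mem_box h1
      · simp only [hV, Finset.mem_filter, Finset.mem_univ, true_and]
        exact h3
    have h2 := Nat.card_le_card_of_injective
      (fun p : {p : MZ n × (Fin n → ZMod N) //
        (∀ i j, |(((β.adjugate * p.1) i j : ℤ) : ℝ)| ≤ (β.det : ℝ) * r) ∧
        Um p.2 ∧ p.1.map (Int.cast : ℤ → ZMod N) *ᵥ p.2 = 0} =>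
        (⟨⟨p.1.1, p.1.2⟩, hmem p⟩ : {x // x ∈ F})) (by
        rintro ⟨⟨W, v⟩, hp⟩ ⟨⟨W', v'⟩, hp'⟩ h
        simp only [Subtype.mk.injEq, Sigma.mk.injEq, heq_eq_eq] at h
        obtain ⟨rfl, rfl⟩ := h
        rfl)
    refine h2.trans (le_of_eq ?_)
    rw [Nat.card_eq_fintype_card, Fintype.card_coe]
  -- the columns
  have h2 : ∀ W ∈ Wf, ((V W).card : ℝ) ≤ (if W = 0 then (N : ℝ) ^ n else 0) +
      (N : ℝ) ^ n / N * (m * r) := by
    intro W hW
    split_ifs with hW0
    · have h3 : ((V W).card : ℝ) ≤ (N : ℝ) ^ n := by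
        have h4 : (V W).card ≤ Fintype.card (Fin n → ZMod N) := Finset.card_le_univ _
        rw [Fintype.card_fun, ZMod.card, Fintype.card_fin] at h4
        exact_mod_cast h4
      have h5 : 0 ≤ (N : ℝ) ^ n / N * (m * r) := by positivity
      linarith
    · rw [zero_add]
      set A : MZ n := β.adjugate * W with hA
      have hA0 : A ≠ 0 := by
        intro h
        apply hW0
        apply hinj
        show β.adjugate * W = β.adjugate * 0
        rw [← hA, h, Matrix.mul_zero]
      obtain ⟨i, j, hij⟩ : ∃ i j, A i j ≠ 0 := by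
        by_contra hcon
        push Not at hcon
        apply hA0
        ext i j
        exact hcon i j
      have hbd : |((A i j : ℤ) : ℝ)| ≤ m * r := by
        rw [hWf, Finset.mem_preimage] at hW
        unfold box at hW
        have h3 := Finset.mem_Icc.1 ((Fintype.mem_piFinset.1 ((Fintype.mem_piFinset.1 hW) i)) j)
        rw [← hA] at h3
        have h4 : (⌊m * r⌋ : ℝ) ≤ m * r := Int.floor_le _
        have h5 : ((A i j : ℤ) : ℝ) ≤ (⌊m * r⌋ : ℝ) := by exact_mod_cast h3.2
        have h6 : -(⌊m * r⌋ : ℝ) ≤ ((A i j : ℤ) : ℝ) := by exact_mod_cast h3.1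
        exact abs_le.2 ⟨by linarith, by linarith⟩
      have h3 := row_count (N := N) (fun k => A i k) j hij
      have h4 : (V W).card ≤ Nat.card {v : Fin n → ZMod N //
          ∑ k, ((A i k : ℤ) : ZMod N) * v k = 0} := by
        rw [Nat.card_eq_fintype_card, Fintype.card_subtype]
        apply Finset.card_le_card
        intro v hv
        simp only [hV, Finset.mem_filter, Finset.mem_univ, true_and] at hv ⊢
        have h5 : A.map (Int.cast : ℤ → ZMod N) *ᵥ v = 0 := by
          have h6 : A.map (Int.cast : ℤ → ZMod N) =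
              β.adjugate.map (Int.cast : ℤ → ZMod N) * W.map (Int.cast : ℤ → ZMod N) := by
            rw [hA]
            exact Matrix.map_mul (f := Int.castRingHom (ZMod N))
          rw [h6, ← Matrix.mulVec_mulVec, hv, Matrix.mulVec_zero]
        have h7 := congrFun h5 i
        simp only [Matrix.mulVec, dotProduct, Matrix.map_apply, Pi.zero_apply] at h7
        exact h7
      have h5 : ((V W).card : ℝ) * N ≤ (N : ℝ) ^ n * |((A i j : ℤ) : ℝ)| := by
        have h6 : ((V W).card) * N ≤ N ^ n * (A i j).natAbs :=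
          (Nat.mul_le_mul_right N h4).trans h3
        have h7 : (((V W).card * N : ℕ) : ℝ) ≤ ((N ^ n * (A i j).natAbs : ℕ) : ℝ) := by
          exact_mod_cast h6
        push_cast at h7
        rw [Nat.cast_natAbs, Int.cast_abs] at h7
        exact h7
      rw [div_mul_eq_mul_div, le_div_iff₀ hN1]
      exact h5.trans (mul_le_mul_of_nonneg_left hbd (by positivity))
  have h3 : (F.card : ℝ) ≤ (N : ℝ) ^ n + (3 * (m * r)) ^ (n ^ 2) * ((N : ℝ) ^ n / N * (m * r)) := by
    rw [hF, Finset.card_sigma]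
    push_cast
    refine (Finset.sum_le_sum h2).trans ?_
    rw [Finset.sum_add_distrib, Finset.sum_const, nsmul_eq_mul]
    apply add_le_add
    · rw [Finset.sum_ite_eq']
      split_ifs
      · exact le_rfl
      · positivity
    · exact mul_le_mul_of_nonneg_right hWc (by positivity)
  have h4 : (3 * (m * r)) ^ (n ^ 2) * ((N : ℝ) ^ n / N * (m * r)) ≤ (N : ℝ) ^ n := by
    have h5 : (3 * (m * r)) ^ (n ^ 2) * (m * r) ≤ N := by
      refine le_trans ?_ hN
      have h6 : (3 * m * r) ^ (n ^ 2 + 1) = (3 * (m * r)) ^ (n ^ 2) * (3 * (m * r)) := by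
        rw [pow_succ, mul_assoc 3 m r]
      rw [h6]
      exact mul_le_mul_of_nonneg_left (by linarith) (by positivity)
    calc (3 * (m * r)) ^ (n ^ 2) * ((N : ℝ) ^ n / N * (m * r))
        = (N : ℝ) ^ n / N * ((3 * (m * r)) ^ (n ^ 2) * (m * r)) := by ring
      _ ≤ (N : ℝ) ^ n / N * N := mul_le_mul_of_nonneg_left h5 (by positivity)
      _ = (N : ℝ) ^ n := by field_simp
  have h5 : (av1 β r N : ℝ) ≤ F.card := by exact_mod_cast h1
  linarith

end Pool.Agent.T2h79.LG.AVT
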