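import Pool.Agent.T2h79.LG.Stm4

/-!
# BL0: the large sieve inequality for the principal level in the form `BLS`
-/

set_option autoImplicit false

open MeasureTheory Matrix
open scoped MatrixGroups ENNReal Topology ComplexConjugate

noncomputable section

namespace Pool.Agent.T2h79.LG.BL0

open Pool.Agent.T2h77.N Pool.Agent.T2h79.LG

theorem t_BL0 (hL : S_lsi) : S_bl0 := by
  intro n hn χ hχ hχ' ε hε
  have hn0 : (0 : ℝ) < (n : ℝ) := by exact_mod_cast hn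
  obtain ⟨C, hC, h⟩ := hL n hn χ hχ hχ' (ε / n) (by positivity)
  have hC0 : (0 : ℝ) < C := by linarith
  have hCn : (1 : ℝ) ≤ C ^ n := one_le_pow₀ hC
  have hCC : C ≤ C ^ n := by
    calc C = C ^ 1 := (pow_one C).symm
      _ ≤ C ^ n := pow_le_pow_right₀ hC hn
  refine ⟨C ^ n, hCn, ?_⟩
  intro N hN F hF k f l hfam heig Y B b hY hB hB2 hBN
  have hN0 : (0 : ℝ) < (N : ℝ) := by exact_mod_cast Nat.pos_of_ne_zero (NeZero.ne N)
  have hY0 : (0 : ℝ) < Y := by linarith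
  have hlogY : 0 ≤ Real.log Y := Real.log_nonneg hY
  refine (h N F hF k f l hfam.1 hfam.2.1 hfam.2.2 heig Y B b hY hB hB2 ?_).trans ?_
  · intro m hm
    have h1 := hBN m hm
    have h2 : (m : ℝ) * (C * Y ^ n / N) ^ n = C ^ n * m * Y ^ (n ^ 2) / (N : ℝ) ^ n := by
      rw [div_pow, mul_pow, ← pow_mul, ← pow_two]
      ring
    rw [h2, div_le_one (by positivity)]
    exact h1
  · apply ENNReal.ofReal_le_ofReal
    have hm : ∀ m ∈ B, (m : ℝ) ^ (ε / n) ≤ (N : ℝ) ^ ε := by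
      intro m hm
      have h1 := hBN m hm
      have hm0 : (0 : ℝ) < m := by exact_mod_cast (hB m hm).1
      have hYp : (1 : ℝ) ≤ Y ^ (n ^ 2) := one_le_pow₀ hY
      have h2 : (m : ℝ) ≤ (N : ℝ) ^ n := by
        refine le_trans ?_ h1
        calc (m : ℝ) = 1 * m * 1 := by ring
          _ ≤ C ^ n * m * Y ^ (n ^ 2) := by gcongr
      calc (m : ℝ) ^ (ε / n) ≤ ((N : ℝ) ^ n) ^ (ε / n) :=
            Real.rpow_le_rpow hm0.le h2 (by positivity)
        _ = (N : ℝ) ^ ε := by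
            rw [← Real.rpow_natCast, ← Real.rpow_mul hN0.le]
            congr 1
            field_simp
    have hS : ∑ m ∈ B, ‖b m‖ ^ 2 * (m : ℝ) ^ (ε / n) ≤ (N : ℝ) ^ ε * ∑ m ∈ B, ‖b m‖ ^ 2 := by
      rw [Finset.mul_sum]
      apply Finset.sum_le_sum
      intro m hm'
      have := hm m hm'
      calc ‖b m‖ ^ 2 * (m : ℝ) ^ (ε / n) ≤ ‖b m‖ ^ 2 * (N : ℝ) ^ ε := by gcongr
        _ = (N : ℝ) ^ ε * ‖b m‖ ^ 2 := by ring
    have hS0 : 0 ≤ ∑ m ∈ B, ‖b m‖ ^ 2 * (m : ℝ) ^ (ε / n) := by positivity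
    have hl : 0 ≤ (1 + Real.log Y) ^ n := by positivity
    calc C * Nat.card (GN n N) * (1 + Real.log Y) ^ n * ∑ m ∈ B, ‖b m‖ ^ 2 * (m : ℝ) ^ (ε / n)
        ≤ C ^ n * Nat.card (GN n N) * (1 + Real.log Y) ^ n * ((N : ℝ) ^ ε * ∑ m ∈ B, ‖b m‖ ^ 2) := by
          gcongr
      _ = C ^ n * Nat.card (GN n N) * (N : ℝ) ^ ε * (1 + Real.log Y) ^ n * ∑ m ∈ B, ‖b m‖ ^ 2 := by
          ring

end Pool.Agent.T2h79.LG.BL0
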