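import Pool.Agent.T2h79.LG.Stm4

/-!
# BL1: the large sieve inequality for the level `K_1(N)` in the form `BLS`
-/

set_option autoImplicit false

open MeasureTheory Matrix
open scoped MatrixGroups ENNReal Topology ComplexConjugate

noncomputable section

namespace Pool.Agent.T2h79.LG.BL1

open Pool.Agent.T2h77.N Pool.Agent.T2h79.LG

theorem t_BL1 (hL : S_li1) : S_bl1 := by
  intro n hn χ hχ hχ' ε hε
  obtain ⟨C, hC, h⟩ := hL n hn χ hχ hχ' ε hε
  refine ⟨C, hC, ?_⟩
  intro N hN F hF k f l hfam heig Y B b hY hB hB2 hBN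
  have hN0 : (0 : ℝ) < (N : ℝ) := by exact_mod_cast Nat.pos_of_ne_zero (NeZero.ne N)
  refine (h N F hF k f l hfam.1 hfam.2.1 hfam.2.2 heig Y B b hY hB hB2 ?_).trans ?_
  · intro m hm
    have := hBN m hm
    simpa using this
  · apply ENNReal.ofReal_le_ofReal
    apply le_of_eq
    rw [Real.rpow_add hN0, Real.rpow_natCast]
    ring

end Pool.Agent.T2h79.LG.BL1
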