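import Pool.Agent.T2h79.LG.Stm3
import Pool.Agent.T2h79.LG.T_DIR

/-! Bounds for the coefficients of the mollified L-function. -/

set_option autoImplicit false

namespace Pool.Agent.T2h79.LG.COB

open Pool.Agent.T2h79.LG Pool.Agent.T2h77.N

theorem es_le {n : ℕ} {r : ℝ} (hr : 0 ≤ r) (f : Fin n → ℂ) (hf : ∀ i, ‖f i‖ ≤ r) (k : ℕ) :
    ‖es f k‖ ≤ 2 ^ n * r ^ k := by
  unfold es
  refine (norm_sum_le _ _).trans ?_
  have h1 : ∀ s ∈ (Finset.univ : Finset (Fin n)).powersetCard k, ‖∏ j ∈ s, f j‖ ≤ r ^ k := by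
    intro s hs
    rw [norm_prod]
    calc ∏ j ∈ s, ‖f j‖ ≤ ∏ _j ∈ s, r := Finset.prod_le_prod (fun _ _ => norm_nonneg _) fun j _ => hf j
      _ = r ^ k := by rw [Finset.prod_const, (Finset.mem_powersetCard.1 hs).2]
  refine (Finset.sum_le_card_nsmul _ _ _ h1).trans ?_
  rw [nsmul_eq_mul, Finset.card_powersetCard, Finset.card_univ, Fintype.card_fin]
  refine mul_le_mul_of_nonneg_right ?_ (by positivity)
  exact_mod_cast Nat.choose_le_two_pow n k

theorem es_zero {n : ℕ} (f : Fin n → ℂ) : es f 0 = 1 := by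
  unfold es
  rw [Finset.powersetCard_zero, Finset.sum_singleton, Finset.prod_empty]

theorem mob_le {n : ℕ} (D : LData n) (hD : D.Ok) {m : ℕ} (hm : 0 < m) :
    ‖D.mob m‖ ≤ (m.divisors.card : ℝ) ^ n * (m : ℝ) ^ (1 / 2 : ℝ) := by
  have hm0 : m ≠ 0 := hm.ne'
  have h1 : ‖D.mob m‖ = ∏ p ∈ m.primeFactors, ‖es (D.α p) (m.factorization p)‖ := by
    unfold LData.mob Finsupp.prod
    rw [norm_prod]
    refine Finset.prod_congr rfl fun p _ => ?_
    rw [norm_mul, norm_pow, norm_neg, norm_one, one_pow, one_mul]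
  have h2 : ((m : ℝ)) ^ (1 / 2 : ℝ) = ∏ p ∈ m.primeFactors, Real.sqrt p ^ m.factorization p := by
    have h3 : ∀ p ∈ m.primeFactors, Real.sqrt p ^ m.factorization p =
        (((p : ℝ)) ^ m.factorization p) ^ (1 / 2 : ℝ) := by
      intro p _
      rw [Real.sqrt_eq_rpow, ← Real.rpow_natCast, ← Real.rpow_natCast, ← Real.rpow_mul (by positivity),
        ← Real.rpow_mul (by positivity), mul_comm]
    rw [Finset.prod_congr rfl h3, Real.finsetProd_rpow _ _ (fun p _ => by positivity)]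
    congr 1
    conv_lhs => rw [← Nat.prod_factorization_pow_eq_self hm0]
    rw [Finsupp.prod]
    push_cast
    rfl
  have h4 : (m.divisors.card : ℝ) ^ n = ∏ p ∈ m.primeFactors, ((m.factorization p : ℝ) + 1) ^ n := by
    rw [Nat.card_divisors hm0]
    push_cast
    rw [Finset.prod_pow]
  rw [h1, h2, h4, ← Finset.prod_mul_distrib]
  refine Finset.prod_le_prod (fun p _ => norm_nonneg _) fun p hp => ?_
  have hpp := Nat.prime_of_mem_primeFactors hp
  have h5 := es_le (Real.sqrt_nonneg _) (D.α p) (hD.satake p hpp) (m.factorization p)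
  refine h5.trans (mul_le_mul_of_nonneg_right (pow_le_pow_left₀ (by norm_num) ?_ n) (by positivity))
  have h6 : 1 ≤ m.factorization p :=
    (hpp.dvd_iff_one_le_factorization hm0).1 (Nat.dvd_of_mem_primeFactors hp)
  have h7 : (1 : ℝ) ≤ m.factorization p := by exact_mod_cast h6
  linarith

section mult

variable {n : ℕ} (D : LData n)

theorem mob_one : D.mob 1 = 1 := by
  unfold LData.mob
  rw [Nat.factorization_one, Finsupp.prod_zero_index]

theorem mob_prime_pow {p : ℕ} (hp : p.Prime) (k : ℕ) : D.mob (p ^ k) = (-1) ^ k * es (D.α p) k := by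
  unfold LData.mob
  rw [hp.factorization_pow]
  exact Finsupp.prod_single_index (h := fun p k => (-1) ^ k * es (D.α p) k)
    (by rw [pow_zero, es_zero, one_mul])

theorem mob_mul {a b : ℕ} (hab : a.Coprime b) : D.mob (a * b) = D.mob a * D.mob b := by
  unfold LData.mob
  rw [Nat.factorization_mul_of_coprime hab, Finsupp.prod_add_index_of_disjoint]
  rw [Nat.support_factorization, Nat.support_factorization]
  exact hab.disjoint_primeFactors

/-- the coefficients as arithmetic functions -/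
def fL : ArithmeticFunction ℂ := ⟨fun m => if m = 0 then 0 else D.lam m, by rw [if_pos rfl]⟩

/-- the coefficients as arithmetic functions -/
def fM : ArithmeticFunction ℂ := ⟨fun m => if m = 0 then 0 else D.mob m, by rw [if_pos rfl]⟩

theorem fL_apply {m : ℕ} (hm : m ≠ 0) : fL D m = D.lam m := if_neg hm

theorem fM_apply {m : ℕ} (hm : m ≠ 0) : fM D m = D.mob m := if_neg hm

theorem fL_mult : (fL D).IsMultiplicative := by
  refine ⟨by rw [fL_apply D one_ne_zero, DIR.lam_one], ?_⟩
  intro a b hab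
  by_cases ha : a = 0
  · subst ha
    rw [zero_mul, ArithmeticFunction.map_zero, zero_mul]
  by_cases hb : b = 0
  · subst hb
    rw [mul_zero, ArithmeticFunction.map_zero, mul_zero]
  rw [fL_apply D (mul_ne_zero ha hb), fL_apply D ha, fL_apply D hb, DIR.lam_mul D hab]

theorem fM_mult : (fM D).IsMultiplicative := by
  refine ⟨by rw [fM_apply D one_ne_zero, mob_one], ?_⟩
  intro a b hab
  by_cases ha : a = 0
  · subst ha
    rw [zero_mul, ArithmeticFunction.map_zero, zero_mul]
  by_cases hb : b = 0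
  · subst hb
    rw [mul_zero, ArithmeticFunction.map_zero, mul_zero]
  rw [fM_apply D (mul_ne_zero ha hb), fM_apply D ha, fM_apply D hb, mob_mul D hab]

theorem conv_apply {m : ℕ} (hm : m ≠ 0) :
    (fL D * fM D) m = ∑ e ∈ m.divisors, D.lam (m / e) * D.mob e := by
  rw [ArithmeticFunction.mul_apply, Nat.sum_divisorsAntidiagonal' (f := fun a b => fL D a * fM D b)]
  refine Finset.sum_congr rfl fun e he => ?_
  have hd := Nat.dvd_of_mem_divisors he
  have he0 : e ≠ 0 := fun h => hm (by rw [h] at hd; exact Nat.eq_zero_of_zero_dvd hd)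
  rw [fL_apply D (Nat.div_pos (Nat.le_of_dvd (Nat.pos_of_ne_zero hm) hd)
    (Nat.pos_of_ne_zero he0)).ne', fM_apply D he0]

theorem conv_prime_pow (hH : S_hes) {p k : ℕ} (hp : p.Prime) (hk : k ≠ 0) :
    (fL D * fM D) (p ^ k) = 0 := by
  rw [conv_apply D (pow_ne_zero _ hp.ne_zero), Nat.sum_divisors_prime_pow hp]
  have h := hH n (D.α p) k
  rw [if_neg hk] at h
  rw [← h]
  refine Finset.sum_congr rfl fun j hj => ?_
  have hj' : j ≤ k := Nat.lt_succ_iff.1 (Finset.mem_range.1 hj)
  rw [Nat.pow_div hj' hp.pos, mob_prime_pow D hp, DIR.lam_prime_pow D hp, mul_comm]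
  rfl

theorem conv_zero (hH : S_hes) {m : ℕ} (hm : 1 < m) :
    ∑ e ∈ m.divisors, D.lam (m / e) * D.mob e = 0 := by
  have hm0 : m ≠ 0 := by omega
  rw [← conv_apply D hm0]
  obtain ⟨p, hp, hpm⟩ := Nat.exists_prime_and_dvd (by omega : m ≠ 1)
  obtain ⟨k, m', hpm', rfl⟩ := Nat.exists_eq_pow_mul_and_not_dvd hm0 p hp.ne_one
  have hk : k ≠ 0 := by
    rintro rfl
    rw [pow_zero, one_mul] at hpm
    exact hpm' hpm
  have hc : (p ^ k).Coprime m' := Nat.Coprime.pow_left _ ((Nat.Prime.coprime_iff_not_dvd hp).2 hpm')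
  rw [((fL_mult D).mul (fM_mult D)).map_mul_of_coprime hc, conv_prime_pow D hH hp hk, zero_mul]

end mult

theorem t_COB (hL : S_lam) (hH : S_hes) : S_cob := by
  intro n
  obtain ⟨C, hC, h⟩ := Pool.Agent.H510R2.divisor_bound (1 / (4 * (2 * n + 1))) (by positivity)
  obtain ⟨C', hC'⟩ : ∃ C' : ℝ, C' = max 1 C := ⟨_, rfl⟩
  have hC1 : 1 ≤ C' := by rw [hC']; exact le_max_left _ _
  refine ⟨C' ^ (2 * n + 1), one_le_pow₀ hC1, fun D hD => ?_⟩
  -- the divisor bound
  have hdiv : ∀ m : ℕ, 0 < m → (m.divisors.card : ℝ) ^ (2 * n + 1) ≤ C' ^ (2 * n + 1) * (m : ℝ) ^ (1 / 4 : ℝ) := by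
    intro m hm
    have hm1 : (1 : ℝ) ≤ m := by exact_mod_cast hm
    have h2 : (m.divisors.card : ℝ) ≤ C' * (m : ℝ) ^ (1 / (4 * (2 * (n : ℝ) + 1))) :=
      (h m hm).trans (mul_le_mul_of_nonneg_right (by rw [hC']; exact le_max_right _ _) (by positivity))
    have h3 := pow_le_pow_left₀ (by positivity) h2 (2 * n + 1)
    rw [mul_pow, ← Real.rpow_natCast ((m : ℝ) ^ (1 / (4 * (2 * (n : ℝ) + 1)))), ← Real.rpow_mul (by positivity)] at h3
    refine h3.trans (le_of_eq ?_)
    congr 2
    push_cast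
    field_simp
  have hone : ∀ m : ℕ, 0 < m → (1 : ℝ) ≤ m.divisors.card := by
    intro m hm
    exact_mod_cast Finset.card_pos.2 ⟨1, Nat.one_mem_divisors.2 hm.ne'⟩
  have hexp : ∀ m : ℕ, 0 < m → (m.divisors.card : ℝ) ^ (2 * n + 1) * (m : ℝ) ^ (1 / 2 : ℝ) ≤
      C' ^ (2 * n + 1) * (m : ℝ) ^ (3 / 4 : ℝ) := by
    intro m hm
    have hm0 : (0 : ℝ) < m := by exact_mod_cast hm
    calc (m.divisors.card : ℝ) ^ (2 * n + 1) * (m : ℝ) ^ (1 / 2 : ℝ)
        ≤ (C' ^ (2 * n + 1) * (m : ℝ) ^ (1 / 4 : ℝ)) * (m : ℝ) ^ (1 / 2 : ℝ) :=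
          mul_le_mul_of_nonneg_right (hdiv m hm) (by positivity)
      _ = C' ^ (2 * n + 1) * (m : ℝ) ^ (3 / 4 : ℝ) := by
          rw [mul_assoc, ← Real.rpow_add hm0]
          norm_num
  refine ⟨?_, ?_, ?_⟩
  · intro e he
    refine (mob_le D hD he).trans (le_trans ?_ (hexp e he))
    exact mul_le_mul_of_nonneg_right (pow_le_pow_right₀ (hone e he) (by omega)) (by positivity)
  · intro Z m hm
    have hm0 : (0 : ℝ) < m := by exact_mod_cast hm
    refine le_trans ?_ (hexp m hm)
    unfold LData.cc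
    refine (norm_sum_le _ _).trans ?_
    have hb : ∀ e ∈ m.divisors.filter (· < Z), ‖D.lam (m / e) * D.mob e‖ ≤
        (m.divisors.card : ℝ) ^ (2 * n) * (m : ℝ) ^ (1 / 2 : ℝ) := by
      intro e he
      have hed := Nat.dvd_of_mem_divisors (Finset.mem_filter.1 he).1
      obtain ⟨f, rfl⟩ := hed
      have he0 : 0 < e := Nat.pos_of_ne_zero fun h => by subst h; simp at hm
      have hf0 : 0 < f := Nat.pos_of_ne_zero fun h => by subst h; simp at hm
      rw [Nat.mul_div_cancel_left f he0, norm_mul]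
      have h1 := LAM.lam_le D hD hf0
      have h2 := mob_le D hD he0
      have hce : (e.divisors.card : ℝ) ≤ (e * f).divisors.card := by
        exact_mod_cast Finset.card_le_card (Nat.divisors_subset_of_dvd (by positivity) (dvd_mul_right e f))
      have hcf : (f.divisors.card : ℝ) ≤ (e * f).divisors.card := by
        exact_mod_cast Finset.card_le_card (Nat.divisors_subset_of_dvd (by positivity) (dvd_mul_left f e))
      have h3 := pow_le_pow_left₀ (by positivity) hce n
      have h4 := pow_le_pow_left₀ (by positivity) hcf n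
      calc ‖D.lam f‖ * ‖D.mob e‖ ≤ ((f.divisors.card : ℝ) ^ n * (f : ℝ) ^ (1 / 2 : ℝ)) *
            ((e.divisors.card : ℝ) ^ n * (e : ℝ) ^ (1 / 2 : ℝ)) :=
            mul_le_mul h1 h2 (norm_nonneg _) (by positivity)
        _ ≤ (((e * f).divisors.card : ℝ) ^ n * (f : ℝ) ^ (1 / 2 : ℝ)) *
            (((e * f).divisors.card : ℝ) ^ n * (e : ℝ) ^ (1 / 2 : ℝ)) :=
            mul_le_mul (mul_le_mul_of_nonneg_right h4 (by positivity))
              (mul_le_mul_of_nonneg_right h3 (by positivity)) (by positivity) (by positivity)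
        _ = ((e * f).divisors.card : ℝ) ^ (2 * n) * (((e * f : ℕ) : ℝ)) ^ (1 / 2 : ℝ) := by
            rw [Nat.cast_mul, Real.mul_rpow (by positivity) (by positivity), two_mul, pow_add]
            ring
    refine (Finset.sum_le_card_nsmul _ _ _ hb).trans ?_
    rw [nsmul_eq_mul]
    have hcard : ((m.divisors.filter (· < Z)).card : ℝ) ≤ m.divisors.card := by
      exact_mod_cast Finset.card_le_card (Finset.filter_subset _ _)
    calc ((m.divisors.filter (· < Z)).card : ℝ) * ((m.divisors.card : ℝ) ^ (2 * n) * (m : ℝ) ^ (1 / 2 : ℝ))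
        ≤ (m.divisors.card : ℝ) * ((m.divisors.card : ℝ) ^ (2 * n) * (m : ℝ) ^ (1 / 2 : ℝ)) :=
          mul_le_mul_of_nonneg_right hcard (by positivity)
      _ = _ := by rw [pow_succ]; ring
  · intro Z hZ
    constructor
    · unfold LData.cc
      have h1 : (Nat.divisors 1).filter (· < Z) = {1} := by
        rw [Nat.divisors_one, Finset.filter_singleton, if_pos (by omega)]
      rw [h1, Finset.sum_singleton, Nat.div_one, DIR.lam_one, mob_one, one_mul]
    · intro m hm1 hmZ
      unfold LData.cc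
      have h1 : m.divisors.filter (· < Z) = m.divisors :=
        Finset.filter_true_of_mem fun e he => lt_of_le_of_lt (Nat.divisor_le he) hmZ
      rw [h1]
      exact conv_zero D hH hm1

end Pool.Agent.T2h79.LG.COB
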