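import Pool.Agent.T2h79.LG.DetB

/-!
# DET: detecting a zero
-/

set_option autoImplicit false

open MeasureTheory Matrix
open scoped MatrixGroups ENNReal Topology ComplexConjugate

noncomputable section

namespace Pool.Agent.T2h79.LG.DET

open Pool.Agent.T2h77.N Complex

/-- the polynomial at the zero -/
theorem poly (hP : S_shp) (ε : ℝ) (hε : 0 < ε) (hε2 : ε ≤ 1 / 2) (C₀ CV : ℝ) (hC₀ : 1 ≤ C₀) (hCV : 1 ≤ CV)
    (hV : ∀ x : ℝ, 0 < x → ‖VV x‖ ≤ CV) : ∃ C : ℝ, 1 ≤ C ∧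
    ∀ (n : ℕ) (D : LData n) (N Z X : ℕ) (g : ℝ), 2 ≤ Z → 0 < X → 0 ≤ g →
    (∀ m : ℕ, 0 < m → ‖D.cc Z m‖ ≤ C₀ * (m : ℝ) ^ (3 / 4 : ℝ)) →
    ∫ v : ℝ, (1 + v ^ 2)⁻¹ * ‖D.PP N Z X (((1 / 2 + ε / 2 : ℝ) : ℂ) + v * Complex.I)‖ ^ 2 ≤ g ^ 2 →
    ∀ s : ℂ, 1 / 2 + ε ≤ s.re → s.re ≤ 3 / 2 →
      ‖D.PP N Z X s‖ ≤ C * ((1 + |s.im|) ^ 2 * g + (Z : ℝ) ^ (-(1 / 2) : ℝ)) := by
  obtain ⟨C₁, hC₁, h₁⟩ := hP (ε / 2) (by linarith)
  have hsm : Summable fun m : ℕ => (m : ℝ) ^ (-(5 / 4) : ℝ) := Real.summable_nat_rpow.2 (by norm_num)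
  obtain ⟨S, hS⟩ : ∃ S : ℝ, S = ∑' m : ℕ, (m : ℝ) ^ (-(5 / 4) : ℝ) := ⟨_, rfl⟩
  have hS0 : 0 ≤ S := by rw [hS]; exact tsum_nonneg fun m => by positivity
  have hpos : 0 ≤ C₀ * CV * S := by positivity
  refine ⟨C₁ * (1 + C₀ * CV * S), by nlinarith, fun n D N Z X g hZ hX hg hc hI s hs1 hs2 => ?_⟩
  obtain ⟨B, hB⟩ : ∃ B : Finset ℕ, B = (Finset.range (X ^ 2)).filter (fun m => Z ≤ m ∧ 0 < m ∧ m.Coprime N) :=
    ⟨_, rfl⟩
  have hBm : ∀ m ∈ B, Z ≤ m ∧ 0 < m := by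
    intro m hm
    rw [hB] at hm
    have := (Finset.mem_filter.1 hm).2
    exact ⟨this.1, this.2.1⟩
  have hPP : ∀ w : ℂ, D.PP N Z X w = ∑ m ∈ B, (D.cc Z m * VV ((m : ℝ) / X)) * (m : ℂ) ^ (-w) := by
    intro w
    rw [hB]
    rfl
  have hZ0 : (0 : ℝ) < Z := by
    have : 0 < Z := by omega
    exact_mod_cast this
  have h2 := h₁ B (fun m => D.cc Z m * VV ((m : ℝ) / X)) (1 / 2 + ε / 2) g s (fun m hm => (hBm m hm).2) hg
    (by linarith) (by linarith) (by simpa only [hPP] using hI)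
  rw [hPP]
  refine h2.trans ?_
  have h3 : ∑ m ∈ B, ‖D.cc Z m * VV ((m : ℝ) / X)‖ * (m : ℝ) ^ (-(s.re + 2)) ≤
      C₀ * CV * S * (Z : ℝ) ^ (-(1 / 2) : ℝ) := by
    have hX0 : (0 : ℝ) < X := by exact_mod_cast hX
    calc ∑ m ∈ B, ‖D.cc Z m * VV ((m : ℝ) / X)‖ * (m : ℝ) ^ (-(s.re + 2))
        ≤ ∑ m ∈ B, (C₀ * CV * (Z : ℝ) ^ (-(1 / 2) : ℝ)) * (m : ℝ) ^ (-(5 / 4) : ℝ) := by
          refine Finset.sum_le_sum fun m hm => ?_
          obtain ⟨hmZ, hm0⟩ := hBm m hm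
          have hmr : (0 : ℝ) < m := by exact_mod_cast hm0
          have hm1 : (1 : ℝ) ≤ m := by exact_mod_cast hm0
          rw [norm_mul]
          calc ‖D.cc Z m‖ * ‖VV ((m : ℝ) / X)‖ * (m : ℝ) ^ (-(s.re + 2))
              ≤ (C₀ * (m : ℝ) ^ (3 / 4 : ℝ)) * CV * (m : ℝ) ^ (-(5 / 2) : ℝ) := by
                refine mul_le_mul (mul_le_mul (hc m hm0) (hV _ (by positivity)) (norm_nonneg _) (by positivity)) ?_
                  (by positivity) (by positivity)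
                exact Real.rpow_le_rpow_of_exponent_le hm1 (by linarith)
            _ = C₀ * CV * ((m : ℝ) ^ (-(1 / 2) : ℝ) * (m : ℝ) ^ (-(5 / 4) : ℝ)) := by
                rw [← Real.rpow_add hmr, show (-(1 / 2) : ℝ) + -(5 / 4) = 3 / 4 + -(5 / 2) by norm_num,
                  Real.rpow_add hmr]
                ring
            _ ≤ C₀ * CV * ((Z : ℝ) ^ (-(1 / 2) : ℝ) * (m : ℝ) ^ (-(5 / 4) : ℝ)) := by
                refine mul_le_mul_of_nonneg_left (mul_le_mul_of_nonneg_right ?_ (by positivity)) (by positivity)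
                exact Real.rpow_le_rpow_of_nonpos hZ0 (by exact_mod_cast hmZ) (by norm_num)
            _ = _ := by ring
      _ = (C₀ * CV * (Z : ℝ) ^ (-(1 / 2) : ℝ)) * ∑ m ∈ B, (m : ℝ) ^ (-(5 / 4) : ℝ) := by rw [Finset.mul_sum]
      _ ≤ (C₀ * CV * (Z : ℝ) ^ (-(1 / 2) : ℝ)) * S := by
          refine mul_le_mul_of_nonneg_left ?_ (by positivity)
          rw [hS]
          exact hsm.sum_le_tsum B fun m _ => by positivity
      _ = _ := by ring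
  have h4 : 0 ≤ (1 + |s.im|) ^ 2 * g := by positivity
  have h5 : 0 ≤ (Z : ℝ) ^ (-(1 / 2) : ℝ) := by positivity
  have h6 : 0 ≤ C₀ * CV * S := by positivity
  calc C₁ * ((1 + |s.im|) ^ 2 * g + ∑ m ∈ B, ‖D.cc Z m * VV ((m : ℝ) / X)‖ * (m : ℝ) ^ (-(s.re + 2)))
      ≤ C₁ * ((1 + |s.im|) ^ 2 * g + C₀ * CV * S * (Z : ℝ) ^ (-(1 / 2) : ℝ)) :=
        mul_le_mul_of_nonneg_left (by linarith) (by linarith)
    _ ≤ C₁ * ((1 + C₀ * CV * S) * ((1 + |s.im|) ^ 2 * g + (Z : ℝ) ^ (-(1 / 2) : ℝ))) := by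
        refine mul_le_mul_of_nonneg_left ?_ (by linarith)
        nlinarith [mul_nonneg h6 h4]
    _ = _ := by ring

/-- the mean of the product over the critical line -/
theorem line (n : ℕ) (ε ε' : ℝ) (K₀ : ℕ) (hε : 0 < ε) (hε' : 0 < ε') : ∃ C : ℝ, 1 ≤ C ∧
    ∀ (D : LData n), D.Ok → ∀ (N Z X : ℕ) (G : ℝ), 0 < N → 1 ≤ X → 1 ≤ G →
    (∀ t : ℝ, ‖D.L (1 / 2 + t * Complex.I)‖ ≤ G * (1 + |t|) ^ K₀) →
    ∫ v : ℝ, (1 + v ^ 2)⁻¹ * ‖D.Mo N Z (1 / 2 + v * Complex.I)‖ ^ 2 ≤ G ^ 2 →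
    ∀ (b γ : ℝ), ε ≤ b → b ≤ 1 →
      ‖∫ v : ℝ, (D.LN N (1 / 2 + ((γ + v : ℝ) : ℂ) * I) * D.Mo N Z (1 / 2 + ((γ + v : ℝ) : ℂ) * I) *
        (X : ℂ) ^ (((-b : ℝ) : ℂ) + v * I)) / (((-b : ℝ) : ℂ) + v * I) * cexp ((((-b : ℝ) : ℂ) + v * I) ^ 2)‖ ≤
        C * (1 + |γ|) ^ (K₀ + 1) * ((N : ℝ) ^ ε' * (X : ℝ) ^ (-ε) * G ^ 2) := by
  obtain ⟨C₁, hC₁, h₁⟩ := two_pow_bd n ε' hε'
  obtain ⟨A, hA⟩ : ∃ A : ℝ, A = 2 * Real.exp ((K₀ : ℝ) ^ 2 / 2) * Real.exp 1 / ε := ⟨_, rfl⟩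
  have hA0 : 0 < A := by rw [hA]; positivity
  refine ⟨1 + C₁ * A * 3, by nlinarith [mul_pos (by linarith : 0 < C₁) hA0],
    fun D hD N Z X G hN hX hG hL hM b γ hb1 hb2 => ?_⟩
  obtain ⟨p, hp⟩ : ∃ p : ℝ → ℝ, p = fun v : ℝ => ‖D.Mo N Z (1 / 2 + v * Complex.I)‖ := ⟨_, rfl⟩
  have hp0 : ∀ v, 0 ≤ p v := fun v => by rw [hp]; exact norm_nonneg _
  have hXr : (1 : ℝ) ≤ X := by exact_mod_cast hX
  have hNr : (1 : ℝ) ≤ N := by exact_mod_cast hN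
  have hb0 : 0 < b := by linarith
  have hpc : Continuous p := by
    rw [hp]
    exact ((md_Mo D N Z).1.continuous.comp (by fun_prop : Continuous fun v : ℝ => (1 / 2 : ℂ) + v * I)).norm
  obtain ⟨B, hB⟩ : ∃ B : ℝ, ∀ v, |p v| ≤ B := by
    refine ⟨∑ e ∈ (Finset.range Z).filter (fun e => 0 < e ∧ e.Coprime N), ‖D.mob e‖, fun v => ?_⟩
    rw [abs_of_nonneg (hp0 v), hp]
    simp only
    unfold LData.Mo
    refine (norm_sum_le _ _).trans (Finset.sum_le_sum fun e he => ?_)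
    have he0 := (Finset.mem_filter.1 he).2.1
    have he1 : (1 : ℝ) ≤ e := by exact_mod_cast he0
    rw [norm_mul, Complex.norm_natCast_cpow_of_pos he0]
    have : (e : ℝ) ^ (-(1 / 2 + (v : ℂ) * I)).re ≤ 1 := by
      apply Real.rpow_le_one_of_one_le_of_nonpos he1
      simp
    exact mul_le_of_le_one_right (norm_nonneg _) this
  have hB0 : 0 ≤ B := (abs_nonneg _).trans (hB 0)
  have i1 : Integrable fun v : ℝ => (1 + v ^ 2)⁻¹ * p (γ + v) :=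
    AFE.integrable_weight _ B (hpc.comp (by fun_prop)) fun v => hB _
  have i2 : Integrable fun v : ℝ => (1 + v ^ 2)⁻¹ * p (γ + v) ^ 2 :=
    AFE.integrable_weight _ (B ^ 2) ((hpc.comp (by fun_prop)).pow 2) fun v => by
      rw [abs_pow]; exact pow_le_pow_left₀ (abs_nonneg _) (hB _) 2
  have i3 : Integrable fun v : ℝ => (1 + v ^ 2)⁻¹ * p v ^ 2 :=
    AFE.integrable_weight _ (B ^ 2) (hpc.pow 2) fun v => by
      rw [abs_pow]; exact pow_le_pow_left₀ (abs_nonneg _) (hB _) 2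
  have cs := AFE.cs_weight (fun v => p (γ + v)) i1 i2
  have sh := AFE.shift_weight (fun v => p v ^ 2) γ (fun v => by positivity) i3
  have hM' : ∫ v : ℝ, (1 + v ^ 2)⁻¹ * p v ^ 2 ≤ G ^ 2 := by rw [hp]; exact hM
  obtain ⟨J, hJ⟩ : ∃ J : ℝ, J = ∫ v : ℝ, (1 + v ^ 2)⁻¹ * p (γ + v) := ⟨_, rfl⟩
  rw [← hJ] at cs
  have hJ0 : 0 ≤ J := by
    rw [hJ]; exact integral_nonneg fun v => mul_nonneg (by positivity) (hp0 _)
  have hJ2 : J ≤ 3 * ((1 + |γ|) * G) := by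
    refine le_of_sq_le_sq ?_ (by positivity)
    have h2 : 1 + γ ^ 2 ≤ (1 + |γ|) ^ 2 := by nlinarith [abs_nonneg γ, sq_abs γ]
    calc J ^ 2 ≤ Real.pi * ∫ v : ℝ, (1 + v ^ 2)⁻¹ * p (γ + v) ^ 2 := cs
      _ ≤ Real.pi * (2 * (1 + γ ^ 2) * G ^ 2) := by
          refine mul_le_mul_of_nonneg_left (sh.trans ?_) Real.pi_pos.le
          exact mul_le_mul_of_nonneg_left hM' (by positivity)
      _ ≤ 4 * (2 * (1 + |γ|) ^ 2 * G ^ 2) := by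
          refine mul_le_mul Real.pi_le_four ?_ (by positivity) (by norm_num)
          refine mul_le_mul_of_nonneg_right (by linarith) (by positivity)
      _ ≤ (3 * ((1 + |γ|) * G)) ^ 2 := by
          have : 0 ≤ ((1 + |γ|) * G) ^ 2 := by positivity
          nlinarith
  obtain ⟨Q, hQ⟩ : ∃ Q : ℝ, Q = C₁ * (N : ℝ) ^ ε' * G * (1 + |γ|) ^ K₀ * (X : ℝ) ^ (-ε) * A := ⟨_, rfl⟩
  have hQ0 : 0 ≤ Q := by rw [hQ]; positivity
  have hmain : ∀ v : ℝ, ‖(D.LN N (1 / 2 + ((γ + v : ℝ) : ℂ) * I) * D.Mo N Z (1 / 2 + ((γ + v : ℝ) : ℂ) * I) *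
        (X : ℂ) ^ (((-b : ℝ) : ℂ) + v * I)) / (((-b : ℝ) : ℂ) + v * I) * cexp ((((-b : ℝ) : ℂ) + v * I) ^ 2)‖ ≤
        Q * ((1 + v ^ 2)⁻¹ * p (γ + v)) := by
    intro v
    have hre : (((-b : ℝ) : ℂ) + v * I).re = -b := by simp
    have n1 : ‖D.LN N (1 / 2 + ((γ + v : ℝ) : ℂ) * I)‖ ≤ C₁ * (N : ℝ) ^ ε' * (G * ((1 + |γ|) ^ K₀ * Real.exp (K₀ * |v|))) := by
      unfold LData.LN
      rw [norm_mul, mul_comm]
      refine mul_le_mul ((euler_bd D hD N _ (by simp)).trans (h₁ N hN)) ((hL (γ + v)).trans ?_) (norm_nonneg _)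
        (by positivity)
      refine mul_le_mul_of_nonneg_left ?_ (by linarith)
      have h3 : (1 + |γ + v|) ^ K₀ ≤ ((1 + |γ|) * Real.exp |v|) ^ K₀ := by
        refine pow_le_pow_left₀ (by positivity) ?_ K₀
        have h4 := abs_add_le γ v
        have h5 := Real.add_one_le_exp |v|
        nlinarith [mul_nonneg (abs_nonneg γ) (abs_nonneg v), abs_nonneg γ]
      refine h3.trans (le_of_eq ?_)
      rw [mul_pow, ← Real.exp_nat_mul]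
    have n2 : ‖(X : ℂ) ^ (((-b : ℝ) : ℂ) + v * I)‖ ≤ (X : ℝ) ^ (-ε) := by
      rw [Complex.norm_natCast_cpow_of_pos hX, hre]
      exact Real.rpow_le_rpow_of_exponent_le hXr (by linarith)
    have n3 : ε ≤ ‖((-b : ℝ) : ℂ) + v * I‖ := by
      have := Complex.abs_re_le_norm (((-b : ℝ) : ℂ) + v * I)
      rw [hre, abs_neg, abs_of_pos hb0] at this
      linarith
    have n4 : ‖cexp ((((-b : ℝ) : ℂ) + v * I) ^ 2)‖ ≤ Real.exp 1 * Real.exp (-v ^ 2) := by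
      rw [AFE.norm_exp_sq]
      refine mul_le_mul_of_nonneg_right (Real.exp_le_exp.2 ?_) (Real.exp_pos _).le
      nlinarith
    rw [norm_mul, norm_div, norm_mul, norm_mul]
    have e1 := AFE.exp_le_inv K₀ v
    have ep : ‖D.Mo N Z (1 / 2 + ((γ + v : ℝ) : ℂ) * I)‖ = p (γ + v) := by rw [hp]
    rw [ep]
    have hpv := hp0 (γ + v)
    calc ‖D.LN N (1 / 2 + ((γ + v : ℝ) : ℂ) * I)‖ * p (γ + v) * ‖(X : ℂ) ^ (((-b : ℝ) : ℂ) + v * I)‖ /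
          ‖((-b : ℝ) : ℂ) + v * I‖ * ‖cexp ((((-b : ℝ) : ℂ) + v * I) ^ 2)‖
        ≤ (C₁ * (N : ℝ) ^ ε' * (G * ((1 + |γ|) ^ K₀ * Real.exp (K₀ * |v|)))) * p (γ + v) * (X : ℝ) ^ (-ε) / ε *
            (Real.exp 1 * Real.exp (-v ^ 2)) := by
          refine mul_le_mul (div_le_div₀ (by positivity) (mul_le_mul (mul_le_mul_of_nonneg_right n1 hpv) n2
            (norm_nonneg _) (by positivity)) hε n3) n4 (norm_nonneg _) (by positivity)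
      _ = (C₁ * (N : ℝ) ^ ε' * G * (1 + |γ|) ^ K₀ * (X : ℝ) ^ (-ε) * (Real.exp 1 / ε)) * p (γ + v) *
            (Real.exp (K₀ * |v|) * Real.exp (-v ^ 2)) := by ring
      _ ≤ (C₁ * (N : ℝ) ^ ε' * G * (1 + |γ|) ^ K₀ * (X : ℝ) ^ (-ε) * (Real.exp 1 / ε)) * p (γ + v) *
            (2 * Real.exp ((K₀ : ℝ) ^ 2 / 2) * (1 + v ^ 2)⁻¹) := mul_le_mul_of_nonneg_left e1 (by positivity)
      _ = _ := by rw [hQ, hA]; ring
  calc _ ≤ ∫ v : ℝ, Q * ((1 + v ^ 2)⁻¹ * p (γ + v)) :=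
        norm_integral_le_of_norm_le (i1.const_mul _) (Filter.Eventually.of_forall hmain)
    _ = Q * J := by rw [integral_const_mul, hJ]
    _ ≤ Q * (3 * ((1 + |γ|) * G)) := mul_le_mul_of_nonneg_left hJ2 hQ0
    _ = (C₁ * A * 3) * (1 + |γ|) ^ (K₀ + 1) * ((N : ℝ) ^ ε' * (X : ℝ) ^ (-ε) * G ^ 2) := by rw [hQ]; ring
    _ ≤ _ := by
        refine mul_le_mul_of_nonneg_right (mul_le_mul_of_nonneg_right (by linarith) (by positivity)) (by positivity)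

theorem t_DET (hV : S_vvf) (hG : S_grw) (hC : S_cob) (hR : S_ser) (hP : S_shp) (hS : S_shf) : S_det := by
  intro n ε ε' K₀ hε hε2 hε'
  obtain ⟨κ, CV, hκ, hCV, hVb, hVk⟩ := hV
  obtain ⟨C₀, hC₀, hcob⟩ := hC n
  obtain ⟨CP, hCP, hpoly⟩ := poly hP ε hε hε2 C₀ CV hC₀ hCV fun x hx => (hVb x hx).1
  obtain ⟨CL, hCL, hline⟩ := line n ε ε' K₀ hε hε'
  obtain ⟨S, hSd⟩ : ∃ S : ℝ, S = ∑' i : ℕ, 1 / ((i + 1 : ℕ) : ℝ) ^ 2 := ⟨_, rfl⟩
  have hS0 : 0 ≤ S := by rw [hSd]; exact tsum_nonneg fun m => by positivity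
  have hκ0 : 0 < ‖κ‖ := norm_pos_iff.2 hκ
  obtain ⟨A, hA⟩ : ∃ A : ℝ, A = CL + CP + CV + C₀ * CV * S := ⟨_, rfl⟩
  have hA0 : 0 < A := by rw [hA]; positivity
  refine ⟨1 + A * ‖κ‖⁻¹, K₀ + 2, by have := mul_pos hA0 (inv_pos.2 hκ0); linarith,
    fun D hD N Z X G g hN hZ hZX hG1 hg hL hM hI s hs0 hs1 hs2 => ?_⟩
  obtain ⟨-, hcc, hcz⟩ := hcob D hD
  obtain ⟨hc1, hc0⟩ := hcz Z hZ
  have hX2 : 2 ≤ X := le_trans hZ hZX
  have hX0 : 0 < X := by omega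
  have hXr : (0 : ℝ) < X := by exact_mod_cast hX0
  -- the contour shift
  obtain ⟨F, hF⟩ : ∃ F : ℂ → ℂ, F = fun w => D.LN N (s + w) * D.Mo N Z (s + w) * (X : ℂ) ^ w := ⟨_, rfl⟩
  have hMd : Md F := by
    rw [hF]
    refine md_mul (md_mul (md_comp_add (md_LN hG D hD N) s) (md_comp_add (md_Mo D N Z) s)) ?_
    exact_mod_cast md_cpow (X : ℝ) hXr
  have hF0 : F 0 = 0 := by
    rw [hF]
    simp only [add_zero]
    unfold LData.LN
    rw [hs0]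
    ring
  obtain ⟨b, hb⟩ : ∃ b : ℝ, b = s.re - 1 / 2 := ⟨_, rfl⟩
  have hshift := shift0 hS F hMd hF0 (-b) 2 (by rw [hb]; linarith) two_pos
  have e1 : ∫ v : ℝ, F (((2 : ℝ) : ℂ) + v * I) / (((2 : ℝ) : ℂ) + v * I) * cexp ((((2 : ℝ) : ℂ) + v * I) ^ 2) =
      ∫ v : ℝ, D.LN N (s + (2 + v * I)) * D.Mo N Z (s + (2 + v * I)) * ker X v := by
    refine integral_congr_ae (Filter.Eventually.of_forall fun v => ?_)
    simp only [hF, ker, Complex.ofReal_ofNat]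
    ring
  have e2 : ∫ v : ℝ, F (((-b : ℝ) : ℂ) + v * I) / (((-b : ℝ) : ℂ) + v * I) * cexp ((((-b : ℝ) : ℂ) + v * I) ^ 2) =
      ∫ v : ℝ, (D.LN N (1 / 2 + ((s.im + v : ℝ) : ℂ) * I) * D.Mo N Z (1 / 2 + ((s.im + v : ℝ) : ℂ) * I) *
        (X : ℂ) ^ (((-b : ℝ) : ℂ) + v * I)) / (((-b : ℝ) : ℂ) + v * I) * cexp ((((-b : ℝ) : ℂ) + v * I) ^ 2) := by
    refine integral_congr_ae (Filter.Eventually.of_forall fun v => ?_)
    have e3 : s + (((-b : ℝ) : ℂ) + v * I) = 1 / 2 + ((s.im + v : ℝ) : ℂ) * I := by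
      apply Complex.ext
      · simp [hb]
      · simp
    simp only [hF]
    rw [e3]
  have hser := series hR D hD N Z X hN hX0 C₀ (fun m hm => hcc Z m hm) s (by linarith)
  have hsplit := hser.summable.sum_add_tsum_nat_add (X ^ 2)
  rw [hser.tsum_eq, head D N Z X hZ hX2 s hc1 hc0, ← e1, ← hshift, e2] at hsplit
  have ht := tail D N Z X hX2 C₀ CV (fun m hm => hcc Z m hm) (fun x hx => (hVb x hx).2) s (by linarith)
  rw [← hSd] at ht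
  have hl := hline D hD N Z X G hN hX0 hG1 hL hM b s.im (by rw [hb]; linarith) (by rw [hb]; linarith)
  have hpo := hpoly n D N Z X g hZ hX0 hg (fun m hm => hcc Z m hm) hI s hs1 hs2
  have hX1r : (1 : ℝ) ≤ X := by exact_mod_cast hX0
  have hk := hVk (1 / X) (by positivity) (by rw [div_le_one hXr]; exact hX1r)
  have hXZ : (X : ℝ)⁻¹ ≤ (Z : ℝ) ^ (-(1 / 2) : ℝ) := by
    have hZr : (1 : ℝ) ≤ Z := by
      have : 1 ≤ Z := by omega
      exact_mod_cast this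
    calc (X : ℝ)⁻¹ ≤ (Z : ℝ)⁻¹ := inv_anti₀ (by linarith) (by exact_mod_cast hZX)
      _ = (Z : ℝ) ^ (-1 : ℝ) := (Real.rpow_neg_one _).symm
      _ ≤ _ := Real.rpow_le_rpow_of_exponent_le hZr (by norm_num)
  set T : ℂ := ∑' i : ℕ, hh D N Z X s (i + X ^ 2) with hT
  set R : ℂ := ∫ v : ℝ, (D.LN N (1 / 2 + ((s.im + v : ℝ) : ℂ) * I) * D.Mo N Z (1 / 2 + ((s.im + v : ℝ) : ℂ) * I) *
        (X : ℂ) ^ (((-b : ℝ) : ℂ) + v * I)) / (((-b : ℝ) : ℂ) + v * I) * cexp ((((-b : ℝ) : ℂ) + v * I) ^ 2) with hRd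
  have hkap : κ = -(VV (1 / X) - κ) + R - D.PP N Z X s - T := by
    linear_combination hsplit
  set U : ℝ := (1 + |s.im|) ^ (K₀ + 2) with hU
  have h1g : (1 : ℝ) ≤ 1 + |s.im| := by linarith [abs_nonneg s.im]
  have hU1 : 1 ≤ U := one_le_pow₀ h1g
  have hU2 : (1 + |s.im|) ^ 2 ≤ U := pow_le_pow_right₀ h1g (by omega)
  have hU3 : (1 + |s.im|) ^ (K₀ + 1) ≤ U := pow_le_pow_right₀ h1g (by omega)
  set E : ℝ := (N : ℝ) ^ ε' * (X : ℝ) ^ (-ε) * G ^ 2 with hE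
  set z : ℝ := (Z : ℝ) ^ (-(1 / 2) : ℝ) with hz
  have hE0 : 0 ≤ E := by rw [hE]; positivity
  have hz0 : 0 ≤ z := by rw [hz]; positivity
  have hfin : ‖κ‖ ≤ A * U * (E + g + z) := by
    have q1 : ‖VV (1 / X) - κ‖ ≤ CV * U * (E + g + z) := by
      refine hk.trans ?_
      rw [mul_assoc]
      refine mul_le_mul_of_nonneg_left ?_ (by linarith)
      rw [one_div]
      calc (X : ℝ)⁻¹ ≤ 1 * (E + g + z) := by linarith
        _ ≤ U * (E + g + z) := mul_le_mul_of_nonneg_right hU1 (by positivity)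
    have q2 : ‖R‖ ≤ CL * U * (E + g + z) := by
      refine hl.trans ?_
      refine mul_le_mul (mul_le_mul_of_nonneg_left hU3 (by linarith)) (by linarith) hE0 (by positivity)
    have q3 : ‖D.PP N Z X s‖ ≤ CP * U * (E + g + z) := by
      refine hpo.trans ?_
      rw [mul_assoc]
      refine mul_le_mul_of_nonneg_left ?_ (by linarith)
      calc (1 + |s.im|) ^ 2 * g + z ≤ U * g + U * z :=
            add_le_add (mul_le_mul_of_nonneg_right hU2 hg) (le_mul_of_one_le_left hz0 hU1)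
        _ ≤ U * (E + g + z) := by nlinarith [mul_nonneg (by linarith : 0 ≤ U) hE0]
    have q4 : ‖T‖ ≤ (C₀ * CV * S) * U * (E + g + z) := by
      refine ht.trans ?_
      rw [mul_assoc (C₀ * CV * S)]
      refine mul_le_mul_of_nonneg_left ?_ (by positivity)
      calc (X : ℝ)⁻¹ ≤ 1 * (E + g + z) := by linarith
        _ ≤ U * (E + g + z) := mul_le_mul_of_nonneg_right hU1 (by positivity)
    calc ‖κ‖ = ‖-(VV (1 / X) - κ) + R - D.PP N Z X s - T‖ := congrArg norm hkap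
      _ ≤ ‖-(VV (1 / X) - κ)‖ + ‖R‖ + ‖D.PP N Z X s‖ + ‖T‖ := by
          refine (norm_sub_le _ _).trans (add_le_add ((norm_sub_le _ _).trans (add_le_add (norm_add_le _ _) le_rfl))
            le_rfl)
      _ ≤ CV * U * (E + g + z) + CL * U * (E + g + z) + CP * U * (E + g + z) +
            (C₀ * CV * S) * U * (E + g + z) := by
          rw [norm_neg]
          linarith
      _ = _ := by rw [hA]; ring
  have hq : 1 ≤ ‖κ‖⁻¹ * (A * U * (E + g + z)) := by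
    rw [inv_mul_eq_div, le_div_iff₀ hκ0]
    linarith
  calc 1 ≤ ‖κ‖⁻¹ * (A * U * (E + g + z)) := hq
    _ = (A * ‖κ‖⁻¹) * U * (E + g + z) := by ring
    _ ≤ (1 + A * ‖κ‖⁻¹) * U * (E + g + z) := by
        refine mul_le_mul_of_nonneg_right (mul_le_mul_of_nonneg_right (by linarith) (by linarith)) (by positivity)

end Pool.Agent.T2h79.LG.DET
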