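import Pool.Agent.T2h79.LG.Stm3
import Pool.Agent.T2h79.LG.T_GAM

/-! Growth of the L-function in vertical strips. -/

set_option autoImplicit false

open Complex

namespace Pool.Agent.T2h79.LG.GRW

open Pool.Agent.T2h79.LG

/-- to the right of the line `Re z = 1` -/
theorem inv_right (b : ℝ) : ∃ M : ℝ, 0 ≤ M ∧ ∀ z : ℂ, 1 ≤ z.re → z.re ≤ b →
    ‖(Gammaℝ z)⁻¹‖ ≤ Real.exp (M * (1 + |z.im|)) := by
  have hc : Continuous fun x : ℝ => ‖(Gammaℝ (x : ℂ))⁻¹‖ :=
    (Complex.differentiable_Gammaℝ_inv.continuous.comp Complex.continuous_ofReal).norm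
  obtain ⟨B, hB⟩ := (isCompact_Icc (a := (1 : ℝ)) (b := b)).exists_bound_of_continuousOn hc.continuousOn
  have hB' : ∀ x : ℝ, 1 ≤ x → x ≤ b → ‖(Gammaℝ (x : ℂ))⁻¹‖ ≤ max B 1 := by
    intro x h1 h2
    have := hB x ⟨h1, h2⟩
    rw [norm_norm] at this
    exact this.trans (le_max_left _ _)
  refine ⟨12 + |b| + max B 1, by positivity, fun z h1 h2 => ?_⟩
  have hB1 : (1 : ℝ) ≤ max B 1 := le_max_right _ _
  obtain ⟨B', hBB⟩ : ∃ B', B' = max B 1 := ⟨_, rfl⟩
  rw [← hBB] at hB' hB1 ⊢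
  have h3 := GAM.gammaR_shift (z := z) one_pos h1 (-z.im)
  have e1 : z + ((-z.im : ℝ) : ℂ) * I = (z.re : ℂ) := by
    apply Complex.ext
    · simp
    · simp
  rw [e1, abs_neg, div_one] at h3
  have hz0 : Gammaℝ z ≠ 0 := Gammaℝ_ne_zero_of_re_pos (by linarith)
  have hr0 : Gammaℝ (z.re : ℂ) ≠ 0 := Gammaℝ_ne_zero_of_re_pos (by rw [ofReal_re]; linarith)
  have h4 := hB' z.re h1 h2
  have h5 : ‖(Gammaℝ z)⁻¹‖ ≤ ‖z‖ * Real.exp (11 * |z.im|) * ‖(Gammaℝ (z.re : ℂ))⁻¹‖ := by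
    rw [norm_inv, norm_inv]
    have p1 : 0 < ‖Gammaℝ z‖ := norm_pos_iff.2 hz0
    have p2 : 0 < ‖Gammaℝ (z.re : ℂ)‖ := norm_pos_iff.2 hr0
    rw [← div_eq_mul_inv, le_div_iff₀ p2, inv_mul_le_iff₀ p1]
    calc ‖Gammaℝ (z.re : ℂ)‖ ≤ ‖z‖ * (Real.exp (11 * |z.im|) * ‖Gammaℝ z‖) := h3
      _ = ‖Gammaℝ z‖ * (‖z‖ * Real.exp (11 * |z.im|)) := by ring
  have h6 : ‖z‖ ≤ Real.exp (|b| + |z.im|) := by
    have h7 : ‖z‖ ≤ |z.re| + |z.im| := Complex.norm_le_abs_re_add_abs_im z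
    have h8 : |z.re| ≤ |b| := by
      rw [abs_of_nonneg (by linarith)]
      exact h2.trans (le_abs_self b)
    have h9 := Real.add_one_le_exp (|b| + |z.im|)
    linarith
  have h7 : B' ≤ Real.exp B' := by
    have := Real.add_one_le_exp B'
    linarith
  calc ‖(Gammaℝ z)⁻¹‖ ≤ ‖z‖ * Real.exp (11 * |z.im|) * ‖(Gammaℝ (z.re : ℂ))⁻¹‖ := h5
    _ ≤ Real.exp (|b| + |z.im|) * Real.exp (11 * |z.im|) * Real.exp B' :=
        mul_le_mul (mul_le_mul_of_nonneg_right h6 (Real.exp_pos _).le) (h4.trans h7)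
          (norm_nonneg _) (by positivity)
    _ = Real.exp (|b| + 12 * |z.im| + B') := by
        rw [← Real.exp_add, ← Real.exp_add]
        congr 1
        ring
    _ ≤ _ := by
        apply Real.exp_le_exp.2
        have hb := abs_nonneg b
        have hi := abs_nonneg z.im
        nlinarith [mul_nonneg hb hi, mul_nonneg (by linarith : (0 : ℝ) ≤ B') hi]

theorem inv_strip (K : ℕ) : ∀ b : ℝ, ∃ M : ℝ, 0 ≤ M ∧ ∀ z : ℂ, 1 - 2 * (K : ℝ) ≤ z.re → z.re ≤ b →
    ‖(Gammaℝ z)⁻¹‖ ≤ Real.exp (M * (1 + |z.im|)) := by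
  induction K with
  | zero =>
    intro b
    obtain ⟨M, hM, h⟩ := inv_right b
    exact ⟨M, hM, fun z h1 h2 => h z (by simpa using h1) h2⟩
  | succ K ih =>
    intro b
    obtain ⟨M, hM, h⟩ := ih (b + 2)
    refine ⟨M + (|b| + 2 * K + 3), by positivity, fun z h1 h2 => ?_⟩
    push_cast at h1
    have h3 := h (z + 2) (by simp; linarith) (by simp; linarith)
    have e0 : (z + 2).im = z.im := by simp
    rw [e0] at h3
    by_cases hz : z = 0
    · have : Gammaℝ z = 0 := by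
        rw [Gammaℝ_eq_zero_iff]
        exact ⟨0, by simp [hz]⟩
      rw [this, inv_zero, norm_zero]
      positivity
    have e1 : (Gammaℝ z)⁻¹ = (Gammaℝ (z + 2))⁻¹ * (z / 2 / Real.pi) := by
      rw [Gammaℝ_add_two hz]
      have hpi : (Real.pi : ℂ) ≠ 0 := by exact_mod_cast Real.pi_ne_zero
      by_cases hg : Gammaℝ z = 0
      · rw [hg]
        simp
      · field_simp
    have h4 : ‖z / 2 / (Real.pi : ℂ)‖ ≤ ‖z‖ := by
      rw [norm_div, norm_div, Complex.norm_real, Real.norm_of_nonneg Real.pi_pos.le]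
      have h5 : ‖(2 : ℂ)‖ = 2 := by norm_num
      rw [h5, div_div, div_le_iff₀ (by positivity)]
      have := Real.pi_gt_three
      nlinarith [norm_nonneg z]
    have h6 : ‖z‖ ≤ Real.exp ((|b| + 2 * K + 3) * (1 + |z.im|)) := by
      have h7 : ‖z‖ ≤ |z.re| + |z.im| := Complex.norm_le_abs_re_add_abs_im z
      have h8 : |z.re| ≤ |b| + 2 * K + 1 := by
        rw [abs_le]
        have := le_abs_self b
        have := neg_abs_le b
        have hK : (0 : ℝ) ≤ K := Nat.cast_nonneg K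
        have hb0 := abs_nonneg b
        constructor <;> linarith
      have h9 := Real.add_one_le_exp ((|b| + 2 * K + 3) * (1 + |z.im|))
      have hb := abs_nonneg b
      have hi := abs_nonneg z.im
      have hK : (0 : ℝ) ≤ K := Nat.cast_nonneg K
      nlinarith [mul_nonneg hb hi, mul_nonneg hK hi]
    rw [e1, norm_mul]
    calc ‖(Gammaℝ (z + 2))⁻¹‖ * ‖z / 2 / (Real.pi : ℂ)‖
        ≤ Real.exp (M * (1 + |z.im|)) * Real.exp ((|b| + 2 * K + 3) * (1 + |z.im|)) :=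
          mul_le_mul h3 (h4.trans h6) (norm_nonneg _) (by positivity)
      _ = _ := by
          rw [← Real.exp_add]
          congr 1
          ring

theorem inv_shift (μ : ℂ) (a b : ℝ) : ∃ M : ℝ, 0 ≤ M ∧ ∀ s : ℂ, a ≤ s.re → s.re ≤ b →
    ‖(Gammaℝ (s - μ))⁻¹‖ ≤ Real.exp (M * (1 + |s.im|)) := by
  obtain ⟨K, hK⟩ := exists_nat_ge (1 - (a - μ.re))
  obtain ⟨M, hM, h⟩ := inv_strip K (b - μ.re)
  refine ⟨M * (1 + |μ.im|), by positivity, fun s h1 h2 => ?_⟩
  have hK0 : (0 : ℝ) ≤ K := Nat.cast_nonneg K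
  refine (h (s - μ) (by rw [sub_re]; linarith) (by rw [sub_re]; linarith)).trans ?_
  apply Real.exp_le_exp.2
  rw [sub_im, mul_assoc]
  refine mul_le_mul_of_nonneg_left ?_ hM
  have h3 : |s.im - μ.im| ≤ |s.im| + |μ.im| := abs_sub _ _
  nlinarith [abs_nonneg s.im, abs_nonneg μ.im, mul_nonneg (abs_nonneg s.im) (abs_nonneg μ.im)]

theorem t_GRW : S_grw := by
  intro n D hD
  constructor
  · unfold LData.L
    refine hD.entire.mul (Differentiable.fun_finsetProd fun j _ => ?_)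
    exact Complex.differentiable_Gammaℝ_inv.comp (differentiable_id.sub_const (D.μ j))
  · intro a b
    obtain ⟨M, hM⟩ := hD.bdd a b
    choose Q hQ0 hQ using fun j : Fin n => inv_shift (D.μ j) a b
    refine ⟨M + ∑ j, Q j, fun s h1 h2 => ?_⟩
    unfold LData.L
    rw [norm_mul, norm_prod, add_mul, Real.exp_add, Finset.sum_mul, Real.exp_sum]
    exact mul_le_mul (hM s h1 h2) (Finset.prod_le_prod (fun _ _ => norm_nonneg _)
      fun j _ => hQ j s h1 h2) (Finset.prod_nonneg fun _ _ => norm_nonneg _) (by positivity)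

end Pool.Agent.T2h79.LG.GRW
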