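import Pool.Agent.T2h79.LG.Stm3
import Pool.Agent.T2h77N.Grow

/-! The relation between the elementary and the complete symmetric polynomials. -/

set_option autoImplicit false

namespace Pool.Agent.T2h79.LG.HES

open Pool.Agent.T2h79.LG Pool.Agent.T2h77.N

noncomputable section

/-- the generating function of the complete symmetric polynomials -/
def HH {n : ℕ} (α : Fin n → ℂ) : PowerSeries ℂ := PowerSeries.mk fun k => hsG α k

/-- the factors of the generating function of the elementary symmetric polynomials -/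
def FF {n : ℕ} (α : Fin n → ℂ) (i : Fin n) : PowerSeries ℂ := -(PowerSeries.C (α i) * PowerSeries.X)

theorem HH_rec {n : ℕ} (α : Fin (n + 1) → ℂ) :
    HH α * (1 + FF α (Fin.last n)) = HH fun i : Fin n => α i.castSucc := by
  have e : HH α * (1 + FF α (Fin.last n)) =
      HH α - PowerSeries.C (α (Fin.last n)) * (HH α * PowerSeries.X) := by
    unfold FF
    ring
  rw [e]
  ext k
  rw [map_sub, PowerSeries.coeff_C_mul]
  cases k with
  | zero =>
    rw [PowerSeries.coeff_zero_mul_X, mul_zero, sub_zero]
    unfold HH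
    rw [PowerSeries.coeff_mk, PowerSeries.coeff_mk, hsG_zero, hsG_zero]
  | succ k =>
    rw [PowerSeries.coeff_succ_mul_X]
    unfold HH
    rw [PowerSeries.coeff_mk, PowerSeries.coeff_mk, PowerSeries.coeff_mk, hsG_rec]
    ring

theorem HH_mul (n : ℕ) : ∀ α : Fin n → ℂ, HH α * ∏ i, (1 + FF α i) = 1 := by
  induction n with
  | zero =>
    intro α
    rw [Finset.univ_eq_empty, Finset.prod_empty, mul_one]
    ext k
    unfold HH
    rw [PowerSeries.coeff_mk, PowerSeries.coeff_one]
    cases k with
    | zero => rw [hsG_zero, if_pos rfl]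
    | succ k =>
      rw [if_neg (Nat.succ_ne_zero k)]
      unfold hsG
      have : IsEmpty (Sym (Fin 0) (k + 1)) := by infer_instance
      exact Finset.sum_of_isEmpty _
  | succ n ih =>
    intro α
    rw [Fin.prod_univ_castSucc, mul_comm (∏ i : Fin n, (1 + FF α i.castSucc)), ← mul_assoc, HH_rec]
    exact ih _

theorem coeff_FF {n : ℕ} (α : Fin n → ℂ) (j : ℕ) :
    PowerSeries.coeff j (∏ i, (1 + FF α i)) = (-1) ^ j * es α j := by
  rw [Finset.prod_one_add, map_sum]
  unfold es
  rw [Finset.mul_sum, Finset.powersetCard_eq_filter, Finset.sum_filter]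
  refine Finset.sum_congr rfl fun t _ => ?_
  have e : ∏ i ∈ t, FF α i = PowerSeries.C ((-1) ^ t.card * ∏ i ∈ t, α i) * PowerSeries.X ^ t.card := by
    have e1 : ∀ i ∈ t, FF α i = PowerSeries.C (-1) * PowerSeries.C (α i) * PowerSeries.X := by
      intro i _
      unfold FF
      rw [map_neg, map_one]
      ring
    rw [Finset.prod_congr rfl e1, Finset.prod_mul_distrib, Finset.prod_mul_distrib, Finset.prod_const,
      Finset.prod_const, map_mul, map_pow, map_prod]
  rw [e, PowerSeries.coeff_C_mul, PowerSeries.coeff_X_pow]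
  by_cases h : t.card = j
  · rw [if_pos h, if_pos h.symm, h, mul_one]
  · rw [if_neg h, if_neg (Ne.symm h), mul_zero]

theorem t_HES : S_hes := by
  intro n α k
  have h := congrArg (PowerSeries.coeff k) (HH_mul n α)
  rw [mul_comm, PowerSeries.coeff_mul, PowerSeries.coeff_one,
    Finset.Nat.sum_antidiagonal_eq_sum_range_succ_mk] at h
  rw [← h]
  refine Finset.sum_congr rfl fun j _ => ?_
  rw [coeff_FF]
  unfold HH
  rw [PowerSeries.coeff_mk]
  rfl

end

end Pool.Agent.T2h79.LG.HES
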