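import Pool.Agent.T2h79.LG.Stm2
import Pool.Agent.T2h79.LG.T_LSP

/-!
# LP1: the large sieve inequality at a point, level `K_1(N)`
-/

set_option autoImplicit false

open MeasureTheory Matrix
open scoped MatrixGroups ENNReal Topology ComplexConjugate

noncomputable section

namespace Pool.Agent.T2h79.LG.LP1

open Pool.Agent.T2h77.N Pool.Agent.T2h79.LG

/-- the average over one block, with the normalising factor -/
theorem block (n : ℕ) {Ca G : ℝ} {m : ℕ} (hm : 0 < m) (z : ℂ) {S : ℝ}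
    (hS : S ≤ Ca * G * (m : ℝ) ^ ((n : ℝ) - 1)) :
    ‖z * (((m : ℝ) ^ (-(((n : ℝ) - 1) / 2)) : ℝ) : ℂ)‖ ^ 2 * S ≤ Ca * G * ‖z‖ ^ 2 := by
  have hm' : (0 : ℝ) < m := by exact_mod_cast hm
  have h1 : ‖z * (((m : ℝ) ^ (-(((n : ℝ) - 1) / 2)) : ℝ) : ℂ)‖ ^ 2 = ‖z‖ ^ 2 * (m : ℝ) ^ (-((n : ℝ) - 1)) := by
    rw [norm_mul, mul_pow, Complex.norm_real, Real.norm_of_nonneg (by positivity), ← Real.rpow_natCast
      ((m : ℝ) ^ (-(((n : ℝ) - 1) / 2))), ← Real.rpow_mul hm'.le]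
    congr 2
    push_cast
    ring
  rw [h1]
  calc ‖z‖ ^ 2 * (m : ℝ) ^ (-((n : ℝ) - 1)) * S
      ≤ ‖z‖ ^ 2 * (m : ℝ) ^ (-((n : ℝ) - 1)) * (Ca * G * (m : ℝ) ^ ((n : ℝ) - 1)) :=
        mul_le_mul_of_nonneg_left hS (by positivity)
    _ = Ca * G * ‖z‖ ^ 2 * ((m : ℝ) ^ (-((n : ℝ) - 1)) * (m : ℝ) ^ ((n : ℝ) - 1)) := by ring
    _ = Ca * G * ‖z‖ ^ 2 := by
        rw [← Real.rpow_add hm', neg_add_cancel, Real.rpow_zero, mul_one]

theorem t_LP1 (hT : S_trw) (hS : S_sym) (hC : S_cn1) (hA : S_av1) (hF : S_rcf) (hG : S_repG) : S_lp1 := by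
  classical
  intro n hn2 χ hχ hχc ε hε
  have hn : 1 ≤ n := by omega
  obtain ⟨M, Ct, hCt, htr⟩ := hT n χ hχ hχc
  obtain ⟨M', hsym⟩ := hS n M
  obtain ⟨C1, hC1, hcnt1⟩ := hC n hn2 M
  obtain ⟨C2, hC2, hcnt2⟩ := hC n hn2 M'
  obtain ⟨Ca, hCa, havg⟩ := hA n hn ε hε
  obtain ⟨_, _, hrep⟩ := hG n hn 1 one_pos
  choose! R hR _hR' using hrep
  set CC : ℝ := max (max (Ca * C1 ^ n) (Ca * C2 ^ n)) (Ct * Ca) with hCC
  have hCC1 : Ca * C1 ^ n ≤ CC := (le_max_left _ _).trans (le_max_left _ _)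
  have hCC2 : Ca * C2 ^ n ≤ CC := (le_max_right _ _).trans (le_max_left _ _)
  have hCC3 : Ct * Ca ≤ CC := le_max_right _ _
  refine ⟨CC, (one_le_mul_of_one_le_of_one_le hCa (one_le_pow₀ hC1)).trans hCC1, ?_⟩
  intro N _ F hFD k f l hf hL hip heig Y B b hY hB hB2 hBC x hx
  have hNpos : (0 : ℝ) < N := by exact_mod_cast Nat.pos_of_ne_zero (NeZero.ne N)
  have hY0 : (0 : ℝ) < Y := by linarith
  -- the radii
  have hr : ∀ C' : ℝ, 1 ≤ C' → Ca * C' ^ n ≤ CC →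
      1 ≤ C' * Y ^ n ∧ ∀ m ∈ B, Ca * (m : ℝ) * (C' * Y ^ n) ^ n ≤ N := by
    intro C' h1 h2
    refine ⟨one_le_mul_of_one_le_of_one_le h1 (one_le_pow₀ hY), fun m hm => le_trans ?_ (hBC m hm)⟩
    calc Ca * (m : ℝ) * (C' * Y ^ n) ^ n = (Ca * C' ^ n) * m * Y ^ (n ^ 2) := by
          rw [mul_pow, ← pow_mul, ← pow_two]
          ring
      _ ≤ CC * m * Y ^ (n ^ 2) := by gcongr
  obtain ⟨hr1, hr1'⟩ := hr C1 hC1 hCC1
  obtain ⟨hr2, hr2'⟩ := hr C2 hC2 hCC2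
  -- the matrices
  set T : Finset (MZ n) := B.biUnion R with hTdef
  have hdet : ∀ m ∈ B, ∀ β ∈ R m, β.det = (m : ℤ) := fun m hm β hβ => (hR m (hB m hm).1).1 β hβ
  have hdis : Set.PairwiseDisjoint (B : Set ℕ) R := by
    intro m hm m' hm' hne
    rw [Function.onFun, Finset.disjoint_left]
    intro β h1 h2
    refine hne ?_
    have e1 := hdet m hm β h1
    have e2 := hdet m' hm' β h2
    exact_mod_cast e1.symm.trans e2
  have hmemT : ∀ β ∈ T, ∃ m ∈ B, β ∈ R m := fun β hβ => by simpa [hTdef] using hβ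
  have hTunit : ∀ β ∈ T, 0 < β.det ∧ IsUnit ((β.det : ℤ) : ZMod N) := by
    intro β hβ
    obtain ⟨m, hm, hβm⟩ := hmemT β hβ
    rw [hdet m hm β hβm]
    refine ⟨by exact_mod_cast (hB m hm).1, ?_⟩
    rw [Int.cast_natCast]
    exact (ZMod.isUnit_iff_coprime m N).2 (hB m hm).2
  have hT2 : ∀ β ∈ T, ∀ β' ∈ T, β'.det ≤ 2 * β.det := by
    intro β hβ β' hβ'
    obtain ⟨m, hm, hβm⟩ := hmemT β hβ
    obtain ⟨m', hm', hβm'⟩ := hmemT β' hβ'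
    rw [hdet m hm β hβm, hdet m' hm' β' hβm']
    exact_mod_cast hB2 m hm m' hm'
  have hTeq : ∀ β ∈ T, ∀ β' ∈ T, ∀ γ : GZ n, β = (γ : MZ n) * β' → β = β' := by
    intro β hβ β' hβ' γ hγ
    obtain ⟨m, hm, hβm⟩ := hmemT β hβ
    obtain ⟨m', hm', hβm'⟩ := hmemT β' hβ'
    have e : β.det = β'.det := by
      rw [hγ, Matrix.det_mul]
      simp
    have e' : m = m' := by
      rw [hdet m hm β hβm, hdet m' hm' β' hβm'] at e
      exact_mod_cast e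
    subst e'
    exact ((hR m (hB m hm).1).2 β (hdet m hm β hβm)).unique ⟨hβm, 1, by simp⟩ ⟨hβm', γ, hγ⟩
  -- the coefficients
  set A : ℕ → ℂ := fun m => b m * (((m : ℝ) ^ (-(((n : ℝ) - 1) / 2)) : ℝ) : ℂ) with hAdef
  set a : MZ n → ℂ := fun β => A β.det.toNat with hadef
  have ha : ∀ m ∈ B, ∀ β ∈ R m, a β = A m := by
    intro m hm β hβ
    rw [hadef]
    simp only
    rw [hdet m hm β hβ, Int.toNat_natCast]
  -- the inner sum
  have hinner : ∀ (i : Fin k) (c : XX (H1 n N)),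
      ∑ β ∈ T, a β * Rc χ (f i) (scl β * x) (rdM N β • c) = (∑ m ∈ B, b m * l i m) * Rc χ (f i) x c := by
    intro i c
    rw [hTdef, Finset.sum_biUnion hdis, Finset.sum_mul]
    refine Finset.sum_congr rfl fun m hm => ?_
    have hm' : (0 : ℝ) < m := by exact_mod_cast (hB m hm).1
    have h1 := (hF n χ hχ hχc N (H1 n N) F hFD (f i) (hf i) (hL i)).2 (R m)
      ((((m : ℝ) ^ (((n : ℝ) - 1) / 2) : ℝ) : ℂ) * l i m)
      (fun β hβ => by rw [hdet m hm β hβ]; exact_mod_cast (hB m hm).1)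
      (heig i m (R m) (hB m hm).1 (hB m hm).2 (hR m (hB m hm).1)) x c
    have h2 : ∑ β ∈ R m, a β * Rc χ (f i) (scl β * x) (rdM N β • c) =
        A m * ∑ β ∈ R m, Rc χ (f i) (scl β * x) (rdM N β • c) := by
      rw [Finset.mul_sum]
      exact Finset.sum_congr rfl fun β hβ => by rw [ha m hm β hβ]
    have h3 : (((m : ℝ) ^ (-(((n : ℝ) - 1) / 2)) : ℝ) : ℂ) * (((m : ℝ) ^ (((n : ℝ) - 1) / 2) : ℝ) : ℂ) = 1 := by
      rw [← Complex.ofReal_mul, ← Real.rpow_add hm', neg_add_cancel, Real.rpow_zero, Complex.ofReal_one]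
    rw [h2, h1, hAdef]
    simp only
    calc b m * (((m : ℝ) ^ (-(((n : ℝ) - 1) / 2)) : ℝ) : ℂ) *
          ((((m : ℝ) ^ (((n : ℝ) - 1) / 2) : ℝ) : ℂ) * l i m * Rc χ (f i) x c)
        = ((((m : ℝ) ^ (-(((n : ℝ) - 1) / 2)) : ℝ) : ℂ) * (((m : ℝ) ^ (((n : ℝ) - 1) / 2) : ℝ) : ℂ)) *
          (b m * l i m * Rc χ (f i) x c) := by ring
      _ = b m * l i m * Rc χ (f i) x c := by rw [h3, one_mul]
  -- the sum over a block
  set G : ℝ := (N : ℝ) ^ ((n : ℝ) + ε) with hGdef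
  have hG0 : 0 ≤ G := by positivity
  have hblock : ∀ r : ℝ, 1 ≤ r → (∀ m ∈ B, Ca * (m : ℝ) * r ^ n ≤ N) →
      ∑ β ∈ T, ‖a β‖ ^ 2 * (av1 β r N : ℝ) ≤ Ca * G * ∑ m ∈ B, ‖b m‖ ^ 2 := by
    intro r hr0 hrB
    rw [hTdef, Finset.sum_biUnion hdis, Finset.mul_sum]
    refine Finset.sum_le_sum fun m hm => ?_
    have h2 : ∑ β ∈ R m, ‖a β‖ ^ 2 * (av1 β r N : ℝ) = ‖A m‖ ^ 2 * ∑ β ∈ R m, (av1 β r N : ℝ) := by
      rw [Finset.mul_sum]
      exact Finset.sum_congr rfl fun β hβ => by rw [ha m hm β hβ]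
    rw [h2]
    exact block n (hB m hm).1 (b m) (havg m N (R m) (hB m hm).1 (hR m (hB m hm).1) r hr0 (hrB m hm))
  let _ : Fintype (XX (H1 n N)) := Fintype.ofFinite _
  -- the double sum
  have hdouble : ∑ c : XX (H1 n N), ∑ β ∈ T, ∑ β' ∈ T, ‖a β‖ * ‖a β'‖ * (Nat.card (pr M x c β β') : ℝ) ≤
      Ca * G * ∑ m ∈ B, ‖b m‖ ^ 2 := by
    have e0 : ∑ c : XX (H1 n N), ∑ β ∈ T, ∑ β' ∈ T, ‖a β‖ * ‖a β'‖ * (Nat.card (pr M x c β β') : ℝ) =
        ∑ β ∈ T, ∑ β' ∈ T, ‖a β‖ * ‖a β'‖ * ∑ c : XX (H1 n N), (Nat.card (pr M x c β β') : ℝ) := by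
      rw [Finset.sum_comm]
      refine Finset.sum_congr rfl fun β _ => ?_
      rw [Finset.sum_comm]
      exact Finset.sum_congr rfl fun β' _ => by rw [Finset.mul_sum]
    rw [e0]
    refine (LSP.sum_symm T (fun β => ‖a β‖) (fun β β' => ∑ c : XX (H1 n N), (Nat.card (pr M x c β β') : ℝ))
      (fun β β' => ∑ c : XX (H1 n N), (Nat.card (pr M' x c β β') : ℝ)) (fun β => (av1 β (C1 * Y ^ n) N : ℝ))
      (fun β => (av1 β (C2 * Y ^ n) N : ℝ)) (fun _ _ _ _ => Finset.sum_nonneg fun _ _ => Nat.cast_nonneg _)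
      ?_ ?_ ?_).trans ?_
    · intro β hβ β' hβ'
      refine Finset.sum_le_sum fun c _ => ?_
      exact_mod_cast (hsym N (H1 n N) x c β β' (hTunit β hβ).1 (hTunit β hβ).2 (hTunit β' hβ').1
        (hTunit β' hβ').2).2
    · intro β hβ
      have := hcnt1 N Y x hY hx T hTunit hT2 hTeq β hβ
      simp_rw [tsum_fintype] at this
      exact this
    · intro β hβ
      have := hcnt2 N Y x hY hx T hTunit hT2 hTeq β hβ
      simp_rw [tsum_fintype] at this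
      exact this
    · have e1 := hblock _ hr1 hr1'
      have e2 := hblock _ hr2 hr2'
      linarith only [e1, e2]
  calc ∑ i, ‖∑ m ∈ B, b m * l i m‖ₑ ^ 2 * Pool.Agent.T2h77.N.sq (Rc χ (f i)) x
      = ∑ i, ∑ c : XX (H1 n N), ‖(∑ m ∈ B, b m * l i m) * Rc χ (f i) x c‖ₑ ^ 2 := by
        refine Finset.sum_congr rfl fun i _ => ?_
        unfold Pool.Agent.T2h77.N.sq
        rw [tsum_fintype, Finset.mul_sum]
        exact Finset.sum_congr rfl fun c _ => by rw [enorm_mul, mul_pow]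
    _ = ∑ c : XX (H1 n N), ∑ i, ‖(∑ m ∈ B, b m * l i m) * Rc χ (f i) x c‖ₑ ^ 2 := Finset.sum_comm
    _ ≤ ∑ c : XX (H1 n N), ENNReal.ofReal (Ct * ∑ β ∈ T, ∑ β' ∈ T, ‖a β‖ * ‖a β'‖ *
          (Nat.card (pr M x c β β') : ℝ)) := by
        refine Finset.sum_le_sum fun c _ => ?_
        have h1 := htr N (H1 n N) F hFD k f hf hL hip T a hTunit x c
        simp_rw [hinner] at h1
        exact h1
    _ = ENNReal.ofReal (∑ c : XX (H1 n N), Ct * ∑ β ∈ T, ∑ β' ∈ T, ‖a β‖ * ‖a β'‖ *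
          (Nat.card (pr M x c β β') : ℝ)) :=
        (ENNReal.ofReal_sum_of_nonneg fun c _ => mul_nonneg hCt.le (Finset.sum_nonneg fun _ _ =>
          Finset.sum_nonneg fun _ _ => by positivity)).symm
    _ ≤ _ := by
        refine ENNReal.ofReal_le_ofReal ?_
        rw [← Finset.mul_sum]
        have hS0 : 0 ≤ G * ∑ m ∈ B, ‖b m‖ ^ 2 := mul_nonneg hG0 (Finset.sum_nonneg fun m _ => by positivity)
        calc Ct * ∑ c : XX (H1 n N), ∑ β ∈ T, ∑ β' ∈ T, ‖a β‖ * ‖a β'‖ * (Nat.card (pr M x c β β') : ℝ)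
            ≤ Ct * (Ca * G * ∑ m ∈ B, ‖b m‖ ^ 2) := mul_le_mul_of_nonneg_left hdouble hCt.le
          _ = (Ct * Ca) * (G * ∑ m ∈ B, ‖b m‖ ^ 2) := by ring
          _ ≤ CC * (G * ∑ m ∈ B, ‖b m‖ ^ 2) := mul_le_mul_of_nonneg_right hCC3 hS0
          _ = CC * G * ∑ m ∈ B, ‖b m‖ ^ 2 := by ring

end Pool.Agent.T2h79.LG.LP1
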