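import Pool.Agent.T2h79.LG.Stm3
import Pool.Agent.T2h79.LG.T_LSP
import Pool.Agent.T2h77N.Mass

/-!
# LST: the large sieve inequality for arbitrary Hecke operators of small determinant
-/

set_option autoImplicit false

open MeasureTheory Matrix
open scoped MatrixGroups ENNReal Topology ComplexConjugate

noncomputable section

namespace Pool.Agent.T2h79.LG.LST

open Pool.Agent.T2h77.N Pool.Agent.T2h79.LG

/-- the operator `Rc` commutes with the Hecke operators with coefficients -/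
theorem rcf_weighted {n N : ℕ} [NeZero N] {H : Subgroup (GN n N)} {χ : GR n → ℝ} (hχ : Continuous χ)
    (hχc : HasCompactSupport χ) {F : Set (GR n)} (hF : IsFD F) {f : GR n → XX H → ℂ} (hf : IsForm H f)
    (hL : IsL2 F f) (R : Finset (MZ n)) (a : MZ n → ℂ) (e : ℂ)
    (h : ∀ g c, ∑ β ∈ R, a β * f (scl β * g) (rdM N β • c) = e * f g c) (g : GR n) (c : XX H) :
    ∑ β ∈ R, a β * Rc χ f (scl β * g) (rdM N β • c) = e * Rc χ f g c := by
  unfold Rc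
  simp_rw [← integral_const_mul]
  rw [← integral_finsetSum _ fun β _ =>
    (integrable_Rc hF hf hL hχ hχc (scl β * g) (rdM N β • c)).const_mul (a β)]
  refine integral_congr_ae (.of_forall fun y => ?_)
  simp only
  have h1 := h (g * y) c
  calc ∑ β ∈ R, a β * (f (scl β * g * y) (rdM N β • c) * (χ y : ℂ))
      = (∑ β ∈ R, a β * f (scl β * (g * y)) (rdM N β • c)) * (χ y : ℂ) := by
        rw [Finset.sum_mul]
        exact Finset.sum_congr rfl fun β _ => by rw [mul_assoc (scl β), mul_assoc (a β)]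
    _ = e * (f (g * y) c * (χ y : ℂ)) := by rw [h1, mul_assoc]

/-- the fixed representatives -/
theorem isReps_RR (hG : S_repG) {n : ℕ} (hn : 1 ≤ n) {m : ℕ} (hm : 0 < m) : IsReps (m : ℤ) (RR n m) := by
  obtain ⟨_, _, hrep⟩ := hG n hn 1 one_pos
  obtain ⟨R, hR, _⟩ := hrep m hm
  have h : ∃ R : Finset (MZ n), IsReps (m : ℤ) R := ⟨R, hR⟩
  unfold RR
  rw [dif_pos h]
  exact h.choose_spec

/-- one block, with the normalising factor -/
theorem block (n : ℕ) {G : ℝ} {m : ℕ} (hm : 0 < m) (z : ℂ) {S : ℝ} (hS : S ≤ G * (m : ℝ) ^ ((n : ℝ) - 1)) :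
    ‖z * (((m : ℝ) ^ (-(((n : ℝ) - 1) / 2)) : ℝ) : ℂ)‖ ^ 2 * S ≤ ‖z‖ ^ 2 * G := by
  have hm' : (0 : ℝ) < m := by exact_mod_cast hm
  have h1 : ‖z * (((m : ℝ) ^ (-(((n : ℝ) - 1) / 2)) : ℝ) : ℂ)‖ ^ 2 = ‖z‖ ^ 2 * (m : ℝ) ^ (-((n : ℝ) - 1)) := by
    rw [norm_mul, mul_pow, Complex.norm_real, Real.norm_of_nonneg (by positivity), ← Real.rpow_natCast
      ((m : ℝ) ^ (-(((n : ℝ) - 1) / 2))), ← Real.rpow_mul hm'.le]
    congr 2
    push_cast
    ring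
  rw [h1]
  calc ‖z‖ ^ 2 * (m : ℝ) ^ (-((n : ℝ) - 1)) * S
      ≤ ‖z‖ ^ 2 * (m : ℝ) ^ (-((n : ℝ) - 1)) * (G * (m : ℝ) ^ ((n : ℝ) - 1)) :=
        mul_le_mul_of_nonneg_left hS (by positivity)
    _ = ‖z‖ ^ 2 * G * ((m : ℝ) ^ (-((n : ℝ) - 1)) * (m : ℝ) ^ ((n : ℝ) - 1)) := by ring
    _ = ‖z‖ ^ 2 * G := by
        rw [← Real.rpow_add hm', neg_add_cancel, Real.rpow_zero, mul_one]

/-- the inequality at a point -/
theorem pointwise (hT : S_trw) (hS : S_sym) (hG : S_repG) :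
    ∀ n : ℕ, 1 ≤ n → ∀ (H : (N : ℕ) → Subgroup (GN n N)) (sz : ℕ → ℝ), (∀ N, 0 ≤ sz N) → TP n H sz →
    ∀ χ : GR n → ℝ, Continuous χ → HasCompactSupport χ → ∃ (C : ℝ) (K : ℕ), 1 ≤ C ∧
    ∀ (N : ℕ) [NeZero N] (F : Set (GR n)), IsFD F → ∀ (k : ℕ) (f : Fin k → GR n → XX (H N) → ℂ),
    (∀ i, IsForm (H N) (f i)) → (∀ i, IsL2 F (f i)) → (∀ i j, ip F (f i) (f j) = if i = j then 1 else 0) →
    ∀ (X Y : ℝ) (B : Finset ℕ) (b : ℕ → ℂ) (Bd : ℕ → ℝ) (c : ℕ → Fin k → ℂ), 1 ≤ X → 1 ≤ Y →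
    C * (X * Y) ^ K ≤ N → (∀ m ∈ B, 0 < m ∧ (m : ℝ) ≤ X ∧ m.Coprime N) → (∀ m ∈ B, ∀ m' ∈ B, m' ≤ 2 * m) →
    (∀ m ∈ B, 0 ≤ Bd m ∧ Rp f m (Bd m) (c m)) →
    ∀ x ∈ SL n Y, ∑ i, ‖∑ m ∈ B, b m * c m i‖ₑ ^ 2 * Pool.Agent.T2h77.N.sq (Rc χ (f i)) x ≤
      ENNReal.ofReal (C * sz N * ∑ m ∈ B, ‖b m‖ ^ 2 * Bd m) := by
  classical
  intro n hn H sz hsz hTP χ hχ hχc
  obtain ⟨M, Ct, hCt, htr⟩ := hT n χ hχ hχc
  obtain ⟨M', hsym⟩ := hS n M
  obtain ⟨C1, K1, hC1, htp1⟩ := hTP M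
  obtain ⟨C2, K2, hC2, htp2⟩ := hTP M'
  set CC : ℝ := max (max C1 C2) (2 * Ct) with hCC
  have hCC1 : C1 ≤ CC := (le_max_left _ _).trans (le_max_left _ _)
  have hCC2 : C2 ≤ CC := (le_max_right _ _).trans (le_max_left _ _)
  have hCC3 : 2 * Ct ≤ CC := le_max_right _ _
  refine ⟨CC, max K1 K2, hC1.trans hCC1, ?_⟩
  intro N _ F hFD k f hf hL hip X Y B b Bd c hX hY hN hB hB2 hRp x hx
  have hXY : 1 ≤ X * Y := one_le_mul_of_one_le_of_one_le hX hY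
  have hN1 : C1 * (X * Y) ^ K1 ≤ N := by
    refine le_trans ?_ hN
    exact mul_le_mul hCC1 (pow_le_pow_right₀ hXY (le_max_left _ _)) (by positivity) (by linarith)
  have hN2 : C2 * (X * Y) ^ K2 ≤ N := by
    refine le_trans ?_ hN
    exact mul_le_mul hCC2 (pow_le_pow_right₀ hXY (le_max_right _ _)) (by positivity) (by linarith)
  choose! am ham1 ham2 using fun m hm => (hRp m hm).2
  -- the matrices
  set T : Finset (MZ n) := B.biUnion (RR n) with hTdef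
  have hRR : ∀ m ∈ B, IsReps (m : ℤ) (RR n m) := fun m hm => isReps_RR hG hn (hB m hm).1
  have hdet : ∀ m ∈ B, ∀ β ∈ RR n m, β.det = (m : ℤ) := fun m hm β hβ => (hRR m hm).1 β hβ
  have hdis : Set.PairwiseDisjoint (B : Set ℕ) (RR n) := by
    intro m hm m' hm' hne
    rw [Function.onFun, Finset.disjoint_left]
    intro β h1 h2
    refine hne ?_
    have e1 := hdet m hm β h1
    have e2 := hdet m' hm' β h2
    exact_mod_cast e1.symm.trans e2
  have hmemT : ∀ β ∈ T, ∃ m ∈ B, β ∈ RR n m := fun β hβ => by simpa [hTdef] using hβ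
  have hTunit : ∀ β ∈ T, 0 < β.det ∧ (β.det : ℝ) ≤ X ∧ IsUnit ((β.det : ℤ) : ZMod N) := by
    intro β hβ
    obtain ⟨m, hm, hβm⟩ := hmemT β hβ
    rw [hdet m hm β hβm]
    refine ⟨by exact_mod_cast (hB m hm).1, ?_, ?_⟩
    · have := (hB m hm).2.1
      exact_mod_cast this
    · rw [Int.cast_natCast]
      exact (ZMod.isUnit_iff_coprime m N).2 (hB m hm).2.2
  have hT2 : ∀ β ∈ T, ∀ β' ∈ T, β'.det ≤ 2 * β.det := by
    intro β hβ β' hβ'
    obtain ⟨m, hm, hβm⟩ := hmemT β hβ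
    obtain ⟨m', hm', hβm'⟩ := hmemT β' hβ'
    rw [hdet m hm β hβm, hdet m' hm' β' hβm']
    exact_mod_cast hB2 m hm m' hm'
  have hTeq : ∀ β ∈ T, ∀ β' ∈ T, ∀ γ : GZ n, β = (γ : MZ n) * β' → β = β' := by
    intro β hβ β' hβ' γ hγ
    obtain ⟨m, hm, hβm⟩ := hmemT β hβ
    obtain ⟨m', hm', hβm'⟩ := hmemT β' hβ'
    have e : β.det = β'.det := by
      rw [hγ, Matrix.det_mul]
      simp
    have e' : m = m' := by
      rw [hdet m hm β hβm, hdet m' hm' β' hβm'] at e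
      exact_mod_cast e
    subst e'
    exact ((hRR m hm).2 β (hdet m hm β hβm)).unique ⟨hβm, 1, by simp⟩ ⟨hβm', γ, hγ⟩
  -- the coefficients
  set A : ℕ → ℂ := fun m => b m * (((m : ℝ) ^ (-(((n : ℝ) - 1) / 2)) : ℝ) : ℂ) with hAdef
  set a : MZ n → ℂ := fun β => A β.det.toNat * am β.det.toNat β with hadef
  have ha : ∀ m ∈ B, ∀ β ∈ RR n m, a β = A m * am m β := by
    intro m hm β hβ
    rw [hadef]
    simp only
    rw [hdet m hm β hβ, Int.toNat_natCast]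
  -- the inner sum
  have hinner : ∀ (i : Fin k) (d : XX (H N)),
      ∑ β ∈ T, a β * Rc χ (f i) (scl β * x) (rdM N β • d) = (∑ m ∈ B, b m * c m i) * Rc χ (f i) x d := by
    intro i d
    rw [hTdef, Finset.sum_biUnion hdis, Finset.sum_mul]
    refine Finset.sum_congr rfl fun m hm => ?_
    have hm' : (0 : ℝ) < m := by exact_mod_cast (hB m hm).1
    have h1 := rcf_weighted hχ hχc hFD (hf i) (hL i) (RR n m) (am m)
      ((((m : ℝ) ^ (((n : ℝ) - 1) / 2) : ℝ) : ℂ) * c m i) (fun g y => ham2 m hm i g y) x d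
    have h2 : ∑ β ∈ RR n m, a β * Rc χ (f i) (scl β * x) (rdM N β • d) =
        A m * ∑ β ∈ RR n m, am m β * Rc χ (f i) (scl β * x) (rdM N β • d) := by
      rw [Finset.mul_sum]
      exact Finset.sum_congr rfl fun β hβ => by rw [ha m hm β hβ, mul_assoc]
    have h3 : (((m : ℝ) ^ (-(((n : ℝ) - 1) / 2)) : ℝ) : ℂ) * (((m : ℝ) ^ (((n : ℝ) - 1) / 2) : ℝ) : ℂ) = 1 := by
      rw [← Complex.ofReal_mul, ← Real.rpow_add hm', neg_add_cancel, Real.rpow_zero, Complex.ofReal_one]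
    rw [h2, h1, hAdef]
    simp only
    calc b m * (((m : ℝ) ^ (-(((n : ℝ) - 1) / 2)) : ℝ) : ℂ) *
          ((((m : ℝ) ^ (((n : ℝ) - 1) / 2) : ℝ) : ℂ) * c m i * Rc χ (f i) x d)
        = ((((m : ℝ) ^ (-(((n : ℝ) - 1) / 2)) : ℝ) : ℂ) * (((m : ℝ) ^ (((n : ℝ) - 1) / 2) : ℝ) : ℂ)) *
          (b m * c m i * Rc χ (f i) x d) := by ring
      _ = b m * c m i * Rc χ (f i) x d := by rw [h3, one_mul]
  -- the sum over the blocks
  have hblock : ∑ β ∈ T, ‖a β‖ ^ 2 ≤ ∑ m ∈ B, ‖b m‖ ^ 2 * Bd m := by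
    rw [hTdef, Finset.sum_biUnion hdis]
    refine Finset.sum_le_sum fun m hm => ?_
    have h2 : ∑ β ∈ RR n m, ‖a β‖ ^ 2 = ‖A m‖ ^ 2 * ∑ β ∈ RR n m, ‖am m β‖ ^ 2 := by
      rw [Finset.mul_sum]
      exact Finset.sum_congr rfl fun β hβ => by rw [ha m hm β hβ, norm_mul, mul_pow]
    rw [h2]
    exact block n (hB m hm).1 (b m) (ham1 m hm)
  let _ : Fintype (XX (H N)) := Fintype.ofFinite _
  have hdouble : ∑ d : XX (H N), ∑ β ∈ T, ∑ β' ∈ T, ‖a β‖ * ‖a β'‖ * (Nat.card (pr M x d β β') : ℝ) ≤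
      2 * sz N * ∑ m ∈ B, ‖b m‖ ^ 2 * Bd m := by
    have e0 : ∑ d : XX (H N), ∑ β ∈ T, ∑ β' ∈ T, ‖a β‖ * ‖a β'‖ * (Nat.card (pr M x d β β') : ℝ) =
        ∑ β ∈ T, ∑ β' ∈ T, ‖a β‖ * ‖a β'‖ * ∑ d : XX (H N), (Nat.card (pr M x d β β') : ℝ) := by
      rw [Finset.sum_comm]
      refine Finset.sum_congr rfl fun β _ => ?_
      rw [Finset.sum_comm]
      exact Finset.sum_congr rfl fun β' _ => by rw [Finset.mul_sum]
    rw [e0]
    refine (LSP.sum_symm T (fun β => ‖a β‖) (fun β β' => ∑ d : XX (H N), (Nat.card (pr M x d β β') : ℝ))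
      (fun β β' => ∑ d : XX (H N), (Nat.card (pr M' x d β β') : ℝ)) (fun _ => 2 * sz N)
      (fun _ => 2 * sz N) (fun _ _ _ _ => Finset.sum_nonneg fun _ _ => Nat.cast_nonneg _)
      ?_ ?_ ?_).trans ?_
    · intro β hβ β' hβ'
      refine Finset.sum_le_sum fun d _ => ?_
      exact_mod_cast (hsym N (H N) x d β β' (hTunit β hβ).1 (hTunit β hβ).2.2 (hTunit β' hβ').1
        (hTunit β' hβ').2.2).2
    · intro β hβ
      have := htp1 N X Y x hX hY hN1 hx T hTunit hT2 hTeq β hβ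
      simp_rw [tsum_fintype] at this
      exact this
    · intro β hβ
      have := htp2 N X Y x hX hY hN2 hx T hTunit hT2 hTeq β hβ
      simp_rw [tsum_fintype] at this
      exact this
    · rw [← Finset.sum_mul]
      have e1 : (∑ β ∈ T, ‖a β‖ ^ 2) * (2 * sz N) ≤ (∑ m ∈ B, ‖b m‖ ^ 2 * Bd m) * (2 * sz N) :=
        mul_le_mul_of_nonneg_right hblock (by have := hsz N; linarith)
      linarith only [e1]
  calc ∑ i, ‖∑ m ∈ B, b m * c m i‖ₑ ^ 2 * Pool.Agent.T2h77.N.sq (Rc χ (f i)) x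
      = ∑ i, ∑ d : XX (H N), ‖(∑ m ∈ B, b m * c m i) * Rc χ (f i) x d‖ₑ ^ 2 := by
        refine Finset.sum_congr rfl fun i _ => ?_
        unfold Pool.Agent.T2h77.N.sq
        rw [tsum_fintype, Finset.mul_sum]
        exact Finset.sum_congr rfl fun d _ => by rw [enorm_mul, mul_pow]
    _ = ∑ d : XX (H N), ∑ i, ‖(∑ m ∈ B, b m * c m i) * Rc χ (f i) x d‖ₑ ^ 2 := Finset.sum_comm
    _ ≤ ∑ d : XX (H N), ENNReal.ofReal (Ct * ∑ β ∈ T, ∑ β' ∈ T, ‖a β‖ * ‖a β'‖ *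
          (Nat.card (pr M x d β β') : ℝ)) := by
        refine Finset.sum_le_sum fun d _ => ?_
        have h1 := htr N (H N) F hFD k f hf hL hip T a (fun β hβ => ⟨(hTunit β hβ).1, (hTunit β hβ).2.2⟩) x d
        simp_rw [hinner] at h1
        exact h1
    _ = ENNReal.ofReal (∑ d : XX (H N), Ct * ∑ β ∈ T, ∑ β' ∈ T, ‖a β‖ * ‖a β'‖ *
          (Nat.card (pr M x d β β') : ℝ)) :=
        (ENNReal.ofReal_sum_of_nonneg fun d _ => mul_nonneg hCt.le (Finset.sum_nonneg fun _ _ =>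
          Finset.sum_nonneg fun _ _ => by positivity)).symm
    _ ≤ _ := by
        refine ENNReal.ofReal_le_ofReal ?_
        rw [← Finset.mul_sum]
        have hS0 : 0 ≤ sz N * ∑ m ∈ B, ‖b m‖ ^ 2 * Bd m :=
          mul_nonneg (hsz N) (Finset.sum_nonneg fun m hm => mul_nonneg (by positivity) (hRp m hm).1)
        calc Ct * ∑ d : XX (H N), ∑ β ∈ T, ∑ β' ∈ T, ‖a β‖ * ‖a β'‖ * (Nat.card (pr M x d β β') : ℝ)
            ≤ Ct * (2 * sz N * ∑ m ∈ B, ‖b m‖ ^ 2 * Bd m) := mul_le_mul_of_nonneg_left hdouble hCt.le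
          _ = (2 * Ct) * (sz N * ∑ m ∈ B, ‖b m‖ ^ 2 * Bd m) := by ring
          _ ≤ CC * (sz N * ∑ m ∈ B, ‖b m‖ ^ 2 * Bd m) := mul_le_mul_of_nonneg_right hCC3 hS0
          _ = CC * sz N * ∑ m ∈ B, ‖b m‖ ^ 2 * Bd m := by ring

theorem t_LST (hT : S_trw) (hS : S_sym) (hF : S_rcf) (hG : S_repG) (hcov : S_cov) (hiw : S_iw) (hent : S_ent)
    (hint : S_int) : S_lst := by
  classical
  intro n hn H sz hsz hTP χ hχ hχc
  obtain ⟨C, K, hC, hlsp⟩ := pointwise hT hS hG n hn H sz hsz hTP χ hχ hχc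
  obtain ⟨Cv, hCv, hvol⟩ := vol_SL hiw hent hint n
  have hC0 : 0 < C := by linarith
  have hCle : C ≤ C * max 1 Cv := le_mul_of_one_le_right hC0.le (le_max_left _ _)
  refine ⟨C * max 1 Cv, K, hC.trans hCle, ?_⟩
  intro N _ F hFD k f hf hL hip X Y B b Bd c hX hY hN hB hB2 hRp
  have hN' : C * (X * Y) ^ K ≤ N :=
    (mul_le_mul_of_nonneg_right hCle (by positivity)).trans hN
  have hpt := hlsp N F hFD k f hf hL hip X Y B b Bd c hX hY hN' hB hB2 hRp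
  have hRc : ∀ i, IsForm (H N) (Rc χ (f i)) :=
    fun i => (hF n χ hχ hχc N (H N) F hFD (f i) (hf i) (hL i)).1
  set a : Fin k → ℝ≥0∞ := fun i => ‖∑ m ∈ B, b m * c m i‖ₑ ^ 2 with hadef
  set S : ℝ := ∑ m ∈ B, ‖b m‖ ^ 2 * Bd m with hSdef
  have hS0 : 0 ≤ S := Finset.sum_nonneg fun m hm => mul_nonneg (by positivity) (hRp m hm).1
  have hszN := hsz N
  set h : GR n → ℝ≥0∞ := fun g => ∑ i, a i * Pool.Agent.T2h77.N.sq (Rc χ (f i)) g with hh
  have hhm : Measurable h := Finset.measurable_sum _ fun i _ => (measurable_sq (hRc i)).const_mul _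
  have h1 : ∑ i, a i * ∫⁻ g in F ∩ sat (SL n Y), Pool.Agent.T2h77.N.sq (Rc χ (f i)) g ∂(mu n) =
      ∫⁻ g in F ∩ sat (SL n Y), h g ∂(mu n) := by
    rw [hh, lintegral_finsetSum _ fun i _ => (measurable_sq (hRc i)).const_mul _]
    exact Finset.sum_congr rfl fun i _ => (lintegral_const_mul _ (measurable_sq (hRc i))).symm
  rw [h1]
  refine (hcov n F (SL n Y) h hFD (measurable_SL hiw n Y) hhm fun γ g => ?_).trans ?_
  · rw [hh]
    exact Finset.sum_congr rfl fun i _ => by rw [sq_inv (hRc i)]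
  have hlog : 0 ≤ 1 + Real.log Y := by
    have := Real.log_nonneg hY
    linarith
  calc ∫⁻ g in SL n Y, h g ∂(mu n)
      ≤ ∫⁻ _g in SL n Y, ENNReal.ofReal (C * sz N * S) ∂(mu n) :=
        setLIntegral_mono' (measurable_SL hiw n Y) fun x hx => hpt x hx
    _ = ENNReal.ofReal (C * sz N * S) * mu n (SL n Y) := by
        rw [setLIntegral_const]
    _ ≤ ENNReal.ofReal (C * sz N * S) * ENNReal.ofReal (Cv * (1 + Real.log Y) ^ n) := by
        gcongr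
        exact hvol Y hY
    _ = ENNReal.ofReal (C * sz N * S * (Cv * (1 + Real.log Y) ^ n)) :=
        (ENNReal.ofReal_mul (by positivity)).symm
    _ ≤ _ := by
        refine ENNReal.ofReal_le_ofReal ?_
        calc C * sz N * S * (Cv * (1 + Real.log Y) ^ n)
            = C * Cv * sz N * (1 + Real.log Y) ^ n * S := by ring
          _ ≤ C * max 1 Cv * sz N * (1 + Real.log Y) ^ n * S := by
              gcongr
              exact le_max_right _ _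

end Pool.Agent.T2h79.LG.LST
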