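import Pool.Agent.T2h79.LG.Stm3

/-!
# No zeros off the critical line for almost all cusp forms: assembly
-/

set_option autoImplicit false

open MeasureTheory Matrix
open scoped MatrixGroups ENNReal Topology ComplexConjugate

noncomputable section

namespace Pool.Agent.T2h79.LG

open Pool.Agent.T2h77.N

/-- the family `f` is orthonormal, of level `H` -/
def Fam {n N k : ℕ} [NeZero N] {H : Subgroup (GN n N)} (F : Set (GR n)) (f : Fin k → GR n → XX H → ℂ) : Prop :=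
  (∀ i, IsForm H (f i)) ∧ (∀ i, IsL2 F (f i)) ∧ ∀ i j, ip F (f i) (f j) = if i = j then 1 else 0

/-- the large sieve inequality for the eigenvalues of the Hecke operators `T(m)`, `m` up to `N^dd`, in the low region -/
def BLS (n : ℕ) (H : (N : ℕ) → Subgroup (GN n N)) (dd : ℕ) (sz : ℕ → ℝ) : Prop :=
  ∀ χ : GR n → ℝ, Continuous χ → HasCompactSupport χ → ∀ ε : ℝ, 0 < ε → ∃ C : ℝ, 1 ≤ C ∧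
    ∀ (N : ℕ) [NeZero N] (F : Set (GR n)), IsFD F →
    ∀ (k : ℕ) (f : Fin k → GR n → XX (H N) → ℂ) (l : Fin k → ℕ → ℂ), Fam F f → (∀ i, IsEig (l i) (f i)) →
    ∀ (Y : ℝ) (B : Finset ℕ) (b : ℕ → ℂ), 1 ≤ Y → (∀ m ∈ B, 0 < m ∧ m.Coprime N) →
    (∀ m ∈ B, ∀ m' ∈ B, m' ≤ 2 * m) → (∀ m ∈ B, C * m * Y ^ (n ^ 2) ≤ (N : ℝ) ^ dd) →
    ∑ i, ‖∑ m ∈ B, b m * l i m‖ₑ ^ 2 * ∫⁻ g in F ∩ sat (SL n Y), sq (Rc χ (f i)) g ∂(mu n) ≤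
      ENNReal.ofReal (C * sz N * (N : ℝ) ^ ε * (1 + Real.log Y) ^ n * ∑ m ∈ B, ‖b m‖ ^ 2)

/-- BL0: the principal level. Proof: from LSI with `ε / n`: `m (C Y^n / N)^n ≤ 1` iff `C^n m Y^(n²) ≤ N^n`, and then
`m ≤ N^n`, `m^(ε/n) ≤ N^ε`. -/
def S_bl0 : Prop := ∀ n : ℕ, 1 ≤ n → BLS n (fun N => (⊥ : Subgroup (GN n N))) n fun N => Nat.card (GN n N)

/-- BL1: the level `K_1(N)`. Proof: from LI1. -/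
def S_bl1 : Prop := ∀ n : ℕ, 2 ≤ n → BLS n (fun N => H1 n N) 1 fun N => (N : ℝ) ^ n

/-- QU2: few members have a large mollifier.

Proof (from LST, RPO). Let `C`, `K` be the constants of LST, `κ₀ = η₁ = 1 / (4 (K + 1))`: for `N ≥ N₀` and `X = N^κ₀`,
`Y = C₁ N^η` the condition `C (X Y)^K ≤ N` holds. Split the sum `Mo` into the blocks `2^j ≤ e < 2^(j+1)`, `j < J`,
`2^(J-1) < Z ≤ 2^J`; for each `v` apply LST with `b e = e^(-1/2-iv)` (restricted to `e < Z`), `c e i = (D i).mob e`,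
`Bd e = C e^ε'` (RPO): `∑ ‖b e‖² Bd e ≤ C 2^(j ε') ≤ C N^ε'`. By the lower bound `1/8` for the masses
(`real_of_mass` in `AslA.lean`) `∑_{i ∈ Q} |∑_block|² ≤ C sz N (1 + log Y)^n N^ε'`; Cauchy-Schwarz over the `J ≤ C (1 + log N)`
blocks, integrate against `(1+v²)⁻¹` (`sum_int`, `integrable_sq` there). So `|Q| N^(2ε) ≤ C sz N N^ε`. -/
def S_qu2 : Prop :=
  ∀ n : ℕ, 1 ≤ n → ∀ (H : (N : ℕ) → Subgroup (GN n N)) (sz : ℕ → ℝ), (∀ N, 0 ≤ sz N) → TP n H sz →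
    ∀ χ : GR n → ℝ, Continuous χ → HasCompactSupport χ → ∃ κ₀ η₁ : ℝ, 0 < κ₀ ∧ 0 < η₁ ∧
    ∀ ε η C₁ : ℝ, 0 < ε → 0 < η → η ≤ η₁ → 1 ≤ C₁ → ∃ (C : ℝ) (N₀ : ℕ), 1 ≤ C ∧
    ∀ (N : ℕ) [NeZero N] (F : Set (GR n)), N₀ ≤ N → IsFD F →
    ∀ (k : ℕ) (f : Fin k → GR n → XX (H N) → ℂ) (l : Fin k → ℕ → ℂ) (ξ : ℕ → ℂ) (D : Fin k → LData n), Fam F f →
      (∀ i, IsEig (l i) (f i)) → (∀ m, ‖ξ m‖ ≤ 1) →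
      (∀ i, ∀ m : ℕ, 0 < m → m.Coprime N → (D i).lam m = ξ m * l i m) →
      (∀ i, ENNReal.ofReal (1 / 8) ≤
        ∫⁻ g in F ∩ sat (SL n (C₁ * (N : ℝ) ^ η)), sq (Rc χ (f i)) g ∂(mu n)) →
      ∀ (Z : ℕ) (Q : Finset (Fin k)), (Z : ℝ) ≤ (N : ℝ) ^ κ₀ →
      (∀ i ∈ Q, (N : ℝ) ^ (2 * ε) < ∫ v : ℝ, (1 + v ^ 2)⁻¹ * ‖(D i).Mo N Z (1 / 2 + v * Complex.I)‖ ^ 2) →
      (Q.card : ℝ) ≤ C * sz N * (N : ℝ) ^ (-ε)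

/-- QU3: few members have a large detecting polynomial.

Proof (from LST, RPO, VVF), as QU2: blocks `2^j ≤ m < 2^(j+1)` with `Z ≤ m < X²`, `b m = VV(m/X) m^(-(1/2+ε/2+iv))`,
`c m i = (D i).cc Z m`, `Bd m = C m^(ε/4)`: `∑_{m ∈ block} ‖b m‖² Bd m ≤ C ∑ m^(-1-ε+ε/4) ≤ C Z^(-ε/2)` (`m ≥ Z`;
at most `m` terms of size `m`). In total `|Q| g² ≤ C sz N (1 + log N)^(n+2) Z^(-ε/2)`. -/
def S_qu3 : Prop :=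
  ∀ n : ℕ, 1 ≤ n → ∀ (H : (N : ℕ) → Subgroup (GN n N)) (sz : ℕ → ℝ), (∀ N, 0 ≤ sz N) → TP n H sz →
    ∀ χ : GR n → ℝ, Continuous χ → HasCompactSupport χ → ∃ κ₀ η₁ : ℝ, 0 < κ₀ ∧ 0 < η₁ ∧
    ∀ ε ε' η C₁ : ℝ, 0 < ε → 0 < ε' → 0 < η → η ≤ η₁ → 1 ≤ C₁ → ∃ (C : ℝ) (N₀ : ℕ), 1 ≤ C ∧
    ∀ (N : ℕ) [NeZero N] (F : Set (GR n)), N₀ ≤ N → IsFD F →
    ∀ (k : ℕ) (f : Fin k → GR n → XX (H N) → ℂ) (l : Fin k → ℕ → ℂ) (ξ : ℕ → ℂ) (D : Fin k → LData n), Fam F f →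
      (∀ i, IsEig (l i) (f i)) → (∀ m, ‖ξ m‖ ≤ 1) →
      (∀ i, ∀ m : ℕ, 0 < m → m.Coprime N → (D i).lam m = ξ m * l i m) →
      (∀ i, ENNReal.ofReal (1 / 8) ≤
        ∫⁻ g in F ∩ sat (SL n (C₁ * (N : ℝ) ^ η)), sq (Rc χ (f i)) g ∂(mu n)) →
      ∀ (Z X : ℕ) (g : ℝ) (Q : Finset (Fin k)), 2 ≤ Z → Z ≤ X → (X : ℝ) ^ 2 ≤ (N : ℝ) ^ κ₀ → 0 ≤ g →
      (∀ i ∈ Q, g ^ 2 < ∫ v : ℝ, (1 + v ^ 2)⁻¹ *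
        ‖(D i).PP N Z X (((1 / 2 + ε / 2 : ℝ) : ℂ) + v * Complex.I)‖ ^ 2) →
      (Q.card : ℝ) * g ^ 2 ≤ C * sz N * (N : ℝ) ^ ε' * (Z : ℝ) ^ (-(ε / 2))

/-- QU1: few members have large central values. (Proof as AS1.) -/
def S_qu1 : Prop :=
  ∀ n : ℕ, 1 ≤ n → ∀ (H : (N : ℕ) → Subgroup (GN n N)) (dd : ℕ) (sz : ℕ → ℝ), 1 ≤ dd → (∀ N, 0 ≤ sz N) →
    BLS n H dd sz → ∀ χ : GR n → ℝ, Continuous χ → HasCompactSupport χ → ∀ T ε : ℝ, 0 < ε →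
    ∃ (η₁ : ℝ) (K : ℕ), 0 < η₁ ∧ ∀ η C₁ : ℝ, 0 < η → η ≤ η₁ → 1 ≤ C₁ → ∃ (C : ℝ) (N₀ : ℕ), 1 ≤ C ∧
    ∀ (N : ℕ) [NeZero N] (F : Set (GR n)), N₀ ≤ N → IsFD F →
    ∀ (k : ℕ) (f : Fin k → GR n → XX (H N) → ℂ) (l : Fin k → ℕ → ℂ) (ξ : ℕ → ℂ) (D : Fin k → LData n), Fam F f →
      (∀ i, IsEig (l i) (f i)) → (∀ m, ‖ξ m‖ ≤ 1) →
      (∀ i, ∀ m : ℕ, 0 < m → m.Coprime N → (D i).lam m = ξ m * l i m) →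
      (∀ i, (D i).Ok ∧ (D i).q ≤ T * (N : ℝ) ^ dd * (N : ℝ) ^ η₁ ∧ ∀ j, ‖(D i).μ j‖ ≤ T) →
      (∀ i, ENNReal.ofReal (1 / 8) ≤
        ∫⁻ g in F ∩ sat (SL n (C₁ * (N : ℝ) ^ η)), sq (Rc χ (f i)) g ∂(mu n)) →
      ∀ Q : Finset (Fin k),
      (∀ i ∈ Q, ∃ t : ℝ, (N : ℝ) ^ ε * (1 + |t|) ^ K < ‖(D i).L (1 / 2 + t * Complex.I)‖) →
      (Q.card : ℝ) ≤ C * sz N * (N : ℝ) ^ (-ε)

/-- the L-function of `D` violates the bound or has a zero off the line -/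
def Bad {n : ℕ} (D : LData n) (N : ℕ) (ε δ : ℝ) (K : ℕ) : Prop :=
  (∃ t : ℝ, (N : ℝ) ^ ε * (1 + |t|) ^ K < ‖D.L (1 / 2 + t * Complex.I)‖) ∨
    ∃ s : ℂ, D.L s = 0 ∧ 1 / 2 + ε ≤ s.re ∧ s.re ≤ 3 / 2 ∧ |s.im| ≤ (N : ℝ) ^ δ

/-- the main theorem for a level structure `H`, conductors about `N^dd` and `sz N` forms -/
def Concl (n : ℕ) (H : (N : ℕ) → Subgroup (GN n N)) (dd : ℕ) (sz : ℕ → ℝ) : Prop :=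
  ∀ U : Set (GR n), U ∈ 𝓝 (1 : GR n) → ∀ T ε : ℝ, 0 < ε → ∃ (δ C : ℝ) (K : ℕ), 0 < δ ∧ 0 < C ∧
    ∀ (N : ℕ) [NeZero N] (F : Set (GR n)), IsFD F →
    ∀ (k : ℕ) (f : Fin k → GR n → XX (H N) → ℂ) (l : Fin k → ℕ → ℂ),
      (∀ i, IsForm (H N) (f i) ∧ IsL2 F (f i) ∧ IsCusp (f i) ∧ IsSlow U F (f i)) →
      (∀ i j, ip F (f i) (f j) = if i = j then 1 else 0) → (∀ i, IsEig (l i) (f i)) →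
      ∀ Ξ : Finset (ℕ → ℂ), (Ξ.card : ℝ) ≤ (N : ℝ) ^ δ → (∀ ξ ∈ Ξ, ∀ m, ‖ξ m‖ ≤ 1) →
      (∀ i, ∃ ξ ∈ Ξ, ∃ D : LData n, D.Ok ∧ D.q ≤ T * (N : ℝ) ^ dd * (N : ℝ) ^ δ ∧ (∀ j, ‖D.μ j‖ ≤ T) ∧
        (∀ m : ℕ, 0 < m → m.Coprime N → D.lam m = ξ m * l i m) ∧ Bad D N ε δ K) →
      (k : ℝ) ≤ C * sz N * (N : ℝ) ^ (-δ)

/-- the general theorem -/
def S_fin : Prop :=
  ∀ n : ℕ, 3 ≤ n → ∀ (H : (N : ℕ) → Subgroup (GN n N)) (dd : ℕ) (sz : ℕ → ℝ), 1 ≤ dd → (∀ N, 0 ≤ sz N) →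
    (∀ (N : ℕ) [NeZero N], ((H N).index : ℝ) ≤ sz N ∧ N ≤ ixS (H N) ∧ ixS (H N) ≤ N ^ (n ^ 2)) →
    BLS n H dd sz → TP n H sz → Concl n H dd sz

end Pool.Agent.T2h79.LG
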