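import Pool.Agent.T2h79.LG.AslB
import Pool.Agent.T2h79.LG.Stm4

/-!
# Project LG: task QU1
-/

set_option autoImplicit false

open MeasureTheory Matrix
open scoped MatrixGroups ENNReal Topology

noncomputable section

namespace Pool.Agent.T2h79.LG.QU1

open Pool.Agent.T2h77.N Pool.Agent.T2h79.LG.ASL

/-- the condition of the large sieve inequality -/
theorem num_condQ (n dd : ℕ) (hdd : 1 ≤ dd) {T₁ C₀ C₁ e η : ℝ} (hT : 1 ≤ T₁) (hC₀ : 1 ≤ C₀) (hC₁ : 1 ≤ C₁)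
    (he0 : 0 < e) (he : e * (20 * (dd + 1)) ≤ 1) (hη : 0 < η) (hηe : η * (n : ℝ) ^ 2 ≤ e) :
    ∃ A : ℝ, 1 ≤ A ∧ ∀ N : ℝ, A ≤ N →
      C₀ * (2 * (T₁ * N ^ ((dd : ℝ) + e)) ^ (1 / 2 + e)) * (C₁ * N ^ η) ^ (n ^ 2) ≤ N ^ dd := by
  set B : ℝ := C₀ * 2 * T₁ ^ (1 / 2 + e) * C₁ ^ (n ^ 2) with hB
  have hB1 : 1 ≤ B := by
    have h1 : 1 ≤ T₁ ^ (1 / 2 + e) := Real.one_le_rpow hT (by positivity)
    have h2 : 1 ≤ C₁ ^ (n ^ 2) := one_le_pow₀ hC₁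
    exact one_le_mul_of_one_le_of_one_le (one_le_mul_of_one_le_of_one_le (by linarith) h1) h2
  have hdd' : (1 : ℝ) ≤ dd := by exact_mod_cast hdd
  refine ⟨B ^ 4, one_le_pow₀ hB1, fun N hN => ?_⟩
  have hN1 : 1 ≤ N := (one_le_pow₀ hB1).trans hN
  have hN0 : 0 < N := by linarith
  have e1 : (T₁ * N ^ ((dd : ℝ) + e)) ^ (1 / 2 + e) = T₁ ^ (1 / 2 + e) * N ^ (((dd : ℝ) + e) * (1 / 2 + e)) := by
    rw [Real.mul_rpow (by positivity) (by positivity), ← Real.rpow_mul hN0.le]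
  have e2 : (C₁ * N ^ η) ^ (n ^ 2) = C₁ ^ (n ^ 2) * N ^ (η * (n : ℝ) ^ 2) := by
    rw [mul_pow, ← Real.rpow_natCast (N ^ η), ← Real.rpow_mul hN0.le]
    push_cast
    rfl
  rw [e1, e2]
  have e3 : C₀ * (2 * (T₁ ^ (1 / 2 + e) * N ^ (((dd : ℝ) + e) * (1 / 2 + e)))) *
      (C₁ ^ (n ^ 2) * N ^ (η * (n : ℝ) ^ 2)) =
      B * N ^ (((dd : ℝ) + e) * (1 / 2 + e) + η * (n : ℝ) ^ 2) := by
    rw [Real.rpow_add hN0 (((dd : ℝ) + e) * (1 / 2 + e)), hB]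
    ring
  rw [e3]
  have h4 : B ≤ N ^ (1 / 4 : ℝ) := by
    calc B = (B ^ 4) ^ (1 / 4 : ℝ) := by
          rw [← Real.rpow_natCast, ← Real.rpow_mul (by positivity)]
          norm_num
      _ ≤ N ^ (1 / 4 : ℝ) := Real.rpow_le_rpow (by positivity) hN (by norm_num)
  have h5 : ((dd : ℝ) + e) * (1 / 2 + e) + η * (n : ℝ) ^ 2 ≤ dd - 1 / 4 := by
    have h6 : e * dd ≤ 1 / 20 := by nlinarith
    have h7 : e ≤ 1 / 40 := by nlinarith
    nlinarith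
  calc B * N ^ (((dd : ℝ) + e) * (1 / 2 + e) + η * (n : ℝ) ^ 2) ≤ N ^ (1 / 4 : ℝ) * N ^ ((dd : ℝ) - 1 / 4) :=
        mul_le_mul h4 (Real.rpow_le_rpow_of_exponent_le hN1 h5) (by positivity) (by positivity)
    _ = N ^ dd := by
        rw [← Real.rpow_add hN0]
        norm_num

/-- the bound for one form, all `t` -/
theorem one_formQ (hD : S_dya) {n : ℕ} {D : LData n} {e CA CF N Qb ε t : ℝ} {K J M : ℕ} {E : Finset ℕ}
    (hN : 1 ≤ N) (hCA : 1 ≤ CA) (he : 0 < e) (hq1 : 1 ≤ D.q)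
    (hq : D.q ≤ Qb) (hE : ∀ m ∈ E, 0 < m)
    (hL : N ^ ε * (1 + |t|) ^ K < ‖D.L (1 / 2 + t * Complex.I)‖)
    (hafe : ‖D.L (1 / 2 + t * Complex.I)‖ ^ 2 ≤ CA * (1 + |t|) ^ K * (1 + D.q ^ e *
      ∫ v : ℝ, (1 + v ^ 2)⁻¹ * ‖∑ m ∈ E, D.lam m * (m : ℂ) ^ (-pt (1 / 2 + e) v)‖ ^ 2))
    (hfac : ∀ v : ℝ, ‖∑ m ∈ E, D.lam m * (m : ℂ) ^ (-pt (1 / 2 + e) v)‖ ≤
      CF * N ^ e * ‖∑ m ∈ M2 M J, D.lam m * (m : ℂ) ^ (-pt (1 / 2 + e) v)‖) :
    N ^ (2 * ε) ≤ CA * (1 + Qb ^ e * ((CF * N ^ e) ^ 2 * (J * ∑ j ∈ Finset.range J,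
      ∫ v : ℝ, (1 + v ^ 2)⁻¹ * ‖∑ m ∈ Bl M j, D.lam m * (m : ℂ) ^ (-pt (1 / 2 + e) v)‖ ^ 2))) := by
  have hN0 : 0 < N := by linarith
  have hBl : ∀ j, ∀ m ∈ Bl M j, 0 < m := fun j m hm =>
    lt_of_lt_of_le (by positivity) (Finset.mem_filter.1 hm).2.1
  have hint := fun j => integrable_sq (Bl M j) D.lam (1 / 2 + e) (hBl j)
  set I : ℕ → ℝ := fun j => ∫ v : ℝ, (1 + v ^ 2)⁻¹ * ‖∑ m ∈ Bl M j, D.lam m * (m : ℂ) ^ (-pt (1 / 2 + e) v)‖ ^ 2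
    with hI
  have h1 : ∫ v : ℝ, (1 + v ^ 2)⁻¹ * ‖∑ m ∈ E, D.lam m * (m : ℂ) ^ (-pt (1 / 2 + e) v)‖ ^ 2 ≤
      (CF * N ^ e) ^ 2 * (J * ∑ j ∈ Finset.range J, I j) := by
    have e1 : (CF * N ^ e) ^ 2 * (J * ∑ j ∈ Finset.range J, I j) =
        ∫ v : ℝ, (CF * N ^ e) ^ 2 * (J * ∑ j ∈ Finset.range J,
          (1 + v ^ 2)⁻¹ * ‖∑ m ∈ Bl M j, D.lam m * (m : ℂ) ^ (-pt (1 / 2 + e) v)‖ ^ 2) := by
      rw [integral_const_mul, integral_const_mul, integral_finset_sum _ fun j _ => hint j]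
    rw [e1]
    refine integral_mono (integrable_sq E D.lam _ hE)
      (((integrable_finset_sum _ fun j _ => hint j).const_mul _).const_mul _) fun v => ?_
    show (1 + v ^ 2)⁻¹ * ‖∑ m ∈ E, D.lam m * (m : ℂ) ^ (-pt (1 / 2 + e) v)‖ ^ 2 ≤ _
    rw [← Finset.mul_sum]
    have h2 := hD M J fun m => D.lam m * (m : ℂ) ^ (-pt (1 / 2 + e) v)
    have h3 : ‖∑ m ∈ E, D.lam m * (m : ℂ) ^ (-pt (1 / 2 + e) v)‖ ^ 2 ≤
        (CF * N ^ e) ^ 2 * (J * ∑ j ∈ Finset.range J, ‖∑ m ∈ Bl M j, D.lam m * (m : ℂ) ^ (-pt (1 / 2 + e) v)‖ ^ 2) := by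
      calc _ ≤ (CF * N ^ e * ‖∑ m ∈ M2 M J, D.lam m * (m : ℂ) ^ (-pt (1 / 2 + e) v)‖) ^ 2 :=
            pow_le_pow_left₀ (norm_nonneg _) (hfac v) 2
        _ = (CF * N ^ e) ^ 2 * ‖∑ m ∈ M2 M J, D.lam m * (m : ℂ) ^ (-pt (1 / 2 + e) v)‖ ^ 2 := by ring
        _ ≤ _ := mul_le_mul_of_nonneg_left h2 (by positivity)
    calc _ ≤ (1 + v ^ 2)⁻¹ * ((CF * N ^ e) ^ 2 * (J * ∑ j ∈ Finset.range J,
          ‖∑ m ∈ Bl M j, D.lam m * (m : ℂ) ^ (-pt (1 / 2 + e) v)‖ ^ 2)) :=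
          mul_le_mul_of_nonneg_left h3 (by positivity)
      _ = _ := by ring
  have hI0 : ∀ j, 0 ≤ I j := fun j => integral_nonneg fun v => by positivity
  have h6 : D.q ^ e ≤ Qb ^ e := Real.rpow_le_rpow (by linarith) hq he.le
  have hQ0 : 0 < Qb := by linarith
  have ht1 : (1 : ℝ) ≤ (1 + |t|) ^ K := one_le_pow₀ (by linarith [abs_nonneg t])
  have ht0 : (0 : ℝ) < (1 + |t|) ^ K := by linarith
  have h7 : N ^ (2 * ε) * (1 + |t|) ^ K ≤ (CA * (1 + Qb ^ e * ((CF * N ^ e) ^ 2 * (J * ∑ j ∈ Finset.range J, I j)))) *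
      (1 + |t|) ^ K := by
    calc N ^ (2 * ε) * (1 + |t|) ^ K ≤ N ^ (2 * ε) * (1 + |t|) ^ K * (1 + |t|) ^ K :=
          le_mul_of_one_le_right (by positivity) ht1
      _ = (N ^ ε * (1 + |t|) ^ K) ^ 2 := by
          have : N ^ (2 * ε) = (N ^ ε) ^ 2 := by
            rw [← Real.rpow_natCast, ← Real.rpow_mul hN0.le]
            congr 1
            push_cast
            ring
          rw [this]
          ring
      _ ≤ ‖D.L (1 / 2 + t * Complex.I)‖ ^ 2 := pow_le_pow_left₀ (by positivity) hL.le 2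
      _ ≤ _ := hafe
      _ = (CA * (1 + D.q ^ e *
          ∫ v : ℝ, (1 + v ^ 2)⁻¹ * ‖∑ m ∈ E, D.lam m * (m : ℂ) ^ (-pt (1 / 2 + e) v)‖ ^ 2)) * (1 + |t|) ^ K := by
          ring
      _ ≤ _ := by
          have hi : 0 ≤ ∫ v : ℝ, (1 + v ^ 2)⁻¹ * ‖∑ m ∈ E, D.lam m * (m : ℂ) ^ (-pt (1 / 2 + e) v)‖ ^ 2 :=
            integral_nonneg fun v => by positivity
          refine mul_le_mul_of_nonneg_right (mul_le_mul_of_nonneg_left ?_ (by linarith)) ht0.le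
          linarith [mul_le_mul h6 h1 hi (by positivity)]
  exact le_of_mul_le_mul_right h7 ht0

theorem t_QU1 (hA : S_afe) (hF : S_fac) (hD : S_dya) : S_qu1 := by
  intro n hn H dd sz hdd hsz hL χ hχ hχc T ε hε
  have hn' : (1 : ℝ) ≤ n := by exact_mod_cast hn
  have hdd' : (1 : ℝ) ≤ dd := by exact_mod_cast hdd
  set T₁ : ℝ := max T 1 with hT₁
  have hT1 : 1 ≤ T₁ := le_max_right _ _
  set e : ℝ := min ε 1 / (20 * (dd + 2)) with he
  have hmin : 0 < min ε 1 := lt_min hε (by norm_num)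
  have he0 : 0 < e := by positivity
  have hee : e * (20 * (dd + 2)) = min ε 1 := by
    rw [he]
    field_simp
  have heε : e * (20 * (dd + 2)) ≤ ε := hee.le.trans (min_le_left ε 1)
  have he1 : e * (20 * (dd + 2)) ≤ 1 := hee.le.trans (min_le_right ε 1)
  have he8 : e ≤ 1 / 8 := by nlinarith
  obtain ⟨C₀, hC₀, hlsi⟩ := hL χ hχ hχc e he0
  obtain ⟨CA, K, hCA, hafe⟩ := hA n T e he0
  obtain ⟨CF, hCF, hfac⟩ := hF n e he0
  refine ⟨e / (n : ℝ) ^ 2, K, by positivity, fun η C₁ hη hηe hC₁ => ?_⟩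
  have hη₁e : e / (n : ℝ) ^ 2 ≤ e := div_le_self he0.le (by nlinarith)
  have hηe' : η * (n : ℝ) ^ 2 ≤ e := by
    rwa [le_div_iff₀ (by positivity)] at hηe
  have hη1 : η ≤ 1 := by linarith
  obtain ⟨A₁, hA₁, hnum1⟩ := num_condQ n dd hdd hT1 hC₀ hC₁ he0 (by nlinarith) hη hηe'
  obtain ⟨A₂, hA₂, hnum2⟩ := num_log (n + dd + 1) hT1 hC₁ he0 (by linarith) hη hη1
  set A₃ : ℝ := (2 * CA) ^ (1 / ε) with hA₃
  refine ⟨1 + 2 * (CA * (T₁ ^ e * (CF ^ 2 * (Real.pi * 8 * C₀ * A₂)))), ⌈max A₁ A₃⌉₊, by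
    have : 0 ≤ CA * (T₁ ^ e * (CF ^ 2 * (Real.pi * 8 * C₀ * A₂))) := by
      have := Real.pi_pos
      positivity
    linarith, ?_⟩
  intro N _ F hNN hFD k f l ξ D hfam heig hξ hlam hDD hmass Q hQ
  have hNr : max A₁ A₃ ≤ (N : ℝ) := (Nat.le_ceil _).trans (by exact_mod_cast hNN)
  have hN1 : (1 : ℝ) ≤ N := by exact_mod_cast NeZero.one_le
  have hN0 : (0 : ℝ) < N := by linarith
  have hNpos : 0 < N := by exact_mod_cast hN0
  set Y : ℝ := C₁ * (N : ℝ) ^ η with hY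
  have hY1 : 1 ≤ Y := one_le_mul_of_one_le_of_one_le hC₁ (Real.one_le_rpow hN1 hη.le)
  set Qb : ℝ := T₁ * (N : ℝ) ^ ((dd : ℝ) + e) with hQb
  set X : ℝ := Qb ^ (1 / 2 + e) with hX
  have hTN : 1 ≤ Qb := one_le_mul_of_one_le_of_one_le hT1 (Real.one_le_rpow hN1 (by positivity))
  have hX1 : 1 ≤ X := Real.one_le_rpow hTN (by positivity)
  obtain ⟨J₀, hJ₀, hJ₀'⟩ := exists_nat_pow_near hX1 (by norm_num : (1 : ℝ) < 2)
  set J : ℕ := J₀ + 1 with hJ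
  have hJX : (2 : ℝ) ^ J ≤ 2 * X := by
    rw [hJ, pow_succ]
    linarith
  have hXJ : X < (2 : ℝ) ^ J := hJ₀'
  obtain ⟨E, hE0, hE1, hE2⟩ := hfac N J hNpos
  have hs0 : 0 ≤ sz N := hsz N
  set W : ℝ := C₀ * sz N * (N : ℝ) ^ e * (1 + Real.log Y) ^ n with hW
  have hlY : 0 ≤ Real.log Y := Real.log_nonneg hY1
  have hW0 : 0 ≤ W := by positivity
  have hcond := hnum1 N ((le_max_left _ _).trans hNr)
  -- the large sieve inequality for the blocks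
  have hblock : ∀ j ∈ Finset.range J, ∀ v : ℝ,
      ∑ i ∈ Q, ‖∑ m ∈ Bl N j, (D i).lam m * (m : ℂ) ^ (-pt (1 / 2 + e) v)‖ ^ 2 ≤ 8 * W := by
    intro j hj v
    have hjJ : j + 1 ≤ J := Finset.mem_range.1 hj
    have hBl : ∀ m ∈ Bl N j, 0 < m ∧ m.Coprime N := fun m hm =>
      ⟨lt_of_lt_of_le (by positivity) (Finset.mem_filter.1 hm).2.1, (Finset.mem_filter.1 hm).2.2⟩
    have h1 := hlsi N F hFD k f l hfam heig Y (Bl N j)
      (fun m => ξ m * (m : ℂ) ^ (-pt (1 / 2 + e) v)) hY1 hBl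
      (fun m hm m' hm' => by
        have h2 := (Finset.mem_filter.1 hm).2.1
        have h3 := Finset.mem_range.1 (Finset.mem_filter.1 hm').1
        rw [pow_succ] at h3
        omega)
      (fun m hm => by
        refine le_trans ?_ hcond
        refine mul_le_mul_of_nonneg_right (mul_le_mul_of_nonneg_left ?_ (by linarith)) (by positivity)
        have h3 := Finset.mem_range.1 (Finset.mem_filter.1 hm).1
        have h4 : (m : ℝ) ≤ (2 : ℝ) ^ (j + 1) := by exact_mod_cast h3.le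
        exact h4.trans ((pow_le_pow_right₀ (by norm_num) hjJ).trans hJX))
    refine real_of_mass Q (fun i => ∑ m ∈ Bl N j, (D i).lam m * (m : ℂ) ^ (-pt (1 / 2 + e) v)) _ W ?_
      (fun i _ => hmass i) hW0
    refine le_trans (le_of_eq ?_) (h1.trans (ENNReal.ofReal_le_ofReal ?_))
    · refine Finset.sum_congr rfl fun i _ => ?_
      congr 3
      refine Finset.sum_congr rfl fun m hm => ?_
      rw [hlam i m (hBl m hm).1 (hBl m hm).2]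
      ring
    · have h5 : ∑ m ∈ Bl N j, ‖ξ m * (m : ℂ) ^ (-pt (1 / 2 + e) v)‖ ^ 2 ≤ 1 := by
        refine le_trans (Finset.sum_le_sum fun m hm => ?_) (block he0.le N j v)
        have hm1 : (1 : ℝ) ≤ m := by
          have := (Finset.mem_filter.1 hm).2.1
          exact_mod_cast (Nat.one_le_two_pow.trans this)
        have h6 : ‖ξ m * (m : ℂ) ^ (-pt (1 / 2 + e) v)‖ ^ 2 ≤ ‖(m : ℂ) ^ (-pt (1 / 2 + e) v)‖ ^ 2 := by
          rw [norm_mul]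
          refine pow_le_pow_left₀ (by positivity) ?_ 2
          exact mul_le_of_le_one_left (norm_nonneg _) (hξ m)
        exact h6.trans (le_mul_of_one_le_right (by positivity) (Real.one_le_rpow hm1 he0.le))
      calc _ ≤ C₀ * sz N * (N : ℝ) ^ e * (1 + Real.log Y) ^ n * 1 :=
            mul_le_mul_of_nonneg_left h5 hW0
        _ = W := mul_one _
  set I : Fin k → ℕ → ℝ := fun i j =>
    ∫ v : ℝ, (1 + v ^ 2)⁻¹ * ‖∑ m ∈ Bl N j, (D i).lam m * (m : ℂ) ^ (-pt (1 / 2 + e) v)‖ ^ 2 with hI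
  have hsum : ∀ j ∈ Finset.range J, ∑ i ∈ Q, I i j ≤ Real.pi * (8 * W) := fun j hj =>
    sum_int Q (fun i v => ‖∑ m ∈ Bl N j, (D i).lam m * (m : ℂ) ^ (-pt (1 / 2 + e) v)‖ ^ 2) (8 * W)
      (fun i _ => integrable_sq (Bl N j) (D i).lam _ fun m hm =>
        lt_of_lt_of_le (by positivity) (Finset.mem_filter.1 hm).2.1) (hblock j hj)
  -- the bound for each form
  have hone : ∀ i ∈ Q, (N : ℝ) ^ (2 * ε) ≤ CA * (1 + Qb ^ e *
      ((CF * (N : ℝ) ^ e) ^ 2 * (J * ∑ j ∈ Finset.range J, I i j))) := by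
    intro i hi
    obtain ⟨t, ht'⟩ := hQ i hi
    obtain ⟨hok, hq, hμ⟩ := hDD i
    have hq' : (D i).q ≤ Qb := by
      refine hq.trans ?_
      have h1 : (N : ℝ) ^ (e / (n : ℝ) ^ 2) ≤ (N : ℝ) ^ e := Real.rpow_le_rpow_of_exponent_le hN1 hη₁e
      have h2 : Qb = T₁ * (N : ℝ) ^ dd * (N : ℝ) ^ e := by
        rw [hQb, Real.rpow_add hN0, Real.rpow_natCast, mul_assoc]
      rw [h2]
      have h3 : T * (N : ℝ) ^ dd ≤ T₁ * (N : ℝ) ^ dd :=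
        mul_le_mul_of_nonneg_right (le_max_left _ _) (by positivity)
      exact mul_le_mul h3 h1 (by positivity) (by positivity)
    refine one_formQ hD hN1 hCA he0 hok.one_le hq' hE0 ht' ?_ ?_
    · exact hafe (D i) hok hμ X E (Real.rpow_le_rpow (by linarith [hok.one_le]) hq' (by positivity)) hE0
        (fun m hm hmX => hE1 m hm (by
          have : (m : ℝ) < (2 : ℝ) ^ J := lt_of_le_of_lt hmX hXJ
          exact_mod_cast this)) t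
    · exact fun v => hE2 (D i) hok v
  -- summation
  have htot : (Q.card : ℝ) * (N : ℝ) ^ (2 * ε) ≤ CA * (Q.card + Qb ^ e *
      ((CF * (N : ℝ) ^ e) ^ 2 * (J * (J * (Real.pi * (8 * W)))))) := by
    have h1 := Finset.sum_le_sum hone
    rw [Finset.sum_const, nsmul_eq_mul] at h1
    refine h1.trans ?_
    rw [← Finset.mul_sum, Finset.sum_add_distrib, Finset.sum_const, nsmul_eq_mul, mul_one, ← Finset.mul_sum,
      ← Finset.mul_sum, ← Finset.mul_sum, Finset.sum_comm]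
    have h2 : ∑ j ∈ Finset.range J, ∑ i ∈ Q, I i j ≤ J * (Real.pi * (8 * W)) := by
      refine (Finset.sum_le_sum hsum).trans (le_of_eq ?_)
      rw [Finset.sum_const, Finset.card_range, nsmul_eq_mul]
    gcongr
  have hJX' : (2 : ℝ) ^ J ≤ 2 * (T₁ * (N : ℝ) ^ (n + dd + 1)) ^ (1 / 2 + e) := by
    refine hJX.trans (mul_le_mul_of_nonneg_left (Real.rpow_le_rpow (by positivity) ?_ (by positivity)) (by norm_num))
    refine mul_le_mul_of_nonneg_left ?_ (by positivity)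
    rw [← Real.rpow_natCast]
    refine Real.rpow_le_rpow_of_exponent_le hN1 ?_
    push_cast
    linarith
  have hlog0 := hnum2 N J hN1 hJX'
  have hlog : (J : ℝ) * J * (1 + Real.log Y) ^ n ≤ A₂ * (N : ℝ) ^ e := by
    refine le_trans ?_ hlog0
    refine mul_le_mul_of_nonneg_left ?_ (by positivity)
    exact pow_le_pow_right₀ (by linarith) (by omega)
  have hthr : 2 * CA ≤ (N : ℝ) ^ ε := by
    have h1 : A₃ ≤ N := (le_max_right _ _).trans hNr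
    calc 2 * CA = (A₃) ^ ε := by
          rw [hA₃, ← Real.rpow_mul (by positivity), one_div_mul_cancel hε.ne', Real.rpow_one]
      _ ≤ (N : ℝ) ^ ε := Real.rpow_le_rpow (by positivity) h1 hε.le
  have hNε : 1 ≤ (N : ℝ) ^ ε := Real.one_le_rpow hN1 hε.le
  have e2ε : (N : ℝ) ^ (2 * ε) = (N : ℝ) ^ ε * (N : ℝ) ^ ε := by
    rw [← Real.rpow_add hN0]
    ring_nf
  have hlow : CA ≤ (N : ℝ) ^ (2 * ε) / 2 := by
    rw [e2ε]
    nlinarith
  set Z : ℝ := CA * (T₁ ^ e * (CF ^ 2 * (Real.pi * 8 * C₀ * A₂))) with hZ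
  have hZ0 : 0 ≤ Z := by
    have := Real.pi_pos
    positivity
  have hmain : CA * (Qb ^ e *
      ((CF * (N : ℝ) ^ e) ^ 2 * (J * (J * (Real.pi * (8 * W)))))) ≤ Z * sz N * (N : ℝ) ^ ε := by
    have e1 : Qb ^ e = T₁ ^ e * (N : ℝ) ^ (((dd : ℝ) + e) * e) := by
      rw [hQb, Real.mul_rpow (by positivity) (by positivity), ← Real.rpow_mul hN0.le]
    have e2 : (N : ℝ) ^ (((dd : ℝ) + e) * e + 4 * e) =
        (N : ℝ) ^ (((dd : ℝ) + e) * e) * (N : ℝ) ^ e * (N : ℝ) ^ e * (N : ℝ) ^ e * (N : ℝ) ^ e := by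
      rw [← Real.rpow_add hN0, ← Real.rpow_add hN0, ← Real.rpow_add hN0, ← Real.rpow_add hN0]
      ring_nf
    have e3 : CA * (Qb ^ e * ((CF * (N : ℝ) ^ e) ^ 2 * (J * (J * (Real.pi * (8 * W)))))) =
        (CA * (T₁ ^ e * (CF ^ 2 * (Real.pi * 8 * C₀))) * sz N * ((N : ℝ) ^ (((dd : ℝ) + e) * e) * (N : ℝ) ^ e *
          (N : ℝ) ^ e * (N : ℝ) ^ e)) * ((J : ℝ) * J * (1 + Real.log Y) ^ n) := by
      rw [e1, hW]
      ring
    have e4 : (N : ℝ) ^ (((dd : ℝ) + e) * e + 4 * e) ≤ (N : ℝ) ^ ε := by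
      refine Real.rpow_le_rpow_of_exponent_le hN1 ?_
      nlinarith
    have hpi := Real.pi_pos
    rw [e3]
    calc _ ≤ (CA * (T₁ ^ e * (CF ^ 2 * (Real.pi * 8 * C₀))) * sz N * ((N : ℝ) ^ (((dd : ℝ) + e) * e) * (N : ℝ) ^ e *
          (N : ℝ) ^ e * (N : ℝ) ^ e)) * (A₂ * (N : ℝ) ^ e) :=
          mul_le_mul_of_nonneg_left hlog (by positivity)
      _ = Z * sz N * (N : ℝ) ^ (((dd : ℝ) + e) * e + 4 * e) := by
          rw [e2, hZ]
          ring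
      _ ≤ _ := mul_le_mul_of_nonneg_left e4 (by positivity)
  have hfin : (Q.card : ℝ) * ((N : ℝ) ^ (2 * ε) / 2) ≤ Z * sz N * (N : ℝ) ^ ε := by
    have hc : (0 : ℝ) ≤ Q.card := Nat.cast_nonneg _
    have h1 := mul_le_mul_of_nonneg_left hlow hc
    rw [mul_add] at htot
    nlinarith [htot, hmain, h1]
  have h7 : (Q.card : ℝ) ≤ 2 * Z * sz N * (N : ℝ) ^ (-ε) := by
    have h8 : (N : ℝ) ^ (-ε) * (N : ℝ) ^ (2 * ε) = (N : ℝ) ^ ε := by
      rw [← Real.rpow_add hN0]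
      ring_nf
    have h9 : (Q.card : ℝ) * ((N : ℝ) ^ (2 * ε) / 2) ≤
        (2 * Z * sz N * (N : ℝ) ^ (-ε)) * ((N : ℝ) ^ (2 * ε) / 2) := by
      refine hfin.trans (le_of_eq ?_)
      calc Z * sz N * (N : ℝ) ^ ε = Z * sz N * ((N : ℝ) ^ (-ε) * (N : ℝ) ^ (2 * ε)) := by rw [h8]
        _ = _ := by ring
    exact le_of_mul_le_mul_right h9 (by positivity)
  refine h7.trans ?_
  have h9 : 0 ≤ sz N * (N : ℝ) ^ (-ε) := by positivity
  nlinarith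

end Pool.Agent.T2h79.LG.QU1
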