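import Pool.Agent.T2h79.LG.QuA

/-!
# Project LG: task QU2
-/

set_option autoImplicit false

open MeasureTheory Matrix
open scoped MatrixGroups ENNReal Topology

noncomputable section

namespace Pool.Agent.T2h79.LG.QU2

open Pool.Agent.T2h77.N Pool.Agent.T2h79.LG.ASL Pool.Agent.T2h79.LG.QuA

theorem t_QU2 (hL : S_lst) (hR : S_rpo) : S_qu2 := by
  intro n hn H sz hsz hTP χ hχ hχc
  obtain ⟨κ₀, η₁, hκ0, hη0, hκ4, hcore⟩ := core hL n hn H sz hsz hTP χ hχ hχc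
  refine ⟨κ₀, η₁, hκ0, hη0, fun ε η C₁ hε hη hηη hC₁ => ?_⟩
  obtain ⟨Cr, hCr, hrpo⟩ := hR n hn (ε / 2) (by positivity)
  obtain ⟨C, N₀, hC, hmain⟩ := hcore (ε / 2) η C₁ (by positivity) hη hηη hC₁
  refine ⟨C * Cr, N₀, one_le_mul_of_one_le_of_one_le hC hCr, ?_⟩
  intro N _ F hNN hF k f l ξ D hf heig hξ hlam hmass Z Q hZ hQ
  have hN1 : (1 : ℝ) ≤ N := by exact_mod_cast NeZero.one_le
  have hN0 : (0 : ℝ) < N := by linarith
  have hszN := hsz N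
  obtain ⟨hr, -⟩ := hrpo N (H N) k f l ξ D hf.1 heig hξ hlam
  set E : Finset ℕ := (Finset.range Z).filter (fun e => 0 < e ∧ e.Coprime N) with hE
  have hE0 : ∀ m ∈ E, 0 < m ∧ (m : ℝ) ≤ (N : ℝ) ^ κ₀ ∧ m.Coprime N := by
    intro m hm
    obtain ⟨h1, h2, h3⟩ := Finset.mem_filter.1 hm
    refine ⟨h2, le_trans ?_ hZ, h3⟩
    exact_mod_cast (Finset.mem_range.1 h1).le
  have hk1 : (N : ℝ) ^ κ₀ ≤ N := by
    calc _ ≤ (N : ℝ) ^ (1 : ℝ) := Real.rpow_le_rpow_of_exponent_le hN1 (by linarith)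
      _ = N := Real.rpow_one _
  have h := hmain N F hNN hF k f hf hmass E (fun _ => 1) (1 / 2) (Cr * (N : ℝ) ^ (ε / 2))
    (fun m => Cr * (m : ℝ) ^ (ε / 2)) (fun m i => (D i).mob m) Q hE0
    (fun m hm => ⟨by positivity, hr m (hE0 m hm).1 (hE0 m hm).2.2⟩) (by positivity) (fun j => by
      refine blk_le j (fun m hm => (hE0 m hm).1) _ _ (by positivity) fun m hm => ?_
      obtain ⟨hm0, hm1, -⟩ := hE0 m hm
      have hmp : (0 : ℝ) < m := by exact_mod_cast hm0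
      have e1 : (‖(1 : ℂ)‖ * (m : ℝ) ^ (-(1 / 2) : ℝ)) ^ 2 = (m : ℝ)⁻¹ := by
        rw [norm_one, one_mul, ← Real.rpow_natCast, ← Real.rpow_mul hmp.le]
        norm_num
        rw [Real.rpow_neg_one]
      rw [e1]
      refine mul_le_mul_of_nonneg_left (mul_le_mul_of_nonneg_left ?_ (by linarith)) (by positivity)
      exact Real.rpow_le_rpow hmp.le (hm1.trans hk1) (by positivity))
  have hlow : (Q.card : ℝ) * (N : ℝ) ^ (2 * ε) ≤ ∑ i ∈ Q, ∫ v : ℝ, (1 + v ^ 2)⁻¹ *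
      ‖∑ m ∈ E, 1 * (D i).mob m * (m : ℂ) ^ (-pt (1 / 2) v)‖ ^ 2 := by
    rw [← nsmul_eq_mul, ← Finset.sum_const]
    refine Finset.sum_le_sum fun i hi => (hQ i hi).le.trans (le_of_eq ?_)
    refine integral_congr_ae (Filter.Eventually.of_forall fun v => ?_)
    show (1 + v ^ 2)⁻¹ * ‖(D i).Mo N Z (1 / 2 + v * Complex.I)‖ ^ 2 = _
    rw [LData.Mo]
    congr 3
    refine Finset.sum_congr rfl fun m _ => ?_
    rw [one_mul, pt]
    congr 2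
    push_cast
    ring
  have h2 := hlow.trans h
  have h3 : C * sz N * (N : ℝ) ^ (ε / 2) * (Cr * (N : ℝ) ^ (ε / 2)) =
      (C * Cr * sz N * (N : ℝ) ^ (-ε)) * (N : ℝ) ^ (2 * ε) := by
    have : (N : ℝ) ^ (ε / 2) * (N : ℝ) ^ (ε / 2) = (N : ℝ) ^ (-ε) * (N : ℝ) ^ (2 * ε) := by
      rw [← Real.rpow_add hN0, ← Real.rpow_add hN0]
      ring_nf
    calc _ = C * Cr * sz N * ((N : ℝ) ^ (ε / 2) * (N : ℝ) ^ (ε / 2)) := by ring
      _ = _ := by rw [this]; ring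
  rw [h3] at h2
  exact le_of_mul_le_mul_right h2 (by positivity)

end Pool.Agent.T2h79.LG.QU2
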