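import Pool.Agent.T2h79.LG.QuA

/-!
# Project LG: task QU3
-/

set_option autoImplicit false

open MeasureTheory Matrix
open scoped MatrixGroups ENNReal Topology

noncomputable section

namespace Pool.Agent.T2h79.LG.QU3

open Pool.Agent.T2h77.N Pool.Agent.T2h79.LG.ASL Pool.Agent.T2h79.LG.QuA

theorem t_QU3 (hL : S_lst) (hR : S_rpo) (hV : S_vvf) : S_qu3 := by
  intro n hn H sz hsz hTP χ hχ hχc
  obtain ⟨κ₀, η₁, hκ0, hη0, hκ4, hcore⟩ := core hL n hn H sz hsz hTP χ hχ hχc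
  obtain ⟨-, Cv, -, hCv, hvv, -⟩ := hV
  refine ⟨κ₀, η₁, hκ0, hη0, fun ε ε' η C₁ hε hε' hη hηη hC₁ => ?_⟩
  obtain ⟨Cr, hCr, hrpo⟩ := hR n hn (ε / 2) (by positivity)
  obtain ⟨C, N₀, hC, hmain⟩ := hcore ε' η C₁ hε' hη hηη hC₁
  refine ⟨C * (Cv ^ 2 * Cr), N₀, one_le_mul_of_one_le_of_one_le hC
    (one_le_mul_of_one_le_of_one_le (one_le_pow₀ hCv) hCr), ?_⟩
  intro N _ F hNN hF k f l ξ D hf heig hξ hlam hmass Z X g Q hZ2 hZX hX hg hQ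
  have hN1 : (1 : ℝ) ≤ N := by exact_mod_cast NeZero.one_le
  have hN0 : (0 : ℝ) < N := by linarith
  have hszN := hsz N
  have hZ0 : (0 : ℝ) < Z := by
    have : 0 < Z := by omega
    exact_mod_cast this
  have hX0 : (0 : ℝ) < X := by
    have : 0 < X := by omega
    exact_mod_cast this
  obtain ⟨-, hr⟩ := hrpo N (H N) k f l ξ D hf.1 heig hξ hlam
  set E : Finset ℕ := (Finset.range (X ^ 2)).filter (fun m => Z ≤ m ∧ 0 < m ∧ m.Coprime N) with hE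
  have hE0 : ∀ m ∈ E, 0 < m ∧ (m : ℝ) ≤ (N : ℝ) ^ κ₀ ∧ m.Coprime N := by
    intro m hm
    obtain ⟨h1, -, h2, h3⟩ := Finset.mem_filter.1 hm
    refine ⟨h2, le_trans ?_ hX, h3⟩
    exact_mod_cast (Finset.mem_range.1 h1).le
  have h := hmain N F hNN hF k f hf hmass E (fun m => VV ((m : ℝ) / X)) (1 / 2 + ε / 2)
    (Cv ^ 2 * Cr * (Z : ℝ) ^ (-(ε / 2)))
    (fun m => Cr * (m : ℝ) ^ (ε / 2)) (fun m i => (D i).cc Z m) Q hE0
    (fun m hm => ⟨by positivity, hr Z m (hE0 m hm).1 (hE0 m hm).2.2⟩) (by positivity) (fun j => by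
      refine blk_le j (fun m hm => (hE0 m hm).1) _ _ (by positivity) fun m hm => ?_
      have hm0 := (hE0 m hm).1
      have hmZ : (Z : ℝ) ≤ m := by exact_mod_cast (Finset.mem_filter.1 hm).2.1
      have hmp : (0 : ℝ) < m := by exact_mod_cast hm0
      have e1 : ((m : ℝ) ^ (-(1 / 2 + ε / 2) : ℝ)) ^ 2 * (m : ℝ) ^ (ε / 2) = (m : ℝ)⁻¹ * (m : ℝ) ^ (-(ε / 2)) := by
        rw [← Real.rpow_natCast, ← Real.rpow_mul hmp.le, ← Real.rpow_neg_one, ← Real.rpow_add hmp,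
          ← Real.rpow_add hmp]
        congr 1
        push_cast
        ring
      have h5 : ‖VV ((m : ℝ) / X)‖ ^ 2 ≤ Cv ^ 2 :=
        pow_le_pow_left₀ (norm_nonneg _) (hvv _ (by positivity)).1 2
      have h6 : (m : ℝ) ^ (-(ε / 2)) ≤ (Z : ℝ) ^ (-(ε / 2)) :=
        Real.rpow_le_rpow_of_nonpos hZ0 hmZ (by linarith)
      calc _ = ‖VV ((m : ℝ) / X)‖ ^ 2 * Cr * (((m : ℝ) ^ (-(1 / 2 + ε / 2) : ℝ)) ^ 2 * (m : ℝ) ^ (ε / 2)) := by ring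
        _ = ‖VV ((m : ℝ) / X)‖ ^ 2 * Cr * ((m : ℝ)⁻¹ * (m : ℝ) ^ (-(ε / 2))) := by rw [e1]
        _ ≤ Cv ^ 2 * Cr * ((m : ℝ)⁻¹ * (Z : ℝ) ^ (-(ε / 2))) := by gcongr
        _ = _ := by ring)
  have hlow : (Q.card : ℝ) * g ^ 2 ≤ ∑ i ∈ Q, ∫ v : ℝ, (1 + v ^ 2)⁻¹ *
      ‖∑ m ∈ E, VV ((m : ℝ) / X) * (D i).cc Z m * (m : ℂ) ^ (-pt (1 / 2 + ε / 2) v)‖ ^ 2 := by
    rw [← nsmul_eq_mul, ← Finset.sum_const]
    refine Finset.sum_le_sum fun i hi => (hQ i hi).le.trans (le_of_eq ?_)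
    refine integral_congr_ae (Filter.Eventually.of_forall fun v => ?_)
    show (1 + v ^ 2)⁻¹ * ‖(D i).PP N Z X (((1 / 2 + ε / 2 : ℝ) : ℂ) + v * Complex.I)‖ ^ 2 = _
    rw [LData.PP]
    congr 3
    exact Finset.sum_congr rfl fun m _ => by ring
  refine (hlow.trans h).trans (le_of_eq ?_)
  ring

end Pool.Agent.T2h79.LG.QU3
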