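import Pool.Agent.T2h79.LG.Stm3
import Pool.Agent.T2h77N.Api

/-! The constant one, sums and multiples of represented coefficients. -/

set_option autoImplicit false

open Matrix
open scoped MatrixGroups

namespace Pool.Agent.T2h79.LG.RPA

open Pool.Agent.T2h79.LG Pool.Agent.T2h77.N

theorem RR_spec (hG : S_repG) {n : ℕ} (hn : 1 ≤ n) {m : ℕ} (hm : 0 < m) : IsReps (m : ℤ) (RR n m) := by
  obtain ⟨C, _, h⟩ := hG n hn 1 one_pos
  obtain ⟨R, hR, _⟩ := h m hm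
  have h1 : ∃ R : Finset (MZ n), IsReps (m : ℤ) R := ⟨R, hR⟩
  unfold RR
  rw [dif_pos h1]
  exact h1.choose_spec

theorem t_RPA (hG : S_repG) (_hU : S_repU) : S_rpa := by
  intro n N _ H k f hn hf
  refine ⟨?_, ?_, ?_⟩
  · have hR := RR_spec hG hn one_pos
    obtain ⟨β₀, ⟨h1, γ, h2⟩, h3⟩ := hR.2 1 (by simp)
    have h4 : RR n 1 = {β₀} := by
      rw [Finset.eq_singleton_iff_unique_mem]
      refine ⟨h1, fun β hβ => ?_⟩
      obtain ⟨b, hb⟩ : ∃ b : GZ n, β = (b : MZ n) := ⟨⟨β, by simpa using hR.1 β hβ⟩, rfl⟩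
      refine h3 β ⟨hβ, b⁻¹, ?_⟩
      have h7 : ((b⁻¹ * b : GZ n) : MZ n) = 1 := by
        rw [inv_mul_cancel, Matrix.SpecialLinearGroup.coe_one]
      rw [Matrix.SpecialLinearGroup.coe_mul] at h7
      rw [hb]
      exact h7.symm
    obtain ⟨g₀, hg₀⟩ : ∃ g₀ : GZ n, β₀ = (g₀ : MZ n) := ⟨⟨β₀, by simpa using hR.1 β₀ h1⟩, rfl⟩
    refine ⟨fun _ => 1, ?_, fun i g x => ?_⟩
    · rw [h4, Finset.sum_singleton]
      simp
    · rw [h4, Finset.sum_singleton, hg₀, scl_coe, (hf i).invariant]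
      simp
  · rintro m B B' c c' hB hB' ⟨a, ha, ha'⟩ ⟨b, hb, hb'⟩
    have hM : 0 ≤ (m : ℝ) ^ ((n : ℝ) - 1) := Real.rpow_nonneg (Nat.cast_nonneg m) _
    refine ⟨fun β => a β + b β, ?_, fun i g x => ?_⟩
    · have h1 : ∀ β : MZ n, ‖a β + b β‖ ^ 2 ≤ ‖a β‖ ^ 2 + 2 * (‖a β‖ * ‖b β‖) + ‖b β‖ ^ 2 := by
        intro β
        have := pow_le_pow_left₀ (norm_nonneg _) (norm_add_le (a β) (b β)) 2
        calc ‖a β + b β‖ ^ 2 ≤ (‖a β‖ + ‖b β‖) ^ 2 := this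
          _ = _ := by ring
      have h2 : ∑ β ∈ RR n m, ‖a β‖ * ‖b β‖ ≤
          Real.sqrt B * Real.sqrt B' * (m : ℝ) ^ ((n : ℝ) - 1) := by
        refine (Real.sum_mul_le_sqrt_mul_sqrt _ _ _).trans ?_
        calc Real.sqrt (∑ β ∈ RR n m, ‖a β‖ ^ 2) * Real.sqrt (∑ β ∈ RR n m, ‖b β‖ ^ 2)
            ≤ Real.sqrt (B * (m : ℝ) ^ ((n : ℝ) - 1)) * Real.sqrt (B' * (m : ℝ) ^ ((n : ℝ) - 1)) :=
              mul_le_mul (Real.sqrt_le_sqrt ha) (Real.sqrt_le_sqrt hb) (Real.sqrt_nonneg _)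
                (Real.sqrt_nonneg _)
          _ = Real.sqrt B * Real.sqrt B' *
              (Real.sqrt ((m : ℝ) ^ ((n : ℝ) - 1)) * Real.sqrt ((m : ℝ) ^ ((n : ℝ) - 1))) := by
              rw [Real.sqrt_mul hB, Real.sqrt_mul hB']
              ring
          _ = _ := by rw [Real.mul_self_sqrt hM]
      calc ∑ β ∈ RR n m, ‖a β + b β‖ ^ 2
          ≤ ∑ β ∈ RR n m, (‖a β‖ ^ 2 + 2 * (‖a β‖ * ‖b β‖) + ‖b β‖ ^ 2) :=
            Finset.sum_le_sum fun β _ => h1 β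
        _ = ∑ β ∈ RR n m, ‖a β‖ ^ 2 + 2 * ∑ β ∈ RR n m, ‖a β‖ * ‖b β‖ + ∑ β ∈ RR n m, ‖b β‖ ^ 2 := by
            rw [Finset.sum_add_distrib, Finset.sum_add_distrib, Finset.mul_sum]
        _ ≤ B * (m : ℝ) ^ ((n : ℝ) - 1) + 2 * (Real.sqrt B * Real.sqrt B' * (m : ℝ) ^ ((n : ℝ) - 1)) +
            B' * (m : ℝ) ^ ((n : ℝ) - 1) := by linarith
        _ = (Real.sqrt B ^ 2 + 2 * Real.sqrt B * Real.sqrt B' + Real.sqrt B' ^ 2) *
            (m : ℝ) ^ ((n : ℝ) - 1) := by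
            rw [Real.sq_sqrt hB, Real.sq_sqrt hB']
            ring
        _ = _ := by ring
    · have h1 := ha' i g x
      have h2 := hb' i g x
      calc ∑ β ∈ RR n m, (a β + b β) * f i (scl β * g) (rdM N β • x)
          = ∑ β ∈ RR n m, a β * f i (scl β * g) (rdM N β • x) +
            ∑ β ∈ RR n m, b β * f i (scl β * g) (rdM N β • x) := by
            rw [← Finset.sum_add_distrib]
            exact Finset.sum_congr rfl fun _ _ => add_mul _ _ _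
        _ = _ := by
            rw [h1, h2]
            ring
  · rintro m B c z ⟨a, ha, ha'⟩
    refine ⟨fun β => z * a β, ?_, fun i g x => ?_⟩
    · calc ∑ β ∈ RR n m, ‖z * a β‖ ^ 2 = ‖z‖ ^ 2 * ∑ β ∈ RR n m, ‖a β‖ ^ 2 := by
            rw [Finset.mul_sum]
            exact Finset.sum_congr rfl fun _ _ => by rw [norm_mul, mul_pow]
        _ ≤ ‖z‖ ^ 2 * (B * (m : ℝ) ^ ((n : ℝ) - 1)) := mul_le_mul_of_nonneg_left ha (sq_nonneg _)
        _ = _ := by ring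
    · calc ∑ β ∈ RR n m, z * a β * f i (scl β * g) (rdM N β • x)
          = z * ∑ β ∈ RR n m, a β * f i (scl β * g) (rdM N β • x) := by
            rw [Finset.mul_sum]
            exact Finset.sum_congr rfl fun _ _ => mul_assoc _ _ _
        _ = _ := by
            rw [ha' i g x]
            ring

end Pool.Agent.T2h79.LG.RPA
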