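import Pool.Agent.T2h79.LG.Stm3
import Pool.Agent.T2h77N.Api

/-!
# RPM: multiplication of a Hecke operator with small coefficients by `T(d)`
-/

set_option autoImplicit false

open MeasureTheory Matrix
open scoped MatrixGroups ENNReal Topology ComplexConjugate

noncomputable section

namespace Pool.Agent.T2h79.LG.RPM

open Pool.Agent.T2h77.N

theorem rr_isReps (hG : S_repG) {n : ℕ} (hn : 1 ≤ n) {m : ℕ} (hm : 0 < m) : IsReps (m : ℤ) (RR n m) := by
  have h : ∃ R : Finset (MZ n), IsReps (m : ℤ) R := by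
    obtain ⟨C, _, h⟩ := hG n hn 1 one_pos
    obtain ⟨R, hR, _⟩ := h m hm
    exact ⟨R, hR⟩
  unfold RR
  rw [dif_pos h]
  exact h.choose_spec

theorem reps_unique {n : ℕ} {m : ℤ} {R : Finset (MZ n)} (h : IsReps m R) {a b : MZ n} (ha : a ∈ R) (hb : b ∈ R)
    (γ : GZ n) (e : a = (γ : MZ n) * b) : a = b :=
  (h.2 a (h.1 a ha)).unique ⟨ha, 1, by simp⟩ ⟨hb, γ, e⟩

theorem inv_mul' {n : ℕ} (γ : GZ n) : ((γ⁻¹ : GZ n) : MZ n) * (γ : MZ n) = 1 := by
  rw [← Matrix.SpecialLinearGroup.coe_mul, inv_mul_cancel, Matrix.SpecialLinearGroup.coe_one]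

theorem left_unique {n : ℕ} {m : ℤ} {R : Finset (MZ n)} (h : IsReps m R) {δ δ' β r : MZ n} (hδ : δ ∈ R)
    (hδ' : δ' ∈ R) (hβ : β.det ≠ 0) (γ γ' : GZ n) (e : δ * β = (γ : MZ n) * r) (e' : δ' * β = (γ' : MZ n) * r) :
    δ = δ' := by
  refine reps_unique h hδ hδ' (γ * γ'⁻¹) ?_
  have h1 : r = ((γ'⁻¹ : GZ n) : MZ n) * (δ' * β) := by
    rw [e', ← Matrix.mul_assoc, inv_mul', Matrix.one_mul]
  have h2 : δ * β = (((γ * γ'⁻¹ : GZ n) : MZ n) * δ') * β := by
    rw [Matrix.SpecialLinearGroup.coe_mul, e]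
    conv_lhs => rw [h1]
    simp only [Matrix.mul_assoc]
  have h3 : (δ - ((γ * γ'⁻¹ : GZ n) : MZ n) * δ') * β = 0 := by
    rw [Matrix.sub_mul, h2, sub_self]
  have h4 : (δ - ((γ * γ'⁻¹ : GZ n) : MZ n) * δ') * (β * β.adjugate) = 0 := by
    rw [← Matrix.mul_assoc, h3, Matrix.zero_mul]
  rw [Matrix.mul_adjugate, Matrix.mul_smul, Matrix.mul_one] at h4
  have h5 : δ - ((γ * γ'⁻¹ : GZ n) : MZ n) * δ' = 0 := by
    rcases smul_eq_zero.1 h4 with h | h
    · exact absurd h hβ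
    · exact h
  exact sub_eq_zero.1 h5

theorem inv_form {n N : ℕ} {H : Subgroup (GN n N)} {f : GR n → XX H → ℂ} (hf : IsForm H f) {r : MZ n}
    (hr : 0 < r.det) (hu : IsUnit ((r.det : ℤ) : ZMod N)) (γ : GZ n) (g : GR n) (x : XX H) :
    f (scl ((γ : MZ n) * r) * g) (rdM N ((γ : MZ n) * r) • x) = f (scl r * g) (rdM N r • x) := by
  have h1 : 0 < (γ : MZ n).det := by rw [γ.2]; exact one_pos
  rw [scl_mul h1 hr, rdM_mul (isUnit_det_coe N γ) hu, scl_coe, mul_assoc, mul_smul]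
  exact hf.invariant γ _ _

theorem isUnit_of_coprime {m N : ℕ} (h : m.Coprime N) : IsUnit (((m : ℤ)) : ZMod N) := by
  have : IsUnit ((m : ℕ) : ZMod N) := (ZMod.isUnit_iff_coprime m N).2 h
  simpa using this

theorem t_RPM (hS : S_sch) (hG : S_repG) : S_rpm := by
  classical
  intro n hn N _ H k f l hf hl m d B c hm hd hmN hdN hc
  obtain ⟨a, ha, hc⟩ := hc
  have hRm := rr_isReps hG hn hm
  have hRd := rr_isReps hG hn hd
  have hmd : 0 < m * d := Nat.mul_pos hm hd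
  have hRR := rr_isReps hG hn hmd
  have key : ∀ β : MZ n, β.det = ((m * d : ℕ) : ℤ) → ∃ r, r ∈ RR n (m * d) ∧ ∃ γ : GZ n, β = (γ : MZ n) * r := by
    intro β h
    obtain ⟨r, ⟨h1, h2⟩, _⟩ := hRR.2 β h
    exact ⟨r, h1, h2⟩
  choose! rp hrp using key
  have hdet : ∀ p ∈ RR n d ×ˢ RR n m, (p.1 * p.2).det = ((m * d : ℕ) : ℤ) := by
    intro p hp
    rw [Finset.mem_product] at hp
    rw [Matrix.det_mul, hRd.1 _ hp.1, hRm.1 _ hp.2]
    push_cast
    ring
  refine ⟨fun r => ∑ p ∈ (RR n d ×ˢ RR n m).filter (fun p => rp (p.1 * p.2) = r), a p.2, ?_, ?_⟩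
  · -- the coefficients
    have h1 := hS n hn m d (RR n m) (RR n (m * d)) hm hd hRm hRR (fun β => ‖a β‖)
      (fun r => (RR n m).filter (fun β => ∃ δ : MZ n, r = δ * β)) (fun _ => norm_nonneg _)
      (fun r β => Finset.mem_filter)
    have h2 : ∑ β ∈ RR n (m * d), ‖∑ p ∈ (RR n d ×ˢ RR n m).filter (fun p => rp (p.1 * p.2) = β), a p.2‖ ^ 2 ≤
        ∑ r ∈ RR n (m * d), (∑ β ∈ (RR n m).filter (fun β => ∃ δ : MZ n, r = δ * β), ‖a β‖) ^ 2 := by
      refine Finset.sum_le_sum fun r _ => ?_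
      refine pow_le_pow_left₀ (norm_nonneg _) ?_ 2
      refine (norm_sum_le _ _).trans ?_
      have h3 : ∑ p ∈ (RR n d ×ˢ RR n m).filter (fun p => rp (p.1 * p.2) = r), ‖a p.2‖ =
          ∑ β ∈ ((RR n d ×ˢ RR n m).filter (fun p => rp (p.1 * p.2) = r)).image Prod.snd, ‖a β‖ := by
        rw [Finset.sum_image]
        rintro ⟨δ, β⟩ hp ⟨δ', β'⟩ hp' e
        have e' : β = β' := e
        subst e'
        rw [Finset.mem_coe, Finset.mem_filter] at hp hp'
        have q1 := (hrp _ (hdet _ hp.1)).2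
        have q2 := (hrp _ (hdet _ hp'.1)).2
        obtain ⟨γ, q1⟩ := q1
        obtain ⟨γ', q2⟩ := q2
        rw [hp.2] at q1
        rw [hp'.2] at q2
        have m1 := Finset.mem_product.1 hp.1
        have m2 := Finset.mem_product.1 hp'.1
        have hβ : β.det ≠ 0 := by
          rw [hRm.1 _ m1.2]
          exact_mod_cast hm.ne'
        have := left_unique hRd m1.1 m2.1 hβ γ γ' q1 q2
        rw [show δ = δ' from this]
      rw [h3]
      refine Finset.sum_le_sum_of_subset_of_nonneg ?_ fun _ _ _ => norm_nonneg _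
      intro β hβ
      obtain ⟨⟨δ, β'⟩, hp, e⟩ := Finset.mem_image.1 hβ
      have e' : β' = β := e
      subst e'
      rw [Finset.mem_filter] at hp
      have m1 := Finset.mem_product.1 hp.1
      obtain ⟨γ, q1⟩ := (hrp _ (hdet _ hp.1)).2
      rw [hp.2] at q1
      refine Finset.mem_filter.2 ⟨m1.2, ((γ⁻¹ : GZ n) : MZ n) * δ, ?_⟩
      have q1' : δ * β' = (γ : MZ n) * r := q1
      rw [Matrix.mul_assoc, q1', ← Matrix.mul_assoc, inv_mul', Matrix.one_mul]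
    refine h2.trans (h1.trans ?_)
    have hd0 : (0 : ℝ) ≤ (d : ℝ) := Nat.cast_nonneg d
    have hm0 : (0 : ℝ) ≤ (m : ℝ) := Nat.cast_nonneg m
    have h4 : (0 : ℝ) ≤ (d : ℝ) ^ ((n : ℝ) - 1) * (d.divisors.card : ℝ) ^ (2 * n) :=
      mul_nonneg (Real.rpow_nonneg hd0 _) (pow_nonneg (Nat.cast_nonneg _) _)
    refine (mul_le_mul_of_nonneg_left ha h4).trans (le_of_eq ?_)
    rw [Nat.cast_mul, Real.mul_rpow hm0 hd0]
    ring
  · -- the eigenvalue
    intro i g x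
    have hF : ∀ p ∈ RR n d ×ˢ RR n m, f i (scl (p.1 * p.2) * g) (rdM N (p.1 * p.2) • x) =
        f i (scl (rp (p.1 * p.2)) * g) (rdM N (rp (p.1 * p.2)) • x) := by
      intro p hp
      obtain ⟨h1, γ, h2⟩ := hrp _ (hdet _ hp)
      have h3 : (rp (p.1 * p.2)).det = ((m * d : ℕ) : ℤ) := hRR.1 _ h1
      have h4 : 0 < (rp (p.1 * p.2)).det := by rw [h3]; exact_mod_cast hmd
      have h5 : IsUnit (((rp (p.1 * p.2)).det : ℤ) : ZMod N) := by
        rw [h3]
        exact isUnit_of_coprime (Nat.Coprime.mul_left hmN hdN)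
      have h6 := inv_form (hf i) h4 h5 γ g x
      rw [← h2] at h6
      exact h6
    have hmaps : ∀ p ∈ RR n d ×ˢ RR n m, rp (p.1 * p.2) ∈ RR n (m * d) := fun p hp => (hrp _ (hdet _ hp)).1
    have e1 : ∑ β ∈ RR n (m * d), (∑ p ∈ (RR n d ×ˢ RR n m).filter (fun p => rp (p.1 * p.2) = β), a p.2) *
        f i (scl β * g) (rdM N β • x) =
        ∑ p ∈ RR n d ×ˢ RR n m, a p.2 * f i (scl (p.1 * p.2) * g) (rdM N (p.1 * p.2) • x) := by
      rw [← Finset.sum_fiberwise_of_maps_to hmaps]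
      refine Finset.sum_congr rfl fun r _ => ?_
      rw [Finset.sum_mul]
      refine Finset.sum_congr rfl fun p hp => ?_
      rw [Finset.mem_filter] at hp
      rw [hF p hp.1, hp.2]
    have e2 : ∑ p ∈ RR n d ×ˢ RR n m, a p.2 * f i (scl (p.1 * p.2) * g) (rdM N (p.1 * p.2) • x) =
        ∑ β ∈ RR n m, a β * ((((d : ℝ) ^ (((n : ℝ) - 1) / 2) : ℝ) : ℂ) * l i d *
          f i (scl β * g) (rdM N β • x)) := by
      rw [Finset.sum_product_right]
      refine Finset.sum_congr rfl fun β hβ => ?_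
      rw [← hl i d (RR n d) hd hdN hRd (scl β * g) (rdM N β • x), Finset.mul_sum]
      refine Finset.sum_congr rfl fun δ hδ => ?_
      have q1 : 0 < δ.det := by rw [hRd.1 _ hδ]; exact_mod_cast hd
      have q2 : 0 < β.det := by rw [hRm.1 _ hβ]; exact_mod_cast hm
      have q3 : IsUnit ((δ.det : ℤ) : ZMod N) := by rw [hRd.1 _ hδ]; exact isUnit_of_coprime hdN
      have q4 : IsUnit ((β.det : ℤ) : ZMod N) := by rw [hRm.1 _ hβ]; exact isUnit_of_coprime hmN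
      rw [scl_mul q1 q2, rdM_mul q3 q4, mul_assoc, mul_smul]
    have e3 : ∑ β ∈ RR n m, a β * ((((d : ℝ) ^ (((n : ℝ) - 1) / 2) : ℝ) : ℂ) * l i d *
          f i (scl β * g) (rdM N β • x)) = (((d : ℝ) ^ (((n : ℝ) - 1) / 2) : ℝ) : ℂ) * l i d *
          ∑ β ∈ RR n m, a β * f i (scl β * g) (rdM N β • x) := by
      rw [Finset.mul_sum]
      refine Finset.sum_congr rfl fun β _ => ?_
      ring
    rw [e1, e2, e3, hc i g x]
    have hd0 : (0 : ℝ) ≤ (d : ℝ) := Nat.cast_nonneg d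
    have hm0 : (0 : ℝ) ≤ (m : ℝ) := Nat.cast_nonneg m
    rw [Nat.cast_mul, Real.mul_rpow hm0 hd0]
    push_cast
    ring

end Pool.Agent.T2h79.LG.RPM
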