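import Pool.Agent.T2h79.LG.Stm3
import Pool.Agent.H510R2.Div

/-! Project LG part 3, task RPO: the coefficients of the mollifier are represented by Hecke operators. -/

set_option autoImplicit false

open MeasureTheory Matrix
open scoped MatrixGroups ENNReal Topology ComplexConjugate

noncomputable section

namespace Pool.Agent.T2h79.LG.RPO

open Pool.Agent.T2h77.N Pool.Agent.T2h79.LG

theorem rp_mono {n N k : ℕ} {H : Subgroup (GN n N)} {f : Fin k → GR n → XX H → ℂ} {m : ℕ} {B B' : ℝ}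
    {c : Fin k → ℂ} (h : Rp f m B c) (hB : B ≤ B') : Rp f m B' c := by
  obtain ⟨a, ha, h2⟩ := h
  exact ⟨a, ha.trans (mul_le_mul_of_nonneg_right hB (Real.rpow_nonneg (Nat.cast_nonneg _) _)), h2⟩

theorem rp_zero {n N k : ℕ} {H : Subgroup (GN n N)} {f : Fin k → GR n → XX H → ℂ} (m : ℕ) {B : ℝ}
    (hB : 0 ≤ B) : Rp f m B (fun _ => 0) := by
  refine ⟨fun _ => 0, ?_, ?_⟩
  · simp only [norm_zero, ne_eq, OfNat.ofNat_ne_zero, not_false_eq_true, zero_pow, Finset.sum_const_zero]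
    exact mul_nonneg hB (Real.rpow_nonneg (Nat.cast_nonneg _) _)
  · intro i g x
    simp

theorem rp_congr {n N k : ℕ} {H : Subgroup (GN n N)} {f : Fin k → GR n → XX H → ℂ} {m m' : ℕ} {B : ℝ}
    {c c' : Fin k → ℂ} (h : Rp f m B c) (hm : m = m') (hc : ∀ i, c i = c' i) : Rp f m' B c' := by
  subst hm
  rwa [show c' = c from (funext hc).symm]

theorem rp_sum {n N k : ℕ} {H : Subgroup (GN n N)} {f : Fin k → GR n → XX H → ℂ}
    (hA : ∀ (m : ℕ) (B B' : ℝ) (c c' : Fin k → ℂ), 0 ≤ B → 0 ≤ B' → Rp f m B c → Rp f m B' c' →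
      Rp f m ((Real.sqrt B + Real.sqrt B') ^ 2) fun i => c i + c' i) (m : ℕ) {b : ℝ} (hb : 0 ≤ b)
    (S : Finset ℕ) (c : ℕ → Fin k → ℂ) (h : ∀ j ∈ S, Rp f m b (c j)) :
    Rp f m ((S.card : ℝ) ^ 2 * b) fun i => ∑ j ∈ S, c j i := by
  induction S using Finset.induction_on with
  | empty => simpa using rp_zero (f := f) m (le_refl (0 : ℝ))
  | insert j S hj ih =>
    have h1 := ih fun j hj => h j (Finset.mem_insert_of_mem hj)
    have h2 := h j (Finset.mem_insert_self _ _)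
    have h3 := hA m b ((S.card : ℝ) ^ 2 * b) _ _ hb (by positivity) h2 h1
    have h4 : (Real.sqrt b + Real.sqrt ((S.card : ℝ) ^ 2 * b)) ^ 2 = (((insert j S).card : ℕ) : ℝ) ^ 2 * b := by
      rw [Finset.card_insert_of_notMem hj, Real.sqrt_mul (by positivity), Real.sqrt_sq (by positivity)]
      have h5 : (Real.sqrt b + (S.card : ℝ) * Real.sqrt b) ^ 2 = ((S.card : ℝ) + 1) ^ 2 * (Real.sqrt b ^ 2) := by
        ring
      rw [h5, Real.sq_sqrt hb]
      push_cast
      ring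
    rw [h4] at h3
    exact rp_congr h3 rfl fun i => by rw [Finset.sum_insert hj]

theorem es_zero {n : ℕ} (α : Fin n → ℂ) : es α 0 = 1 := by simp [es]

theorem es_big {n : ℕ} (α : Fin n → ℂ) {k : ℕ} (h : n < k) : es α k = 0 := by
  unfold es
  rw [Finset.powersetCard_eq_empty.2 (by simpa using h), Finset.sum_empty]

theorem hs_zero (hH : S_hes) {n : ℕ} (α : Fin n → ℂ) : hs α 0 = 1 := by
  have h := hH n α 0
  simpa [es_zero] using h

theorem mob_one {n : ℕ} (D : LData n) : D.mob 1 = 1 := by simp [LData.mob]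

theorem mob_pp {n : ℕ} (D : LData n) {p : ℕ} (hp : p.Prime) (k : ℕ) :
    D.mob (p ^ k) = (-1) ^ k * es (D.α p) k := by
  unfold LData.mob
  rw [hp.factorization_pow, Finsupp.prod_single_index]
  simp [es_zero]

theorem lam_pp (hH : S_hes) {n : ℕ} (D : LData n) {p : ℕ} (hp : p.Prime) (k : ℕ) :
    D.lam (p ^ k) = hs (D.α p) k := by
  unfold LData.lam
  rw [hp.factorization_pow, Finsupp.prod_single_index]
  exact hs_zero hH _

theorem mob_mul {n : ℕ} (D : LData n) {a b : ℕ} (hab : a.Coprime b) : D.mob (a * b) = D.mob a * D.mob b := by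
  unfold LData.mob
  rw [Nat.factorization_mul_of_coprime hab, Finsupp.prod_add_index_of_disjoint]
  simpa [Nat.support_factorization] using hab.disjoint_primeFactors

theorem mob_rec (hH : S_hes) {n : ℕ} (D : LData n) {p : ℕ} (hp : p.Prime) (k : ℕ) :
    D.mob (p ^ (k + 1)) = -∑ j ∈ Finset.range (k + 1), D.mob (p ^ j) * D.lam (p ^ (k + 1 - j)) := by
  have h := hH n (D.α p) (k + 1)
  rw [if_neg (Nat.succ_ne_zero _), Finset.sum_range_succ, Nat.sub_self, hs_zero hH, mul_one] at h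
  simp only [mob_pp D hp, lam_pp hH D hp]
  exact eq_neg_of_add_eq_zero_right h

/-- the hypotheses -/
structure Ctx (n N κ : ℕ) [NeZero N] (H : Subgroup (GN n N)) (f : Fin κ → GR n → XX H → ℂ)
    (l : Fin κ → ℕ → ℂ) (χ : ℕ → ℂ) (D : Fin κ → LData n) : Prop where
  form : ∀ i, IsForm H (f i)
  eig : ∀ i, IsEig (l i) (f i)
  chi : ∀ m, ‖χ m‖ ≤ 1
  lam : ∀ i, ∀ m : ℕ, 0 < m → m.Coprime N → (D i).lam m = χ m * l i m

theorem rp_lam (hM : S_rpm) (hA : S_rpa) {n N κ : ℕ} [NeZero N] {H : Subgroup (GN n N)}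
    {f : Fin κ → GR n → XX H → ℂ} {l : Fin κ → ℕ → ℂ} {χ : ℕ → ℂ} {D : Fin κ → LData n} (hn : 1 ≤ n)
    (X : Ctx n N κ H f l χ D) {m d : ℕ} {B : ℝ} {c : Fin κ → ℂ} (hB : 0 ≤ B) (hm : 0 < m) (hd : 0 < d)
    (hmN : m.Coprime N) (hdN : d.Coprime N) (h : Rp f m B c) :
    Rp f (m * d) (B * (d.divisors.card : ℝ) ^ (2 * n)) fun i => c i * (D i).lam d := by
  have h1 := hM n hn N H κ f l X.form X.eig m d B c hm hd hmN hdN h
  have h2 := (hA n N H κ f hn X.form).2.2 (m * d) _ _ (χ d) h1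
  have h3 : ‖χ d‖ ^ 2 * (B * (d.divisors.card : ℝ) ^ (2 * n)) ≤ B * (d.divisors.card : ℝ) ^ (2 * n) := by
    have h4 : ‖χ d‖ ^ 2 ≤ 1 := pow_le_one₀ (norm_nonneg _) (X.chi d)
    exact mul_le_of_le_one_left (by positivity) h4
  exact rp_congr (rp_mono h2 h3) rfl fun i => by rw [X.lam i d hd hdN]; ring

theorem pp_step (hM : S_rpm) (hA : S_rpa) (hH : S_hes) (n : ℕ) (hn : 1 ≤ n) (K : ℕ) : ∃ A : ℝ, 1 ≤ A ∧
    ∀ (N : ℕ) [NeZero N] (H : Subgroup (GN n N)) (κ : ℕ) (f : Fin κ → GR n → XX H → ℂ) (l : Fin κ → ℕ → ℂ)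
      (χ : ℕ → ℂ) (D : Fin κ → LData n), Ctx n N κ H f l χ D → ∀ (m p : ℕ) (B : ℝ) (c : Fin κ → ℂ), 0 < m →
      m.Coprime N → p.Prime → p.Coprime N → 0 ≤ B → Rp f m B c → ∀ k ≤ K,
      Rp f (m * p ^ k) (B * A) fun i => c i * (D i).mob (p ^ k) := by
  induction K with
  | zero =>
    refine ⟨1, le_rfl, ?_⟩
    intro N _ H κ f l χ D X m p B c hm hmN hp hpN hB h k hk
    obtain rfl : k = 0 := by omega
    refine rp_congr (rp_mono h (by simp)) (by simp) fun i => by simp [mob_one]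
  | succ K ih =>
    obtain ⟨A, hA1, ih⟩ := ih
    have hf1 : (1 : ℝ) ≤ ((K : ℝ) + 1) ^ 2 * ((K : ℝ) + 2) ^ (2 * n) := by
      have hK : (0 : ℝ) ≤ K := Nat.cast_nonneg _
      have h1 : (1 : ℝ) ≤ ((K : ℝ) + 1) ^ 2 := one_le_pow₀ (by linarith)
      have h2 : (1 : ℝ) ≤ ((K : ℝ) + 2) ^ (2 * n) := one_le_pow₀ (by linarith)
      nlinarith
    refine ⟨A * (((K : ℝ) + 1) ^ 2 * ((K : ℝ) + 2) ^ (2 * n)), by nlinarith, ?_⟩
    intro N _ H κ f l χ D X m p B c hm hmN hp hpN hB h k hk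
    have hAn : 0 ≤ B * A := mul_nonneg hB (by linarith)
    rcases Nat.lt_or_ge k (K + 1) with hk' | hk'
    · refine rp_mono (ih N H κ f l χ D X m p B c hm hmN hp hpN hB h k (by omega)) ?_
      rw [← mul_assoc]
      exact le_mul_of_one_le_right hAn hf1
    · obtain rfl : k = K + 1 := by omega
      have hadd := (hA n N H κ f hn X.form).2.1
      have hsm := (hA n N H κ f hn X.form).2.2
      have hpos : 0 < p := hp.pos
      have h1 : ∀ j ∈ Finset.range (K + 1), Rp f (m * p ^ (K + 1)) (B * A * ((K : ℝ) + 2) ^ (2 * n))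
          fun i => c i * (D i).mob (p ^ j) * (D i).lam (p ^ (K + 1 - j)) := by
        intro j hj
        have hj' : j ≤ K := by have := Finset.mem_range.1 hj; omega
        have h2 := ih N H κ f l χ D X m p B c hm hmN hp hpN hB h j hj'
        have h3 := rp_lam hM hA hn X hAn (Nat.mul_pos hm (pow_pos hpos j)) (pow_pos hpos (K + 1 - j))
          (Nat.Coprime.mul_left hmN (Nat.Coprime.pow_left j hpN)) (Nat.Coprime.pow_left _ hpN) h2
        refine rp_congr (rp_mono h3 ?_) ?_ fun i => rfl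
        · refine mul_le_mul_of_nonneg_left ?_ hAn
          refine pow_le_pow_left₀ (Nat.cast_nonneg _) ?_ _
          rw [Nat.divisors_prime_pow hp, Finset.card_map, Finset.card_range]
          have : K + 1 - j + 1 ≤ K + 2 := by omega
          exact_mod_cast this
        · rw [mul_assoc, ← pow_add]
          congr 2
          omega
      have h4 := rp_sum hadd (m * p ^ (K + 1)) (b := B * A * ((K : ℝ) + 2) ^ (2 * n)) (by positivity)
        (Finset.range (K + 1)) (fun j i => c i * (D i).mob (p ^ j) * (D i).lam (p ^ (K + 1 - j))) h1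
      have h5 := hsm (m * p ^ (K + 1)) _ _ (-1) h4
      refine rp_congr (rp_mono h5 ?_) rfl fun i => ?_
      · rw [Finset.card_range]
        push_cast
        rw [norm_neg, norm_one]
        apply le_of_eq
        ring
      · rw [mob_rec hH (D i) hp K, neg_one_mul, mul_neg, Finset.mul_sum]
        congr 1
        exact Finset.sum_congr rfl fun j _ => by ring

theorem pp_all (hM : S_rpm) (hA : S_rpa) (hH : S_hes) (n : ℕ) (hn : 1 ≤ n) : ∃ A : ℝ, 1 ≤ A ∧
    ∀ (N : ℕ) [NeZero N] (H : Subgroup (GN n N)) (κ : ℕ) (f : Fin κ → GR n → XX H → ℂ) (l : Fin κ → ℕ → ℂ)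
      (χ : ℕ → ℂ) (D : Fin κ → LData n), Ctx n N κ H f l χ D → ∀ (m p : ℕ) (B : ℝ) (c : Fin κ → ℂ), 0 < m →
      m.Coprime N → p.Prime → p.Coprime N → 0 ≤ B → Rp f m B c → ∀ k,
      Rp f (m * p ^ k) (B * A) fun i => c i * (D i).mob (p ^ k) := by
  obtain ⟨A, hA1, h⟩ := pp_step hM hA hH n hn n
  refine ⟨A, hA1, ?_⟩
  intro N _ H κ f l χ D X m p B c hm hmN hp hpN hB h1 k
  rcases Nat.lt_or_ge n k with hk | hk
  · refine rp_congr (rp_zero (f := f) (m * p ^ k) (mul_nonneg hB (by linarith))) rfl fun i => ?_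
    rw [mob_pp _ hp, es_big _ hk, mul_zero, mul_zero]
  · exact h N H κ f l χ D X m p B c hm hmN hp hpN hB h1 k hk

theorem gen {n N κ : ℕ} [NeZero N] {H : Subgroup (GN n N)} {f : Fin κ → GR n → XX H → ℂ}
    {D : Fin κ → LData n} {A : ℝ} (hA1 : 1 ≤ A)
    (hp : ∀ (m p : ℕ) (B : ℝ) (c : Fin κ → ℂ), 0 < m → m.Coprime N → p.Prime → p.Coprime N → 0 ≤ B →
      Rp f m B c → ∀ k, Rp f (m * p ^ k) (B * A) fun i => c i * (D i).mob (p ^ k)) (e : ℕ) :
    0 < e → e.Coprime N → ∀ (m : ℕ) (B : ℝ) (c : Fin κ → ℂ), 0 < m → m.Coprime N → 0 ≤ B → Rp f m B c →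
      Rp f (m * e) (B * A ^ e.primeFactors.card) fun i => c i * (D i).mob e := by
  induction e using Nat.recOnPosPrimePosCoprime with
  | prime_pow p k hpp hk =>
    intro _ he m B c hm hmN hB h
    rw [Nat.primeFactors_prime_pow hk.ne' hpp, Finset.card_singleton, pow_one]
    exact hp m p B c hm hmN hpp (Nat.Coprime.coprime_dvd_left (dvd_pow_self p hk.ne') he) hB h k
  | zero => intro h; exact absurd h (lt_irrefl 0)
  | one =>
    intro _ _ m B c _ _ _ h
    exact rp_congr (rp_mono h (by simp)) (by simp) fun i => by simp [mob_one]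
  | coprime a b ha hb hab iha ihb =>
    intro _ he m B c hm hmN hB h
    obtain ⟨hea, heb⟩ := Nat.coprime_mul_iff_left.1 he
    have h1 := iha (by omega) hea m B c hm hmN hB h
    have hA0 : (0 : ℝ) ≤ A := by linarith
    have h2 := ihb (by omega) heb (m * a) _ _ (Nat.mul_pos hm (by omega)) (Nat.Coprime.mul_left hmN hea)
      (mul_nonneg hB (pow_nonneg hA0 _)) h1
    refine rp_congr (rp_mono h2 (le_of_eq ?_)) (mul_assoc _ _ _) fun i => ?_
    · rw [hab.primeFactors_mul, Finset.card_union_of_disjoint hab.disjoint_primeFactors, pow_add, mul_assoc]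
    · rw [mob_mul _ hab, mul_assoc]

theorem div_pow_le (r : ℕ) {ε : ℝ} (hε : 0 < ε) :
    ∃ C : ℝ, 1 ≤ C ∧ ∀ e : ℕ, 0 < e → (e.divisors.card : ℝ) ^ r ≤ C * (e : ℝ) ^ ε := by
  obtain ⟨C, hC, h⟩ := Pool.Agent.H510R2.divisor_bound (ε / (r + 1)) (by positivity)
  refine ⟨max 1 (C ^ r), le_max_left _ _, fun e he => ?_⟩
  have he1 : (1 : ℝ) ≤ e := by exact_mod_cast he
  have h3 := pow_le_pow_left₀ (by positivity) (h e he) r
  rw [mul_pow, ← Real.rpow_natCast ((e : ℝ) ^ (ε / (r + 1))), ← Real.rpow_mul (by positivity)] at h3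
  refine h3.trans ?_
  have h4 : (e : ℝ) ^ (ε / (r + 1) * (r : ℝ)) ≤ (e : ℝ) ^ ε := by
    refine Real.rpow_le_rpow_of_exponent_le he1 ?_
    rw [div_mul_eq_mul_div, div_le_iff₀ (by positivity)]
    nlinarith
  exact mul_le_mul (le_max_right _ _) h4 (by positivity) (by positivity)

theorem two_pow_le {e : ℕ} (he : 0 < e) : (2 : ℝ) ^ e.primeFactors.card ≤ e.divisors.card := by
  rw [Nat.card_divisors he.ne']
  push_cast
  rw [← Finset.prod_const]
  refine Finset.prod_le_prod (fun _ _ => by norm_num) fun p hp => ?_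
  have h1 : 1 ≤ e.factorization p :=
    (Nat.prime_of_mem_primeFactors hp).factorization_pos_of_dvd he.ne' (Nat.dvd_of_mem_primeFactors hp)
  have h2 : (1 : ℝ) ≤ e.factorization p := by exact_mod_cast h1
  linarith

theorem omega_le {A : ℝ} (hA : 1 ≤ A) {ε : ℝ} (hε : 0 < ε) :
    ∃ C : ℝ, 1 ≤ C ∧ ∀ e : ℕ, 0 < e → A ^ e.primeFactors.card ≤ C * (e : ℝ) ^ ε := by
  obtain ⟨r, hr⟩ := pow_unbounded_of_one_lt A (one_lt_two)
  obtain ⟨C, hC, h⟩ := div_pow_le r hε
  refine ⟨C, hC, fun e he => le_trans ?_ (h e he)⟩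
  calc A ^ e.primeFactors.card ≤ ((2 : ℝ) ^ r) ^ e.primeFactors.card := pow_le_pow_left₀ (by linarith) hr.le _
    _ = ((2 : ℝ) ^ e.primeFactors.card) ^ r := by rw [← pow_mul, ← pow_mul, mul_comm]
    _ ≤ (e.divisors.card : ℝ) ^ r := pow_le_pow_left₀ (by positivity) (two_pow_le he) _

theorem t_RPO (hM : S_rpm) (hA : S_rpa) (hH : S_hes) : S_rpo := by
  intro n hn ε hε
  obtain ⟨A, hA1, hp⟩ := pp_all hM hA hH n hn
  obtain ⟨C1, hC1, hw⟩ := omega_le hA1 (ε := ε / 4) (by positivity)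
  obtain ⟨C2, hC2, hd2⟩ := div_pow_le (2 * n) (ε := ε / 4) (by positivity)
  obtain ⟨C3, hC3, hd3⟩ := div_pow_le 2 (ε := ε / 4) (by positivity)
  have hC12 : 1 ≤ C1 * C2 := one_le_mul_of_one_le_of_one_le hC1 hC2
  have hC0 : 1 ≤ C1 * C2 * C3 := one_le_mul_of_one_le_of_one_le hC12 hC3
  refine ⟨C1 * C2 * C3, hC0, ?_⟩
  intro N _ H κ f l χ D hform heig hχ hlam
  have X : Ctx n N κ H f l χ D := ⟨hform, heig, hχ, hlam⟩
  have hone := (hA n N H κ f hn hform).1
  have hadd := (hA n N H κ f hn hform).2.1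
  have hmob : ∀ e : ℕ, 0 < e → e.Coprime N → Rp f e (C1 * (e : ℝ) ^ (ε / 4)) fun i => (D i).mob e := by
    intro e he heN
    have h1 := gen hA1 (hp N H κ f l χ D X) e he heN 1 1 (fun _ => 1) one_pos (Nat.coprime_one_left N)
      zero_le_one hone
    exact rp_congr (rp_mono h1 (by rw [one_mul]; exact hw e he)) (one_mul e) fun i => one_mul _
  constructor
  · intro e he heN
    refine rp_mono (hmob e he heN) ?_
    have he1 : (1 : ℝ) ≤ e := by exact_mod_cast he
    refine mul_le_mul ?_ (Real.rpow_le_rpow_of_exponent_le he1 (by linarith)) (by positivity) (by positivity)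
    rw [mul_assoc]
    exact le_mul_of_one_le_right (by linarith) (one_le_mul_of_one_le_of_one_le hC2 hC3)
  · intro Z m hm hmN
    have hm1 : (1 : ℝ) ≤ m := by exact_mod_cast hm
    have h1 : ∀ e ∈ m.divisors.filter (· < Z),
        Rp f m (C1 * (m : ℝ) ^ (ε / 4) * (C2 * (m : ℝ) ^ (ε / 4))) fun i => (D i).lam (m / e) * (D i).mob e := by
      intro e he
      have hem : e ∣ m := Nat.dvd_of_mem_divisors (Finset.mem_filter.1 he).1
      have he0 : 0 < e := Nat.pos_of_dvd_of_pos hem hm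
      have hq0 : 0 < m / e := Nat.div_pos (Nat.le_of_dvd hm hem) he0
      have hqm : m / e ∣ m := Nat.div_dvd_of_dvd hem
      have h2 := rp_lam hM hA hn X (by positivity) he0 hq0 (Nat.Coprime.coprime_dvd_left hem hmN)
        (Nat.Coprime.coprime_dvd_left hqm hmN) (hmob e he0 (Nat.Coprime.coprime_dvd_left hem hmN))
      refine rp_congr (rp_mono h2 ?_) (Nat.mul_div_cancel' hem) fun i => mul_comm _ _
      have hle1 : (e : ℝ) ≤ m := by exact_mod_cast Nat.le_of_dvd hm hem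
      have hle2 : ((m / e : ℕ) : ℝ) ≤ m := by exact_mod_cast Nat.le_of_dvd hm hqm
      refine mul_le_mul ?_ ?_ (by positivity) (by positivity)
      · exact mul_le_mul_of_nonneg_left (Real.rpow_le_rpow (by positivity) hle1 (by positivity)) (by linarith)
      · refine (hd2 (m / e) hq0).trans ?_
        exact mul_le_mul_of_nonneg_left (Real.rpow_le_rpow (by positivity) hle2 (by positivity)) (by linarith)
    have h3 := rp_sum hadd m (b := C1 * (m : ℝ) ^ (ε / 4) * (C2 * (m : ℝ) ^ (ε / 4))) (by positivity)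
      (m.divisors.filter (· < Z)) (fun e i => (D i).lam (m / e) * (D i).mob e) h1
    refine rp_congr (rp_mono h3 ?_) rfl fun i => rfl
    have h4 : (((m.divisors.filter (· < Z)).card : ℕ) : ℝ) ^ 2 ≤ C3 * (m : ℝ) ^ (ε / 4) := by
      refine le_trans (pow_le_pow_left₀ (Nat.cast_nonneg _) ?_ 2) (hd3 m hm)
      exact_mod_cast Finset.card_filter_le _ _
    have h5 : (m : ℝ) ^ (ε / 4) * (m : ℝ) ^ (ε / 4) * (m : ℝ) ^ (ε / 4) ≤ (m : ℝ) ^ ε := by
      rw [← Real.rpow_add (by positivity), ← Real.rpow_add (by positivity)]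
      exact Real.rpow_le_rpow_of_exponent_le hm1 (by linarith)
    calc (((m.divisors.filter (· < Z)).card : ℕ) : ℝ) ^ 2 * (C1 * (m : ℝ) ^ (ε / 4) * (C2 * (m : ℝ) ^ (ε / 4)))
        ≤ C3 * (m : ℝ) ^ (ε / 4) * (C1 * (m : ℝ) ^ (ε / 4) * (C2 * (m : ℝ) ^ (ε / 4))) :=
          mul_le_mul_of_nonneg_right h4 (by positivity)
      _ = C1 * C2 * C3 * ((m : ℝ) ^ (ε / 4) * (m : ℝ) ^ (ε / 4) * (m : ℝ) ^ (ε / 4)) := by ring
      _ ≤ C1 * C2 * C3 * (m : ℝ) ^ ε := mul_le_mul_of_nonneg_left h5 (by linarith)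

end Pool.Agent.T2h79.LG.RPO
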