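import Pool.Agent.T2h79.LG.Stm3

/-! The Schur test for the Hecke operator. -/

set_option autoImplicit false

open Matrix
open scoped MatrixGroups

namespace Pool.Agent.T2h79.LG.SCH

open Pool.Agent.T2h79.LG Pool.Agent.T2h77.N

theorem wv_pos {n : ℕ} (β : MZ n) : 0 < wv β := by
  unfold wv
  split_ifs with h
  · unfold ww
    exact Finset.prod_pos fun j _ => Real.rpow_pos_of_pos (by exact_mod_cast h.choose_spec.1.2 j) _
  · exact one_pos

theorem t_SCH (hA : S_wva) (hB : S_wvb) : S_sch := by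
  classical
  intro n hn m d R R'' hm hd hR hR'' a P ha hP
  obtain ⟨E, hE⟩ : ∃ E : ℝ, E = (d : ℝ) ^ (((n : ℝ) - 1) / 2) * (d.divisors.card : ℝ) ^ n := ⟨_, rfl⟩
  have hd0 : (0 : ℝ) < d := by exact_mod_cast hd
  have hE0 : 0 ≤ E := by
    rw [hE]
    exact mul_nonneg (Real.rpow_nonneg hd0.le _) (by positivity)
  have hE2 : (d : ℝ) ^ ((n : ℝ) - 1) * (d.divisors.card : ℝ) ^ (2 * n) = E ^ 2 := by
    rw [hE, mul_pow, ← Real.rpow_natCast ((d : ℝ) ^ (((n : ℝ) - 1) / 2)), ← Real.rpow_mul hd0.le, ← pow_mul,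
      mul_comm n 2]
    congr 2
    push_cast
    ring
  rw [hE2]
  have h1 : ∀ r ∈ R'', (∑ β ∈ P r, a β) ^ 2 ≤ E * wv r * ∑ β ∈ P r, a β ^ 2 / wv β := by
    intro r hr
    have h2 : (∑ β ∈ P r, a β) ^ 2 ≤ (∑ β ∈ P r, wv β) * ∑ β ∈ P r, a β ^ 2 / wv β := by
      refine Finset.sum_sq_le_sum_mul_sum_of_sq_le_mul _ (fun β _ => (wv_pos β).le)
        (fun β _ => div_nonneg (sq_nonneg _) (wv_pos β).le) fun β _ => ?_
      exact (mul_div_cancel₀ (a β ^ 2) (wv_pos β).ne').ge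
    refine h2.trans (mul_le_mul_of_nonneg_right ?_
      (Finset.sum_nonneg fun β _ => div_nonneg (sq_nonneg _) (wv_pos β).le))
    rw [hE]
    exact hB n hn m d R hm hd hR r (hR''.1 r hr) (P r) (fun β hβ => ((hP r β).1 hβ).1)
      fun β hβ => ((hP r β).1 hβ).2
  have h3 : ∀ β ∈ R, ∑ r ∈ R'' with β ∈ P r, wv r ≤ E * wv β := by
    intro β hβ
    rw [hE]
    refine hA n hn m d R'' hm hd hR'' β (hR.1 β hβ) _ (Finset.filter_subset _ _) fun r hr => ?_
    exact ((hP r β).1 (Finset.mem_filter.1 hr).2).2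
  calc ∑ r ∈ R'', (∑ β ∈ P r, a β) ^ 2
      ≤ ∑ r ∈ R'', E * wv r * ∑ β ∈ P r, a β ^ 2 / wv β := Finset.sum_le_sum h1
    _ = ∑ r ∈ R'', ∑ β ∈ R, if β ∈ P r then E * wv r * (a β ^ 2 / wv β) else 0 := by
        refine Finset.sum_congr rfl fun r _ => ?_
        rw [Finset.mul_sum, ← Finset.sum_filter]
        refine Finset.sum_congr ?_ fun _ _ => rfl
        ext β
        rw [Finset.mem_filter]
        exact ⟨fun h => ⟨((hP r β).1 h).1, h⟩, fun h => h.2⟩
    _ = ∑ β ∈ R, ∑ r ∈ R'', if β ∈ P r then E * wv r * (a β ^ 2 / wv β) else 0 := Finset.sum_comm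
    _ ≤ ∑ β ∈ R, E ^ 2 * a β ^ 2 := by
        refine Finset.sum_le_sum fun β hβ => ?_
        rw [← Finset.sum_filter]
        have h4 : ∑ r ∈ R'' with β ∈ P r, E * wv r * (a β ^ 2 / wv β) =
            E * (a β ^ 2 / wv β) * ∑ r ∈ R'' with β ∈ P r, wv r := by
          rw [Finset.mul_sum]
          exact Finset.sum_congr rfl fun _ _ => by ring
        rw [h4]
        have h5 := (wv_pos β).ne'
        calc E * (a β ^ 2 / wv β) * ∑ r ∈ R'' with β ∈ P r, wv r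
            ≤ E * (a β ^ 2 / wv β) * (E * wv β) :=
              mul_le_mul_of_nonneg_left (h3 β hβ)
                (mul_nonneg hE0 (div_nonneg (sq_nonneg _) (wv_pos β).le))
          _ = E ^ 2 * a β ^ 2 := by field_simp
    _ = E ^ 2 * ∑ β ∈ R, a β ^ 2 := by rw [Finset.mul_sum]

end Pool.Agent.T2h79.LG.SCH
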