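import Pool.Agent.T2h79.LG.Stm3
import Pool.Agent.T2h79.LG.T_DIR

/-! The Dirichlet series of `LN` times the mollifier. -/

set_option autoImplicit false

open Complex


noncomputable section

namespace Pool.Agent.T2h79.LG.SER

open Pool.Agent.T2h79.LG Pool.Agent.T2h77.N Pool.Agent.T2h79.LG.LAM Pool.Agent.T2h79.LG.DIR

theorem term_eq (a : ℕ → ℂ) (s : ℂ) (m : ℕ) :
    LSeries.term a s m = if 0 < m then a m * (m : ℂ) ^ (-s) else 0 := by
  rcases Nat.eq_zero_or_pos m with rfl | hm
  · simp
  · rw [LSeries.term_of_ne_zero hm.ne', if_pos hm, Complex.cpow_neg, div_eq_mul_inv]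

theorem small {p : ℕ} (hp : p.Prime) {s : ℂ} (hs : 3 / 2 < s.re) :
    Real.sqrt p * ‖(p : ℂ) ^ (-s)‖ < 1 := by
  have hp1 : 1 < p := hp.one_lt
  have hp0 : (0 : ℝ) < p := by exact_mod_cast hp.pos
  rw [Complex.norm_natCast_cpow_of_pos hp.pos, Real.sqrt_eq_rpow, ← Real.rpow_add hp0, neg_re]
  exact Real.rpow_lt_one_of_one_lt_of_neg (by exact_mod_cast hp1) (by linarith)

theorem ne_zero {n : ℕ} {D : LData n} (hD : D.Ok) {p : ℕ} (hp : p.Prime) {s : ℂ} (hs : 3 / 2 < s.re)
    (j : Fin n) : 1 - D.α p j * (p : ℂ) ^ (-s) ≠ 0 := by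
  intro h
  have h1 : D.α p j * (p : ℂ) ^ (-s) = 1 := (sub_eq_zero.1 h).symm
  have h2 : ‖D.α p j * (p : ℂ) ^ (-s)‖ = 1 := by rw [h1, norm_one]
  rw [norm_mul] at h2
  have h3 := mul_le_mul_of_nonneg_right (hD.satake p hp j) (norm_nonneg ((p : ℂ) ^ (-s)))
  have h4 := small hp hs
  linarith

theorem euler_factor {n : ℕ} {D : LData n} (hD : D.Ok) {p : ℕ} (hp : p.Prime) {s : ℂ}
    (hs : 3 / 2 < s.re) :
    ∑' k : ℕ, D.lam (p ^ k) * ((p ^ k : ℕ) : ℂ) ^ (-s) = ∏ j, (1 - D.α p j * (p : ℂ) ^ (-s))⁻¹ := by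
  have h2 := tsum_hs n (Real.sqrt_nonneg _) (D.α p) (hD.satake p hp) (small hp hs)
  rw [← h2]
  refine tsum_congr fun k => ?_
  rw [lam_prime_pow D hp, Nat.cast_pow, ← Complex.natCast_cpow_natCast_mul, Complex.cpow_nat_mul]

theorem split_tsum {n : ℕ} {D : LData n} (hD : D.Ok) (N : ℕ) (hN : 0 < N) {s : ℂ}
    (hs : 3 / 2 < s.re) (hsum : Summable fun m : ℕ => D.lam m * (m : ℂ) ^ (-s)) :
    (∑' m : ℕ, D.lam m * (m : ℂ) ^ (-s)) *
        ∏ p ∈ N.primeFactors, ∏ j, (1 - D.α p j * (p : ℂ) ^ (-s)) =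
      ∑' m : ℕ, if m.Coprime N then D.lam m * (m : ℂ) ^ (-s) else 0 := by
  classical
  obtain ⟨f, hf⟩ : ∃ f : ℕ → ℂ, f = fun m : ℕ => D.lam m * (m : ℂ) ^ (-s) := ⟨_, rfl⟩
  have hs0 : -s ≠ 0 := by
    intro h
    have := congrArg Complex.re h
    simp at this
    linarith
  have hf0 : f 0 = 0 := by
    rw [hf]
    simp only [Nat.cast_zero]
    rw [Complex.zero_cpow hs0, mul_zero]
  have hf1 : f 1 = 1 := by
    rw [hf]
    simp only [Nat.cast_one, Complex.one_cpow, mul_one]
    exact lam_one D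
  have hmul : ∀ {a b : ℕ}, a.Coprime b → f (a * b) = f a * f b := by
    intro a b hab
    rw [hf]
    simp only
    rw [lam_mul D hab, Nat.cast_mul, Complex.natCast_mul_natCast_cpow]
    ring
  obtain ⟨g, hg⟩ : ∃ g : ℕ → ℂ, g = fun m : ℕ => if m.Coprime N then f m else 0 := ⟨_, rfl⟩
  have hg0 : g 0 = 0 := by
    rw [hg]
    simp only [hf0, ite_self]
  have hg1 : g 1 = 1 := by
    rw [hg]
    simp only [hf1]
    rw [if_pos (Nat.coprime_one_left N)]
  have hmulg : ∀ {a b : ℕ}, a.Coprime b → g (a * b) = g a * g b := by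
    intro a b hab
    rw [hg]
    simp only
    by_cases ha : a.Coprime N
    · by_cases hb : b.Coprime N
      · rw [if_pos ha, if_pos hb, if_pos (Nat.Coprime.mul_left ha hb), hmul hab]
      · rw [if_neg hb, if_neg (fun h => hb (Nat.Coprime.coprime_mul_left h)), mul_zero]
    · rw [if_neg ha, if_neg (fun h => ha (Nat.Coprime.coprime_mul_right h)), zero_mul]
  have hsf : Summable fun m => ‖f m‖ := by
    rw [hf]
    exact hsum.norm
  have hsg : Summable fun m => ‖g m‖ := by
    refine Summable.of_nonneg_of_le (fun m => norm_nonneg _) (fun m => ?_) hsf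
    rw [hg]
    simp only
    split_ifs
    · exact le_rfl
    · rw [norm_zero]
      exact norm_nonneg _
  have h1 := EulerProduct.eulerProduct_hasProd hf1 hmul hsf hf0
  have h2 := EulerProduct.eulerProduct_hasProd hg1 hmulg hsg hg0
  obtain ⟨E, hE⟩ : ∃ E : ℕ → ℂ, E = fun p => ∏ j, (1 - D.α p j * (p : ℂ) ^ (-s))⁻¹ := ⟨_, rfl⟩
  have e1 : ∀ p : Nat.Primes, ∑' e : ℕ, f ((p : ℕ) ^ e) = E p := by
    intro p
    rw [hf, hE]
    exact euler_factor hD p.2 hs
  have e2 : ∀ p : Nat.Primes, ∑' e : ℕ, g ((p : ℕ) ^ e) = if (p : ℕ) ∣ N then 1 else E p := by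
    intro p
    split_ifs with h
    · rw [tsum_eq_single 0]
      · rw [pow_zero, hg1]
      · intro k hk
        rw [hg]
        simp only
        rw [if_neg]
        intro hc
        have h5 : (p : ℕ).Coprime N := Nat.Coprime.coprime_dvd_left (dvd_pow_self _ hk) hc
        exact (Nat.Prime.coprime_iff_not_dvd p.2).1 h5 h
    · rw [← e1 p]
      refine tsum_congr fun k => ?_
      rw [hg]
      simp only
      rw [if_pos]
      exact Nat.Coprime.pow_left k ((Nat.Prime.coprime_iff_not_dvd p.2).2 h)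
  have h3 : HasProd (fun p : Nat.Primes => if (p : ℕ) ∣ N then E p else 1)
      (∏ p ∈ N.primeFactors, E p) := by
    have h4 : HasProd (fun p : Nat.Primes => if (p : ℕ) ∣ N then E p else 1)
        (∏ p ∈ N.primeFactors.subtype Nat.Prime, (if (p : ℕ) ∣ N then E p else 1)) :=
      hasProd_prod_of_ne_finset_one (fun p hp => if_neg (fun h => hp
        (Finset.mem_subtype.2 (Nat.mem_primeFactors.2 ⟨p.2, h, hN.ne'⟩))))
    have h5 : ∏ p ∈ N.primeFactors.subtype Nat.Prime, (if (p : ℕ) ∣ N then E p else 1) =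
        ∏ p ∈ N.primeFactors, E p := by
      rw [Finset.prod_subtype_of_mem (fun p : ℕ => if p ∣ N then E p else 1)
        (fun p hp => Nat.prime_of_mem_primeFactors hp)]
      exact Finset.prod_congr rfl fun p hp => if_pos (Nat.dvd_of_mem_primeFactors hp)
    rw [← h5]
    exact h4
  simp only [e1] at h1
  simp only [e2] at h2
  have h4 := h2.mul h3
  have e3 : (fun p : Nat.Primes => (if (p : ℕ) ∣ N then 1 else E p) *
      (if (p : ℕ) ∣ N then E p else 1)) = fun p : Nat.Primes => E p := by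
    funext p
    split_ifs
    · rw [one_mul]
    · rw [mul_one]
  rw [e3] at h4
  have h5 := h1.unique h4
  have e4 : (∏ p ∈ N.primeFactors, E p) *
      ∏ p ∈ N.primeFactors, ∏ j, (1 - D.α p j * (p : ℂ) ^ (-s)) = 1 := by
    rw [← Finset.prod_mul_distrib]
    refine Finset.prod_eq_one fun p hp => ?_
    rw [hE]
    simp only
    rw [← Finset.prod_mul_distrib]
    exact Finset.prod_eq_one fun j _ =>
      inv_mul_cancel₀ (ne_zero hD (Nat.prime_of_mem_primeFactors hp) hs j)
  have e5 : ∑' m : ℕ, D.lam m * (m : ℂ) ^ (-s) = ∑' m, f m := by rw [hf]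
  have e6 : (∑' m : ℕ, if m.Coprime N then D.lam m * (m : ℂ) ^ (-s) else 0) = ∑' m, g m := by
    rw [hg, hf]
  rw [e5, e6, h5, mul_assoc, e4, mul_one]

theorem t_SER (hD : S_dir) (_hL : S_lam) (_hC : S_cob) : S_ser := by
  classical
  intro n D hOk N Z hN s hs
  have hs1 : 3 / 2 < s.re := by linarith
  obtain ⟨hsum, hΛ⟩ := hD n D hOk s hs1
  have hs0 : -s ≠ 0 := by
    intro h
    have := congrArg Complex.re h
    simp at this
    linarith
  -- the L-function
  have hL : D.L s = ∑' m : ℕ, D.lam m * (m : ℂ) ^ (-s) := by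
    unfold LData.L
    rw [hΛ, mul_right_comm, ← Finset.prod_mul_distrib]
    have : ∏ j, (Complex.Gammaℝ (s - D.μ j) * (Complex.Gammaℝ (s - D.μ j))⁻¹) = 1 := by
      refine Finset.prod_eq_one fun j _ => mul_inv_cancel₀ ?_
      apply Complex.Gammaℝ_ne_zero_of_re_pos
      rw [sub_re]
      have := hOk.re_le j
      linarith
    rw [this, one_mul]
  have hLN : D.LN N s = ∑' m : ℕ, if m.Coprime N then D.lam m * (m : ℂ) ^ (-s) else 0 := by
    unfold LData.LN
    rw [hL]
    exact split_tsum hOk N hN hs1 hsum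
  -- the two sequences
  obtain ⟨a, ha⟩ : ∃ a : ℕ → ℂ, a = fun m : ℕ => if m.Coprime N then D.lam m else 0 := ⟨_, rfl⟩
  obtain ⟨b, hb⟩ : ∃ b : ℕ → ℂ, b = fun m : ℕ => if m < Z ∧ m.Coprime N then D.mob m else 0 :=
    ⟨_, rfl⟩
  have hta : LSeries.term a s = fun m : ℕ =>
      if m.Coprime N then D.lam m * (m : ℂ) ^ (-s) else 0 := by
    funext m
    rw [term_eq, ha]
    rcases Nat.eq_zero_or_pos m with rfl | hm
    · simp only [lt_irrefl, if_false, Nat.cast_zero]
      rw [Complex.zero_cpow hs0, mul_zero, ite_self]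
    · rw [if_pos hm]
      simp only [ite_mul, zero_mul]
  have hsa : LSeriesSummable a s := by
    unfold LSeriesSummable
    rw [hta]
    refine Summable.of_norm_bounded hsum.norm fun m => ?_
    split_ifs
    · exact le_rfl
    · rw [norm_zero]
      exact norm_nonneg _
  have htb : LSeries.term b s = fun m : ℕ =>
      if 0 < m ∧ m < Z ∧ m.Coprime N then D.mob m * (m : ℂ) ^ (-s) else 0 := by
    funext m
    rw [term_eq, hb]
    rcases Nat.eq_zero_or_pos m with rfl | hm
    · simp
    · rw [if_pos hm]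
      simp only [ite_mul, zero_mul, hm, true_and]
  have hzero : ∀ m ∉ (Finset.range Z).filter (fun e => 0 < e ∧ e.Coprime N),
      LSeries.term b s m = 0 := by
    intro m hm
    rw [htb]
    simp only
    rw [if_neg]
    rintro ⟨h1, h2, h3⟩
    exact hm (Finset.mem_filter.2 ⟨Finset.mem_range.2 h2, h1, h3⟩)
  have hsb : LSeriesSummable b s := by
    unfold LSeriesSummable
    exact summable_of_ne_finset_zero hzero
  have hMo : D.Mo N Z s = LSeries b s := by
    unfold LSeries LData.Mo
    rw [tsum_eq_sum hzero]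
    refine Finset.sum_congr rfl fun e he => ?_
    obtain ⟨h1, h2, h3⟩ := Finset.mem_filter.1 he
    rw [htb]
    simp only
    rw [if_pos ⟨h2, Finset.mem_range.1 h1, h3⟩]
  have hLa : D.LN N s = LSeries a s := by
    rw [hLN]
    unfold LSeries
    rw [hta]
  have htc : LSeries.term (LSeries.convolution a b) s = fun m : ℕ =>
      if 0 < m ∧ m.Coprime N then D.cc Z m * (m : ℂ) ^ (-s) else 0 := by
    funext m
    rw [term_eq]
    rcases Nat.eq_zero_or_pos m with rfl | hm
    · simp
    · rw [if_pos hm]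
      simp only [hm, true_and]
      rw [LSeries.convolution_def]
      simp only
      rw [Nat.sum_divisorsAntidiagonal' (f := fun x y => a x * b y)]
      split_ifs with hc
      · congr 1
        unfold LData.cc
        rw [Finset.sum_filter]
        refine Finset.sum_congr rfl fun e he => ?_
        have hem : e ∣ m := Nat.dvd_of_mem_divisors he
        have h1 : e.Coprime N := Nat.Coprime.coprime_dvd_left hem hc
        have h2 : (m / e).Coprime N := Nat.Coprime.coprime_dvd_left (Nat.div_dvd_of_dvd hem) hc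
        rw [ha, hb]
        beta_reduce
        rw [if_pos h2]
        by_cases h3 : e < Z
        · rw [if_pos ⟨h3, h1⟩, if_pos h3]
        · rw [if_neg (fun h => h3 h.1), if_neg h3, mul_zero]
      · rw [Finset.sum_eq_zero, zero_mul]
        intro e he
        have hem : e ∣ m := Nat.dvd_of_mem_divisors he
        rw [ha, hb]
        beta_reduce
        by_cases h1 : (m / e).Coprime N
        · by_cases h2 : e.Coprime N
          · exfalso
            apply hc
            have h3 := Nat.Coprime.mul_left h1 h2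
            rwa [Nat.div_mul_cancel hem] at h3
          · rw [if_neg (fun h : e < Z ∧ e.Coprime N => h2 h.2), mul_zero]
        · rw [if_neg h1, zero_mul]
  have hconv := LSeriesSummable.convolution hsa hsb
  have hprod := LSeries_convolution' hsa hsb
  unfold LSeriesSummable at hconv
  rw [htc] at hconv
  refine ⟨hconv, ?_⟩
  rw [hMo, hLa, ← hprod]
  unfold LSeries
  rw [htc]

end Pool.Agent.T2h79.LG.SER
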