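import Pool.Agent.T2h79.LG.Stm3

/-! TP0: the off-diagonal terms for small determinants, principal level. -/

set_option autoImplicit false

open Matrix

noncomputable section

namespace Pool.Agent.T2h79.LG.TP0

open Pool.Agent.T2h77.N Pool.Agent.T2h79.LG

theorem av_one {n : ℕ} (β : MZ n) (r : ℝ) (hdet : 0 < β.det) (h : (β.det : ℝ) * r < 1) :
    av β r ≤ 1 := by
  unfold av
  have hsub : Subsingleton {w : Fin n → ℤ //
      ∀ i, |(((β.adjugate *ᵥ w) i : ℤ) : ℝ)| ≤ (β.det : ℝ) * r} := by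
    have h0 : ∀ w : Fin n → ℤ, (∀ i, |(((β.adjugate *ᵥ w) i : ℤ) : ℝ)| ≤ (β.det : ℝ) * r) →
        w = 0 := by
      intro w hw
      have h1 : β.adjugate *ᵥ w = 0 := by
        funext i
        have h2 := (hw i).trans_lt h
        have h3 : |(β.adjugate *ᵥ w) i| < 1 := by exact_mod_cast h2
        exact Int.abs_lt_one_iff.1 h3
      have h2 : β *ᵥ (β.adjugate *ᵥ w) = 0 := by rw [h1, Matrix.mulVec_zero]
      rw [Matrix.mulVec_mulVec, Matrix.mul_adjugate, Matrix.smul_mulVec, Matrix.one_mulVec] at h2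
      funext i
      have h3 := congrFun h2 i
      simp only [Pi.smul_apply, smul_eq_mul, Pi.zero_apply] at h3
      rcases mul_eq_zero.1 h3 with h4 | h4
      · exact absurd h4 hdet.ne'
      · exact h4
    exact ⟨fun a b => Subtype.ext ((h0 a.1 a.2).trans (h0 b.1 b.2).symm)⟩
  exact Finite.card_le_one_iff_subsingleton.2 hsub

/-- TP0. -/
theorem t_TP0 (hC : S_cnt) : S_tp0 := by
  intro n hn M
  obtain ⟨C, hC1, h⟩ := hC n hn M
  refine ⟨C + 1, n + 1, by linarith, ?_⟩
  intro N _ X Y x hX hY hN hx T hT1 hT2 hT3 β hβ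
  have hN0 : 0 < N := Nat.pos_of_ne_zero (NeZero.ne N)
  have hN1 : (0 : ℝ) < N := by exact_mod_cast hN0
  have hav : av β (C * Y ^ n / N) ≤ 1 := by
    apply av_one β _ (hT1 β hβ).1
    rw [← mul_div_assoc, div_lt_one hN1]
    refine lt_of_lt_of_le ?_ hN
    have hb : (β.det : ℝ) ≤ X := (hT1 β hβ).2.1
    have hXY : X * Y ^ n ≤ (X * Y) ^ (n + 1) := by
      rw [mul_pow]
      apply mul_le_mul (le_self_pow₀ hX (by omega)) (pow_le_pow_right₀ hY (by omega))
        (by positivity) (by positivity)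
    have hp : 0 < (X * Y) ^ (n + 1) := by positivity
    calc (β.det : ℝ) * (C * Y ^ n) ≤ X * (C * Y ^ n) :=
          mul_le_mul_of_nonneg_right hb (by positivity)
      _ = C * (X * Y ^ n) := by ring
      _ ≤ C * (X * Y) ^ (n + 1) := mul_le_mul_of_nonneg_left hXY (by linarith)
      _ < (C + 1) * (X * Y) ^ (n + 1) := by nlinarith
  haveI : Fintype (XX (⊥ : Subgroup (GN n N))) := Fintype.ofFinite _
  have h1 : ∀ β' : MZ n, ∑' c : XX (⊥ : Subgroup (GN n N)), (Nat.card (pr M x c β β') : ℝ) =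
      ∑ c : XX (⊥ : Subgroup (GN n N)), (Nat.card (pr M x c β β') : ℝ) := fun β' => tsum_fintype _
  simp only [h1]
  rw [Finset.sum_comm]
  have h2 : ∀ c : XX (⊥ : Subgroup (GN n N)), ∑ β' ∈ T, (Nat.card (pr M x c β β') : ℝ) ≤ 1 := by
    intro c
    refine (h N Y x hY hx c T (fun β hβ => ⟨(hT1 β hβ).1, (hT1 β hβ).2.2⟩) hT2 hT3 β hβ).trans ?_
    apply pow_le_one₀ (by positivity)
    exact_mod_cast hav
  refine (Finset.sum_le_sum fun c _ => h2 c).trans ?_
  rw [Finset.sum_const, nsmul_eq_mul, mul_one, Finset.card_univ, ← Nat.card_eq_fintype_card]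
  have h3 : Nat.card (XX (⊥ : Subgroup (GN n N))) = Nat.card (GN n N) := by
    exact Nat.card_congr (QuotientGroup.quotientBot (G := GN n N)).toEquiv
  rw [h3]
  have : (0 : ℝ) ≤ (Nat.card (GN n N) : ℝ) := by positivity
  linarith

end Pool.Agent.T2h79.LG.TP0
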