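import Pool.Agent.T2h79.LG.Stm3

/-! TP1: the off-diagonal terms for small determinants, level `K_1(N)`. -/

set_option autoImplicit false

open Matrix

noncomputable section

namespace Pool.Agent.T2h79.LG.TP1

open Pool.Agent.T2h77.N Pool.Agent.T2h79.LG

/-- TP1. -/
theorem t_TP1 (hC : S_cn1) (hA : S_avt) : S_tp1 := by
  intro n hn M
  obtain ⟨C, hC1, h⟩ := hC n hn M
  refine ⟨(3 * C) ^ (n ^ 2 + 1), n * (n ^ 2 + 1), one_le_pow₀ (by linarith), ?_⟩
  intro N _ X Y x hX hY hN hx T hT1 hT2 hT3 β hβ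
  refine (h N Y x hY hx T (fun β hβ => ⟨(hT1 β hβ).1, (hT1 β hβ).2.2⟩) hT2 hT3 β hβ).trans ?_
  apply hA n (by omega) β (C * Y ^ n) N (hT1 β hβ).1
  · have : 1 ≤ Y ^ n := one_le_pow₀ hY
    nlinarith
  · refine le_trans ?_ hN
    have hb : (β.det : ℝ) ≤ X := (hT1 β hβ).2.1
    have hb0 : (0 : ℝ) ≤ (β.det : ℝ) := by exact_mod_cast (hT1 β hβ).1.le
    have hXn : X ≤ X ^ n := le_self_pow₀ hX (by omega)
    rw [pow_mul, ← mul_pow]
    apply pow_le_pow_left₀ (by positivity)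
    rw [mul_pow]
    calc 3 * (β.det : ℝ) * (C * Y ^ n) ≤ 3 * X ^ n * (C * Y ^ n) := by
          apply mul_le_mul_of_nonneg_right _ (by positivity)
          linarith
      _ = 3 * C * (X ^ n * Y ^ n) := by ring

end Pool.Agent.T2h79.LG.TP1
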