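import Pool.Agent.T2h79.LG.Stm3
import Pool.Agent.T2h79.LG.T_FEQ

/-!
# VVF: the cut-off function
-/

set_option autoImplicit false

open MeasureTheory Matrix
open scoped MatrixGroups ENNReal Topology ComplexConjugate

noncomputable section

namespace Pool.Agent.T2h79.LG.VVF

open Pool.Agent.T2h77.N Complex Pool.Agent.T2h79.LG.FEQ

/-- the Gaussian bound for the integral over a vertical line -/
theorem line_bound (G : ℂ → ℂ) (c K : ℝ) (hc : 1 ≤ |c|) (_hK : 0 ≤ K) (hb : ∀ v : ℝ, ‖G (c + v * I)‖ ≤ K) :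
    ‖∫ v : ℝ, G (c + v * I) * cexp ((c + v * I) ^ 2) / (c + v * I)‖ ≤
      K * ∫ v : ℝ, Real.exp (c ^ 2 - v ^ 2) := by
  rw [← integral_const_mul]
  have hi : Integrable fun v : ℝ => Real.exp (c ^ 2 - v ^ 2) := by
    have h := (integrable_exp_neg_mul_sq (b := 1) one_pos).const_mul (Real.exp (c ^ 2))
    refine h.congr (Filter.Eventually.of_forall fun v => ?_)
    show Real.exp (c ^ 2) * Real.exp (-1 * v ^ 2) = Real.exp (c ^ 2 - v ^ 2)
    rw [← Real.exp_add]
    congr 1
    ring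
  refine norm_integral_le_of_norm_le (hi.const_mul K) (Filter.Eventually.of_forall fun v => ?_)
  rw [norm_div, norm_mul, exp_sq_norm]
  have h1 : 1 ≤ ‖(c + v * I : ℂ)‖ := hc.trans (norm_ge c v)
  calc ‖G (c + v * I)‖ * Real.exp (c ^ 2 - v ^ 2) / ‖(c + v * I : ℂ)‖
      ≤ ‖G (c + v * I)‖ * Real.exp (c ^ 2 - v ^ 2) := div_le_self (by positivity) h1
    _ ≤ K * Real.exp (c ^ 2 - v ^ 2) := mul_le_mul_of_nonneg_right (hb v) (Real.exp_pos _).le

theorem norm_pow (x : ℝ) (hx : 0 < x) (w : ℂ) : ‖(x : ℂ) ^ (-w)‖ = x ^ (-w.re) := by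
  rw [Complex.norm_cpow_eq_rpow_re_of_pos hx, Complex.neg_re]

theorem VV_eq (x : ℝ) : VV x =
    ∫ v : ℝ, (fun w : ℂ => (x : ℂ) ^ (-w)) (2 + v * I) * cexp ((2 + v * I) ^ 2) / (2 + v * I) := rfl

theorem t_VVF (hS : S_shf) : S_vvf := by
  set κ : ℂ := ∫ v : ℝ, cexp ((2 + v * I) ^ 2) / (2 + v * I) with hκ
  set E6 : ℝ := ∫ v : ℝ, Real.exp ((6 : ℝ) ^ 2 - v ^ 2) with hE6
  set E2 : ℝ := ∫ v : ℝ, Real.exp ((-2 : ℝ) ^ 2 - v ^ 2) with hE2
  have hE60 : 0 ≤ E6 := integral_nonneg fun v => (Real.exp_pos _).le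
  have hE20 : 0 ≤ E2 := integral_nonneg fun v => (Real.exp_pos _).le
  -- the shift to the right
  have h6 : ∀ x : ℝ, 0 < x → ‖VV x‖ ≤ E6 * x ^ (-6 : ℝ) := by
    intro x hx
    have hxc : (x : ℂ) ≠ 0 := by exact_mod_cast hx.ne'
    set K : ℝ := x ^ (-2 : ℝ) + x ^ (-6 : ℝ) with hK
    have hK0 : 0 < K := by rw [hK]; positivity
    have hbd : ∀ w : ℂ, (2 : ℝ) ≤ w.re → w.re ≤ 6 → ‖(x : ℂ) ^ (-w) / w‖ ≤ K := by
      intro w h1 h2
      have hw : 1 ≤ ‖w‖ := by
        have := Complex.abs_re_le_norm w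
        have h3 := le_abs_self w.re
        linarith
      rw [norm_div, norm_pow x hx]
      refine (div_le_self (Real.rpow_nonneg hx.le _) hw).trans ?_
      rw [hK]
      rcases le_total x 1 with h | h
      · have : x ^ (-w.re) ≤ x ^ (-6 : ℝ) := Real.rpow_le_rpow_of_exponent_ge hx h (by linarith)
        have h0 := Real.rpow_nonneg hx.le (-2)
        linarith
      · have : x ^ (-w.re) ≤ x ^ (-2 : ℝ) := Real.rpow_le_rpow_of_exponent_le h (by linarith)
        have h0 := Real.rpow_nonneg hx.le (-6)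
        linarith
    have hKe : K ≤ Real.exp (Real.log (1 + K) * 1) := by
      rw [mul_one, Real.exp_log (by linarith)]
      linarith
    have hsh := hS 2 6 (Real.log (1 + K)) (fun w => (x : ℂ) ^ (-w) / w) (by norm_num)
      (fun w h1 _ => by
        have hw : w ≠ 0 := by
          intro h
          rw [h, Complex.zero_re] at h1
          linarith
        refine DifferentiableAt.div ?_ differentiableAt_id hw
        exact DifferentiableAt.const_cpow differentiableAt_id.neg (Or.inl hxc))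
      (fun w h1 h2 => by
        refine (hbd w h1 h2).trans (hKe.trans (Real.exp_le_exp.2 ?_))
        have : 0 ≤ Real.log (1 + K) := Real.log_nonneg (by linarith)
        exact mul_le_mul_of_nonneg_left (by linarith [abs_nonneg w.im]) this)
    have e1 : VV x = ∫ v : ℝ, (x : ℂ) ^ (-(((6 : ℝ) : ℂ) + v * I)) *
        cexp ((((6 : ℝ) : ℂ) + v * I) ^ 2) / (((6 : ℝ) : ℂ) + v * I) := by
      have e2 : VV x = ∫ v : ℝ, (x : ℂ) ^ (-(((2 : ℝ) : ℂ) + v * I)) / (((2 : ℝ) : ℂ) + v * I) *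
          cexp ((((2 : ℝ) : ℂ) + v * I) ^ 2) := by
        unfold VV
        congr 1
        funext v
        push_cast
        ring
      rw [e2, hsh]
      congr 1
      funext v
      ring
    rw [e1]
    have := line_bound (fun w => (x : ℂ) ^ (-w)) 6 (x ^ (-6 : ℝ)) (by norm_num)
      (Real.rpow_nonneg hx.le _) (fun v => by
        rw [norm_pow x hx]
        simp)
    rw [mul_comm]
    exact this
  -- the shift to the left
  have h2 : ∀ x : ℝ, 0 < x → x ≤ 1 → ‖VV x - 2 * κ‖ ≤ E2 * x := by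
    intro x hx hx1
    have hxc : (x : ℂ) ≠ 0 := by exact_mod_cast hx.ne'
    have hd : Differentiable ℂ fun w : ℂ => (x : ℂ) ^ (-w) :=
      fun w => DifferentiableAt.const_cpow differentiableAt_id.neg (Or.inl hxc)
    have hsh := shift hS (fun w : ℂ => (x : ℂ) ^ (-w)) hd (x ^ (-2 : ℝ)) 0 le_rfl (fun w _ h2 => by
      rw [norm_pow x hx, zero_mul, Real.exp_zero, mul_one]
      exact Real.rpow_le_rpow_of_exponent_ge hx hx1 (by linarith))
    rw [neg_zero, Complex.cpow_zero, mul_one, ← hκ] at hsh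
    have e1 : VV x - 2 * κ = ∫ v : ℝ, (fun w : ℂ => (x : ℂ) ^ (-w)) (-2 + v * I) *
        cexp ((-2 + v * I) ^ 2) / (-2 + v * I) := by
      rw [VV_eq]
      linear_combination hsh
    rw [e1]
    have := line_bound (fun w => (x : ℂ) ^ (-w)) (-2) x (by norm_num) hx.le (fun v => by
        rw [norm_pow x hx]
        have e3 : -((((-2 : ℝ) : ℂ) + v * I).re) = 2 := by simp
        rw [e3]
        calc x ^ (2 : ℝ) ≤ x ^ (1 : ℝ) := Real.rpow_le_rpow_of_exponent_ge hx hx1 (by norm_num)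
          _ = x := Real.rpow_one x)
    push_cast at this
    rw [mul_comm]
    exact this
  refine ⟨2 * κ, 1 + E6 + E2 + ‖2 * κ‖, mul_ne_zero two_ne_zero kappa, ?_, ?_, ?_⟩
  · linarith [norm_nonneg (2 * κ)]
  · intro x hx
    have h0 : 0 < x ^ (-6 : ℝ) := Real.rpow_pos_of_pos hx _
    constructor
    · rcases le_total x 1 with h | h
      · have h3 := h2 x hx h
        have h4 : ‖VV x‖ ≤ ‖VV x - 2 * κ‖ + ‖2 * κ‖ := by
          have := norm_add_le (VV x - 2 * κ) (2 * κ)
          rwa [sub_add_cancel] at this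
        have h5 : E2 * x ≤ E2 := mul_le_of_le_one_right hE20 h
        linarith
      · have h3 := h6 x hx
        have h4 : x ^ (-6 : ℝ) ≤ 1 := Real.rpow_le_one_of_one_le_of_nonpos h (by norm_num)
        have h5 : E6 * x ^ (-6 : ℝ) ≤ E6 := mul_le_of_le_one_right hE60 h4
        linarith [norm_nonneg (2 * κ)]
    · refine (h6 x hx).trans (mul_le_mul_of_nonneg_right ?_ h0.le)
      linarith [norm_nonneg (2 * κ)]
  · intro x hx hx1
    refine (h2 x hx hx1).trans (mul_le_mul_of_nonneg_right ?_ hx.le)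
    linarith [norm_nonneg (2 * κ)]

end Pool.Agent.T2h79.LG.VVF
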