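import Pool.Agent.T2h79.LG.Stm3
import Pool.Agent.T2h77N.Reps

/-!
# Project LG, task WVA: the sum of the weights over the sublattices
-/

set_option autoImplicit false

open Matrix
open scoped MatrixGroups

noncomputable section

namespace Pool.Agent.T2h79.LG.WVA

open Pool.Agent.T2h77.N Pool.Agent.T2h79.LG

theorem lt_mul_diag {n : ℕ} {δ β : MZ n} (hδ : Lt δ) (hβ : Lt β) (j : Fin n) :
    (δ * β) j j = δ j j * β j j := by
  rw [Matrix.mul_apply]
  refine Finset.sum_eq_single_of_mem j (Finset.mem_univ _) fun k _ hk => ?_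
  rcases lt_or_gt_of_ne hk with h | h
  · rw [hβ.1 k j h, mul_zero]
  · rw [hδ.1 j k h, zero_mul]

theorem lt_mul {n : ℕ} {δ β : MZ n} (hδ : Lt δ) (hβ : Lt β) : Lt (δ * β) := by
  refine ⟨fun i j hij => ?_, fun i => ?_⟩
  · rw [Matrix.mul_apply]
    refine Finset.sum_eq_zero fun k _ => ?_
    rcases lt_or_ge i k with h | h
    · rw [hδ.1 i k h, zero_mul]
    · rw [hβ.1 k j (lt_of_le_of_lt h hij), mul_zero]
  · rw [lt_mul_diag hδ hβ]
    exact mul_pos (hδ.2 i) (hβ.2 i)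

theorem lt_det {n : ℕ} {δ : MZ n} (hδ : Lt δ) : δ.det = ∏ j, δ j j :=
  Matrix.det_of_isLowerTriangular _ fun i j hij => hδ.1 i j hij

theorem ww_pos {n : ℕ} {δ : MZ n} (hδ : Lt δ) : 0 < ww δ :=
  Finset.prod_pos fun j _ => Real.rpow_pos_of_pos (by exact_mod_cast hδ.2 j) _

theorem ww_mul {n : ℕ} {δ β : MZ n} (hδ : Lt δ) (hβ : Lt β) : ww (δ * β) = ww δ * ww β := by
  unfold ww
  rw [← Finset.prod_mul_distrib]
  refine Finset.prod_congr rfl fun j _ => ?_
  have h1 : (0 : ℝ) ≤ ((δ j j : ℤ) : ℝ) := by exact_mod_cast (hδ.2 j).le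
  have h2 : (0 : ℝ) ≤ ((β j j : ℤ) : ℝ) := by exact_mod_cast (hβ.2 j).le
  rw [lt_mul_diag hδ hβ, Int.cast_mul, Real.mul_rpow h1 h2]

/-- the Hermite normal form with a matrix of determinant one -/
theorem hnf_pos {n : ℕ} {δ : MZ n} (h : 0 < δ.det) : ∃ γ : GZ n, Lt ((γ : MZ n) * δ) ∧
    ∀ i j, j < i → 0 ≤ ((γ : MZ n) * δ) i j ∧ ((γ : MZ n) * δ) i j < ((γ : MZ n) * δ) j j := by
  obtain ⟨γ, hγ, h1, h2, h3⟩ := hnf n δ h.ne'
  have hlow : (γ * δ).det = ∏ i, (γ * δ) i i :=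
    Matrix.det_of_isLowerTriangular _ fun i j hij => h1 i j hij
  have hdpos : 0 < (γ * δ).det := by
    rw [hlow]
    exact Finset.prod_pos fun i _ => h2 i
  have hγ1 : γ.det = 1 := by
    rcases Int.isUnit_iff.mp hγ with h' | h'
    · exact h'
    · exfalso
      rw [Matrix.det_mul, h'] at hdpos
      linarith
  exact ⟨⟨γ, hγ1⟩, ⟨h1, h2⟩, h3⟩

/-- the allowed entries of the normal forms -/
def ent {n : ℕ} (e : Fin n → ℕ) (i j : Fin n) : Finset ℤ :=
  if i < j then {0} else if i = j then {(e j : ℤ)} else Finset.Ico 0 (e j : ℤ)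

/-- the normal forms with given diagonal -/
def nf {n : ℕ} (e : Fin n → ℕ) : Finset (MZ n) :=
  (Fintype.piFinset fun i => Fintype.piFinset fun j => ent e i j).map Matrix.of.toEmbedding

theorem nf_card {n : ℕ} (e : Fin n → ℕ) : (nf e).card = ∏ j : Fin n, e j ^ (n - 1 - (j : ℕ)) := by
  have h0 : (nf e).card = ∏ i, ∏ j, (ent e i j).card := by
    unfold nf
    rw [Finset.card_map, Fintype.card_piFinset]
    exact Finset.prod_congr rfl fun i _ => Fintype.card_piFinset _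
  rw [h0, Finset.prod_comm]
  refine Finset.prod_congr rfl fun j _ => ?_
  have h1 : ∀ i : Fin n, (ent e i j).card = if j < i then e j else 1 := by
    intro i
    unfold ent
    rcases lt_trichotomy i j with h | h | h
    · rw [if_pos h, if_neg (not_lt.2 h.le), Finset.card_singleton]
    · subst h
      simp
    · rw [if_neg (not_lt.2 h.le), if_neg h.ne', if_pos h, Int.card_Ico, sub_zero, Int.toNat_natCast]
  simp only [h1]
  rw [Finset.prod_ite, Finset.prod_const, Finset.prod_const_one, mul_one]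
  congr 1
  have h2 : (Finset.univ.filter fun i : Fin n => j < i) = Finset.Ioi j := by
    ext i
    simp
  rw [h2, Fin.card_Ioi]

/-- the weights of the normal forms of given determinant and diagonal -/
theorem sum_fib {n : ℕ} (hn : 1 ≤ n) {d : ℕ} (hd : 0 < d) (A : Finset (MZ n))
    (hA : ∀ δ ∈ A, Lt δ ∧ δ.det = d ∧ ∀ i j, j < i → 0 ≤ δ i j ∧ δ i j < δ j j) (e : Fin n → ℕ) :
    ∑ δ ∈ A.filter (fun δ => (fun j => (δ j j).natAbs) = e), ww δ ≤ (d : ℝ) ^ (((n : ℝ) - 1) / 2) := by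
  classical
  have he : ∀ δ ∈ A.filter (fun δ => (fun j => (δ j j).natAbs) = e), ∀ j, δ j j = (e j : ℤ) := by
    intro δ hδ j
    rw [Finset.mem_filter] at hδ
    rw [← hδ.2, Int.natCast_natAbs, abs_of_pos ((hA δ hδ.1).1.2 j)]
  rcases (A.filter (fun δ => (fun j => (δ j j).natAbs) = e)).eq_empty_or_nonempty with h | ⟨δ₀, hδ₀⟩
  · rw [h, Finset.sum_empty]
    positivity
  · have hpos : ∀ j, 0 < e j := by
      intro j
      have h1 := he δ₀ hδ₀ j
      have h2 := (hA δ₀ (Finset.mem_filter.1 hδ₀).1).1.2 j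
      rw [h1] at h2
      exact_mod_cast h2
    have hprod : ∏ j, e j = d := by
      have h1 := (hA δ₀ (Finset.mem_filter.1 hδ₀).1).2.1
      rw [lt_det (hA δ₀ (Finset.mem_filter.1 hδ₀).1).1, Finset.prod_congr rfl fun j _ => he δ₀ hδ₀ j] at h1
      exact_mod_cast h1
    have hcard : (A.filter (fun δ => (fun j => (δ j j).natAbs) = e)).card ≤ (nf e).card := by
      refine Finset.card_le_card fun δ hδ => ?_
      have h1 := hA δ (Finset.mem_filter.1 hδ).1
      unfold nf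
      refine Finset.mem_map.mpr ⟨fun i j => δ i j, ?_, rfl⟩
      rw [Fintype.mem_piFinset]
      intro i
      rw [Fintype.mem_piFinset]
      intro j
      unfold ent
      split_ifs with c1 c2
      · rw [Finset.mem_singleton]
        exact h1.1.1 i j c1
      · subst c2
        rw [Finset.mem_singleton]
        exact he δ hδ i
      · have c3 : j < i := lt_of_le_of_ne (not_lt.mp c1) (Ne.symm c2)
        rw [Finset.mem_Ico, ← he δ hδ j]
        exact h1.2.2 i j c3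
    have hw : ∀ δ ∈ A.filter (fun δ => (fun j => (δ j j).natAbs) = e),
        ww δ = ∏ j : Fin n, (e j : ℝ) ^ (((j : ℕ) : ℝ) - ((n : ℝ) - 1) / 2) := by
      intro δ hδ
      unfold ww
      refine Finset.prod_congr rfl fun j _ => ?_
      rw [he δ hδ j, Int.cast_natCast]
    rw [Finset.sum_congr rfl hw, Finset.sum_const, nsmul_eq_mul]
    have h2 : ((A.filter (fun δ => (fun j => (δ j j).natAbs) = e)).card : ℝ) ≤
        ∏ j : Fin n, (e j : ℝ) ^ ((n : ℝ) - 1 - ((j : ℕ) : ℝ)) := by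
      calc ((A.filter (fun δ => (fun j => (δ j j).natAbs) = e)).card : ℝ) ≤ ((nf e).card : ℝ) := by
            exact_mod_cast hcard
        _ = ∏ j : Fin n, (e j : ℝ) ^ ((n : ℝ) - 1 - ((j : ℕ) : ℝ)) := by
          rw [nf_card]
          push_cast
          refine Finset.prod_congr rfl fun j _ => ?_
          rw [← Real.rpow_natCast]
          congr 1
          have := j.2
          rw [Nat.cast_sub (by omega), Nat.cast_sub (by omega)]
          simp
    refine (mul_le_mul_of_nonneg_right h2 (Finset.prod_nonneg fun j _ => by positivity)).trans (le_of_eq ?_)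
    rw [← Finset.prod_mul_distrib, ← hprod]
    push_cast
    rw [← Real.finsetProd_rpow _ _ fun j _ => Nat.cast_nonneg _]
    refine Finset.prod_congr rfl fun j _ => ?_
    have : (0 : ℝ) < e j := by exact_mod_cast hpos j
    rw [← Real.rpow_add this]
    congr 1
    ring

theorem sum_all {n : ℕ} (hn : 1 ≤ n) {d : ℕ} (hd : 0 < d) (A : Finset (MZ n))
    (hA : ∀ δ ∈ A, Lt δ ∧ δ.det = d ∧ ∀ i j, j < i → 0 ≤ δ i j ∧ δ i j < δ j j) :
    ∑ δ ∈ A, ww δ ≤ (d : ℝ) ^ (((n : ℝ) - 1) / 2) * (d.divisors.card : ℝ) ^ n := by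
  classical
  have hmaps : ∀ δ ∈ A, (fun j => (δ j j).natAbs) ∈ Fintype.piFinset fun _ : Fin n => d.divisors := by
    intro δ hδ
    rw [Fintype.mem_piFinset]
    intro j
    rw [Nat.mem_divisors]
    refine ⟨?_, hd.ne'⟩
    have h1 : δ j j ∣ (d : ℤ) := by
      rw [← (hA δ hδ).2.1, lt_det (hA δ hδ).1]
      exact Finset.dvd_prod_of_mem _ (Finset.mem_univ j)
    have h2 := Int.natAbs_dvd_natAbs.2 h1
    rwa [Int.natAbs_natCast] at h2
  rw [← Finset.sum_fiberwise_of_maps_to hmaps]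
  refine (Finset.sum_le_sum fun e _ => sum_fib hn hd A hA e).trans (le_of_eq ?_)
  rw [Finset.sum_const, Fintype.card_piFinset, Finset.prod_const, Finset.card_univ, Fintype.card_fin,
    nsmul_eq_mul, mul_comm]
  push_cast
  ring

/-- sum over the sublattices -/
theorem t_WVA (hL : S_wvl) : S_wva := by
  classical
  intro n hn m d R'' hm hd hR'' β hβ S hS hSδ
  have hmZ : (0 : ℤ) < m := by exact_mod_cast hm
  have hdZ : (0 : ℤ) < d := by exact_mod_cast hd
  have hβpos : 0 < β.det := by rw [hβ]; exact hmZ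
  obtain ⟨β', hβ'L, γ₀, hβ'⟩ := (hL n β hβpos).1
  have hw : wv β = ww β' := (hL n β hβpos).2 β' γ₀ hβ'L hβ'
  have hrdet : ∀ r ∈ S, r.det = ((m * d : ℕ) : ℤ) := fun r hr => hR''.1 r (hS hr)
  have hch : ∀ r ∈ S, ∃ δ : MZ n, (Lt δ ∧ δ.det = d ∧ ∀ i j, j < i → 0 ≤ δ i j ∧ δ i j < δ j j) ∧
      ∃ γ : GZ n, δ * β' = (γ : MZ n) * r := by
    intro r hr
    obtain ⟨δ₀, hδ₀⟩ := hSδ r hr
    have hδdet : δ₀.det = d := by
      have h1 := hrdet r hr
      rw [hδ₀, Matrix.det_mul, hβ, Nat.cast_mul, mul_comm] at h1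
      exact mul_left_cancel₀ hmZ.ne' h1
    set δ₁ : MZ n := δ₀ * ((γ₀⁻¹ : GZ n) : MZ n) with hδ₁
    have hδ₁det : δ₁.det = d := by rw [hδ₁, Matrix.det_mul, (γ₀⁻¹ : GZ n).2, mul_one, hδdet]
    have hr1 : r = δ₁ * β' := by
      rw [hδ₁, hβ', Matrix.mul_assoc, ← Matrix.mul_assoc _ (γ₀ : MZ n) β,
        ← Matrix.SpecialLinearGroup.coe_mul, inv_mul_cancel, Matrix.SpecialLinearGroup.coe_one,
        Matrix.one_mul, hδ₀]
    obtain ⟨γ, hγL, hγr⟩ := hnf_pos (δ := δ₁) (by rw [hδ₁det]; exact hdZ)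
    refine ⟨(γ : MZ n) * δ₁, ⟨hγL, ?_, hγr⟩, γ, ?_⟩
    · rw [Matrix.det_mul, γ.2, one_mul, hδ₁det]
    · rw [Matrix.mul_assoc, ← hr1]
  choose! D hD1 hD2 using hch
  have hwr : ∀ r ∈ S, wv r = ww (D r) * ww β' := by
    intro r hr
    obtain ⟨γ, hγ⟩ := hD2 r hr
    have hrpos : 0 < r.det := by
      rw [hrdet r hr]
      exact_mod_cast Nat.mul_pos hm hd
    rw [(hL n r hrpos).2 (D r * β') γ (lt_mul (hD1 r hr).1 hβ'L) hγ, ww_mul (hD1 r hr).1 hβ'L]
  have hinj : Set.InjOn D (S : Set (MZ n)) := by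
    intro r hr r' hr' h
    obtain ⟨γ, hγ⟩ := hD2 r hr
    obtain ⟨γ', hγ'⟩ := hD2 r' hr'
    have h' : D r = D r' := h
    rw [h'] at hγ
    rw [hγ] at hγ'
    -- `γ * r = γ' * r'`
    have h1 : r = ((γ⁻¹ * γ' : GZ n) : MZ n) * r' := by
      rw [Matrix.SpecialLinearGroup.coe_mul, Matrix.mul_assoc, ← hγ', ← Matrix.mul_assoc,
        ← Matrix.SpecialLinearGroup.coe_mul, inv_mul_cancel, Matrix.SpecialLinearGroup.coe_one,
        Matrix.one_mul]
    obtain ⟨q, -, hq⟩ := hR''.2 r (hrdet r hr)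
    exact (hq r ⟨hS hr, 1, by rw [Matrix.SpecialLinearGroup.coe_one, Matrix.one_mul]⟩).trans
      (hq r' ⟨hS hr', _, h1⟩).symm
  have hsum : ∑ r ∈ S, wv r = (∑ δ ∈ S.image D, ww δ) * ww β' := by
    rw [Finset.sum_image hinj, Finset.sum_mul]
    exact Finset.sum_congr rfl hwr
  rw [hsum, hw]
  refine mul_le_mul_of_nonneg_right (sum_all hn hd _ fun δ hδ => ?_) (ww_pos hβ'L).le
  obtain ⟨r, hr, rfl⟩ := Finset.mem_image.1 hδ
  exact hD1 r hr

end Pool.Agent.T2h79.LG.WVA
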