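import Pool.Agent.T2h79.LG.Stm3
import Pool.Agent.T2h77N.Reps

/-!
# Project LG, task WVB: the sum of the weights over the superlattices
-/

set_option autoImplicit false

open MeasureTheory Matrix
open scoped MatrixGroups ENNReal Topology ComplexConjugate

noncomputable section

namespace Pool.Agent.T2h79.LG.WVB

open Pool.Agent.T2h77.N

/-- transpose and reverse the order of the indices -/
def rv {n : ℕ} (M : MZ n) : MZ n := Mᵀ.submatrix Fin.revPerm Fin.revPerm

theorem rv_apply {n : ℕ} (M : MZ n) (i j : Fin n) : rv M i j = M (Fin.rev j) (Fin.rev i) := rfl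

theorem rv_mul {n : ℕ} (A B : MZ n) : rv (A * B) = rv B * rv A := by
  unfold rv
  rw [Matrix.transpose_mul, Matrix.submatrix_mul_equiv]

theorem rv_rv {n : ℕ} (M : MZ n) : rv (rv M) = M := by
  ext i j
  rw [rv_apply, rv_apply, Fin.rev_rev, Fin.rev_rev]

theorem rv_det {n : ℕ} (M : MZ n) : (rv M).det = M.det := by
  unfold rv
  rw [Matrix.det_submatrix_equiv_self, Matrix.det_transpose]

/-- the normal form for the right multiplication -/
theorem nf_right {n : ℕ} (D : MZ n) (hD : 0 < D.det) : ∃ v : GZ n,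
    (∀ i j, i < j → (D * (v : MZ n)) i j = 0) ∧ (∀ i, 0 < (D * (v : MZ n)) i i) ∧
    ∀ i j, j < i → 0 ≤ (D * (v : MZ n)) i j ∧ (D * (v : MZ n)) i j < (D * (v : MZ n)) i i := by
  obtain ⟨γ, hγ, h1, h2, h3⟩ := hnf n (rv D) (by rw [rv_det]; exact hD.ne')
  have hlow : (γ * rv D).det = ∏ i, (γ * rv D) i i :=
    Matrix.det_of_isLowerTriangular _ fun i j hij => h1 i j hij
  have hdpos : 0 < (γ * rv D).det := by
    rw [hlow]
    exact Finset.prod_pos fun i _ => h2 i
  have hγ1 : γ.det = 1 := by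
    rcases Int.isUnit_iff.mp hγ with h | h
    · exact h
    · exfalso
      rw [Matrix.det_mul, h, rv_det] at hdpos
      linarith
  have he : D * rv γ = rv (γ * rv D) := by rw [rv_mul, rv_rv]
  refine ⟨⟨rv γ, by rw [rv_det, hγ1]⟩, ?_⟩
  show (∀ i j, i < j → (D * rv γ) i j = 0) ∧ (∀ i, 0 < (D * rv γ) i i) ∧
    ∀ i j, j < i → 0 ≤ (D * rv γ) i j ∧ (D * rv γ) i j < (D * rv γ) i i
  rw [he]
  refine ⟨fun i j hij => ?_, fun i => ?_, fun i j hij => ?_⟩
  · rw [rv_apply]
    exact h1 _ _ (Fin.rev_lt_rev.2 hij)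
  · rw [rv_apply]
    exact h2 _
  · rw [rv_apply, rv_apply]
    exact h3 _ _ (Fin.rev_lt_rev.2 hij)

theorem mul_entry {n : ℕ} {δ b : MZ n} (hδ : Lt δ) (i j : Fin n) (hb : ∀ k, k < i → b k j = 0) :
    (δ * b) i j = δ i i * b i j := by
  rw [Matrix.mul_apply, Finset.sum_eq_single i]
  · intro k _ hk
    rcases lt_or_gt_of_ne hk with h | h
    · rw [hb k h, mul_zero]
    · rw [hδ.1 i k h, zero_mul]
  · intro h
    exact absurd (Finset.mem_univ i) h

theorem lt_quot {n : ℕ} {δ b : MZ n} (hδ : Lt δ) (hr : Lt (δ * b)) : Lt b := by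
  have h1 : ∀ (k : ℕ) (i j : Fin n), (i : ℕ) = k → i < j → b i j = 0 := by
    intro k
    induction k using Nat.strong_induction_on with
    | _ k ih =>
      intro i j hik hij
      have h2 := hr.1 i j hij
      rw [mul_entry hδ i j fun l hl => ih l (by rw [← hik]; exact hl) l j rfl (hl.trans hij)] at h2
      exact (mul_eq_zero.1 h2).resolve_left (hδ.2 i).ne'
  refine ⟨fun i j hij => h1 i i j rfl hij, fun i => ?_⟩
  have h2 := hr.2 i
  rw [mul_entry hδ i i fun l hl => h1 l l i rfl hl] at h2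
  exact (pos_iff_pos_of_mul_pos h2).1 (hδ.2 i)

theorem ww_pos {n : ℕ} {β : MZ n} (h : Lt β) : 0 < ww β :=
  Finset.prod_pos fun j _ => Real.rpow_pos_of_pos (by exact_mod_cast h.2 j) _

theorem ww_mul {n : ℕ} {δ b : MZ n} (hδ : Lt δ) (hb : Lt b) : ww (δ * b) = ww δ * ww b := by
  unfold ww
  rw [← Finset.prod_mul_distrib]
  refine Finset.prod_congr rfl fun j _ => ?_
  rw [mul_entry hδ j j fun l hl => hb.1 l j hl, Int.cast_mul, Real.mul_rpow]
  · exact_mod_cast (hδ.2 j).le
  · exact_mod_cast (hb.2 j).le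

/-- the allowed entries -/
def ent {n : ℕ} (e : Fin n → ℕ) (i j : Fin n) : Finset ℤ :=
  if i < j then {0} else if i = j then {(e i : ℤ)} else Finset.Ico 0 (e i : ℤ)

/-- the normal forms with the diagonal `e` -/
def nf {n : ℕ} (e : Fin n → ℕ) : Finset (MZ n) :=
  (Fintype.piFinset fun i => Fintype.piFinset fun j => ent e i j).map Matrix.of.toEmbedding

theorem nf_card {n : ℕ} (e : Fin n → ℕ) : (nf e).card = ∏ i : Fin n, e i ^ (i : ℕ) := by
  have h0 : (nf e).card = ∏ i, ∏ j, (ent e i j).card := by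
    unfold nf
    rw [Finset.card_map, Fintype.card_piFinset]
    exact Finset.prod_congr rfl fun i _ => Fintype.card_piFinset _
  rw [h0]
  refine Finset.prod_congr rfl fun i _ => ?_
  have h1 : ∀ j, (ent e i j).card = if j < i then e i else 1 := by
    intro j
    unfold ent
    by_cases c1 : i < j
    · rw [if_pos c1, if_neg (not_lt.2 c1.le), Finset.card_singleton]
    · rw [if_neg c1]
      by_cases c2 : i = j
      · rw [if_pos c2, Finset.card_singleton, if_neg (by rw [c2]; exact lt_irrefl _)]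
      · rw [if_neg c2, if_pos (lt_of_le_of_ne (not_lt.1 c1) (Ne.symm c2)), Int.card_Ico, sub_zero,
          Int.toNat_natCast]
  rw [Finset.prod_congr rfl fun j _ => h1 j, Finset.prod_ite, Finset.prod_const, Finset.prod_const_one, mul_one]
  congr 1
  have : (Finset.univ.filter fun j : Fin n => j < i) = Finset.Iio i := by
    ext j
    simp
  rw [this, Fin.card_Iio]

theorem t_WVB (hL : S_wvl) : S_wvb := by
  classical
  intro n _ m d R hm hd hR r hr S hSR hS
  have hrpos : 0 < r.det := by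
    rw [hr]
    exact_mod_cast Nat.mul_pos hm hd
  obtain ⟨⟨r', hr'L, γr, hr'⟩, hrw⟩ := hL n r hrpos
  have hwr : wv r = ww r' := hrw r' γr hr'L hr'
  have hwpos : 0 < wv r := by
    rw [hwr]
    exact ww_pos hr'L
  -- the quotients
  have hq : ∀ β ∈ S, ∃ δ : MZ n, Lt δ ∧ (∀ i j, j < i → 0 ≤ δ i j ∧ δ i j < δ i i) ∧ δ.det = d ∧
      wv β = wv r / ww δ ∧ ∃ v : GZ n, r' = δ * ((v : MZ n) * β) := by
    intro β hβ
    have hβd : β.det = m := hR.1 β (hSR hβ)
    obtain ⟨δ₀, hδ₀⟩ := hS β hβ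
    have hδd : δ₀.det = d := by
      have h1 : r.det = δ₀.det * β.det := by rw [hδ₀, Matrix.det_mul]
      rw [hr, hβd] at h1
      have hm0 : (m : ℤ) ≠ 0 := by exact_mod_cast hm.ne'
      refine mul_right_cancel₀ hm0 ?_
      rw [← h1]
      push_cast
      ring
    have hDd : ((γr : MZ n) * δ₀).det = d := by rw [Matrix.det_mul, γr.2, one_mul, hδd]
    obtain ⟨v, h1, h2, h3⟩ := nf_right ((γr : MZ n) * δ₀) (by rw [hDd]; exact_mod_cast hd)
    set δ : MZ n := (γr : MZ n) * δ₀ * (v : MZ n) with hδ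
    have hδL : Lt δ := ⟨h1, h2⟩
    have hvv : (v : MZ n) * ((v⁻¹ : GZ n) : MZ n) = 1 := by
      rw [← Matrix.SpecialLinearGroup.coe_mul, mul_inv_cancel, Matrix.SpecialLinearGroup.coe_one]
    have he : r' = δ * (((v⁻¹ : GZ n) : MZ n) * β) := by
      rw [hδ, Matrix.mul_assoc ((γr : MZ n) * δ₀), ← Matrix.mul_assoc (v : MZ n), hvv, Matrix.one_mul,
        Matrix.mul_assoc, ← hδ₀, ← hr']
    have hbL : Lt (((v⁻¹ : GZ n) : MZ n) * β) := lt_quot hδL (by rw [← he]; exact hr'L)
    have hwβ : wv β = ww (((v⁻¹ : GZ n) : MZ n) * β) :=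
      (hL n β (by rw [hβd]; exact_mod_cast hm)).2 _ v⁻¹ hbL rfl
    refine ⟨δ, hδL, h3, ?_, ?_, v⁻¹, he⟩
    · rw [hδ, Matrix.det_mul, hDd, v.2, mul_one]
    · rw [eq_div_iff (ww_pos hδL).ne', hwr, he, ww_mul hδL hbL, hwβ, mul_comm]
  choose! δ hδL hδr hδd hδw hδv using hq
  have hinj : Set.InjOn δ S := by
    intro β₁ h₁ β₂ h₂ he
    obtain ⟨v₁, hv₁⟩ := hδv β₁ h₁
    obtain ⟨v₂, hv₂⟩ := hδv β₂ h₂
    rw [← he] at hv₂
    have h3 : (v₁ : MZ n) * β₁ = (v₂ : MZ n) * β₂ := by
      have h4 : δ β₁ * ((v₁ : MZ n) * β₁) = δ β₁ * ((v₂ : MZ n) * β₂) := by rw [← hv₁, ← hv₂]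
      have hd0 : (δ β₁).det ≠ 0 := by
        rw [hδd β₁ h₁]
        exact_mod_cast hd.ne'
      have h5 := congrArg (fun M => (δ β₁).adjugate * M) h4
      simp only [← Matrix.mul_assoc, Matrix.adjugate_mul] at h5
      simp only [Matrix.smul_mul, Matrix.one_mul] at h5
      exact smul_right_injective _ hd0 h5
    have h6 : β₁ = ((v₁⁻¹ * v₂ : GZ n) : MZ n) * β₂ := by
      rw [Matrix.SpecialLinearGroup.coe_mul, Matrix.mul_assoc, ← h3, ← Matrix.mul_assoc,
        ← Matrix.SpecialLinearGroup.coe_mul, inv_mul_cancel, Matrix.SpecialLinearGroup.coe_one, Matrix.one_mul]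
    refine (hR.2 β₁ (hR.1 β₁ (hSR h₁))).unique ⟨hSR h₁, 1, ?_⟩ ⟨hSR h₂, _, h6⟩
    rw [Matrix.SpecialLinearGroup.coe_one, Matrix.one_mul]
  -- the diagonals
  set E : Finset (Fin n → ℕ) := (Fintype.piFinset fun _ : Fin n => d.divisors).filter fun e => ∏ i, e i = d with hE
  set dg : MZ n → Fin n → ℕ := fun β i => (δ β i i).toNat with hdg
  have hdg' : ∀ β ∈ S, ∀ i, ((dg β i : ℕ) : ℤ) = δ β i i := fun β hβ i =>
    Int.toNat_of_nonneg ((hδL β hβ).2 i).le
  have hmaps : ∀ β ∈ S, dg β ∈ E := by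
    intro β hβ
    have hprod : ∏ i, dg β i = d := by
      have h1 : (δ β).det = ∏ i, δ β i i :=
        Matrix.det_of_isLowerTriangular _ fun i j hij => (hδL β hβ).1 i j hij
      rw [hδd β hβ, Finset.prod_congr rfl fun i _ => (hdg' β hβ i).symm] at h1
      exact_mod_cast h1.symm
    rw [hE, Finset.mem_filter, Fintype.mem_piFinset]
    refine ⟨fun i => Nat.mem_divisors.2 ⟨?_, hd.ne'⟩, hprod⟩
    rw [← hprod]
    exact Finset.dvd_prod_of_mem _ (Finset.mem_univ i)
  rw [← Finset.sum_fiberwise_of_maps_to hmaps]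
  have hfib : ∀ e ∈ E, ∑ β ∈ S.filter (fun β => dg β = e), wv β ≤ (d : ℝ) ^ (((n : ℝ) - 1) / 2) * wv r := by
    intro e he
    rw [hE, Finset.mem_filter, Fintype.mem_piFinset] at he
    obtain ⟨he1, he2⟩ := he
    have hepos : ∀ i, 0 < e i := fun i => Nat.pos_of_mem_divisors (he1 i)
    set W : ℝ := ∏ j : Fin n, ((e j : ℕ) : ℝ) ^ (((j : ℕ) : ℝ) - ((n : ℝ) - 1) / 2) with hW
    have hWpos : 0 < W := Finset.prod_pos fun j _ => Real.rpow_pos_of_pos (by exact_mod_cast hepos j) _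
    have h1 : ∀ β ∈ S.filter (fun β => dg β = e), wv β = wv r / W := by
      intro β hβ
      obtain ⟨hβS, hβe⟩ := Finset.mem_filter.1 hβ
      rw [hδw β hβS]
      congr 1
      unfold ww
      rw [hW]
      refine Finset.prod_congr rfl fun j _ => ?_
      rw [← hdg' β hβS j, hβe, Int.cast_natCast]
    have h2 : (S.filter (fun β => dg β = e)).card ≤ ∏ i : Fin n, e i ^ (i : ℕ) := by
      rw [← nf_card]
      refine Finset.card_le_card_of_injOn δ ?_ ?_
      · intro β hβ
        obtain ⟨hβS, hβe⟩ := Finset.mem_filter.1 hβ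
        have hei : ∀ i, (e i : ℤ) = δ β i i := fun i => by
          rw [← hβe]
          exact hdg' β hβS i
        unfold nf
        refine Finset.mem_map.2 ⟨fun i j => δ β i j, ?_, rfl⟩
        rw [Fintype.mem_piFinset]
        intro i
        rw [Fintype.mem_piFinset]
        intro j
        unfold ent
        split_ifs with c1 c2
        · rw [Finset.mem_singleton]
          exact (hδL β hβS).1 i j c1
        · subst c2
          rw [Finset.mem_singleton, hei]
        · rw [Finset.mem_Ico, hei]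
          exact hδr β hβS i j (lt_of_le_of_ne (not_lt.1 c1) (Ne.symm c2))
      · intro β₁ h₁ β₂ h₂ h
        exact hinj (Finset.mem_coe.2 (Finset.mem_filter.1 h₁).1) (Finset.mem_coe.2 (Finset.mem_filter.1 h₂).1) h
    rw [Finset.sum_congr rfl h1, Finset.sum_const, nsmul_eq_mul]
    have h3 : ((∏ i : Fin n, e i ^ (i : ℕ) : ℕ) : ℝ) = (d : ℝ) ^ (((n : ℝ) - 1) / 2) * W := by
      rw [← he2, Nat.cast_prod, Nat.cast_prod, hW, ← Real.finset_prod_rpow _ _ fun i _ => Nat.cast_nonneg _,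
        ← Finset.prod_mul_distrib]
      refine Finset.prod_congr rfl fun i _ => ?_
      rw [← Real.rpow_add (by exact_mod_cast hepos i), add_sub_cancel, Real.rpow_natCast, Nat.cast_pow]
    calc ((S.filter (fun β => dg β = e)).card : ℝ) * (wv r / W)
        ≤ ((∏ i : Fin n, e i ^ (i : ℕ) : ℕ) : ℝ) * (wv r / W) := by
          refine mul_le_mul_of_nonneg_right (by exact_mod_cast h2) (by positivity)
      _ = (d : ℝ) ^ (((n : ℝ) - 1) / 2) * wv r := by
          rw [h3]
          field_simp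
  refine (Finset.sum_le_sum hfib).trans ?_
  rw [Finset.sum_const, nsmul_eq_mul]
  have hEc : E.card ≤ d.divisors.card ^ n := by
    refine (Finset.card_filter_le _ _).trans ?_
    rw [Fintype.card_piFinset_const]
  have hEc' : (E.card : ℝ) ≤ (d.divisors.card : ℝ) ^ n := by exact_mod_cast hEc
  calc (E.card : ℝ) * ((d : ℝ) ^ (((n : ℝ) - 1) / 2) * wv r)
      ≤ (d.divisors.card : ℝ) ^ n * ((d : ℝ) ^ (((n : ℝ) - 1) / 2) * wv r) := by gcongr
    _ = _ := by ring

end Pool.Agent.T2h79.LG.WVB
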