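import Pool.Agent.T2h79.LG.Stm3
import Pool.Agent.T2h77N.Reps

/-! The weight of an orbit is well defined. -/

set_option autoImplicit false

open Matrix
open scoped MatrixGroups

namespace Pool.Agent.T2h79.LG.WVL

open Pool.Agent.T2h79.LG Pool.Agent.T2h77.N

theorem det_Lt {n : ℕ} {β : MZ n} (h : Lt β) : β.det = ∏ i, β i i := by
  rw [Matrix.det_of_isLowerTriangular]
  intro i j hij
  exact h.1 i j hij

theorem det_pos {n : ℕ} {β : MZ n} (h : Lt β) : 0 < β.det := by
  rw [det_Lt h]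
  exact Finset.prod_pos fun i _ => h.2 i

/-- a lower triangular matrix on the right side can be cancelled -/
theorem low {n : ℕ} {γ β : MZ n} (h : ∀ i j, i < j → β i j = 0) (hd : ∀ i, β i i ≠ 0)
    (hm : ∀ i j, i < j → (γ * β) i j = 0) : ∀ i j, i < j → γ i j = 0 := by
  have key : ∀ k : ℕ, ∀ i j : Fin n, n - (j : ℕ) = k → i < j → γ i j = 0 := by
    intro k
    induction k using Nat.strong_induction_on with
    | _ k ih =>
      intro i j hk hij
      have h1 := hm i j hij
      rw [Matrix.mul_apply, Finset.sum_eq_single j] at h1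
      · exact (mul_eq_zero.1 h1).resolve_right (hd j)
      · intro l _ hl
        rcases lt_or_gt_of_ne hl with h2 | h2
        · rw [h l j h2, mul_zero]
        · rw [ih (n - (l : ℕ)) (by
            have h3 : (j : ℕ) < (l : ℕ) := h2
            have h4 := l.2
            omega) i l rfl (hij.trans h2), zero_mul]
      · intro h2
        exact absurd (Finset.mem_univ j) h2
  exact fun i j => key _ i j rfl

theorem diag {n : ℕ} {γ β : MZ n} (h : ∀ i j, i < j → β i j = 0) (hγ : ∀ i j, i < j → γ i j = 0) (j : Fin n) :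
    (γ * β) j j = γ j j * β j j := by
  rw [Matrix.mul_apply, Finset.sum_eq_single j]
  · intro l _ hl
    rcases lt_or_gt_of_ne hl with h2 | h2
    · rw [h l j h2, mul_zero]
    · rw [hγ j l h2, zero_mul]
  · intro h2
    exact absurd (Finset.mem_univ j) h2

/-- the diagonal of a lower triangular matrix is determined by its orbit -/
theorem diag_eq {n : ℕ} {β β' : MZ n} (h : Lt β) (h' : Lt β') (γ : GZ n) (e : β' = (γ : MZ n) * β) (j : Fin n) :
    β' j j = β j j := by
  have hd : ∀ i, β i i ≠ 0 := fun i => (h.2 i).ne'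
  have h1 : ∀ i j, i < j → (γ : MZ n) i j = 0 := low h.1 hd (by rw [← e]; exact h'.1)
  have h2 : ∀ j, β' j j = (γ : MZ n) j j * β j j := fun j => by rw [e]; exact diag h.1 h1 j
  have h3 : ∀ j, 0 < (γ : MZ n) j j := by
    intro j
    have h4 := h'.2 j
    rw [h2 j] at h4
    exact (mul_pos_iff_of_pos_right (h.2 j)).1 h4
  have h5 : ∏ i, (γ : MZ n) i i = 1 := by
    rw [← det_Lt ⟨h1, h3⟩]
    exact γ.2
  have h6 : (γ : MZ n) j j = 1 := by
    have h7 : (γ : MZ n) j j ∣ ∏ i, (γ : MZ n) i i :=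
      Finset.dvd_prod_of_mem (fun i => (γ : MZ n) i i) (Finset.mem_univ j)
    rw [h5] at h7
    exact Int.eq_one_of_dvd_one (h3 j).le h7
  rw [h2 j, h6, one_mul]

theorem ww_eq {n : ℕ} {β β' : MZ n} (h : Lt β) (h' : Lt β') (γ : GZ n) (e : β' = (γ : MZ n) * β) :
    ww β' = ww β := by
  unfold ww
  exact Finset.prod_congr rfl fun j _ => by rw [diag_eq h h' γ e j]

theorem exists_Lt {n : ℕ} (β : MZ n) (hβ : 0 < β.det) : ∃ β' : MZ n, Lt β' ∧ ∃ γ : GZ n, β' = (γ : MZ n) * β := by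
  obtain ⟨γ, hu, h1, h2, _⟩ := hnf n β hβ.ne'
  have h3 : Lt (γ * β) := ⟨h1, h2⟩
  have h4 := det_pos h3
  rw [Matrix.det_mul] at h4
  have h5 : 0 < γ.det := (mul_pos_iff_of_pos_right hβ).1 h4
  have h6 : γ.det = 1 := by
    rcases Int.isUnit_iff.1 hu with h | h
    · exact h
    · omega
  exact ⟨γ * β, h3, ⟨γ, h6⟩, rfl⟩

theorem t_WVL : S_wvl := by
  intro n β hβ
  refine ⟨exists_Lt β hβ, fun β' γ h' e => ?_⟩
  have h := exists_Lt β hβ
  unfold wv
  rw [dif_pos h]
  obtain ⟨h1, γ₀, h2⟩ := h.choose_spec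
  refine ww_eq h' h1 (γ₀ * γ⁻¹) ?_
  rw [h2, e, ← Matrix.mul_assoc, ← Matrix.SpecialLinearGroup.coe_mul, inv_mul_cancel_right]

end Pool.Agent.T2h79.LG.WVL
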