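import Pool.Agent.T2h79.LG.Main1
import Pool.Agent.T2h79.LG.T_AV1
import Pool.Agent.T2h79.LG.T_AVT
import Pool.Agent.T2h79.LG.T_BL0
import Pool.Agent.T2h79.LG.T_BL1
import Pool.Agent.T2h79.LG.T_BXL
import Pool.Agent.T2h79.LG.T_CN1
import Pool.Agent.T2h79.LG.T_COB
import Pool.Agent.T2h79.LG.T_DET
import Pool.Agent.T2h79.LG.T_FIN
import Pool.Agent.T2h79.LG.T_GCV
import Pool.Agent.T2h79.LG.T_GRW
import Pool.Agent.T2h79.LG.T_HES
import Pool.Agent.T2h79.LG.T_HIH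
import Pool.Agent.T2h79.LG.T_HON
import Pool.Agent.T2h79.LG.T_LI1
import Pool.Agent.T2h79.LG.T_LP1
import Pool.Agent.T2h79.LG.T_LST
import Pool.Agent.T2h79.LG.T_QU1
import Pool.Agent.T2h79.LG.T_QU2
import Pool.Agent.T2h79.LG.T_QU3
import Pool.Agent.T2h79.LG.T_RPA
import Pool.Agent.T2h79.LG.T_RPM
import Pool.Agent.T2h79.LG.T_RPO
import Pool.Agent.T2h79.LG.T_SCH
import Pool.Agent.T2h79.LG.T_SER
import Pool.Agent.T2h79.LG.T_SOL
import Pool.Agent.T2h79.LG.T_STR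
import Pool.Agent.T2h79.LG.T_TP0
import Pool.Agent.T2h79.LG.T_TP1
import Pool.Agent.T2h79.LG.T_TRH
import Pool.Agent.T2h79.LG.T_VVF
import Pool.Agent.T2h79.LG.T_WVA
import Pool.Agent.T2h79.LG.T_WVB
import Pool.Agent.T2h79.LG.T_WVL

/-!
# Almost all cusp forms of `GL_n` satisfy the Lindelöf and the Riemann hypothesis up to `ε`
-/

set_option autoImplicit false

namespace Pool.Agent.T2h79.LG

theorem p_hon : S_hon := HON.t_HON SLN.t_SLN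
theorem p_gcv : S_gcv := GCV.t_GCV BXL.t_BXL SOL.t_SOL p_knu
theorem p_av1 (hE : S_exq) : S_av1 := AV1.t_AV1 (STR.t_STR i_iw i_red) p_gcv hE p_repG p_repU
theorem p_cn1 : S_cn1 := CN1.t_CN1 i_iw i_ent p_hon
theorem p_lp1 (hE : S_exq) : S_lp1 := LP1.t_LP1 t_TRW SYM.t_SYM p_cn1 (p_av1 hE) i_rcf p_repG
theorem p_li1 (hE : S_exq) : S_li1 := LI1.t_LI1 (p_lp1 hE) i_cov i_rcf i_iw i_ent i_int
theorem p_hih : S_hih := HIH.t_HIH i_iw i_red i_int i_ent i_high i_trace i_cut i_mass i_cov i_rcf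
theorem p_trh : S_trh := TRH.t_TRH i_iw i_red i_int i_ent i_triv i_trace i_cut i_mass i_cov i_rcf
theorem p_wva : S_wva := WVA.t_WVA WVL.t_WVL
theorem p_wvb : S_wvb := WVB.t_WVB WVL.t_WVL
theorem p_sch : S_sch := SCH.t_SCH p_wva p_wvb
theorem p_rpm : S_rpm := RPM.t_RPM p_sch p_repG
theorem p_rpa : S_rpa := RPA.t_RPA p_repG p_repU
theorem p_rpo : S_rpo := RPO.t_RPO p_rpm p_rpa HES.t_HES
theorem p_tp0 : S_tp0 := TP0.t_TP0 p_cnt
theorem p_tp1 : S_tp1 := TP1.t_TP1 p_cn1 AVT.t_AVT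
theorem p_lst : S_lst := LST.t_LST t_TRW SYM.t_SYM i_rcf p_repG i_cov i_iw i_ent i_int
theorem p_vvf : S_vvf := VVF.t_VVF SHF.t_SHF
theorem p_cob : S_cob := COB.t_COB p_lam HES.t_HES
theorem p_ser : S_ser := SER.t_SER p_dir p_lam p_cob
theorem p_det (hP : S_shp) : S_det := DET.t_DET p_vvf GRW.t_GRW p_cob p_ser hP SHF.t_SHF
theorem p_bl0 : S_bl0 := BL0.t_BL0 p_lsi
theorem p_bl1 (hE : S_exq) : S_bl1 := BL1.t_BL1 (p_li1 hE)
theorem p_qu1 : S_qu1 := QU1.t_QU1 p_afe p_fac DYA.t_DYA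
theorem p_qu2 : S_qu2 := QU2.t_QU2 p_lst p_rpo
theorem p_qu3 : S_qu3 := QU3.t_QU3 p_lst p_rpo p_vvf
theorem p_fin (hP : S_shp) : S_fin := FIN.t_FIN p_qu1 p_qu2 p_qu3 (p_det hP) p_hih p_trh

end Pool.Agent.T2h79.LG
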