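import Pool.Agent.T2h79.LG.Stm3
import Pool.Agent.T2h79.LG.T_FEQ

/-!
# SHP: a pointwise bound for a Dirichlet polynomial from its mean square on a line to the left
-/

set_option autoImplicit false

open MeasureTheory Matrix
open scoped MatrixGroups ENNReal Topology ComplexConjugate

noncomputable section

namespace Pool.Agent.T2h79.LG.SHP

open Pool.Agent.T2h77.N Complex Pool.Agent.T2h79.LG.FEQ

theorem int_gauss' (c : ℝ) : Integrable fun v : ℝ => Real.exp (c ^ 2 - v ^ 2) := by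
  have h := (integrable_exp_neg_mul_sq (b := 1) one_pos).const_mul (Real.exp (c ^ 2))
  refine h.congr (Filter.Eventually.of_forall fun v => ?_)
  show Real.exp (c ^ 2) * Real.exp (-1 * v ^ 2) = Real.exp (c ^ 2 - v ^ 2)
  rw [← Real.exp_add]
  congr 1
  ring

theorem line_ne (c v : ℝ) (hc : 0 < |c|) : (c + v * I : ℂ) ≠ 0 := by
  intro h
  have := norm_ge c v
  rw [h, norm_zero] at this
  linarith

/-- integrability on a vertical line -/
theorem int_line' (G : ℂ → ℂ) (hG : Continuous G) (c K : ℝ) (hc : 0 < |c|)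
    (hb : ∀ v : ℝ, ‖G (c + v * I)‖ ≤ K) :
    Integrable (fun v : ℝ => G (c + v * I) * cexp ((c + v * I) ^ 2) / (c + v * I)) := by
  have hne : ∀ v : ℝ, (c + v * I : ℂ) ≠ 0 := fun v => line_ne c v hc
  refine ((int_gauss' c).const_mul (K / |c|)).mono' (Continuous.aestronglyMeasurable ?_)
    (Filter.Eventually.of_forall fun v => ?_)
  · refine Continuous.div ?_ (by fun_prop) hne
    exact Continuous.mul (hG.comp (by fun_prop)) (by fun_prop)
  · rw [norm_div, norm_mul, exp_sq_norm, div_mul_eq_mul_div]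
    have hK : 0 ≤ K := (norm_nonneg _).trans (hb 0)
    exact div_le_div₀ (mul_nonneg hK (Real.exp_pos _).le)
      (mul_le_mul_of_nonneg_right (hb v) (Real.exp_pos _).le) hc (norm_ge c v)

/-- the integral of `exp (w ^ 2) / w` over the line `Re w = b` does not depend on `b > 0` -/
theorem kap (hS : S_shf) (b : ℝ) (hb : 0 < b) (hb2 : b ≤ 2) :
    ∫ v : ℝ, cexp ((b + v * I) ^ 2) / (b + v * I) = ∫ v : ℝ, cexp ((2 + v * I) ^ 2) / (2 + v * I) := by
  have h := hS b 2 (Real.log (1 + 1 / b)) (fun w => 1 / w) hb2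
    (fun w h1 _ => by
      have hw : w ≠ 0 := by
        intro h
        rw [h, Complex.zero_re] at h1
        linarith
      exact DifferentiableAt.div (differentiableAt_const _) differentiableAt_id hw)
    (fun w h1 _ => by
      have hw : b ≤ ‖w‖ := by
        have := Complex.abs_re_le_norm w
        have h3 := le_abs_self w.re
        linarith
      have h4 : (0 : ℝ) < 1 / b := by positivity
      have h5 : 0 ≤ Real.log (1 + 1 / b) := Real.log_nonneg (by linarith)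
      calc ‖1 / w‖ = 1 / ‖w‖ := by rw [norm_div, norm_one]
        _ ≤ 1 / b := one_div_le_one_div_of_le hb hw
        _ ≤ Real.exp (Real.log (1 + 1 / b)) := by rw [Real.exp_log (by linarith)]; linarith
        _ ≤ _ := by
            refine Real.exp_le_exp.2 ?_
            nlinarith [abs_nonneg w.im])
  have e1 : ∀ c : ℝ, ∫ v : ℝ, cexp ((c + v * I) ^ 2) / (c + v * I) =
      ∫ v : ℝ, 1 / (c + v * I) * cexp ((c + v * I) ^ 2) := by
    intro c
    congr 1
    funext v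
    ring
  have e2 := e1 2
  push_cast at e2
  rw [e1 b, h, e2]
  push_cast
  rfl

/-- the contour shift -/
theorem shift2 (hS : S_shf) (G : ℂ → ℂ) (hG : Differentiable ℂ G) (K : ℝ)
    (hb : ∀ w : ℂ, -2 ≤ w.re → w.re ≤ 2 → ‖G w‖ ≤ K) (b : ℝ) (hb0 : 0 < b) (hb2 : b ≤ 2) :
    (∫ v : ℝ, G (2 + v * I) * cexp ((2 + v * I) ^ 2) / (2 + v * I)) -
      (∫ v : ℝ, G (((-b : ℝ) : ℂ) + v * I) * cexp ((((-b : ℝ) : ℂ) + v * I) ^ 2) /
        (((-b : ℝ) : ℂ) + v * I)) =
      2 * (∫ v : ℝ, cexp ((2 + v * I) ^ 2) / (2 + v * I)) * G 0 := by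
  have hd : Differentiable ℂ (dslope G 0) := by
    rw [← differentiableOn_univ] at hG ⊢
    exact (Complex.differentiableOn_dslope Filter.univ_mem).2 hG
  obtain ⟨B, hB⟩ := (isCompact_closedBall (0 : ℂ) 1).exists_bound_of_continuousOn hd.continuous.continuousOn
  set L : ℝ := 1 + (|B| + |K| + ‖G 0‖) with hL
  have hL1 : 1 ≤ L := by rw [hL]; linarith [abs_nonneg B, abs_nonneg K, norm_nonneg (G 0)]
  have hbd : ∀ w : ℂ, -2 ≤ w.re → w.re ≤ 2 → ‖dslope G 0 w‖ ≤ L := by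
    intro w h1 h2
    rcases le_total ‖w‖ 1 with h | h
    · have := hB w (by simpa using h)
      rw [hL]; linarith [le_abs_self B, abs_nonneg K, norm_nonneg (G 0)]
    · have hw : w ≠ 0 := by
        intro h0; rw [h0, norm_zero] at h; linarith
      rw [dslope_of_ne _ hw, slope_def_field, sub_zero, norm_div]
      calc ‖G w - G 0‖ / ‖w‖ ≤ ‖G w - G 0‖ := div_le_self (norm_nonneg _) h
        _ ≤ ‖G w‖ + ‖G 0‖ := norm_sub_le _ _
        _ ≤ K + ‖G 0‖ := by linarith [hb w h1 h2]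
        _ ≤ L := by rw [hL]; linarith [le_abs_self K, abs_nonneg B]
  have hl : 0 ≤ Real.log L := Real.log_nonneg hL1
  have key := hS (-b) 2 (Real.log L) (dslope G 0) (by linarith) (fun w _ _ => hd w) (fun w h1 h2 => by
    refine (hbd w (by linarith) h2).trans ?_
    calc L = Real.exp (Real.log L) := (Real.exp_log (by linarith)).symm
      _ ≤ _ := by
          refine Real.exp_le_exp.2 ?_
          nlinarith [abs_nonneg w.im])
  have hsl : ∀ (c v : ℝ), 0 < |c| → dslope G 0 (c + v * I) * cexp ((c + v * I) ^ 2) =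
      G (c + v * I) * cexp ((c + v * I) ^ 2) / (c + v * I) - G 0 * (1 * cexp ((c + v * I) ^ 2) / (c + v * I)) := by
    intro c v hc
    have hw : (c + v * I : ℂ) ≠ 0 := line_ne c v hc
    rw [dslope_of_ne _ hw, slope_def_field, sub_zero]
    field_simp
  have hbb : 0 < |(-b)| := by rw [abs_neg, abs_of_pos hb0]; exact hb0
  have i1 := int_line' G hG.continuous 2 K (by norm_num) (fun v => hb _ (by simp) (by simp))
  have i2 := int_line' G hG.continuous (-b) K hbb (fun v => hb _ (by simpa using hb2) (by simp; linarith))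
  have j1 := int_line' (fun _ => 1) continuous_const 2 1 (by norm_num) (fun v => by simp)
  have j2 := int_line' (fun _ => 1) continuous_const (-b) 1 hbb (fun v => by simp)
  have k1 : ∫ v : ℝ, dslope G 0 (((-b : ℝ) : ℂ) + v * I) * cexp ((((-b : ℝ) : ℂ) + v * I) ^ 2) =
      (∫ v : ℝ, G (((-b : ℝ) : ℂ) + v * I) * cexp ((((-b : ℝ) : ℂ) + v * I) ^ 2) / (((-b : ℝ) : ℂ) + v * I)) -
      G 0 * ∫ v : ℝ, 1 * cexp ((((-b : ℝ) : ℂ) + v * I) ^ 2) / (((-b : ℝ) : ℂ) + v * I) := by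
    simp_rw [hsl (-b) _ hbb]
    rw [integral_sub i2 (j2.const_mul _), integral_const_mul]
  have k2 : ∫ v : ℝ, dslope G 0 (((2 : ℝ) : ℂ) + v * I) * cexp ((((2 : ℝ) : ℂ) + v * I) ^ 2) =
      (∫ v : ℝ, G (((2 : ℝ) : ℂ) + v * I) * cexp ((((2 : ℝ) : ℂ) + v * I) ^ 2) / (((2 : ℝ) : ℂ) + v * I)) -
      G 0 * ∫ v : ℝ, 1 * cexp ((((2 : ℝ) : ℂ) + v * I) ^ 2) / (((2 : ℝ) : ℂ) + v * I) := by
    simp_rw [hsl 2 _ (by norm_num)]
    rw [integral_sub i1 (j1.const_mul _), integral_const_mul]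
  rw [k1, k2] at key
  have hneg : ∫ v : ℝ, 1 * cexp ((((-b : ℝ) : ℂ) + v * I) ^ 2) / (((-b : ℝ) : ℂ) + v * I) =
      -∫ v : ℝ, cexp (((b : ℂ) + v * I) ^ 2) / ((b : ℂ) + v * I) := by
    rw [← integral_neg_eq_self, ← integral_neg]
    congr 1
    funext v
    have e1 : (((-b : ℝ) : ℂ) + ((-v : ℝ) : ℂ) * I) = -((b : ℂ) + v * I) := by push_cast; ring
    rw [e1, neg_sq, div_neg, one_mul]
  rw [hneg, kap hS b hb0 hb2] at key
  simp only [one_mul] at key
  have e2 : (((2 : ℝ) : ℝ) : ℂ) = 2 := by push_cast; rfl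
  rw [e2] at key
  linear_combination -key

theorem norm_term (m : ℕ) (hm : 0 < m) (z : ℂ) : ‖(m : ℂ) ^ (-z)‖ = (m : ℝ) ^ (-z.re) := by
  rw [← Complex.ofReal_natCast, Complex.norm_cpow_eq_rpow_re_of_pos (by exact_mod_cast hm), Complex.neg_re]

theorem norm_P (B : Finset ℕ) (a : ℕ → ℂ) (hB : ∀ m ∈ B, 0 < m) (z : ℂ) (r : ℝ) (hr : r ≤ z.re) :
    ‖∑ m ∈ B, a m * (m : ℂ) ^ (-z)‖ ≤ ∑ m ∈ B, ‖a m‖ * (m : ℝ) ^ (-r) := by
  refine (norm_sum_le _ _).trans (Finset.sum_le_sum fun m hm => ?_)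
  rw [norm_mul, norm_term m (hB m hm)]
  refine mul_le_mul_of_nonneg_left ?_ (norm_nonneg _)
  exact Real.rpow_le_rpow_of_exponent_le (by exact_mod_cast hB m hm) (by linarith)

theorem diff_P (B : Finset ℕ) (a : ℕ → ℂ) (hB : ∀ m ∈ B, 0 < m) :
    Differentiable ℂ fun z : ℂ => ∑ m ∈ B, a m * (m : ℂ) ^ (-z) := by
  intro z
  refine DifferentiableAt.fun_sum fun m hm => ?_
  refine DifferentiableAt.const_mul ?_ _
  refine DifferentiableAt.const_cpow differentiableAt_id.neg (Or.inl ?_)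
  exact_mod_cast (hB m hm).ne'

/-- the Gaussian mean of a nonnegative function on a line -/
theorem gauss_mean (h : ℝ → ℝ) (hc : Continuous h) (h0 : ∀ v, 0 ≤ h v) (K : ℝ) (hK : ∀ v, h v ≤ K)
    (t g : ℝ) (hg : 0 < g) (hm : ∫ v : ℝ, (1 + v ^ 2)⁻¹ * h v ^ 2 ≤ g ^ 2) :
    ∫ v : ℝ, h (t + v) * Real.exp (-v ^ 2) ≤
      (1 + |t|) * g * (1 / 2 + ∫ v : ℝ, Real.exp (-v ^ 2)) := by
  have hK0 : 0 ≤ K := (h0 0).trans (hK 0)
  have ig : Integrable fun v : ℝ => Real.exp (-v ^ 2) := by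
    simpa using integrable_exp_neg_mul_sq (b := 1) one_pos
  have i0 : Integrable fun v : ℝ => (1 + v ^ 2)⁻¹ * h v ^ 2 := by
    refine (integrable_inv_one_add_sq.const_mul (K ^ 2)).mono' ?_ (Filter.Eventually.of_forall fun v => ?_)
    · refine Continuous.aestronglyMeasurable ?_
      refine Continuous.mul (Continuous.inv₀ (by fun_prop) fun v => by positivity) (hc.pow 2)
    · rw [Real.norm_of_nonneg (by positivity), mul_comm (K ^ 2)]
      exact mul_le_mul_of_nonneg_left (pow_le_pow_left₀ (h0 v) (hK v) 2) (by positivity)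
  have i1 : Integrable fun v : ℝ => (1 + (t + v) ^ 2)⁻¹ * h (t + v) ^ 2 := i0.comp_add_left t
  have e1 : ∫ v : ℝ, (1 + (t + v) ^ 2)⁻¹ * h (t + v) ^ 2 = ∫ v : ℝ, (1 + v ^ 2)⁻¹ * h v ^ 2 :=
    integral_add_left_eq_self (fun v : ℝ => (1 + v ^ 2)⁻¹ * h v ^ 2) t
  have i2 : Integrable fun v : ℝ => h (t + v) * Real.exp (-v ^ 2) := by
    refine (ig.const_mul K).mono' ?_ (Filter.Eventually.of_forall fun v => ?_)
    · refine Continuous.aestronglyMeasurable ?_
      exact (hc.comp (by fun_prop)).mul (by fun_prop)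
    · rw [Real.norm_of_nonneg (mul_nonneg (h0 _) (Real.exp_pos _).le)]
      exact mul_le_mul_of_nonneg_right (hK _) (Real.exp_pos _).le
  have ht : 0 < 1 + |t| := by positivity
  have hpt : ∀ v : ℝ, h (t + v) * Real.exp (-v ^ 2) ≤
      (1 + |t|) / g / 2 * ((1 + (t + v) ^ 2)⁻¹ * h (t + v) ^ 2) + (1 + |t|) * g * Real.exp (-v ^ 2) := by
    intro v
    set y := h (t + v) with hy
    set e := Real.exp (-v ^ 2) with he
    have he0 : 0 < e := Real.exp_pos _
    have hq : 0 < 1 + (t + v) ^ 2 := by positivity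
    have h1 : (1 + (t + v) ^ 2) * e ≤ 2 * (1 + |t|) ^ 2 := by
      have h2 : 1 + v ^ 2 ≤ Real.exp (v ^ 2) := by
        have := Real.add_one_le_exp (v ^ 2)
        linarith
      have h3 : (1 + v ^ 2) * e ≤ 1 := by
        calc (1 + v ^ 2) * e ≤ Real.exp (v ^ 2) * e := mul_le_mul_of_nonneg_right h2 he0.le
          _ = 1 := by rw [he, ← Real.exp_add]; simp
      have h4 : 1 + (t + v) ^ 2 ≤ 2 * (1 + |t|) ^ 2 * (1 + v ^ 2) := by
        have h5 := abs_nonneg t
        have h6 : t ^ 2 = |t| ^ 2 := (sq_abs t).symm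
        nlinarith [sq_nonneg (t - v), mul_nonneg h5 (sq_nonneg v), mul_nonneg (sq_nonneg t) (sq_nonneg v)]
      calc (1 + (t + v) ^ 2) * e ≤ 2 * (1 + |t|) ^ 2 * (1 + v ^ 2) * e := mul_le_mul_of_nonneg_right h4 he0.le
        _ = 2 * (1 + |t|) ^ 2 * ((1 + v ^ 2) * e) := by ring
        _ ≤ 2 * (1 + |t|) ^ 2 * 1 := mul_le_mul_of_nonneg_left h3 (by positivity)
        _ = _ := by ring
    -- the inequality between the means
    have h2 : y * e ≤ (1 + |t|) / g / 2 * ((1 + (t + v) ^ 2)⁻¹ * y ^ 2) +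
        g / (1 + |t|) / 2 * ((1 + (t + v) ^ 2) * e * e) := by
      have h3 : (1 + |t|) / g / 2 * ((1 + (t + v) ^ 2)⁻¹ * y ^ 2) +
          g / (1 + |t|) / 2 * ((1 + (t + v) ^ 2) * e * e) - y * e =
          ((1 + |t|) * y - g * (1 + (t + v) ^ 2) * e) ^ 2 /
            (2 * g * (1 + |t|) * (1 + (t + v) ^ 2)) := by
        field_simp
        ring
      have h4 : 0 ≤ ((1 + |t|) * y - g * (1 + (t + v) ^ 2) * e) ^ 2 /
            (2 * g * (1 + |t|) * (1 + (t + v) ^ 2)) := by positivity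
      linarith
    refine h2.trans (add_le_add le_rfl ?_)
    calc g / (1 + |t|) / 2 * ((1 + (t + v) ^ 2) * e * e)
        ≤ g / (1 + |t|) / 2 * (2 * (1 + |t|) ^ 2 * e) := by
          refine mul_le_mul_of_nonneg_left (mul_le_mul_of_nonneg_right h1 he0.le) (by positivity)
      _ = (1 + |t|) * g * e := by
          field_simp
  calc ∫ v : ℝ, h (t + v) * Real.exp (-v ^ 2)
      ≤ ∫ v : ℝ, ((1 + |t|) / g / 2 * ((1 + (t + v) ^ 2)⁻¹ * h (t + v) ^ 2) +
        (1 + |t|) * g * Real.exp (-v ^ 2)) := integral_mono i2 ((i1.const_mul _).add (ig.const_mul _)) hpt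
    _ = (1 + |t|) / g / 2 * (∫ v : ℝ, (1 + v ^ 2)⁻¹ * h v ^ 2) +
        (1 + |t|) * g * ∫ v : ℝ, Real.exp (-v ^ 2) := by
        rw [integral_add (i1.const_mul _) (ig.const_mul _), integral_const_mul, integral_const_mul, e1]
    _ ≤ (1 + |t|) / g / 2 * g ^ 2 + (1 + |t|) * g * ∫ v : ℝ, Real.exp (-v ^ 2) := by
        refine add_le_add (mul_le_mul_of_nonneg_left hm (by positivity)) le_rfl
    _ = _ := by
        field_simp

theorem t_SHP (hS : S_shf) : S_shp := by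
  intro ε hε
  set κ : ℂ := ∫ v : ℝ, cexp ((2 + v * I) ^ 2) / (2 + v * I) with hκ
  have hκ0 : 0 < ‖κ‖ := norm_pos_iff.2 kappa
  set Γ : ℝ := ∫ v : ℝ, Real.exp (-v ^ 2) with hΓ
  have hΓ0 : 0 ≤ Γ := integral_nonneg fun v => (Real.exp_pos _).le
  set E2 : ℝ := ∫ v : ℝ, Real.exp ((2 : ℝ) ^ 2 - v ^ 2) with hE2
  have hE20 : 0 ≤ E2 := integral_nonneg fun v => (Real.exp_pos _).le
  set C : ℝ := 1 + ‖κ‖⁻¹ * (E2 + Real.exp 1 / ε * (1 / 2 + Γ)) with hC
  have hC1 : 1 ≤ C := by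
    rw [hC]
    have : 0 ≤ ‖κ‖⁻¹ * (E2 + Real.exp 1 / ε * (1 / 2 + Γ)) := by positivity
    linarith
  refine ⟨C, hC1, fun B a σ g s hB hg h1 h2 hm => ?_⟩
  obtain ⟨P, hP⟩ : ∃ P : ℂ → ℂ, P = fun z => ∑ m ∈ B, a m * (m : ℂ) ^ (-z) := ⟨_, rfl⟩
  have hPd : Differentiable ℂ P := by rw [hP]; exact diff_P B a hB
  have hPn : ∀ (z : ℂ) (r : ℝ), r ≤ z.re → ‖P z‖ ≤ ∑ m ∈ B, ‖a m‖ * (m : ℝ) ^ (-r) := fun z r hr => by
    rw [hP]; exact norm_P B a hB z r hr
  have hPs : ∑ m ∈ B, a m * (m : ℂ) ^ (-s) = P s := by rw [hP]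
  have hm' : ∫ v : ℝ, (1 + v ^ 2)⁻¹ * ‖P ((σ : ℂ) + v * I)‖ ^ 2 ≤ g ^ 2 := by
    rw [hP]; exact hm
  rw [hPs]
  clear hP hPs hm
  set S : ℝ := ∑ m ∈ B, ‖a m‖ * (m : ℝ) ^ (-(s.re + 2)) with hSd
  have hS0 : 0 ≤ S := Finset.sum_nonneg fun m _ => mul_nonneg (norm_nonneg _) (Real.rpow_nonneg (Nat.cast_nonneg _) _)
  have main : ∀ g' : ℝ, 0 < g' → g ≤ g' → ‖P s‖ ≤ C * ((1 + |s.im|) ^ 2 * g' + S) := by
    intro g' hg' hgg
    have hm2 : ∫ v : ℝ, (1 + v ^ 2)⁻¹ * ‖P ((σ : ℂ) + v * I)‖ ^ 2 ≤ g' ^ 2 :=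
      hm'.trans (pow_le_pow_left₀ hg hgg 2)
    set b : ℝ := s.re - σ with hb
    have hb1 : ε ≤ b := by rw [hb]; linarith
    have hb2 : b ≤ 1 := by rw [hb]; linarith
    have hb0 : 0 < b := hε.trans_le hb1
    have key := shift2 hS (fun w => P (s + w)) (hPd.comp (by fun_prop)) _ (fun w h3 _ =>
      hPn (s + w) (s.re - 2) (by rw [Complex.add_re]; linarith)) b hb0 (by linarith)
    simp only [add_zero] at key
    rw [← hκ] at key
    -- the right line
    have j2 : ‖∫ v : ℝ, P (s + (2 + v * I)) * cexp ((2 + v * I) ^ 2) / (2 + v * I)‖ ≤ S * E2 := by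
      rw [hE2, ← integral_const_mul]
      refine norm_integral_le_of_norm_le ((int_gauss' 2).const_mul S) (Filter.Eventually.of_forall fun v => ?_)
      have e1 := exp_sq_norm 2 v
      have e2 := norm_ge 2 v
      push_cast at e1 e2
      have e3 : (1 : ℝ) ≤ ‖(2 + v * I : ℂ)‖ := by
        rw [abs_of_pos (by norm_num : (0 : ℝ) < 2)] at e2
        linarith
      rw [norm_div, norm_mul, e1]
      have e4 : ‖P (s + (2 + v * I))‖ ≤ S := hPn _ _ (by simp)
      calc ‖P (s + (2 + v * I))‖ * Real.exp (2 ^ 2 - v ^ 2) / ‖(2 + v * I : ℂ)‖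
          ≤ ‖P (s + (2 + v * I))‖ * Real.exp (2 ^ 2 - v ^ 2) := div_le_self (by positivity) e3
        _ ≤ S * Real.exp (2 ^ 2 - v ^ 2) := mul_le_mul_of_nonneg_right e4 (Real.exp_pos _).le
    -- the left line
    set h : ℝ → ℝ := fun v => ‖P ((σ : ℂ) + v * I)‖ with hh
    have hhc : Continuous h := by
      rw [hh]
      exact (hPd.continuous.comp (by fun_prop)).norm
    have hgm := gauss_mean h hhc (fun v => norm_nonneg _) _ (fun v => hPn _ σ (by simp)) s.im g' hg' hm2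
    have ig : Integrable fun v : ℝ => Real.exp (-v ^ 2) := by
      simpa using integrable_exp_neg_mul_sq (b := 1) one_pos
    have i2 : Integrable fun v : ℝ => h (s.im + v) * Real.exp (-v ^ 2) := by
      refine (ig.const_mul (∑ m ∈ B, ‖a m‖ * (m : ℝ) ^ (-σ))).mono' ?_ (Filter.Eventually.of_forall fun v => ?_)
      · refine Continuous.aestronglyMeasurable ?_
        exact (hhc.comp (by fun_prop)).mul (by fun_prop)
      · rw [Real.norm_of_nonneg (mul_nonneg (norm_nonneg _) (Real.exp_pos _).le)]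
        exact mul_le_mul_of_nonneg_right (hPn _ σ (by simp)) (Real.exp_pos _).le
    have jb : ‖∫ v : ℝ, P (s + (((-b : ℝ) : ℂ) + v * I)) * cexp ((((-b : ℝ) : ℂ) + v * I) ^ 2) /
        (((-b : ℝ) : ℂ) + v * I)‖ ≤ Real.exp 1 / ε * ((1 + |s.im|) ^ 2 * g' * (1 / 2 + Γ)) := by
      calc ‖∫ v : ℝ, P (s + (((-b : ℝ) : ℂ) + v * I)) * cexp ((((-b : ℝ) : ℂ) + v * I) ^ 2) /
            (((-b : ℝ) : ℂ) + v * I)‖ ≤ ∫ v : ℝ, Real.exp 1 / ε * (h (s.im + v) * Real.exp (-v ^ 2)) := by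
            refine norm_integral_le_of_norm_le (i2.const_mul _) (Filter.Eventually.of_forall fun v => ?_)
            rw [norm_div, norm_mul, exp_sq_norm]
            have e1 : s + (((-b : ℝ) : ℂ) + v * I) = (σ : ℂ) + ((s.im + v : ℝ) : ℂ) * I := by
              apply Complex.ext
              · simp [hb]
              · simp
            have e2 : ε ≤ ‖((-b : ℝ) : ℂ) + v * I‖ := by
              have := norm_ge (-b) v
              rw [abs_neg, abs_of_pos hb0] at this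
              linarith
            have e3 : Real.exp ((-b) ^ 2 - v ^ 2) ≤ Real.exp 1 * Real.exp (-v ^ 2) := by
              rw [← Real.exp_add]
              refine Real.exp_le_exp.2 ?_
              nlinarith
            rw [e1]
            have e4 : ‖P ((σ : ℂ) + ((s.im + v : ℝ) : ℂ) * I)‖ = h (s.im + v) := rfl
            rw [e4]
            have e5 : 0 ≤ h (s.im + v) := norm_nonneg _
            calc h (s.im + v) * Real.exp ((-b) ^ 2 - v ^ 2) / ‖((-b : ℝ) : ℂ) + v * I‖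
                ≤ h (s.im + v) * (Real.exp 1 * Real.exp (-v ^ 2)) / ε :=
                  div_le_div₀ (by positivity) (mul_le_mul_of_nonneg_left e3 e5) hε e2
              _ = Real.exp 1 / ε * (h (s.im + v) * Real.exp (-v ^ 2)) := by
                  field_simp
        _ = Real.exp 1 / ε * ∫ v : ℝ, h (s.im + v) * Real.exp (-v ^ 2) := integral_const_mul _ _
        _ ≤ Real.exp 1 / ε * ((1 + |s.im|) * g' * (1 / 2 + Γ)) :=
            mul_le_mul_of_nonneg_left hgm (by positivity)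
        _ ≤ _ := by
            refine mul_le_mul_of_nonneg_left (mul_le_mul_of_nonneg_right
              (mul_le_mul_of_nonneg_right ?_ hg'.le) (by positivity)) (by positivity)
            nlinarith [abs_nonneg s.im]
    have hn : 2 * ‖κ‖ * ‖P s‖ ≤ S * E2 + Real.exp 1 / ε * ((1 + |s.im|) ^ 2 * g' * (1 / 2 + Γ)) := by
      have := congrArg norm key
      rw [norm_mul, norm_mul, Complex.norm_ofNat] at this
      rw [← this]
      exact (norm_sub_le _ _).trans (add_le_add j2 jb)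
    have hn2 : ‖P s‖ ≤ ‖κ‖⁻¹ * (S * E2 + Real.exp 1 / ε * ((1 + |s.im|) ^ 2 * g' * (1 / 2 + Γ))) := by
      rw [inv_mul_eq_div, le_div_iff₀ hκ0]
      nlinarith [norm_nonneg (P s), mul_nonneg hκ0.le (norm_nonneg (P s))]
    refine hn2.trans ?_
    set X : ℝ := (1 + |s.im|) ^ 2 * g' with hX
    have hX0 : 0 ≤ X := by positivity
    set D : ℝ := Real.exp 1 / ε * (1 / 2 + Γ) with hD
    have hD0 : 0 ≤ D := by positivity
    have hk : 0 ≤ ‖κ‖⁻¹ := by positivity
    have e1 : S * E2 + Real.exp 1 / ε * (X * (1 / 2 + Γ)) ≤ (E2 + D) * (X + S) := by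
      have : Real.exp 1 / ε * (X * (1 / 2 + Γ)) = D * X := by rw [hD]; ring
      rw [this]
      nlinarith [mul_nonneg hE20 hX0, mul_nonneg hD0 hS0]
    calc ‖κ‖⁻¹ * (S * E2 + Real.exp 1 / ε * (X * (1 / 2 + Γ))) ≤ ‖κ‖⁻¹ * ((E2 + D) * (X + S)) :=
          mul_le_mul_of_nonneg_left e1 hk
      _ = (‖κ‖⁻¹ * (E2 + D)) * (X + S) := by ring
      _ ≤ C * (X + S) := by
          refine mul_le_mul_of_nonneg_right ?_ (by positivity)
          rw [hC]
          linarith
  rcases hg.lt_or_eq with hg0 | hg0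
  · exact main g hg0 le_rfl
  · rw [← hg0, mul_zero, zero_add]
    have ht : Filter.Tendsto (fun g' : ℝ => C * ((1 + |s.im|) ^ 2 * g' + S)) (𝓝[>] 0)
        (𝓝 (C * ((1 + |s.im|) ^ 2 * 0 + S))) := by
      refine Filter.Tendsto.mono_left ?_ nhdsWithin_le_nhds
      exact (Continuous.tendsto (by fun_prop) 0)
    rw [mul_zero, zero_add] at ht
    refine ge_of_tendsto ht ?_
    filter_upwards [self_mem_nhdsWithin] with g' hg'
    exact main g' hg' (by rw [← hg0]; exact (Set.mem_Ioi.1 hg').le)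

end Pool.Agent.T2h79.LG.SHP
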