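import Pool.Agent.T2h79.LG.Main2
import Pool.Agent.T2h79.LG.T_SHP

/-!
# The theorem for the principal level
-/

set_option autoImplicit false

open MeasureTheory Matrix
open scoped MatrixGroups ENNReal Topology

noncomputable section

namespace Pool.Agent.T2h79.LG

open Pool.Agent.T2h77.N

theorem p_fin' : S_fin := p_fin (SHP.t_SHP SHF.t_SHF)

/-- the theorem for the principal level -/
theorem concl0 (n : ℕ) (hn : 3 ≤ n) :
    Concl n (fun N => (⊥ : Subgroup (GN n N))) n fun N => Nat.card (GN n N) :=
  p_fin' n hn _ n _ (by omega) (fun N => Nat.cast_nonneg _)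
    (fun N _ => ⟨by rw [Subgroup.index_bot], (SLN.t_SLN n N (by omega)).1, (SLN.t_SLN n N (by omega)).2⟩)
    (p_bl0 n (by omega)) (p_tp0 n (by omega))

end Pool.Agent.T2h79.LG
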