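import Pool.Agent.T2h79.LG.Main3
import Pool.Agent.T2h79.LG.T_EXQ

/-!
# The theorem for the level `K_1(N)`
-/

set_option autoImplicit false

open MeasureTheory Matrix
open scoped MatrixGroups ENNReal Topology

noncomputable section

namespace Pool.Agent.T2h79.LG

open Pool.Agent.T2h77.N

/-- the theorem for the level `K_1(N)` -/
theorem concl1 (n : ℕ) (hn : 3 ≤ n) : Concl n (fun N => H1 n N) 1 fun N => (N : ℝ) ^ n :=
  p_fin' n hn _ 1 _ le_rfl (fun N => by positivity)
    (fun N _ => ⟨by exact_mod_cast (p_hon n N (by omega)).1, (p_hon n N (by omega)).2.1, (p_hon n N (by omega)).2.2.1⟩)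
    (p_bl1 (EXQ.t_EXQ p_nqu p_rnu) n (by omega)) (p_tp1 n (by omega))

end Pool.Agent.T2h79.LG
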