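import Pool.Agent.T2h79.LG.Main4
import Pool.Agent.T2h79.LG.LvB
import Pool.Agent.T2h79.LG.LvC

/-!
# The law of large values and the zero density theorem
-/

set_option autoImplicit false

open MeasureTheory Matrix
open scoped MatrixGroups ENNReal Topology

noncomputable section

namespace Pool.Agent.T2h79.LG

open Pool.Agent.T2h77.N

theorem sz0 (n : ℕ) (hn : 3 ≤ n) (N : ℕ) [NeZero N] :
    (((⊥ : Subgroup (GN n N)).index : ℕ) : ℝ) ≤ (Nat.card (GN n N) : ℝ) ∧ N ≤ ixS (⊥ : Subgroup (GN n N)) ∧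
      ixS (⊥ : Subgroup (GN n N)) ≤ N ^ (n ^ 2) :=
  ⟨by rw [Subgroup.index_bot], (SLN.t_SLN n N (by omega)).1, (SLN.t_SLN n N (by omega)).2⟩

theorem sz1 (n : ℕ) (hn : 3 ≤ n) (N : ℕ) [NeZero N] :
    (((H1 n N).index : ℕ) : ℝ) ≤ (N : ℝ) ^ n ∧ N ≤ ixS (H1 n N) ∧ ixS (H1 n N) ≤ N ^ (n ^ 2) :=
  ⟨by exact_mod_cast (p_hon n N (by omega)).1, (p_hon n N (by omega)).2.1, (p_hon n N (by omega)).2.2.1⟩

/-- the law of large values, principal level -/
theorem large0 (n : ℕ) (hn : 3 ≤ n) :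
    LV.ConclL n (fun N => (⊥ : Subgroup (GN n N))) n fun N => Nat.card (GN n N) :=
  LV.main p_afe p_fac DYA.t_DYA p_hih p_trh n hn _ n _ (by omega) (fun N => Nat.cast_nonneg _)
    (fun N _ => sz0 n hn N) (p_bl0 n (by omega))

/-- the law of large values, level `K_1(N)` -/
theorem large1 (n : ℕ) (hn : 3 ≤ n) : LV.ConclL n (fun N => H1 n N) 1 fun N => (N : ℝ) ^ n :=
  LV.main p_afe p_fac DYA.t_DYA p_hih p_trh n hn _ 1 _ le_rfl (fun N => by positivity)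
    (fun N _ => sz1 n hn N) (p_bl1 (EXQ.t_EXQ p_nqu p_rnu) n (by omega))

/-- the zero density theorem, principal level -/
theorem zero0 (n : ℕ) (hn : 3 ≤ n) :
    ZD.ConclZ n (fun N => (⊥ : Subgroup (GN n N))) n fun N => Nat.card (GN n N) :=
  ZD.main p_afe p_fac DYA.t_DYA p_qu2 p_qu3 (p_det (SHP.t_SHP SHF.t_SHF)) p_hih p_trh n hn _ n _ (by omega)
    (fun N => Nat.cast_nonneg _) (fun N _ => sz0 n hn N) (p_bl0 n (by omega)) (p_tp0 n (by omega))

/-- the zero density theorem, level `K_1(N)` -/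
theorem zero1 (n : ℕ) (hn : 3 ≤ n) : ZD.ConclZ n (fun N => H1 n N) 1 fun N => (N : ℝ) ^ n :=
  ZD.main p_afe p_fac DYA.t_DYA p_qu2 p_qu3 (p_det (SHP.t_SHP SHF.t_SHF)) p_hih p_trh n hn _ 1 _ le_rfl
    (fun N => by positivity) (fun N _ => sz1 n hn N) (p_bl1 (EXQ.t_EXQ p_nqu p_rnu) n (by omega)) (p_tp1 n (by omega))

end Pool.Agent.T2h79.LG
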