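import Pool.Agent.T2h79.LG.AslB
import Pool.Agent.T2h79.LG.Stm4

/-!
# Project LG: tasks QU2, QU3, common part
-/

set_option autoImplicit false

open MeasureTheory Matrix
open scoped MatrixGroups ENNReal Topology

noncomputable section

namespace Pool.Agent.T2h79.LG.QuA

open Pool.Agent.T2h77.N Pool.Agent.T2h79.LG.ASL

/-- the dyadic blocks of a finite set -/
def Dy (E : Finset ℕ) (j : ℕ) : Finset ℕ := E.filter fun m => Nat.log 2 m = j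

theorem mem_Dy {E : Finset ℕ} {j m : ℕ} (hE : ∀ m ∈ E, 0 < m) (hm : m ∈ Dy E j) :
    m ∈ E ∧ 2 ^ j ≤ m ∧ m < 2 ^ (j + 1) := by
  obtain ⟨h1, h2⟩ := Finset.mem_filter.1 hm
  refine ⟨h1, ?_, ?_⟩
  · rw [← h2]
    exact Nat.pow_log_le_self 2 (hE m h1).ne'
  · rw [← h2]
    exact Nat.lt_pow_succ_log_self (by norm_num) m

theorem card_Dy {E : Finset ℕ} (j : ℕ) (hE : ∀ m ∈ E, 0 < m) : (Dy E j).card ≤ 2 ^ j := by
  have : Dy E j ⊆ Finset.Ico (2 ^ j) (2 ^ (j + 1)) := by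
    intro m hm
    obtain ⟨-, h1, h2⟩ := mem_Dy hE hm
    exact Finset.mem_Ico.2 ⟨h1, h2⟩
  refine (Finset.card_le_card this).trans ?_
  rw [Nat.card_Ico, pow_succ]
  omega

/-- a sum over a block with weights `1 / m` -/
theorem blk_le {E : Finset ℕ} (j : ℕ) (hE : ∀ m ∈ E, 0 < m) (w : ℕ → ℝ) (W : ℝ) (hW : 0 ≤ W)
    (h : ∀ m ∈ E, w m ≤ (m : ℝ)⁻¹ * W) : ∑ m ∈ Dy E j, w m ≤ W := by
  have h1 : ∀ m ∈ Dy E j, w m ≤ ((2 : ℝ) ^ j)⁻¹ * W := by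
    intro m hm
    obtain ⟨h1, h2, -⟩ := mem_Dy hE hm
    have h3 : (2 : ℝ) ^ j ≤ m := by exact_mod_cast h2
    exact (h m h1).trans (mul_le_mul_of_nonneg_right (inv_anti₀ (by positivity) h3) hW)
  calc _ ≤ ∑ m ∈ Dy E j, ((2 : ℝ) ^ j)⁻¹ * W := Finset.sum_le_sum h1
    _ = (Dy E j).card * (((2 : ℝ) ^ j)⁻¹ * W) := by rw [Finset.sum_const, nsmul_eq_mul]
    _ ≤ (2 : ℝ) ^ j * (((2 : ℝ) ^ j)⁻¹ * W) := by
        refine mul_le_mul_of_nonneg_right ?_ (by positivity)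
        exact_mod_cast card_Dy j hE
    _ = W := by rw [← mul_assoc, mul_inv_cancel₀ (by positivity), one_mul]

/-- splitting into blocks -/
theorem split (E : Finset ℕ) (J : ℕ) (hJ : ∀ m ∈ E, m < 2 ^ J) (hE : ∀ m ∈ E, 0 < m) (z : ℕ → ℂ) :
    ‖∑ m ∈ E, z m‖ ^ 2 ≤ J * ∑ j ∈ Finset.range J, ‖∑ m ∈ Dy E j, z m‖ ^ 2 := by
  have h1 : ∑ j ∈ Finset.range J, ∑ m ∈ Dy E j, z m = ∑ m ∈ E, z m :=
    Finset.sum_fiberwise_of_maps_to (g := fun m => Nat.log 2 m) (fun m hm =>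
      Finset.mem_range.2 (Nat.log_lt_of_lt_pow (hE m hm).ne' (hJ m hm))) z
  rw [← h1]
  calc _ ≤ (∑ j ∈ Finset.range J, ‖∑ m ∈ Dy E j, z m‖) ^ 2 :=
        pow_le_pow_left₀ (norm_nonneg _) (norm_sum_le _ _) 2
    _ ≤ (Finset.range J).card * ∑ j ∈ Finset.range J, ‖∑ m ∈ Dy E j, z m‖ ^ 2 :=
        sq_sum_le_card_mul_sum_sq
    _ = _ := by rw [Finset.card_range]

/-- the conclusion for one level -/
def Core (n : ℕ) (H : (N : ℕ) → Subgroup (GN n N)) (sz : ℕ → ℝ) (χ : GR n → ℝ) (κ₀ η₁ : ℝ) : Prop :=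
  ∀ ε₁ η C₁ : ℝ, 0 < ε₁ → 0 < η → η ≤ η₁ → 1 ≤ C₁ → ∃ (C : ℝ) (N₀ : ℕ), 1 ≤ C ∧
    ∀ (N : ℕ) [NeZero N] (F : Set (GR n)), N₀ ≤ N → IsFD F →
    ∀ (k : ℕ) (f : Fin k → GR n → XX (H N) → ℂ), Fam F f →
      (∀ i, ENNReal.ofReal (1 / 8) ≤
        ∫⁻ g in F ∩ sat (SL n (C₁ * (N : ℝ) ^ η)), sq (Rc χ (f i)) g ∂(mu n)) →
      ∀ (E : Finset ℕ) (a : ℕ → ℂ) (σ W₀ : ℝ) (Bd : ℕ → ℝ) (c : ℕ → Fin k → ℂ) (Q : Finset (Fin k)),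
        (∀ m ∈ E, 0 < m ∧ (m : ℝ) ≤ (N : ℝ) ^ κ₀ ∧ m.Coprime N) → (∀ m ∈ E, 0 ≤ Bd m ∧ Rp f m (Bd m) (c m)) →
        0 ≤ W₀ → (∀ j, ∑ m ∈ Dy E j, (‖a m‖ * (m : ℝ) ^ (-σ)) ^ 2 * Bd m ≤ W₀) →
        ∑ i ∈ Q, ∫ v : ℝ, (1 + v ^ 2)⁻¹ * ‖∑ m ∈ E, a m * c m i * (m : ℂ) ^ (-pt σ v)‖ ^ 2 ≤
          C * sz N * (N : ℝ) ^ ε₁ * W₀

theorem core (hL : S_lst) (n : ℕ) (hn : 1 ≤ n) (H : (N : ℕ) → Subgroup (GN n N)) (sz : ℕ → ℝ)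
    (hsz : ∀ N, 0 ≤ sz N) (hTP : TP n H sz) (χ : GR n → ℝ) (hχ : Continuous χ) (hχc : HasCompactSupport χ) :
    ∃ κ₀ η₁ : ℝ, 0 < κ₀ ∧ 0 < η₁ ∧ κ₀ ≤ 1 / 4 ∧ Core n H sz χ κ₀ η₁ := by
  obtain ⟨C₀, K, hC₀, hlst⟩ := hL n hn H sz hsz hTP χ hχ hχc
  set κ₀ : ℝ := 1 / (4 * ((K : ℝ) + 1)) with hκ
  have hK0 : (0 : ℝ) ≤ K := Nat.cast_nonneg K
  have hκ0 : 0 < κ₀ := by positivity
  have hκK : κ₀ * K ≤ 1 / 4 := by
    rw [hκ, one_div, inv_mul_le_iff₀ (by positivity)]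
    linarith
  have hκ4 : κ₀ ≤ 1 / 4 := by
    rw [hκ]
    exact one_div_le_one_div_of_le (by norm_num) (by linarith)
  refine ⟨κ₀, κ₀, hκ0, hκ0, hκ4, fun ε₁ η C₁ hε₁ hη hηκ hC₁ => ?_⟩
  set e : ℝ := min ε₁ (1 / 2) with he
  have he0 : 0 < e := lt_min hε₁ (by norm_num)
  obtain ⟨A₂, hA₂, hnum⟩ := num_log n (le_refl (1 : ℝ)) hC₁ he0 (min_le_right _ _) hη (by linarith)
  have hpi := Real.pi_gt_three
  have hB1 : 1 ≤ C₀ * C₁ ^ K := one_le_mul_of_one_le_of_one_le hC₀ (one_le_pow₀ hC₁)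
  refine ⟨Real.pi * 8 * C₀ * A₂, ⌈(C₀ * C₁ ^ K) ^ 2⌉₊, ?_, ?_⟩
  · have h1 : 1 ≤ Real.pi * 8 := by linarith
    exact one_le_mul_of_one_le_of_one_le (one_le_mul_of_one_le_of_one_le h1 hC₀) hA₂
  intro N _ F hNN hF k f hf hmass E a σ W₀ Bd c Q hE hBd hW₀ hblk
  have hNr : (C₀ * C₁ ^ K) ^ 2 ≤ (N : ℝ) := (Nat.le_ceil _).trans (by exact_mod_cast hNN)
  have hN1 : (1 : ℝ) ≤ N := by exact_mod_cast NeZero.one_le
  have hN0 : (0 : ℝ) < N := by linarith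
  set Y : ℝ := C₁ * (N : ℝ) ^ η with hY
  have hY1 : 1 ≤ Y := one_le_mul_of_one_le_of_one_le hC₁ (Real.one_le_rpow hN1 hη.le)
  set X : ℝ := (N : ℝ) ^ κ₀ with hX
  have hX1 : 1 ≤ X := Real.one_le_rpow hN1 hκ0.le
  have hE0 : ∀ m ∈ E, 0 < m := fun m hm => (hE m hm).1
  -- the condition
  have hcond : C₀ * (X * Y) ^ K ≤ N := by
    have e1 : (X * Y) ^ K = C₁ ^ K * (N : ℝ) ^ ((κ₀ + η) * K) := by
      rw [hX, hY]
      have : (N : ℝ) ^ κ₀ * (C₁ * (N : ℝ) ^ η) = C₁ * (N : ℝ) ^ (κ₀ + η) := by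
        rw [Real.rpow_add hN0]
        ring
      rw [this, mul_pow, ← Real.rpow_natCast ((N : ℝ) ^ (κ₀ + η)), ← Real.rpow_mul hN0.le]
    have h2 : (κ₀ + η) * K ≤ 1 / 2 := by nlinarith
    have h3 : C₀ * C₁ ^ K ≤ (N : ℝ) ^ (1 / 2 : ℝ) := by
      rw [← Real.sqrt_eq_rpow]
      exact Real.le_sqrt_of_sq_le hNr
    rw [e1, ← mul_assoc]
    calc _ ≤ (N : ℝ) ^ (1 / 2 : ℝ) * (N : ℝ) ^ (1 / 2 : ℝ) :=
          mul_le_mul h3 (Real.rpow_le_rpow_of_exponent_le hN1 h2) (by positivity) (by positivity)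
      _ = N := by
          rw [← Real.rpow_add hN0]
          norm_num
  obtain ⟨J₀, hJ₀, hJ₀'⟩ := exists_nat_pow_near hX1 (by norm_num : (1 : ℝ) < 2)
  set J : ℕ := J₀ + 1 with hJ
  have hJX : (2 : ℝ) ^ J ≤ 2 * X := by
    rw [hJ, pow_succ]
    linarith
  have hEJ : ∀ m ∈ E, m < 2 ^ J := by
    intro m hm
    have : (m : ℝ) < (2 : ℝ) ^ J := lt_of_le_of_lt (hE m hm).2.1 hJ₀'
    exact_mod_cast this
  set W : ℝ := C₀ * sz N * (1 + Real.log Y) ^ n * W₀ with hW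
  have hlY : 0 ≤ Real.log Y := Real.log_nonneg hY1
  have hszN := hsz N
  have hW0 : 0 ≤ W := by positivity
  have hblock : ∀ (j : ℕ) (v : ℝ), ∑ i ∈ Q, ‖∑ m ∈ Dy E j, a m * c m i * (m : ℂ) ^ (-pt σ v)‖ ^ 2 ≤ 8 * W := by
    intro j v
    have h1 := hlst N F hF k f hf.1 hf.2.1 hf.2.2 X Y (Dy E j) (fun m => a m * (m : ℂ) ^ (-pt σ v)) Bd c hX1 hY1
      hcond (fun m hm => hE m (mem_Dy hE0 hm).1) (fun m hm m' hm' => by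
        have h2 := (mem_Dy hE0 hm).2.1
        have h3 := (mem_Dy hE0 hm').2.2
        rw [pow_succ] at h3
        omega) (fun m hm => hBd m (mem_Dy hE0 hm).1)
    refine real_of_mass Q (fun i => ∑ m ∈ Dy E j, a m * c m i * (m : ℂ) ^ (-pt σ v)) _ W ?_ (fun i _ => hmass i) hW0
    refine le_trans (le_of_eq ?_) (h1.trans (ENNReal.ofReal_le_ofReal ?_))
    · refine Finset.sum_congr rfl fun i _ => ?_
      congr 3
      exact Finset.sum_congr rfl fun m _ => by ring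
    · refine mul_le_mul_of_nonneg_left (le_trans (le_of_eq ?_) (hblk j)) (by positivity)
      refine Finset.sum_congr rfl fun m hm => ?_
      rw [norm_mul, nrm_pow (hE0 m (mem_Dy hE0 hm).1)]
  have hpt : ∀ v : ℝ, ∑ i ∈ Q, ‖∑ m ∈ E, a m * c m i * (m : ℂ) ^ (-pt σ v)‖ ^ 2 ≤ J * (J * (8 * W)) := by
    intro v
    calc _ ≤ ∑ i ∈ Q, (J * ∑ j ∈ Finset.range J, ‖∑ m ∈ Dy E j, a m * c m i * (m : ℂ) ^ (-pt σ v)‖ ^ 2) :=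
          Finset.sum_le_sum fun i _ => split E J hEJ hE0 _
      _ = J * ∑ j ∈ Finset.range J, ∑ i ∈ Q, ‖∑ m ∈ Dy E j, a m * c m i * (m : ℂ) ^ (-pt σ v)‖ ^ 2 := by
          rw [← Finset.mul_sum, Finset.sum_comm]
      _ ≤ J * ∑ j ∈ Finset.range J, 8 * W :=
          mul_le_mul_of_nonneg_left (Finset.sum_le_sum fun j _ => hblock j v) (Nat.cast_nonneg _)
      _ = _ := by rw [Finset.sum_const, Finset.card_range, nsmul_eq_mul]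
  have hint := sum_int Q (fun i v => ‖∑ m ∈ E, a m * c m i * (m : ℂ) ^ (-pt σ v)‖ ^ 2) (J * (J * (8 * W)))
      (fun i _ => integrable_sq E (fun m => a m * c m i) σ hE0) hpt
  refine hint.trans ?_
  have hJ2 : (2 : ℝ) ^ J ≤ 2 * (1 * (N : ℝ) ^ n) ^ (1 / 2 + e) := by
    refine hJX.trans (mul_le_mul_of_nonneg_left ?_ (by norm_num))
    rw [one_mul, ← Real.rpow_natCast (N : ℝ) n, ← Real.rpow_mul hN0.le]
    refine Real.rpow_le_rpow_of_exponent_le hN1 ?_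
    have : (1 : ℝ) ≤ n := by exact_mod_cast hn
    nlinarith
  have hlog := hnum N J hN1 hJ2
  have hNe : (N : ℝ) ^ e ≤ (N : ℝ) ^ ε₁ := Real.rpow_le_rpow_of_exponent_le hN1 (min_le_left _ _)
  have hA₂0 : 0 < A₂ := by linarith
  have hC₀0 : 0 < C₀ := by linarith
  have e3 : Real.pi * ((J : ℝ) * (J * (8 * W))) =
      Real.pi * 8 * C₀ * sz N * W₀ * ((J : ℝ) * J * (1 + Real.log Y) ^ n) := by
    rw [hW]
    ring
  rw [e3]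
  calc _ ≤ Real.pi * 8 * C₀ * sz N * W₀ * (A₂ * (N : ℝ) ^ ε₁) :=
        mul_le_mul_of_nonneg_left (hlog.trans (mul_le_mul_of_nonneg_left hNe hA₂0.le)) (by positivity)
    _ = _ := by ring

end Pool.Agent.T2h79.LG.QuA
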