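import Pool.Agent.T2h79.LG.Defs

/-!
# The Lindelöf bound for almost all cusp forms of `GL_n` of principal level: statements of the steps

Every step is a `Prop`; the tasks are to prove them (inputs are hypotheses). Notation: `|v|` is the maximum of the
absolute values of the entries. Constants may depend on everything quantified before them only.
-/

set_option autoImplicit false

open MeasureTheory Matrix
open scoped MatrixGroups ENNReal Topology ComplexConjugate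

noncomputable section

namespace Pool.Agent.T2h79.LG

open Pool.Agent.T2h77.N

/-! ### Part A: lattices -/

/-- REPG: representatives of the integral matrices of determinant `m`, for every `m ≥ 1`.

Proof. As in `Pool.Agent.T2h77N.Reps` (`S_reps`, prime powers): by `hnf` every orbit contains a lower triangular
matrix with the positive diagonal `(d_0, ..., d_{n-1})`, `∏ d_i = m`, and entries `0 ≤ h_ij < d_j` for `j < i`; the
number of these for a given diagonal is `∏_j d_j ^ (n-1-j) ≤ ∏_j d_j ^ (n-1) = m ^ (n-1)`, and the number of the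
diagonals is at most `τ(m) ^ n ≤ C m ^ ε` (all `d_i` divide `m`; `τ(m) ≤ C_ε m ^ ε` is in many files of the library,
grep for `card_divisors_le` or similar). (If the unit determinant of `γ` in `hnf` is `-1`, it is excluded since both
determinants are positive.) -/
def S_repG : Prop :=
  ∀ n : ℕ, 1 ≤ n → ∀ ε : ℝ, 0 < ε → ∃ C : ℝ, 1 ≤ C ∧ ∀ m : ℕ, 0 < m → ∃ R : Finset (MZ n),
    IsReps (m : ℤ) R ∧ (R.card : ℝ) ≤ C * (m : ℝ) ^ ((n : ℝ) - 1 + ε)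

/-- REPU: two systems of representatives have the same number of elements. Proof: map `β ∈ R` to the unique
`r ∈ R'` with `β = γ r`; injective by the uniqueness for `R`. -/
def S_repU : Prop :=
  ∀ (n : ℕ) (m : ℤ) (R R' : Finset (MZ n)), IsReps m R → IsReps m R' → R.card = R'.card

/-- IDX: a subgroup of finite index `d` of `ℤ^ρ` is the row lattice of an integral matrix of determinant `d`.

Proof. Mathlib has bases of submodules of finite free modules over a PID (`Submodule.smithNormalForm`,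
`Module.Basis`), and index equals the absolute value of the determinant (grep `natAbs_det`, for instance
`Submodule.natAbs_det_equiv`, `AddSubgroup.index_...`); or by induction on `ρ` directly: the projection of `K` to the
last coordinate is `a ℤ`, `a ≥ 1`, choose `v ∈ K` over `a`, the kernel is `K' × 0`, `K' ≤ ℤ^(ρ-1)` of index `d / a`.
Change the sign of a row to make the determinant positive (for `ρ = 0` the index and the determinant are 1). -/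
def S_idx : Prop :=
  ∀ (ρ : ℕ) (K : AddSubgroup (Fin ρ → ℤ)), K.index ≠ 0 →
    ∃ B : MZ ρ, B.det = (K.index : ℤ) ∧ ∀ v : Fin ρ → ℤ, v ∈ K ↔ ∃ c : Fin ρ → ℤ, v = c ᵥ* B

/-- IDY: the index of the row lattice of an integral matrix is the absolute value of its determinant. (See IDX.) -/
def S_idy : Prop :=
  ∀ (ρ : ℕ) (B : MZ ρ) (K : AddSubgroup (Fin ρ → ℤ)), B.det ≠ 0 →
    (∀ v : Fin ρ → ℤ, v ∈ K ↔ ∃ c : Fin ρ → ℤ, v = c ᵥ* B) → (K.index : ℤ) = |B.det|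

/-- DUA: `[ℤ^n : L_q] = [ℤ^ρ : K_q]`, and it is finite.

Proof. If `D ≥ 1` is a common denominator of the entries of `q`, then `D ℤ^ρ ⊆ K_q`, so the index is finite
(nonzero); same for `L_q = KK qᵀ`. The pairing `(v, c) ↦ exp(2 π i ∑ v_i q_ij c_j)` is biadditive on `ℤ^n × ℤ^ρ`
and trivial on `L_q × ℤ^ρ` and `ℤ^n × K_q`; if it is trivial at `v` for all `c` then `v ∈ L_q` (take unit vectors;
`exp(2 π i x) = 1` iff `x ∈ ℤ`). So `ℤ^n / L_q` injects into the additive characters of the finite group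
`ℤ^ρ / K_q`, whose number is the order of the group (`AddChar.card_eq`); by symmetry (`q ↦ qᵀ`) equality. -/
def S_dua : Prop :=
  ∀ (n ρ : ℕ) (q : Matrix (Fin n) (Fin ρ) ℚ), (KK q).index ≠ 0 ∧ (LL q).index = (KK q).index

/-- KNU: the number of the subgroups of index `d` of `ℤ^ρ`.

Proof (from REPG, IDX). Let `R` be representatives of determinant `d`. Map `K` to the `r ∈ R` with `B = γ r`, `B` from
IDX. As `γ` is invertible over `ℤ`, `K` is the row lattice of `r`, so the map is injective. -/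
def S_knu : Prop :=
  ∀ ρ : ℕ, 1 ≤ ρ → ∀ ε : ℝ, 0 < ε → ∃ C : ℝ, 1 ≤ C ∧ ∀ d : ℕ, 0 < d →
    {K : AddSubgroup (Fin ρ → ℤ) | K.index = d}.Finite ∧
      (({K : AddSubgroup (Fin ρ → ℤ) | K.index = d}.ncard : ℕ) : ℝ) ≤ C * (d : ℝ) ^ ((ρ : ℝ) - 1 + ε)

/-- RNU: the number of the `β ∈ R` with `β q` integral.

Proof (from REPG, REPU, IDX, IDY, DUA). Let `d = [ℤ^n : L_q]`, and let `B` be the matrix of `L_q` of IDX, `det B = d`.
`β q` is integral iff all rows of `β` are in `L_q` iff `β = β₁ B` with `β₁` integral. Then `det β₁ = m / d`, so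
`d ∣ m`. Let `R₁` be representatives of determinant `m / d` (REPG); map `β` to the `r₁ ∈ R₁` with `β₁ = γ r₁`. If `β`,
`β'` have the same `r₁` then `β = γ γ'⁻¹ β'`, so `β = β'` by the uniqueness in `IsReps`. So the number is at most
`R₁.card`. (The case without any such `β` is trivial.) -/
def S_rnu : Prop :=
  ∀ n : ℕ, 1 ≤ n → ∀ ε : ℝ, 0 < ε → ∃ C : ℝ, 1 ≤ C ∧ ∀ (m : ℕ) (R : Finset (MZ n)), 0 < m → IsReps (m : ℤ) R →
    ∀ (ρ : ℕ) (q : Matrix (Fin n) (Fin ρ) ℚ),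
      (∀ β ∈ R, Itg β q → (KK q).index ∣ m) ∧
      (({β : MZ n | β ∈ R ∧ Itg β q}.ncard : ℕ) : ℝ) ≤ C * ((m : ℝ) / (KK q).index) ^ ((n : ℝ) - 1 + ε)

/-- BOX: points of the dual lattice of `K` in a box which contains `ρ` independent ones.

Proof (from IDX, IDY). Let `K* = {y ∈ ℚ^ρ : y · c ∈ ℤ for all c ∈ K}` and let `B` be the matrix of `K` (IDX): `y ∈ K*`
iff `B y ∈ ℤ^ρ`. The set `S` of the points of `K*` in the box is finite (`y = B⁻¹ z`, `z = B y` integral and bounded).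
Choose a `ρ`-tuple `y_1, ..., y_ρ` in `S` with maximal `|det|`, which is nonzero by assumption. By Cramer's rule and
maximality every `z ∈ S` is `∑ t_j y_j` with `|t_j| ≤ 1`. Let `Z` be the integral matrix with the columns `B y_j`,
`|det Z| = d |det (y)| ≤ d ρ! ∏ s_j` (`d` the index of `K`; every term of the determinant is at most `∏ s_j`). Let
`z, z' ∈ S` be congruent modulo the lattice of the `y_j`, i.e. `B z` and `B z'` are congruent modulo the column lattice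
of `Z`: then the `t_j` differ by integers. Given the class, each `t_j ∈ [-1, 1]` takes at most 3 values. So
`|S| ≤ 3^ρ |det Z|` (IDY for the transpose of `Z`). -/
def S_box : Prop :=
  ∀ ρ : ℕ, ∃ C : ℝ, 1 ≤ C ∧ ∀ (K : AddSubgroup (Fin ρ → ℤ)) (s : Fin ρ → ℝ), K.index ≠ 0 → (∀ j, 0 < s j) →
    ∀ S : Set (Fin ρ → ℚ), (∀ y, y ∈ S ↔ (∀ c ∈ K, ∃ z : ℤ, ∑ j, y j * (c j : ℚ) = z) ∧ ∀ j, |((y j : ℚ) : ℝ)| ≤ s j) →
      S.Finite ∧ ((∃ y : Fin ρ → Fin ρ → ℚ, LinearIndependent ℚ y ∧ ∀ i, y i ∈ S) →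
        ((S.ncard : ℕ) : ℝ) ≤ C * K.index * ∏ j, s j)

/-- NQU: the number of the matrices `q` with `[ℤ^ρ : K_q] = d`, independent columns and `|q_ij| ≤ s_j`.

Proof (from KNU, BOX, DUA). Given `K = K_q`, all the rows `q_i` of `q` are in the set `S` of BOX (`q_i · c ∈ ℤ` for
`c ∈ K_q`), and `ρ` of the rows are independent (the rank of `q` is `ρ`); so there are at most
`|S|^n ≤ (C d ∏ s_j)^n` such `q` for this `K` (if there is one at all), and there are at most `C d^(ρ-1+ε)` subgroups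
`K` of index `d`. -/
def S_nqu : Prop :=
  ∀ n ρ : ℕ, 1 ≤ ρ → ∀ ε : ℝ, 0 < ε → ∃ C : ℝ, 1 ≤ C ∧ ∀ (d : ℕ) (s : Fin ρ → ℝ), 0 < d → (∀ j, 0 < s j) →
    ∀ Q : Set (Matrix (Fin n) (Fin ρ) ℚ),
      (∀ q, q ∈ Q ↔ (LinearIndependent ℚ fun j => fun i => q i j) ∧ (KK q).index = d ∧
        ∀ i j, |((q i j : ℚ) : ℝ)| ≤ s j) →
      Q.Finite ∧ ((Q.ncard : ℕ) : ℝ) ≤ C * (d : ℝ) ^ ((ρ : ℝ) - 1 + ε) * ((d : ℝ) * ∏ j, s j) ^ n

/-- SHO: the points of the lattice `β⁻¹ ℤ^n` in a cube are controlled by short independent ones.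

Proof (from RED, i.e. `S_red`, and `S_iw`). Let `m = det β` and `x = m^(1/n) (β⁻¹)ᵀ ∈ SL_n(ℝ)`: the rows of `x` are
`m^(1/n)` times the columns of `β⁻¹`, and `w ↦ β⁻¹ w = m^(-1/n) wᵀ x`. Choose `γ` with `y = γ x ∈ SG n`. Let
`b_i = row i of m^(-1/n) y`, a basis of the lattice `β⁻¹ ℤ^n`, `b_i = β⁻¹ (γᵀ e_i)` so `β b_i` is integral; let
`b_i* = m^(-1/n) gsv_i(y)`, `|b_i*|₂ = m^(-1/n) ac y i`. For `j < i` we have `ac y j ≤ 2^(i-j) ac y i` and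
`0 ≤ lc < 1`, so `|b_i|₂ ≤ C |b_i*|₂`. If `v = ∑ c_i b_i`, `c ∈ ℤ^n`, `|v| ≤ r`, then `|v|₂ ≤ √n r`; for `i` from `n-1`
down to `0`: `⟨v, b_i*⟩ / |b_i*|² = c_i + ∑_{l > i} c_l lc y l i` has absolute value at most `√n r / |b_i*|`, so given
`c_l`, `l > i`, there are at most `1 + 2 √n r / |b_i*|` values of `c_i`. So
`av β r ≤ ∏_i (1 + 2 √n r / |b_i*|) ≤ C ∏_{i ∈ I} (r / |b_i*|)`, where `I = {i : |b_i*| ≤ r}` and for `i ∉ I` the
factor is at most `1 + 2 √n`. For `i ∈ I`: `|b_i| ≤ |b_i|₂ ≤ C |b_i*| ≤ C r` and `r / |b_i*| ≤ C r / |b_i|`. Take `q` with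
the columns `b_i`, `i ∈ I` (`Finset.orderIsoOfFin`); `ρ = |I|`; the bound `z j` is `|b_i|`. The columns are rational:
`b_i = β⁻¹ (γᵀ e_i)` (`(β.map (Int.cast : ℤ → ℚ))⁻¹`). -/
def S_sho : Prop :=
  ∀ n : ℕ, 1 ≤ n → ∃ C : ℝ, 1 ≤ C ∧ ∀ (β : MZ n) (r : ℝ), 0 < β.det → 0 < r →
    ∃ (ρ : ℕ) (q : Matrix (Fin n) (Fin ρ) ℚ) (z : Fin ρ → ℝ), ρ ≤ n ∧
      (LinearIndependent ℚ fun j => fun i => q i j) ∧ Itg β q ∧
      (∀ j, 0 < z j ∧ z j ≤ C * r ∧ (∀ i, |((q i j : ℚ) : ℝ)| ≤ z j) ∧ ∃ i, |((q i j : ℚ) : ℝ)| = z j) ∧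
      (av β r : ℝ) ≤ C * ∏ j, (r / z j)

/-- AVG: the average over the lattices.

Proof (from SHO, NQU, RNU, REPG, REPU). Let `ε' = ε / 4`. For `β ∈ R` take `ρ`, `q`, `z` from SHO. If `ρ = 0` then
`av ≤ C`, and `R.card ≤ C m^(n-1+ε')`. For `ρ ≥ 1`: `m q` is integral and nonzero in every column (`β q` is integral,
`m q = adj(β) (β q)`), so `1/m ≤ z_j ≤ C r`; let `l_j ≥ 0` be the integer with `C r 2^(-l_j-1) < z_j ≤ C r 2^(-l_j) = s_j`;
since `r ≤ 1` (from `m r^n ≤ 1`, `m ≥ 1`), `2^(l_j) ≤ C m`, so there are at most `(1 + log₂ (C m))^ρ ≤ C' m^ε'` vectors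
`l`. Let `d = (KK q).index`, which divides `m` (RNU). For given `ρ`, `d`, `l` the number of the `β` is at most
`∑_q #{β ∈ R : β q integral} ≤ C d^(ρ-1+ε') (d ∏ s_j)^n (m / d)^(n-1+ε')` (NQU, RNU), and for each of them
`av^n ≤ C ∏ (r / z_j)^n ≤ C ∏ (2 r / s_j)^n`. The product is at most
`C m^(n-1+ε') d^(ρ-1+ε') d^n d^(-(n-1+ε')) r^(ρ n) = C m^(n-1+ε') (d r^n)^ρ ≤ C m^(n-1+ε')`, because `d ≤ m` and
`m r^n ≤ 1`. Sum over the `d ∣ m` (at most `C m^ε'`), `ρ ≤ n` and `l`. -/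
def S_avg : Prop :=
  ∀ n : ℕ, 1 ≤ n → ∀ ε : ℝ, 0 < ε → ∃ C : ℝ, 1 ≤ C ∧ ∀ (m : ℕ) (R : Finset (MZ n)), 0 < m → IsReps (m : ℤ) R →
    ∀ r : ℝ, 0 < r → (m : ℝ) * r ^ n ≤ 1 → ∑ β ∈ R, (av β r : ℝ) ^ n ≤ C * (m : ℝ) ^ ((n : ℝ) - 1 + ε)

/-! ### Part B: the large sieve inequality -/

/-- TRW: the trace inequality with coefficients.

Proof: as `S_trace` in `Pool.Agent.T2h77N.Trace` (Bessel's inequality and the Cauchy-Schwarz inequality for the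
automorphic kernel), with the kernel `∑_{β ∈ T} ∑_{γ ∈ SL_n(ℤ)} conj (a β) χ(g⁻¹ scl(β)⁻¹ γ x) [rdM β • c = rdM γ • c']`
at `(x, c')`; its square is integrated by unfolding, `χ (g⁻¹ scl(β)⁻¹ y)` and `χ (g⁻¹ scl(β')⁻¹ γ y)` are both nonzero
only if `g⁻¹ scl(β)⁻¹ γ⁻¹ scl(β') g` lies in the compact set `supp χ · (supp χ)⁻¹`. -/
def S_trw : Prop :=
  ∀ (n : ℕ) (χ : GR n → ℝ), Continuous χ → HasCompactSupport χ → ∃ M C : ℝ, 0 < C ∧
    ∀ (N : ℕ) [NeZero N] (H : Subgroup (GN n N)) (F : Set (GR n)), IsFD F →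
    ∀ (k : ℕ) (f : Fin k → GR n → XX H → ℂ), (∀ i, IsForm H (f i)) → (∀ i, IsL2 F (f i)) →
    (∀ i j, ip F (f i) (f j) = if i = j then 1 else 0) →
    ∀ (T : Finset (MZ n)) (a : MZ n → ℂ), (∀ β ∈ T, 0 < β.det ∧ IsUnit ((β.det : ℤ) : ZMod N)) →
    ∀ (g : GR n) (c : XX H),
      ∑ i, ‖∑ β ∈ T, a β * Rc χ (f i) (scl β * g) (rdM N β • c)‖ₑ ^ 2 ≤
        ENNReal.ofReal (C * ∑ β ∈ T, ∑ β' ∈ T, ‖a β‖ * ‖a β'‖ * (Nat.card (pr M g c β β') : ℝ))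

/-- SYM: finiteness and symmetry of the counts.

Proof. `scl (γ β') = io γ * scl β'` (`scl_io_mul` in `Trace.lean`); the set is finite because `io γ` runs through a
compact set (`finite_io` in `Fund.lean`, `isCompact_bdd` in `Trace.lean`). If `γ ∈ pr M g c β β'` then
`γ⁻¹ ∈ pr M' g c β' β`: the matrix is replaced by its inverse, `inv_bound` in `Count.lean` (for `max M 1`), and
`rdM (γ β') = rdM γ * rdM β'` (`rdM_io_mul`). -/
def S_sym : Prop :=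
  ∀ (n : ℕ) (M : ℝ), ∃ M' : ℝ, ∀ (N : ℕ) [NeZero N] (H : Subgroup (GN n N)) (g : GR n) (c : XX H) (β β' : MZ n),
    0 < β.det → IsUnit ((β.det : ℤ) : ZMod N) → 0 < β'.det → IsUnit ((β'.det : ℤ) : ZMod N) →
      (pr M g c β β').Finite ∧ Nat.card (pr M g c β β') ≤ Nat.card (pr M' g c β' β)

/-- CNT: the counts at the points of bounded height, at principal level.

Proof (from `S_iw`, `S_ent`, SYM). Let `γ ∈ pr M x c β β'` and `β'' = γ β'`. As `H = ⊥` and the determinants are units,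
`rdM β = rdM β''`, so `β'' = β + N W` with `W` integral. `b = x⁻¹ scl(β)⁻¹ scl(β'') x` has entries at most `M`, so by
`S_ent` the entries of `scl(β)⁻¹ scl(β'') = x b x⁻¹` are at most `C ac x i / ac x j ≤ C' Y^n` (for `i > j` by
`ac x i ≤ Y^(i-j) ac x j`, for `i ≤ j` by the first part of `S_ent`; `ratio_le` in `Count.lean`). Now
`β⁻¹ β'' = (det β'' / det β)^(1/n) scl(β)⁻¹ scl(β'')`, and `det β'' ≤ 2 det β`, so `|N β⁻¹ W| = |β⁻¹ β'' - 1| ≤ C'' Y^n`,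
i.e. every column `w` of `W` is counted in `av β (C'' Y^n / N)`. The map `(β', γ) ↦ W` is injective on the pairs because
the elements of `T` are not equivalent (and nonsingular). So the sum is at most the number of the `n`-tuples of
columns. (The set in the definition of `av` is finite.) -/
def S_cnt : Prop :=
  ∀ n : ℕ, 1 ≤ n → ∀ M : ℝ, ∃ C : ℝ, 1 ≤ C ∧ ∀ (N : ℕ) [NeZero N] (Y : ℝ) (x : GR n), 1 ≤ Y → x ∈ SL n Y →
    ∀ (c : XX (⊥ : Subgroup (GN n N))) (T : Finset (MZ n)),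
    (∀ β ∈ T, 0 < β.det ∧ IsUnit ((β.det : ℤ) : ZMod N)) → (∀ β ∈ T, ∀ β' ∈ T, β'.det ≤ 2 * β.det) →
    (∀ β ∈ T, ∀ β' ∈ T, ∀ γ : GZ n, β = (γ : MZ n) * β' → β = β') →
    ∀ β ∈ T, ∑ β' ∈ T, (Nat.card (pr M x c β β') : ℝ) ≤ (av β (C * Y ^ n / N) : ℝ) ^ n

/-- LSP: the large sieve inequality at a point.

Proof (from TRW, SYM, CNT, AVG, `S_rcf`, REPG). For `m ∈ B` choose representatives `R_m` (REPG); `T = ⋃ R_m`
(disjoint: the determinants differ; elements of different `R_m` are not equivalent). Put `a β = b_m m^(-(n-1)/2)` for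
`β ∈ R_m`. By `S_rcf` (applied with `R = R_m`) the inner sum in TRW is `(∑ b_m l_i(m)) Rc χ f_i (x, c)`. On the right:
`‖a β‖ ‖a β'‖ ≤ (‖a β‖² + ‖a β'‖²) / 2`, SYM for the second part, CNT (with `M` and with `M'`, `C₀` the larger
constant; `av` is monotone in `r`; determinants in `B` are within a factor 2) and AVG with `r = C₀ Y^n / N`
(`m r^n ≤ 1`): `∑ ... ≤ ∑_m |b_m|² m^(-(n-1)) C m^(n-1+ε)`. Sum over the `c` (`Nat.card (XX ⊥) = Nat.card (GN n N)`). -/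
def S_lsp : Prop :=
  ∀ n : ℕ, 1 ≤ n → ∀ χ : GR n → ℝ, Continuous χ → HasCompactSupport χ → ∀ ε : ℝ, 0 < ε → ∃ C : ℝ, 1 ≤ C ∧
    ∀ (N : ℕ) [NeZero N] (F : Set (GR n)), IsFD F →
    ∀ (k : ℕ) (f : Fin k → GR n → XX (⊥ : Subgroup (GN n N)) → ℂ) (l : Fin k → ℕ → ℂ),
    (∀ i, IsForm ⊥ (f i)) → (∀ i, IsL2 F (f i)) → (∀ i j, ip F (f i) (f j) = if i = j then 1 else 0) →
    (∀ i, IsEig (l i) (f i)) →
    ∀ (Y : ℝ) (B : Finset ℕ) (b : ℕ → ℂ), 1 ≤ Y → (∀ m ∈ B, 0 < m ∧ m.Coprime N) →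
    (∀ m ∈ B, ∀ m' ∈ B, m' ≤ 2 * m) → (∀ m ∈ B, (m : ℝ) * (C * Y ^ n / N) ^ n ≤ 1) →
    ∀ x ∈ SL n Y, ∑ i, ‖∑ m ∈ B, b m * l i m‖ₑ ^ 2 * sq (Rc χ (f i)) x ≤
      ENNReal.ofReal (C * Nat.card (GN n N) * ∑ m ∈ B, ‖b m‖ ^ 2 * (m : ℝ) ^ ε)

/-- LSI: the large sieve inequality.

Proof (from LSP, `S_cov`, `S_rcf`, `S_iw`, `S_ent`, `S_int`): integrate LSP over the low region, as in `region_bound`
(Asm1), `vol_SL` and `low_bound` (Asm3) of `Pool.Agent.T2h77N`. -/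
def S_lsi : Prop :=
  ∀ n : ℕ, 1 ≤ n → ∀ χ : GR n → ℝ, Continuous χ → HasCompactSupport χ → ∀ ε : ℝ, 0 < ε → ∃ C : ℝ, 1 ≤ C ∧
    ∀ (N : ℕ) [NeZero N] (F : Set (GR n)), IsFD F →
    ∀ (k : ℕ) (f : Fin k → GR n → XX (⊥ : Subgroup (GN n N)) → ℂ) (l : Fin k → ℕ → ℂ),
    (∀ i, IsForm ⊥ (f i)) → (∀ i, IsL2 F (f i)) → (∀ i j, ip F (f i) (f j) = if i = j then 1 else 0) →
    (∀ i, IsEig (l i) (f i)) →
    ∀ (Y : ℝ) (B : Finset ℕ) (b : ℕ → ℂ), 1 ≤ Y → (∀ m ∈ B, 0 < m ∧ m.Coprime N) →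
    (∀ m ∈ B, ∀ m' ∈ B, m' ≤ 2 * m) → (∀ m ∈ B, (m : ℝ) * (C * Y ^ n / N) ^ n ≤ 1) →
    ∑ i, ‖∑ m ∈ B, b m * l i m‖ₑ ^ 2 * ∫⁻ g in F ∩ sat (SL n Y), sq (Rc χ (f i)) g ∂(mu n) ≤
      ENNReal.ofReal (C * Nat.card (GN n N) * (1 + Real.log Y) ^ n * ∑ m ∈ B, ‖b m‖ ^ 2 * (m : ℝ) ^ ε)

/-- SLN: the order of `SL_n(ℤ/N)`. Proof: the transvections `tv 0 1 t`, `t ∈ ℤ/N`, are `N` elements; the group is
contained in the matrices, `N ^ (n ^ 2)` elements. (`ixS ⊥` is the order of the group: the comap of `⊥` along the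
injective `toGL` is `⊥`.) -/
def S_sln : Prop :=
  ∀ (n N : ℕ) [NeZero N], 2 ≤ n → N ≤ ixS (⊥ : Subgroup (GN n N)) ∧ ixS (⊥ : Subgroup (GN n N)) ≤ N ^ (n ^ 2)

/-- TRK: the trivial bound for the number of the forms.

Proof (from `S_iw`, `S_red`, `S_int`, `S_ent`, `S_triv`, `S_trace`, `S_cut`, `S_mass`, `S_cov`, `S_rcf`, SLN; see `final`
in Asm5). Take `χ` from `exists_bump`. By `S_mass` and `S_cut` (`ε = 1/16`; there is no need of the low region here) every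
form has mass at least `3/16` of `Rc χ f_i` in `sat (SL n (W ixS ⊥))` (`mass_split` with a suitable `Y`, or directly).
By `region_bound` with `R = {1}`, `m = 1`, `S_triv` and `S_int` the sum of these masses is at most
`C |GL_n(ℤ/N)| (1 + log (W ixS ⊥))^n ≤ C' |GL_n(ℤ/N)| (1 + log N)^n`. -/
def S_trk : Prop :=
  ∀ n : ℕ, 3 ≤ n → ∀ U : Set (GR n), U ∈ 𝓝 (1 : GR n) → ∃ C : ℝ, 1 ≤ C ∧
    ∀ (N : ℕ) [NeZero N] (F : Set (GR n)), IsFD F →
    ∀ (k : ℕ) (f : Fin k → GR n → XX (⊥ : Subgroup (GN n N)) → ℂ),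
      (∀ i, IsForm ⊥ (f i) ∧ IsL2 F (f i) ∧ IsCusp (f i) ∧ IsSlow U F (f i)) →
      (∀ i j, ip F (f i) (f j) = if i = j then 1 else 0) →
      (k : ℝ) ≤ C * Nat.card (GN n N) * (1 + Real.log N) ^ n

/-- HIC: few forms have little mass at the points of small height.

Proof (from `S_iw`, `S_red`, `S_int`, `S_high`, `S_trace`, `S_cut`, `S_mass`, `S_cov`, `S_rcf`, SLN; see `final` in
Asm5, with the empty set of primes). By `mass_split` each form has mass at least `3/16` in the union of the low region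
`SL n Y` and the high region `SH n Y (W ixS ⊥)`; `Y = C₁ N^η` with the constant `C₁` of `S_high` (there `C * Y`). Let `I`
be the set of the `i` with mass less than `1/8` in the low region, so at least `1/16` in the high region. By `high_bound`
(Asm3), `S_high`, `S_int`: `|I| / 16 ≤ C |GL_n(ℤ/N)| (N^(-η) + N^(A η) (ixS ⊥)^(-1/A)) (1 + log (W ixS ⊥))^n`; by SLN the
bracket is at most `2 N^(-η)` if `η ≤ η₀ = 1 / (2 A^2)` (`A ≥ 1`), and the logarithms are at most `C N^(η/2)`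
(`log_pow_le` in Asm2). -/
def S_hic : Prop :=
  ∀ n : ℕ, 3 ≤ n → ∃ η₀ : ℝ, 0 < η₀ ∧ ∀ (U : Set (GR n)) (χ : GR n → ℝ), Continuous χ → HasCompactSupport χ →
    (∀ g, 0 ≤ χ g) → (∀ g, χ g ≠ 0 → g ∈ U) → ∫ g, χ g ∂(mu n) = 1 → ∀ η : ℝ, 0 < η → η ≤ η₀ → ∃ C : ℝ, 1 ≤ C ∧
    ∀ (N : ℕ) [NeZero N] (F : Set (GR n)), IsFD F →
    ∀ (k : ℕ) (f : Fin k → GR n → XX (⊥ : Subgroup (GN n N)) → ℂ),
      (∀ i, IsForm ⊥ (f i) ∧ IsL2 F (f i) ∧ IsCusp (f i) ∧ IsSlow U F (f i)) →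
      (∀ i j, ip F (f i) (f j) = if i = j then 1 else 0) →
      ∃ I : Finset (Fin k), (I.card : ℝ) ≤ C * Nat.card (GN n N) * (N : ℝ) ^ (-(η / 2)) ∧
        ∀ i, i ∉ I → ENNReal.ofReal (1 / 8) ≤ ∫⁻ g in F ∩ sat (SL n (C * (N : ℝ) ^ η)), sq (Rc χ (f i)) g ∂(mu n)

/-! ### Part C: L-functions -/

/-- LAM: the size of the coefficients.

Proof. `hs α k` is a sum of `binom (n + k - 1) k ≤ (k + 1)^n` monomials of degree `k`, each of absolute value at most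
`p^(k/2)`. So `|lam m| ≤ m^(1/2) ∏ (k_p + 1)^n = m^(1/2) τ(m)^n ≤ C m^(1/2+ε)`. -/
def S_lam : Prop :=
  ∀ (n : ℕ) (ε : ℝ), 0 < ε → ∃ C : ℝ, 1 ≤ C ∧ ∀ D : LData n, D.Ok → ∀ m : ℕ, 0 < m →
    ‖D.lam m‖ ≤ C * (m : ℝ) ^ (1 / 2 + ε)

/-- DIR: the Dirichlet series.

Proof (from LAM): `lam` is multiplicative (`Nat.factorization_mul_of_coprime`), `∑_k h_k(α) x^k = ∏ (1 - α_j x)⁻¹` for
`|x|` small (induction on the number of variables, Cauchy products; the library has this, grep `hs` in T2h77N/Grow and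
T2h77/... , or use the Euler product of Mathlib for the Dirichlet convolution of `n` completely multiplicative
functions), and `EulerProduct.eulerProduct_tprod` or `EulerProduct.eulerProduct_hasProd` with the absolute convergence. -/
def S_dir : Prop :=
  ∀ (n : ℕ) (D : LData n), D.Ok → ∀ s : ℂ, 3 / 2 < s.re →
    Summable (fun m : ℕ => D.lam m * (m : ℂ) ^ (-s)) ∧
      D.Λ s = (∏ j, Complex.Gammaℝ (s - D.μ j)) * ∑' m : ℕ, D.lam m * (m : ℂ) ^ (-s)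

/-- GAM: the quotients of the Gamma factors.

Proof: `z = 1/2 + i t - μ` has `Re z ≥ 0` and `|z| ≤ 1 + |t| + T`. By Stirling's formula
`|Γ((z + a + i v)/2)| ≤ C (1 + |z| + |v|)^K exp(-π |Im z + v| / 4)` and `|Γ(z/2)|⁻¹ ≤ C (1 + |z|)^K exp(π |Im z| / 4)`
(near the pole `z = 0` the reciprocal is bounded). The library has such bounds: grep `Gammaℝ` in
`Pool/Agent/W169/HF`, `Pool/Agent/R402`, `Pool/Agent/N846/LM` (`gams`), `Pool/Agent/H353R6`. -/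
def S_gam : Prop :=
  ∀ T a : ℝ, 0 < a → ∃ (C : ℝ) (K : ℕ), 1 ≤ C ∧ ∀ (μ : ℂ) (t v : ℝ), ‖μ‖ ≤ T → μ.re ≤ 1 / 2 →
    ‖Complex.Gammaℝ (1 / 2 + t * Complex.I + (a + v * Complex.I) - μ)‖ *
      ‖(Complex.Gammaℝ (1 / 2 + t * Complex.I - μ))⁻¹‖ ≤ C * (1 + |t|) ^ K * Real.exp (K * |v|)

/-- SHF: shifting a line of integration. Proof: Cauchy's theorem for the rectangle with the vertices `a ± i T`,
`b ± i T` (`Complex.integral_boundary_rect_eq_zero_of_differentiableOn`), `T → ∞`; the horizontal parts are at most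
`(b - a) exp (M (1 + T)) exp (max(a²,b²) - T²) → 0`. -/
def S_shf : Prop :=
  ∀ (a b M : ℝ) (g : ℂ → ℂ), a ≤ b → (∀ w : ℂ, a ≤ w.re → w.re ≤ b → DifferentiableAt ℂ g w) →
    (∀ w : ℂ, a ≤ w.re → w.re ≤ b → ‖g w‖ ≤ Real.exp (M * (1 + |w.im|))) →
    ∫ v : ℝ, g (a + v * Complex.I) * Complex.exp ((a + v * Complex.I) ^ 2) =
      ∫ v : ℝ, g (b + v * Complex.I) * Complex.exp ((b + v * Complex.I) ^ 2)

/-- FEQ: the functional equation and the contour shift.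

Proof (from SHF). Let `s₀ = 1/2 + i t`, `G(w) = q^(w/2) Λ(s₀ + w)`, entire. By the functional equation and
`1 - conj (s₀ + w) = s₀ - conj w`: `G(w) = w₀ q^(-i t) conj (G(-conj w))` (`w₀` the root number; up to a factor of absolute
value 1, call it `u`). Let `κ = ∫ exp((2+iv)²)/(2+iv) dv`. The function `(G(w) - G(0)) / w` is entire and of moderate
growth (`dslope`), so by SHF with `a = -2`, `b = 2`:
`J(2) - κ G(0) = J(-2) + κ G(0)`, where `J(c) = ∫ G(c+iv) exp((c+iv)²)/(c+iv) dv` and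
`∫ exp((-2+iv)²)/(-2+iv) dv = -κ` (change `v` to `-v`). By the symmetry `|J(-2)| = |J(2)|`. Hence
`2 |κ| |Λ(s₀)| ≤ 2 |J(2)|`. It remains to see `κ ≠ 0` (in fact `κ = π`): `κ` is real and by SHF it is equal to
`∫ exp((c+iv)²)/(c+iv) dv` for all `c > 0`; for instance
`∫ exp(-v²) (exp(c² + 2 i c v) / (c + i v)) dv` as `c → 0` tends to `π`: its real part is
`∫ exp(c²-v²) (c cos(2cv) + v sin(2cv)) / (c²+v²) dv`, and for `0 < c ≤ 1/10` this is at least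
`∫_{|v| ≤ 1} exp(-1) (9/10) c/(c²+v²) dv - 2 c ∫_{|v| ≥ 1} exp(1-v²) ... > 0`; or use any residue lemma of the library
(grep for the approximate functional equations in `N846/LM/Afe.lean`, `R402`). -/
def S_feq : Prop :=
  ∃ C : ℝ, 1 ≤ C ∧ ∀ (n : ℕ) (D : LData n), D.Ok → ∀ t : ℝ,
    ‖D.Λ (1 / 2 + t * Complex.I)‖ ≤ C * ‖∫ v : ℝ, (D.q : ℂ) ^ ((2 + v * Complex.I) / 2) *
      D.Λ (1 / 2 + t * Complex.I + (2 + v * Complex.I)) * Complex.exp ((2 + v * Complex.I) ^ 2) /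
        (2 + v * Complex.I)‖

/-- AFE: the approximate functional equation as an inequality.

Proof (from FEQ, SHF, DIR, LAM, GAM). In FEQ write `Λ(s₀ + w) = γ(s₀ + w) (P(s₀ + w) + R(s₀ + w))`,
`γ(s) = ∏ Γ_ℝ(s - μ_j)`, `P(s) = ∑_{m ∈ E} lam m m^(-s)` and `R` the rest of the Dirichlet series, `Re w = 2`. In the
part of `P` shift the line to `Re w = ε` (holomorphic for `Re w > 0` as `Re μ_j ≤ 1/2`, the Gamma factors are bounded by
`Γ_ℝ` of the real part there), in the part of `R` to `Re w = κ`, a large number depending on `ε` (`R(s)` is holomorphic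
and bounded for `Re s ≥ 5/2`). Divide by `γ(s₀)`, i.e. multiply by `∏ (Γ_ℝ(s₀ - μ_j))⁻¹`, and use GAM for each factor:
the part of `P` is at most `C (1+|t|)^K q^(ε/2) ∫ exp(K|v|-v²) |P(s₀ + ε + i v)| dv`, the part of `R` at most
`C (1+|t|)^K q^(κ/2) ∑_{m > X} m^(3/4) m^(-1/2-κ) ≤ C (1+|t|)^K q^(κ/2) X^(5/4+1-κ) ≤ C (1+|t|)^K` since
`X ≥ q^(1/2+ε)`, if `κ` is large in terms of `ε`. Finally `exp(K|v|-v²) ≤ C (1+v²)⁻¹`,
`(1+v²)⁻¹ ≤ 2 (1+t²) (1+(t+v)²)⁻¹`, and the Cauchy-Schwarz inequality (`∫ (1+v²)⁻¹ = π`). -/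
def S_afe : Prop :=
  ∀ (n : ℕ) (T ε : ℝ), 0 < ε → ∃ (C : ℝ) (K : ℕ), 1 ≤ C ∧ ∀ D : LData n, D.Ok → (∀ j, ‖D.μ j‖ ≤ T) →
    ∀ (X : ℝ) (E : Finset ℕ), D.q ^ (1 / 2 + ε) ≤ X → (∀ m ∈ E, 0 < m) → (∀ m : ℕ, 0 < m → (m : ℝ) ≤ X → m ∈ E) →
    ∀ t : ℝ, ‖D.L (1 / 2 + t * Complex.I)‖ ^ 2 ≤ C * (1 + |t|) ^ K * (1 + D.q ^ ε *
      ∫ v : ℝ, (1 + v ^ 2)⁻¹ * ‖∑ m ∈ E, D.lam m * (m : ℂ) ^ (-((1 / 2 + ε : ℝ) + v * Complex.I))‖ ^ 2)

/-- the positive integers less than `2^J` all of whose prime factors divide `N` -/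
def M1 (N J : ℕ) : Finset ℕ := (Finset.range (2 ^ J)).filter fun m => 0 < m ∧ m.primeFactors ⊆ N.primeFactors

/-- the positive integers less than `2^J` which are prime to `N` -/
def M2 (N J : ℕ) : Finset ℕ := (Finset.range (2 ^ J)).filter fun m => 0 < m ∧ m.Coprime N

/-- the dyadic blocks -/
def Bl (N j : ℕ) : Finset ℕ := (Finset.range (2 ^ (j + 1))).filter fun m => 2 ^ j ≤ m ∧ m.Coprime N

/-- FAC: splitting off the ramified primes.

Proof (from LAM). `E` is the image of `M1 × M2` under multiplication (injective). `lam (m₁ m₂) = lam m₁ lam m₂` for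
coprime factors, so the sum over `E` is the product of the sums over `M1` and `M2`. By LAM with `ε/2` the first one
is at most `C ∑_{m ∈ M1} m^(1/2+ε/2-1/2-ε) ≤ C ∏_{p ∣ N} (1 - p^(-ε/2))⁻¹ ≤ C' N^ε` (every factor is at most
`C_ε = (1 - 2^(-ε/2))⁻¹`, and at most `p^ε` if `p` is large; number of the other `p` bounded). Every positive `m < 2^J`
is `m₁ m₂`. -/
def S_fac : Prop :=
  ∀ (n : ℕ) (ε : ℝ), 0 < ε → ∃ C : ℝ, 1 ≤ C ∧ ∀ (N J : ℕ), 0 < N → ∃ E : Finset ℕ,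
    (∀ m ∈ E, 0 < m) ∧ (∀ m : ℕ, 0 < m → m < 2 ^ J → m ∈ E) ∧
    ∀ D : LData n, D.Ok → ∀ v : ℝ,
      ‖∑ m ∈ E, D.lam m * (m : ℂ) ^ (-((1 / 2 + ε : ℝ) + v * Complex.I))‖ ≤
        C * (N : ℝ) ^ ε * ‖∑ m ∈ M2 N J, D.lam m * (m : ℂ) ^ (-((1 / 2 + ε : ℝ) + v * Complex.I))‖

/-- DYA: dyadic decomposition. Proof: `M2 N J` is the disjoint union of the blocks `Bl N j`, `j < J`; Cauchy-Schwarz. -/
def S_dya : Prop :=
  ∀ (N J : ℕ) (a : ℕ → ℂ), ‖∑ m ∈ M2 N J, a m‖ ^ 2 ≤ (J : ℝ) * ∑ j ∈ Finset.range J, ‖∑ m ∈ Bl N j, a m‖ ^ 2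

/-! ### Assembly -/

/-- ASL: the forms with mass at the points of small height.

Proof (from LSI, AFE, FAC, DYA). Let `ε₁ = min(ε, 1/8) / (20 (n+1))`, `η ≤ ε₁`, `C₀` the constant of LSI for `ε₁`. Let `J` be
the integer with `2^(J-1) ≤ (T₁ N^n)^(1/2+ε₁) + 1 < 2^J`, `T₁ = max T 1`, `X = (T₁ N^n)^(1/2+ε₁)`. For `N ≥ N₀` and
`Y ≤ C₁ N^η` we have `m (C₀ Y^n / N)^n ≤ 1` for all `m < 2^J`: exponent of `N`: `n (1/2 + ε₁) + η n² - n < 0`, as
`η n ≤ ε₁ n ≤ 1/20`. By AFE (with `ε₁`), FAC, DYA for every `i` and `|t| ≤ N^δ`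
`|L_i(1/2+it)|² ≤ C N^(δ K) (1 + q^ε₁ (C N^ε₁)² J ∑_{j<J} ∫ (1+v²)⁻¹ |∑_{m ∈ Bl N j} lam_i m m^(-(1/2+ε₁+iv))|² dv)`.
Let `G` be the set of the `i` in `Q`, all with mass at least `1/8`. Sum over `i ∈ Q`, exchange with the integral, and
use LSI for each `v` and `j` (`b m = m^(-(1/2+ε₁+iv))`, `∑ |b_m|² m^ε₁ ≤ ∑_{m < 2^(j+1), m ≥ 2^j} 1/m ≤ 1`): the sum is at most
`C N^(δK) (|Q| + N^(nε₁+...) |GL_n(ℤ/N)|)`, while it is at least `|Q| N^(2ε)`. Choose `δ K ≤ ε₁`. For `N ≥ N₀` this gives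
`|Q| ≤ C |GL_n(ℤ/N)| N^(-δ)`. -/
def S_asl : Prop :=
  ∀ n : ℕ, 1 ≤ n → ∀ χ : GR n → ℝ, Continuous χ → HasCompactSupport χ → ∀ T ε : ℝ, 0 < ε →
    ∃ η₁ : ℝ, 0 < η₁ ∧ ∀ η C₁ : ℝ, 0 < η → η ≤ η₁ → 1 ≤ C₁ → ∃ (δ C : ℝ) (N₀ : ℕ), 0 < δ ∧ 1 ≤ C ∧
    ∀ (N : ℕ) [NeZero N] (F : Set (GR n)), N₀ ≤ N → IsFD F →
    ∀ (k : ℕ) (f : Fin k → GR n → XX (⊥ : Subgroup (GN n N)) → ℂ) (D : Fin k → LData n),
      (∀ i, IsForm ⊥ (f i)) → (∀ i, IsL2 F (f i)) → (∀ i j, ip F (f i) (f j) = if i = j then 1 else 0) →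
      (∀ i, (D i).Ok ∧ IsEig (D i).lam (f i) ∧ (D i).q ≤ T * (N : ℝ) ^ n ∧ ∀ j, ‖(D i).μ j‖ ≤ T) →
      ∀ Q : Finset (Fin k),
      (∀ i ∈ Q, ∃ t : ℝ, |t| ≤ (N : ℝ) ^ δ ∧ (N : ℝ) ^ ε < ‖(D i).L (1 / 2 + t * Complex.I)‖) →
      (∀ i ∈ Q, ENNReal.ofReal (1 / 8) ≤
        ∫⁻ g in F ∩ sat (SL n (C₁ * (N : ℝ) ^ η)), sq (Rc χ (f i)) g ∂(mu n)) →
      (Q.card : ℝ) ≤ C * Nat.card (GN n N) * (N : ℝ) ^ (-δ)

/-- ASM: the theorem. Proof (from ASL, HIC, TRK, `exists_bump`): `χ` from `exists_bump`, `η = min(η₀, η₁)`, `C₁` the constant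
of HIC, `δ` the minimum of the `δ` of ASL and `η / 2`. (The hypothesis for `t` is weaker for larger `δ`, so apply ASL with
its own `δ`.) For `N ≥ N₀`: `k ≤ |I| + |Iᶜ|`, HIC for `I` and ASL for the complement. For `N < N₀` use TRK:
`(1 + log N)^n ≤ C N^(-δ)` with a constant depending on `N₀`. -/
def S_asm : Prop := S_asl → S_hic → S_trk → S_main

end Pool.Agent.T2h79.LG
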