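import Pool.Agent.T2h79.LG.Stm

/-!
# The Lindelöf bound for almost all cusp forms of `GL_n` of conductor dividing `N`: statements of the steps

Level `K_1(N)`: the cusp forms on `SL_n(ℤ) \ (SL_n(ℝ) × {unimodular columns modulo N})`. Every cuspidal automorphic
representation of `GL_n` over `ℚ` of conductor `N` contributes exactly one newform, so this is the universal family.
-/

set_option autoImplicit false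

open MeasureTheory Matrix
open scoped MatrixGroups ENNReal Topology ComplexConjugate

noncomputable section

namespace Pool.Agent.T2h79.LG

open Pool.Agent.T2h77.N

/-- the first basis column -/
def e0 (n N : ℕ) : Fin n → ZMod N := fun i => if (i : ℕ) = 0 then 1 else 0

/-- the stabiliser in `GL_n(ℤ/N)` of the first basis column: the level `K_1(N)` (the matrices whose first column is
`(1, 0, ..., 0)`) -/
def H1 (n N : ℕ) : Subgroup (GN n N) where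
  carrier := {h | (h : Matrix (Fin n) (Fin n) (ZMod N)) *ᵥ e0 n N = e0 n N}
  mul_mem' := by
    intro a b ha hb
    have ha' : (a : Matrix (Fin n) (Fin n) (ZMod N)) *ᵥ e0 n N = e0 n N := ha
    have hb' : (b : Matrix (Fin n) (Fin n) (ZMod N)) *ᵥ e0 n N = e0 n N := hb
    show ((a * b : GN n N) : Matrix (Fin n) (Fin n) (ZMod N)) *ᵥ e0 n N = e0 n N
    rw [Units.val_mul, ← Matrix.mulVec_mulVec, hb', ha']
  one_mem' := by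
    show ((1 : GN n N) : Matrix (Fin n) (Fin n) (ZMod N)) *ᵥ e0 n N = e0 n N
    rw [Units.val_one, Matrix.one_mulVec]
  inv_mem' := by
    intro a ha
    have ha' : (a : Matrix (Fin n) (Fin n) (ZMod N)) *ᵥ e0 n N = e0 n N := ha
    show ((a⁻¹ : GN n N) : Matrix (Fin n) (Fin n) (ZMod N)) *ᵥ e0 n N = e0 n N
    nth_rw 1 [← ha']
    rw [Matrix.mulVec_mulVec, ← Units.val_mul, inv_mul_cancel, Units.val_one, Matrix.one_mulVec]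

/-- unimodular columns -/
def Um {n N : ℕ} (v : Fin n → ZMod N) : Prop := ∃ w : Fin n → ZMod N, w ⬝ᵥ v = 1

/-- The theorem for the level `K_1(N)`. -/
def S_main1 : Prop :=
  ∀ n : ℕ, 3 ≤ n → ∀ U : Set (GR n), U ∈ 𝓝 (1 : GR n) → ∀ T ε : ℝ, 0 < ε → ∃ δ C : ℝ, 0 < δ ∧ 0 < C ∧
    ∀ (N : ℕ) [NeZero N] (F : Set (GR n)), IsFD F →
    ∀ (k : ℕ) (f : Fin k → GR n → XX (H1 n N) → ℂ) (D : Fin k → LData n),
      (∀ i, IsForm (H1 n N) (f i) ∧ IsL2 F (f i) ∧ IsCusp (f i) ∧ IsSlow U F (f i)) →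
      (∀ i j, ip F (f i) (f j) = if i = j then 1 else 0) →
      (∀ i, (D i).Ok ∧ IsEig (D i).lam (f i) ∧ (D i).q ≤ T * N ∧ ∀ j, ‖(D i).μ j‖ ≤ T) →
      (∀ i, ∃ t : ℝ, |t| ≤ (N : ℝ) ^ δ ∧ (N : ℝ) ^ ε < ‖(D i).L (1 / 2 + t * Complex.I)‖) →
      (k : ℝ) ≤ C * (N : ℝ) ^ ((n : ℝ) - δ)

/-- the pairs `(W, v)`: `|β⁻¹ W| ≤ r`, `v` unimodular, `W v = 0` modulo `N` -/
def av1 {n : ℕ} (β : MZ n) (r : ℝ) (N : ℕ) : ℕ :=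
  Nat.card {p : MZ n × (Fin n → ZMod N) // (∀ i j, |(((β.adjugate * p.1) i j : ℤ) : ℝ)| ≤ (β.det : ℝ) * r) ∧
    Um p.2 ∧ p.1.map (Int.cast : ℤ → ZMod N) *ᵥ p.2 = 0}

/-- the size of the column `j` -/
def zz {n ρ : ℕ} (q : Matrix (Fin n) (Fin ρ) ℚ) (j : Fin ρ) : ℝ := ‖fun i => ((q i j : ℚ) : ℝ)‖

/-- the column lattice of an integral matrix -/
def CL {ρ n : ℕ} (Φ : Matrix (Fin ρ) (Fin n) ℤ) : AddSubgroup (Fin ρ → ℤ) :=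
  (Matrix.toLin' Φ).toAddMonoidHom.range

/-- BXL: the points of a lattice `L ≤ ℤ^ρ` in a box which contains `ρ` independent ones. (Same proof as BOX, easier: or
apply BOX to `K = w L*`, `w` the index.) In addition `L.index ≤ C ∏ X_j`. -/
def S_bxl : Prop :=
  ∀ ρ : ℕ, ∃ C : ℝ, 1 ≤ C ∧ ∀ (L : AddSubgroup (Fin ρ → ℤ)) (X : Fin ρ → ℝ), L.index ≠ 0 → (∀ j, 0 < X j) →
    (∃ y : Fin ρ → Fin ρ → ℤ, LinearIndependent ℤ y ∧ ∀ i, y i ∈ L ∧ ∀ j, |((y i j : ℤ) : ℝ)| ≤ X j) →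
      {y : Fin ρ → ℤ | y ∈ L ∧ ∀ j, |((y j : ℤ) : ℝ)| ≤ X j}.Finite ∧
      (({y : Fin ρ → ℤ | y ∈ L ∧ ∀ j, |((y j : ℤ) : ℝ)| ≤ X j}.ncard : ℕ) : ℝ) ≤ C * (∏ j, X j) / L.index ∧
      (L.index : ℝ) ≤ C * ∏ j, X j

/-- SOL: the number of the solutions of `Φ v = 0` modulo `N`.

Proof. The kernel of `Φ : (ℤ/N)^n → (ℤ/N)^ρ` has `N^n / |image|` elements; the image is the image of `CL Φ` under
`ℤ^ρ → (ℤ/N)^ρ`, so its index is at most the index of `CL Φ`; `|image| ≥ N^ρ / [ℤ^ρ : CL Φ]`. -/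
def S_sol : Prop :=
  ∀ (n ρ N : ℕ) [NeZero N] (Φ : Matrix (Fin ρ) (Fin n) ℤ), (CL Φ).index ≠ 0 →
    Nat.card {v : Fin n → ZMod N // Φ.map (Int.cast : ℤ → ZMod N) *ᵥ v = 0} * N ^ ρ ≤ N ^ n * (CL Φ).index

/-- GCV: the pairs `(Φ, v)`, `Φ` integral of rank `ρ`, `v` unimodular modulo `N`, `Φ v = 0`.

Proof (from BXL, SOL, KNU). Let `ρ < n`. By SOL the number for a given `Φ` is at most `N^(n-ρ) w`, `w = [ℤ^ρ : L]`,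
`L = CL Φ`. All columns of `Φ` are in `L` and in the box, and `ρ` of them are independent. So by BXL `w ≤ C ∏ X_j` and
given `L` there are at most `(C ∏ X_j / w)^n` such `Φ`. By KNU there are at most `C w^(ρ-1+ε')` subgroups of index `w`:
the sum is at most `N^(n-ρ) ∑_w C w^(ρ-1+ε') w (C ∏ X_j / w)^n ≤ C N^(n-ρ) (∏ X_j)^n ∑_{w ≤ C ∏ X_j} w^(-1+ε')`, since
`ρ ≤ n - 1`; the last sum is at most `C (∏ X_j)^(2ε') ≤ C N^ε`, as `∏ X_j ≤ N`. Let `ρ = n`: then `det Φ ≠ 0`, and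
`Φ v = 0`, `v` unimodular give `det Φ = 0` modulo `N` (multiply by the adjugate and by `w`), so `|det Φ| ≥ N`; but
`|det Φ| ≤ n! ∏ X_j < N` (if `C ≥ n!`): no such pair. -/
def S_gcv : Prop :=
  ∀ n ρ : ℕ, 1 ≤ ρ → ρ ≤ n → ∀ ε : ℝ, 0 < ε → ∃ C : ℝ, 1 ≤ C ∧ ∀ (N : ℕ) [NeZero N] (X : Fin ρ → ℝ),
    (∀ j, 1 ≤ X j) → C * ∏ j, X j < N →
    ∀ S : Set (Matrix (Fin ρ) (Fin n) ℤ × (Fin n → ZMod N)),
      (∀ p ∈ S, LinearIndependent ℤ (fun j => p.1 j) ∧ (∀ j k, |((p.1 j k : ℤ) : ℝ)| ≤ X j) ∧ Um p.2 ∧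
        p.1.map (Int.cast : ℤ → ZMod N) *ᵥ p.2 = 0) →
      S.Finite ∧ ((S.ncard : ℕ) : ℝ) ≤ C * (N : ℝ) ^ ((n : ℝ) - ρ + ε) * (∏ j, X j) ^ n

/-- STR: the structure of the matrices `W` with `|β⁻¹ W| ≤ r`.

Proof (from `S_iw`, `S_red`; the same technique as SHO, file `T_SHO.lean`). Let `θ = β⁻¹ W`, `V` its column space in
`ℝ^n`, of dimension `ρ = rank W ≥ 1`, and `Γ = V ∩ β⁻¹ ℤ^n`, a lattice in `V` (it contains the columns of `θ`). Choose a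
`ℤ`-basis of `Γ` and an orthonormal basis of `V`: the coordinates of the basis of `Γ` are the rows of a `ρ × ρ` matrix
`x₀`, `det x₀ ≠ 0` (without restriction positive); let `x = (det x₀)^(-1/ρ) x₀ ∈ SL_ρ(ℝ)`, and choose `γ ∈ SL_ρ(ℤ)` with
`γ x ∈ SG ρ`. Let `b_j` be the vectors of `V` with the coordinates `(γ x₀)_j`: a basis of `Γ`; let `b_j*` be the
Gram-Schmidt vectors. As in SHO: `|b_j|₂ ≤ C |b_j*|` and `|b_j*| ≤ C |b_l*|` for `j ≤ l`; if `v = ∑ c_j b_j`, then, from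
`j = ρ - 1` down to `0`, `|c_j| ≤ |v|₂ / |b_j*| + ∑_{l > j} |c_l| ≤ C |v|₂ / |b_j*| ≤ C' |v| / |b_j|`. Let `Q` be the matrix
with the columns `b_j` (rational, `β b_j` integral) and `θ = Q Φ`, `Φ` integral: `|Φ_jk| ≤ C r / |b_j|`. The rank of `Φ` is
`ρ`, so no row of `Φ` is zero and `|b_j| ≤ C r`. The column lattice of `P = β Q` is `β V ∩ ℤ^n`, a direct summand of
`ℤ^n`, so there is an integral `A` with `A P = 1`, and `A W = A P Φ = Φ`. -/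
def S_str : Prop :=
  ∀ n : ℕ, 1 ≤ n → ∃ C : ℝ, 1 ≤ C ∧ ∀ (β W : MZ n) (r : ℝ), 0 < β.det → 0 < r → W ≠ 0 →
    (∀ i j, |(((β.adjugate * W) i j : ℤ) : ℝ)| ≤ (β.det : ℝ) * r) →
    ∃ (ρ : ℕ) (Q : Matrix (Fin n) (Fin ρ) ℚ) (Φ : Matrix (Fin ρ) (Fin n) ℤ) (A : Matrix (Fin ρ) (Fin n) ℤ),
      1 ≤ ρ ∧ ρ ≤ n ∧ (LinearIndependent ℚ fun j => fun i => Q i j) ∧ Itg β Q ∧ (∀ j, zz Q j ≤ C * r) ∧
      β.map (Int.cast : ℤ → ℚ) * Q * Φ.map (Int.cast : ℤ → ℚ) = W.map (Int.cast : ℤ → ℚ) ∧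
      A * W = Φ ∧ LinearIndependent ℤ (fun j => Φ j) ∧ ∀ j k, |((Φ j k : ℤ) : ℝ)| ≤ C * r / zz Q j

/-- EXQ: the exchange sum, as in AVG (file `T_AVG.lean`).

Proof (from NQU, RNU). Let `(β, q) ∈ S`. As `β q` is integral and the columns of `q` are nonzero, `1/m ≤ zz q j ≤ C₀ r`.
Let `l_j ≥ 0` be the integer with `C₀ r 2^(-l_j-1) < zz q j ≤ C₀ r 2^(-l_j) = s_j`; there are at most
`(2 + log₂ (C₀ r m))^ρ ≤ C (m r)^ε'` vectors `l`. Let `d = (KK q).index`, a divisor of `m` (RNU). For given `d`, `l` the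
number of the pairs is at most `C d^(ρ-1+ε') (d ∏ s_j)^n (m / d)^(n-1+ε')` (NQU, RNU), each contributes at most
`∏ (2 r / s_j)^n`; the product is at most `C m^(n-1+ε') (d r^n)^ρ ≤ C m^(n-1+ρ+ε') r^(n ρ)`. Sum over `d` and `l`. -/
def S_exq : Prop :=
  ∀ n ρ : ℕ, 1 ≤ n → 1 ≤ ρ → ∀ C₀ ε : ℝ, 1 ≤ C₀ → 0 < ε → ∃ C : ℝ, 1 ≤ C ∧
    ∀ (m : ℕ) (R : Finset (MZ n)), 0 < m → IsReps (m : ℤ) R → ∀ r : ℝ, 1 ≤ r →
    ∀ S : Set (MZ n × Matrix (Fin n) (Fin ρ) ℚ),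
      (∀ p, p ∈ S ↔ p.1 ∈ R ∧ (LinearIndependent ℚ fun j => fun i => p.2 i j) ∧ Itg p.1 p.2 ∧
        ∀ j, zz p.2 j ≤ C₀ * r) →
      ∃ h : S.Finite, ∑ p ∈ h.toFinset, (∏ j, (r / zz p.2 j)) ^ n ≤
        C * (m : ℝ) ^ ((n : ℝ) - 1 + ρ + ε) * r ^ (n * ρ) * r ^ ε

/-- AV1: the average of `av1`.

Proof (from STR, GCV, EXQ, REPG, REPU). The pairs with `W = 0`: at most `N^n` for each `β`, and `R.card ≤ C m^(n-1+ε')`.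
If `W ≠ 0`, take `ρ`, `Q`, `Φ`, `A` from STR. `Φ v = A W v = 0`. Given `β` and `Q`, the map `(W, v) ↦ (Φ, v)` is injective on the
pairs with this `Q` (`W = β Q Φ`), and `X_j = C r / zz Q j ≥ 1` (`Φ_j ≠ 0`), `∏ X_j ≤ C m r^n`: because `β Q` has integral
entries and rank `ρ`, completing the columns of `Q` by unit vectors gives a matrix `M` with `β M` integral and
nonsingular, so `1/m ≤ |det M| ≤ n! ∏ zz Q j`. So GCV applies if `N > C' m r^n`: at most `C N^(n-ρ+ε') (∏ X_j)^n` pairs for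
`(β, Q)`. Sum over `(β, Q)` by EXQ: `C N^(n-ρ+ε') m^(n-1+ρ+ε') r^(nρ+ε') = C N^n m^(n-1) (m r^n / N)^ρ (N m r)^ε'`, at
most `C N^(n+ε) m^(n-1)` as `m r^n ≤ N` and `r ≥ 1`. Sum over `ρ`. -/
def S_av1 : Prop :=
  ∀ n : ℕ, 1 ≤ n → ∀ ε : ℝ, 0 < ε → ∃ C : ℝ, 1 ≤ C ∧ ∀ (m N : ℕ) [NeZero N] (R : Finset (MZ n)), 0 < m →
    IsReps (m : ℤ) R → ∀ r : ℝ, 1 ≤ r → C * m * r ^ n ≤ N →
      ∑ β ∈ R, (av1 β r N : ℝ) ≤ C * (N : ℝ) ^ ((n : ℝ) + ε) * (m : ℝ) ^ ((n : ℝ) - 1)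

/-- HON: the level space of `H1` and its size.

Proof. `h ↦ h e0` induces an injection of `GN n N ⧸ H1 n N` in the unimodular columns (`w = e0 h⁻¹`), which are at most
`N^n`. For the lower bound of `ixS` (the index of `H1 ∩ SL_n`): the cosets of the transvections with `e0 ↦ e0 + t e1`,
`t ∈ ℤ/N`, are different. `ixS H ≤ |SL_n(ℤ/N)| ≤ N^(n²)`. The index of `H1` in `GL_n` is at least the one in `SL_n`. -/
def S_hon : Prop :=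
  ∀ (n N : ℕ) [NeZero N], 2 ≤ n → (H1 n N).index ≤ N ^ n ∧ N ≤ ixS (H1 n N) ∧ ixS (H1 n N) ≤ N ^ (n ^ 2) ∧
    ∃ φ : XX (H1 n N) → (Fin n → ZMod N), Function.Injective φ ∧ (∀ c, Um (φ c)) ∧
      ∀ (h : GN n N) (c : XX (H1 n N)), φ (h • c) = (h : Matrix (Fin n) (Fin n) (ZMod N)) *ᵥ φ c

/-- CN1: the counts at the points of bounded height, at level `K_1(N)`.

Proof (from `S_iw`, `S_ent`, HON; see CNT, file `T_CNT.lean`). Let `γ ∈ pr M x c β β'`, `β'' = γ β'`, `W = β'' - β`,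
`v = φ c`. Then `rdM β • c = rdM β'' • c` gives `W v = 0` modulo `N` (`φ` is equivariant), and as in CNT
`|β⁻¹ W| = |β⁻¹ β'' - 1| ≤ C Y^n`. The map `(β', c, γ) ↦ (W, v)` is injective. -/
def S_cn1 : Prop :=
  ∀ n : ℕ, 2 ≤ n → ∀ M : ℝ, ∃ C : ℝ, 1 ≤ C ∧ ∀ (N : ℕ) [NeZero N] (Y : ℝ) (x : GR n), 1 ≤ Y → x ∈ SL n Y →
    ∀ (T : Finset (MZ n)),
    (∀ β ∈ T, 0 < β.det ∧ IsUnit ((β.det : ℤ) : ZMod N)) → (∀ β ∈ T, ∀ β' ∈ T, β'.det ≤ 2 * β.det) →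
    (∀ β ∈ T, ∀ β' ∈ T, ∀ γ : GZ n, β = (γ : MZ n) * β' → β = β') →
    ∀ β ∈ T, ∑ β' ∈ T, ∑' c : XX (H1 n N), (Nat.card (pr M x c β β') : ℝ) ≤ (av1 β (C * Y ^ n) N : ℝ)

/-- LP1: the large sieve inequality at a point, level `K_1(N)`.

Proof (from TRW, SYM, CN1, AV1, `S_rcf`, REPG), as LSP (file `T_LSP.lean`): sum TRW over the `c`, then
`‖a β‖ ‖a β'‖ ≤ (‖a β‖² + ‖a β'‖²) / 2`, SYM, CN1 with the larger constant `C₀` (`av1` is monotone in `r`), AV1 with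
`r = C₀ Y^n`. -/
def S_lp1 : Prop :=
  ∀ n : ℕ, 2 ≤ n → ∀ χ : GR n → ℝ, Continuous χ → HasCompactSupport χ → ∀ ε : ℝ, 0 < ε → ∃ C : ℝ, 1 ≤ C ∧
    ∀ (N : ℕ) [NeZero N] (F : Set (GR n)), IsFD F →
    ∀ (k : ℕ) (f : Fin k → GR n → XX (H1 n N) → ℂ) (l : Fin k → ℕ → ℂ),
    (∀ i, IsForm (H1 n N) (f i)) → (∀ i, IsL2 F (f i)) → (∀ i j, ip F (f i) (f j) = if i = j then 1 else 0) →
    (∀ i, IsEig (l i) (f i)) →
    ∀ (Y : ℝ) (B : Finset ℕ) (b : ℕ → ℂ), 1 ≤ Y → (∀ m ∈ B, 0 < m ∧ m.Coprime N) →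
    (∀ m ∈ B, ∀ m' ∈ B, m' ≤ 2 * m) → (∀ m ∈ B, C * m * Y ^ (n ^ 2) ≤ N) →
    ∀ x ∈ SL n Y, ∑ i, ‖∑ m ∈ B, b m * l i m‖ₑ ^ 2 * sq (Rc χ (f i)) x ≤
      ENNReal.ofReal (C * (N : ℝ) ^ ((n : ℝ) + ε) * ∑ m ∈ B, ‖b m‖ ^ 2)

/-- LI1: the large sieve inequality, level `K_1(N)`. Proof: from LP1 as LSI from LSP (file `T_LSI.lean`). -/
def S_li1 : Prop :=
  ∀ n : ℕ, 2 ≤ n → ∀ χ : GR n → ℝ, Continuous χ → HasCompactSupport χ → ∀ ε : ℝ, 0 < ε → ∃ C : ℝ, 1 ≤ C ∧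
    ∀ (N : ℕ) [NeZero N] (F : Set (GR n)), IsFD F →
    ∀ (k : ℕ) (f : Fin k → GR n → XX (H1 n N) → ℂ) (l : Fin k → ℕ → ℂ),
    (∀ i, IsForm (H1 n N) (f i)) → (∀ i, IsL2 F (f i)) → (∀ i j, ip F (f i) (f j) = if i = j then 1 else 0) →
    (∀ i, IsEig (l i) (f i)) →
    ∀ (Y : ℝ) (B : Finset ℕ) (b : ℕ → ℂ), 1 ≤ Y → (∀ m ∈ B, 0 < m ∧ m.Coprime N) →
    (∀ m ∈ B, ∀ m' ∈ B, m' ≤ 2 * m) → (∀ m ∈ B, C * m * Y ^ (n ^ 2) ≤ N) →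
    ∑ i, ‖∑ m ∈ B, b m * l i m‖ₑ ^ 2 * ∫⁻ g in F ∩ sat (SL n Y), sq (Rc χ (f i)) g ∂(mu n) ≤
      ENNReal.ofReal (C * (N : ℝ) ^ ((n : ℝ) + ε) * (1 + Real.log Y) ^ n * ∑ m ∈ B, ‖b m‖ ^ 2)

/-- TRH: TRK for a general level. -/
def S_trh : Prop :=
  ∀ n : ℕ, 3 ≤ n → ∀ U : Set (GR n), U ∈ 𝓝 (1 : GR n) → ∃ C : ℝ, 1 ≤ C ∧
    ∀ (N : ℕ) [NeZero N] (H : Subgroup (GN n N)) (F : Set (GR n)), ixS H ≤ N ^ (n ^ 2) → IsFD F →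
    ∀ (k : ℕ) (f : Fin k → GR n → XX H → ℂ),
      (∀ i, IsForm H (f i) ∧ IsL2 F (f i) ∧ IsCusp (f i) ∧ IsSlow U F (f i)) →
      (∀ i j, ip F (f i) (f j) = if i = j then 1 else 0) →
      (k : ℝ) ≤ C * H.index * (1 + Real.log N) ^ n

/-- HIH: HIC for a general level. -/
def S_hih : Prop :=
  ∀ n : ℕ, 3 ≤ n → ∃ η₀ : ℝ, 0 < η₀ ∧ ∀ (U : Set (GR n)) (χ : GR n → ℝ), Continuous χ → HasCompactSupport χ →
    (∀ g, 0 ≤ χ g) → (∀ g, χ g ≠ 0 → g ∈ U) → ∫ g, χ g ∂(mu n) = 1 → ∀ η : ℝ, 0 < η → η ≤ η₀ → ∃ C : ℝ, 1 ≤ C ∧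
    ∀ (N : ℕ) [NeZero N] (H : Subgroup (GN n N)) (F : Set (GR n)), N ≤ ixS H → ixS H ≤ N ^ (n ^ 2) → IsFD F →
    ∀ (k : ℕ) (f : Fin k → GR n → XX H → ℂ),
      (∀ i, IsForm H (f i) ∧ IsL2 F (f i) ∧ IsCusp (f i) ∧ IsSlow U F (f i)) →
      (∀ i j, ip F (f i) (f j) = if i = j then 1 else 0) →
      ∃ I : Finset (Fin k), (I.card : ℝ) ≤ C * H.index * (N : ℝ) ^ (-(η / 2)) ∧
        ∀ i, i ∉ I → ENNReal.ofReal (1 / 8) ≤ ∫⁻ g in F ∩ sat (SL n (C * (N : ℝ) ^ η)), sq (Rc χ (f i)) g ∂(mu n)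

/-- AS1: ASL at level `K_1(N)` (from LI1, AFE, FAC, DYA; adaptation of `T_ASL.lean`). -/
def S_as1 : Prop :=
  ∀ n : ℕ, 2 ≤ n → ∀ χ : GR n → ℝ, Continuous χ → HasCompactSupport χ → ∀ T ε : ℝ, 0 < ε →
    ∃ η₁ : ℝ, 0 < η₁ ∧ ∀ η C₁ : ℝ, 0 < η → η ≤ η₁ → 1 ≤ C₁ → ∃ (δ C : ℝ) (N₀ : ℕ), 0 < δ ∧ 1 ≤ C ∧
    ∀ (N : ℕ) [NeZero N] (F : Set (GR n)), N₀ ≤ N → IsFD F →
    ∀ (k : ℕ) (f : Fin k → GR n → XX (H1 n N) → ℂ) (D : Fin k → LData n),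
      (∀ i, IsForm (H1 n N) (f i)) → (∀ i, IsL2 F (f i)) → (∀ i j, ip F (f i) (f j) = if i = j then 1 else 0) →
      (∀ i, (D i).Ok ∧ IsEig (D i).lam (f i) ∧ (D i).q ≤ T * N ∧ ∀ j, ‖(D i).μ j‖ ≤ T) →
      ∀ Q : Finset (Fin k),
      (∀ i ∈ Q, ∃ t : ℝ, |t| ≤ (N : ℝ) ^ δ ∧ (N : ℝ) ^ ε < ‖(D i).L (1 / 2 + t * Complex.I)‖) →
      (∀ i ∈ Q, ENNReal.ofReal (1 / 8) ≤
        ∫⁻ g in F ∩ sat (SL n (C₁ * (N : ℝ) ^ η)), sq (Rc χ (f i)) g ∂(mu n)) →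
      (Q.card : ℝ) ≤ C * (N : ℝ) ^ ((n : ℝ) - δ)

/-- AM1: the theorem at level `K_1(N)`. -/
def S_am1 : Prop := S_as1 → S_hih → S_trh → S_hon → S_main1

end Pool.Agent.T2h79.LG
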