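import Pool.Agent.T2h79.LG.Stm2

/-!
# No zeros off the critical line for almost all cusp forms: statements of the steps

Part 3 of the project LG: for all but `O(N^(n-δ))` of the cusp forms of level `K_1(N)` (and the same for the
principal level) the L-functions and their twists have no zeros with `Re s ≥ 1/2 + ε`, `|Im s| ≤ N^δ`.
-/

set_option autoImplicit false

open MeasureTheory Matrix
open scoped MatrixGroups ENNReal Topology ComplexConjugate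

noncomputable section

namespace Pool.Agent.T2h79.LG

open Pool.Agent.T2h77.N

/-! ### Part A: Hecke operators with small coefficients -/

/-- a fixed system of representatives of the integral matrices of determinant `m` -/
def RR (n m : ℕ) : Finset (MZ n) :=
  open Classical in if h : ∃ R : Finset (MZ n), IsReps (m : ℤ) R then h.choose else ∅

/-- `c` is the eigenvalue, divided by `m^((n-1)/2)`, of a Hecke operator `∑ a β · f(β g, β x)` of determinant `m` with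
`∑ |a β|² ≤ B m^(n-1)`, on all members of the family `f` -/
def Rp {n N k : ℕ} {H : Subgroup (GN n N)} (f : Fin k → GR n → XX H → ℂ) (m : ℕ) (B : ℝ) (c : Fin k → ℂ) : Prop :=
  ∃ a : MZ n → ℂ, ∑ β ∈ RR n m, ‖a β‖ ^ 2 ≤ B * (m : ℝ) ^ ((n : ℝ) - 1) ∧
    ∀ (i : Fin k) (g : GR n) (x : XX H), ∑ β ∈ RR n m, a β * f i (scl β * g) (rdM N β • x) =
      (((m : ℝ) ^ (((n : ℝ) - 1) / 2) : ℝ) : ℂ) * c i * f i g x

/-- lower triangular with positive diagonal -/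
def Lt {n : ℕ} (β : MZ n) : Prop := (∀ i j, i < j → β i j = 0) ∧ ∀ i, 0 < β i i

/-- the weight of a lower triangular matrix -/
def ww {n : ℕ} (β : MZ n) : ℝ := ∏ j : Fin n, ((β j j : ℤ) : ℝ) ^ (((j : ℕ) : ℝ) - ((n : ℝ) - 1) / 2)

/-- the weight of an orbit of `SL_n(ℤ)` -/
def wv {n : ℕ} (β : MZ n) : ℝ :=
  open Classical in
  if h : ∃ β' : MZ n, Lt β' ∧ ∃ γ : GZ n, β' = (γ : MZ n) * β then ww h.choose else 1

/-- WVL: the weight is well defined.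

Proof. Existence: `hnf` in `Pool.Agent.T2h77N.Reps` (the unit determinant is `1` as both determinants are positive). If
`β'` and `β''` are both lower triangular with positive diagonals and `β'' = γ β'`, then `γ` is lower triangular with
positive diagonal and determinant one, so its diagonal entries are 1, and the diagonals agree. -/
def S_wvl : Prop :=
  ∀ (n : ℕ) (β : MZ n), 0 < β.det → (∃ β' : MZ n, Lt β' ∧ ∃ γ : GZ n, β' = (γ : MZ n) * β) ∧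
    ∀ (β' : MZ n) (γ : GZ n), Lt β' → β' = (γ : MZ n) * β → wv β = ww β'

/-- WVA: sum over the sublattices.

Proof (from WVL). Let `β' ∈ Lt` be equivalent to `β`; `r = δ₀ β` for an integral `δ₀`, so `r = δ₁ β'`; by `hnf` write
`δ₁ = γ δ`, `δ` in Hermite normal form (`Lt`, `0 ≤ δ_ij < δ_jj` for `j < i`), of determinant `d`. Then `δ β'` is in `Lt`
and equivalent to `r`, so `wv r = ww (δ β') = ww δ ww β'` (the diagonal of a product of lower triangular matrices).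
The map `r ↦ δ` is injective on `R''` (uniqueness in `IsReps`). There are `∏_j e_j^(n-1-j)` normal forms with the diagonal
`(e_j)`, and `∏_j e_j^(n-1-j) ∏_j e_j^(j-(n-1)/2) = d^((n-1)/2)`; the number of the diagonals is at most `τ(d)^n`. -/
def S_wva : Prop :=
  ∀ n : ℕ, 1 ≤ n → ∀ (m d : ℕ) (R'' : Finset (MZ n)), 0 < m → 0 < d → IsReps ((m * d : ℕ) : ℤ) R'' →
    ∀ β : MZ n, β.det = (m : ℤ) → ∀ S : Finset (MZ n), S ⊆ R'' → (∀ r ∈ S, ∃ δ : MZ n, r = δ * β) →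
      ∑ r ∈ S, wv r ≤ (d : ℝ) ^ (((n : ℝ) - 1) / 2) * (d.divisors.card : ℝ) ^ n * wv β

/-- WVB: sum over the superlattices.

Proof (from WVL). Let `r' ∈ Lt` be equivalent to `r`. For `β ∈ S` let `β' ∈ Lt` be equivalent to `β`; `r' = δ β'` with `δ`
integral of determinant `d`; `δ` is lower triangular with positive diagonal. Replacing `β'` by `u β'`, `δ` by `δ u⁻¹`, `u`
lower unitriangular, we may assume that `0 ≤ δ_ij < δ_ii` for `j < i` (column operations, from the last column of each row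
backwards, or `hnf` for the transpose with the order of the indices reversed). `β ↦ δ` is injective (`β' = δ⁻¹ r'`).
`wv β = ww β' = ww r' / ww δ`. There are `∏_i e_i^i` such `δ` with the diagonal `(e_i)`, and
`∏_i e_i^i ∏_i e_i^((n-1)/2-i) = d^((n-1)/2)`; the number of the diagonals is at most `τ(d)^n`. -/
def S_wvb : Prop :=
  ∀ n : ℕ, 1 ≤ n → ∀ (m d : ℕ) (R : Finset (MZ n)), 0 < m → 0 < d → IsReps (m : ℤ) R →
    ∀ r : MZ n, r.det = ((m * d : ℕ) : ℤ) → ∀ S : Finset (MZ n), S ⊆ R → (∀ β ∈ S, ∃ δ : MZ n, r = δ * β) →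
      ∑ β ∈ S, wv β ≤ (d : ℝ) ^ (((n : ℝ) - 1) / 2) * (d.divisors.card : ℝ) ^ n * wv r

/-- SCH: the norm of the Hecke operator `T(d)` on the square summable functions of lattices.

Proof (from WVA, WVB: the Schur test). Let `E` be the factor there, `β | r` mean `∃ δ, r = δ β`. By the Cauchy-Schwarz
inequality `(∑_{β | r} a β)² ≤ (∑_{β | r} wv β) (∑_{β | r} a β² / wv β) ≤ E wv r ∑_{β | r} a β² / wv β`; sum over `r` and
exchange: `≤ E ∑_β a β² / wv β ∑_{r : β | r} wv r ≤ E² ∑ a β²`. (`wv > 0`.) -/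
def S_sch : Prop :=
  ∀ n : ℕ, 1 ≤ n → ∀ (m d : ℕ) (R R'' : Finset (MZ n)), 0 < m → 0 < d → IsReps (m : ℤ) R →
    IsReps ((m * d : ℕ) : ℤ) R'' → ∀ (a : MZ n → ℝ) (P : MZ n → Finset (MZ n)), (∀ β, 0 ≤ a β) →
    (∀ r β, β ∈ P r ↔ β ∈ R ∧ ∃ δ : MZ n, r = δ * β) →
      ∑ r ∈ R'', (∑ β ∈ P r, a β) ^ 2 ≤
        (d : ℝ) ^ ((n : ℝ) - 1) * (d.divisors.card : ℝ) ^ (2 * n) * ∑ β ∈ R, a β ^ 2

/-- RPM: multiplication by `T(d)`.

Proof (from SCH, REPG). Let `a` be the coefficients of `c`. For `β ∈ RR n m` and `δ ∈ RR n d` let `r(δ, β) ∈ RR n (m d)` be the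
representative of `δ β`: `f(scl r g, rdM r x) = f(scl(δ β) g, rdM(δ β) x)` (invariance), `scl (δ β) = scl δ * scl β`,
`rdM (δ β) = rdM δ * rdM β`. Apply the eigenvalue equation of `T(d)` at `(scl β g, rdM β x)` and then the one of `c`:
`∑_β ∑_δ a β f(scl(δ β) g, ...) = m^.. c d^.. l(d) f`. So the coefficient of `r` is `a'(r) = ∑ a β` over the pairs with
`r(δ, β) = r`; for given `r` and `β` there is at most one `δ` (its orbit is determined by `r β⁻¹`), and exactly one if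
`r = δ₀ β` for an integral `δ₀`. So `|a'(r)| ≤ ∑_{β | r} |a β|`; SCH. -/
def S_rpm : Prop :=
  ∀ n : ℕ, 1 ≤ n → ∀ (N : ℕ) [NeZero N] (H : Subgroup (GN n N)) (k : ℕ) (f : Fin k → GR n → XX H → ℂ)
    (l : Fin k → ℕ → ℂ), (∀ i, IsForm H (f i)) → (∀ i, IsEig (l i) (f i)) →
    ∀ (m d : ℕ) (B : ℝ) (c : Fin k → ℂ), 0 < m → 0 < d → m.Coprime N → d.Coprime N → Rp f m B c →
      Rp f (m * d) (B * (d.divisors.card : ℝ) ^ (2 * n)) fun i => c i * l i d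

/-- RPA: the constant one is represented by `m = 1`; sums and scalar multiples (Minkowski's inequality). -/
def S_rpa : Prop :=
  ∀ (n N : ℕ) [NeZero N] (H : Subgroup (GN n N)) (k : ℕ) (f : Fin k → GR n → XX H → ℂ), 1 ≤ n →
    (∀ i, IsForm H (f i)) → Rp f 1 1 (fun _ => 1) ∧
    (∀ (m : ℕ) (B B' : ℝ) (c c' : Fin k → ℂ), 0 ≤ B → 0 ≤ B' → Rp f m B c → Rp f m B' c' →
      Rp f m ((Real.sqrt B + Real.sqrt B') ^ 2) fun i => c i + c' i) ∧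
    ∀ (m : ℕ) (B : ℝ) (c : Fin k → ℂ) (z : ℂ), Rp f m B c → Rp f m (‖z‖ ^ 2 * B) fun i => z * c i

/-- the elementary symmetric polynomials -/
def es {n : ℕ} (α : Fin n → ℂ) (k : ℕ) : ℂ := ∑ s ∈ (Finset.univ : Finset (Fin n)).powersetCard k, ∏ j ∈ s, α j

/-- HES: the relation between the elementary and the complete symmetric polynomials. Proof: induction on `n`, or the
generating functions `∏ (1 - α_j X)` and `∏ (1 - α_j X)⁻¹` in `ℂ⟦X⟧` (see `T_DIR.lean` for the second one). -/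
def S_hes : Prop :=
  ∀ (n : ℕ) (α : Fin n → ℂ) (k : ℕ), ∑ j ∈ Finset.range (k + 1), (-1) ^ j * es α j * hs α (k - j) =
    if k = 0 then 1 else 0

/-- the coefficients of the inverse of the L-function -/
def LData.mob {n : ℕ} (D : LData n) (e : ℕ) : ℂ := e.factorization.prod fun p k => (-1) ^ k * es (D.α p) k

/-- the coefficients of the product of the L-function with the mollifier of length `Z` -/
def LData.cc {n : ℕ} (D : LData n) (Z m : ℕ) : ℂ := ∑ e ∈ m.divisors.filter (· < Z), D.lam (m / e) * D.mob e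

/-- RPO: the coefficients `mob e` and `cc Z m` are represented.

Proof (from RPM, RPA, HES). Let `c` be represented by `(m, B)` and `p` a prime not dividing `N`. By HES
`mob(p^k) = -∑_{j=1}^k lam(p^j) mob(p^(k-j))` for `k ≥ 1` (for `D i`; `lam(p^j) = h_j`, `mob(p^j) = (-1)^j e_j`), and
`lam(p^j) = χ(p^j) l(p^j)`. Induction on `k ≤ n`, RPM and RPA: `c mob(p^k)` is represented by `(m p^k, B A_k)` with `A_k`
depending on `k` and `n` only (`τ(p^j) = j + 1 ≤ n + 1`), `A_k ≤ A := A(n)`; for `k > n` it is `0` (represented with `B A`). By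
induction on the number of the prime factors `c mob(e)` is represented by `(m e, B A^ω(e))`, and `A^ω(e) ≤ C e^ε'`.
Starting with `c = 1`, `m = 1` this is the first claim. For the second: `mob(e) lam(m/e)` is represented by
`(m, C e^ε' τ(m/e)^(2n)) ` (RPM), at most `C m^(2ε')`, and there are at most `τ(m) ≤ C m^ε'` terms (RPA: the square root of
the bound is subadditive). -/
def S_rpo : Prop :=
  ∀ n : ℕ, 1 ≤ n → ∀ ε : ℝ, 0 < ε → ∃ C : ℝ, 1 ≤ C ∧ ∀ (N : ℕ) [NeZero N] (H : Subgroup (GN n N)) (k : ℕ)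
    (f : Fin k → GR n → XX H → ℂ) (l : Fin k → ℕ → ℂ) (χ : ℕ → ℂ) (D : Fin k → LData n),
    (∀ i, IsForm H (f i)) → (∀ i, IsEig (l i) (f i)) → (∀ m, ‖χ m‖ ≤ 1) →
    (∀ i, ∀ m : ℕ, 0 < m → m.Coprime N → (D i).lam m = χ m * l i m) →
      (∀ e : ℕ, 0 < e → e.Coprime N → Rp f e (C * (e : ℝ) ^ ε) fun i => (D i).mob e) ∧
      ∀ Z m : ℕ, 0 < m → m.Coprime N → Rp f m (C * (m : ℝ) ^ ε) fun i => (D i).cc Z m

/-- the off-diagonal terms are negligible for small determinants -/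
def TP (n : ℕ) (H : (N : ℕ) → Subgroup (GN n N)) (sz : ℕ → ℝ) : Prop :=
  ∀ M : ℝ, ∃ (C : ℝ) (K : ℕ), 1 ≤ C ∧ ∀ (N : ℕ) [NeZero N] (X Y : ℝ) (x : GR n), 1 ≤ X → 1 ≤ Y →
    C * (X * Y) ^ K ≤ N → x ∈ SL n Y → ∀ T : Finset (MZ n),
    (∀ β ∈ T, 0 < β.det ∧ (β.det : ℝ) ≤ X ∧ IsUnit ((β.det : ℤ) : ZMod N)) →
    (∀ β ∈ T, ∀ β' ∈ T, β'.det ≤ 2 * β.det) →
    (∀ β ∈ T, ∀ β' ∈ T, ∀ γ : GZ n, β = (γ : MZ n) * β' → β = β') →
    ∀ β ∈ T, ∑ β' ∈ T, ∑' c : XX (H N), (Nat.card (pr M x c β β') : ℝ) ≤ 2 * sz N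

/-- TP0: the principal level. Proof (from CNT): `av β r = 1` if `det β * r < 1`, since `β⁻¹ w` is in `(1/m) ℤ^n`. -/
def S_tp0 : Prop := ∀ n : ℕ, 1 ≤ n → TP n (fun N => (⊥ : Subgroup (GN n N))) fun N => Nat.card (GN n N)

/-- AVT: `av1` for small determinants.

Proof. The pairs with `W = 0`: at most `N^n`. If `W ≠ 0`: the columns of `β⁻¹ W` are in `(1/m) ℤ^n` and at most `r`, so there
are at most `(2 m r + 1)^(n²)` such `W`. Let `g` be the content of `W`: `β⁻¹ (W / g)` is nonzero in `(1/m) M_n(ℤ)`, so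
`g ≤ m r`. An entry of `W / g` ... : for every prime power `q = p^a` exactly dividing `N / gcd(g, N)` some entry of `W / g` is
prime to `p`; so `W v = 0` modulo `N` has at most `N^(n-1) g` solutions (or use SOL for one suitable row combination:
choose a row `φ` of `A W` with content `g`, `A` integral; `Φ = φ` has `CL Φ = g ℤ`, so by SOL (`ρ = 1`) at most
`N^(n-1) g` solutions). In total at most `N^n + (2 m r + 1)^(n²) m r N^(n-1) ≤ 2 N^n`. -/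
def S_avt : Prop :=
  ∀ n : ℕ, 1 ≤ n → ∀ (β : MZ n) (r : ℝ) (N : ℕ) [NeZero N], 0 < β.det → 1 ≤ r →
    (3 * (β.det : ℝ) * r) ^ (n ^ 2 + 1) ≤ N → (av1 β r N : ℝ) ≤ 2 * (N : ℝ) ^ n

/-- TP1: the level `K_1(N)`. Proof: from CN1 and AVT. -/
def S_tp1 : Prop := ∀ n : ℕ, 2 ≤ n → TP n (fun N => H1 n N) fun N => (N : ℝ) ^ n

/-- LST: the large sieve inequality for arbitrary Hecke operators of small determinant.

Proof (from TRW, SYM, `S_rcf`, REPG and `S_cov`, `S_iw`, `S_ent`, `S_int`), as LSP and LSI: for `m ∈ B` let `a_m` be the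
coefficients of `c m`; TRW for `T = ⋃ RR n m` with the coefficients `b_m m^(-(n-1)/2) a_m β`; sum over `c`;
`‖a β‖ ‖a β'‖ ≤ (‖a β‖² + ‖a β'‖²) / 2`, SYM, TP for `M` and `M'`: at most `C sz N ∑_m |b_m|² m^(-(n-1)) ∑_β |a_m β|²`; then
integrate over the low region. -/
def S_lst : Prop :=
  ∀ n : ℕ, 1 ≤ n → ∀ (H : (N : ℕ) → Subgroup (GN n N)) (sz : ℕ → ℝ), (∀ N, 0 ≤ sz N) → TP n H sz →
    ∀ χ : GR n → ℝ, Continuous χ → HasCompactSupport χ → ∃ (C : ℝ) (K : ℕ), 1 ≤ C ∧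
    ∀ (N : ℕ) [NeZero N] (F : Set (GR n)), IsFD F → ∀ (k : ℕ) (f : Fin k → GR n → XX (H N) → ℂ),
    (∀ i, IsForm (H N) (f i)) → (∀ i, IsL2 F (f i)) → (∀ i j, ip F (f i) (f j) = if i = j then 1 else 0) →
    ∀ (X Y : ℝ) (B : Finset ℕ) (b : ℕ → ℂ) (Bd : ℕ → ℝ) (c : ℕ → Fin k → ℂ), 1 ≤ X → 1 ≤ Y →
    C * (X * Y) ^ K ≤ N → (∀ m ∈ B, 0 < m ∧ (m : ℝ) ≤ X ∧ m.Coprime N) → (∀ m ∈ B, ∀ m' ∈ B, m' ≤ 2 * m) →
    (∀ m ∈ B, 0 ≤ Bd m ∧ Rp f m (Bd m) (c m)) →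
    ∑ i, ‖∑ m ∈ B, b m * c m i‖ₑ ^ 2 * ∫⁻ g in F ∩ sat (SL n Y), sq (Rc χ (f i)) g ∂(mu n) ≤
      ENNReal.ofReal (C * sz N * (1 + Real.log Y) ^ n * ∑ m ∈ B, ‖b m‖ ^ 2 * Bd m)

/-! ### Part B: detecting zeros -/

/-- the mollifier -/
def LData.Mo {n : ℕ} (D : LData n) (N Z : ℕ) (s : ℂ) : ℂ :=
  ∑ e ∈ (Finset.range Z).filter (fun e => 0 < e ∧ e.Coprime N), D.mob e * (e : ℂ) ^ (-s)

/-- the cut-off function -/
def VV (x : ℝ) : ℂ :=
  ∫ v : ℝ, (x : ℂ) ^ (-(2 + v * Complex.I)) * Complex.exp ((2 + v * Complex.I) ^ 2) / (2 + v * Complex.I)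

/-- the zero detecting Dirichlet polynomial -/
def LData.PP {n : ℕ} (D : LData n) (N Z X : ℕ) (s : ℂ) : ℂ :=
  ∑ m ∈ (Finset.range (X ^ 2)).filter (fun m => Z ≤ m ∧ 0 < m ∧ m.Coprime N),
    D.cc Z m * VV ((m : ℝ) / X) * (m : ℂ) ^ (-s)

/-- the L-function without the Euler factors at the primes dividing `N` -/
def LData.LN {n : ℕ} (D : LData n) (N : ℕ) (s : ℂ) : ℂ :=
  D.L s * ∏ p ∈ N.primeFactors, ∏ j, (1 - D.α p j * (p : ℂ) ^ (-s))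

/-- VVF: the cut-off function.

Proof (from SHF). Let `κ₀ = ∫ exp((2+iv)²)/(2+iv) dv`; it is not zero (see the proof of FEQ, `T_FEQ.lean`), and
`∫ exp((-c+iv)²)/(-c+iv) dv = -κ₀` for `c > 0`. For `0 < x ≤ 1`: `VV x - κ₀ = ∫ (x^(-w) - 1)/w exp(w²) dv` on `Re w = 2`, the
integrand is entire (times `exp(w²)`), shift to `Re w = -1`: it is `∫_{Re w = -1} x^(-w) exp(w²)/w dv + κ₀`, and
`|x^(-w)| = x`. So `|VV x - 2 κ₀| ≤ C x`. For all `x`: shift to `Re w = 6`: `|VV x| ≤ C x^(-6)`; with the first part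
`|VV x| ≤ C` for all `x > 0`. -/
def S_vvf : Prop :=
  ∃ (κ : ℂ) (C : ℝ), κ ≠ 0 ∧ 1 ≤ C ∧ (∀ x : ℝ, 0 < x → ‖VV x‖ ≤ C ∧ ‖VV x‖ ≤ C * x ^ (-6 : ℝ)) ∧
    ∀ x : ℝ, 0 < x → x ≤ 1 → ‖VV x - κ‖ ≤ C * x

/-- GRW: growth in vertical strips. Proof: `Λ` by `bdd`; `1/Γ_ℝ` is entire (`Complex.differentiable_Gammaℝ_inv`) and
`O(exp(C (1 + |Im s|)))` in vertical strips (Stirling; grep `gam_inv` in `Pool/Agent/W169/HF`, `t_GINV` in
`Pool/Agent/T3h43/SL`; move to the right by the functional equation of Gamma). -/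
def S_grw : Prop :=
  ∀ (n : ℕ) (D : LData n), D.Ok → Differentiable ℂ D.L ∧ ∀ a b : ℝ, ∃ M : ℝ, ∀ s : ℂ, a ≤ s.re → s.re ≤ b →
    ‖D.L s‖ ≤ Real.exp (M * (1 + |s.im|))

/-- COB: bounds for the coefficients. Proof: `|es α k| ≤ 2^n p^(k/2)`, zero for `k > n`, so `|mob e| ≤ C e^(1/2+1/16)`;
LAM with `1/16`; `τ(m) ≤ C m^(1/16)`. `cc Z 1 = 1` if `Z ≥ 2`, and `cc Z m = 0` for `1 < m < Z`: all divisors of `m` are
less than `Z`, so it is the coefficient of `lam * mob` (Dirichlet convolution), which is multiplicative and zero at prime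
powers by HES. -/
def S_cob : Prop :=
  ∀ n : ℕ, ∃ C : ℝ, 1 ≤ C ∧ ∀ D : LData n, D.Ok →
    (∀ e : ℕ, 0 < e → ‖D.mob e‖ ≤ C * (e : ℝ) ^ (3 / 4 : ℝ)) ∧
    (∀ Z m : ℕ, 0 < m → ‖D.cc Z m‖ ≤ C * (m : ℝ) ^ (3 / 4 : ℝ)) ∧
    ∀ Z : ℕ, 2 ≤ Z → D.cc Z 1 = 1 ∧ ∀ m : ℕ, 1 < m → m < Z → D.cc Z m = 0

/-- SER: the Dirichlet series of `LN` times the mollifier.

Proof (from DIR, COB). For `Re s > 3/2` we have `D.L s = ∑ lam m m^(-s)` (the Gamma factors do not vanish), absolutely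
convergent, `∑_m lam m m^(-s) = (∑_{m | N^∞} lam m m^(-s)) (∑_{(m,N)=1} lam m m^(-s))`, and the first factor is
`∏_{p | N} ∏_j (1 - α_j p^(-s))⁻¹`. So `LN s = ∑_{(m,N)=1} lam m m^(-s)`. Multiply by the finite sum `Mo`. -/
def S_ser : Prop :=
  ∀ (n : ℕ) (D : LData n), D.Ok → ∀ (N Z : ℕ), 0 < N → ∀ s : ℂ, 2 ≤ s.re →
    Summable (fun m : ℕ => if 0 < m ∧ m.Coprime N then D.cc Z m * (m : ℂ) ^ (-s) else 0) ∧
    D.LN N s * D.Mo N Z s = ∑' m : ℕ, if 0 < m ∧ m.Coprime N then D.cc Z m * (m : ℂ) ^ (-s) else 0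

/-- SHP: a pointwise bound for a Dirichlet polynomial from its mean square on a line to the left.

Proof (from SHF). `P` is entire and bounded in vertical strips. Let `b = Re s - σ₁` and
`κ₀ = ∫ exp((2+iv)²)/(2+iv) dv ≠ 0` (see `T_FEQ.lean`). SHF for `(P(s+w) - P(s))/w` between `Re w = -b` and `Re w = 2` gives
`2 κ₀ P(s) = ∫_{Re w = 2} P(s+w) exp(w²)/w dv - ∫_{Re w = -b} P(s+w) exp(w²)/w dv`. In the first integral
`|P| ≤ ∑ |a m| m^(-(Re s + 2))`; the second one is at most `(e/b) ∫ |P(σ₁ + i(Im s + v))| exp(-v²) dv`, and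
`exp(-v²) ≤ 2 (1+v²)⁻¹`, `(1+v²)⁻¹ ≤ 2 (1 + (Im s)²) (1+(Im s + v)²)⁻¹`, Cauchy-Schwarz. -/
def S_shp : Prop :=
  ∀ ε : ℝ, 0 < ε → ∃ C : ℝ, 1 ≤ C ∧ ∀ (B : Finset ℕ) (a : ℕ → ℂ) (σ g : ℝ) (s : ℂ), (∀ m ∈ B, 0 < m) → 0 ≤ g →
    σ + ε ≤ s.re → s.re ≤ σ + 1 →
    ∫ v : ℝ, (1 + v ^ 2)⁻¹ * ‖∑ m ∈ B, a m * (m : ℂ) ^ (-((σ : ℂ) + v * Complex.I))‖ ^ 2 ≤ g ^ 2 →
    ‖∑ m ∈ B, a m * (m : ℂ) ^ (-s)‖ ≤ C * ((1 + |s.im|) ^ 2 * g + ∑ m ∈ B, ‖a m‖ * (m : ℝ) ^ (-(s.re + 2)))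

/-- DET: detecting a zero.

Proof (from VVF, GRW, COB, SER, SHP, SHF). Let `Φ(s) = LN s * Mo s`, entire, `Φ(s₀) = 0` at the given zero `s₀`. So
`Φ(s₀+w) X^w / w` is entire, and by SHF (growth: GRW, the other factors are bounded in strips)
`∫_{Re w = 2} Φ(s₀+w) X^w exp(w²)/w dv = ∫_{Re w = -b} (the same)`, `b = Re s₀ - 1/2 ≥ ε`. By SER and COB the left side is
`∑_m cc m m^(-s₀) VV(m/X) = VV(1/X) + PP(s₀) + ∑_{m ≥ X²} ...` (sums over `m` prime to `N`; the terms `1 < m < Z` vanish), the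
last sum is at most `∑_{m ≥ X²} C m^(3/4-1/2) (m/X)^(-6) ≤ C X⁻¹`, and `|VV(1/X) - κ| ≤ C X⁻¹`. By SHP (`σ = 1/2 + ε/2`,
`ε/2` in place of `ε`) `|PP(s₀)| ≤ C ((1+|Im s₀|)² g + ∑_{m ≥ Z} C m^(3/4) m^(-5/2)) ≤ C ((1+|Im s₀|)² g + Z^(-1/2))`. The
right side is at most `X^(-b) (e/b) ∫ |Φ(1/2 + i(γ+v))| exp(-v²) dv`; `|LN(1/2+it)| ≤ 2^(n ω(N)) |L(1/2+it)|`
(`|α_j| p^(-1/2) ≤ 1`), `2^(n ω(N)) ≤ C N^ε'`; `|L(1/2+it)| ≤ G (1+|t|)^K₀`, `(1+|γ+v|)^K₀ ≤ (1+|γ|)^K₀ (1+|v|)^K₀`, and for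
`Mo` Cauchy-Schwarz as in SHP: at most `C X^(-ε) N^ε' G (1+|γ|)^(K₀+2) G`. So
`|κ| ≤ C (1+|γ|)^(K₀+2) (N^ε' X^(-ε) G² + g + Z^(-1/2)) + C X⁻¹`, `X⁻¹ ≤ Z^(-1/2)`. -/
def S_det : Prop :=
  ∀ (n : ℕ) (ε ε' : ℝ) (K₀ : ℕ), 0 < ε → ε ≤ 1 / 2 → 0 < ε' → ∃ (C : ℝ) (K : ℕ), 1 ≤ C ∧ ∀ D : LData n, D.Ok →
    ∀ (N Z X : ℕ) (G g : ℝ), 0 < N → 2 ≤ Z → Z ≤ X → 1 ≤ G → 0 ≤ g →
    (∀ t : ℝ, ‖D.L (1 / 2 + t * Complex.I)‖ ≤ G * (1 + |t|) ^ K₀) →
    ∫ v : ℝ, (1 + v ^ 2)⁻¹ * ‖D.Mo N Z (1 / 2 + v * Complex.I)‖ ^ 2 ≤ G ^ 2 →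
    ∫ v : ℝ, (1 + v ^ 2)⁻¹ * ‖D.PP N Z X (((1 / 2 + ε / 2 : ℝ) : ℂ) + v * Complex.I)‖ ^ 2 ≤ g ^ 2 →
    ∀ s : ℂ, D.L s = 0 → 1 / 2 + ε ≤ s.re → s.re ≤ 3 / 2 →
      1 ≤ C * (1 + |s.im|) ^ K * ((N : ℝ) ^ ε' * (X : ℝ) ^ (-ε) * G ^ 2 + g + (Z : ℝ) ^ (-(1 / 2) : ℝ))

end Pool.Agent.T2h79.LG
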