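import Pool.Agent.T2h79.LG.Stm2

/-!
# Project LG: task AM1
-/

set_option autoImplicit false

open MeasureTheory Matrix
open scoped MatrixGroups ENNReal Topology

noncomputable section

namespace Pool.Agent.T2h79.LG.AM1

open Pool.Agent.T2h77.N

theorem t_AM1 : S_am1 := by
  intro hasl hhic htrk hhon n hn U hU T ε hε
  obtain ⟨χ, hχ1, hχ2, hχ3, hχ4, hχ5⟩ := exists_bump n hU
  obtain ⟨η₀, hη₀, h1⟩ := hhic n hn
  obtain ⟨η₁, hη₁, h2⟩ := hasl n (by omega) χ hχ1 hχ2 T ε hε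
  set η := min η₀ η₁ with hη
  have hη0 : 0 < η := lt_min hη₀ hη₁
  obtain ⟨C₁, hC₁, h3⟩ := h1 U χ hχ1 hχ2 hχ3 hχ4 hχ5 η hη0 (min_le_left _ _)
  obtain ⟨δ₀, C₂, N₀, hδ₀, hC₂, h4⟩ := h2 η C₁ hη0 (min_le_right _ _) hC₁
  obtain ⟨C₃, hC₃, h5⟩ := htrk n hn U hU
  set δ := min δ₀ (η / 2) with hδ
  have hδ0 : 0 < δ := lt_min hδ₀ (by positivity)
  set M : ℝ := max 1 (N₀ : ℝ) with hM
  have hM1 : 1 ≤ M := le_max_left _ _
  have hlM := Real.log_nonneg hM1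
  refine ⟨δ, C₁ + C₂ + C₃ * (1 + Real.log M) ^ n * M ^ δ, hδ0, by positivity, ?_⟩
  intro N _ F hF k f D hf hon hD hL
  obtain ⟨hi1, hi2, hi3, -⟩ := hhon n N (by omega)
  have hN1 : (1 : ℝ) ≤ N := by exact_mod_cast NeZero.one_le
  have hN0 : (0 : ℝ) < N := by linarith
  have hix : ((H1 n N).index : ℝ) ≤ (N : ℝ) ^ (n : ℝ) := by
    rw [Real.rpow_natCast]
    exact_mod_cast hi1
  have hsub : (N : ℝ) ^ ((n : ℝ) - δ) = (N : ℝ) ^ (n : ℝ) * (N : ℝ) ^ (-δ) := by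
    rw [← Real.rpow_add hN0, sub_eq_add_neg]
  have hNn : 0 < (N : ℝ) ^ ((n : ℝ) - δ) := by positivity
  by_cases hNN : N₀ ≤ N
  · obtain ⟨I, hI, hI'⟩ := h3 N (H1 n N) F hi2 hi3 hF k f hf hon
    have h6 := h4 N F hNN hF k f D (fun i => (hf i).1) (fun i => (hf i).2.1) hon hD (Iᶜ)
      (fun i _ => by
        obtain ⟨t, ht, ht'⟩ := hL i
        exact ⟨t, ht.trans (Real.rpow_le_rpow_of_exponent_le hN1 (min_le_left _ _)), ht'⟩)
      (fun i hi => hI' i (by simpa using hi))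
    have h7 : (k : ℝ) = (I.card : ℝ) + (Iᶜ.card : ℝ) := by
      have := Finset.card_add_card_compl I
      rw [Fintype.card_fin] at this
      exact_mod_cast this.symm
    have h8 : (N : ℝ) ^ (-(η / 2)) ≤ (N : ℝ) ^ (-δ) :=
      Real.rpow_le_rpow_of_exponent_le hN1 (by linarith [min_le_right δ₀ (η / 2)])
    have h9 : (N : ℝ) ^ ((n : ℝ) - δ₀) ≤ (N : ℝ) ^ ((n : ℝ) - δ) :=
      Real.rpow_le_rpow_of_exponent_le hN1 (by linarith [min_le_left δ₀ (η / 2)])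
    have h10 : 0 ≤ C₃ * (1 + Real.log M) ^ n * M ^ δ := by positivity
    have h11 : C₁ * (H1 n N).index * (N : ℝ) ^ (-(η / 2)) ≤ C₁ * (N : ℝ) ^ ((n : ℝ) - δ) := by
      rw [hsub, mul_assoc]
      exact mul_le_mul_of_nonneg_left (mul_le_mul hix h8 (by positivity) (by positivity)) (by linarith)
    calc (k : ℝ) = (I.card : ℝ) + (Iᶜ.card : ℝ) := h7
      _ ≤ C₁ * (H1 n N).index * (N : ℝ) ^ (-(η / 2)) + C₂ * (N : ℝ) ^ ((n : ℝ) - δ₀) := add_le_add hI h6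
      _ ≤ C₁ * (N : ℝ) ^ ((n : ℝ) - δ) + C₂ * (N : ℝ) ^ ((n : ℝ) - δ) :=
          add_le_add h11 (mul_le_mul_of_nonneg_left h9 (by linarith))
      _ = (C₁ + C₂) * (N : ℝ) ^ ((n : ℝ) - δ) := by ring
      _ ≤ (C₁ + C₂ + C₃ * (1 + Real.log M) ^ n * M ^ δ) * (N : ℝ) ^ ((n : ℝ) - δ) :=
          mul_le_mul_of_nonneg_right (by linarith) hNn.le
  · have h6 := h5 N (H1 n N) F hi3 hF k f hf hon
    have hNM : (N : ℝ) ≤ M := by
      refine le_trans ?_ (le_max_right _ _)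
      exact_mod_cast (not_le.1 hNN).le
    have hlN := Real.log_nonneg hN1
    have h7 : (1 + Real.log N) ^ n ≤ (1 + Real.log M) ^ n * M ^ δ * (N : ℝ) ^ (-δ) := by
      have e1 : 1 ≤ M ^ δ * (N : ℝ) ^ (-δ) := by
        rw [Real.rpow_neg hN0.le, ← div_eq_mul_inv, one_le_div (by positivity)]
        exact Real.rpow_le_rpow hN0.le hNM hδ0.le
      have e2 : (1 + Real.log N) ^ n ≤ (1 + Real.log M) ^ n :=
        pow_le_pow_left₀ (by linarith) (by linarith [Real.log_le_log hN0 hNM]) n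
      have e3 : 0 ≤ (1 + Real.log M) ^ n := by positivity
      calc (1 + Real.log N) ^ n ≤ (1 + Real.log M) ^ n * 1 := by rw [mul_one]; exact e2
        _ ≤ (1 + Real.log M) ^ n * (M ^ δ * (N : ℝ) ^ (-δ)) := mul_le_mul_of_nonneg_left e1 e3
        _ = _ := by ring
    calc (k : ℝ) ≤ C₃ * (H1 n N).index * (1 + Real.log N) ^ n := h6
      _ ≤ C₃ * (N : ℝ) ^ (n : ℝ) * ((1 + Real.log M) ^ n * M ^ δ * (N : ℝ) ^ (-δ)) :=
          mul_le_mul (mul_le_mul_of_nonneg_left hix (by linarith)) h7 (by positivity) (by positivity)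
      _ = (C₃ * (1 + Real.log M) ^ n * M ^ δ) * (N : ℝ) ^ ((n : ℝ) - δ) := by
          rw [hsub]
          ring
      _ ≤ (C₁ + C₂ + C₃ * (1 + Real.log M) ^ n * M ^ δ) * (N : ℝ) ^ ((n : ℝ) - δ) :=
          mul_le_mul_of_nonneg_right (by linarith) hNn.le

end Pool.Agent.T2h79.LG.AM1
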